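import Pool.Agent.H57.CR.Sep
import Pool.Agent.H2.TG.Pigeon

/-!
# The leaves close up (module Close)

`shf k j x = (shp k x.1, x.2 + j π)`, `shp k y = (y.1, y.2.1 + k, y.2.2)`; `shf k j (shf k' j' x) = shf (k + k') (j + j') x`.

PROOFS.
* `no_odd`: let `x ∈ PS`, `(Λ s' x).1 = shp k (Λ s x).1`, `s ≠ s'`. Both `Λ s' x` and `shf k 0 (Λ s x)` are in `PS` over the same
  point, so `Λ s' x = shf k j (Λ s x)` for some `j` (`PS_unique`). If `j` were odd: `leaf_odd` at `y = Λ s x`: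
  `Λ w (shf k j y) = shf k j (Λ (-w) y)`, i.e. `Λ (w + s') x = shf k j (Λ (s - w) x)`; for `w = (s - s') / 2` both sides are at the time
  `(s + s') / 2`: comparing phases, `j π = 0`, contradiction. So `j` is even.
* `ret_of`: if moreover `j` is even then `Λ (s' - s) x = shf k j x` (apply `Λ (-s)`, `leaf_shf`, `leaf_add`).
* `ret_lower`: there is `s₀ > 0` such that `(Λ Q x).1 ≠ shp k x.1` for `0 < Q < s₀`, `x ∈ PS`, `k ∈ ℤ`. With `B` from `leaf_phi` let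
  `s₀ = min 1 (1 / B)`. `|t(Q) - t(0)| ≤ Q < 1` and equal to `|k|`, so `k = 0`; the function
  `s ↦ t(s) cos φ₀ + r(s) sin φ₀` (`φ₀ = x.2`) has derivative `cos (φ(s) - φ₀) ≥ cos 1 > 0` on `[0, s₀]` (`|φ(s) - φ₀| ≤ B s ≤ 1`), so it is
  strictly increasing there, but it has equal values at `0` and `Q`: contradiction.
* `exists_closes`: let `M` bound `|r|` on `K`, `δ` from `sep`, `n` from `pigeon 1 M` (for `δ`); `T₀ = n + 1`. For `x ∈ PS` the points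
  `p k = (fract (t(k)), r(k))`, `k ≤ n`, give `i < k ≤ n` with both coordinates `δ`-close, so with
  `l = ⌊t(k)⌋ - ⌊t(i)⌋` the point `y = shp (-l) (Λ k x).1 ∈ K` satisfies `‖y - (Λ i x).1‖ < δ` (same first component, sup norm);
  `sep` at `Λ i x` gives `|s| < 1` with `(Λ (s + i) x).1 = y`, so `(Λ k x).1 = shp l (Λ (i + s) x).1`, `0 < k - (i + s) ≤ n + 1`. By `no_odd`
  and `ret_of` the set `R = {Q | 0 < Q, ∃ l j, Even j ∧ Λ Q x = shf l j x}` contains `k - (i + s) ≤ T₀`, and it is contained in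
  `[s₀, ∞)` by `ret_lower`. It is closed: if `Q_n ∈ R`, `Q_n → Q`, the integers `l_n`, `j_n` are bounded (`|l_n| ≤ |Q_n|`,
  `|j_n| π ≤ B |Q_n|`), so constant on a subsequence; continuity of `Λ`. Let `T = sInf R ∈ R`. `inj`: `no_odd` and `ret_of` with
  `0 < s' - s < T` contradict minimality.
-/

set_option autoImplicit false
set_option linter.unusedSectionVars false

open scoped ContDiff Topology
open Set

namespace Pool.Agent.H57.CR

open Pool.Agent.H2.TG (IsFlow)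

variable {P : Type} [NormedAddCommGroup P] [NormedSpace ℝ P] [FiniteDimensional ℝ P] {N : Set P}
  {K : Set (P × ℝ × ℝ)} {f : P × ℝ × ℝ → ℝ} {κ : (P × ℝ × ℝ) × ℝ → ℝ}
  {Λ : ℝ → (P × ℝ × ℝ) × ℝ → (P × ℝ × ℝ) × ℝ}

theorem no_odd (hL : Leaf N K f κ Λ) {x : (P × ℝ × ℝ) × ℝ} (hx : x ∈ PS N K) {s s' : ℝ} {k : ℤ}
    (hne : s ≠ s') (h : (Λ s' x).1 = shp k (Λ s x).1) :
    ∃ j : ℤ, Even j ∧ Λ s' x = shf k j (Λ s x) := by
  have hy := leaf_mem hL hx s
  have hy' := leaf_mem hL hx s'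
  have h1 : (shp k (Λ s x).1, (Λ s' x).2) ∈ PS N K := by
    rw [← h]
    exact hy'
  obtain ⟨j, hj⟩ := PS_unique hL.fam h1 (PS_shp hL.fam k hy)
  have he : Λ s' x = shf k j (Λ s x) := Prod.ext h hj
  refine ⟨j, ?_, he⟩
  by_contra hodd
  rw [Int.not_even_iff_odd] at hodd
  have h2 := leaf_odd hL hy k hodd ((s - s') / 2)
  rw [← he, leaf_add hL, leaf_add hL] at h2
  have e1 : (s - s') / 2 + s' = (s + s') / 2 := by ring
  have e2 : -((s - s') / 2) + s = (s + s') / 2 := by ring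
  rw [e1, e2] at h2
  have h3 := congrArg Prod.snd h2
  simp only [shf] at h3
  have h4 : (j : ℝ) * Real.pi = 0 := by linarith
  rcases mul_eq_zero.1 h4 with h5 | h5
  · have h6 : j = 0 := by exact_mod_cast h5
    rw [h6] at hodd
    exact absurd hodd (by decide)
  · exact Real.pi_ne_zero h5

theorem ret_of (hL : Leaf N K f κ Λ) {x : (P × ℝ × ℝ) × ℝ} (hx : x ∈ PS N K) {s s' : ℝ} {k j : ℤ}
    (hj : Even j) (h : Λ s' x = shf k j (Λ s x)) : Λ (s' - s) x = shf k j x := by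
  have h1 := congrArg (Λ (-s)) h
  rw [leaf_shf hL (leaf_mem hL hx s) k hj, leaf_add hL, leaf_add hL, neg_add_cancel,
    hL.flow.zero] at h1
  have e1 : -s + s' = s' - s := by ring
  rwa [e1] at h1

private lemma close_t_le (hL : Leaf N K f κ Λ) (x : (P × ℝ × ℝ) × ℝ) {Q : ℝ} (hQ : 0 ≤ Q) :
    |(Λ Q x).1.2.1 - x.1.2.1| ≤ Q := by
  have h := Convex.norm_image_sub_le_of_norm_hasDerivWithin_le
    (f := fun s => (Λ s x).1.2.1) (f' := fun s => Real.cos (Λ s x).2) (C := 1)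
    (s := Set.Icc 0 Q) (x := 0) (y := Q)
    (fun s _ => (leaf_t hL x s).hasDerivWithinAt)
    (fun s _ => by rw [Real.norm_eq_abs]; exact Real.abs_cos_le_one _)
    (convex_Icc _ _) ⟨le_rfl, hQ⟩ ⟨hQ, le_rfl⟩
  simp only [hL.flow.zero, Real.norm_eq_abs, sub_zero, one_mul, abs_of_nonneg hQ] at h
  exact h

theorem ret_lower (hL : Leaf N K f κ Λ) : ∃ s₀ : ℝ, 0 < s₀ ∧ ∀ x ∈ PS N K, ∀ Q : ℝ, 0 < Q → Q < s₀ →
    ∀ k : ℤ, (Λ Q x).1 ≠ shp k x.1 := by
  obtain ⟨B, hB, hphi⟩ := leaf_phi hL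
  refine ⟨min 1 (1 / B), lt_min one_pos (one_div_pos.2 hB), fun x _ Q hQ0 hQ k hk => ?_⟩
  have hQ1 : Q < 1 := lt_of_lt_of_le hQ (min_le_left _ _)
  have hQB : Q < 1 / B := lt_of_lt_of_le hQ (min_le_right _ _)
  have ht := congrArg (fun z : P × ℝ × ℝ => z.2.1) hk
  have hr := congrArg (fun z : P × ℝ × ℝ => z.2.2) hk
  simp only [shp] at ht hr
  have hle := close_t_le hL x hQ0.le
  have hk0 : k = 0 := by
    have h1 : |(k : ℝ)| < 1 := by
      have : (Λ Q x).1.2.1 - x.1.2.1 = k := by linarith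
      rw [this] at hle
      linarith
    have h2 : |k| < 1 := by exact_mod_cast h1
    exact Int.abs_lt_one_iff.1 h2
  rw [hk0, Int.cast_zero, add_zero] at ht
  set c := x.2 with hc
  let g : ℝ → ℝ := fun s => (Λ s x).1.2.1 * Real.cos c + (Λ s x).1.2.2 * Real.sin c
  have hg : ∀ s, HasDerivAt g (Real.cos ((Λ s x).2 - c)) s := by
    intro s
    have h := ((leaf_t hL x s).mul_const (Real.cos c)).add ((leaf_r hL x s).mul_const (Real.sin c))
    rw [Real.cos_sub]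
    exact h
  have hmono : StrictMonoOn g (Set.Icc 0 Q) := by
    refine strictMonoOn_of_deriv_pos (convex_Icc _ _)
      (fun s _ => (hg s).continuousAt.continuousWithinAt) fun s hs => ?_
    rw [interior_Icc] at hs
    rw [(hg s).deriv]
    have h1 := hphi x s
    have h2 : B * |s| ≤ 1 := by
      rw [abs_of_pos hs.1]
      have : B * Q < 1 := by
        rw [lt_div_iff₀ hB] at hQB
        linarith
      have := mul_le_mul_of_nonneg_left hs.2.le hB.le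
      linarith
    have h3 := abs_le.1 (h1.trans h2)
    have hpi := Real.pi_gt_three
    exact Real.cos_pos_of_mem_Ioo ⟨by linarith [h3.1], by linarith [h3.2]⟩
  have h := hmono ⟨le_rfl, hQ0.le⟩ ⟨hQ0.le, le_rfl⟩ hQ0
  simp only [g, hL.flow.zero, ht, hr] at h
  exact lt_irrefl _ h

private lemma close_bound (hL : Leaf N K f κ Λ) {B : ℝ}
    (hphi : ∀ x s, |(Λ s x).2 - x.2| ≤ B * |s|) {x : (P × ℝ × ℝ) × ℝ} {Q : ℝ} (hQ : 0 ≤ Q)
    {l j : ℤ} (h : Λ Q x = shf l j x) : |(l : ℝ)| ≤ Q ∧ |(j : ℝ)| ≤ B * Q := by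
  have ht := close_t_le hL x hQ
  have hp := hphi x Q
  rw [h, abs_of_nonneg hQ] at hp
  rw [h] at ht
  simp only [shf, shp, add_sub_cancel_left] at ht hp
  refine ⟨ht, ?_⟩
  rw [abs_mul, abs_of_pos Real.pi_pos] at hp
  have hpi := Real.pi_gt_three
  have h0 := abs_nonneg (j : ℝ)
  nlinarith

private lemma close_first (hL : Leaf N K f κ Λ) : ∃ T₀ : ℝ, 0 < T₀ ∧ ∀ x ∈ PS N K,
    ∃ (Q : ℝ) (l j : ℤ), 0 < Q ∧ Q ≤ T₀ ∧ Even j ∧ Λ Q x = shf l j x := by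
  obtain ⟨M, hM⟩ := hL.fam.bdd
  obtain ⟨δ, hδ, hsep⟩ := sep hL
  obtain ⟨n, -, hpig⟩ := Pool.Agent.H2.TG.pigeon 1 M hδ
  refine ⟨n + 1, by positivity, fun x hx => ?_⟩
  obtain ⟨i, k, hik, hkn, h1, h2⟩ := hpig
    (fun k => (Int.fract (Λ k x).1.2.1, (Λ k x).1.2.2)) (fun k _ => by
      refine ⟨?_, hM _ (leaf_mem hL hx k).1⟩
      rw [abs_of_nonneg (Int.fract_nonneg _)]
      exact (Int.fract_lt_one _).le)
  simp only at h1 h2
  set l : ℤ := ⌊(Λ k x).1.2.1⌋ - ⌊(Λ i x).1.2.1⌋ with hl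
  have hyK : shp (-l) (Λ k x).1 ∈ K := (mem_shp hL.fam (-l) _).2 (leaf_mem hL hx k).1
  have hyq : (shp (-l) (Λ k x).1).1 = (Λ i x).1.1 := by
    simp only [shp]
    rw [leaf_q hL, leaf_q hL]
  have hyn : ‖shp (-l) (Λ k x).1 - (Λ i x).1‖ < δ := by
    have e1 : (shp (-l) (Λ k x).1 - (Λ i x).1).1 = 0 := by
      rw [Prod.fst_sub, hyq, sub_self]
    have e2 : (shp (-l) (Λ k x).1 - (Λ i x).1).2.1
        = Int.fract (Λ k x).1.2.1 - Int.fract (Λ i x).1.2.1 := by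
      simp only [shp, Prod.snd_sub, Prod.fst_sub, Int.fract, hl]
      push_cast
      ring
    have e3 : (shp (-l) (Λ k x).1 - (Λ i x).1).2.2 = (Λ k x).1.2.2 - (Λ i x).1.2.2 := by
      simp only [shp, Prod.snd_sub]
    rw [Prod.norm_def, Prod.norm_def, e1, e2, e3, norm_zero, Real.norm_eq_abs, Real.norm_eq_abs]
    exact max_lt hδ (max_lt h1 h2)
  obtain ⟨s, hs, hse⟩ := hsep (Λ i x) (leaf_mem hL hx i) _ hyK hyq hyn
  rw [leaf_add hL] at hse
  obtain ⟨hs1, hs2⟩ := abs_lt.1 hs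
  have hik' : (i : ℝ) + 1 ≤ k := by exact_mod_cast hik
  have hkn' : (k : ℝ) ≤ n := by exact_mod_cast hkn
  have hi0 : (0 : ℝ) ≤ i := Nat.cast_nonneg i
  have he : (Λ k x).1 = shp l (Λ (s + i) x).1 := by
    rw [hse, shp_shp, add_neg_cancel, shp_zero]
  obtain ⟨j, hj, hje⟩ := no_odd hL hx (s := s + i) (s' := k) (by linarith) he
  exact ⟨k - (s + i), l, j, by linarith, by linarith, hj, ret_of hL hx hj hje⟩

theorem exists_closes (hL : Leaf N K f κ Λ) : ∃ T₀ : ℝ, 0 < T₀ ∧ ∀ x ∈ PS N K, ∃ (T : ℝ) (m j : ℤ),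
    T ≤ T₀ ∧ Closes Λ x T m j := by
  obtain ⟨T₀, hT₀, hfirst⟩ := close_first hL
  obtain ⟨s₀, hs₀, hlow⟩ := ret_lower hL
  obtain ⟨B, hB, hphi⟩ := leaf_phi hL
  refine ⟨T₀, hT₀, fun x hx => ?_⟩
  set R : Set ℝ := ⋃ l ∈ Finset.Icc (-⌈T₀⌉) ⌈T₀⌉, ⋃ j ∈ Finset.Icc (-⌈B * T₀⌉) ⌈B * T₀⌉,
    {Q : ℝ | Even j ∧ Q ∈ Set.Icc s₀ T₀ ∧ Λ Q x = shf l j x} with hR
  have hcx : Continuous fun Q : ℝ => Λ Q x :=
    (leaf_cont hL).comp (continuous_id.prodMk continuous_const)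
  have hcl : IsClosed R := by
    refine isClosed_biUnion_finset fun l _ => isClosed_biUnion_finset fun j _ => ?_
    by_cases hj : Even j
    · have : {Q : ℝ | Even j ∧ Q ∈ Set.Icc s₀ T₀ ∧ Λ Q x = shf l j x}
          = Set.Icc s₀ T₀ ∩ {Q : ℝ | Λ Q x = shf l j x} := by
        ext Q
        simp [hj]
      rw [this]
      exact isClosed_Icc.inter (isClosed_eq hcx continuous_const)
    · have : {Q : ℝ | Even j ∧ Q ∈ Set.Icc s₀ T₀ ∧ Λ Q x = shf l j x} = ∅ := by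
        ext Q
        simp [hj]
      rw [this]
      exact isClosed_empty
  have hmem : ∀ (Q : ℝ) (l j : ℤ), 0 < Q → Q ≤ T₀ → Even j → Λ Q x = shf l j x → Q ∈ R := by
    intro Q l j hQ hQT hj he
    have hQs : s₀ ≤ Q := by
      by_contra hlt
      push Not at hlt
      exact hlow x hx Q hQ hlt l (congrArg Prod.fst he)
    obtain ⟨b1, b2⟩ := close_bound hL hphi hQ.le he
    have b1' : |l| ≤ ⌈T₀⌉ := by
      have : (|l| : ℝ) ≤ T₀ := b1.trans hQT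
      have h' : ((|l| : ℤ) : ℝ) ≤ (⌈T₀⌉ : ℝ) := by
        push_cast
        exact this.trans (Int.le_ceil _)
      exact_mod_cast h'
    have b2' : |j| ≤ ⌈B * T₀⌉ := by
      have : (|j| : ℝ) ≤ B * T₀ := b2.trans (mul_le_mul_of_nonneg_left hQT hB.le)
      have h' : ((|j| : ℤ) : ℝ) ≤ (⌈B * T₀⌉ : ℝ) := by
        push_cast
        exact this.trans (Int.le_ceil _)
      exact_mod_cast h'
    rw [hR]
    simp only [Set.mem_iUnion, exists_prop]
    exact ⟨l, Finset.mem_Icc.2 (abs_le.1 b1'), j, Finset.mem_Icc.2 (abs_le.1 b2'), hj,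
      ⟨hQs, hQT⟩, he⟩
  have hbelow : BddBelow R := by
    refine ⟨s₀, fun Q hQ => ?_⟩
    rw [hR] at hQ
    simp only [Set.mem_iUnion, exists_prop] at hQ
    obtain ⟨l, -, j, -, -, hQ', -⟩ := hQ
    exact hQ'.1
  obtain ⟨Q₀, l₀, j₀, c1, c2, c3, c4⟩ := hfirst x hx
  have hTm : sInf R ∈ R := hcl.csInf_mem ⟨Q₀, hmem Q₀ l₀ j₀ c1 c2 c3 c4⟩ hbelow
  have hTm' := hTm
  rw [hR] at hTm'
  simp only [Set.mem_iUnion, exists_prop] at hTm'
  obtain ⟨m, -, j, -, hj, hT, he⟩ := hTm'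
  rw [← hR] at hT he
  refine ⟨sInf R, m, j, hT.2, hs₀.trans_le hT.1, hj, he, fun s s' h0 hss hsT k hk => ?_⟩
  obtain ⟨i, hi, hie⟩ := no_odd hL hx hss.ne hk
  have h1 := ret_of hL hx hi hie
  have h2 : s' - s ∈ R := hmem (s' - s) k i (by linarith) (by linarith [hT.2]) hi h1
  have h3 := csInf_le hbelow h2
  linarith

end Pool.Agent.H57.CR
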