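import Pool.Agent.H57.CR.Close

/-!
# Consequences of the closing of a leaf (module CloseB)

PROOFS. Let `hc : Closes Λ x T m j`.
* `closes_add`: `Λ (s + T) x = Λ s (Λ T x) = Λ s (shf m j x) = shf m j (Λ s x)` (`leaf_shf`, `j` is even).
* `closes_at`: `Closes Λ (Λ a x) T m j`: `ret` by `closes_add`; `inj`: let `0 ≤ s < s' < T` and
  `(Λ s' (Λ a x)).1 = shp k (Λ s (Λ a x)).1`; by `no_odd` and `ret_of` (module Close), `Λ (s' - s) x = shf k i x` with `i` even, so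
  `(Λ (s' - s) x).1 = shp k (Λ 0 x).1` with `0 < s' - s < T`: contradicts `hc.inj 0 (s' - s)`.
* `closes_mul`: induction on the integer `n` (also negative) from `closes_add`.
* `closes_red`: `n = ⌊s / T⌋`, `s' = s - n T`.
* `closes_exact`: the integrand is the derivative of `s ↦ f (Λ s x).1` (`fprim`), continuous, so the integral is
  `f (Λ T x).1 - f x.1 = f (shp m x.1) - f x.1 = 0` (`hL.fam.fper`).
* `closes_t`: `∫ cos = t(T) - t(0) = m`.
-/

set_option autoImplicit false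
set_option linter.unusedSectionVars false

open scoped ContDiff Topology
open Set

namespace Pool.Agent.H57.CR

open Pool.Agent.H2.TG (IsFlow)

variable {P : Type} [NormedAddCommGroup P] [NormedSpace ℝ P] [FiniteDimensional ℝ P] {N : Set P}
  {K : Set (P × ℝ × ℝ)} {f : P × ℝ × ℝ → ℝ} {κ : (P × ℝ × ℝ) × ℝ → ℝ}
  {Λ : ℝ → (P × ℝ × ℝ) × ℝ → (P × ℝ × ℝ) × ℝ}

private lemma closeB_shf_shf (k j k' j' : ℤ) (x : (P × ℝ × ℝ) × ℝ) :
    shf k j (shf k' j' x) = shf (k + k') (j + j') x := by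
  rcases x with ⟨⟨q, t, r⟩, φ⟩
  simp only [shf, shp, Prod.mk.injEq, true_and, and_true]
  push_cast
  exact ⟨by ring, by ring⟩

private lemma closeB_shf_zero (x : (P × ℝ × ℝ) × ℝ) : shf 0 0 x = x := by
  rcases x with ⟨⟨q, t, r⟩, φ⟩
  simp [shf, shp]

theorem closes_add (hL : Leaf N K f κ Λ) {x : (P × ℝ × ℝ) × ℝ} (hx : x ∈ PS N K) {T : ℝ} {m j : ℤ}
    (hc : Closes Λ x T m j) (s : ℝ) : Λ (s + T) x = shf m j (Λ s x) := by
  rw [← leaf_add hL, hc.ret, leaf_shf hL hx m hc.even]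

theorem closes_at (hL : Leaf N K f κ Λ) {x : (P × ℝ × ℝ) × ℝ} (hx : x ∈ PS N K) {T : ℝ} {m j : ℤ}
    (hc : Closes Λ x T m j) (a : ℝ) : Closes Λ (Λ a x) T m j := by
  refine ⟨hc.pos, hc.even, ?_, fun s s' h0 hss hsT k hk => ?_⟩
  · rw [leaf_add hL, add_comm T a]
    exact closes_add hL hx hc a
  · rw [leaf_add hL, leaf_add hL] at hk
    obtain ⟨i, hi, hie⟩ := no_odd hL hx (s := s + a) (s' := s' + a) (by linarith) hk
    have h1 := ret_of hL hx hi hie
    have e1 : s' + a - (s + a) = s' - s := by ring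
    rw [e1] at h1
    refine hc.inj 0 (s' - s) le_rfl (by linarith) (by linarith) k ?_
    rw [hL.flow.zero, h1]
    rfl

theorem closes_mul (hL : Leaf N K f κ Λ) {x : (P × ℝ × ℝ) × ℝ} (hx : x ∈ PS N K) {T : ℝ} {m j : ℤ}
    (hc : Closes Λ x T m j) (n : ℤ) (s : ℝ) : Λ (s + n * T) x = shf (n * m) (n * j) (Λ s x) := by
  induction n using Int.induction_on with
  | zero => simp [closeB_shf_zero]
  | succ n ih =>
    have e1 : s + ((n : ℤ) + 1 : ℤ) * T = (s + ((n : ℤ) : ℝ) * T) + T := by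
      push_cast
      ring
    rw [e1, closes_add hL hx hc, ih, closeB_shf_shf]
    congr 1 <;> ring
  | pred n ih =>
    have e1 : (s + ((-(n : ℤ) : ℤ) : ℝ) * T) = (s + (-(n : ℤ) - 1 : ℤ) * T) + T := by
      push_cast
      ring
    rw [e1, closes_add hL hx hc] at ih
    have h1 := congrArg (shf (-m) (-j)) ih
    rw [closeB_shf_shf, closeB_shf_shf, neg_add_cancel, neg_add_cancel, closeB_shf_zero] at h1
    rw [h1]
    congr 1 <;> ring

theorem closes_red (hL : Leaf N K f κ Λ) {x : (P × ℝ × ℝ) × ℝ} (hx : x ∈ PS N K) {T : ℝ} {m j : ℤ}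
    (hc : Closes Λ x T m j) (s : ℝ) : ∃ (n : ℤ) (s' : ℝ), 0 ≤ s' ∧ s' < T ∧ s = s' + n * T ∧
      Λ s x = shf (n * m) (n * j) (Λ s' x) := by
  have hT := hc.pos
  have h1 : (⌊s / T⌋ : ℝ) * T ≤ s := by
    have := mul_le_mul_of_nonneg_right (Int.floor_le (s / T)) hT.le
    rwa [div_mul_cancel₀ _ hT.ne'] at this
  have h2 : s < ((⌊s / T⌋ : ℝ) + 1) * T := by
    have := mul_lt_mul_of_pos_right (Int.lt_floor_add_one (s / T)) hT
    rwa [div_mul_cancel₀ _ hT.ne'] at this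
  refine ⟨⌊s / T⌋, s - ⌊s / T⌋ * T, by linarith, by linarith, by ring, ?_⟩
  rw [← closes_mul hL hx hc, sub_add_cancel]

theorem closes_exact (hL : Leaf N K f κ Λ) {x : (P × ℝ × ℝ) × ℝ} (hx : x ∈ PS N K) {T : ℝ} {m j : ℤ}
    (hc : Closes Λ x T m j) :
    ∫ s in (0 : ℝ)..T, (Λ s x).1.2.2 * Real.cos (Λ s x).2 = 0 := by
  have hcx : Continuous fun Q : ℝ => Λ Q x :=
    (leaf_cont hL).comp (continuous_id.prodMk continuous_const)
  have hci : Continuous fun s : ℝ => (Λ s x).1.2.2 * Real.cos (Λ s x).2 :=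
    (hcx.fst.snd.snd).mul (Real.continuous_cos.comp hcx.snd)
  rw [intervalIntegral.integral_eq_sub_of_hasDerivAt (fun s _ => fprim hL hx s)
    (hci.intervalIntegrable _ _), hc.ret, hL.flow.zero]
  have hK : (x.1.1, x.1.2.1, x.1.2.2) ∈ K := hx.1
  have h := hL.fam.fper m x.1.1 x.1.2.1 x.1.2.2 hK
  simp only [shf, shp]
  rw [h, sub_self]

theorem closes_t (hL : Leaf N K f κ Λ) {x : (P × ℝ × ℝ) × ℝ} {T : ℝ} {m j : ℤ}
    (hc : Closes Λ x T m j) : ∫ s in (0 : ℝ)..T, Real.cos (Λ s x).2 = m := by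
  have hcx : Continuous fun Q : ℝ => Λ Q x :=
    (leaf_cont hL).comp (continuous_id.prodMk continuous_const)
  rw [intervalIntegral.integral_eq_sub_of_hasDerivAt (fun s _ => leaf_t hL x s)
    ((Real.continuous_cos.comp hcx.snd).intervalIntegrable _ _), hc.ret, hL.flow.zero]
  simp [shf, shp]

end Pool.Agent.H57.CR
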