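import Pool.Agent.H57.CR.Cut

/-!
# The bottom coordinate along the leaf (module ConfA)

`h : Strip θ M L b T α ρ φ a₀ b₀`; `θ₂ = θ` on `|x.1| ≤ D`, `β` is the bottom coordinate of `θ₂`.
PROOFS.
* `strip_mul`: induction: `α (s + k T) = α s + k`, `ρ (s + k T) = ρ s` for integers `k`, `θ (t + k, r) = θ (t, r)`.
* `strip_lip`: `|α s - α s'| ≤ |s - s'|`.
* `top_ray`: for `x = (α (a₀ + k T), r)`, `r ≥ ρ a₀`: `θ x = 0`; so the forward orbit is vertical (`p_vert`) for `θ`, and also for `θ₂` if `|α (a₀ + k T)| ≤ D`. `btm_ray`: the same downwards.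
* `beta_btm`: `β (α s, ρ s) = α s` for `s = b₀ + k T`, `|α s| ≤ D`: the backward orbit is vertical and reaches `r ≤ -M`, where `β` is the first coordinate (`BotP.bot`, `BotP.inv`).
* `beta_mono`: `g s = β (α s, ρ s)` has derivative `Dβ(cos φ, sin φ) ≠ 0` at every `s` with `|α s| ≤ D`: otherwise `(cos φ, sin φ) = c (- sin φ, cos φ)` (`BotP.ker`, `θ₂ (α s, ρ s) = θ (α s, ρ s) = φ s`; multiply by
  `(cos φ, sin φ)`: `1 = 0`). So `g` is strictly monotone on the interval `I = [b₀ - n T, b₀ + n T]`, `n ≥ 1` (continuous nonvanishing derivative: constant sign), and `g (b₀ + T) = g b₀ + 1 > g b₀` by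
  `beta_btm`: strictly increasing.
-/

set_option autoImplicit false
set_option linter.unusedSectionVars false

open scoped ContDiff Topology
open Set

namespace Pool.Agent.H57.CR

open Pool.Agent.H2.TG (IsFlow)

variable {θ θ₂ : ℝ × ℝ → ℝ} {M L b T a₀ b₀ D : ℝ} {α ρ φ : ℝ → ℝ} {Ψ Ψ₂ : ℝ → ℝ × ℝ → ℝ × ℝ}

theorem strip_mul (h : Strip θ M L b T α ρ φ a₀ b₀) (k : ℤ) :
    (∀ s, α (s + k * T) = α s + k ∧ ρ (s + k * T) = ρ s) ∧ ∀ t r : ℝ, θ (t + k, r) = θ (t, r) := by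
  have hs : ∀ s, α (s - T) = α s - 1 ∧ ρ (s - T) = ρ s := by
    intro s
    have h1 := h.αT (s - T)
    have h2 := h.ρT (s - T)
    rw [sub_add_cancel] at h1 h2
    exact ⟨by linarith, h2.symm⟩
  have hθ : ∀ t r : ℝ, θ (t - 1, r) = θ (t, r) := by
    intro t r
    have := h.per (t - 1) r
    rw [sub_add_cancel] at this
    exact this.symm
  induction k using Int.induction_on with
  | zero => simp
  | succ i ih =>
    obtain ⟨h1, h2⟩ := ih
    push_cast at h1 h2 ⊢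
    refine ⟨fun s => ?_, fun t r => ?_⟩
    · have e : s + ((i : ℝ) + 1) * T = s + i * T + T := by ring
      rw [e, h.αT, h.ρT, (h1 s).1, (h1 s).2]
      exact ⟨by ring, rfl⟩
    · have e : t + ((i : ℝ) + 1) = t + i + 1 := by ring
      rw [e, h.per, h2]
  | pred i ih =>
    obtain ⟨h1, h2⟩ := ih
    push_cast at h1 h2 ⊢
    refine ⟨fun s => ?_, fun t r => ?_⟩
    · have e : s + (-(i : ℝ) - 1) * T = s + -i * T - T := by ring
      rw [e, (hs _).1, (hs _).2, (h1 s).1, (h1 s).2]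
      exact ⟨by ring, rfl⟩
    · have e : t + (-(i : ℝ) - 1) = t + -i - 1 := by ring
      rw [e, hθ, h2]

theorem strip_lip (h : Strip θ M L b T α ρ φ a₀ b₀) (s s' : ℝ) : |α s - α s'| ≤ |s - s'| := by
  have := Convex.norm_image_sub_le_of_norm_hasDerivWithin_le (s := Set.univ) (C := 1) (f := α)
    (fun x _ => (h.dα x).hasDerivWithinAt) (fun x _ => by
      rw [Real.norm_eq_abs]; exact Real.abs_cos_le_one _) convex_univ (Set.mem_univ s')
    (Set.mem_univ s)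
  simpa using this

theorem top_ray (h : Strip θ M L b T α ρ φ a₀ b₀) (h2 : ContDiff ℝ ∞ θ₂)
    (hD : ∀ x : ℝ × ℝ, |x.1| ≤ D → θ₂ x = θ x) (hF : IsFlow (XP θ₂) Ψ₂) (k : ℤ)
    (hk : |α (a₀ + k * T)| ≤ D) {τ : ℝ} (hτ : 0 ≤ τ) :
    Ψ₂ τ (α (a₀ + k * T), ρ (a₀ + k * T)) = (α (a₀ + k * T), ρ (a₀ + k * T) + τ) := by
  obtain ⟨h1, h3⟩ := strip_mul h k
  refine p_vert h2 hF (x := (α (a₀ + k * T), ρ (a₀ + k * T))) fun σ hσ => ?_
  rw [abs_of_nonneg hτ] at hσ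
  have hσ1 := (abs_le.1 hσ).1
  rw [hD _ hk]
  show θ (α (a₀ + k * T), ρ (a₀ + k * T) + τ / 2 + σ) = 0
  rw [(h1 a₀).1, (h1 a₀).2, h3]
  exact h.top _ (by linarith)

theorem btm_ray (h : Strip θ M L b T α ρ φ a₀ b₀) (h2 : ContDiff ℝ ∞ θ₂)
    (hD : ∀ x : ℝ × ℝ, |x.1| ≤ D → θ₂ x = θ x) (hF : IsFlow (XP θ₂) Ψ₂) (k : ℤ)
    (hk : |α (b₀ + k * T)| ≤ D) {τ : ℝ} (hτ : τ ≤ 0) :
    Ψ₂ τ (α (b₀ + k * T), ρ (b₀ + k * T)) = (α (b₀ + k * T), ρ (b₀ + k * T) + τ) := by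
  obtain ⟨h1, h3⟩ := strip_mul h k
  refine p_vert h2 hF (x := (α (b₀ + k * T), ρ (b₀ + k * T))) fun σ hσ => ?_
  rw [abs_of_nonpos hτ] at hσ
  have hσ1 := (abs_le.1 hσ).2
  rw [hD _ hk]
  show θ (α (b₀ + k * T), ρ (b₀ + k * T) + τ / 2 + σ) = 0
  rw [(h1 b₀).1, (h1 b₀).2, h3]
  exact h.btm _ (by linarith)

theorem beta_btm (h : Strip θ M L b T α ρ φ a₀ b₀) (h2 : ContDiff ℝ ∞ θ₂)
    (hD : ∀ x : ℝ × ℝ, |x.1| ≤ D → θ₂ x = θ x) (hF : IsFlow (XP θ₂) Ψ₂) {β ϖ : ℝ × ℝ → ℝ}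
    (hB : BotP θ₂ M Ψ₂ β ϖ) (k : ℤ) (hk : |α (b₀ + k * T)| ≤ D) :
    β (α (b₀ + k * T), ρ (b₀ + k * T)) = α (b₀ + k * T) := by
  have hM := h.pph.hM
  have h1 := btm_ray h h2 hD hF k hk (τ := -(2 * M)) (by linarith)
  have h3 := (abs_le.1 (h.hρ (b₀ + k * T))).2
  have h4 := hB.inv (-(2 * M)) (α (b₀ + k * T), ρ (b₀ + k * T))
  rw [h1] at h4
  rw [← h4]
  exact hB.bot _ (by show ρ (b₀ + k * T) + -(2 * M) ≤ -M; linarith)

theorem beta_mono (h : Strip θ M L b T α ρ φ a₀ b₀) (h2 : ContDiff ℝ ∞ θ₂)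
    (hD : ∀ x : ℝ × ℝ, |x.1| ≤ D → θ₂ x = θ x) (hF : IsFlow (XP θ₂) Ψ₂) {β ϖ : ℝ × ℝ → ℝ}
    (hB : BotP θ₂ M Ψ₂ β ϖ) {n : ℕ} (hn : 1 ≤ n)
    (hnD : ∀ s ∈ Icc (b₀ - n * T) (b₀ + n * T), |α s| ≤ D) :
    StrictMonoOn (fun s => β (α s, ρ s)) (Icc (b₀ - n * T) (b₀ + n * T)) := by
  have hT := h.hT
  set g : ℝ → ℝ := fun s => β (α s, ρ s) with hg
  set g' : ℝ → ℝ := fun s => fderiv ℝ β (α s, ρ s) (Real.cos (φ s), Real.sin (φ s)) with hg'
  have hd : ∀ s, HasDerivAt g (g' s) s := by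
    intro s
    have h3 : HasFDerivAt β (fderiv ℝ β (α s, ρ s)) (α s, ρ s) :=
      (hB.smooth.differentiable (by simp) _).hasFDerivAt
    exact h3.comp_hasDerivAt s ((h.dα s).prodMk (h.dρ s))
  have hne : ∀ s ∈ Icc (b₀ - n * T) (b₀ + n * T), g' s ≠ 0 := by
    intro s hs h0
    obtain ⟨c, hc⟩ := hB.ker _ _ h0
    have h3 : θ₂ (α s, ρ s) = φ s := by rw [hD _ (hnD s hs), h.th]
    unfold XP at hc
    rw [h3] at hc
    have h4 : Real.cos (φ s) = c * -Real.sin (φ s) := congrArg Prod.fst hc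
    have h5 : Real.sin (φ s) = c * Real.cos (φ s) := congrArg Prod.snd hc
    have h6 := Real.sin_sq_add_cos_sq (φ s)
    have h7 : Real.sin (φ s) ^ 2 + Real.cos (φ s) ^ 2 = 0 := by
      calc Real.sin (φ s) ^ 2 + Real.cos (φ s) ^ 2
          = Real.sin (φ s) * Real.sin (φ s) + Real.cos (φ s) * Real.cos (φ s) := by ring
        _ = Real.sin (φ s) * (c * Real.cos (φ s)) + Real.cos (φ s) * (c * -Real.sin (φ s)) := by
            rw [← h5, ← h4]
        _ = 0 := by ring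
    linarith
  have hn1 : (1 : ℝ) ≤ n := by exact_mod_cast hn
  have hb0 : b₀ ∈ Icc (b₀ - n * T) (b₀ + n * T) := by
    constructor <;> nlinarith
  have hb1 : b₀ + T ∈ Icc (b₀ - n * T) (b₀ + n * T) := by
    constructor <;> nlinarith
  have hinc : g (b₀ + T) = g b₀ + 1 := by
    have h3 := beta_btm h h2 hD hF hB 0 (by simpa using hnD _ hb0)
    have h4 := beta_btm h h2 hD hF hB 1 (by simpa using hnD _ hb1)
    simp only [Int.cast_zero, Int.cast_one, zero_mul, one_mul, add_zero] at h3 h4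
    show β (α (b₀ + T), ρ (b₀ + T)) = β (α b₀, ρ b₀) + 1
    rw [h3, h4, h.αT]
  have hcont : ContinuousOn g (Icc (b₀ - n * T) (b₀ + n * T)) :=
    fun s _ => (hd s).continuousAt.continuousWithinAt
  rcases hasDerivWithinAt_forall_lt_or_forall_gt_of_forall_ne (convex_Icc _ _)
    (fun s _ => (hd s).hasDerivWithinAt) hne with h3 | h3
  · exfalso
    have h4 : StrictAntiOn g (Icc (b₀ - n * T) (b₀ + n * T)) :=
      strictAntiOn_of_deriv_neg (convex_Icc _ _) hcont fun s hs => by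
        rw [(hd s).deriv]
        exact h3 s (interior_subset hs)
    have h5 := h4 hb0 hb1 (by linarith)
    linarith
  · exact strictMonoOn_of_deriv_pos (convex_Icc _ _) hcont fun s hs => by
      rw [(hd s).deriv]
      exact h3 s (interior_subset hs)

end Pool.Agent.H57.CR
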