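import Pool.Agent.H57.CR.ConfA

/-!
# Forward orbits from the leaf do not go far to the right (module ConfB)

Write `c s = (α s, ρ s)`. PROOF of `conf_right`. Let `k` be the integer with `a_k := a₀ + k T ≤ s < a_{k+1}`, `J = [a_k, a_{k+1}]`. It is enough to show `(Ψ τ (c s)).1 ≤ t₊ := max α over J` because `|α s' - α s| ≤ T` for `s' ∈ J`
(`strip_lip`). If `s = a_k` the forward orbit is vertical (`top_ray` with `θ₂ = θ`). Let `a_k < s < a_{k+1}` and suppose `y = Ψ τ (c s)`, `τ > 0` (`τ = 0` is trivial), has `y.1 > t₊`. Choose `n ≥ 1` with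
`J ⊆ [b₀ - n T, b₀ + n T]`, and `D₀` larger than `|α|` on this interval and than `|α s| + τ`; `cut` gives `D ≥ D₀`, `θ₂`, with flow `Ψ₂` (`exists_pflow`), good by `p_good` (support in `|x.1| < 2 D`), `β, ϖ` by `p_bot`. By
`agree` and `p_norm`, `Ψ₂ τ (c s) = y`. `g σ = β (c σ)` is continuous and strictly increasing on `J` (`beta_mono`). Let
`G = {w | ∃ σ, a_k < σ < a_{k+1}, β w = g σ, ϖ (c σ) < ϖ w}`. Then `y ∈ G` (`BotP.inv`, `BotP.time`).
(1) `G` is open: `G` is the set of `w` with `g a_k < β w < g a_{k+1}` and `ϖ (c (g⁻¹ (β w))) < ϖ w`, and `g⁻¹ : (g a_k, g a_{k+1}) → (a_k, a_{k+1})` is continuous (strictly increasing continuous function on an interval; e.g.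
`StrictMonoOn.orderIso`/`continuousOn_symm`; or directly: for `σ₀` and small `ε` the `w` with `g (σ₀ - ε) < β w < g (σ₀ + ε)` have `σ(w) ∈ (σ₀ - ε, σ₀ + ε)`).
(2) Let `w l = y + (l, 0)`. `β (w l) ≥ y.1 + l - 4 D` (`bot_far`), so `w l ∉ G` for large `l`. Let `l* = sInf {l ≥ 0 | w l ∉ G}`; `w l* ∉ G` (`G` open), `l* > 0`, `w l ∈ G` for `0 ≤ l < l*`; let `σ_l` be the parameter of `w l`.
(3) `β (w l*) ∈ [g a_k, g a_{k+1}]` by continuity, so `β (w l*) = g σ*` with `σ* ∈ J`, and `σ_l → σ*` as `l → l*` from below (`g σ_l → g σ*`, strict monotonicity), so `ϖ (w l*) ≥ ϖ (c σ*)`.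
(4) As `w l* ∉ G`: either `σ* ∈ {a_k, a_{k+1}}`, or `ϖ (w l*) = ϖ (c σ*)`. In the second case `w l* = c σ*` (`BotP.orb`), so `(w l*).1 ≤ t₊`. In the first case `w l* = Ψ₂ τ' (c σ*)` with `τ' = ϖ (w l*) - ϖ (c σ*) ≥ 0` (`BotP.orb`, flow
property), and by `top_ray`, `(w l*).1 = α σ* ≤ t₊`. But `(w l*).1 = y.1 + l* > t₊`: contradiction.
-/

set_option autoImplicit false
set_option linter.unusedSectionVars false

open scoped ContDiff Topology
open Set

namespace Pool.Agent.H57.CR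

open Pool.Agent.H2.TG (IsFlow)

variable {θ : ℝ × ℝ → ℝ} {M L b T a₀ b₀ : ℝ} {α ρ φ : ℝ → ℝ} {Ψ : ℝ → ℝ × ℝ → ℝ × ℝ}

/-- A strictly increasing continuous function on a compact interval extends to an order
isomorphism of the line. -/
private theorem confB_oiso {g : ℝ → ℝ} {p q : ℝ} (hpq : p < q) (hc : ContinuousOn g (Icc p q))
    (hm : StrictMonoOn g (Icc p q)) : ∃ e : ℝ ≃o ℝ, ∀ x ∈ Icc p q, e x = g x := by
  let π : ℝ → ℝ := fun x => max p (min q x)
  have hπc : Continuous π := continuous_const.max (continuous_const.min continuous_id)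
  have hπm : ∀ x, π x ∈ Icc p q := fun x =>
    ⟨le_max_left _ _, max_le hpq.le (min_le_left _ _)⟩
  have hπmono : Monotone π := fun x y hxy => max_le_max le_rfl (min_le_min le_rfl hxy)
  have hπid : ∀ x ∈ Icc p q, π x = x := by
    intro x hx
    show max p (min q x) = x
    rw [min_eq_right hx.2, max_eq_right hx.1]
  have hπsub : ∀ x y, x ≤ y → x - π x ≤ y - π y := by
    intro x y hxy
    show x - max p (min q x) ≤ y - max p (min q y)
    rcases le_total q x with h1 | h1 <;> rcases le_total q y with h2 | h2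
    · rw [min_eq_left h1, min_eq_left h2]; linarith
    · have : x = y := le_antisymm hxy (h2.trans h1)
      rw [this]
    · rw [min_eq_right h1, min_eq_left h2, max_eq_right hpq.le]
      have := le_max_right p x
      linarith
    · rw [min_eq_right h1, min_eq_right h2]
      rcases le_total p x with h3 | h3
      · rw [max_eq_right h3, max_eq_right (h3.trans hxy)]; linarith
      · rw [max_eq_left h3]
        rcases le_total p y with h4 | h4
        · rw [max_eq_right h4]; linarith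
        · rw [max_eq_left h4]; linarith
  let G : ℝ → ℝ := fun x => g (π x) + (x - π x)
  have hGc : Continuous G := (hc.comp_continuous hπc hπm).add (continuous_id.sub hπc)
  have hGm : StrictMono G := by
    intro x y hxy
    show g (π x) + (x - π x) < g (π y) + (y - π y)
    rcases (hπmono hxy.le).lt_or_eq with h1 | h1
    · have h2 := hm (hπm x) (hπm y) h1
      have h3 := hπsub x y hxy.le
      linarith
    · rw [h1]; linarith
  have hp : p ∈ Icc p q := ⟨le_rfl, hpq.le⟩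
  have hq : q ∈ Icc p q := ⟨hpq.le, le_rfl⟩
  have htop : Filter.Tendsto G Filter.atTop Filter.atTop := by
    refine Filter.tendsto_atTop_mono (f := fun x => x + (g p - q)) (fun x => ?_)
      (Filter.tendsto_atTop_add_const_right _ _ Filter.tendsto_id)
    have h1 := hm.monotoneOn hp (hπm x) (hπm x).1
    have h2 := (hπm x).2
    show x + (g p - q) ≤ g (π x) + (x - π x)
    linarith
  have hbot : Filter.Tendsto G Filter.atBot Filter.atBot := by
    have hle : ∀ x, G x ≤ x + (g q - p) := by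
      intro x
      have h1 := hm.monotoneOn (hπm x) hq (hπm x).2
      have h2 := (hπm x).1
      show g (π x) + (x - π x) ≤ x + (g q - p)
      linarith
    exact Filter.tendsto_atBot_mono hle
      (Filter.tendsto_atBot_add_const_right _ _ Filter.tendsto_id)
  refine ⟨StrictMono.orderIsoOfSurjective G hGm (hGc.surjective htop hbot), fun x hx => ?_⟩
  show g (π x) + (x - π x) = g x
  rw [hπid x hx]
  ring

/-- Points with the same bottom coordinate are on the same orbit. -/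
private theorem confB_orb {θ₂ : ℝ × ℝ → ℝ} {Ψ₂ : ℝ → ℝ × ℝ → ℝ × ℝ} (h2 : ContDiff ℝ ∞ θ₂)
    (hF : IsFlow (XP θ₂) Ψ₂) {β ϖ : ℝ × ℝ → ℝ} (hB : BotP θ₂ M Ψ₂ β ϖ) {u w : ℝ × ℝ}
    (h : β u = β w) : u = Ψ₂ (ϖ u - ϖ w) w := by
  have h3 := hF.add (XP_contDiff h2) (ϖ u - ϖ w) (ϖ w) (β w, -M)
  rw [sub_add_cancel, hB.orb w, ← h, hB.orb u] at h3
  exact h3.symm

theorem conf_right (h : Strip θ M L b T α ρ φ a₀ b₀) (hF : IsFlow (XP θ) Ψ) (s : ℝ) {τ : ℝ}
    (hτ : 0 ≤ τ) : (Ψ τ (α s, ρ s)).1 ≤ α s + T := by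
  have hT := h.hT
  have hsm := h.pph.smooth
  obtain ⟨k, hk1, hk2⟩ : ∃ k : ℤ, a₀ + k * T ≤ s ∧ s < a₀ + k * T + T := by
    refine ⟨⌊(s - a₀) / T⌋, ?_, ?_⟩
    · have h1 := Int.floor_le ((s - a₀) / T)
      rw [le_div_iff₀ hT] at h1
      linarith
    · have h1 := Int.lt_floor_add_one ((s - a₀) / T)
      rw [div_lt_iff₀ hT] at h1
      linarith
  rcases hk1.eq_or_lt with hs | hs
  · -- the top point
    have h1 := top_ray (θ₂ := θ) h hsm (fun _ _ => rfl) hF k (D := |α (a₀ + k * T)|) le_rfl hτ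
    rw [hs] at h1
    rw [h1]
    show α s ≤ α s + T
    linarith
  by_contra hcon
  push Not at hcon
  have hτ0 : 0 < τ := by
    rcases hτ.eq_or_lt with h0 | h0
    · exfalso
      rw [← h0, hF.zero] at hcon
      simp only at hcon
      linarith
    · exact h0
  set a₁ : ℝ := a₀ + k * T with ha₁
  set a₂ : ℝ := a₀ + k * T + T with ha₂
  have ha₂' : a₀ + ((k + 1 : ℤ) : ℝ) * T = a₂ := by rw [ha₂]; push_cast; ring
  -- a large interval
  obtain ⟨n, hn1, hn⟩ : ∃ n : ℕ, 1 ≤ n ∧ |a₁ - b₀| + T ≤ n * T := by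
    refine ⟨⌈|a₁ - b₀| / T⌉₊ + 1, by omega, ?_⟩
    have h1 := Nat.le_ceil (|a₁ - b₀| / T)
    rw [div_le_iff₀ hT] at h1
    push_cast
    linarith
  have hJ1 : b₀ - n * T ≤ a₁ := by
    have := neg_abs_le (a₁ - b₀)
    linarith
  have hJ2 : a₂ ≤ b₀ + n * T := by
    have := le_abs_self (a₁ - b₀)
    rw [ha₂]
    linarith
  have hn0 : 0 ≤ (n : ℝ) * T := by positivity
  obtain ⟨D, θ₂, hD0, hD1, hP2, hDe, hDz⟩ := cut h.pph (|α b₀| + n * T + (|α s| + τ))
  have hαD : ∀ σ ∈ Icc (b₀ - n * T) (b₀ + n * T), |α σ| ≤ D := by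
    intro σ hσ
    have h1 := strip_lip h σ b₀
    have h2 : |σ - b₀| ≤ n * T := abs_le.2 ⟨by linarith [hσ.1], by linarith [hσ.2]⟩
    have h3 : |α σ| ≤ |α b₀| + |α σ - α b₀| := by
      have := abs_add_le (α b₀) (α σ - α b₀)
      rwa [add_sub_cancel] at this
    have := abs_nonneg (α s)
    linarith
  obtain ⟨Ψ₂, hF2⟩ := exists_pflow hP2.smooth
  have hDD : 0 < 2 * D := by linarith
  obtain ⟨τ₂, hτ₂, hG₂⟩ := p_good hP2 hF2 hDD hDz
  obtain ⟨β, ϖ, hB⟩ := p_bot hP2 hF2 hτ₂ hG₂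
  have hgm := beta_mono h hP2.smooth hDe hF2 hB hn1 hαD
  have hαc : Continuous α := continuous_iff_continuousAt.2 fun s => (h.dα s).continuousAt
  have hρc : Continuous ρ := continuous_iff_continuousAt.2 fun s => (h.dρ s).continuousAt
  have hcc : Continuous fun σ => (α σ, ρ σ) := hαc.prodMk hρc
  have hβc : Continuous β := hB.smooth.continuous
  have hgc : Continuous fun σ => β (α σ, ρ σ) := hβc.comp hcc
  have hJI : Icc a₁ a₂ ⊆ Icc (b₀ - n * T) (b₀ + n * T) := Icc_subset_Icc hJ1 hJ2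
  have h12 : a₁ < a₂ := by rw [ha₂]; linarith
  obtain ⟨e, he⟩ := confB_oiso h12 hgc.continuousOn (hgm.mono hJI)
  -- the two flows agree along the orbit
  set y : ℝ × ℝ := Ψ τ (α s, ρ s) with hy
  have hyA : Ψ₂ τ (α s, ρ s) = y := by
    refine agree hsm hP2.smooth hF hF2 hDe fun t ht => ?_
    rw [uIcc_of_le hτ] at ht
    have h1 := p_norm hF (α s, ρ s) t
    have h2 : |(Ψ t (α s, ρ s)).1 - α s| ≤ ‖Ψ t (α s, ρ s) - (α s, ρ s)‖ := by
      have := norm_fst_le (Ψ t (α s, ρ s) - (α s, ρ s))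
      rwa [Real.norm_eq_abs] at this
    have h3 : |(Ψ t (α s, ρ s)).1| ≤ |α s| + |(Ψ t (α s, ρ s)).1 - α s| := by
      have := abs_add_le (α s) ((Ψ t (α s, ρ s)).1 - α s)
      rwa [add_sub_cancel] at this
    have h4 : |t| ≤ τ := by rw [abs_of_nonneg ht.1]; exact ht.2
    have := abs_nonneg (α b₀)
    linarith
  -- the horizontal ray from `y`
  let w : ℝ → ℝ × ℝ := fun l => (y.1 + l, y.2)
  have hwc : Continuous w := (continuous_const.add continuous_id).prodMk continuous_const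
  let S : ℝ → ℝ := fun l => e.symm (β (w l))
  have hSc : Continuous S := e.symm.continuous.comp (hβc.comp hwc)
  let O : Set ℝ := {l | a₁ < S l ∧ S l < a₂ ∧ ϖ (α (S l), ρ (S l)) < ϖ (w l)}
  have hOo : IsOpen O := by
    refine (isOpen_lt continuous_const hSc).inter ((isOpen_lt hSc continuous_const).inter ?_)
    exact isOpen_lt (hB.cont.comp (hcc.comp hSc)) (hB.cont.comp hwc)
  have hsJ : s ∈ Icc a₁ a₂ := ⟨hs.le, hk2.le⟩
  have hw0 : w 0 = y := by
    show (y.1 + 0, y.2) = y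
    rw [add_zero]
  have hS0 : S 0 = s := by
    show e.symm (β (w 0)) = s
    rw [hw0, ← hyA, hB.inv, e.symm_apply_eq, he s hsJ]
  have h0O : (0 : ℝ) ∈ O := by
    refine ⟨by rw [hS0]; exact hs, by rw [hS0]; exact hk2, ?_⟩
    rw [hS0, hw0, ← hyA, hB.time]
    linarith
  -- far on the ray we are out of `O`
  have hbig : ∃ l : ℝ, 0 ≤ l ∧ l ∉ O := by
    refine ⟨|e a₂ - y.1 + 2 * (2 * D)|, abs_nonneg _, fun hl => ?_⟩
    set l : ℝ := |e a₂ - y.1 + 2 * (2 * D)| with hldef
    have h1 := hl.2.1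
    have h2 : β (w l) < e a₂ := by
      have := e.strictMono h1
      rwa [e.apply_symm_apply] at this
    have h3 := bot_far hP2 hF2 hB hDD hDz (w l)
    have h4 : (w l).1 = y.1 + l := rfl
    rw [h4] at h3
    have h5 := (abs_le.1 h3).1
    have h6 := le_abs_self (e a₂ - y.1 + 2 * (2 * D))
    rw [← hldef] at h6
    linarith
  set N : Set ℝ := {l | 0 ≤ l ∧ l ∉ O} with hN
  have hNc : IsClosed N := (isClosed_le continuous_const continuous_id).inter hOo.isClosed_compl
  have hNn : N.Nonempty := hbig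
  have hNb : BddBelow N := ⟨0, fun l hl => hl.1⟩
  set l₀ : ℝ := sInf N with hl₀
  have hl₀N : l₀ ∈ N := hNc.csInf_mem hNn hNb
  have hl₀0 : 0 < l₀ := by
    rcases hl₀N.1.eq_or_lt with h1 | h1
    · exfalso
      apply hl₀N.2
      rw [← h1]
      exact h0O
    · exact h1
  have hbelow : ∀ l ∈ Ico 0 l₀, l ∈ O := by
    intro l hl
    by_contra hlO
    have h1 : l ∈ N := ⟨hl.1, hlO⟩
    exact absurd (csInf_le hNb h1) (not_le.2 hl.2)
  have hclos : l₀ ∈ closure (Ico 0 l₀) := by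
    rw [closure_Ico hl₀0.ne]
    exact ⟨hl₀0.le, le_rfl⟩
  have hS1 : a₁ ≤ S l₀ := by
    have hc : IsClosed {l | a₁ ≤ S l} := isClosed_le continuous_const hSc
    exact closure_minimal (fun l hl => (hbelow l hl).1.le) hc hclos
  have hS2 : S l₀ ≤ a₂ := by
    have hc : IsClosed {l | S l ≤ a₂} := isClosed_le hSc continuous_const
    exact closure_minimal (fun l hl => (hbelow l hl).2.1.le) hc hclos
  have hS3 : ϖ (α (S l₀), ρ (S l₀)) ≤ ϖ (w l₀) := by
    have hc : IsClosed {l | ϖ (α (S l), ρ (S l)) ≤ ϖ (w l)} :=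
      isClosed_le (hB.cont.comp (hcc.comp hSc)) (hB.cont.comp hwc)
    exact closure_minimal (fun l hl => (hbelow l hl).2.2.le) hc hclos
  set σ : ℝ := S l₀ with hσ
  have hβσ : β (w l₀) = β (α σ, ρ σ) := by
    have h1 := he σ ⟨hS1, hS2⟩
    rw [← h1, hσ]
    show β (w l₀) = e (e.symm (β (w l₀)))
    rw [e.apply_symm_apply]
  have hworb := confB_orb hP2.smooth hF2 hB hβσ
  have hασ : α σ ≤ α s + T := by
    have h1 := strip_lip h σ s
    have h2 : |σ - s| ≤ T := by
      rw [abs_le]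
      constructor <;> linarith
    have := le_abs_self (α σ - α s)
    linarith
  have hw1 : (w l₀).1 = y.1 + l₀ := rfl
  -- the first coordinate of `w l₀` is that of a point of the leaf
  have hfin : (w l₀).1 = α σ := by
    by_cases hc1 : σ = a₁
    · have h1 := top_ray h hP2.smooth hDe hF2 k (hαD _ (hJI ⟨le_rfl, h12.le⟩))
        (sub_nonneg.2 hS3)
      rw [← ha₁, ← hc1] at h1
      rw [hworb, h1]
    · by_cases hc2 : σ = a₂
      · have h0 : |α (a₀ + ((k + 1 : ℤ) : ℝ) * T)| ≤ D := by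
          rw [ha₂']
          exact hαD _ (hJI ⟨h12.le, le_rfl⟩)
        have h1 := top_ray h hP2.smooth hDe hF2 (k + 1) h0 (sub_nonneg.2 hS3)
        rw [ha₂', ← hc2] at h1
        rw [hworb, h1]
      · have h1 : ϖ (w l₀) = ϖ (α σ, ρ σ) := by
          by_contra hne
          apply hl₀N.2
          exact ⟨lt_of_le_of_ne hS1 fun h => hc1 h.symm, lt_of_le_of_ne hS2 hc2,
            lt_of_le_of_ne hS3 fun h => hne h.symm⟩
        rw [hworb, h1, sub_self, hF2.zero]
  rw [hw1] at hfin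
  linarith

end Pool.Agent.H57.CR
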