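import Pool.Agent.H57.CR.ConfB

/-!
# Confinement of all the orbits (module ConfC)

PROOFS.
* `strip_refl_t`: `θ' (t, r) = - θ (-t, r)`, `α' s = - α (-s)`, `ρ' s = ρ (-s)`, `φ' s = - φ (-s)`, top `-a₀`, bottom `-b₀`. (`α'' derivative: cos φ(-s) = cos φ' s`; `ρ'`: `- sin φ (-s) = sin φ' s`;
  `θ' (c' s) = - θ (α (-s), ρ (-s)) = - φ (-s)`; `α' (s + T) = - α (-s - T) = - (α (-s) - 1)`.) `flow_refl_t`: the flow of `XP θ'` is `Ψ' τ (t, r) = ((-(Ψ τ (-t, r)).1), (Ψ τ (-t, r)).2)`.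
* `strip_refl_r`: `θ' (t, r) = - θ (t, -r)`, `α' = α`, `ρ' = -ρ`, `φ' = -φ`, top `b₀`, bottom `a₀`. `flow_refl_r`: `Ψ' τ (t, r) = ((Ψ (-τ) (t, -r)).1, -(Ψ (-τ) (t, -r)).2)`.
* `conf_leaf`: `|(Ψ τ (α s, ρ s)).1 - α s| ≤ T` for all real `τ`: `conf_right` for `θ` and for its images under the two reflections.
* `conf_reach`: every `x` is `Ψ τ (α s, ρ s)` for some `s, τ`. Proof: let `z k = (α (b₀ + k T), ρ (b₀ + k T))`, `(z k).1 = α b₀ + k` (`strip_mul`). Take `n ≥ 1` with `α b₀ + n - T > x.1` and `α b₀ - n + T < x.1`; `D₀` larger than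
  `|α s| + T` for all `s ∈ I = [b₀ - n T, b₀ + n T]`; `cut`, `exists_pflow`, `p_good`, `p_bot` give `D, θ₂, Ψ₂, β, ϖ`. By `conf_leaf` and `agree`, `Ψ₂ τ (c s) = Ψ τ (c s)` for `s ∈ I` and all `τ`. If `β x > β (z n)`:
  `l ↦ β (x - (l, 0))` is continuous and tends to `-∞` (`bot_far`), so it is `β (z n)` for some `l ≥ 0`; by `BotP.orb`, `x - (l, 0) = Ψ₂ τ (z n)`, so its first coordinate is `≥ α b₀ + n - T > x.1`: contradiction. In the same
  way `β x ≥ β (z (-n))`. By the intermediate value theorem `β x = β (c s)` with `s ∈ I`, so `x = Ψ₂ τ (c s) = Ψ τ (c s)` (`BotP.orb`).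
* `conf`: `x = Ψ σ (c s)`, `Ψ τ x = Ψ (τ + σ) (c s)`: both first coordinates are within `T` of `α s`.
* `strip_good`: `p_time M (2 T₀)` with `ε = 1 / (100 (L + 2))` (`noret_gen`), `conf`.
-/

set_option autoImplicit false
set_option linter.unusedSectionVars false

open scoped ContDiff Topology
open Set

namespace Pool.Agent.H57.CR

open Pool.Agent.H2.TG (IsFlow)

variable {θ : ℝ × ℝ → ℝ} {M L b T a₀ b₀ : ℝ} {α ρ φ : ℝ → ℝ} {Ψ : ℝ → ℝ × ℝ → ℝ × ℝ}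

/-- Reflection in `t`. -/
private theorem confC_refl_t (h : Strip θ M L b T α ρ φ a₀ b₀) :
    Strip (fun x : ℝ × ℝ => -θ (-x.1, x.2)) M L b T (fun s => -α (-s)) (fun s => ρ (-s))
      (fun s => -φ (-s)) (-a₀) (-b₀) := by
  have hP := h.pph
  refine ⟨⟨?_, ?_, ?_, ?_, hP.hM, hP.hL⟩, ?_, h.hT, ?_, ?_, ?_, ?_, ?_, ?_, ?_, ?_⟩
  · exact (hP.smooth.comp (contDiff_fst.neg.prodMk contDiff_snd)).neg
  · intro x hx
    show -θ (-x.1, x.2) = 0
    rw [hP.supp (-x.1, x.2) hx, neg_zero]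
  · intro x y
    show |-θ (-x.1, x.2) - -θ (-y.1, y.2)| ≤ L * ‖x - y‖
    have h1 := hP.lip (-x.1, x.2) (-y.1, y.2)
    have e1 : |-θ (-x.1, x.2) - -θ (-y.1, y.2)| = |θ (-x.1, x.2) - θ (-y.1, y.2)| := by
      rw [← abs_neg]; congr 1; ring
    have e2 : ‖((-x.1, x.2) : ℝ × ℝ) - (-y.1, y.2)‖ = ‖x - y‖ := by
      rw [Prod.norm_def, Prod.norm_def]
      congr 1
      show ‖-x.1 - -y.1‖ = ‖x.1 - y.1‖
      rw [← norm_neg]; congr 1; ring
    rw [e1, ← e2]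
    exact h1
  · intro x
    show |-θ (-x.1, x.2)| ≤ b
    rw [abs_neg]
    exact hP.bdd _
  · intro t r
    show -θ (-(t + 1), r) = -θ (-t, r)
    have h1 := h.per (-(t + 1)) r
    rw [← h1]
    congr 3
    ring
  · intro s
    have h1 := (h.dα (-s)).scomp s (hasDerivAt_neg s)
    have h2 := h1.neg
    simp only [smul_eq_mul, neg_mul, one_mul, neg_neg] at h2
    rw [Real.cos_neg]
    exact h2
  · intro s
    have h1 := (h.dρ (-s)).scomp s (hasDerivAt_neg s)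
    simp only [smul_eq_mul, neg_mul, one_mul] at h1
    rw [Real.sin_neg]
    exact h1
  · intro s
    show -θ (- -α (-s), ρ (-s)) = -φ (-s)
    rw [neg_neg, h.th]
  · intro s
    show -α (-(s + T)) = -α (-s) + 1
    have h1 := h.αT (-(s + T))
    have e1 : -(s + T) + T = -s := by ring
    rw [e1] at h1
    linarith
  · intro s
    show ρ (-(s + T)) = ρ (-s)
    have h1 := h.ρT (-(s + T))
    have e1 : -(s + T) + T = -s := by ring
    rw [e1] at h1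
    exact h1.symm
  · exact fun s => h.hρ _
  · intro r hr
    show -θ (- -α (- -a₀), r) = 0
    have hr' : ρ (- -a₀) ≤ r := hr
    rw [neg_neg] at hr' ⊢
    rw [neg_neg, h.top r hr', neg_zero]
  · intro r hr
    show -θ (- -α (- -b₀), r) = 0
    have hr' : r ≤ ρ (- -b₀) := hr
    rw [neg_neg] at hr' ⊢
    rw [neg_neg, h.btm r hr', neg_zero]

private theorem confC_flow_t (hF : IsFlow (XP θ) Ψ) :
    IsFlow (XP fun x : ℝ × ℝ => -θ (-x.1, x.2))
      (fun τ x => (-(Ψ τ (-x.1, x.2)).1, (Ψ τ (-x.1, x.2)).2)) := by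
  refine ⟨fun x => ?_, fun x t => ?_, ?_⟩
  · show (-(Ψ 0 (-x.1, x.2)).1, (Ψ 0 (-x.1, x.2)).2) = x
    rw [hF.zero]
    simp
  · have h1 := (p_t hF (-x.1, x.2) t).neg
    have h2 := p_r hF (-x.1, x.2) t
    have h3 := h1.prodMk h2
    have e : XP (fun x : ℝ × ℝ => -θ (-x.1, x.2))
        (-(Ψ t (-x.1, x.2)).1, (Ψ t (-x.1, x.2)).2) =
        (- -Real.sin (θ (Ψ t (-x.1, x.2))), Real.cos (θ (Ψ t (-x.1, x.2)))) := by
      unfold XP
      simp only [neg_neg, Prod.mk.eta, Real.sin_neg, Real.cos_neg]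
    rw [e]
    exact h3
  · have h1 : ContDiff ℝ ∞ fun y : ℝ × (ℝ × ℝ) => Ψ y.1 (-y.2.1, y.2.2) :=
      hF.smooth.comp (contDiff_fst.prodMk
        ((contDiff_fst.comp contDiff_snd).neg.prodMk (contDiff_snd.comp contDiff_snd)))
    exact (contDiff_fst.comp h1).neg.prodMk (contDiff_snd.comp h1)

/-- Reflection in `r`. -/
private theorem confC_refl_r (h : Strip θ M L b T α ρ φ a₀ b₀) :
    Strip (fun x : ℝ × ℝ => -θ (x.1, -x.2)) M L b T α (fun s => -ρ s)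
      (fun s => -φ s) b₀ a₀ := by
  have hP := h.pph
  refine ⟨⟨?_, ?_, ?_, ?_, hP.hM, hP.hL⟩, ?_, h.hT, ?_, ?_, ?_, h.αT, ?_, ?_, ?_, ?_⟩
  · exact (hP.smooth.comp (contDiff_fst.prodMk contDiff_snd.neg)).neg
  · intro x hx
    show -θ (x.1, -x.2) = 0
    rw [hP.supp (x.1, -x.2) (by rwa [abs_neg]), neg_zero]
  · intro x y
    show |-θ (x.1, -x.2) - -θ (y.1, -y.2)| ≤ L * ‖x - y‖
    have h1 := hP.lip (x.1, -x.2) (y.1, -y.2)
    have e1 : |-θ (x.1, -x.2) - -θ (y.1, -y.2)| = |θ (x.1, -x.2) - θ (y.1, -y.2)| := by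
      rw [← abs_neg]; congr 1; ring
    have e2 : ‖((x.1, -x.2) : ℝ × ℝ) - (y.1, -y.2)‖ = ‖x - y‖ := by
      rw [Prod.norm_def, Prod.norm_def]
      congr 1
      show ‖-x.2 - -y.2‖ = ‖x.2 - y.2‖
      rw [← norm_neg]; congr 1; ring
    rw [e1, ← e2]
    exact h1
  · intro x
    show |-θ (x.1, -x.2)| ≤ b
    rw [abs_neg]
    exact hP.bdd _
  · intro t r
    show -θ (t + 1, -r) = -θ (t, -r)
    rw [h.per]
  · intro s
    show HasDerivAt α (Real.cos (-φ s)) s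
    rw [Real.cos_neg]
    exact h.dα s
  · intro s
    show HasDerivAt (fun s => -ρ s) (Real.sin (-φ s)) s
    rw [Real.sin_neg]
    exact (h.dρ s).neg
  · intro s
    show -θ (α s, - -ρ s) = -φ s
    rw [neg_neg, h.th]
  · intro s
    show -ρ (s + T) = -ρ s
    rw [h.ρT]
  · intro s
    show |-ρ s| ≤ M
    rw [abs_neg]
    exact h.hρ s
  · intro r hr
    show -θ (α b₀, -r) = 0
    have hr' : -ρ b₀ ≤ r := hr
    rw [h.btm (-r) (by linarith), neg_zero]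
  · intro r hr
    show -θ (α a₀, -r) = 0
    have hr' : r ≤ -ρ a₀ := hr
    rw [h.top (-r) (by linarith), neg_zero]

private theorem confC_flow_r (hF : IsFlow (XP θ) Ψ) :
    IsFlow (XP fun x : ℝ × ℝ => -θ (x.1, -x.2))
      (fun τ x => ((Ψ (-τ) (x.1, -x.2)).1, -(Ψ (-τ) (x.1, -x.2)).2)) := by
  refine ⟨fun x => ?_, fun x t => ?_, ?_⟩
  · show ((Ψ (-0) (x.1, -x.2)).1, -(Ψ (-0) (x.1, -x.2)).2) = x
    rw [neg_zero, hF.zero]
    simp
  · have h1 := (p_t hF (x.1, -x.2) (-t)).scomp t (hasDerivAt_neg t)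
    have h2 := ((p_r hF (x.1, -x.2) (-t)).scomp t (hasDerivAt_neg t)).neg
    have h3 := h1.prodMk h2
    have e : XP (fun x : ℝ × ℝ => -θ (x.1, -x.2))
        ((Ψ (-t) (x.1, -x.2)).1, -(Ψ (-t) (x.1, -x.2)).2) =
        ((-1 : ℝ) • -Real.sin (θ (Ψ (-t) (x.1, -x.2))),
          -((-1 : ℝ) • Real.cos (θ (Ψ (-t) (x.1, -x.2))))) := by
      unfold XP
      simp only [neg_neg, Prod.mk.eta, Real.sin_neg, Real.cos_neg, smul_eq_mul, neg_mul, one_mul]
    rw [e]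
    exact h3
  · have h1 : ContDiff ℝ ∞ fun y : ℝ × (ℝ × ℝ) => Ψ (-y.1) (y.2.1, -y.2.2) :=
      hF.smooth.comp (contDiff_fst.neg.prodMk
        ((contDiff_fst.comp contDiff_snd).prodMk (contDiff_snd.comp contDiff_snd).neg))
    exact (contDiff_fst.comp h1).prodMk (contDiff_snd.comp h1).neg

/-- The right hand bound for all times. -/
private theorem confC_right (h : Strip θ M L b T α ρ φ a₀ b₀) (hF : IsFlow (XP θ) Ψ)
    (s τ : ℝ) : (Ψ τ (α s, ρ s)).1 ≤ α s + T := by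
  rcases le_total 0 τ with h0 | h0
  · exact conf_right h hF s h0
  · have h1 := conf_right (confC_refl_r h) (confC_flow_r hF) s (τ := -τ) (by linarith)
    simpa only [neg_neg] using h1

theorem conf_leaf (h : Strip θ M L b T α ρ φ a₀ b₀) (hF : IsFlow (XP θ) Ψ) (s τ : ℝ) :
    |(Ψ τ (α s, ρ s)).1 - α s| ≤ T := by
  have h1 := confC_right h hF s τ
  have h2 := confC_right (confC_refl_t h) (confC_flow_t hF) (-s) τ
  simp only [neg_neg] at h2
  rw [abs_le]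
  constructor <;> linarith

private theorem confC_orb {θ₂ : ℝ × ℝ → ℝ} {Ψ₂ : ℝ → ℝ × ℝ → ℝ × ℝ} (h2 : ContDiff ℝ ∞ θ₂)
    (hF : IsFlow (XP θ₂) Ψ₂) {β ϖ : ℝ × ℝ → ℝ} (hB : BotP θ₂ M Ψ₂ β ϖ) {u w : ℝ × ℝ}
    (h : β u = β w) : u = Ψ₂ (ϖ u - ϖ w) w := by
  have h3 := hF.add (XP_contDiff h2) (ϖ u - ϖ w) (ϖ w) (β w, -M)
  rw [sub_add_cancel, hB.orb w, ← h, hB.orb u] at h3
  exact h3.symm

theorem conf_reach (h : Strip θ M L b T α ρ φ a₀ b₀) (hF : IsFlow (XP θ) Ψ) (x : ℝ × ℝ) :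
    ∃ s τ : ℝ, x = Ψ τ (α s, ρ s) := by
  have hT := h.hT
  have hsm := h.pph.smooth
  obtain ⟨n, hn⟩ : ∃ n : ℕ, |x.1 - α b₀| + T < n := exists_nat_gt _
  have hn1 : 1 ≤ n := by
    by_contra hc
    have h0 : n = 0 := by omega
    rw [h0] at hn
    have := abs_nonneg (x.1 - α b₀)
    push_cast at hn
    linarith
  have hn0 : 0 ≤ (n : ℝ) * T := by positivity
  obtain ⟨D, θ₂, hD0, hD1, hP2, hDe, hDz⟩ := cut h.pph (|α b₀| + n * T + T)
  have hαD : ∀ σ ∈ Icc (b₀ - n * T) (b₀ + n * T), |α σ| + T ≤ D := by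
    intro σ hσ
    have h1 := strip_lip h σ b₀
    have h2 : |σ - b₀| ≤ n * T := abs_le.2 ⟨by linarith [hσ.1], by linarith [hσ.2]⟩
    have h3 : |α σ| ≤ |α b₀| + |α σ - α b₀| := by
      have := abs_add_le (α b₀) (α σ - α b₀)
      rwa [add_sub_cancel] at this
    linarith
  obtain ⟨Ψ₂, hF2⟩ := exists_pflow hP2.smooth
  have hDD : 0 < 2 * D := by linarith
  obtain ⟨τ₂, hτ₂, hG₂⟩ := p_good hP2 hF2 hDD hDz
  obtain ⟨β, ϖ, hB⟩ := p_bot hP2 hF2 hτ₂ hG₂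
  have hαc : Continuous α := continuous_iff_continuousAt.2 fun s => (h.dα s).continuousAt
  have hρc : Continuous ρ := continuous_iff_continuousAt.2 fun s => (h.dρ s).continuousAt
  have hβc : Continuous β := hB.smooth.continuous
  have hgc : Continuous fun σ => β (α σ, ρ σ) := hβc.comp (hαc.prodMk hρc)
  -- the flows agree along the orbits of the leaf
  have hag : ∀ σ ∈ Icc (b₀ - n * T) (b₀ + n * T), ∀ τ, Ψ₂ τ (α σ, ρ σ) = Ψ τ (α σ, ρ σ) := by
    intro σ hσ τ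
    refine agree hsm hP2.smooth hF hF2 hDe fun t _ => ?_
    have h1 := conf_leaf h hF σ t
    have h3 : |(Ψ t (α σ, ρ σ)).1| ≤ |α σ| + |(Ψ t (α σ, ρ σ)).1 - α σ| := by
      have := abs_add_le (α σ) ((Ψ t (α σ, ρ σ)).1 - α σ)
      rwa [add_sub_cancel] at this
    have := hαD σ hσ
    linarith
  have hrm : b₀ + n * T ∈ Icc (b₀ - n * T) (b₀ + n * T) := ⟨by linarith, le_rfl⟩
  have hlm : b₀ - n * T ∈ Icc (b₀ - n * T) (b₀ + n * T) := ⟨le_rfl, by linarith⟩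
  have hzr : α (b₀ + n * T) = α b₀ + n := by
    have := ((strip_mul h (n : ℤ)).1 b₀).1
    push_cast at this
    exact this
  have hzl : α (b₀ - n * T) = α b₀ - n := by
    have h1 := ((strip_mul h (-(n : ℤ))).1 b₀).1
    push_cast at h1
    have e1 : b₀ + -(n : ℝ) * T = b₀ - n * T := by ring
    rw [e1] at h1
    linarith
  -- upper bound of `β x`
  have hup : β x ≤ β (α (b₀ + n * T), ρ (b₀ + n * T)) := by
    by_contra hcon
    push Not at hcon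
    set z : ℝ := β (α (b₀ + n * T), ρ (b₀ + n * T)) with hz
    have hcf : Continuous fun l : ℝ => β (x.1 - l, x.2) :=
      hβc.comp ((continuous_const.sub continuous_id).prodMk continuous_const)
    have hfar : β (x.1 - |x.1 - z + 2 * (2 * D)|, x.2) ≤ z := by
      have h1 := bot_far hP2 hF2 hB hDD hDz (x.1 - |x.1 - z + 2 * (2 * D)|, x.2)
      have h2 := (abs_le.1 h1).2
      simp only at h2
      have h3 := le_abs_self (x.1 - z + 2 * (2 * D))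
      linarith
    have h0 : (fun l : ℝ => β (x.1 - l, x.2)) 0 = β x := by simp
    obtain ⟨l, hl, hlz⟩ := intermediate_value_Icc'
      (abs_nonneg (x.1 - z + 2 * (2 * D))) hcf.continuousOn
      (show z ∈ Icc ((fun l : ℝ => β (x.1 - l, x.2)) |x.1 - z + 2 * (2 * D)|)
        ((fun l : ℝ => β (x.1 - l, x.2)) 0) from ⟨hfar, by rw [h0]; exact hcon.le⟩)
    have h1 := confC_orb hP2.smooth hF2 hB
      (u := (x.1 - l, x.2)) (w := (α (b₀ + n * T), ρ (b₀ + n * T))) hlz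
    rw [hag _ hrm] at h1
    have h2 := conf_leaf h hF (b₀ + n * T)
      (ϖ (x.1 - l, x.2) - ϖ (α (b₀ + n * T), ρ (b₀ + n * T)))
    rw [← h1, hzr] at h2
    have h3 := (abs_le.1 h2).1
    simp only at h3
    have h4 := le_abs_self (x.1 - α b₀)
    linarith [hl.1]
  have hlo : β (α (b₀ - n * T), ρ (b₀ - n * T)) ≤ β x := by
    by_contra hcon
    push Not at hcon
    set z : ℝ := β (α (b₀ - n * T), ρ (b₀ - n * T)) with hz
    have hcf : Continuous fun l : ℝ => β (x.1 + l, x.2) :=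
      hβc.comp ((continuous_const.add continuous_id).prodMk continuous_const)
    have hfar : z ≤ β (x.1 + |z - x.1 + 2 * (2 * D)|, x.2) := by
      have h1 := bot_far hP2 hF2 hB hDD hDz (x.1 + |z - x.1 + 2 * (2 * D)|, x.2)
      have h2 := (abs_le.1 h1).1
      simp only at h2
      have h3 := le_abs_self (z - x.1 + 2 * (2 * D))
      linarith
    have h0 : (fun l : ℝ => β (x.1 + l, x.2)) 0 = β x := by simp
    obtain ⟨l, hl, hlz⟩ := intermediate_value_Icc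
      (abs_nonneg (z - x.1 + 2 * (2 * D))) hcf.continuousOn
      (show z ∈ Icc ((fun l : ℝ => β (x.1 + l, x.2)) 0)
        ((fun l : ℝ => β (x.1 + l, x.2)) |z - x.1 + 2 * (2 * D)|) from
          ⟨by rw [h0]; exact hcon.le, hfar⟩)
    have h1 := confC_orb hP2.smooth hF2 hB
      (u := (x.1 + l, x.2)) (w := (α (b₀ - n * T), ρ (b₀ - n * T))) hlz
    rw [hag _ hlm] at h1
    have h2 := conf_leaf h hF (b₀ - n * T)
      (ϖ (x.1 + l, x.2) - ϖ (α (b₀ - n * T), ρ (b₀ - n * T)))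
    rw [← h1, hzl] at h2
    have h3 := (abs_le.1 h2).2
    simp only at h3
    have h4 := neg_abs_le (x.1 - α b₀)
    linarith [hl.1]
  obtain ⟨σ, hσ, hσx⟩ := intermediate_value_Icc (by linarith : b₀ - n * T ≤ b₀ + n * T)
    hgc.continuousOn (show β x ∈ Icc ((fun σ => β (α σ, ρ σ)) (b₀ - n * T))
      ((fun σ => β (α σ, ρ σ)) (b₀ + n * T)) from ⟨hlo, hup⟩)
  refine ⟨σ, ϖ x - ϖ (α σ, ρ σ), ?_⟩
  rw [← hag σ hσ]
  exact confC_orb hP2.smooth hF2 hB hσx.symm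

theorem conf (h : Strip θ M L b T α ρ φ a₀ b₀) (hF : IsFlow (XP θ) Ψ) (x : ℝ × ℝ) (τ : ℝ) :
    |(Ψ τ x).1 - x.1| ≤ 2 * T := by
  obtain ⟨s, σ, hx⟩ := conf_reach h hF x
  have h1 := conf_leaf h hF s σ
  have h2 := conf_leaf h hF s (τ + σ)
  have h3 := hF.add (XP_contDiff h.pph.smooth) τ σ (α s, ρ s)
  rw [hx, h3]
  have h4 := abs_le.1 h1
  have h5 := abs_le.1 h2
  rw [abs_le]
  constructor <;> linarith [h4.1, h4.2, h5.1, h5.2]

theorem strip_good (M L T₀ : ℝ) : ∃ τ : ℝ, 0 < τ ∧ ∀ (θ : ℝ × ℝ → ℝ) (b T : ℝ) (α ρ φ : ℝ → ℝ)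
    (a₀ b₀ : ℝ), T ≤ T₀ → Strip θ M L b T α ρ φ a₀ b₀ → ∀ Ψ, IsFlow (XP θ) Ψ →
      GoodP M τ Ψ := by
  by_cases hML : 0 < M ∧ 0 ≤ L
  · obtain ⟨hM, hL⟩ := hML
    have hε : 0 < 1 / (100 * (L + 2)) := by positivity
    obtain ⟨τ, hτ, hp⟩ := p_time M (2 * T₀) hε
    refine ⟨τ, by linarith, fun θ b T α ρ φ a₀ b₀ hT h Ψ hF => ?_⟩
    refine hp θ L b Ψ h.pph hF (fun x t => ?_) fun x t ht => noret_gen h.pph hF x t ht
    have := conf h hF x t
    linarith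
  · refine ⟨1, one_pos, fun θ b T α ρ φ a₀ b₀ _ h Ψ _ => ?_⟩
    exact absurd ⟨h.pph.hM, h.pph.hL⟩ hML

end Pool.Agent.H57.CR
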