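import Pool.Agent.H57.CR.PSb

/-!
# Comparison of two local phases (module Curv1)

PORT of `Pool/Agent/H2/TG/Curv1.lean` (same proofs, replacements as in PSb; `cval_trans` becomes `cval_shp`). The
script /team-store/h57_port.py does most of the replacements.
-/

set_option autoImplicit false
set_option linter.unusedSectionVars false

open scoped ContDiff Topology
open Set

namespace Pool.Agent.H57.CR

open Pool.Agent.H2.TG (IsFlow angle_unique angle_exists smooth_angle)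

variable {P : Type} [NormedAddCommGroup P] [NormedSpace ℝ P] [FiniteDimensional ℝ P] {N : Set P}
  {K : Set (P × ℝ × ℝ)} {f : P × ℝ × ℝ → ℝ}

/-- The value `k` is the curvature of the leaf at `x`. -/
def cval (N : Set P) (K : Set (P × ℝ × ℝ)) (x : (P × ℝ × ℝ) × ℝ) (k : ℝ) : Prop :=
  ∀ W u ϑ, x.1 ∈ W → LocEq N K W u → PhaseOf W u ϑ → ∀ j : ℤ, x.2 = ϑ x.1 + j * Real.pi →
    k = fderiv ℝ ϑ x.1 (0, Real.cos x.2, Real.sin x.2)

private theorem curv1_tangent {W W' : Set (P × ℝ × ℝ)} {u u' ϑ ϑ' : P × ℝ × ℝ → ℝ} (hC : LocEq N K W u) (hC' : LocEq N K W' u')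
    (hϑ : PhaseOf W u ϑ) (hϑ' : PhaseOf W' u' ϑ') {y : P × ℝ × ℝ} (hy : y ∈ K) (hyW : y ∈ W)
    (hyW' : y ∈ W') : ∃ k : ℤ, ϑ y = ϑ' y + k * Real.pi := by
  have h1 : dpl u y (Real.cos (ϑ y)) (Real.sin (ϑ y)) = 0 := hϑ.tang y hyW
  have h2 : dpl u y (Real.cos (ϑ' y)) (Real.sin (ϑ' y)) = 0 :=
    dpl_zero hC' hC hy hyW' hyW (hϑ'.tang y hyW')
  rw [dpl_lin] at h1 h2
  refine angle_unique (hC.reg y hyW) ?_ ?_
  · linarith
  · linarith

theorem phase_compare {W W' : Set (P × ℝ × ℝ)} {u u' ϑ ϑ' : P × ℝ × ℝ → ℝ} (hC : LocEq N K W u)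
    (hϑ : PhaseOf W u ϑ) (hC' : LocEq N K W' u') (hϑ' : PhaseOf W' u' ϑ') {x : P × ℝ × ℝ}
    (hx : x ∈ K) (hxW : x ∈ W) (hxW' : x ∈ W') {j : ℤ} (h : ϑ x = ϑ' x + j * Real.pi) :
    fderiv ℝ ϑ x (0, Real.cos (ϑ x), Real.sin (ϑ x)) =
      fderiv ℝ ϑ' x (0, Real.cos (ϑ x), Real.sin (ϑ x)) := by
  obtain ⟨ε, y, hε, hy0, hy⟩ := exists_curve hC hϑ hx hxW
  have hy00 := (hy 0 (by simpa using hε)).2.2
  rw [hy0] at hy00
  have hd : DifferentiableAt ℝ ϑ x :=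
    (hϑ.smooth.contDiffAt (hC.isOpen.mem_nhds hxW)).differentiableAt (by simp)
  have hd' : DifferentiableAt ℝ ϑ' x :=
    (hϑ'.smooth.contDiffAt (hC'.isOpen.mem_nhds hxW')).differentiableAt (by simp)
  have e1 : HasDerivAt (ϑ ∘ y) (fderiv ℝ ϑ x (0, Real.cos (ϑ x), Real.sin (ϑ x))) 0 := by
    have e2 : HasFDerivAt ϑ (fderiv ℝ ϑ x) (y 0) := by
      rw [hy0]; exact hd.hasFDerivAt
    exact e2.comp_hasDerivAt 0 hy00
  have e1' : HasDerivAt (ϑ' ∘ y) (fderiv ℝ ϑ' x (0, Real.cos (ϑ x), Real.sin (ϑ x))) 0 := by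
    have e2 : HasFDerivAt ϑ' (fderiv ℝ ϑ' x) (y 0) := by
      rw [hy0]; exact hd'.hasFDerivAt
    exact e2.comp_hasDerivAt 0 hy00
  have hev : ∀ᶠ t in 𝓝 (0 : ℝ), y t ∈ W' :=
    hy00.continuousAt.eventually_mem (by rw [hy0]; exact hC'.isOpen.mem_nhds hxW')
  have hev2 : ∀ᶠ t in 𝓝 (0 : ℝ), |t| < ε := by
    refine Metric.eventually_nhds_iff.mpr ⟨ε, hε, fun t ht => ?_⟩
    simpa [Real.dist_eq] using ht
  have hcont : ContinuousAt (fun t => ϑ (y t) - ϑ' (y t) - j * Real.pi) 0 :=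
    (e1.continuousAt.sub e1'.continuousAt).sub continuousAt_const
  have hval : ϑ (y 0) - ϑ' (y 0) - j * Real.pi = 0 := by
    rw [hy0]
    linarith
  have hev3 : ∀ᶠ t in 𝓝 (0 : ℝ), |ϑ (y t) - ϑ' (y t) - j * Real.pi| < Real.pi := by
    have h1 : (fun t => ϑ (y t) - ϑ' (y t) - j * Real.pi) 0 ∈ Metric.ball (0 : ℝ) Real.pi := by
      change ϑ (y 0) - ϑ' (y 0) - j * Real.pi ∈ Metric.ball (0 : ℝ) Real.pi
      rw [hval]
      exact Metric.mem_ball_self Real.pi_pos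
    filter_upwards [hcont.eventually_mem (Metric.isOpen_ball.mem_nhds h1)] with t ht
    rwa [Metric.mem_ball, Real.dist_eq, sub_zero] at ht
  have hev4 : (ϑ ∘ y) =ᶠ[𝓝 0] fun t => (ϑ' ∘ y) t + j * Real.pi := by
    filter_upwards [hev, hev2, hev3] with t h1 h2 h3
    obtain ⟨k, hk⟩ := curv1_tangent hC hC' hϑ hϑ' (hy t h2).1 (hy t h2).2.1 h1
    rw [hk] at h3
    have h4 : ϑ' (y t) + k * Real.pi - ϑ' (y t) - j * Real.pi = ((k - j : ℤ) : ℝ) * Real.pi := by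
      push_cast
      ring
    rw [h4, abs_mul, abs_of_pos Real.pi_pos] at h3
    have h5 : |((k - j : ℤ) : ℝ)| < 1 := by
      by_contra hcon
      push Not at hcon
      nlinarith [Real.pi_pos]
    have h6 : k - j = 0 := by
      have : |k - j| < 1 := by exact_mod_cast h5
      exact Int.abs_lt_one_iff.1 this
    have h7 : k = j := by linarith
    change ϑ (y t) = ϑ' (y t) + j * Real.pi
    rw [hk, h7]
  have e3 : HasDerivAt (ϑ ∘ y) (fderiv ℝ ϑ' x (0, Real.cos (ϑ x), Real.sin (ϑ x))) 0 :=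
    (e1'.add_const (j * Real.pi)).congr_of_eventuallyEq hev4
  exact e1.unique e3

private theorem curv1_vec (φ : ℝ) (j : ℤ) :
    ((0, Real.cos (φ + j * Real.pi), Real.sin (φ + j * Real.pi)) : P × ℝ × ℝ) =
      ((-1 : ℝ) ^ j) • ((0, Real.cos φ, Real.sin φ) : P × ℝ × ℝ) := by
  rw [Real.cos_add_int_mul_pi, Real.sin_add_int_mul_pi, Prod.smul_mk, Prod.smul_mk, smul_zero,
    smul_eq_mul, smul_eq_mul]

theorem cval_of {W : Set (P × ℝ × ℝ)} {u ϑ : P × ℝ × ℝ → ℝ} (hC : LocEq N K W u)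
    (hϑ : PhaseOf W u ϑ) {x : (P × ℝ × ℝ) × ℝ} (hx : x.1 ∈ K) (hxW : x.1 ∈ W) {j : ℤ}
    (h : x.2 = ϑ x.1 + j * Real.pi) :
    cval N K x (fderiv ℝ ϑ x.1 (0, Real.cos x.2, Real.sin x.2)) := by
  intro W' u' ϑ' hxW' hC' hϑ' j' h'
  have h1 : ϑ x.1 = ϑ' x.1 + ((j' - j : ℤ) : ℝ) * Real.pi := by
    push_cast
    linarith
  have h2 := phase_compare hC hϑ hC' hϑ' hx hxW hxW' h1
  rw [h, curv1_vec, map_smul, map_smul, h2]

private theorem curv1_phase (hR : Fam N K f) {x : (P × ℝ × ℝ) × ℝ} (hx : x ∈ PS N K) :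
    ∃ (W : Set (P × ℝ × ℝ)) (u ϑ : P × ℝ × ℝ → ℝ), x.1 ∈ W ∧ LocEq N K W u ∧ PhaseOf W u ϑ ∧
      ϑ x.1 = x.2 := by
  obtain ⟨W, u, hxW, hC⟩ := hR.loc x.1 hx.1
  obtain ⟨W₁, ϑ, _, hxm, hC1, hP, he⟩ := exists_phase hC hxW ((mem_PS hC hx.1 hxW).1 hx)
  exact ⟨W₁, u, ϑ, hxm, hC1, hP, he⟩

theorem exists_cval (hR : Fam N K f) {x : (P × ℝ × ℝ) × ℝ} (hx : x ∈ PS N K) :
    ∃ k, cval N K x k := by
  obtain ⟨W, u, ϑ, hxW, hC, hP, he⟩ := curv1_phase hR hx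
  exact ⟨_, cval_of hC hP hx.1 hxW (j := 0) (by rw [he]; simp)⟩

theorem cval_unique (hR : Fam N K f) {x : (P × ℝ × ℝ) × ℝ} (hx : x ∈ PS N K) {k k' : ℝ}
    (h : cval N K x k) (h' : cval N K x k') : k = k' := by
  obtain ⟨W, u, ϑ, hxW, hC, hP, he⟩ := curv1_phase hR hx
  rw [h W u ϑ hxW hC hP 0 (by rw [he]; simp), h' W u ϑ hxW hC hP 0 (by rw [he]; simp)]

theorem cval_pi (hR : Fam N K f) {x : (P × ℝ × ℝ) × ℝ} (hx : x ∈ PS N K) {k : ℝ}
    (h : cval N K x k) (j : ℤ) : cval N K (x.1, x.2 + j * Real.pi) ((-1) ^ j * k) := by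
  obtain ⟨W, u, ϑ, hxW, hC, hP, he⟩ := curv1_phase hR hx
  have h1 := h W u ϑ hxW hC hP 0 (by rw [he]; simp)
  have h2 := cval_of hC hP (x := (x.1, x.2 + j * Real.pi)) hx.1 hxW (j := j) (by
    change x.2 + j * Real.pi = ϑ x.1 + j * Real.pi
    rw [he])
  have h3 : fderiv ℝ ϑ (x.1, x.2 + j * Real.pi).1
      (0, Real.cos (x.1, x.2 + j * Real.pi).2, Real.sin (x.1, x.2 + j * Real.pi).2) =
      (-1 : ℝ) ^ j * k := by
    change fderiv ℝ ϑ x.1 (0, Real.cos (x.2 + j * Real.pi), Real.sin (x.2 + j * Real.pi)) = _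
    rw [curv1_vec, map_smul, smul_eq_mul, h1]
  rw [h3] at h2
  exact h2

private theorem curv1_shp (l : ℤ) (y : P × ℝ × ℝ) :
    shp l y = y + ((0 : P), (l : ℝ), (0 : ℝ)) := by
  unfold shp
  ext <;> simp

private theorem curv1_fderiv (w : P × ℝ × ℝ → ℝ) (l : ℤ) (y : P × ℝ × ℝ) :
    fderiv ℝ (fun y => w (shp l y)) y = fderiv ℝ w (shp l y) := by
  have h1 : (fun y : P × ℝ × ℝ => w (shp l y)) =
      fun y => w (y + ((0 : P), (l : ℝ), (0 : ℝ))) := by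
    funext y
    rw [curv1_shp]
  rw [h1, fderiv_comp_add_right, curv1_shp]

theorem cval_shp (hR : Fam N K f) (l : ℤ) {x : (P × ℝ × ℝ) × ℝ} {k : ℝ}
    (h : cval N K x k) : cval N K (shp l x.1, x.2) k := by
  intro W' u' ϑ' hxW' hC' hϑ' j h'
  have hL := locEq_shp hR hC' (-l)
  rw [neg_neg] at hL
  have hs : ContDiff ℝ ∞ (shp l : P × ℝ × ℝ → P × ℝ × ℝ) := by
    have e : (shp l : P × ℝ × ℝ → P × ℝ × ℝ) = fun y => y + ((0 : P), (l : ℝ), (0 : ℝ)) :=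
      funext (curv1_shp l)
    rw [e]
    exact contDiff_id.add contDiff_const
  have hP : PhaseOf {y : P × ℝ × ℝ | shp l y ∈ W'} (fun y => u' (shp l y))
      (fun y => ϑ' (shp l y)) := by
    constructor
    · exact hϑ'.smooth.comp hs.contDiffOn fun y hy => hy
    · intro y hy
      have h1 := hϑ'.tang _ hy
      rw [dpl_shp]
      exact h1
  have h2 := h _ _ _ hxW' hL hP j h'
  rw [curv1_fderiv] at h2
  exact h2

end Pool.Agent.H57.CR
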