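import Pool.Agent.H57.CR.Curv1
import Pool.Agent.H2.TG.Glue

/-!
# The curvature as a global smooth bounded function (module Curv2)

PORT of `Pool/Agent/H2/TG/Curv2.lean`, SIMPLER: no periodicity is required of `κ`, so step (c) (averaging) is
dropped: (a) local sections, (b) `exists_glue` with `t x = {k | x ∈ PS N K → cval N K x k}` gives `κ₀` smooth with
`cval N K x (κ₀ x)` on `PS N K`, (d) `|κ₀| ≤ B` on `PS N K`: the set `{x ∈ PS N K | x.1.2.1 ∈ [0, 1], |x.2| ≤ 2 π}` is compact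
(`x.1.1 ∈ N` compact, `hR.bdd`, `PS_closed`); for general `x` use `cval_shp`, `cval_pi`, `cval_unique`; (e) `κ = h ∘ κ₀` with
`h` smooth, bounded, `h x = x` for `|x| ≤ B`.
-/

set_option autoImplicit false
set_option linter.unusedSectionVars false

open scoped ContDiff Topology
open Set

namespace Pool.Agent.H57.CR

open Pool.Agent.H2.TG (IsFlow angle_unique angle_exists smooth_angle)

variable {P : Type} [NormedAddCommGroup P] [NormedSpace ℝ P] [FiniteDimensional ℝ P] {N : Set P}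
  {K : Set (P × ℝ × ℝ)} {f : P × ℝ × ℝ → ℝ}

private theorem Curv2_local (hR : Fam N K f) (x : (P × ℝ × ℝ) × ℝ) :
    ∃ W : Set ((P × ℝ × ℝ) × ℝ), IsOpen W ∧ x ∈ W ∧ ∃ g : (P × ℝ × ℝ) × ℝ → ℝ,
      ContDiffOn ℝ ∞ g W ∧ ∀ y ∈ W, y ∈ PS N K → cval N K y (g y) := by
  by_cases hx : x ∈ PS N K
  · obtain ⟨W, u, hxW, hC⟩ := hR.loc x.1 hx.1
    obtain ⟨W₁, ϑ, hW₁, hxW₁, hC₁, hϑ, hϑx⟩ := exists_phase hC hxW (hx.2 W u hxW hC)
    have hopen : IsOpen {y : (P × ℝ × ℝ) × ℝ | y.1 ∈ W₁} := hC₁.isOpen.preimage continuous_fst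
    refine ⟨{y | y.1 ∈ W₁}, hopen, hxW₁,
      fun y => fderiv ℝ ϑ y.1 (0, Real.cos y.2, Real.sin y.2), ?_, ?_⟩
    · have h1 : ContDiffOn ℝ ∞ (fun y : P × ℝ × ℝ => fderiv ℝ ϑ y) W₁ :=
        hϑ.smooth.fderiv_of_isOpen hC₁.isOpen (by simp)
      have h2 : ContDiffOn ℝ ∞ (fun y : (P × ℝ × ℝ) × ℝ => fderiv ℝ ϑ y.1) {y | y.1 ∈ W₁} :=
        h1.comp contDiff_fst.contDiffOn fun y hy => hy
      have h3 : ContDiffOn ℝ ∞ (fun y : (P × ℝ × ℝ) × ℝ =>
          ((0, Real.cos y.2, Real.sin y.2) : P × ℝ × ℝ)) {y | y.1 ∈ W₁} := by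
        refine ContDiff.contDiffOn ?_
        exact contDiff_const.prodMk ((Real.contDiff_cos.comp contDiff_snd).prodMk
          (Real.contDiff_sin.comp contDiff_snd))
      exact h2.clm_apply h3
    · intro y hyW hyPS
      have hyW' : y.1 ∈ W₁ := hyW
      have h1 : (y.1, ϑ y.1) ∈ PS N K :=
        (mem_PS hC₁ (x := (y.1, ϑ y.1)) hyPS.1 hyW').2 (hϑ.tang y.1 hyW')
      obtain ⟨j, hj⟩ := PS_unique hR (y := y.1) (φ := y.2) (ψ := ϑ y.1) hyPS h1
      exact cval_of hC₁ hϑ hyPS.1 hyW' hj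
  · exact ⟨(PS N K)ᶜ, (PS_closed hR).isOpen_compl, hx, fun _ => 0, contDiffOn_const,
      fun y hy hy' => absurd hy' hy⟩

private theorem Curv2_global (hR : Fam N K f) : ∃ κ : (P × ℝ × ℝ) × ℝ → ℝ, ContDiff ℝ ∞ κ ∧
    ∀ x ∈ PS N K, cval N K x (κ x) := by
  obtain ⟨κ₀, hκ₀, hκ₀'⟩ := Pool.Agent.H2.TG.exists_glue (V := (P × ℝ × ℝ) × ℝ)
    (fun x => {k | x ∈ PS N K → cval N K x k})
    (by
      intro x k hk k' hk' a b ha hb hab hx
      have h1 : k = k' := cval_unique hR hx (hk hx) (hk' hx)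
      have h2 : a • k + b • k' = k := by
        rw [← h1, smul_eq_mul, smul_eq_mul, ← add_mul, hab, one_mul]
      rw [h2]
      exact hk hx)
    (by
      intro x
      obtain ⟨W, hW, hxW, g, hg, hg'⟩ := Curv2_local hR x
      exact ⟨W, hW, hxW, g, hg, fun y hy => hg' y hy⟩)
  exact ⟨κ₀, hκ₀, fun x hx => hκ₀' x hx⟩

private theorem Curv2_bound (hR : Fam N K f) {κ : (P × ℝ × ℝ) × ℝ → ℝ} (hκ : ContDiff ℝ ∞ κ)
    (hc : ∀ x ∈ PS N K, cval N K x (κ x)) : ∃ B : ℝ, ∀ x ∈ PS N K, |κ x| ≤ B := by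
  have hproper : ProperSpace P := FiniteDimensional.proper_real P
  obtain ⟨R, hRN⟩ := hR.cptN.isBounded.exists_norm_le
  obtain ⟨M, hM⟩ := hR.bdd
  have hcl : IsClosed (PS N K ∩ {x : (P × ℝ × ℝ) × ℝ | |x.1.2.1| ≤ 1 ∧ |x.2| ≤ 2 * Real.pi}) := by
    refine (PS_closed hR).inter ?_
    exact (isClosed_le (continuous_abs.comp (continuous_fst.comp (continuous_snd.comp
      continuous_fst))) continuous_const).inter
      (isClosed_le (continuous_abs.comp continuous_snd) continuous_const)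
  have hbd : Bornology.IsBounded
      (PS N K ∩ {x : (P × ℝ × ℝ) × ℝ | |x.1.2.1| ≤ 1 ∧ |x.2| ≤ 2 * Real.pi}) := by
    rw [isBounded_iff_forall_norm_le]
    refine ⟨max (max R (max 1 M)) (2 * Real.pi), fun x hx => ?_⟩
    rw [Prod.norm_def, Prod.norm_def, Prod.norm_def]
    refine max_le_max (max_le_max ?_ (max_le_max ?_ ?_)) ?_
    · exact hRN _ (hR.base _ hx.1.1)
    · rw [Real.norm_eq_abs]
      exact hx.2.1
    · rw [Real.norm_eq_abs]
      exact hM x.1 hx.1.1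
    · rw [Real.norm_eq_abs]
      exact hx.2.2
  have hcomp := Metric.isCompact_of_isClosed_isBounded hcl hbd
  obtain ⟨B, hB⟩ := hcomp.exists_bound_of_continuousOn (f := κ) hκ.continuous.continuousOn
  refine ⟨B, fun x hx => ?_⟩
  have hx' := PS_shp hR (-⌊x.1.2.1⌋) hx
  have e1 : κ (shp (-⌊x.1.2.1⌋) x.1, x.2) = κ x :=
    cval_unique hR hx' (hc _ hx') (cval_shp hR _ (hc _ hx))
  obtain ⟨j, hj⟩ : ∃ j : ℤ, |x.2 + ((2 * j : ℤ) : ℝ) * Real.pi| ≤ 2 * Real.pi := by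
    refine ⟨-⌊x.2 / (2 * Real.pi)⌋, ?_⟩
    have hp : 0 < 2 * Real.pi := by positivity
    have h1 := Int.floor_le (x.2 / (2 * Real.pi))
    have h2 := (Int.lt_floor_add_one (x.2 / (2 * Real.pi))).le
    rw [le_div_iff₀ hp] at h1
    rw [div_le_iff₀ hp] at h2
    push_cast
    rw [abs_le]
    constructor <;> linarith
  have hx'' := PS_pi hR hx' (2 * j)
  have h3 := cval_pi hR hx' (hc _ hx') (2 * j)
  have h4 : ((-1 : ℝ)) ^ (2 * j) = 1 := Even.neg_one_zpow ⟨j, by ring⟩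
  rw [h4, one_mul] at h3
  have h5 := cval_unique hR hx'' (hc _ hx'') h3
  have ht : |(shp (-⌊x.1.2.1⌋) x.1).2.1| ≤ 1 := by
    have h1 := Int.floor_le x.1.2.1
    have h2 := (Int.lt_floor_add_one x.1.2.1).le
    simp only [shp]
    push_cast
    rw [abs_le]
    constructor <;> linarith
  have h6 := hB _ ⟨hx'', ht, hj⟩
  rw [Real.norm_eq_abs] at h6
  rw [← e1, ← h5]
  exact h6

theorem exists_curv (hR : Fam N K f) : ∃ κ, Curv N K κ := by
  obtain ⟨κ₁, hs, hc⟩ := Curv2_global hR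
  obtain ⟨B, hB⟩ := Curv2_bound hR hs hc
  have hB0 : 0 ≤ |B| := abs_nonneg B
  let χ : ContDiffBump (0 : ℝ) := ⟨|B| + 1, |B| + 2, by positivity, by linarith⟩
  have hχs : ContDiff ℝ ∞ (χ : ℝ → ℝ) := χ.contDiff
  refine ⟨fun x => χ (κ₁ x) * κ₁ x, ⟨?_, ⟨|B| + 2, ?_⟩, ?_⟩⟩
  · exact (hχs.comp hs).mul hs
  · intro x
    rcases le_total (|B| + 2) |κ₁ x| with h | h
    · have h0 : χ (κ₁ x) = 0 := χ.zero_of_le_dist (by
        rw [dist_zero_right, Real.norm_eq_abs]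
        exact h)
      rw [h0, zero_mul, abs_zero]
      linarith
    · rw [abs_mul, abs_of_nonneg χ.nonneg]
      calc χ (κ₁ x) * |κ₁ x| ≤ 1 * |κ₁ x| := mul_le_mul_of_nonneg_right χ.le_one (abs_nonneg _)
        _ ≤ |B| + 2 := by linarith
  · intro x hx W u ϑ hxW hC hϑ k hk
    have h1 : χ (κ₁ x) = 1 := χ.one_of_mem_closedBall (by
      rw [mem_closedBall_zero_iff, Real.norm_eq_abs]
      have h2 := hB x hx
      have h3 := le_abs_self B
      show |κ₁ x| ≤ |B| + 1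
      linarith)
    show χ (κ₁ x) * κ₁ x = _
    rw [h1, one_mul]
    exact hc x hx W u ϑ hxW hC hϑ k hk

end Pool.Agent.H57.CR
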