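import Pool.Agent.H57.CR.PGood

/-!
# Cutting off laterally (module Cut)

PROOFS.
* `cut`: let `χ₀ : ℝ → ℝ` be smooth, `χ₀ = 1` on `[-1, 1]`, `0` outside `[-2, 2]`, values in `[0, 1]` (`ContDiffBump` or `exists_cut` of H2/TG/Glue), `|χ₀'| ≤ c` (compact support). With `D ≥ D₀`, `D ≥ c |b| + 1`,
  `D ≥ 1` let `θ₂ x = χ₀ (x.1 / D) θ x`. `|θ₂ x - θ₂ y| ≤ |θ x - θ y| + |θ y| |χ₀ (x.1 / D) - χ₀ (y.1 / D)| ≤ L ‖x - y‖ + b (c / D) ‖x - y‖ ≤ (L + 1) ‖x - y‖`.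
* `noret_gen`: fix `x`, `t`. The orbit of `x` for the times between `0` and `t` is in `|x.1| ≤ D₀ = |x.1| + |t|` (`p_norm`). Take `θ₂` from `cut`, its flow `Ψ₂` (`exists_pflow`) is good (`p_good` with `2 D`),
  `Ψ₂ t x = Ψ t x` (`agree`), and `p_noret` for `θ₂` (Lipschitz constant `L + 1`).
-/

set_option autoImplicit false
set_option linter.unusedSectionVars false

open scoped ContDiff Topology
open Set

namespace Pool.Agent.H57.CR

open Pool.Agent.H2.TG (IsFlow)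

variable {θ : ℝ × ℝ → ℝ} {M L b : ℝ} {Ψ : ℝ → ℝ × ℝ → ℝ × ℝ}

theorem cut (hP : PPh θ M L b) (D₀ : ℝ) : ∃ (D : ℝ) (θ₂ : ℝ × ℝ → ℝ), D₀ ≤ D ∧ 1 ≤ D ∧
    PPh θ₂ M (L + 1) b ∧ (∀ x : ℝ × ℝ, |x.1| ≤ D → θ₂ x = θ x) ∧
      ∀ x : ℝ × ℝ, 2 * D ≤ |x.1| → θ₂ x = 0 := by
  obtain ⟨χ, hχ1, hχ2⟩ : ∃ χ : ContDiffBump (0 : ℝ), χ.rIn = 1 ∧ χ.rOut = 2 :=
    ⟨⟨1, 2, one_pos, one_lt_two⟩, rfl, rfl⟩
  have hχs : ContDiff ℝ ∞ χ := χ.contDiff
  obtain ⟨c, hc⟩ := hχs.lipschitzWith_of_hasCompactSupport χ.hasCompactSupport (by simp)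
  have hb : 0 ≤ b := (abs_nonneg _).trans (hP.bdd 0)
  have hc0 : (0 : ℝ) ≤ c := c.2
  have hL := hP.hL
  obtain ⟨D, hD⟩ : ∃ D : ℝ, D = |D₀| + c * b + 1 := ⟨_, rfl⟩
  have hcb : 0 ≤ c * b := mul_nonneg hc0 hb
  have hD1 : 1 ≤ D := by
    rw [hD]
    linarith [abs_nonneg D₀]
  have hD0 : 0 < D := by linarith
  refine ⟨D, fun x => χ (x.1 / D) * θ x, ?_, hD1, ⟨?_, ?_, ?_, ?_, hP.hM, by linarith⟩, ?_, ?_⟩
  · rw [hD]
    linarith [le_abs_self D₀]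
  · exact (hχs.comp (contDiff_fst.div_const D)).mul hP.smooth
  · intro x hx
    rw [hP.supp x hx, mul_zero]
  · intro x y
    have e : χ (x.1 / D) * θ x - χ (y.1 / D) * θ y =
        χ (x.1 / D) * (θ x - θ y) + (χ (x.1 / D) - χ (y.1 / D)) * θ y := by ring
    rw [e]
    refine (abs_add_le _ _).trans ?_
    rw [abs_mul, abs_mul, abs_of_nonneg χ.nonneg]
    have h1 : χ (x.1 / D) * |θ x - θ y| ≤ 1 * (L * ‖x - y‖) :=
      mul_le_mul χ.le_one (hP.lip x y) (abs_nonneg _) zero_le_one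
    have h2 : |χ (x.1 / D) - χ (y.1 / D)| ≤ c * (‖x - y‖ / D) := by
      have h3 := hc.dist_le_mul (x.1 / D) (y.1 / D)
      rw [Real.dist_eq, Real.dist_eq, ← sub_div, abs_div, abs_of_pos hD0] at h3
      refine h3.trans (mul_le_mul_of_nonneg_left (div_le_div_of_nonneg_right ?_ hD0.le) hc0)
      have h4 := norm_fst_le (x - y)
      rwa [Prod.fst_sub, Real.norm_eq_abs] at h4
    have h5 : |χ (x.1 / D) - χ (y.1 / D)| * |θ y| ≤ c * (‖x - y‖ / D) * b :=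
      mul_le_mul h2 (hP.bdd y) (abs_nonneg _) (by positivity)
    have h6 : c * (‖x - y‖ / D) * b ≤ 1 * ‖x - y‖ := by
      have h7 : c * (‖x - y‖ / D) * b = (c * b / D) * ‖x - y‖ := by ring
      rw [h7]
      refine mul_le_mul_of_nonneg_right ?_ (norm_nonneg _)
      rw [div_le_one hD0, hD]
      linarith [abs_nonneg D₀]
    linarith
  · intro x
    rw [abs_mul, abs_of_nonneg χ.nonneg]
    calc χ (x.1 / D) * |θ x| ≤ 1 * b := mul_le_mul χ.le_one (hP.bdd x) (abs_nonneg _) zero_le_one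
      _ = b := one_mul b
  · intro x hx
    simp only
    rw [χ.one_of_mem_closedBall, one_mul]
    rw [Metric.mem_closedBall, dist_zero_right, hχ1, Real.norm_eq_abs, abs_div, abs_of_pos hD0,
      div_le_one hD0]
    exact hx
  · intro x hx
    simp only
    rw [χ.zero_of_le_dist, zero_mul]
    rw [dist_zero_right, hχ2, Real.norm_eq_abs, abs_div, abs_of_pos hD0, le_div_iff₀ hD0]
    exact hx

theorem noret_gen (hP : PPh θ M L b) (hF : IsFlow (XP θ) Ψ) (x : ℝ × ℝ) (t : ℝ) (ht : 1 ≤ |t|) :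
    1 / (100 * (L + 2)) ≤ ‖Ψ t x - x‖ := by
  obtain ⟨D, θ₂, h1, h2, h3, h4, h5⟩ := cut hP (|x.1| + |t|)
  obtain ⟨Ψ₂, hF₂⟩ := exists_pflow h3.smooth
  obtain ⟨τ, hτ, hG⟩ := p_good h3 hF₂ (D := 2 * D) (by linarith) h5
  have h6 : Ψ₂ t x = Ψ t x := by
    refine agree hP.smooth h3.smooth hF hF₂ h4 fun s hs => ?_
    have h7 := (norm_fst_le (Ψ s x - x)).trans (p_norm hF x s)
    rw [Prod.fst_sub, Real.norm_eq_abs] at h7
    have h8 : |s| ≤ |t| := by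
      have := abs_sub_left_of_mem_uIcc hs
      rwa [sub_zero, sub_zero] at this
    have h9 : |(Ψ s x).1| ≤ |(Ψ s x).1 - x.1| + |x.1| := by
      have := abs_add_le ((Ψ s x).1 - x.1) x.1
      rwa [sub_add_cancel] at this
    linarith
  have h7 := p_noret h3 hF₂ hτ hG x t ht
  rw [h6] at h7
  have e : L + 1 + 1 = L + 2 := by ring
  rw [e] at h7
  exact h7

end Pool.Agent.H57.CR
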