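import Pool.Agent.H57.NL.Defs
import Pool.Agent.H2.TG.Flow
import Pool.Agent.H2.TG.Angle

/-!
# Planar families (helper57 and helper2, MP_3dbb84)

A point of `P × ℝ × ℝ` is a triple `(q, t, r)`: the parameter `q` and a point `(t, r)` of the plane.
A planar family is a closed set `K` of such triples, over a compact connected set `N` of parameters:
in every plane it is a regular curve, invariant under `t ↦ t + 1`, bounded in `r`, with a periodic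
primitive of `r dt`.
-/

set_option autoImplicit false

open scoped ContDiff Topology
open Set

namespace Pool.Agent.H57.CR

open Pool.Agent.H2.TG (IsFlow)

variable {P : Type} [NormedAddCommGroup P] [NormedSpace ℝ P]

/-- The derivative of `u` in the direction `(a, b)` of the plane. -/
noncomputable def dpl (u : P × ℝ × ℝ → ℝ) (x : P × ℝ × ℝ) (a b : ℝ) : ℝ := fderiv ℝ u x (0, a, b)

/-- `u` is a local equation of `K` over `N` on the open set `W`, regular in the planes. -/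
structure LocEq (N : Set P) (K W : Set (P × ℝ × ℝ)) (u : P × ℝ × ℝ → ℝ) : Prop where
  isOpen : IsOpen W
  smooth : ContDiffOn ℝ ∞ u W
  eqn : ∀ x ∈ W, (x ∈ K ↔ x.1 ∈ N ∧ u x = 0)
  reg : ∀ x ∈ W, ¬ (dpl u x 1 0 = 0 ∧ dpl u x 0 1 = 0)

/-- A planar family `K` over `N`, with primitive `f` of `r dt`. -/
structure Fam (N : Set P) (K : Set (P × ℝ × ℝ)) (f : P × ℝ × ℝ → ℝ) : Prop where
  cptN : IsCompact N
  connN : IsConnected N
  ne : K.Nonempty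
  closed : IsClosed K
  base : ∀ x ∈ K, x.1 ∈ N
  per : ∀ (k : ℤ) (q : P) (t r : ℝ), (q, t, r) ∈ K → (q, t + k, r) ∈ K
  bdd : ∃ M : ℝ, ∀ x ∈ K, |x.2.2| ≤ M
  loc : ∀ x ∈ K, ∃ W u, x ∈ W ∧ LocEq N K W u
  prim : ∀ (q : P) (γ : ℝ → ℝ × ℝ) (s a b : ℝ), (∀ᶠ s' in 𝓝 s, (q, γ s') ∈ K) →
    HasDerivAt γ (a, b) s → HasDerivAt (fun s' => f (q, γ s')) ((γ s).2 * a) s
  fper : ∀ (k : ℤ) (q : P) (t r : ℝ), (q, t, r) ∈ K → f (q, t + k, r) = f (q, t, r)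

/-- The phase set: `(q, t, r, φ)` with `(q, t, r)` in `K` and the direction `(cos φ, sin φ)` tangent to
`K` in the plane. -/
def PS (N : Set P) (K : Set (P × ℝ × ℝ)) : Set ((P × ℝ × ℝ) × ℝ) :=
  {x | x.1 ∈ K ∧ ∀ W u, x.1 ∈ W → LocEq N K W u → dpl u x.1 (Real.cos x.2) (Real.sin x.2) = 0}

/-- `ϑ` is a smooth phase of `u` on `W`: the direction `(cos ϑ, sin ϑ)` is tangent to the level curves
of `u` in the planes. -/
structure PhaseOf (W : Set (P × ℝ × ℝ)) (u ϑ : P × ℝ × ℝ → ℝ) : Prop where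
  smooth : ContDiffOn ℝ ∞ ϑ W
  tang : ∀ y ∈ W, dpl u y (Real.cos (ϑ y)) (Real.sin (ϑ y)) = 0

/-- The function `κ` is the curvature of the leaves on the phase set. -/
structure Curv (N : Set P) (K : Set (P × ℝ × ℝ)) (κ : (P × ℝ × ℝ) × ℝ → ℝ) : Prop where
  smooth : ContDiff ℝ ∞ κ
  bdd : ∃ B : ℝ, ∀ x, |κ x| ≤ B
  curv : ∀ x ∈ PS N K, ∀ W u ϑ, x.1 ∈ W → LocEq N K W u → PhaseOf W u ϑ →
    ∀ k : ℤ, x.2 = ϑ x.1 + k * Real.pi →
      κ x = fderiv ℝ ϑ x.1 (0, Real.cos x.2, Real.sin x.2)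

/-- The vector field of the leaves on `(P × ℝ × ℝ) × ℝ`. -/
noncomputable def LF (κ : (P × ℝ × ℝ) × ℝ → ℝ) (x : (P × ℝ × ℝ) × ℝ) : (P × ℝ × ℝ) × ℝ :=
  ((0, Real.cos x.2, Real.sin x.2), κ x)

/-- Translation by `k` in `t`. -/
def shp (k : ℤ) (x : P × ℝ × ℝ) : P × ℝ × ℝ := (x.1, x.2.1 + k, x.2.2)

/-- Translation by `k` in `t` and by `j π` in the phase. -/
noncomputable def shf (k j : ℤ) (x : (P × ℝ × ℝ) × ℝ) : (P × ℝ × ℝ) × ℝ :=
  (shp k x.1, x.2 + j * Real.pi)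

/-- A planar family with the flow of its leaves. -/
structure Leaf (N : Set P) (K : Set (P × ℝ × ℝ)) (f : P × ℝ × ℝ → ℝ) (κ : (P × ℝ × ℝ) × ℝ → ℝ)
    (Λ : ℝ → (P × ℝ × ℝ) × ℝ → (P × ℝ × ℝ) × ℝ) : Prop where
  fam : Fam N K f
  curv : Curv N K κ
  flow : IsFlow (LF κ) Λ

/-- The leaf of `x` closes up, modulo a translation by `m` in `t` and by `j π` in the phase, at the
time `T`, and not earlier. -/
structure Closes (Λ : ℝ → (P × ℝ × ℝ) × ℝ → (P × ℝ × ℝ) × ℝ) (x : (P × ℝ × ℝ) × ℝ) (T : ℝ)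
    (m j : ℤ) : Prop where
  pos : 0 < T
  even : Even j
  ret : Λ T x = shf m j x
  inj : ∀ s s' : ℝ, 0 ≤ s → s < s' → s' < T → ∀ k : ℤ, (Λ s' x).1 ≠ shp k (Λ s x).1

/-- The top points of the family: `r` is maximal in the plane. -/
def Top (K : Set (P × ℝ × ℝ)) : Set (P × ℝ × ℝ) := {x | x ∈ K ∧ ∀ y ∈ K, y.1 = x.1 → y.2.2 ≤ x.2.2}

/-- The bottom points of the family: `r` is minimal in the plane. -/
def Btm (K : Set (P × ℝ × ℝ)) : Set (P × ℝ × ℝ) := {x | x ∈ K ∧ ∀ y ∈ K, y.1 = x.1 → x.2.2 ≤ y.2.2}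

/-- The good phases: the leaf passes through a top point with phase `0`. -/
def Gd (N : Set P) (K : Set (P × ℝ × ℝ)) (Λ : ℝ → (P × ℝ × ℝ) × ℝ → (P × ℝ × ℝ) × ℝ) :
    Set ((P × ℝ × ℝ) × ℝ) :=
  {x | x ∈ PS N K ∧ ∃ s, (Λ s x).1 ∈ Top K ∧ (Λ s x).2 = 0}

end Pool.Agent.H57.CR
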