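import Pool.Agent.H57.CR.GReg
import Pool.Agent.H57.NL.MaxPair

/-!
# The embedding condition is open in `A` (module EmbOpenG)

Compare `Pool/Agent/H2/TG/EmbOpen.lean`; here `S` is compact (`g_cpt`), no lattice.

PROOF. `secant_tan`: as `secant_tangent` there (limits of secants of `S` are in `Tan S z`). `imm_open`: the set of `(z, b)` with `z ∈ S`, `‖b‖ = 1`, `(0, b) ∈ Tan S z` is compact (`IsSubmfd.isClosed_tan`), `|⟪b, A z.1⟫|` is positive on it, so at least `c > 0`; if `‖A' - A‖ * B < c` with `B ≥ ‖z.1‖` on `S` then `⟪b, A' z.1⟫ ≠ 0`; scale.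
`inj_open`: otherwise there are `A_k → A`, `z_k ≠ z'_k` in `S` with the same first coordinate `q_k`, `⟪z_k.2 - z'_k.2, A_k q_k⟫ = 0`; subsequences `z_k → z`, `z'_k → z'` with `z.1 = z'.1`, `⟪z.2 - z'.2, A z.1⟫ = 0`, so `z = z'` by `hE.inj`; the normalised differences `(0, b_k)`, `‖b_k‖ = 1`, have a
convergent subsequence `(0, b) ∈ Tan S z`, `⟪b, A z.1⟫ = 0`, contradiction with `hE.imm`.
`Emb.smul'`: `⟪z.2, (c • A) z.1⟫ = c * ⟪z.2, A z.1⟫`.
-/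

set_option autoImplicit false
set_option linter.unusedSectionVars false

open scoped ContDiff Topology RealInnerProductSpace
open Set

namespace Pool.Agent.H57.CR

open Pool.Agent.H57.NL
open Pool.Agent.H2.TG (IsFlow)

variable {m n : ℕ} {N : Set (E m)} {A : E m →L[ℝ] E m} {S : Set (E m × E m)}
  {f : E m × E m → ℝ}

/-- Limits of secants are tangent vectors. -/
private theorem secant_tan (hS : IsSubmfd n S) {z w : E m × E m} (hz : z ∈ S)
    {a b : ℕ → E m × E m} (ha : ∀ k, a k ∈ S) (hb : ∀ k, b k ∈ S)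
    (hal : Filter.Tendsto a Filter.atTop (𝓝 z)) (hbl : Filter.Tendsto b Filter.atTop (𝓝 z))
    (hw : Filter.Tendsto (fun k => ‖a k - b k‖⁻¹ • (a k - b k)) Filter.atTop (𝓝 w)) :
    w ∈ Tan S z := by
  obtain ⟨e, A, hxe, hs⟩ := hS.slice hz
  rw [hs.mem_tan hxe hz]
  have hAc : IsClosed (A : Set (E m × E m)) := A.closed_of_finiteDimensional
  have hstr : HasStrictFDerivAt e (fderiv ℝ e z) z :=
    (hs.cd hxe).hasStrictFDerivAt (by simp)
  have hpair : Filter.Tendsto (fun k => (a k, b k)) Filter.atTop (𝓝 (z, z)) := hal.prodMk_nhds hbl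
  have h1 := hstr.isLittleO.comp_tendsto hpair
  have h2 : (fun k => e (a k) - e (b k) - fderiv ℝ e z (a k - b k)) =o[Filter.atTop]
      (fun k => ‖a k - b k‖) := h1.norm_right
  have h3 := h2.tendsto_inv_smul_nhds_zero
  have h4 : Filter.Tendsto (fun k => fderiv ℝ e z (‖a k - b k‖⁻¹ • (a k - b k))) Filter.atTop
      (𝓝 (fderiv ℝ e z w)) := ((fderiv ℝ e z).continuous.tendsto w).comp hw
  have h5 := h3.add h4
  rw [zero_add] at h5
  refine hAc.mem_of_tendsto h5 ?_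
  filter_upwards [hal.eventually (e.open_source.mem_nhds hxe),
    hbl.eventually (e.open_source.mem_nhds hxe)] with k h6 h7
  have h8 : ‖a k - b k‖⁻¹ • (e (a k) - e (b k) - fderiv ℝ e z (a k - b k)) +
      fderiv ℝ e z (‖a k - b k‖⁻¹ • (a k - b k)) = ‖a k - b k‖⁻¹ • (e (a k) - e (b k)) := by
    rw [map_smul, smul_sub, sub_add_cancel]
  rw [h8]
  exact A.smul_mem _ (A.sub_mem ((hs.iff _ h6).1 (ha k)) ((hs.iff _ h7).1 (hb k)))

private theorem imm_open (hc : IsCompact N) (hL : ExactLag n N ⊥ S f) (h : Emb A S) :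
    ∃ ε : ℝ, 0 < ε ∧ ∀ A' : E m →L[ℝ] E m, ‖A' - A‖ < ε → ∀ z ∈ S, ∀ b : E m,
      (0, b) ∈ Tan S z → ⟪b, A' z.1⟫ = 0 → b = 0 := by
  have hKc : IsCompact S := g_cpt hc hL
  have hsp : IsCompact (Metric.sphere (0 : E m) 1) := isCompact_sphere _ _
  have hcl := hL.sub.isClosed_tan hL.closed
  have hcl' : IsClosed {q : (E m × E m) × E m | q.1 ∈ S ∧ ((0 : E m), q.2) ∈ Tan S q.1} := by
    have hcont : Continuous (fun q : (E m × E m) × E m => (q.1, ((0 : E m), q.2))) := by fun_prop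
    exact hcl.preimage hcont
  have hK : IsCompact ((S ×ˢ Metric.sphere (0 : E m) 1) ∩
      {q : (E m × E m) × E m | q.1 ∈ S ∧ ((0 : E m), q.2) ∈ Tan S q.1}) :=
    (hKc.prod hsp).inter_right hcl'
  have hcc : ∃ c : ℝ, 0 < c ∧ ∀ q ∈ ((S ×ˢ Metric.sphere (0 : E m) 1) ∩
      {q : (E m × E m) × E m | q.1 ∈ S ∧ ((0 : E m), q.2) ∈ Tan S q.1}),
      c ≤ |⟪q.2, A q.1.1⟫| := by
    by_cases hne : ((S ×ˢ Metric.sphere (0 : E m) 1) ∩
      {q : (E m × E m) × E m | q.1 ∈ S ∧ ((0 : E m), q.2) ∈ Tan S q.1}).Nonempty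
    · have hcont : ContinuousOn (fun q : (E m × E m) × E m => |⟪q.2, A q.1.1⟫|)
          ((S ×ˢ Metric.sphere (0 : E m) 1) ∩
          {q : (E m × E m) × E m | q.1 ∈ S ∧ ((0 : E m), q.2) ∈ Tan S q.1}) := by
        apply Continuous.continuousOn
        fun_prop
      obtain ⟨q, hq, hmin⟩ := hK.exists_isMinOn hne hcont
      refine ⟨|⟪q.2, A q.1.1⟫|, ?_, fun q' hq' => hmin hq'⟩
      rw [abs_pos]
      intro h0
      have h1 := h.imm q.1 hq.2.1 q.2 hq.2.2 h0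
      have h2 : ‖q.2‖ = 1 := by simpa using hq.1.2
      rw [h1, norm_zero] at h2
      exact zero_ne_one h2
    · refine ⟨1, one_pos, fun q hq => absurd ⟨q, hq⟩ hne⟩
  obtain ⟨c, hc0, hcm⟩ := hcc
  obtain ⟨B, hB⟩ := hc.isBounded.exists_norm_le
  have hB1 : 0 < |B| + 1 := by positivity
  refine ⟨c / (|B| + 1), by positivity, fun A' hA' z hz b hb hbv => ?_⟩
  by_contra hb0
  have hbn : 0 < ‖b‖ := norm_pos_iff.2 hb0
  have h1 : ((0 : E m), ‖b‖⁻¹ • b) ∈ Tan S z := by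
    have := Tan.smul hb (‖b‖⁻¹)
    simpa using this
  have h2 : ‖‖b‖⁻¹ • b‖ = 1 := by
    rw [norm_smul, norm_inv, norm_norm, inv_mul_cancel₀ hbn.ne']
  have h3 := hcm (z, ‖b‖⁻¹ • b) ⟨⟨hz, by simpa using h2⟩, hz, h1⟩
  have h4 : ⟪‖b‖⁻¹ • b, A' z.1⟫ = 0 := by rw [real_inner_smul_left, hbv, mul_zero]
  have h5 : ⟪‖b‖⁻¹ • b, A z.1⟫ = - ⟪‖b‖⁻¹ • b, (A' - A) z.1⟫ := by
    rw [_root_.sub_apply, inner_sub_right, h4, zero_sub, neg_neg]
  have hzB : ‖z.1‖ ≤ |B| := (hB z.1 (hL.subTN hz).1).trans (le_abs_self B)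
  have h6 : |⟪‖b‖⁻¹ • b, A z.1⟫| ≤ ‖A' - A‖ * |B| := by
    rw [h5, abs_neg]
    have h7 := abs_real_inner_le_norm (‖b‖⁻¹ • b) ((A' - A) z.1)
    rw [h2, one_mul] at h7
    exact h7.trans (((A' - A).le_opNorm z.1).trans
      (mul_le_mul_of_nonneg_left hzB (norm_nonneg _)))
  have h7 : c ≤ |⟪‖b‖⁻¹ • b, A z.1⟫| := h3
  have h8 : ‖A' - A‖ * |B| ≤ ‖A' - A‖ * (|B| + 1) :=
    mul_le_mul_of_nonneg_left (by linarith) (norm_nonneg _)
  have h9 : ‖A' - A‖ * (|B| + 1) < c := by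
    rwa [lt_div_iff₀ hB1] at hA'
  linarith

private theorem inj_open (hc : IsCompact N) (hL : ExactLag n N ⊥ S f) (h : Emb A S) :
    ∃ ε : ℝ, 0 < ε ∧ ∀ A' : E m →L[ℝ] E m, ‖A' - A‖ < ε → ∀ z ∈ S, ∀ z' ∈ S,
      sg A' z = sg A' z' → z = z' := by
  by_contra hcon
  push Not at hcon
  have hKc : IsCompact S := g_cpt hc hL
  have hsp : IsCompact (Metric.sphere (0 : E m) 1) := isCompact_sphere _ _
  have step : ∀ k : ℕ, ∃ q : ((E m × E m) × (E m × E m)) × (E m →L[ℝ] E m),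
      ‖q.2 - A‖ < 1 / ((k : ℝ) + 1) ∧ q.1.1 ∈ S ∧
      q.1.2 ∈ S ∧ q.1.1.1 = q.1.2.1 ∧ ⟪q.1.1.2, q.2 q.1.1.1⟫ = ⟪q.1.2.2, q.2 q.1.1.1⟫ ∧
      q.1.1 ≠ q.1.2 := by
    intro k
    obtain ⟨A', hA', z, hz, z', hz', h1, h3⟩ := hcon (1 / ((k : ℝ) + 1)) (by positivity)
    have h2 : z.1 = z'.1 := (Prod.ext_iff.1 h1).1
    have h4 : ⟪z.2, A' z.1⟫ = ⟪z'.2, A' z'.1⟫ := (Prod.ext_iff.1 h1).2
    exact ⟨((z, z'), A'), hA', hz, hz', h2, by
      change ⟪z.2, A' z.1⟫ = ⟪z'.2, A' z.1⟫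
      rw [h4, h2], h3⟩
  choose q hq1 hq2 hq3 hq4 hq5 hq6 using step
  have hne2 : ∀ k, (q k).1.1.2 - (q k).1.2.2 ≠ 0 := by
    intro k h0
    exact hq6 k (Prod.ext (hq4 k) (sub_eq_zero.1 h0))
  have hdiff : ∀ k, (q k).1.1 - (q k).1.2 = ((0 : E m), (q k).1.1.2 - (q k).1.2.2) := by
    intro k
    refine Prod.ext ?_ rfl
    change (q k).1.1.1 - (q k).1.2.1 = 0
    rw [hq4 k, sub_self]
  have hnrm : ∀ k, ‖(q k).1.1 - (q k).1.2‖ = ‖(q k).1.1.2 - (q k).1.2.2‖ := by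
    intro k
    rw [hdiff k, Prod.norm_def]
    simp
  set y : ℕ → ((E m × E m) × (E m × E m)) × E m := fun k =>
    ((q k).1, ‖(q k).1.1.2 - (q k).1.2.2‖⁻¹ • ((q k).1.1.2 - (q k).1.2.2)) with hy
  have hyK : ∀ k, y k ∈ (S ×ˢ S) ×ˢ Metric.sphere (0 : E m) 1 := by
    intro k
    refine ⟨⟨hq2 k, hq3 k⟩, ?_⟩
    have h1 : 0 < ‖(q k).1.1.2 - (q k).1.2.2‖ := norm_pos_iff.2 (hne2 k)
    simp only [mem_sphere_iff_norm, sub_zero, hy]
    rw [norm_smul, norm_inv, norm_norm, inv_mul_cancel₀ h1.ne']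
  obtain ⟨a, haK, φ, hφ, hlim⟩ := ((hKc.prod hKc).prod hsp).tendsto_subseq hyK
  have hl1 : Filter.Tendsto (fun k => (q (φ k)).1.1) Filter.atTop (𝓝 a.1.1) :=
    (((continuous_fst.comp continuous_fst).tendsto a).comp hlim :
      Filter.Tendsto (fun k => (y (φ k)).1.1) Filter.atTop (𝓝 a.1.1))
  have hl2 : Filter.Tendsto (fun k => (q (φ k)).1.2) Filter.atTop (𝓝 a.1.2) :=
    (((continuous_snd.comp continuous_fst).tendsto a).comp hlim :
      Filter.Tendsto (fun k => (y (φ k)).1.2) Filter.atTop (𝓝 a.1.2))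
  have hl3 : Filter.Tendsto (fun k => ‖(q (φ k)).1.1.2 - (q (φ k)).1.2.2‖⁻¹ •
      ((q (φ k)).1.1.2 - (q (φ k)).1.2.2)) Filter.atTop (𝓝 a.2) :=
    (continuous_snd.tendsto a).comp hlim
  have hlv : Filter.Tendsto (fun k => (q (φ k)).2) Filter.atTop (𝓝 A) := by
    have h0 : Filter.Tendsto (fun k => (q k).2) Filter.atTop (𝓝 A) := by
      rw [tendsto_iff_norm_sub_tendsto_zero]
      refine squeeze_zero (fun k => norm_nonneg _) (fun k => (hq1 k).le) ?_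
      exact tendsto_one_div_add_atTop_nhds_zero_nat
    exact h0.comp hφ.tendsto_atTop
  have hf1 : Filter.Tendsto (fun k => (q (φ k)).1.1.1) Filter.atTop (𝓝 a.1.1.1) :=
    (continuous_fst.tendsto _).comp hl1
  have hAq : Filter.Tendsto (fun k => (q (φ k)).2 (q (φ k)).1.1.1) Filter.atTop
      (𝓝 (A a.1.1.1)) :=
    ((isBoundedBilinearMap_apply (𝕜 := ℝ) (E := E m) (F := E m)).continuous.tendsto
      (A, a.1.1.1)).comp (hlv.prodMk_nhds hf1)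
  have e1 : a.1.1.1 = a.1.2.1 := by
    have h2 := (continuous_fst.tendsto _).comp hl2
    refine tendsto_nhds_unique (hf1.congr fun k => ?_) h2
    exact hq4 (φ k)
  have e2 : ⟪a.1.1.2, A a.1.1.1⟫ = ⟪a.1.2.2, A a.1.1.1⟫ := by
    have h1 := ((continuous_snd.tendsto _).comp hl1).inner (𝕜 := ℝ) hAq
    have h2 := ((continuous_snd.tendsto _).comp hl2).inner (𝕜 := ℝ) hAq
    refine tendsto_nhds_unique (h1.congr fun k => ?_) h2
    exact hq5 (φ k)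
  have e3 : a.1.1 = a.1.2 := h.inj _ haK.1.1 _ haK.1.2 (Prod.ext e1 (by
    change ⟪a.1.1.2, A a.1.1.1⟫ = ⟪a.1.2.2, A a.1.2.1⟫
    rw [e2, e1]))
  have e4 : ((0 : E m), a.2) ∈ Tan S a.1.1 := by
    refine secant_tan hL.sub haK.1.1 (a := fun k => (q (φ k)).1.1)
      (b := fun k => (q (φ k)).1.2) (fun k => hq2 _) (fun k => hq3 _)
      hl1 (by rw [e3]; exact hl2) ?_
    have h1 : Filter.Tendsto (fun k => ((0 : E m), ‖(q (φ k)).1.1.2 - (q (φ k)).1.2.2‖⁻¹ •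
      ((q (φ k)).1.1.2 - (q (φ k)).1.2.2))) Filter.atTop (𝓝 ((0 : E m), a.2)) :=
      tendsto_const_nhds.prodMk_nhds hl3
    refine h1.congr fun k => ?_
    rw [hnrm, hdiff]
    simp
  have e5 : ⟪a.2, A a.1.1.1⟫ = 0 := by
    have h1 := hl3.inner (𝕜 := ℝ) hAq
    have h2 : Filter.Tendsto (fun _ : ℕ => (0 : ℝ)) Filter.atTop (𝓝 0) := tendsto_const_nhds
    refine tendsto_nhds_unique (h1.congr fun k => ?_) h2
    rw [real_inner_smul_left, inner_sub_left, hq5 (φ k), sub_self, mul_zero]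
  have e6 := h.imm _ haK.1.1 _ e4 e5
  have e7 : ‖a.2‖ = 1 := by simpa using haK.2
  rw [e6, norm_zero] at e7
  exact zero_ne_one e7

theorem Emb.smul' (hE : Emb A S) {c : ℝ} (hc : c ≠ 0) : Emb (c • A) S := by
  refine ⟨fun z hz z' hz' h1 => ?_, fun z hz b hb h1 => ?_⟩
  · have h2 : z.1 = z'.1 := (Prod.ext_iff.1 h1).1
    have h3 : ⟪z.2, (c • A) z.1⟫ = ⟪z'.2, (c • A) z'.1⟫ := (Prod.ext_iff.1 h1).2
    rw [_root_.smul_apply, _root_.smul_apply, real_inner_smul_right, real_inner_smul_right] at h3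
    exact hE.inj z hz z' hz' (Prod.ext h2 (mul_left_cancel₀ hc h3))
  · rw [_root_.smul_apply, real_inner_smul_right] at h1
    exact hE.imm z hz b hb ((mul_eq_zero.1 h1).resolve_left hc)

theorem emb_open (hc : IsCompact N) (hL : ExactLag n N ⊥ S f) (hE : Emb A S) :
    ∃ ε : ℝ, 0 < ε ∧ ∀ A' : E m →L[ℝ] E m, ‖A' - A‖ < ε → Emb A' S := by
  obtain ⟨ε₁, h1, h2⟩ := inj_open hc hL hE
  obtain ⟨ε₂, h3, h4⟩ := imm_open hc hL hE
  refine ⟨min ε₁ ε₂, lt_min h1 h3, fun A' hA' => ⟨?_, ?_⟩⟩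
  · exact h2 A' (hA'.trans_le (min_le_left _ _))
  · exact h4 A' (hA'.trans_le (min_le_right _ _))

end Pool.Agent.H57.CR
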