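import Pool.Agent.H57.CR.TNp

/-!
# First order form of exactness (module ExLin)

PROOF. `TPar N z₀ W Φ Ξ` (`exists_tpar`), `x₀ = Ξ z₀`, `Φ x₀ = z₀`; local extensions `Ψ, g₁` of `ψ, G` near `z₀` (`sm_ext`). The function `k x = ⟪(ψ z₀).2, (Ψ (Φ x)).1 - (ψ z₀).1⟫ - ⟪z₀.2, (Φ x).1 - z₀.1⟫ - (g₁ (Φ x) - G z₀)` is smooth near `x₀`, `k x₀ = 0`,
and `Dk(x₀) ξ = 0` by `LExact` with the curve `s ↦ Φ (x₀ + s • ξ)` (in `TN N` for small `s`; there `ψ = Ψ`, `G = g₁`). So `k x = o(x - x₀)`; compose with `Ξ`: for `z ∈ TN N` near `z₀`, `Φ (Ξ z) = z`, `ψ z = Ψ z`, and `Ξ z - Ξ z₀ = O(z - z₀)`.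
-/

set_option autoImplicit false
set_option linter.unusedSectionVars false

open scoped ContDiff Topology RealInnerProductSpace
open Set

namespace Pool.Agent.H57.CR

open Pool.Agent.H57.NL
open Pool.Agent.H2.TG (IsFlow)

variable {m n : ℕ} {N : Set (E m)}

theorem exLin (hN : IsSubmfd n N) {ψ : E m × E m → E m × E m} {G : E m × E m → ℝ}
    (hψ : SmoothOn (TN N) ψ) (hG : SmoothOn (TN N) G) (h : LExact N ψ G) {z₀ : E m × E m}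
    (hz : z₀ ∈ TN N) :
    (fun z => ⟪(ψ z₀).2, (ψ z).1 - (ψ z₀).1⟫ - ⟪z₀.2, z.1 - z₀.1⟫ - (G z - G z₀))
      =o[𝓝[TN N] z₀] (fun z => z - z₀) := by
  obtain ⟨W, Φ, Ξ, hT⟩ := exists_tpar hN hz
  obtain ⟨Ψ, hΨ1, hΨ2, hΨ3⟩ := sm_ext hψ hz
  obtain ⟨g, hg1, hg2, hg3⟩ := sm_ext hG hz
  have hΦ0 : Φ (Ξ z₀) = z₀ := hT.ΦΞ.self_of_nhds hz
  have dΦ : HasFDerivAt Φ (fderiv ℝ Φ (Ξ z₀)) (Ξ z₀) :=
    (hT.sΦ.self_of_nhds.differentiableAt (by simp)).hasFDerivAt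
  have dΞ : HasFDerivAt Ξ (fderiv ℝ Ξ z₀) z₀ :=
    (hT.sΞ.self_of_nhds.differentiableAt (by simp)).hasFDerivAt
  have dΨ : HasFDerivAt Ψ (fderiv ℝ Ψ z₀) z₀ :=
    (hΨ2.self_of_nhds.differentiableAt (by simp)).hasFDerivAt
  have dg : HasFDerivAt g (fderiv ℝ g z₀) z₀ :=
    (hg2.self_of_nhds.differentiableAt (by simp)).hasFDerivAt
  let L : E m × E m → ℝ := fun y =>
    ⟪(ψ z₀).2, (Ψ y).1 - (ψ z₀).1⟫ - ⟪z₀.2, y.1 - z₀.1⟫ - (g y - G z₀)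
  have dL : HasFDerivAt L (((innerSL ℝ (ψ z₀).2).comp
      ((ContinuousLinearMap.fst ℝ (E m) (E m)).comp (fderiv ℝ Ψ z₀))) -
      (innerSL ℝ z₀.2).comp (ContinuousLinearMap.fst ℝ (E m) (E m)) - fderiv ℝ g z₀) z₀ := by
    have h1 : HasFDerivAt (fun y => (Ψ y).1 - (ψ z₀).1)
        ((ContinuousLinearMap.fst ℝ (E m) (E m)).comp (fderiv ℝ Ψ z₀)) z₀ :=
      ((ContinuousLinearMap.fst ℝ (E m) (E m)).hasFDerivAt.comp z₀ dΨ).sub_const _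
    have h2 : HasFDerivAt (fun y : E m × E m => y.1 - z₀.1)
        (ContinuousLinearMap.fst ℝ (E m) (E m)) z₀ := hasFDerivAt_fst.sub_const _
    have h3 := ((innerSL ℝ (ψ z₀).2).hasFDerivAt (x := (Ψ z₀).1 - (ψ z₀).1)).comp z₀ h1
    have h4 := ((innerSL ℝ z₀.2).hasFDerivAt (x := z₀.1 - z₀.1)).comp z₀ h2
    exact (h3.sub h4).sub (dg.sub_const _)
  have hL0 : L z₀ = 0 := by
    show ⟪(ψ z₀).2, (Ψ z₀).1 - (ψ z₀).1⟫ - ⟪z₀.2, z₀.1 - z₀.1⟫ - (g z₀ - G z₀) = 0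
    rw [hΨ1, hg1]
    simp
  have dk : HasFDerivAt (L ∘ Φ) (0 : W × W →L[ℝ] ℝ) (Ξ z₀) := by
    have h1 := HasFDerivAt.comp (Ξ z₀) (g := L) (f := Φ) (by rw [hΦ0]; exact dL) dΦ
    refine h1.congr_fderiv (ContinuousLinearMap.ext fun ξ => ?_)
    have hl : HasDerivAt (fun s : ℝ => Ξ z₀ + s • ξ) ξ 0 := by
      have := ((hasDerivAt_id (0 : ℝ)).smul_const ξ).const_add (Ξ z₀)
      simpa using this
    have h0 : Ξ z₀ + (0 : ℝ) • ξ = Ξ z₀ := by rw [zero_smul, add_zero]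
    have ht : Filter.Tendsto (fun s : ℝ => Ξ z₀ + s • ξ) (𝓝 0) (𝓝 (Ξ z₀)) := by
      have := hl.continuousAt.tendsto
      rwa [h0] at this
    have hγ0 : Φ (Ξ z₀ + (0 : ℝ) • ξ) = z₀ := by rw [h0, hΦ0]
    have hγ : HasDerivAt (fun s : ℝ => Φ (Ξ z₀ + s • ξ)) (fderiv ℝ Φ (Ξ z₀) ξ) 0 := by
      have h2 : HasFDerivAt Φ (fderiv ℝ Φ (Ξ z₀)) (Ξ z₀ + (0 : ℝ) • ξ) := by
        rw [h0]
        exact dΦ
      exact h2.comp_hasDerivAt (0 : ℝ) hl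
    have hγN : ∀ᶠ s in 𝓝 (0 : ℝ), Φ (Ξ z₀ + s • ξ) ∈ TN N := ht.eventually hT.mΦ
    have hγt : Filter.Tendsto (fun s : ℝ => Φ (Ξ z₀ + s • ξ)) (𝓝 0) (𝓝 z₀) := by
      have := hγ.continuousAt.tendsto
      rwa [hγ0] at this
    have h3 : HasDerivAt (ψ ∘ fun s : ℝ => Φ (Ξ z₀ + s • ξ))
        (fderiv ℝ Ψ z₀ (fderiv ℝ Φ (Ξ z₀) ξ)) 0 := by
      have h4 : HasFDerivAt Ψ (fderiv ℝ Ψ z₀) (Φ (Ξ z₀ + (0 : ℝ) • ξ)) := by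
        rw [hγ0]
        exact dΨ
      refine (h4.comp_hasDerivAt (0 : ℝ) hγ).congr_of_eventuallyEq ?_
      filter_upwards [hγN, hγt.eventually hΨ3] with s h5 h6
      exact h6 h5
    have h3' : HasDerivAt (G ∘ fun s : ℝ => Φ (Ξ z₀ + s • ξ))
        (fderiv ℝ g z₀ (fderiv ℝ Φ (Ξ z₀) ξ)) 0 := by
      have h4 : HasFDerivAt g (fderiv ℝ g z₀) (Φ (Ξ z₀ + (0 : ℝ) • ξ)) := by
        rw [hγ0]
        exact dg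
      refine (h4.comp_hasDerivAt (0 : ℝ) hγ).congr_of_eventuallyEq ?_
      filter_upwards [hγN, hγt.eventually hg3] with s h5 h6
      exact h6 h5
    have h7 := h z₀ hz (fun s : ℝ => Φ (Ξ z₀ + s • ξ)) hγ0 hγN _ _ _ hγ h3 h3'
    show ⟪(ψ z₀).2, (fderiv ℝ Ψ z₀ (fderiv ℝ Φ (Ξ z₀) ξ)).1⟫ -
      ⟪z₀.2, (fderiv ℝ Φ (Ξ z₀) ξ).1⟫ - fderiv ℝ g z₀ (fderiv ℝ Φ (Ξ z₀) ξ) = 0
    rw [h7]
    ring
  have hk := dk.isLittleO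
  have hΞt : Filter.Tendsto Ξ (𝓝[TN N] z₀) (𝓝 (Ξ z₀)) :=
    dΞ.continuousAt.tendsto.mono_left nhdsWithin_le_nhds
  have hk2 := (hk.comp_tendsto hΞt).trans_isBigO
    (dΞ.isBigO_sub.mono nhdsWithin_le_nhds)
  refine hk2.congr' ?_ Filter.EventuallyEq.rfl
  filter_upwards [self_mem_nhdsWithin, mem_nhdsWithin_of_mem_nhds hT.ΦΞ,
    mem_nhdsWithin_of_mem_nhds hΨ3, mem_nhdsWithin_of_mem_nhds hg3] with y hy h1 h2 h3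
  show L (Φ (Ξ y)) - L (Φ (Ξ z₀)) - 0 = _
  rw [hΦ0, hL0, h1 hy]
  show ⟪(ψ z₀).2, (Ψ y).1 - (ψ z₀).1⟫ - ⟪z₀.2, y.1 - z₀.1⟫ - (g y - G z₀) - 0 - 0 = _
  rw [← h2 hy, ← h3 hy]
  ring

end Pool.Agent.H57.CR
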