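import Pool.Agent.H57.CR.TNp

/-!
# Exact maps preserve the symplectic form (module ExP)

PROOFS.
* `om_pull`: as `straight_om` in `Pool/Agent/H2/TG/Lag.lean` (`lag_second`, `lag_sym`, `lag_key` there). For fixed `ξ, η` differentiate the identity `⟪(F' x).2, (DF'(x) ξ).1⟫ = ⟪(F x).2, (DF(x) ξ).1⟫ + Dg(x) ξ` (valid for `x` near `x₀`) at `x₀` in the direction `η`:
  `⟪(DF' η).2, (DF' ξ).1⟫ + ⟪F'.2, (D²F'(η, ξ)).1⟫ = ⟪(DF η).2, (DF ξ).1⟫ + ⟪F.2, (D²F(η, ξ)).1⟫ + D²g(η, ξ)`; subtract the same with `ξ, η` exchanged; second derivatives are symmetric (`ContDiffAt.isSymmSndFDerivAt`).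
* `presOm_of`: at `z ∈ TN N` take `TPar N z W Φ Ξ` (`exists_tpar`), `x₀ = Ξ z`, `Φ x₀ = z`, local extensions `Ψ, g₁` of `ψ, G` near `z` (`sm_ext`). Put `F = Φ`, `F' = Ψ ∘ Φ`, `g = g₁ ∘ Φ`: smooth near `x₀`. For `x` near `x₀` (so that `Φ` is smooth at `x`, `Φ x' ∈ TN N` for `x'` near `x`, `ψ = Ψ` on `TN N` near `Φ x`:
  use `eventually_eventually_nhds`) `LExact` at `Φ x ∈ TN N` with the curve `s ↦ Φ (x + s • ξ)` gives the identity of `om_pull`. For `v, w ∈ Tan (TN N) z`: `v = DΦ ξ`, `w = DΦ η` with `ξ = DΞ v`, `η = DΞ w` (`TPar.tan`), `v' = DΨ(z) v = DF' ξ`, `w' = DΨ(z) w`; `Push` as in `exists_push` (chain rule).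
* `LExact.symm'`: for a curve `γ` through `z' ∈ TN N` with velocity `v`, let `δ = F' ∘ γ`, velocity `v'` (given). `F ∘ δ = γ` near `0`, `G ∘ δ = -((-G ∘ F') ∘ γ)`. Apply `h` at `F' z'` to `δ`.
-/

set_option autoImplicit false
set_option linter.unusedSectionVars false

open scoped ContDiff Topology RealInnerProductSpace
open Set

namespace Pool.Agent.H57.CR

open Pool.Agent.H57.NL
open Pool.Agent.H2.TG (IsFlow)

variable {m n : ℕ} {N : Set (E m)}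

private theorem exp_second {V W : Type*} [NormedAddCommGroup V] [NormedSpace ℝ V]
    [NormedAddCommGroup W] [NormedSpace ℝ W] {g : V → W} {z : V} (hg : ContDiffAt ℝ ∞ g z)
    (ζ : V) : HasFDerivAt (fun z => fderiv ℝ g z ζ)
      ((ContinuousLinearMap.apply ℝ W ζ).comp (fderiv ℝ (fderiv ℝ g) z)) z := by
  have h1 : ContDiffAt ℝ ∞ (fderiv ℝ g) z := hg.fderiv_right (by simp)
  have h2 : HasFDerivAt (fderiv ℝ g) (fderiv ℝ (fderiv ℝ g) z) z :=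
    (h1.differentiableAt (by simp)).hasFDerivAt
  exact (ContinuousLinearMap.apply ℝ W ζ).hasFDerivAt.comp z h2

private theorem exp_sym {V W : Type*} [NormedAddCommGroup V] [NormedSpace ℝ V]
    [NormedAddCommGroup W] [NormedSpace ℝ W] {g : V → W} {z : V} (hg : ContDiffAt ℝ ∞ g z)
    (a b : V) : fderiv ℝ (fderiv ℝ g) z a b = fderiv ℝ (fderiv ℝ g) z b a := by
  have h6 : ContDiffAt ℝ 2 g z := contDiffAt_infty.1 hg 2
  exact (h6.isSymmSndFDerivAt (by simp)) a b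

private theorem exp_inner {X : Type*} [NormedAddCommGroup X] [NormedSpace ℝ X]
    {F : X → E m × E m} {x₀ : X} (hF : ContDiffAt ℝ ∞ F x₀) (ξ : X) :
    ∃ L : X →L[ℝ] ℝ, HasFDerivAt (fun x => ⟪(F x).2, (fderiv ℝ F x ξ).1⟫) L x₀ ∧
      ∀ η, L η = ⟪(F x₀).2, (fderiv ℝ (fderiv ℝ F) x₀ η ξ).1⟫ +
        ⟪(fderiv ℝ F x₀ η).2, (fderiv ℝ F x₀ ξ).1⟫ := by
  have h1 : HasFDerivAt F (fderiv ℝ F x₀) x₀ := (hF.differentiableAt (by simp)).hasFDerivAt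
  have h2 := (exp_second hF ξ).fst
  have h3 := h1.snd.inner ℝ h2
  refine ⟨_, h3, fun η => ?_⟩
  simp only [ContinuousLinearMap.comp_apply, fderivInnerCLM_apply, ContinuousLinearMap.prod_apply,
    ContinuousLinearMap.apply_apply, ContinuousLinearMap.coe_fst', ContinuousLinearMap.coe_snd']

private theorem exp_key {X : Type*} [NormedAddCommGroup X] [NormedSpace ℝ X]
    {F F' : X → E m × E m} {g : X → ℝ} {x₀ : X} (hF : ContDiffAt ℝ ∞ F x₀)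
    (hF' : ContDiffAt ℝ ∞ F' x₀) (hg : ContDiffAt ℝ ∞ g x₀)
    (h : ∀ᶠ x in 𝓝 x₀, ∀ ξ, ⟪(F' x).2, (fderiv ℝ F' x ξ).1⟫ =
      ⟪(F x).2, (fderiv ℝ F x ξ).1⟫ + fderiv ℝ g x ξ) (ξ η : X) :
    ⟪(F' x₀).2, (fderiv ℝ (fderiv ℝ F') x₀ η ξ).1⟫ +
        ⟪(fderiv ℝ F' x₀ η).2, (fderiv ℝ F' x₀ ξ).1⟫ =
      ⟪(F x₀).2, (fderiv ℝ (fderiv ℝ F) x₀ η ξ).1⟫ +
        ⟪(fderiv ℝ F x₀ η).2, (fderiv ℝ F x₀ ξ).1⟫ + fderiv ℝ (fderiv ℝ g) x₀ η ξ := by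
  obtain ⟨L, hL, hL'⟩ := exp_inner hF ξ
  obtain ⟨M, hM, hM'⟩ := exp_inner hF' ξ
  have h1 := exp_second hg ξ
  have h2 : (fun x => ⟪(F' x).2, (fderiv ℝ F' x ξ).1⟫) =ᶠ[𝓝 x₀]
      ((fun x => ⟪(F x).2, (fderiv ℝ F x ξ).1⟫) + fun x => fderiv ℝ g x ξ) := by
    filter_upwards [h] with x hx
    rw [hx ξ, Pi.add_apply]
  have h3 := (hL.add h1).congr_of_eventuallyEq h2
  have h4 := congrArg (fun L : X →L[ℝ] ℝ => L η) (hM.unique h3)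
  simp only [add_apply, ContinuousLinearMap.comp_apply,
    ContinuousLinearMap.apply_apply] at h4
  rw [hL', hM'] at h4
  exact h4

theorem om_pull {X : Type*} [NormedAddCommGroup X] [NormedSpace ℝ X] {F F' : X → E m × E m}
    {g : X → ℝ} {x₀ : X} (hF : ContDiffAt ℝ ∞ F x₀) (hF' : ContDiffAt ℝ ∞ F' x₀)
    (hg : ContDiffAt ℝ ∞ g x₀)
    (h : ∀ᶠ x in 𝓝 x₀, ∀ ξ, ⟪(F' x).2, (fderiv ℝ F' x ξ).1⟫ =
      ⟪(F x).2, (fderiv ℝ F x ξ).1⟫ + fderiv ℝ g x ξ) (ξ η : X) :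
    om (fderiv ℝ F' x₀ ξ) (fderiv ℝ F' x₀ η) = om (fderiv ℝ F x₀ ξ) (fderiv ℝ F x₀ η) := by
  have h1 := exp_key hF hF' hg h ξ η
  have h2 := exp_key hF hF' hg h η ξ
  rw [exp_sym hF ξ η, exp_sym hF' ξ η, exp_sym hg ξ η] at h2
  unfold om
  linarith

private theorem exp_curve {V : Type*} [NormedAddCommGroup V] [NormedSpace ℝ V]
    {T : Set (E m × E m)} {ψ Ψ : E m × E m → V} {z : E m × E m}
    (h0 : ContDiffAt ℝ ∞ Ψ z) (h1 : ∀ᶠ y in 𝓝 z, y ∈ T → ψ y = Ψ y) {γ : ℝ → E m × E m}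
    (hγ0 : γ 0 = z) (hγ : ∀ᶠ s in 𝓝 (0 : ℝ), γ s ∈ T) {v : E m × E m}
    (hv : HasDerivAt γ v 0) : HasDerivAt (ψ ∘ γ) (fderiv ℝ Ψ z v) 0 := by
  have h4 : HasFDerivAt Ψ (fderiv ℝ Ψ z) (γ 0) := by
    rw [hγ0]
    exact (h0.differentiableAt (by simp)).hasFDerivAt
  have h5 := h4.comp_hasDerivAt (0 : ℝ) hv
  refine h5.congr_of_eventuallyEq ?_
  have h6 : Filter.Tendsto γ (𝓝 0) (𝓝 z) := by
    rw [← hγ0]
    exact hv.continuousAt.tendsto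
  filter_upwards [h6.eventually h1, hγ] with s h7 h8
  exact h7 h8

theorem presOm_of (hN : IsSubmfd n N) {ψ : E m × E m → E m × E m} {G : E m × E m → ℝ}
    (hψ : SmoothOn (TN N) ψ) (hG : SmoothOn (TN N) G) (h : LExact N ψ G) : PresOm N ψ := by
  intro z hz v hv w hw
  obtain ⟨W, Φ, Ξ, hP⟩ := exists_tpar hN hz
  obtain ⟨Ψ, hΨz, hΨs, hΨe⟩ := sm_ext hψ hz
  obtain ⟨g₁, hgz, hgs, hge⟩ := sm_ext hG hz
  have hx0 : Φ (Ξ z) = z := hP.ΦΞ.self_of_nhds hz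
  have hΦ0 : ContDiffAt ℝ ∞ Φ (Ξ z) := hP.sΦ.self_of_nhds
  have hΨ0 : ContDiffAt ℝ ∞ Ψ z := hΨs.self_of_nhds
  have hg0 : ContDiffAt ℝ ∞ g₁ z := hgs.self_of_nhds
  have hT : Filter.Tendsto Φ (𝓝 (Ξ z)) (𝓝 z) := by
    have := hΦ0.continuousAt.tendsto
    rwa [hx0] at this
  have hev : ∀ᶠ x in 𝓝 (Ξ z), ContDiffAt ℝ ∞ Φ x ∧ (∀ᶠ x' in 𝓝 x, Φ x' ∈ TN N) ∧
      ContDiffAt ℝ ∞ Ψ (Φ x) ∧ ContDiffAt ℝ ∞ g₁ (Φ x) ∧
      (∀ᶠ y in 𝓝 (Φ x), y ∈ TN N → ψ y = Ψ y) ∧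
      (∀ᶠ y in 𝓝 (Φ x), y ∈ TN N → G y = g₁ y) := by
    filter_upwards [hP.sΦ, hP.mΦ.eventually_nhds, hT.eventually hΨs, hT.eventually hgs,
      hT.eventually hΨe.eventually_nhds, hT.eventually hge.eventually_nhds] with
      x h1 h2 h3 h4 h5 h6
    exact ⟨h1, h2, h3, h4, h5, h6⟩
  have hF' : ContDiffAt ℝ ∞ (Ψ ∘ Φ) (Ξ z) := by
    refine ContDiffAt.comp _ ?_ hΦ0
    rw [hx0]
    exact hΨ0
  have hgg : ContDiffAt ℝ ∞ (g₁ ∘ Φ) (Ξ z) := by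
    refine ContDiffAt.comp _ ?_ hΦ0
    rw [hx0]
    exact hg0
  have hid : ∀ᶠ x in 𝓝 (Ξ z), ∀ ξ, ⟪((Ψ ∘ Φ) x).2, (fderiv ℝ (Ψ ∘ Φ) x ξ).1⟫ =
      ⟪(Φ x).2, (fderiv ℝ Φ x ξ).1⟫ + fderiv ℝ (g₁ ∘ Φ) x ξ := by
    filter_upwards [hev] with x hx ξ
    obtain ⟨h1, h2, h3, h4, h5, h6⟩ := hx
    have hmem : Φ x ∈ TN N := h2.self_of_nhds
    have hd1 : HasFDerivAt Φ (fderiv ℝ Φ x) x := (h1.differentiableAt (by simp)).hasFDerivAt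
    have hd2 : HasFDerivAt Ψ (fderiv ℝ Ψ (Φ x)) (Φ x) :=
      (h3.differentiableAt (by simp)).hasFDerivAt
    have hd3 : HasFDerivAt g₁ (fderiv ℝ g₁ (Φ x)) (Φ x) :=
      (h4.differentiableAt (by simp)).hasFDerivAt
    have hl : HasDerivAt (fun s : ℝ => x + s • ξ) ξ 0 := by
      simpa using ((hasDerivAt_id (0 : ℝ)).smul_const ξ).const_add x
    have hl0 : x + (0 : ℝ) • ξ = x := by rw [zero_smul, add_zero]
    have hγ : HasDerivAt (fun s : ℝ => Φ (x + s • ξ)) (fderiv ℝ Φ x ξ) 0 := by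
      have hd1' : HasFDerivAt Φ (fderiv ℝ Φ x) (x + (0 : ℝ) • ξ) := by
        rw [hl0]
        exact hd1
      exact hd1'.comp_hasDerivAt (0 : ℝ) hl
    have hlT : Filter.Tendsto (fun s : ℝ => x + s • ξ) (𝓝 0) (𝓝 x) := by
      have := hl.continuousAt.tendsto
      rwa [hl0] at this
    have hγm : ∀ᶠ s in 𝓝 (0 : ℝ), Φ (x + s • ξ) ∈ TN N := hlT.eventually h2
    have hγ0 : (fun s : ℝ => Φ (x + s • ξ)) 0 = Φ x := by
      simp only [hl0]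
    have e1 := exp_curve h3 h5 hγ0 hγm hγ
    have e2 := exp_curve h4 h6 hγ0 hγm hγ
    have e3 := h (Φ x) hmem _ hγ0 hγm _ _ _ hγ e1 e2
    rw [h5.self_of_nhds hmem] at e3
    rw [(hd2.comp x hd1).fderiv, (hd3.comp x hd1).fderiv]
    exact e3
  have hom := om_pull hΦ0 hF' hgg hid (fderiv ℝ Ξ z v) (fderiv ℝ Ξ z w)
  have hd1 : HasFDerivAt Φ (fderiv ℝ Φ (Ξ z)) (Ξ z) :=
    (hΦ0.differentiableAt (by simp)).hasFDerivAt
  have hd2 : HasFDerivAt Ψ (fderiv ℝ Ψ z) (Φ (Ξ z)) := by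
    rw [hx0]
    exact (hΨ0.differentiableAt (by simp)).hasFDerivAt
  rw [(hd2.comp (Ξ z) hd1).fderiv] at hom
  simp only [ContinuousLinearMap.comp_apply] at hom
  rw [hP.tan hz hv, hP.tan hz hw] at hom
  refine ⟨fderiv ℝ Ψ z v, fderiv ℝ Ψ z w, ?_, ?_, hom⟩
  · intro γ hγ0 hγ hγv
    exact exp_curve hΨ0 hΨe hγ0 hγ hγv
  · intro γ hγ0 hγ hγv
    exact exp_curve hΨ0 hΨe hγ0 hγ hγv

theorem LExact.symm' {F F' : E m × E m → E m × E m} {G : E m × E m → ℝ} (h : LExact N F G)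
    (hm : ∀ z ∈ TN N, F' z ∈ TN N) (hr : ∀ z ∈ TN N, F (F' z) = z) :
    LExact N F' (fun z => -G (F' z)) := by
  intro z hz γ hγ0 hγ v v' g' hv hv' hg'
  have h1 : HasDerivAt (F ∘ (F' ∘ γ)) v 0 := by
    refine hv.congr_of_eventuallyEq ?_
    filter_upwards [hγ] with s hs
    exact hr _ hs
  have h2 : HasDerivAt (G ∘ (F' ∘ γ)) (-g') 0 := by
    refine hg'.neg.congr_of_eventuallyEq ?_
    filter_upwards with s
    simp only [Function.comp_apply, Pi.neg_apply, neg_neg]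
  have h3 := h (F' z) (hm z hz) (F' ∘ γ) (by rw [Function.comp_apply, hγ0])
    (by
      filter_upwards [hγ] with s hs
      exact hm _ hs) v' v (-g') hv' h1 h2
  rw [hr z hz] at h3
  linarith

end Pool.Agent.H57.CR
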