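import Pool.Agent.H57.CR.ThLoc
import Pool.Agent.H57.CR.ConfC

set_option autoImplicit false
set_option linter.unusedSectionVars false

open scoped ContDiff Topology
open Set

/-!
# The planar flows of the family are good, uniformly (module FamG)

PROOFS.
* `fam_lip`: the derivative of `θ` is zero for `|r| > M` over `q ∈ N` (there `θ (q, ·) = 0`) in the directions of the plane, and `θ` has period `1` in `t`; `y ↦ θ (q, y)` has the derivative `Dθ(q, y)(0, ·)`, which is bounded on the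
  compact set `q ∈ N`, `0 ≤ t ≤ 1`, `|r| ≤ M` (continuity), hence for all `t` and `r`; mean value inequality on the plane. In the same way `|θ (q, y)| ≤ b`. So `PPh (fun y => θ (q, y)) M L b` for all `q ∈ N`.
* `fam_good`: let `T₀` be from `good_closes`, `L, b` from `fam_lip`, `τ` from `strip_good M L T₀`. Let `q ∈ N`. `fib_ne` gives `y ∈ K` over `q`, `good_exists` a phase: `x = (y, φ₀) ∈ Gd`; `good_closes`: `Closes Λ x T 1 0`, `T ≤ T₀`. Put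
  `α s = (Λ s x).1.2.1`, `ρ s = (Λ s x).1.2.2`, `φ s = (Λ s x).2`, `a₀` from `exists_top`, `b₀` from `exists_btm`. This is a `Strip` for `θ (q, ·)`: `dα, dρ`: `leaf_t`, `leaf_r`; `th`: the point `Λ s x` is in `Gd` (`good_leaf`) and over `q`
  (`leaf_q`), `(·, θ ·) ∈ Gd` by `hadm`, so `θ = φ s` by `good_unique`; `αT, ρT`: `closes_add` with `m = 1`, `j = 0`; `top`: the points `(q, α a₀, r)`, `r ≥ ρ a₀`, are in `Up K`, `θ = 0` by `hadm`; `btm`: `Dn K`.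
-/

namespace Pool.Agent.H57.CR

open Pool.Agent.H2.TG (IsFlow)

variable {P : Type} [NormedAddCommGroup P] [NormedSpace ℝ P] [FiniteDimensional ℝ P] {N : Set P}
  {K : Set (P × ℝ × ℝ)} {f : P × ℝ × ℝ → ℝ} {κ : (P × ℝ × ℝ) × ℝ → ℝ}
  {Λ : ℝ → (P × ℝ × ℝ) × ℝ → (P × ℝ × ℝ) × ℝ}

private theorem FamG_per {θ : P × ℝ × ℝ → ℝ}
    (hper : ∀ (q : P) (t r : ℝ), θ (q, t + 1, r) = θ (q, t, r)) (q : P) (t r : ℝ) (k : ℤ) :
    θ (q, t + k, r) = θ (q, t, r) := by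
  have h : Function.Periodic (fun t => θ (q, t, r)) 1 := fun t => hper q t r
  have h1 := h.int_mul k t
  simpa using h1

theorem fam_lip (hN : IsCompact N) {θ : P × ℝ × ℝ → ℝ} (hs : ContDiff ℝ ∞ θ)
    (hper : ∀ (q : P) (t r : ℝ), θ (q, t + 1, r) = θ (q, t, r)) {M : ℝ} (hM : 0 < M)
    (hsupp : ∀ x : P × ℝ × ℝ, x.1 ∈ N → M ≤ |x.2.2| → θ x = 0) :
    ∃ L b : ℝ, ∀ q ∈ N, PPh (fun y => θ (q, y)) M L b := by
  have hC : IsCompact (N ×ˢ (Icc (0 : ℝ) 1 ×ˢ Icc (-M) M)) :=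
    hN.prod (isCompact_Icc.prod isCompact_Icc)
  have hfd : Continuous fun x => fderiv ℝ θ x := hs.continuous_fderiv (by simp)
  obtain ⟨L₀, hL₀⟩ := hC.exists_bound_of_continuousOn hfd.continuousOn
  obtain ⟨b₀, hb₀⟩ := hC.exists_bound_of_continuousOn hs.continuous.continuousOn
  refine ⟨max L₀ 0, max b₀ 0, fun q hq => ?_⟩
  have hg : ContDiff ℝ ∞ fun y : ℝ × ℝ => θ (q, y) := hs.comp (contDiff_const.prodMk contDiff_id)
  have hgd : ∀ y : ℝ × ℝ, DifferentiableAt ℝ (fun y : ℝ × ℝ => θ (q, y)) y := fun y =>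
    hg.differentiable (by simp) y
  have hgper : ∀ (k : ℤ) (y : ℝ × ℝ), θ (q, y + ((k : ℝ), 0)) = θ (q, y) := by
    intro k y
    have h1 := FamG_per hper q y.1 y.2 k
    have h2 : y + ((k : ℝ), 0) = (y.1 + k, y.2) := by
      ext <;> simp
    rw [h2]
    exact h1
  have hred : ∀ y : ℝ × ℝ, |y.2| ≤ M →
      ((q, y + (((-⌊y.1⌋ : ℤ) : ℝ), 0)) : P × ℝ × ℝ) ∈ N ×ˢ (Icc (0 : ℝ) 1 ×ˢ Icc (-M) M) := by
    intro y hy
    refine ⟨hq, ⟨?_, ?_⟩, ?_⟩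
    · show 0 ≤ y.1 + ((-⌊y.1⌋ : ℤ) : ℝ)
      push_cast
      linarith [Int.floor_le y.1]
    · show y.1 + ((-⌊y.1⌋ : ℤ) : ℝ) ≤ 1
      push_cast
      linarith [Int.lt_floor_add_one y.1]
    · show y.2 + 0 ∈ Icc (-M) M
      rw [add_zero]
      exact abs_le.1 hy
  have hbd : ∀ y : ℝ × ℝ, |θ (q, y)| ≤ max b₀ 0 := by
    intro y
    rcases le_total |y.2| M with h | h
    · rw [← hgper (-⌊y.1⌋) y]
      exact le_trans (hb₀ _ (hred y h)) (le_max_left _ _)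
    · rw [hsupp (q, y) hq h, abs_zero]
      exact le_max_right _ _
  have hder : ∀ y : ℝ × ℝ, ‖fderiv ℝ (fun y : ℝ × ℝ => θ (q, y)) y‖ ≤ max L₀ 0 := by
    intro y
    rcases le_or_gt |y.2| M with h | h
    · have e1 : fderiv ℝ (fun y : ℝ × ℝ => θ (q, y)) y =
          fderiv ℝ (fun y : ℝ × ℝ => θ (q, y)) (y + (((-⌊y.1⌋ : ℤ) : ℝ), 0)) := by
        have h1 := fderiv_comp_add_right (𝕜 := ℝ) (f := fun y : ℝ × ℝ => θ (q, y)) (x := y)
          ((((-⌊y.1⌋ : ℤ) : ℝ), 0) : ℝ × ℝ)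
        rw [← h1]
        congr 1
        funext z
        exact (hgper _ z).symm
      rw [e1]
      set z := y + (((-⌊y.1⌋ : ℤ) : ℝ), (0 : ℝ)) with hz
      have h2 : HasFDerivAt (fun y : ℝ × ℝ => θ (q, y))
          ((fderiv ℝ θ (q, z)).comp (ContinuousLinearMap.inr ℝ P (ℝ × ℝ))) z := by
        have h3 : HasFDerivAt θ (fderiv ℝ θ (q, z)) (q, z) :=
          (hs.differentiable (by simp) _).hasFDerivAt
        exact h3.comp z (hasFDerivAt_prodMk_right q z)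
      rw [h2.fderiv]
      refine le_trans (ContinuousLinearMap.opNorm_comp_le _ _) ?_
      have h4 : ‖ContinuousLinearMap.inr ℝ P (ℝ × ℝ)‖ ≤ 1 := ContinuousLinearMap.norm_inr_le_one ..
      have h5 := hL₀ _ (hred y h)
      calc ‖fderiv ℝ θ (q, z)‖ * ‖ContinuousLinearMap.inr ℝ P (ℝ × ℝ)‖
          ≤ ‖fderiv ℝ θ (q, z)‖ * 1 := mul_le_mul_of_nonneg_left h4 (norm_nonneg _)
        _ = ‖fderiv ℝ θ (q, z)‖ := mul_one _
        _ ≤ max L₀ 0 := le_trans h5 (le_max_left _ _)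
    · have h1 : (fun y : ℝ × ℝ => θ (q, y)) =ᶠ[𝓝 y] fun _ => 0 := by
        have h2 : IsOpen {y : ℝ × ℝ | M < |y.2|} := isOpen_lt continuous_const (by fun_prop)
        filter_upwards [h2.mem_nhds h] with z hz
        exact hsupp (q, z) hq (le_of_lt hz)
      rw [h1.fderiv_eq]
      simp
  refine ⟨hg, fun y hy => hsupp (q, y) hq hy, fun x y => ?_, hbd, hM, le_max_right _ _⟩
  have h1 := Convex.norm_image_sub_le_of_norm_fderiv_le (𝕜 := ℝ) (s := Set.univ)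
    (f := fun y : ℝ × ℝ => θ (q, y)) (fun y _ => hgd y) (fun y _ => hder y) convex_univ
    (Set.mem_univ y) (Set.mem_univ x)
  simpa using h1

theorem fam_good (hL : Leaf N K f κ Λ) {θ : P × ℝ × ℝ → ℝ} (hs : ContDiff ℝ ∞ θ)
    (hper : ∀ (q : P) (t r : ℝ), θ (q, t + 1, r) = θ (q, t, r)) {M : ℝ} (hM0 : 0 < M)
    (hM : ∀ x ∈ K, |x.2.2| < M) (hadm : ∀ x : P × ℝ × ℝ, x.1 ∈ N → θ x ∈ Adm N K Λ M x) :
    ∃ τ : ℝ, 0 < τ ∧ ∀ q ∈ N, ∀ Ψ, IsFlow (XP fun y => θ (q, y)) Ψ → GoodP M τ Ψ := by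
  obtain ⟨T₀, -, hcl⟩ := good_closes hL
  obtain ⟨L, b, hPP⟩ := fam_lip hL.fam.cptN hs hper hM0 (fun x hx hr => (hadm x hx).2.2 hr)
  obtain ⟨τ, hτ, hg⟩ := strip_good M L T₀
  refine ⟨τ, hτ, fun q hq Ψ hF => ?_⟩
  obtain ⟨t₀, r₀, hyK⟩ := fib_ne hL.fam q hq
  set y : P × ℝ × ℝ := (q, t₀, r₀) with hy
  obtain ⟨φ₀, hφ₀⟩ := good_exists hL hyK
  obtain ⟨T, hT, hc⟩ := hcl _ hφ₀
  have hPS := hφ₀.1
  set x : (P × ℝ × ℝ) × ℝ := (y, φ₀) with hx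
  obtain ⟨a₀, ha₀⟩ := exists_top hL hPS
  obtain ⟨b₀, hb₀⟩ := exists_btm hL hPS
  have hq1 : ∀ s, (Λ s x).1.1 = q := fun s => by rw [leaf_q hL, hx]
  have he : ∀ s, ((q, (Λ s x).1.2.1, (Λ s x).1.2.2) : P × ℝ × ℝ) = (Λ s x).1 := fun s => by
    rw [← hq1 s]
  have hK : ∀ s, (Λ s x).1 ∈ K := fun s => (leaf_mem hL hPS s).1
  refine hg (fun y => θ (q, y)) b T (fun s => (Λ s x).1.2.1) (fun s => (Λ s x).1.2.2)
    (fun s => (Λ s x).2) a₀ b₀ hT ?_ Ψ hF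
  refine ⟨hPP q hq, fun t r => hper q t r, hc.pos, leaf_t hL x, leaf_r hL x, fun s => ?_,
    fun s => ?_, fun s => ?_, fun s => (hM _ (hK s)).le, fun r hr => ?_, fun r hr => ?_⟩
  · have h1 : (Λ s x).1.1 ∈ N := by rw [hq1]; exact hq
    have h2 := (hadm _ h1).1 (hK s)
    have h3 := good_leaf hL hφ₀ s
    have h4 := good_unique hL h2 (ψ := (Λ s x).2) h3
    show θ (q, (Λ s x).1.2.1, (Λ s x).1.2.2) = (Λ s x).2
    rw [he]
    exact h4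
  · show (Λ (s + T) x).1.2.1 = (Λ s x).1.2.1 + 1
    rw [closes_add hL hPS hc s]
    simp [shf, shp]
  · show (Λ (s + T) x).1.2.2 = (Λ s x).1.2.2
    rw [closes_add hL hPS hc s]
    simp [shf, shp]
  · refine (hadm (q, (Λ a₀ x).1.2.1, r) hq).2.1 (Or.inl ⟨(Λ a₀ x).1.2.2, hr, ?_⟩)
    show (q, (Λ a₀ x).1.2.1, (Λ a₀ x).1.2.2) ∈ Top K
    rw [he]
    exact ha₀
  · refine (hadm (q, (Λ b₀ x).1.2.1, r) hq).2.1 (Or.inr ⟨(Λ b₀ x).1.2.2, hr, ?_⟩)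
    show (q, (Λ b₀ x).1.2.1, (Λ b₀ x).1.2.2) ∈ Btm K
    rw [he]
    exact hb₀

end Pool.Agent.H57.CR
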