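import Pool.Agent.H57.CR.GoodLoc

/-!
# The conditions on the global phase function: definitions
-/

set_option autoImplicit false
set_option linter.unusedSectionVars false

open scoped ContDiff Topology
open Set

namespace Pool.Agent.H57.CR

open Pool.Agent.H2.TG (IsFlow)

variable {P : Type} [NormedAddCommGroup P] [NormedSpace ℝ P] [FiniteDimensional ℝ P] {N : Set P}
  {K : Set (P × ℝ × ℝ)} {f : P × ℝ × ℝ → ℝ} {κ : (P × ℝ × ℝ) × ℝ → ℝ}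
  {Λ : ℝ → (P × ℝ × ℝ) × ℝ → (P × ℝ × ℝ) × ℝ}

/-- the points above a top point -/
def Up (K : Set (P × ℝ × ℝ)) : Set (P × ℝ × ℝ) :=
  {x | ∃ r : ℝ, r ≤ x.2.2 ∧ (x.1, x.2.1, r) ∈ Top K}

/-- the points below a bottom point -/
def Dn (K : Set (P × ℝ × ℝ)) : Set (P × ℝ × ℝ) :=
  {x | ∃ r : ℝ, x.2.2 ≤ r ∧ (x.1, x.2.1, r) ∈ Btm K}

/-- the admissible values of the global phase function at `x` -/
def Adm (N : Set P) (K : Set (P × ℝ × ℝ)) (Λ : ℝ → (P × ℝ × ℝ) × ℝ → (P × ℝ × ℝ) × ℝ) (M : ℝ)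
    (x : P × ℝ × ℝ) : Set ℝ :=
  {φ | (x ∈ K → (x, φ) ∈ Gd N K Λ) ∧ (x ∈ Up K ∪ Dn K → φ = 0) ∧ (M ≤ |x.2.2| → φ = 0)}

end Pool.Agent.H57.CR
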