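import Pool.Agent.H57.CR.Defs

/-!
# Straightening of a family of planar fields: definitions
-/

set_option autoImplicit false
set_option linter.unusedSectionVars false

open scoped ContDiff Topology
open Set

namespace Pool.Agent.H57.CR

open Pool.Agent.H2.TG (IsFlow)

variable {P : Type} [NormedAddCommGroup P] [NormedSpace ℝ P] [FiniteDimensional ℝ P]

/-- The field with phase `θ + π / 2` in the planes. -/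
noncomputable def XZ (θ : P × ℝ × ℝ → ℝ) (x : P × ℝ × ℝ) : P × ℝ × ℝ :=
  (0, -Real.sin (θ x), Real.cos (θ x))

/-- The flow `Ψ` of `XZ θ` is good over the open set `O` of parameters. -/
structure GF (N O : Set P) (θ : P × ℝ × ℝ → ℝ) (M τ : ℝ) (Ψ : ℝ → P × ℝ × ℝ → P × ℝ × ℝ) :
    Prop where
  openO : IsOpen O
  sub : N ⊆ O
  smooth : ContDiff ℝ ∞ θ
  supp : ∀ x : P × ℝ × ℝ, M ≤ |x.2.2| → θ x = 0
  hM : 0 < M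
  hτ : 0 < τ
  flow : IsFlow (XZ θ) Ψ
  good : ∀ x : P × ℝ × ℝ, x.1 ∈ O → |x.2.2| ≤ M →
    M + 1 ≤ (Ψ τ x).2.2 ∧ (Ψ (-τ) x).2.2 ≤ -M - 1

/-- The bottom coordinate. -/
structure BotZ (O : Set P) (θ : P × ℝ × ℝ → ℝ) (M : ℝ) (Ψ : ℝ → P × ℝ × ℝ → P × ℝ × ℝ)
    (B : P × ℝ × ℝ → ℝ) : Prop where
  smooth : ContDiffOn ℝ ∞ B (O ×ˢ univ)
  bot : ∀ x : P × ℝ × ℝ, x.1 ∈ O → x.2.2 ≤ -M → B x = x.2.1
  inv : ∀ t x, x.1 ∈ O → B (Ψ t x) = B x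
  orb : ∀ x, x.1 ∈ O → ∃ t, Ψ t x = (x.1, B x, -M)
  ker : ∀ x, x.1 ∈ O → ∀ a b : ℝ, dpl B x a b = 0 →
    ∃ c : ℝ, a = -c * Real.sin (θ x) ∧ b = c * Real.cos (θ x)
  val : ∀ x t, x.1 ∈ O → (Ψ (-t) x).2.2 ≤ -M → B x = (Ψ (-t) x).2.1

/-- The action. -/
structure ActZ (O : Set P) (θ : P × ℝ × ℝ → ℝ) (M : ℝ) (Ψ : ℝ → P × ℝ × ℝ → P × ℝ × ℝ)
    (A : P × ℝ × ℝ → ℝ) : Prop where
  smooth : ContDiffOn ℝ ∞ A (O ×ˢ univ)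
  bot : ∀ x : P × ℝ × ℝ, x.1 ∈ O → x.2.2 ≤ -M → A x = 0
  along : ∀ x t, x.1 ∈ O →
    A (Ψ t x) = A x + ∫ s in (0 : ℝ)..t, (Ψ s x).2.2 * Real.sin (θ (Ψ s x))

/-- Straightening data: `(t, r) ↦ (B, ρ)` is area preserving in every plane, with `A` the primitive of
`ρ dB - r dt`. -/
structure SD (O : Set P) (θ : P × ℝ × ℝ → ℝ) (M : ℝ) (Ψ : ℝ → P × ℝ × ℝ → P × ℝ × ℝ)
    (B A ρ : P × ℝ × ℝ → ℝ) : Prop where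
  botZ : BotZ O θ M Ψ B
  actZ : ActZ O θ M Ψ A
  sρ : ContDiffOn ℝ ∞ ρ (O ×ˢ univ)
  id : ∀ x : P × ℝ × ℝ, x.1 ∈ O → ∀ a b : ℝ, x.2.2 * a + dpl A x a b = ρ x * dpl B x a b
  posB : ∀ x : P × ℝ × ℝ, x.1 ∈ O → 0 < dpl B x (Real.cos (θ x)) (Real.sin (θ x))
  posρ : ∀ x : P × ℝ × ℝ, x.1 ∈ O → 0 < dpl ρ x (-Real.sin (θ x)) (Real.cos (θ x))
  botρ : ∀ x : P × ℝ × ℝ, x.1 ∈ O → x.2.2 ≤ -M → ρ x = x.2.2
  top : ∀ x : P × ℝ × ℝ, x.1 ∈ O → Filter.Tendsto (fun t => ρ (Ψ t x)) Filter.atTop Filter.atTop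

end Pool.Agent.H57.CR
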