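import Pool.Agent.H57.NL.Graph
import Pool.Agent.H57.CR.ThDefs
import Pool.Agent.H57.CR.ZDefs

/-!
# Reduction by a circle action of rotations: definitions

`N` is a compact submanifold of `E m = ℝ^m`, invariant under the one parameter group `R` of orthogonal maps
generated by the skew map `A`, of period `1`.
-/

set_option autoImplicit false
set_option linter.unusedSectionVars false

open scoped ContDiff Topology RealInnerProductSpace
open Set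

namespace Pool.Agent.H57.CR

open Pool.Agent.H57.NL
open Pool.Agent.H2.TG (IsFlow)

variable {m : ℕ}

/-- The reduction map `(q, p) ↦ (q, ⟪p, A q⟫)`. -/
noncomputable def sg (A : E m →L[ℝ] E m) (z : E m × E m) : E m × ℝ := (z.1, ⟪z.2, A z.1⟫)

/-- The differential of `sg A` at `z`. -/
noncomputable def dsg (A : E m →L[ℝ] E m) (z ζ : E m × E m) : E m × ℝ :=
  (ζ.1, ⟪ζ.2, A z.1⟫ + ⟪z.2, A ζ.1⟫)

/-- `sg A` is an injective immersion on `S`. -/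
structure Emb (A : E m →L[ℝ] E m) (S : Set (E m × E m)) : Prop where
  inj : ∀ z ∈ S, ∀ z' ∈ S, sg A z = sg A z' → z = z'
  imm : ∀ z ∈ S, ∀ b : E m, (0, b) ∈ Tan S z → ⟪b, A z.1⟫ = 0 → b = 0

/-- `R` is the one parameter group generated by the skew map `A`, of period `1`; it preserves `N`. -/
structure Circ (N : Set (E m)) (A : E m →L[ℝ] E m) (R : ℝ → E m →L[ℝ] E m) : Prop where
  cd : ContDiff ℝ ∞ R
  zero : ∀ q, R 0 q = q
  add : ∀ s t q, R (s + t) q = R s (R t q)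
  one : ∀ q, R 1 q = q
  deriv : ∀ t q, HasDerivAt (fun t => R t q) (A (R t q)) t
  comm : ∀ t q, A (R t q) = R t (A q)
  inner : ∀ t p q, ⟪R t p, R t q⟫ = ⟪p, q⟫
  skew : ∀ p q, ⟪A p, q⟫ = -⟪p, A q⟫
  maps : ∀ t, ∀ q ∈ N, R t q ∈ N

/-- `act R (q, t, r) = (R t q, r)` -/
noncomputable def act (R : ℝ → E m →L[ℝ] E m) (x : E m × ℝ × ℝ) : E m × ℝ := (R x.2.1 x.1, x.2.2)

/-- The planar family of the set `C` in `E m × ℝ`. -/
def Kf (N : Set (E m)) (R : ℝ → E m →L[ℝ] E m) (C : Set (E m × ℝ)) : Set (E m × ℝ × ℝ) :=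
  {x | x.1 ∈ N ∧ act R x ∈ C}

/-- The straightening data on `N × ℝ`: the result of the planar part. `b` is the displacement along
the group to the bottom, `a` the action, `ρ` the new second coordinate, `J` the inverse of
`y ↦ (R (b y) y.1, ρ y)`, and `h Q` the point of `C` that is mapped over `Q`. -/
structure YD (N : Set (E m)) (A : E m →L[ℝ] E m) (R : ℝ → E m →L[ℝ] E m) (C : Set (E m × ℝ))
    (O : Set (E m)) (b a ρ : E m × ℝ → ℝ) (J : E m × ℝ → E m × ℝ) (h : E m → E m × ℝ) :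
    Prop where
  openO : IsOpen O
  sub : N ⊆ O
  sb : ContDiffOn ℝ ∞ b (O ×ˢ univ)
  sa : ContDiffOn ℝ ∞ a (O ×ˢ univ)
  sρ : ContDiffOn ℝ ∞ ρ (O ×ˢ univ)
  sJ : ContDiffOn ℝ ∞ J (O ×ˢ univ)
  id : ∀ y : E m × ℝ, y.1 ∈ N → ∀ α β : ℝ,
    y.2 * α + fderiv ℝ a y (α • A y.1, β) = ρ y * (α + fderiv ℝ b y (α • A y.1, β))
  J1 : ∀ y : E m × ℝ, y.1 ∈ N → J (R (b y) y.1, ρ y) = y
  J2 : ∀ y : E m × ℝ, y.1 ∈ N → (J y).1 ∈ N ∧ R (b (J y)) (J y).1 = y.1 ∧ ρ (J y) = y.2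
  hC : ∀ Q ∈ N, h Q ∈ C
  h1 : ∀ Q ∈ N, R (b (h Q)) (h Q).1 = Q
  h2 : ∀ y ∈ C, h (R (b y) y.1) = y
  hs : SmoothOn N h

/-- `ψ*λ = λ + dG` on the cotangent bundle of `N`, tested on curves. -/
def LExact (N : Set (E m)) (ψ : E m × E m → E m × E m) (G : E m × E m → ℝ) : Prop :=
  ∀ z ∈ TN N, ∀ γ : ℝ → E m × E m, γ 0 = z → (∀ᶠ s in 𝓝 (0 : ℝ), γ s ∈ TN N) →
    ∀ (v v' : E m × E m) (g' : ℝ), HasDerivAt γ v 0 → HasDerivAt (ψ ∘ γ) v' 0 →
      HasDerivAt (G ∘ γ) g' 0 → ⟪(ψ z).2, v'.1⟫ = ⟪z.2, v.1⟫ + g'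

/-- `Pr q` is the orthogonal projection onto the tangent space of `N` at `q`. -/
structure IsProj (N : Set (E m)) (Pr : E m → E m →L[ℝ] E m) : Prop where
  smooth : SmoothOn N Pr
  mem : ∀ q ∈ N, ∀ w, Pr q w ∈ Tan N q
  orth : ∀ q ∈ N, ∀ w, ∀ v ∈ Tan N q, ⟪Pr q w, v⟫ = ⟪w, v⟫

/-- the tangential gradient in the first variable -/
noncomputable def gr (Pr : E m → E m →L[ℝ] E m) (g : E m × ℝ → ℝ) (y : E m × ℝ) : E m :=
  Pr y.1 (∑ i, fderiv ℝ g y (EuclideanSpace.single i 1, 0) • EuclideanSpace.single i 1)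

end Pool.Agent.H57.CR
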