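import Pool.Agent.H57.CR.ThDefs
import Pool.Agent.H57.NL.Loc

/-!
# Local sections of the admissible values (module ThLoc)

PROOFS.
* `adm_convex`: for `x ∈ K` the set is contained in a point (`good_unique`); otherwise it is `ℝ` or `{0}`.
* `up_closed`: `x_n → x`, `(x_n.1, x_n.2.1, r_n) ∈ Top K`, `r_n ≤ x_n.2.2`; `r_n` is bounded (`hR.bdd`), subsequence, `top_closed`. `dn_closed`: the same.
* `K_up`: if `x ∈ K ∩ Up K` then `x ∈ Top K` (`r ≤ x.2.2 ≤ r`); `K_dn`: if `x ∈ K ∩ Dn K` then `x ∈ Btm K`.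
* `near_up`: let `x ∈ Top K ∪ Btm K`, `ε > 0`. For all `y` near `x`, if `y ∈ Up K`, with `(y.1, y.2.1, r) ∈ Top K`, `r ≤ y.2.2`, then `|r - x.2.2| < ε`; the same for `Dn K`. Proof: otherwise
  there are `y_n → x`, `r_n` with `|r_n - x.2.2| ≥ ε`, `r_n ≤ y_n.2.2`, `(y_n.1, y_n.2.1, r_n) ∈ Top K`; subsequence `r_n → r`, `(x.1, x.2.1, r) ∈ Top K`, `r ≤ x.2.2`, and `r ≥ x.2.2` because `x ∈ K`
  is in the same plane. So `r = x.2.2`: contradiction. For `Dn`: `r ≥ x.2.2` and `r ≤ x.2.2` because `(x.1, x.2.1, r)` is a bottom point and `x ∈ K`.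
* `th_local`, cases. (1) `x ∉ K`: `W = Kᶜ`, `g = 0`. (2) `x ∈ K`, `x ∉ Up K ∪ Dn K`: `good_local`, `W` smaller: off the closed sets `Up K`, `Dn K` and in `|r| < M` (`hM`). (3) `x ∈ K` and
  `x ∈ Up K ∪ Dn K`: then `x ∈ Top K ∪ Btm K`; `good_local` gives `W, u, ϑ`; `ϑ x = 0` (`good_ext`), so `Du(x)(0, 1, 0) = 0` and `Du(x)(0, 0, 1) ≠ 0` (`PhaseOf.tang`, `reg`). Implicit function
  theorem (e.g. apply the inverse function theorem `ContDiffAt.toOpenPartialHomeomorph` to `(q, t, r) ↦ (q, t, u (q, t, r))`, whose derivative is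
  bijective; or `H57/NL/Loc.lean` `smooth_inverse`): there are `ε > 0`, an open set `O ∋ (x.1, x.2.1)` and a smooth `h : P × ℝ → ℝ` on `O` such that for `(q, t) ∈ O`, `|r - x.2.2| < ε`: `(q, t, r) ∈ W` and
  (`u (q, t, r) = 0` iff `r = h (q, t)`), `|h (q, t) - x.2.2| < ε`. Put `g (q, t, r) = ϑ (q, t, h (q, t))` on `W' = {(q, t, r) | (q, t) ∈ O, |r - x.2.2| < ε, |r| < M}`, shrunk by `near_up`. If `y ∈ W' ∩ K` then
  `y.2.2 = h (y.1, y.2.1)`, `g y = ϑ y`: good. If `y ∈ W' ∩ Up K`: the point `y' = (y.1, y.2.1, r) ∈ Top K` has `|r - x.2.2| < ε`, so `r = h`, `g y = ϑ y'`, `(y', ϑ y') ∈ Gd`, so it is `0` (`good_ext`);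
  the same for `Dn K`.
-/

set_option autoImplicit false
set_option linter.unusedSectionVars false

open scoped ContDiff Topology
open Set

namespace Pool.Agent.H57.CR

open Pool.Agent.H2.TG (IsFlow)

variable {P : Type} [NormedAddCommGroup P] [NormedSpace ℝ P] [FiniteDimensional ℝ P] {N : Set P}
  {K : Set (P × ℝ × ℝ)} {f : P × ℝ × ℝ → ℝ} {κ : (P × ℝ × ℝ) × ℝ → ℝ}
  {Λ : ℝ → (P × ℝ × ℝ) × ℝ → (P × ℝ × ℝ) × ℝ}

theorem adm_convex (hL : Leaf N K f κ Λ) (M : ℝ) (x : P × ℝ × ℝ) : Convex ℝ (Adm N K Λ M x) := by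
  by_cases h1 : x ∈ K
  · refine Set.Subsingleton.convex ?_
    intro φ hφ ψ hψ
    exact good_unique hL (hφ.1 h1) (hψ.1 h1)
  by_cases h2 : x ∈ Up K ∪ Dn K
  · refine Set.Subsingleton.convex ?_
    intro φ hφ ψ hψ
    rw [hφ.2.1 h2, hψ.2.1 h2]
  by_cases h3 : M ≤ |x.2.2|
  · refine Set.Subsingleton.convex ?_
    intro φ hφ ψ hψ
    rw [hφ.2.2 h3, hψ.2.2 h3]
  · have h4 : Adm N K Λ M x = Set.univ := by
      ext φ
      exact ⟨fun _ => mem_univ _, fun _ => ⟨fun h => absurd h h1, fun h => absurd h h2,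
        fun h => absurd h h3⟩⟩
    rw [h4]
    exact convex_univ

private theorem ThLoc_top_K {x : P × ℝ × ℝ} (h : x ∈ Top K) : x ∈ K := h.1

private theorem ThLoc_btm_K {x : P × ℝ × ℝ} (h : x ∈ Btm K) : x ∈ K := h.1

private theorem ThLoc_cont (M : ℝ) : Continuous fun z : (P × ℝ × ℝ) × Icc (-M) M =>
    ((z.1.1, z.1.2.1, (z.2 : ℝ)) : P × ℝ × ℝ) := by
  fun_prop

private theorem ThLoc_le1 (M : ℝ) :
    IsClosed {z : (P × ℝ × ℝ) × Icc (-M) M | (z.2 : ℝ) ≤ z.1.2.2} :=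
  isClosed_le (by fun_prop) (by fun_prop)

private theorem ThLoc_le2 (M : ℝ) :
    IsClosed {z : (P × ℝ × ℝ) × Icc (-M) M | z.1.2.2 ≤ (z.2 : ℝ)} :=
  isClosed_le (by fun_prop) (by fun_prop)

private theorem ThLoc_le3 (M ε a : ℝ) :
    IsClosed {z : (P × ℝ × ℝ) × Icc (-M) M | ε ≤ |(z.2 : ℝ) - a|} :=
  isClosed_le (by fun_prop) (by fun_prop)

theorem up_closed (hR : Fam N K f) : IsClosed (Up K) := by
  obtain ⟨M, hM⟩ := hR.bdd
  have h1 : Up K = Prod.fst '' {z : (P × ℝ × ℝ) × Icc (-M) M | (z.2 : ℝ) ≤ z.1.2.2 ∧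
      (z.1.1, z.1.2.1, (z.2 : ℝ)) ∈ Top K} := by
    ext x
    constructor
    · rintro ⟨r, hr, hT⟩
      exact ⟨(x, ⟨r, abs_le.1 (hM _ hT.1)⟩), ⟨hr, hT⟩, rfl⟩
    · rintro ⟨⟨y, r⟩, ⟨hr, hT⟩, rfl⟩
      exact ⟨r, hr, hT⟩
  rw [h1]
  apply isClosedMap_fst_of_compactSpace
  exact (ThLoc_le1 M).inter ((top_closed hR).preimage (ThLoc_cont M))

theorem dn_closed (hR : Fam N K f) : IsClosed (Dn K) := by
  obtain ⟨M, hM⟩ := hR.bdd
  have h1 : Dn K = Prod.fst '' {z : (P × ℝ × ℝ) × Icc (-M) M | z.1.2.2 ≤ (z.2 : ℝ) ∧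
      (z.1.1, z.1.2.1, (z.2 : ℝ)) ∈ Btm K} := by
    ext x
    constructor
    · rintro ⟨r, hr, hT⟩
      exact ⟨(x, ⟨r, abs_le.1 (hM _ hT.1)⟩), ⟨hr, hT⟩, rfl⟩
    · rintro ⟨⟨y, r⟩, ⟨hr, hT⟩, rfl⟩
      exact ⟨r, hr, hT⟩
  rw [h1]
  apply isClosedMap_fst_of_compactSpace
  exact (ThLoc_le2 M).inter ((btm_closed hR).preimage (ThLoc_cont M))

theorem near_up (hR : Fam N K f) {x : P × ℝ × ℝ} (hx : x ∈ Top K ∪ Btm K) {ε : ℝ} (hε : 0 < ε) :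
    ∀ᶠ y in 𝓝 x, ∀ r : ℝ, ((r ≤ y.2.2 ∧ (y.1, y.2.1, r) ∈ Top K) ∨
      (y.2.2 ≤ r ∧ (y.1, y.2.1, r) ∈ Btm K)) → |r - x.2.2| < ε := by
  obtain ⟨M, hM⟩ := hR.bdd
  have hxK : x ∈ K := hx.elim ThLoc_top_K ThLoc_btm_K
  let Z : Set ((P × ℝ × ℝ) × Icc (-M) M) :=
    {z | (((z.2 : ℝ) ≤ z.1.2.2 ∧ (z.1.1, z.1.2.1, (z.2 : ℝ)) ∈ Top K) ∨
      (z.1.2.2 ≤ (z.2 : ℝ) ∧ (z.1.1, z.1.2.1, (z.2 : ℝ)) ∈ Btm K)) ∧ ε ≤ |(z.2 : ℝ) - x.2.2|}
  have hZ : IsClosed Z := by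
    exact (((ThLoc_le1 M).inter ((top_closed hR).preimage (ThLoc_cont M))).union
      ((ThLoc_le2 M).inter ((btm_closed hR).preimage (ThLoc_cont M)))).inter (ThLoc_le3 M ε x.2.2)
  have hC : IsClosed (Prod.fst '' Z) := isClosedMap_fst_of_compactSpace Z hZ
  have hxn : x ∉ Prod.fst '' Z := by
    rintro ⟨⟨y, r⟩, ⟨h1, h2⟩, h3⟩
    change y = x at h3
    subst h3
    have h4 : (r : ℝ) = y.2.2 := by
      rcases h1 with ⟨a, b⟩ | ⟨a, b⟩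
      · exact le_antisymm a (b.2 y hxK rfl)
      · exact le_antisymm (b.2 y hxK rfl) a
    change ε ≤ |(r : ℝ) - y.2.2| at h2
    rw [h4, sub_self, abs_zero] at h2
    linarith
  filter_upwards [hC.isOpen_compl.mem_nhds hxn] with y hy r hr
  by_contra hcon
  rw [not_lt] at hcon
  have hrK : (y.1, y.2.1, r) ∈ K := hr.elim (fun h => h.2.1) (fun h => h.2.1)
  exact hy ⟨(y, ⟨r, abs_le.1 (hM _ hrK)⟩), ⟨hr, hcon⟩, rfl⟩

theorem th_local (hL : Leaf N K f κ Λ) {M : ℝ} (hM : ∀ x ∈ K, |x.2.2| < M) (x : P × ℝ × ℝ) :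
    ∃ W : Set (P × ℝ × ℝ), IsOpen W ∧ x ∈ W ∧ ∃ g : P × ℝ × ℝ → ℝ, ContDiffOn ℝ ∞ g W ∧
      ∀ y ∈ W, g y ∈ Adm N K Λ M y := by
  have hR := hL.fam
  by_cases hxK : x ∈ K
  swap
  · refine ⟨Kᶜ, hR.closed.isOpen_compl, hxK, fun _ => 0, contDiffOn_const, fun y hy => ?_⟩
    exact ⟨fun h => absurd h hy, fun _ => rfl, fun _ => rfl⟩
  have hMo : IsOpen {y : P × ℝ × ℝ | |y.2.2| < M} := isOpen_lt (by fun_prop) continuous_const
  obtain ⟨W, u, ϑ, hxW, hLE, hPh, hGd⟩ := good_local hL hxK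
  by_cases hUD : x ∈ Up K ∪ Dn K
  swap
  · have hUDo : IsOpen ((Up K ∪ Dn K)ᶜ) := ((up_closed hR).union (dn_closed hR)).isOpen_compl
    refine ⟨W ∩ ((Up K ∪ Dn K)ᶜ ∩ {y | |y.2.2| < M}), hLE.isOpen.inter (hUDo.inter hMo),
      ⟨hxW, hUD, hM x hxK⟩, ϑ, hPh.smooth.mono inter_subset_left, fun y hy => ?_⟩
    exact ⟨fun h => hGd y hy.1 h, fun h => absurd h hy.2.1,
      fun h => absurd h (not_le.2 hy.2.2)⟩
  -- a point on the boundary of the free region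
  have hTB : x ∈ Top K ∪ Btm K := by
    rcases hUD with ⟨r, hr, hT⟩ | ⟨r, hr, hT⟩
    · left
      have h1 : r = x.2.2 := le_antisymm hr (hT.2 x hxK rfl)
      rw [h1] at hT
      exact hT
    · right
      have h1 : r = x.2.2 := le_antisymm (hT.2 x hxK rfl) hr
      rw [h1] at hT
      exact hT
  have hϑ0 : ϑ x = 0 := good_ext hL (x := (x, ϑ x)) (hGd x hxW hxK) hTB
  have hu0 : u x = 0 := ((hLE.eqn x hxW).1 hxK).2
  have hd0 : fderiv ℝ u x (0, 0, 1) ≠ 0 := by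
    have h1 := hPh.tang x hxW
    rw [hϑ0, Real.cos_zero, Real.sin_zero] at h1
    intro h2
    exact hLE.reg x hxW ⟨h1, h2⟩
  let c : P × ℝ × ℝ → P × ℝ × ℝ := fun y => (y.1, y.2.1, u y)
  have huW : ∀ y ∈ W, ContDiffAt ℝ ∞ u y := fun y hy =>
    hLE.smooth.contDiffAt (hLE.isOpen.mem_nhds hy)
  have hc : ∀ᶠ a in 𝓝 x, ContDiffAt ℝ ∞ c a := by
    filter_upwards [hLE.isOpen.mem_nhds hxW] with y hy
    exact contDiffAt_fst.prodMk ((contDiffAt_fst.comp y contDiffAt_snd).prodMk (huW y hy))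
  have hcd : ∀ v, fderiv ℝ c x v = (v.1, v.2.1, fderiv ℝ u x v) := by
    intro v
    have h1 : HasFDerivAt u (fderiv ℝ u x) x :=
      ((huW x hxW).differentiableAt (by simp)).hasFDerivAt
    have h2 : HasFDerivAt c ((ContinuousLinearMap.fst ℝ P (ℝ × ℝ)).prod
        (((ContinuousLinearMap.fst ℝ ℝ ℝ).comp (ContinuousLinearMap.snd ℝ P (ℝ × ℝ))).prod
          (fderiv ℝ u x))) x := by
      refine HasFDerivAt.prodMk (hasFDerivAt_fst) (HasFDerivAt.prodMk ?_ h1)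
      exact ((ContinuousLinearMap.fst ℝ ℝ ℝ).comp
        (ContinuousLinearMap.snd ℝ P (ℝ × ℝ))).hasFDerivAt
    rw [h2.fderiv]
    rfl
  have hinj : Function.Injective (fderiv ℝ c x) := by
    rw [injective_iff_map_eq_zero]
    intro v hv
    rw [hcd v] at hv
    have h1 : v.1 = 0 := congrArg Prod.fst hv
    have h2 : v.2.1 = 0 := congrArg (fun z : P × ℝ × ℝ => z.2.1) hv
    have h3 : fderiv ℝ u x v = 0 := congrArg (fun z : P × ℝ × ℝ => z.2.2) hv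
    have h4 : v = v.2.2 • ((0, 0, 1) : P × ℝ × ℝ) := by
      refine Prod.ext ?_ (Prod.ext ?_ ?_)
      · rw [h1]; simp
      · rw [h2]; simp
      · simp
    rw [h4, map_smul, smul_eq_mul] at h3
    have h5 : v.2.2 = 0 := by
      rcases mul_eq_zero.1 h3 with h | h
      · exact h
      · exact absurd h hd0
    rw [h4, h5, zero_smul]
  obtain ⟨Φ, hΦc, hΦs, hΦd⟩ := Pool.Agent.H57.NL.smooth_inverse rfl hc hinj
  have hcx : c x = (x.1, x.2.1, 0) := by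
    change (x.1, x.2.1, u x) = _
    rw [hu0]
  let j : P × ℝ × ℝ → P × ℝ × ℝ := fun y => (y.1, y.2.1, 0)
  have hjc : ContDiff ℝ ∞ j := by
    exact contDiff_fst.prodMk ((contDiff_fst.comp contDiff_snd).prodMk contDiff_const)
  have hjx : j x = c x := hcx.symm
  let G : P × ℝ × ℝ → P × ℝ × ℝ := fun y => Φ.symm (j y)
  have hGx : G x = x := by
    change Φ.symm (j x) = x
    rw [hjx, ← hΦc]
    exact Φ.left_inv hΦs
  have hGd1 : ∀ᶠ y in 𝓝 x, ContDiffAt ℝ ∞ G y := by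
    have h1 : Filter.Tendsto j (𝓝 x) (𝓝 (c x)) := by
      rw [← hjx]
      exact hjc.continuous.tendsto x
    filter_upwards [h1.eventually hΦd] with y hy
    exact ContDiffAt.comp y (g := Φ.symm) (f := j) hy hjc.contDiffAt
  have hGW : ∀ᶠ y in 𝓝 x, G y ∈ W := by
    have h1 : ContinuousAt G x := hGd1.self_of_nhds.continuousAt
    have h2 : W ∈ 𝓝 (G x) := by
      rw [hGx]
      exact hLE.isOpen.mem_nhds hxW
    exact h1.eventually h2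
  -- uniqueness
  have hS : IsOpen (W ∩ Φ.source) := hLE.isOpen.inter Φ.open_source
  obtain ⟨ε, hε, hball⟩ := Metric.isOpen_iff.1 hS x ⟨hxW, hΦs⟩
  have huniq : ∀ y : P × ℝ × ℝ, ∀ r : ℝ, dist y x < ε → |r - x.2.2| < ε →
      (y.1, y.2.1, r) ∈ K → (y.1, y.2.1, r) ∈ W ∧ G y = (y.1, y.2.1, r) := by
    intro y r hy hr hK
    have h1 : (y.1, y.2.1, r) ∈ Metric.ball x ε := by
      rw [Metric.mem_ball, Prod.dist_eq, Prod.dist_eq]
      rw [Prod.dist_eq, Prod.dist_eq] at hy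
      have h2 := lt_of_le_of_lt (le_max_left _ _) hy
      have h3 := lt_of_le_of_lt (le_max_left _ _) (lt_of_le_of_lt (le_max_right _ _) hy)
      exact max_lt h2 (max_lt h3 (by rw [Real.dist_eq]; exact hr))
    have h2 := hball h1
    refine ⟨h2.1, ?_⟩
    have h3 : u (y.1, y.2.1, r) = 0 := ((hLE.eqn _ h2.1).1 hK).2
    have h4 : j y = Φ (y.1, y.2.1, r) := by
      rw [hΦc]
      change (y.1, y.2.1, (0 : ℝ)) = (y.1, y.2.1, u (y.1, y.2.1, r))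
      rw [h3]
    change Φ.symm (j y) = _
    rw [h4]
    exact Φ.left_inv h2.2
  have hall : ∀ᶠ y in 𝓝 x, ContDiffAt ℝ ∞ G y ∧ G y ∈ W ∧ |y.2.2| < M ∧ dist y x < ε ∧
      ∀ r : ℝ, ((r ≤ y.2.2 ∧ (y.1, y.2.1, r) ∈ Top K) ∨
        (y.2.2 ≤ r ∧ (y.1, y.2.1, r) ∈ Btm K)) → |r - x.2.2| < ε := by
    filter_upwards [hGd1, hGW, hMo.mem_nhds (hM x hxK), Metric.ball_mem_nhds x hε,
      near_up hR hTB hε] with y h1 h2 h3 h4 h5
    exact ⟨h1, h2, h3, h4, h5⟩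
  obtain ⟨O, hO, hOo, hxO⟩ := mem_nhds_iff.1 hall
  refine ⟨O, hOo, hxO, fun y => ϑ (G y), ?_, ?_⟩
  · intro y hy
    obtain ⟨h1, h2, -⟩ := hO hy
    have h3 : ContDiffAt ℝ ∞ ϑ (G y) := hPh.smooth.contDiffAt (hLE.isOpen.mem_nhds h2)
    exact (ContDiffAt.comp y (g := ϑ) (f := G) h3 h1).contDiffWithinAt
  · intro y hy
    obtain ⟨h1, h2, h3, h4, h5⟩ := hO hy
    refine ⟨fun hyK => ?_, fun hyU => ?_, fun h => absurd h (not_le.2 h3)⟩
    · have h6 : |y.2.2 - x.2.2| < ε := by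
        rw [Prod.dist_eq, Prod.dist_eq] at h4
        exact lt_of_le_of_lt (le_max_right _ _) (lt_of_le_of_lt (le_max_right _ _) h4)
      obtain ⟨h7, h8⟩ := huniq y y.2.2 h4 h6 hyK
      change G y = y at h8
      change (y, ϑ (G y)) ∈ Gd N K Λ
      rw [h8]
      exact hGd y h7 hyK
    · have hex : ∃ r, ((r ≤ y.2.2 ∧ (y.1, y.2.1, r) ∈ Top K) ∨
          (y.2.2 ≤ r ∧ (y.1, y.2.1, r) ∈ Btm K)) := by
        rcases hyU with ⟨r, hr, hT⟩ | ⟨r, hr, hT⟩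
        · exact ⟨r, Or.inl ⟨hr, hT⟩⟩
        · exact ⟨r, Or.inr ⟨hr, hT⟩⟩
      obtain ⟨r, hr⟩ := hex
      have hTK : (y.1, y.2.1, r) ∈ Top K ∪ Btm K :=
        hr.elim (fun h => Or.inl h.2) (fun h => Or.inr h.2)
      have hrK : (y.1, y.2.1, r) ∈ K := hTK.elim ThLoc_top_K ThLoc_btm_K
      obtain ⟨h7, h8⟩ := huniq y r h4 (h5 r hr) hrK
      change ϑ (G y) = 0
      rw [h8]
      exact good_ext hL (x := ((y.1, y.2.1, r), ϑ (y.1, y.2.1, r))) (hGd _ h7 hrK) hTK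

end Pool.Agent.H57.CR
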