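import Pool.Agent.H57.CR.GFam
import Pool.Agent.H57.CR.ThLoc

/-!
# Equivariance of the good phases (module GEq)

`K = Kf N R C`; `sh s (q, t, r) = (R s q, t - s, r)`, so `act R (sh s x) = act R x` (`act_add`): `x ∈ K ↔ sh s x ∈ K` (`R s q ∈ N ↔ q ∈ N`), `sh (-s) (sh s x) = x`, `sh s` is a smooth diffeomorphism of `E m × ℝ × ℝ`, linear in `q`, with derivative `(0, a, b) ↦ (0, a, b)` in the plane directions.

PROOFS.
* `locEq_sh`: if `W, u` is a local equation then so is `{x | sh s x ∈ W}, u ∘ sh s`, with `dpl (u ∘ sh s) x a b = dpl u (sh s x) a b`. `PS_sh`: `(x.1, φ) ∈ PS ↔ (sh s x.1, φ) ∈ PS`. `phaseOf_sh`: `ϑ ∘ sh s` is a phase of `u ∘ sh s`, with the same derivative in the plane directions.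
* `leaf_sh`: for `x ∈ PS`: `Λ τ (sh s x.1, x.2) = (sh s (Λ τ x).1, (Λ τ x).2)`: the right side is an integral curve of `LF κ`: its derivative is `((0, cos, sin), κ (Λ τ x))` and `κ (sh s y.1, y.2) = κ y` for `y ∈ PS` (`hL.curv.curv` at both points, with `phaseOf_sh`); uniqueness (`IsFlow.unique`).
* `top_sh`: `x ∈ Top K ↔ sh s x ∈ Top K` (the plane of `q` is mapped to the plane of `R s q`, `r` unchanged); the same for `Btm`, `Up`, `Dn`.
* `adm_eq`: combine.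
-/

set_option autoImplicit false
set_option linter.unusedSectionVars false

open scoped ContDiff Topology RealInnerProductSpace
open Set

namespace Pool.Agent.H57.CR

open Pool.Agent.H57.NL
open Pool.Agent.H2.TG (IsFlow)

variable {m : ℕ} {N : Set (E m)} {A : E m →L[ℝ] E m} {R : ℝ → E m →L[ℝ] E m}
  {C : Set (E m × ℝ)} {f : E m × ℝ × ℝ → ℝ} {κ : (E m × ℝ × ℝ) × ℝ → ℝ}
  {Λ : ℝ → (E m × ℝ × ℝ) × ℝ → (E m × ℝ × ℝ) × ℝ}

/-- the symmetry `(q, t, r) ↦ (R s q, t - s, r)` -/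
private def GEq_sh (R : ℝ → E m →L[ℝ] E m) (s : ℝ) (x : E m × ℝ × ℝ) : E m × ℝ × ℝ :=
  (R s x.1, x.2.1 - s, x.2.2)

private lemma GEq_inv (hR : Circ N A R) (s : ℝ) (x : E m × ℝ × ℝ) :
    GEq_sh R (-s) (GEq_sh R s x) = x := by
  unfold GEq_sh
  refine Prod.ext ?_ (Prod.ext ?_ rfl)
  · change R (-s) (R s x.1) = x.1
    rw [← hR.add, neg_add_cancel, hR.zero]
  · change x.2.1 - s - -s = x.2.1
    ring

private lemma GEq_inv' (hR : Circ N A R) (s : ℝ) (x : E m × ℝ × ℝ) :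
    GEq_sh R s (GEq_sh R (-s) x) = x := by
  have h := GEq_inv hR (-s) x
  rwa [neg_neg] at h

private lemma GEq_act (hR : Circ N A R) (s : ℝ) (x : E m × ℝ × ℝ) :
    act R (GEq_sh R s x) = act R x := by
  unfold act GEq_sh
  simp only
  rw [← hR.add, sub_add_cancel]

private lemma GEq_mem1 (hR : Circ N A R) (s : ℝ) {x : E m × ℝ × ℝ} (hx : x ∈ Kf N R C) :
    GEq_sh R s x ∈ Kf N R C := by
  refine ⟨hR.maps s _ hx.1, ?_⟩
  rw [GEq_act hR]
  exact hx.2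

private lemma GEq_mem (hR : Circ N A R) (s : ℝ) (x : E m × ℝ × ℝ) :
    GEq_sh R s x ∈ Kf N R C ↔ x ∈ Kf N R C := by
  constructor
  · intro h
    have := GEq_mem1 hR (-s) h
    rwa [GEq_inv hR] at this
  · exact GEq_mem1 hR s

private lemma GEq_deriv (R : ℝ → E m →L[ℝ] E m) (s : ℝ) (x : E m × ℝ × ℝ) :
    HasFDerivAt (GEq_sh R s) (((R s).comp (ContinuousLinearMap.fst ℝ (E m) (ℝ × ℝ))).prod
      (ContinuousLinearMap.snd ℝ (E m) (ℝ × ℝ))) x := by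
  have h1 : HasFDerivAt (fun x : E m × ℝ × ℝ => R s x.1)
      ((R s).comp (ContinuousLinearMap.fst ℝ (E m) (ℝ × ℝ))) x :=
    ((R s).comp (ContinuousLinearMap.fst ℝ (E m) (ℝ × ℝ))).hasFDerivAt
  have h2 : HasFDerivAt (fun x : E m × ℝ × ℝ => x.2 - ((s, 0) : ℝ × ℝ))
      (ContinuousLinearMap.snd ℝ (E m) (ℝ × ℝ)) x := hasFDerivAt_snd.sub_const _
  have h3 := h1.prodMk h2
  have e : GEq_sh R s = fun x : E m × ℝ × ℝ => (R s x.1, x.2 - ((s, 0) : ℝ × ℝ)) := by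
    funext y
    unfold GEq_sh
    refine Prod.ext rfl (Prod.ext rfl ?_)
    change y.2.2 = y.2.2 - 0
    rw [sub_zero]
  rw [e]
  exact h3

private lemma GEq_smooth (R : ℝ → E m →L[ℝ] E m) (s : ℝ) : ContDiff ℝ ∞ (GEq_sh R s) := by
  unfold GEq_sh
  exact ((R s).contDiff.comp contDiff_fst).prodMk
    (((contDiff_fst.comp contDiff_snd).sub contDiff_const).prodMk
      (contDiff_snd.comp contDiff_snd))

private lemma GEq_fd {u : E m × ℝ × ℝ → ℝ} (s : ℝ) {y : E m × ℝ × ℝ}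
    (hu : DifferentiableAt ℝ u (GEq_sh R s y)) (a b : ℝ) :
    fderiv ℝ (fun y => u (GEq_sh R s y)) y (0, a, b) = fderiv ℝ u (GEq_sh R s y) (0, a, b) := by
  have h := hu.hasFDerivAt.comp y (GEq_deriv R s y)
  have e : (fun y => u (GEq_sh R s y)) = u ∘ GEq_sh R s := rfl
  rw [e, h.fderiv]
  change fderiv ℝ u (GEq_sh R s y) (R s 0, (a, b)) = _
  rw [map_zero]

private lemma GEq_diff {W : Set (E m × ℝ × ℝ)} (hW : IsOpen W) {u : E m × ℝ × ℝ → ℝ}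
    (hu : ContDiffOn ℝ ∞ u W) {y : E m × ℝ × ℝ} (hy : y ∈ W) : DifferentiableAt ℝ u y :=
  (hu.contDiffAt (hW.mem_nhds hy)).differentiableAt (by simp)

private lemma GEq_locEq (hR : Circ N A R) {W : Set (E m × ℝ × ℝ)} {u : E m × ℝ × ℝ → ℝ}
    (hC : LocEq N (Kf N R C) W u) (s : ℝ) :
    LocEq N (Kf N R C) {y | GEq_sh R s y ∈ W} (fun y => u (GEq_sh R s y)) where
  isOpen := hC.isOpen.preimage (GEq_smooth R s).continuous
  smooth := hC.smooth.comp (GEq_smooth R s).contDiffOn fun y hy => hy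
  eqn := by
    intro y hy
    rw [← GEq_mem hR s y, hC.eqn _ hy]
    constructor
    · rintro ⟨h1, h2⟩
      refine ⟨?_, h2⟩
      have h3 := hR.maps (-s) _ h1
      change R (-s) (R s y.1) ∈ N at h3
      rwa [← hR.add, neg_add_cancel, hR.zero] at h3
    · rintro ⟨h1, h2⟩
      exact ⟨hR.maps s _ h1, h2⟩
  reg := by
    intro y hy
    have hd := GEq_diff hC.isOpen hC.smooth hy
    unfold dpl
    rw [GEq_fd s hd, GEq_fd s hd]
    exact hC.reg _ hy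

private lemma GEq_PS (hR : Circ N A R) (hF : Fam N (Kf N R C) f) (s : ℝ)
    {x : (E m × ℝ × ℝ) × ℝ} (hx : x ∈ PS N (Kf N R C)) :
    (GEq_sh R s x.1, x.2) ∈ PS N (Kf N R C) := by
  obtain ⟨W, u, hxW, hC⟩ := hF.loc x.1 hx.1
  have h1 := GEq_locEq hR hC (-s)
  have h0 : GEq_sh R (-s) (GEq_sh R s x.1) = x.1 := GEq_inv hR s x.1
  have h2 : GEq_sh R s x.1 ∈ {y : E m × ℝ × ℝ | GEq_sh R (-s) y ∈ W} := by
    change GEq_sh R (-s) (GEq_sh R s x.1) ∈ W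
    rw [h0]
    exact hxW
  rw [mem_PS h1 (x := (GEq_sh R s x.1, x.2)) (GEq_mem1 hR s hx.1) h2]
  unfold dpl
  simp only
  rw [GEq_fd (-s) (by rw [h0]; exact GEq_diff hC.isOpen hC.smooth hxW), h0]
  exact (mem_PS hC hx.1 hxW).1 hx

private lemma GEq_cval (hR : Circ N A R) (s : ℝ) {x : (E m × ℝ × ℝ) × ℝ} {k : ℝ}
    (h : cval N (Kf N R C) x k) : cval N (Kf N R C) (GEq_sh R s x.1, x.2) k := by
  intro W' u' ϑ' hxW' hC' hϑ' j h'
  have hL := GEq_locEq hR hC' s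
  have hP : PhaseOf {y : E m × ℝ × ℝ | GEq_sh R s y ∈ W'} (fun y => u' (GEq_sh R s y))
      (fun y => ϑ' (GEq_sh R s y)) := by
    constructor
    · exact hϑ'.smooth.comp (GEq_smooth R s).contDiffOn fun y hy => hy
    · intro y hy
      unfold dpl
      rw [GEq_fd s (GEq_diff hC'.isOpen hC'.smooth hy)]
      exact hϑ'.tang _ hy
  have h1 := h _ _ _ hxW' hL hP j h'
  rw [h1, GEq_fd s (GEq_diff hC'.isOpen hϑ'.smooth hxW')]

private lemma GEq_LF (hR : Circ N A R) (hF : Fam N (Kf N R C) f) (hκ : Curv N (Kf N R C) κ)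
    (s : ℝ) {y : (E m × ℝ × ℝ) × ℝ} (hy : y ∈ PS N (Kf N R C)) :
    LF κ (GEq_sh R s y.1, y.2) = LF κ y := by
  have h1 : cval N (Kf N R C) y (κ y) := hκ.curv y hy
  have h2 := GEq_cval hR s h1
  have h3 := GEq_PS hR hF s hy
  have h4 : κ (GEq_sh R s y.1, y.2) = κ y := cval_unique hF h3 (hκ.curv _ h3) h2
  unfold LF
  rw [h4]

private lemma GEq_leaf (hR : Circ N A R) (hL : Leaf N (Kf N R C) f κ Λ) (s : ℝ)
    {x : (E m × ℝ × ℝ) × ℝ} (hx : x ∈ PS N (Kf N R C)) (τ : ℝ) :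
    Λ τ (GEq_sh R s x.1, x.2) = (GEq_sh R s (Λ τ x).1, (Λ τ x).2) := by
  have h := hL.flow.unique (LF_contDiff hL.curv)
    (γ := fun τ => (GEq_sh R s (Λ τ x).1, (Λ τ x).2)) (fun t => by
      have h1 := hL.flow.deriv x t
      have h2 := (GEq_deriv R s (Λ t x).1).comp_hasDerivAt t h1.fst
      have h3 := h2.prodMk h1.snd
      rw [GEq_LF hR hL.fam hL.curv s (leaf_mem hL hx t)]
      refine h3.congr_deriv ?_
      unfold LF
      refine Prod.ext ?_ rfl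
      change (R s 0, (Real.cos (Λ t x).2, Real.sin (Λ t x).2)) = _
      rw [map_zero]) τ
  simp only [hL.flow.zero] at h
  exact h.symm

private lemma GEq_top (hR : Circ N A R) (s : ℝ) {x : E m × ℝ × ℝ}
    (hx : x ∈ Top (Kf N R C)) : GEq_sh R s x ∈ Top (Kf N R C) := by
  refine ⟨GEq_mem1 hR s hx.1, fun y hy hyq => ?_⟩
  refine hx.2 (GEq_sh R (-s) y) (GEq_mem1 hR (-s) hy) ?_
  change R (-s) y.1 = x.1
  rw [hyq]
  change R (-s) (R s x.1) = x.1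
  rw [← hR.add, neg_add_cancel, hR.zero]

private lemma GEq_btm (hR : Circ N A R) (s : ℝ) {x : E m × ℝ × ℝ}
    (hx : x ∈ Btm (Kf N R C)) : GEq_sh R s x ∈ Btm (Kf N R C) := by
  refine ⟨GEq_mem1 hR s hx.1, fun y hy hyq => ?_⟩
  refine hx.2 (GEq_sh R (-s) y) (GEq_mem1 hR (-s) hy) ?_
  change R (-s) y.1 = x.1
  rw [hyq]
  change R (-s) (R s x.1) = x.1
  rw [← hR.add, neg_add_cancel, hR.zero]

private lemma GEq_gd (hR : Circ N A R) (hL : Leaf N (Kf N R C) f κ Λ) (s : ℝ)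
    {x : (E m × ℝ × ℝ) × ℝ} (hx : x ∈ Gd N (Kf N R C) Λ) :
    (GEq_sh R s x.1, x.2) ∈ Gd N (Kf N R C) Λ := by
  obtain ⟨h1, τ, h2, h3⟩ := hx
  refine ⟨GEq_PS hR hL.fam s h1, τ, ?_, ?_⟩
  · rw [GEq_leaf hR hL s h1]
    exact GEq_top hR s h2
  · rw [GEq_leaf hR hL s h1]
    exact h3

private lemma GEq_up (hR : Circ N A R) (s : ℝ) {x : E m × ℝ × ℝ}
    (hx : x ∈ Up (Kf N R C) ∪ Dn (Kf N R C)) :
    GEq_sh R s x ∈ Up (Kf N R C) ∪ Dn (Kf N R C) := by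
  rcases hx with ⟨r, h1, h2⟩ | ⟨r, h1, h2⟩
  · exact Or.inl ⟨r, h1, GEq_top hR s h2⟩
  · exact Or.inr ⟨r, h1, GEq_btm hR s h2⟩

private lemma GEq_adm (hR : Circ N A R) (hL : Leaf N (Kf N R C) f κ Λ) (M s : ℝ)
    (x : E m × ℝ × ℝ) {φ : ℝ} (hφ : φ ∈ Adm N (Kf N R C) Λ M (GEq_sh R s x)) :
    φ ∈ Adm N (Kf N R C) Λ M x := by
  obtain ⟨h1, h2, h3⟩ := hφ
  refine ⟨fun h => ?_, fun h => h2 (GEq_up hR s h), fun h => h3 h⟩
  have h4 := GEq_gd hR hL (-s) (h1 (GEq_mem1 hR s h))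
  simp only [GEq_inv hR] at h4
  exact h4

theorem adm_eq (hR : Circ N A R) (hL : Leaf N (Kf N R C) f κ Λ) (M s : ℝ) {q : E m} (hq : q ∈ N)
    (t r : ℝ) : Adm N (Kf N R C) Λ M (q, t + s, r) = Adm N (Kf N R C) Λ M (R s q, t, r) := by
  have e : GEq_sh R s (q, t + s, r) = (R s q, t, r) := by
    unfold GEq_sh
    refine Prod.ext rfl (Prod.ext ?_ rfl)
    change t + s - s = t
    ring
  rw [← e]
  apply Subset.antisymm
  · intro φ hφ
    refine GEq_adm hR hL M (-s) _ ?_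
    rw [GEq_inv hR]
    exact hφ
  · intro φ hφ
    exact GEq_adm hR hL M s _ hφ

end Pool.Agent.H57.CR
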