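import Pool.Agent.H57.CR.GReg

/-!
# The planar family of an exact Lagrangian (module GFam)

`K = Kf N R (sg A '' S)`, `act R (q, t, r) = (R t q, r)`.

PROOFS of the fields of `Fam`. `ne`: `(q, 0, r)` for `(q, r) ∈ C` (`hR.zero`; `q ∈ N` by `hL.subTN`). `closed`: `N` closed, `C` compact (`g_cpt`), `act R` continuous. `per`: `R (t + k) q = R t q` for integers `k` (induction from `hR.one`, `hR.add`). `bdd`: `|⟪p, A q⟫| ≤ ‖p‖ ‖A‖ ‖q‖`.
`loc`: pull back `W, u` of `g_locEq` by `act R` (smooth); `x ∈ K ↔ x.1 ∈ N ∧ act R x ∈ C ↔ x.1 ∈ N ∧ u (act R x) = 0` (`R t q ∈ N`); the derivative of `act R` in the direction `(0, a, b)` is `(a • A (R t q), b)`, so `dpl (u ∘ act R) x a b = fderiv ℝ u (act R x) (a • A (act R x).1, b)`; `reg`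
from the last clause of `g_locEq`. `prim`: along `γ` let `y s' = act R (q, γ s') ∈ C`, `z s' = Gs (y s') ∈ S`; near `s`, `Gs = G` smooth (`SmoothOn`), so `z` has a derivative `ζ` at `s`, with `ζ.1 = a • A (R t q)` because `(z s').1 = (y s').1 = R (γ s').1 q`; by `hL.prim` (little-o along `S`) the derivative of
`f (z s')` is `⟪(z s).2, ζ.1⟫ = a ⟪(z s).2, A (z s).1⟫ = a (γ s).2` (`sg A (z s) = y s`). `fper`: `act R (q, t + k, r) = act R (q, t, r)`.
-/

set_option autoImplicit false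
set_option linter.unusedSectionVars false

open scoped ContDiff Topology RealInnerProductSpace
open Set

namespace Pool.Agent.H57.CR

open Pool.Agent.H57.NL
open Pool.Agent.H2.TG (IsFlow)

variable {m n : ℕ} {N : Set (E m)} {A : E m →L[ℝ] E m} {R : ℝ → E m →L[ℝ] E m}
  {S : Set (E m × E m)} {f : E m × E m → ℝ}

theorem act_add (hR : Circ N A R) (q : E m) (s t r : ℝ) :
    act R (q, t + s, r) = act R (R s q, t, r) := by
  unfold act
  simp only [hR.add]

theorem circ_int (hR : Circ N A R) (k : ℤ) (q : E m) : R k q = q := by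
  have hn : ∀ j : ℕ, R (j : ℝ) q = q := by
    intro j
    induction j with
    | zero => rw [Nat.cast_zero]; exact hR.zero q
    | succ j ih => rw [Nat.cast_succ, hR.add, hR.one, ih]
  rcases Int.eq_nat_or_neg k with ⟨j, rfl | rfl⟩
  · simpa using hn j
  · have h1 : R (((-(j : ℤ) : ℤ) : ℝ)) (R (j : ℝ) q) = q := by
      rw [← hR.add]
      have h2 : ((-(j : ℤ) : ℤ) : ℝ) + (j : ℝ) = 0 := by
        push_cast
        ring
      rw [h2]
      exact hR.zero q
    rwa [hn j] at h1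

theorem act_smooth (hR : Circ N A R) : ContDiff ℝ ∞ (act R) := by
  have h1 : ContDiff ℝ ∞ (fun x : E m × ℝ × ℝ => R x.2.1) :=
    hR.cd.comp (contDiff_fst.comp contDiff_snd)
  have h2 : ContDiff ℝ ∞ (fun x : E m × ℝ × ℝ => R x.2.1 x.1) := h1.clm_apply contDiff_fst
  exact h2.prodMk (contDiff_snd.comp contDiff_snd)

theorem act_deriv (hR : Circ N A R) (x : E m × ℝ × ℝ) (a b : ℝ) :
    fderiv ℝ (act R) x (0, a, b) = (a • A (act R x).1, b) := by
  have h0 : DifferentiableAt ℝ (act R) x :=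
    ((act_smooth hR).differentiable (by simp)) x
  have hl : HasDerivAt (fun s : ℝ => x + s • ((0 : E m), a, b)) ((0 : E m), a, b) 0 := by
    have h1 := ((hasDerivAt_id (0 : ℝ)).smul_const ((0 : E m), a, b)).const_add x
    simpa using h1
  have hx0 : x + (0 : ℝ) • ((0 : E m), a, b) = x := by rw [zero_smul, add_zero]
  have h1 : HasDerivAt (fun s : ℝ => act R (x + s • ((0 : E m), a, b)))
      (fderiv ℝ (act R) x (0, a, b)) 0 := by
    have h2 : HasFDerivAt (act R) (fderiv ℝ (act R) x) (x + (0 : ℝ) • ((0 : E m), a, b)) := by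
      rw [hx0]
      exact h0.hasFDerivAt
    exact h2.comp_hasDerivAt (0 : ℝ) hl
  have h3 : HasDerivAt (fun s : ℝ => act R (x + s • ((0 : E m), a, b)))
      (a • A (R x.2.1 x.1), b) 0 := by
    have e1 : (fun s : ℝ => act R (x + s • ((0 : E m), a, b))) =
        fun s : ℝ => (R (x.2.1 + s * a) x.1, x.2.2 + s * b) := by
      funext s
      simp [act]
    rw [e1]
    have e2 : HasDerivAt (fun s : ℝ => x.2.1 + s * a) a 0 := by
      have := ((hasDerivAt_id (0 : ℝ)).mul_const a).const_add x.2.1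
      simpa using this
    have e3 : HasDerivAt (fun s : ℝ => x.2.2 + s * b) b 0 := by
      have := ((hasDerivAt_id (0 : ℝ)).mul_const b).const_add x.2.2
      simpa using this
    have e4 : HasDerivAt (fun t : ℝ => R t x.1) (A (R x.2.1 x.1)) (x.2.1 + 0 * a) := by
      have h5 := hR.deriv x.2.1 x.1
      rw [zero_mul, add_zero]
      exact h5
    have e5 : HasDerivAt (fun s : ℝ => R (x.2.1 + s * a) x.1) (a • A (R x.2.1 x.1)) 0 :=
      HasDerivAt.scomp (h := fun s : ℝ => x.2.1 + s * a) (g₁ := fun t : ℝ => R t x.1)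
        (0 : ℝ) e4 e2
    exact e5.prodMk e3
  exact h1.unique h3

private lemma GFam_cont_sg (A : E m →L[ℝ] E m) : Continuous (sg A) := by
  unfold sg
  exact continuous_fst.prodMk (continuous_snd.inner (A.continuous.comp continuous_fst))

private lemma GFam_sub {Gs : E m × ℝ → E m × E m} (hG : ∀ z ∈ S, Gs (sg A z) = z)
    {y : E m × ℝ} (hy : y ∈ sg A '' S) : Gs y ∈ S ∧ sg A (Gs y) = y := by
  obtain ⟨z, hz, rfl⟩ := hy
  rw [hG z hz]
  exact ⟨hz, rfl⟩

private lemma GFam_prim (hR : Circ N A R) (hL : ExactLag n N ⊥ S f)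
    {Gs : E m × ℝ → E m × E m} (hG : ∀ z ∈ S, Gs (sg A z) = z)
    (hGs : SmoothOn (sg A '' S) Gs) (q : E m) (γ : ℝ → ℝ × ℝ) (s a b : ℝ)
    (hγK : ∀ᶠ s' in 𝓝 s, (q, γ s') ∈ Kf N R (sg A '' S)) (hγ : HasDerivAt γ (a, b) s) :
    HasDerivAt (fun s' => f (Gs (act R (q, γ s')))) ((γ s).2 * a) s := by
  -- the curve `y`
  have hqγ : HasDerivAt (fun s' => ((q, γ s') : E m × ℝ × ℝ)) ((0 : E m), a, b) s :=
    (hasDerivAt_const s q).prodMk hγ
  have h0 : DifferentiableAt ℝ (act R) (q, γ s) :=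
    ((act_smooth hR).differentiable (by simp)) _
  have hy : HasDerivAt (fun s' => act R (q, γ s')) (a • A (act R (q, γ s)).1, b) s := by
    rw [← act_deriv hR]
    exact h0.hasFDerivAt.comp_hasDerivAt s hqγ
  have hyC : ∀ᶠ s' in 𝓝 s, act R (q, γ s') ∈ sg A '' S := hγK.mono fun s' h => h.2
  have hyCs : act R (q, γ s) ∈ sg A '' S := hyC.self_of_nhds
  set y : ℝ → E m × ℝ := fun s' => act R (q, γ s') with hydef
  obtain ⟨G, O, hO, hyO, hGO, hGG⟩ := hGs (y s) hyCs
  have hzG : ∀ᶠ s' in 𝓝 s, Gs (y s') = G (y s') := by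
    have h1 : ∀ᶠ s' in 𝓝 s, y s' ∈ O := hy.continuousAt.eventually (hO.mem_nhds hyO)
    filter_upwards [h1, hyC] with s' h2 h3
    exact hGG _ ⟨h2, h3⟩
  have hGd : DifferentiableAt ℝ G (y s) :=
    (hGO.contDiffAt (hO.mem_nhds hyO)).differentiableAt (by simp)
  obtain ⟨ζ, hζ⟩ : ∃ ζ : E m × E m, HasDerivAt (fun s' => Gs (y s')) ζ s :=
    ⟨_, (hGd.hasFDerivAt.comp_hasDerivAt s hy).congr_of_eventuallyEq hzG⟩
  -- first component
  have hζ1 : ζ.1 = a • A (y s).1 := by
    have h1 : HasDerivAt (fun s' => (Gs (y s')).1) ζ.1 s := hζ.fst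
    have h2 : HasDerivAt (fun s' => (y s').1) (a • A (y s).1) s := hy.fst
    have h3 : (fun s' => (Gs (y s')).1) =ᶠ[𝓝 s] fun s' => (y s').1 := by
      filter_upwards [hyC] with s' h4
      exact congrArg Prod.fst (GFam_sub hG h4).2
    exact (h1.congr_of_eventuallyEq h3.symm).unique h2
  -- the primitive
  obtain ⟨hzS, hsz⟩ := GFam_sub hG hyCs
  have hprim := hL.prim (Gs (y s)) hzS
  have htend : Filter.Tendsto (fun s' => Gs (y s')) (𝓝 s) (𝓝[S] (Gs (y s))) := by
    refine tendsto_nhdsWithin_iff.2 ⟨hζ.continuousAt, ?_⟩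
    filter_upwards [hyC] with s' h4
    exact (GFam_sub hG h4).1
  have h1 := hprim.comp_tendsto htend
  have h2 : (fun s' => Gs (y s') - Gs (y s)) =O[𝓝 s] fun s' => s' - s :=
    hζ.hasFDerivAt.isBigO_sub
  have h3 : (fun s' => f (Gs (y s')) - f (Gs (y s)) -
      ⟪(Gs (y s)).2, (Gs (y s')).1 - (Gs (y s)).1⟫) =o[𝓝 s] fun s' => s' - s :=
    h1.trans_isBigO h2
  have h4 : HasDerivAt (fun s' => ⟪(Gs (y s)).2, (Gs (y s')).1 - (Gs (y s)).1⟫)
      (⟪(Gs (y s)).2, ζ.1⟫ : ℝ) s := by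
    have h5 : HasDerivAt (fun s' => (Gs (y s')).1 - (Gs (y s)).1) ζ.1 s :=
      hζ.fst.sub_const _
    exact ((innerSL ℝ (Gs (y s)).2).hasFDerivAt).comp_hasDerivAt s h5
  have h6 := (hasDerivAt_iff_isLittleO.1 h4).add h3
  have h7 : (γ s).2 * a = ⟪(Gs (y s)).2, ζ.1⟫ := by
    rw [hζ1, inner_smul_right]
    have h8 : (y s).2 = ⟪(Gs (y s)).2, A (Gs (y s)).1⟫ := (congrArg Prod.snd hsz).symm
    have h9 : (Gs (y s)).1 = (y s).1 := congrArg Prod.fst hsz
    rw [h9] at h8
    rw [← h8]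
    have h10 : (y s).2 = (γ s).2 := rfl
    rw [h10, mul_comm]
  rw [h7]
  refine hasDerivAt_iff_isLittleO.2 (h6.congr_left fun s' => ?_)
  simp only [sub_self, inner_zero_right, sub_zero]
  ring

theorem g_fam (hN : IsSubmfd n N) (hc : IsCompact N) (hconn : IsConnected N) (hR : Circ N A R)
    (hL : ExactLag n N ⊥ S f) (hE : Emb A S) {Gs : E m × ℝ → E m × E m}
    (hG : ∀ z ∈ S, Gs (sg A z) = z) (hGs : SmoothOn (sg A '' S) Gs) :
    Fam N (Kf N R (sg A '' S)) (fun x => f (Gs (act R x))) := by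
  have hCc : IsCompact (sg A '' S) := (g_cpt hc hL).image (GFam_cont_sg A)
  have hactc : Continuous (act R) := (act_smooth hR).continuous
  have hper : ∀ (k : ℤ) (q : E m) (t r : ℝ), act R (q, t + k, r) = act R (q, t, r) := by
    intro k q t r
    rw [act_add hR, circ_int hR]
  refine ⟨hc, hconn, ?_, ?_, ?_, ?_, ?_, ?_, ?_, ?_⟩
  · obtain ⟨z, hz⟩ := hL.ne
    refine ⟨(z.1, 0, (sg A z).2), (hL.subTN hz).1, ?_⟩
    refine ⟨z, hz, ?_⟩
    unfold act
    simp only [hR.zero]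
    rfl
  · exact (hc.isClosed.preimage continuous_fst).inter (hCc.isClosed.preimage hactc)
  · exact fun x hx => hx.1
  · intro k q t r h
    refine ⟨h.1, ?_⟩
    rw [hper]
    exact h.2
  · obtain ⟨M, hM⟩ := hCc.exists_bound_of_continuousOn
      (continuous_snd.continuousOn : ContinuousOn (fun y : E m × ℝ => y.2) (sg A '' S))
    exact ⟨M, fun x hx => hM _ hx.2⟩
  · intro x hx
    obtain ⟨W, u, hW, hxW, hu, he, hr⟩ := g_locEq hN hc hR hL hE hx.2
    refine ⟨act R ⁻¹' W, u ∘ act R, hxW, ?_⟩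
    have hdpl : ∀ y ∈ act R ⁻¹' W, ∀ a b : ℝ, dpl (u ∘ act R) y a b =
        fderiv ℝ u (act R y) (a • A (act R y).1, b) := by
      intro y hy a b
      have h1 : DifferentiableAt ℝ u (act R y) :=
        (hu.contDiffAt (hW.mem_nhds hy)).differentiableAt (by simp)
      have h2 : DifferentiableAt ℝ (act R) y := ((act_smooth hR).differentiable (by simp)) y
      unfold dpl
      rw [fderiv_comp y h1 h2, ContinuousLinearMap.comp_apply, act_deriv hR]
    refine ⟨hW.preimage hactc, ?_, ?_, ?_⟩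
    · exact hu.comp (act_smooth hR).contDiffOn fun y hy => hy
    · intro y hy
      constructor
      · intro h
        exact ⟨h.1, (he _ hy (hR.maps _ _ h.1)).1 h.2⟩
      · intro h
        exact ⟨h.1, (he _ hy (hR.maps _ _ h.1)).2 h.2⟩
    · intro y hy h
      rw [hdpl y hy, hdpl y hy, one_smul, zero_smul] at h
      exact hr _ hy h
  · exact fun q γ s a b h1 h2 => GFam_prim hR hL hG hGs q γ s a b h1 h2
  · intro k q t r _
    rw [hper]

end Pool.Agent.H57.CR
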