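import Pool.Agent.H57.CR.RotG

/-!
# The reduced set is locally a hypersurface in `N × ℝ` (module GHyp)

The proof follows `Pool/Agent/H2/TG/Hyp.lean` (there `N` is the whole space); here `N` is flattened first.

PROOF of `g_hyper`. `q₀ = z₀.1`. `hN.slice` at `q₀ ∈ N` gives the chart `e`, subspace `W₀` (`finrank W₀ = n`), `hL.sub.slice` at `z₀` the chart `e'`, subspace `A'`; `mem_tan` (Slice.lean). Put `c a = e'.symm (e' z₀ + a)`, `a ∈ A'` (a point of `S` for small `a`). For small `a`,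
`(c a).1 ∈ N` (`hL.subTN`), so `e (c a).1 ∈ W₀`: let `j a = (e (c a).1, ⟪(c a).2, A (c a).1⟫) ∈ W₀ × ℝ` (to have a map into the subspace use the orthogonal projection `π : E m → W₀`, `j a = (π (e (c a).1), …)`). Its derivative at `0` is
`a ↦ (De(q₀) ζ.1, dsg A z₀ ζ .2)` with `ζ = Dc(0) a ∈ Tan S z₀`; it is injective: if `ζ.1 = 0` and `⟪ζ.2, A q₀⟫ + ⟪z₀.2, A ζ.1⟫ = 0` then `⟪ζ.2, A q₀⟫ = 0`, `ζ.2 = 0` by `hE.imm`, so `ζ = 0`, `a = 0`. As `W₀ × ℝ` has dimension `n + 1` there is `w` outside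
the range. `Φ (a, s) = j a + s • w : A' × ℝ → W₀ × ℝ` has a bijective derivative at `(0, 0)`: `smooth_inverse` (NL/Loc.lean) gives the smooth local inverse `Ξ`. For `y = (q, r)` near `sg A z₀` put `κ y = Ξ (π (e q), r)`, `u y = (κ y).2`, `G y = c (κ y).1`. For `q ∈ N`
near `q₀`, `e q ∈ W₀`, `π (e q) = e q`. If `u y = 0` then `(e q, r) = j a` with `a = (κ y).1`, so `q = (c a).1` (`e` is injective), `r = ⟪(c a).2, A q⟫`: `y = sg A (c a)`. If `y = sg A z`, `z ∈ S ∩ O` (`O = ` points with `e' z - e' z₀` small) then `z = c a`, `κ y = (a, 0)`: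
`u y = 0`, `G y = z`. Last clause: if `w.1 ∈ Tan N q₀` then `De(q₀) w.1 ∈ W₀` (`mem_tan`) and `Du(w) = 0` says that `(De(q₀) w.1, w.2) = Dj(0) a = (De(q₀) ζ.1, …)`, so `w.1 = ζ.1` (`Slice.left`), `w = dsg A z₀ ζ`.
-/

set_option autoImplicit false
set_option linter.unusedSectionVars false

open scoped ContDiff Topology RealInnerProductSpace
open Set

namespace Pool.Agent.H57.CR

open Pool.Agent.H57.NL
open Pool.Agent.H2.TG (IsFlow)

variable {m n : ℕ} {N : Set (E m)} {A : E m →L[ℝ] E m} {S : Set (E m × E m)}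
  {f : E m × E m → ℝ}

/-- the differential of the second coordinate of `sg A` -/
private noncomputable def GHyp_L (A : E m →L[ℝ] E m) (z : E m × E m) : (E m × E m) →L[ℝ] ℝ :=
  (innerSL ℝ (A z.1)).comp (ContinuousLinearMap.snd ℝ (E m) (E m)) +
    ((innerSL ℝ z.2).comp A).comp (ContinuousLinearMap.fst ℝ (E m) (E m))

private theorem GHyp_L_apply (A : E m →L[ℝ] E m) (z ζ : E m × E m) :
    GHyp_L A z ζ = (dsg A z ζ).2 := by
  change ⟪A z.1, ζ.2⟫ + ⟪z.2, A ζ.1⟫ = ⟪ζ.2, A z.1⟫ + ⟪z.2, A ζ.1⟫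
  rw [real_inner_comm]

private theorem GHyp_deriv (A : E m →L[ℝ] E m) (z : E m × E m) :
    HasFDerivAt (fun z : E m × E m => ⟪z.2, A z.1⟫) (GHyp_L A z) z := by
  have h1 : HasFDerivAt (fun z : E m × E m => z.2) (ContinuousLinearMap.snd ℝ (E m) (E m)) z :=
    hasFDerivAt_snd
  have h2 : HasFDerivAt (fun z : E m × E m => A z.1)
      (A.comp (ContinuousLinearMap.fst ℝ (E m) (E m))) z :=
    A.hasFDerivAt.comp z hasFDerivAt_fst
  have h3 := h1.inner ℝ h2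
  refine h3.congr_fderiv (ContinuousLinearMap.ext fun ζ => ?_)
  rw [GHyp_L_apply]
  change ⟪z.2, A ζ.1⟫ + ⟪ζ.2, A z.1⟫ = ⟪ζ.2, A z.1⟫ + ⟪z.2, A ζ.1⟫
  rw [add_comm]

private theorem GHyp_smooth (A : E m →L[ℝ] E m) :
    ContDiff ℝ ∞ (fun z : E m × E m => ⟪z.2, A z.1⟫) :=
  contDiff_snd.inner ℝ (A.contDiff.comp contDiff_fst)

theorem g_hyper (hN : IsSubmfd n N) (hL : ExactLag n N ⊥ S f) (hE : Emb A S) {z₀ : E m × E m}
    (hz : z₀ ∈ S) : ∃ (O : Set (E m × E m)) (W : Set (E m × ℝ)) (u : E m × ℝ → ℝ)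
      (G : E m × ℝ → E m × E m), IsOpen O ∧ IsOpen W ∧ z₀ ∈ O ∧ sg A z₀ ∈ W ∧
        ContDiffOn ℝ ∞ u W ∧ ContDiffOn ℝ ∞ G W ∧
        (∀ y ∈ W, y.1 ∈ N → (u y = 0 ↔ y ∈ sg A '' (S ∩ O))) ∧
        (∀ z ∈ S ∩ O, sg A z ∈ W → G (sg A z) = z) ∧
        ∀ w : E m × ℝ, w.1 ∈ Tan N z₀.1 → fderiv ℝ u (sg A z₀) w = 0 →
          ∃ ζ ∈ Tan S z₀, w = dsg A z₀ ζ := by
  have hq0 : z₀.1 ∈ N := (hL.subTN hz).1
  obtain ⟨e, B, hze, hs⟩ := hL.sub.slice hz
  obtain ⟨eN, W₀, hqe, hn⟩ := hN.slice hq0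
  have hb0m : e z₀ ∈ B := (hs.iff _ hze).1 hz
  set b0 : B := ⟨e z₀, hb0m⟩ with hb0
  have hsymm0 : e.symm (b0 : E m × E m) = z₀ := e.left_inv hze
  obtain ⟨P, hP⟩ : ∃ P : E m →L[ℝ] W₀, ∀ x : E m, x ∈ W₀ → (P x : E m) = x :=
    ⟨W₀.orthogonalProjectionOnto, fun x hx => congrArg Subtype.val
      (Submodule.orthogonalProjectionOnto_mem_subspace_eq_self (K := W₀) ⟨x, hx⟩)⟩
  have hPinj : ∀ x ∈ W₀, ∀ y ∈ W₀, P x = P y → x = y := by
    intro x hx y hy h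
    rw [← hP x hx, ← hP y hy, h]
  -- the derivative of the flattened chart
  let C' : B →L[ℝ] (E m × E m) := (fderiv ℝ e.symm (e z₀)).comp B.subtypeL
  have hCtan : ∀ a : B, C' a ∈ Tan S z₀ := by
    intro a
    rw [hs.mem_tan hze hz]
    change fderiv ℝ e z₀ (fderiv ℝ e.symm (e z₀) (a : E m × E m)) ∈ B
    rw [hs.right hze]
    exact a.2
  have hCtan1 : ∀ a : B, (C' a).1 ∈ Tan N z₀.1 := by
    intro a
    exact Tan.map (T := N) (hCtan a) (ContinuousLinearMap.fst ℝ (E m) (E m)).hasFDerivAt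
      (Filter.Eventually.of_forall fun y hy => (hL.subTN hy).1)
  have hCinj : ∀ a : B, C' a = 0 → a = 0 := by
    intro a ha
    have h7 := hs.right hze (a : E m × E m)
    have h8 : fderiv ℝ e.symm (e z₀) (a : E m × E m) = 0 := ha
    rw [h8, map_zero] at h7
    exact Subtype.ext h7.symm
  let D : B →L[ℝ] (W₀ × ℝ) :=
    (P.comp ((fderiv ℝ eN z₀.1).comp ((ContinuousLinearMap.fst ℝ (E m) (E m)).comp C'))).prod
      ((GHyp_L A z₀).comp C')
  have hDval : ∀ a : B, D a = (P (fderiv ℝ eN z₀.1 (C' a).1), (dsg A z₀ (C' a)).2) := by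
    intro a
    rw [← GHyp_L_apply]
    rfl
  have hDinj : Function.Injective D := by
    rw [injective_iff_map_eq_zero]
    intro a ha
    rw [hDval a] at ha
    have h1 : P (fderiv ℝ eN z₀.1 (C' a).1) = 0 := congrArg Prod.fst ha
    have h2 : (dsg A z₀ (C' a)).2 = 0 := congrArg Prod.snd ha
    have h3 : fderiv ℝ eN z₀.1 (C' a).1 ∈ W₀ := (hn.mem_tan hqe hq0 _).1 (hCtan1 a)
    have h4 : fderiv ℝ eN z₀.1 (C' a).1 = 0 := by
      rw [← hP _ h3, h1]
      rfl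
    have h5 : (C' a).1 = 0 := by
      rw [← hn.left hqe (C' a).1, h4, map_zero]
    have h6 : (⟪(C' a).2, A z₀.1⟫ : ℝ) = 0 := by
      have h7 : (⟪(C' a).2, A z₀.1⟫ : ℝ) + ⟪z₀.2, A (C' a).1⟫ = 0 := h2
      rw [h5, map_zero, inner_zero_right, add_zero] at h7
      exact h7
    have h8 : C' a = (0, (C' a).2) := Prod.ext h5 rfl
    have h9 : (C' a).2 = 0 := hE.imm z₀ hz (C' a).2 (h8 ▸ hCtan a) h6
    exact hCinj a (Prod.ext h5 h9)
  -- a transversal direction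
  have hfrA : Module.finrank ℝ B = n := hs.fr
  have hfrY : Module.finrank ℝ (W₀ × ℝ) = n + 1 := by
    rw [Module.finrank_prod, hn.fr, Module.finrank_self]
  have hfrX : Module.finrank ℝ (B × ℝ) = n + 1 := by
    rw [Module.finrank_prod, hfrA, Module.finrank_self]
  obtain ⟨w, hw⟩ : ∃ w : W₀ × ℝ, w ∉ LinearMap.range (D : B →ₗ[ℝ] (W₀ × ℝ)) := by
    by_contra hcon
    push Not at hcon
    have h1 : LinearMap.range (D : B →ₗ[ℝ] (W₀ × ℝ)) = ⊤ := by
      ext x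
      exact ⟨fun _ => trivial, fun _ => hcon x⟩
    have h2 := LinearMap.finrank_range_of_inj (f := (D : B →ₗ[ℝ] (W₀ × ℝ))) hDinj
    rw [h1, finrank_top, hfrY, hfrA] at h2
    omega
  let j : B → W₀ × ℝ := fun a =>
    (P (eN (e.symm (a : E m × E m)).1), ⟪(e.symm (a : E m × E m)).2, A (e.symm (a : E m × E m)).1⟫)
  let φ : B × ℝ → W₀ × ℝ := fun x => j x.1 + x.2 • w
  let L : (B × ℝ) →L[ℝ] (W₀ × ℝ) :=
    D.comp (ContinuousLinearMap.fst ℝ B ℝ) + (ContinuousLinearMap.snd ℝ B ℝ).smulRight w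
  have hLval : ∀ x : B × ℝ, L x = D x.1 + x.2 • w := fun x => rfl
  have hLinj : Function.Injective L := by
    rw [injective_iff_map_eq_zero]
    rintro ⟨a, s⟩ hx
    rw [hLval] at hx
    simp only at hx
    have hs0 : s = 0 := by
      by_contra hne
      refine hw ⟨-s⁻¹ • a, ?_⟩
      have h1 : D a = -(s • w) := eq_neg_of_add_eq_zero_left hx
      change D (-s⁻¹ • a) = w
      rw [map_smul, h1, smul_neg, neg_smul, neg_neg, smul_smul, inv_mul_cancel₀ hne, one_smul]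
    rw [hs0, zero_smul, add_zero] at hx
    have h2 : a = 0 := hDinj (by rw [hx, map_zero])
    rw [h2, hs0]
    rfl
  have hLsurj : Function.Surjective L :=
    (LinearMap.injective_iff_surjective_of_finrank_eq_finrank
      (f := (L : (B × ℝ) →ₗ[ℝ] (W₀ × ℝ))) (hfrX.trans hfrY.symm)).1 hLinj
  let flat : E m × ℝ → W₀ × ℝ := fun y => (P (eN y.1), y.2)
  have hflat : ∀ z : E m × E m, flat (sg A z) = (P (eN z.1), ⟪z.2, A z.1⟫) := fun z => rfl
  have hφ0 : φ (b0, 0) = flat (sg A z₀) := by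
    change (P (eN (e.symm (b0 : E m × E m)).1),
      (⟪(e.symm (b0 : E m × E m)).2, A (e.symm (b0 : E m × E m)).1⟫ : ℝ)) + (0 : ℝ) • w = _
    rw [hsymm0, zero_smul, add_zero]
    rfl
  -- the derivative of `j`
  have hjder : HasFDerivAt j D b0 := by
    have h1 : HasFDerivAt (fun a : B => (a : E m × E m)) B.subtypeL b0 := B.subtypeL.hasFDerivAt
    have h2 : HasFDerivAt e.symm (fderiv ℝ e.symm (e z₀)) ((b0 : B) : E m × E m) :=
      hs.hd' (e.map_source hze)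
    have h3 : HasFDerivAt (fun a : B => e.symm (a : E m × E m)) C' b0 := h2.comp b0 h1
    have h4 : HasFDerivAt (fun a : B => (e.symm (a : E m × E m)).1)
        ((ContinuousLinearMap.fst ℝ (E m) (E m)).comp C') b0 :=
      (ContinuousLinearMap.fst ℝ (E m) (E m)).hasFDerivAt.comp b0 h3
    have h5 : HasFDerivAt eN (fderiv ℝ eN z₀.1) ((e.symm ((b0 : B) : E m × E m)).1) := by
      rw [hsymm0]
      exact hn.hd hqe
    have h6 : HasFDerivAt (fun a : B => P (eN (e.symm (a : E m × E m)).1))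
        (P.comp ((fderiv ℝ eN z₀.1).comp ((ContinuousLinearMap.fst ℝ (E m) (E m)).comp C'))) b0 :=
      P.hasFDerivAt.comp b0 (h5.comp b0 h4)
    have h7 : HasFDerivAt (fun z : E m × E m => (⟪z.2, A z.1⟫ : ℝ)) (GHyp_L A z₀)
        (e.symm ((b0 : B) : E m × E m)) := by
      rw [hsymm0]
      exact GHyp_deriv A z₀
    have h8 : HasFDerivAt (fun a : B => (⟪(e.symm (a : E m × E m)).2,
        A (e.symm (a : E m × E m)).1⟫ : ℝ)) ((GHyp_L A z₀).comp C') b0 :=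
      HasFDerivAt.comp (g := fun z : E m × E m => (⟪z.2, A z.1⟫ : ℝ)) b0 h7 h3
    exact h6.prodMk h8
  have hder : HasFDerivAt φ L (b0, 0) := by
    have h4 : HasFDerivAt (fun x : B × ℝ => j x.1)
        (D.comp (ContinuousLinearMap.fst ℝ B ℝ)) (b0, 0) :=
      HasFDerivAt.comp (b0, (0 : ℝ)) (f := Prod.fst) hjder
        (ContinuousLinearMap.fst ℝ B ℝ).hasFDerivAt
    have h5 : HasFDerivAt (fun x : B × ℝ => x.2 • w)
        ((ContinuousLinearMap.snd ℝ B ℝ).smulRight w) (b0, 0) :=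
      ((ContinuousLinearMap.snd ℝ B ℝ).smulRight w).hasFDerivAt
    exact h4.add h5
  have hsub : Continuous (fun x : B × ℝ => (x.1 : E m × E m)) :=
    continuous_subtype_val.comp continuous_fst
  have htgt : ∀ᶠ x : B × ℝ in 𝓝 (b0, 0), (x.1 : E m × E m) ∈ e.target :=
    (hsub.tendsto (b0, 0)).eventually (e.open_target.mem_nhds (e.map_source hze))
  have hsrcN : ∀ᶠ x : B × ℝ in 𝓝 (b0, 0), (e.symm (x.1 : E m × E m)).1 ∈ eN.source := by
    have h1 : ContinuousAt e.symm ((fun x : B × ℝ => (x.1 : E m × E m)) (b0, 0)) :=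
      e.continuousAt_symm (e.map_source hze)
    have h3 : ContinuousAt (fun x : B × ℝ => e.symm (x.1 : E m × E m)) (b0, 0) :=
      ContinuousAt.comp (f := fun x : B × ℝ => (x.1 : E m × E m)) h1 hsub.continuousAt
    have h2 : ContinuousAt (fun x : B × ℝ => (e.symm (x.1 : E m × E m)).1) (b0, 0) := h3.fst
    apply h2.tendsto.eventually
    apply eN.open_source.mem_nhds
    change (e.symm (b0 : E m × E m)).1 ∈ eN.source
    rw [hsymm0]
    exact hqe
  have hsm : ∀ᶠ x : B × ℝ in 𝓝 (b0, 0), ContDiffAt ℝ ∞ φ x := by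
    filter_upwards [htgt, hsrcN] with x hx hx'
    have h3 : ContDiffAt ℝ ∞ (fun x : B × ℝ => (x.1 : E m × E m)) x :=
      (B.subtypeL.comp (ContinuousLinearMap.fst ℝ B ℝ)).contDiff.contDiffAt
    have h4 : ContDiffAt ℝ ∞ (fun x : B × ℝ => e.symm (x.1 : E m × E m)) x := (hs.cd' hx).comp x h3
    have h5 : ContDiffAt ℝ ∞ (fun x : B × ℝ => P (eN (e.symm (x.1 : E m × E m)).1)) x :=
      P.contDiff.contDiffAt.comp x ((hn.cd hx').comp x h4.fst)
    have h6 : ContDiffAt ℝ ∞ (fun x : B × ℝ => (⟪(e.symm (x.1 : E m × E m)).2,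
        A (e.symm (x.1 : E m × E m)).1⟫ : ℝ)) x :=
      (GHyp_smooth A).contDiffAt.comp x h4
    have h7 : ContDiffAt ℝ ∞ (fun x : B × ℝ => x.2 • w) x :=
      ((ContinuousLinearMap.snd ℝ B ℝ).smulRight w).contDiff.contDiffAt
    exact (h5.prodMk h6).add h7
  obtain ⟨Φ, hΦ, hsrc, hinvsm⟩ := smooth_inverse (hfrX.trans hfrY.symm) hsm
    (by rw [hder.fderiv]; exact hLinj)
  -- the neighbourhoods
  obtain ⟨N0, hN0, hN0o, hN0m⟩ := eventually_nhds_iff.1 hinvsm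
  have hev : ∀ᶠ x in 𝓝 (b0, (0 : ℝ)), x ∈ Φ.source ∧ (x.1 : E m × E m) ∈ e.target ∧
      (e.symm (x.1 : E m × E m)).1 ∈ eN.source := by
    filter_upwards [Φ.open_source.mem_nhds hsrc, htgt, hsrcN] with x h1 h2 h3 using ⟨h1, h2, h3⟩
  obtain ⟨r, hr, hball⟩ := Metric.eventually_nhds_iff_ball.1 hev
  have hbsrc : ∀ x ∈ Metric.ball (b0, (0 : ℝ)) r, x ∈ Φ.source := fun x hx => (hball x hx).1
  have hbtgt : ∀ x ∈ Metric.ball (b0, (0 : ℝ)) r, (x.1 : E m × E m) ∈ e.target :=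
    fun x hx => (hball x hx).2.1
  have hbN : ∀ x ∈ Metric.ball (b0, (0 : ℝ)) r, (e.symm (x.1 : E m × E m)).1 ∈ eN.source :=
    fun x hx => (hball x hx).2.2
  have hΦval : ∀ x : B × ℝ, Φ x = j x.1 + x.2 • w := by
    intro x
    rw [hΦ]
  have hy0 : Φ (b0, 0) = flat (sg A z₀) := by rw [hΦ]; exact hφ0
  have hu0 : Φ.symm (flat (sg A z₀)) = (b0, 0) := by
    rw [← hy0]
    exact Φ.left_inv hsrc
  have hflatc : ContinuousOn flat {y : E m × ℝ | y.1 ∈ eN.source} := by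
    have h1 : ContinuousOn (fun y : E m × ℝ => eN y.1) {y : E m × ℝ | y.1 ∈ eN.source} :=
      eN.continuousOn.comp continuous_fst.continuousOn fun y hy => hy
    exact (P.continuous.comp_continuousOn h1).prodMk continuous_snd.continuousOn
  have hflats : ∀ y : E m × ℝ, y.1 ∈ eN.source → ContDiffAt ℝ ∞ flat y := by
    intro y hy
    exact (P.contDiff.contDiffAt.comp y ((hn.cd hy).comp y contDiffAt_fst)).prodMk contDiffAt_snd
  have hWo1 : IsOpen ((Φ.target ∩ Φ.symm ⁻¹' Metric.ball (b0, (0 : ℝ)) r) ∩ N0) :=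
    (Φ.isOpen_inter_preimage_symm Metric.isOpen_ball).inter hN0o
  have hsrcO : IsOpen {y : E m × ℝ | y.1 ∈ eN.source} := eN.open_source.preimage continuous_fst
  have hWo : IsOpen ({y : E m × ℝ | y.1 ∈ eN.source} ∩
      flat ⁻¹' ((Φ.target ∩ Φ.symm ⁻¹' Metric.ball (b0, (0 : ℝ)) r) ∩ N0)) :=
    hflatc.isOpen_inter_preimage hsrcO hWo1
  have hy0t : flat (sg A z₀) ∈ (Φ.target ∩ Φ.symm ⁻¹' Metric.ball (b0, (0 : ℝ)) r) ∩ N0 := by
    refine ⟨⟨?_, ?_⟩, ?_⟩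
    · rw [← hy0]
      exact Φ.map_source hsrc
    · rw [Set.mem_preimage, hu0]
      exact Metric.mem_ball_self hr
    · rw [← hφ0]
      exact hN0m
  have hOo : IsOpen (e.source ∩ e ⁻¹' Metric.ball (e z₀) r) :=
    e.isOpen_inter_preimage Metric.isOpen_ball
  -- the point of the chart over a point of `S`
  have hkey : ∀ z ∈ S ∩ (e.source ∩ e ⁻¹' Metric.ball (e z₀) r), ∃ hzB : e z ∈ B,
      Φ.symm (flat (sg A z)) = ((⟨e z, hzB⟩ : B), (0 : ℝ)) := by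
    rintro z ⟨hzS, hzsrc, hzb⟩
    have hzB : e z ∈ B := (hs.iff _ hzsrc).1 hzS
    refine ⟨hzB, ?_⟩
    have hxb : ((⟨e z, hzB⟩ : B), (0 : ℝ)) ∈ Metric.ball (b0, (0 : ℝ)) r := by
      rw [Metric.mem_ball, Prod.dist_eq, max_lt_iff]
      exact ⟨hzb, by simpa using hr⟩
    have h1 : Φ ((⟨e z, hzB⟩ : B), (0 : ℝ)) = flat (sg A z) := by
      rw [hΦval]
      change (P (eN (e.symm (e z)).1), (⟪(e.symm (e z)).2, A (e.symm (e z)).1⟫ : ℝ)) +
        (0 : ℝ) • w = flat (sg A z)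
      rw [e.left_inv hzsrc, zero_smul, add_zero]
      rfl
    rw [← h1, Φ.left_inv (hbsrc _ hxb)]
  have hzb0 : e z₀ ∈ Metric.ball (e z₀) r := Metric.mem_ball_self hr
  have hzO0 : z₀ ∈ e.source ∩ e ⁻¹' Metric.ball (e z₀) r :=
    Set.mem_inter hze (Set.mem_preimage.2 hzb0)
  have hyW0 : sg A z₀ ∈ {y : E m × ℝ | y.1 ∈ eN.source} ∩
      flat ⁻¹' ((Φ.target ∩ Φ.symm ⁻¹' Metric.ball (b0, (0 : ℝ)) r) ∩ N0) :=
    Set.mem_inter hqe (Set.mem_preimage.2 hy0t)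
  refine ⟨_, _, fun y => (Φ.symm (flat y)).2, fun y => e.symm ((Φ.symm (flat y)).1 : E m × E m),
    hOo, hWo, hzO0, hyW0, ?_, ?_, ?_, ?_, ?_⟩
  · rintro y ⟨hy1, ⟨-, -⟩, hy3⟩
    exact (((hN0 _ hy3).comp y (hflats y hy1)).snd).contDiffWithinAt
  · rintro y ⟨hy1, ⟨-, hy2⟩, hy3⟩
    have h1 : ContDiffAt ℝ ∞ (fun y => Φ.symm (flat y)) y := (hN0 _ hy3).comp y (hflats y hy1)
    have h2 : ContDiffAt ℝ ∞ (fun y => ((Φ.symm (flat y)).1 : E m × E m)) y :=
      B.subtypeL.contDiff.contDiffAt.comp y h1.fst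
    exact ((hs.cd' (hbtgt _ hy2)).comp y h2).contDiffWithinAt
  · rintro y ⟨hy1, ⟨hyt, hyb⟩, -⟩ hyN
    have hyb' : Φ.symm (flat y) ∈ Metric.ball (b0, (0 : ℝ)) r := hyb
    constructor
    · intro hu
      have hu' : (Φ.symm (flat y)).2 = 0 := hu
      have h1 : Φ (Φ.symm (flat y)) = flat y := Φ.right_inv hyt
      rw [hΦval, hu', zero_smul, add_zero] at h1
      have ht := hbtgt _ hyb'
      have hzS : e.symm ((Φ.symm (flat y)).1 : E m × E m) ∈ S := by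
        rw [hs.iff _ (e.map_target ht), e.right_inv ht]
        exact (Φ.symm (flat y)).1.2
      have h2 : P (eN (e.symm ((Φ.symm (flat y)).1 : E m × E m)).1) = P (eN y.1) :=
        congrArg Prod.fst h1
      have h3 : (⟪(e.symm ((Φ.symm (flat y)).1 : E m × E m)).2,
          A (e.symm ((Φ.symm (flat y)).1 : E m × E m)).1⟫ : ℝ) = y.2 := congrArg Prod.snd h1
      have h4 : (e.symm ((Φ.symm (flat y)).1 : E m × E m)).1 ∈ N := (hL.subTN hzS).1
      have h5 := hbN _ hyb'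
      have h6 := hPinj _ ((hn.iff _ h5).1 h4) _ ((hn.iff _ hy1).1 hyN) h2
      have h7 : (e.symm ((Φ.symm (flat y)).1 : E m × E m)).1 = y.1 := eN.injOn h5 hy1 h6
      refine ⟨e.symm ((Φ.symm (flat y)).1 : E m × E m), ⟨hzS, ⟨e.map_target ht, ?_⟩⟩,
        Prod.ext h7 h3⟩
      rw [Set.mem_preimage, e.right_inv ht, Metric.mem_ball]
      rw [Metric.mem_ball, Prod.dist_eq, max_lt_iff] at hyb'
      exact hyb'.1
    · rintro ⟨z, hzO, hzy⟩
      obtain ⟨hzB, h1⟩ := hkey z hzO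
      change (Φ.symm (flat y)).2 = 0
      rw [← hzy, h1]
  · intro z hzO _
    obtain ⟨hzB, h1⟩ := hkey z hzO
    change e.symm ((Φ.symm (flat (sg A z))).1 : E m × E m) = z
    rw [h1]
    exact e.left_inv hzO.2.1
  · intro v hv hv0
    have hsd : DifferentiableAt ℝ Φ.symm (flat (sg A z₀)) :=
      (hN0 _ hy0t.2).differentiableAt (by simp)
    -- the inverse of `L`
    have hcomp : HasFDerivAt (Φ.symm ∘ φ)
        ((fderiv ℝ Φ.symm (flat (sg A z₀))).comp L) (b0, 0) := by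
      refine HasFDerivAt.comp (b0, (0 : ℝ)) ?_ hder
      rw [hφ0]
      exact hsd.hasFDerivAt
    have hid : HasFDerivAt (Φ.symm ∘ φ) (ContinuousLinearMap.id ℝ (B × ℝ)) (b0, 0) := by
      refine (hasFDerivAt_id (b0, (0 : ℝ))).congr_of_eventuallyEq ?_
      filter_upwards [Φ.open_source.mem_nhds hsrc] with x hx
      have : Φ.symm (φ x) = x := by rw [← hΦ]; exact Φ.left_inv hx
      simp only [Function.comp_apply, this, id]
    have hinv : ∀ x : B × ℝ, fderiv ℝ Φ.symm (flat (sg A z₀)) (L x) = x := by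
      intro x
      have := congrArg (fun M : (B × ℝ) →L[ℝ] (B × ℝ) => M x) (hcomp.unique hid)
      simpa using this
    have hfl : HasFDerivAt flat ((P.comp ((fderiv ℝ eN z₀.1).comp
        (ContinuousLinearMap.fst ℝ (E m) ℝ))).prod (ContinuousLinearMap.snd ℝ (E m) ℝ))
        (sg A z₀) := by
      have h1 : HasFDerivAt eN (fderiv ℝ eN z₀.1) ((sg A z₀).1) := hn.hd hqe
      exact (P.hasFDerivAt.comp _ (h1.comp (sg A z₀) hasFDerivAt_fst)).prodMk hasFDerivAt_snd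
    have hu : HasFDerivAt (fun y => (Φ.symm (flat y)).2)
        ((ContinuousLinearMap.snd ℝ B ℝ).comp ((fderiv ℝ Φ.symm (flat (sg A z₀))).comp
          ((P.comp ((fderiv ℝ eN z₀.1).comp
            (ContinuousLinearMap.fst ℝ (E m) ℝ))).prod (ContinuousLinearMap.snd ℝ (E m) ℝ))))
        (sg A z₀) :=
      (ContinuousLinearMap.snd ℝ B ℝ).hasFDerivAt.comp (sg A z₀)
        (hsd.hasFDerivAt.comp (sg A z₀) hfl)
    rw [hu.fderiv] at hv0
    have hv1 : (fderiv ℝ Φ.symm (flat (sg A z₀)) (P (fderiv ℝ eN z₀.1 v.1), v.2)).2 = 0 := hv0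
    obtain ⟨x, hx⟩ := hLsurj (P (fderiv ℝ eN z₀.1 v.1), v.2)
    rw [← hx, hinv x] at hv1
    rw [hLval, hv1, zero_smul, add_zero, hDval] at hx
    obtain ⟨h1, h2⟩ := Prod.mk.inj hx
    have h3 := hPinj _ ((hn.mem_tan hqe hq0 _).1 (hCtan1 x.1)) _
      ((hn.mem_tan hqe hq0 _).1 hv) h1
    have h4 : (C' x.1).1 = v.1 := by
      rw [← hn.left hqe (C' x.1).1, h3, hn.left hqe]
    exact ⟨C' x.1, hCtan x.1, (Prod.ext h4 h2).symm⟩

end Pool.Agent.H57.CR
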