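import Pool.Agent.H57.CR.SmOn
import Pool.Agent.H57.NL.Slice

/-!
# Graphs of smooth maps over a submanifold (module GraphSub)

PROOFS.
* `graph_submfd`: near `z₀ = (q₀, s q₀)` let `s₁` be the smooth extension of `s` on the open `U ∋ q₀` (`sm_ext` or the definition of `SmoothOn`), `e` the chart of `N` at `q₀`, `W` its subspace. The chart of the graph: source `(e.source ∩ U) ×ˢ univ`, `(q, p) ↦ (e q, p - s₁ q)`, inverse `(x, y) ↦ (e.symm x, y + s₁ (e.symm x))`
  on the target `(e.target ∩ e.symm ⁻¹' U) ×ˢ univ`; subspace `W.prod ⊥`, of the same dimension as `W`.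
* `graph_closed`: `sm_cont`; if `z_k → z`, `z_k` in the graph, then `z.1 ∈ N` and `z_k.2 = s z_k.1 → s z.1`.
* `graph_tan`: along a curve `γ` in the graph, `(γ s).2 = s₁ (γ s).1` for small `s`, so `b = Ds₁(q₀) 0 = 0`.
-/

set_option autoImplicit false
set_option linter.unusedSectionVars false

open scoped ContDiff Topology RealInnerProductSpace
open Set

namespace Pool.Agent.H57.CR

open Pool.Agent.H57.NL
open Pool.Agent.H2.TG (IsFlow)

variable {m n : ℕ} {N : Set (E m)} {s : E m → E m}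

/-- the chart of the graph -/
private noncomputable def GraphSub_chart (e : OpenPartialHomeomorph (E m) (E m)) (U : Set (E m))
    (hU : IsOpen U) (G : E m → E m) (hG : ContDiffOn ℝ ∞ G U) :
    OpenPartialHomeomorph (E m × E m) (E m × E m) where
  toFun z := (e z.1, z.2 - G z.1)
  invFun w := (e.symm w.1, w.2 + G (e.symm w.1))
  source := (e.source ∩ U) ×ˢ univ
  target := (e.target ∩ e.symm ⁻¹' U) ×ˢ univ
  map_source' := by
    rintro z ⟨⟨h1, h2⟩, -⟩
    refine ⟨⟨e.map_source h1, ?_⟩, mem_univ _⟩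
    rw [mem_preimage, e.left_inv h1]
    exact h2
  map_target' := by
    rintro w ⟨⟨h1, h2⟩, -⟩
    exact ⟨⟨e.map_target h1, h2⟩, mem_univ _⟩
  left_inv' := by
    rintro z ⟨⟨h1, h2⟩, -⟩
    refine Prod.ext ?_ ?_
    · exact e.left_inv h1
    · change z.2 - G z.1 + G (e.symm (e z.1)) = z.2
      rw [e.left_inv h1, sub_add_cancel]
  right_inv' := by
    rintro w ⟨⟨h1, h2⟩, -⟩
    refine Prod.ext ?_ ?_
    · exact e.right_inv h1
    · change w.2 + G (e.symm w.1) - G (e.symm w.1) = w.2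
      rw [add_sub_cancel_right]
  open_source := (e.open_source.inter hU).prod isOpen_univ
  open_target := (e.symm.isOpen_inter_preimage hU).prod isOpen_univ
  continuousOn_toFun := by
    refine ContinuousOn.prodMk ?_ ?_
    · exact e.continuousOn.comp continuousOn_fst fun z hz => hz.1.1
    · exact continuousOn_snd.sub (hG.continuousOn.comp continuousOn_fst fun z hz => hz.1.2)
  continuousOn_invFun := by
    have h1 : ContinuousOn (fun w : E m × E m => e.symm w.1)
        ((e.target ∩ e.symm ⁻¹' U) ×ˢ univ) :=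
      e.symm.continuousOn.comp continuousOn_fst fun z hz => hz.1.1
    refine h1.prodMk ?_
    exact continuousOn_snd.add (hG.continuousOn.comp h1 fun z hz => hz.1.2)

theorem graph_submfd (hN : IsSubmfd n N) (hs : SmoothOn N s) :
    IsSubmfd n {z : E m × E m | z.1 ∈ N ∧ z.2 = s z.1} := by
  rintro z ⟨hz1, hz2⟩
  obtain ⟨e, W, h1, h2, h3, h4, h5⟩ := hN z.1 hz1
  obtain ⟨G, U, hU, hzU, hG, hsG⟩ := hs z.1 hz1
  refine ⟨GraphSub_chart e U hU G hG, W.map (LinearMap.inl ℝ (E m) (E m)), ?_, ?_, ?_, ?_, ?_⟩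
  · exact ⟨⟨h1, hzU⟩, mem_univ _⟩
  · change ContDiffOn ℝ ∞ (fun z : E m × E m => (e z.1, z.2 - G z.1)) ((e.source ∩ U) ×ˢ univ)
    refine ContDiffOn.prodMk ?_ ?_
    · exact h2.comp contDiffOn_fst fun z hz => hz.1.1
    · exact contDiffOn_snd.sub (hG.comp contDiffOn_fst fun z hz => hz.1.2)
  · change ContDiffOn ℝ ∞ (fun w : E m × E m => (e.symm w.1, w.2 + G (e.symm w.1)))
      ((e.target ∩ e.symm ⁻¹' U) ×ˢ univ)
    have h6 : ContDiffOn ℝ ∞ (fun w : E m × E m => e.symm w.1)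
        ((e.target ∩ e.symm ⁻¹' U) ×ˢ univ) :=
      h3.comp contDiffOn_fst fun z hz => hz.1.1
    exact h6.prodMk (contDiffOn_snd.add (hG.comp h6 fun z hz => hz.1.2))
  · rw [← h4]
    exact (LinearEquiv.finrank_eq (Submodule.equivMapOfInjective _ LinearMap.inl_injective W)).symm
  · rintro y ⟨⟨hy1, hy2⟩, -⟩
    change (y.1 ∈ N ∧ y.2 = s y.1) ↔ (e y.1, y.2 - G y.1) ∈ W.map (LinearMap.inl ℝ (E m) (E m))
    rw [Submodule.map_inl, Submodule.mem_prod, Submodule.mem_bot]
    simp only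
    rw [← h5 y.1 hy1, sub_eq_zero]
    constructor
    · rintro ⟨h6, h7⟩
      exact ⟨h6, by rw [h7, hsG _ ⟨hy2, h6⟩]⟩
    · rintro ⟨h6, h7⟩
      exact ⟨h6, by rw [h7, hsG _ ⟨hy2, h6⟩]⟩

theorem graph_closed (hN : IsClosed N) (hs : SmoothOn N s) :
    IsClosed {z : E m × E m | z.1 ∈ N ∧ z.2 = s z.1} := by
  have h1 : ContinuousOn (fun z : E m × E m => z.2 - s z.1) {z : E m × E m | z.1 ∈ N} :=
    continuousOn_snd.sub ((sm_cont hs).comp continuousOn_fst fun z hz => hz)
  have h2 : IsClosed {z : E m × E m | z.1 ∈ N} := hN.preimage continuous_fst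
  have h3 := h1.preimage_isClosed_of_isClosed h2 (isClosed_singleton (x := (0 : E m)))
  convert h3 using 1
  ext z
  simp only [mem_setOf_eq, mem_inter_iff, mem_preimage, mem_singleton_iff, sub_eq_zero]

theorem graph_compact (hN : IsCompact N) (hs : SmoothOn N s) :
    IsCompact {z : E m × E m | z.1 ∈ N ∧ z.2 = s z.1} := by
  have h1 : IsCompact ((fun q : E m => (q, s q)) '' N) :=
    hN.image_of_continuousOn (continuousOn_id.prodMk (sm_cont hs))
  convert h1 using 1
  ext z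
  simp only [mem_setOf_eq, mem_image]
  constructor
  · rintro ⟨h2, h3⟩
    exact ⟨z.1, h2, Prod.ext rfl h3.symm⟩
  · rintro ⟨q, hq, rfl⟩
    exact ⟨hq, rfl⟩

theorem graph_tan (hs : SmoothOn N s) {z : E m × E m}
    (hz : z ∈ {z : E m × E m | z.1 ∈ N ∧ z.2 = s z.1}) {b : E m}
    (h : (0, b) ∈ Tan {z : E m × E m | z.1 ∈ N ∧ z.2 = s z.1} z) : b = 0 := by
  obtain ⟨γ, h0, hγ, hd⟩ := h
  obtain ⟨D, hD⟩ := sm_deriv hs hz.1
  have h1 : HasDerivAt (fun x => (γ x).1) 0 0 := hd.fst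
  have h2 : HasDerivAt (fun x => (γ x).2) b 0 := hd.snd
  have h3 := hD (fun x => (γ x).1) (by simp only [h0]) (hγ.mono fun x hx => hx.1) 0 h1
  rw [map_zero] at h3
  have h4 : HasDerivAt (fun x => (γ x).2) 0 0 :=
    h3.congr_of_eventuallyEq (hγ.mono fun x hx => hx.2)
  exact h2.unique h4

end Pool.Agent.H57.CR
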