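import Pool.Agent.H57.CR.TNp

/-!
# Inverses and compositions of symplectic diffeomorphisms of the cotangent bundle of `N` (module SComp)

Compare `Pool/Agent/H2/TG/Comp.lean`. PROOFS.
* `symp_symm`: `symp` for `ψ'`: let `v, w ∈ Tan (TN N) z`. `exists_push` gives the velocities `v' = D v`, `w' = D w` under `ψ'`; `v', w' ∈ Tan (TN N) (ψ' z)` (`push_tan`). `h.symp` at `ψ' z` gives `v'', w''` with `Push ψ v' v''`, `Push ψ w' w''`, `om v'' w'' = om v' w'`. For a curve `γ` in `TN N` of velocity `v` at `z`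
  the curve `ψ' ∘ γ` has velocity `v'` and `ψ ∘ ψ' ∘ γ = γ` near `0`, so `v'' = v`, and `w'' = w`.
* `symp_comp`: `smooth`: `sm_comp`. `symp`: `h1.symp` at `z` gives `v', w'`, in `Tan (TN N) (ψ₁ z)` by `push_tan`; `h2.symp` at `ψ₁ z`. `equiv`: immediate (use `h1.maps`).
-/

set_option autoImplicit false
set_option linter.unusedSectionVars false

open scoped ContDiff Topology RealInnerProductSpace
open Set

namespace Pool.Agent.H57.CR

open Pool.Agent.H57.NL
open Pool.Agent.H2.TG (IsFlow)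

variable {m n : ℕ} {N : Set (E m)}

private theorem scomp_tr (z : E m × E m) : tr (0 : E m) z = z := by
  unfold tr
  simp

theorem symp_symm {ψ ψ' : E m × E m → E m × E m} (h : SympDiffeo N ⊥ ψ ψ') :
    SympDiffeo N ⊥ ψ' ψ := by
  refine ⟨h.maps', h.maps, h.right, h.left, h.smooth', h.smooth, ?_, ?_⟩
  · intro g hg z _
    rw [AddSubgroup.mem_bot.1 hg, scomp_tr, scomp_tr]
  · intro z hz v hv w hw
    obtain ⟨D, hD⟩ := exists_push h.smooth' hz
    have h1 : ∀ u ∈ Tan (TN N) z, D u ∈ Tan (TN N) (ψ' z) := fun u hu =>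
      push_tan hu h.maps' (hD u)
    obtain ⟨v'', w'', pv, pw, hom⟩ := h.symp (ψ' z) (h.maps' z hz) (D v) (h1 v hv) (D w) (h1 w hw)
    have h2 : ∀ u ∈ Tan (TN N) z, ∀ u'', Push (TN N) ψ (ψ' z) (D u) u'' → u'' = u := by
      intro u hu u'' hp
      obtain ⟨γ, h0, hm, hd⟩ := hu
      have h3 : HasDerivAt (ψ' ∘ γ) (D u) 0 := hD u γ h0 hm hd
      have h4 : HasDerivAt (ψ ∘ (ψ' ∘ γ)) u'' 0 := by
        refine hp (ψ' ∘ γ) ?_ ?_ h3
        · rw [Function.comp_apply, h0]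
        · filter_upwards [hm] with s hs
          exact h.maps' _ hs
      have h5 : (ψ ∘ (ψ' ∘ γ)) =ᶠ[𝓝 0] γ := by
        filter_upwards [hm] with s hs
        exact h.right _ hs
      exact (h5.hasDerivAt_iff.1 h4).unique hd
    refine ⟨D v, D w, hD v, hD w, ?_⟩
    rw [← hom, h2 v hv v'' pv, h2 w hw w'' pw]

theorem symp_comp {ψ₁ ψ₁' ψ₂ ψ₂' : E m × E m → E m × E m} (h1 : SympDiffeo N ⊥ ψ₁ ψ₁')
    (h2 : SympDiffeo N ⊥ ψ₂ ψ₂') : SympDiffeo N ⊥ (ψ₂ ∘ ψ₁) (ψ₁' ∘ ψ₂') := by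
  refine ⟨fun z hz => h2.maps _ (h1.maps z hz), fun z hz => h1.maps' _ (h2.maps' z hz),
    fun z hz => ?_, fun z hz => ?_, sm_comp (g := ψ₁) (h := ψ₂) h1.smooth h2.smooth h1.maps,
    sm_comp (g := ψ₂') (h := ψ₁') h2.smooth' h1.smooth' h2.maps', ?_, ?_⟩
  · simp only [Function.comp_apply]
    rw [h2.left _ (h1.maps z hz), h1.left _ hz]
  · simp only [Function.comp_apply]
    rw [h1.right _ (h2.maps' z hz), h2.right _ hz]
  · intro g hg z _
    rw [AddSubgroup.mem_bot.1 hg, scomp_tr, scomp_tr]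
  · intro z hz v hv w hw
    obtain ⟨v', w', pv, pw, hom⟩ := h1.symp z hz v hv w hw
    obtain ⟨v'', w'', pv', pw', hom'⟩ := h2.symp (ψ₁ z) (h1.maps z hz) v'
      (push_tan hv h1.maps pv) w' (push_tan hw h1.maps pw)
    refine ⟨v'', w'', ?_, ?_, hom'.trans hom⟩
    · intro γ h0 hm hd
      have h3 := pv γ h0 hm hd
      refine pv' (ψ₁ ∘ γ) (by rw [Function.comp_apply, h0]) ?_ h3
      filter_upwards [hm] with s hs
      exact h1.maps _ hs
    · intro γ h0 hm hd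
      have h3 := pw γ h0 hm hd
      refine pw' (ψ₁ ∘ γ) (by rw [Function.comp_apply, h0]) ?_ h3
      filter_upwards [hm] with s hs
      exact h1.maps _ hs

end Pool.Agent.H57.CR
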