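import Pool.Agent.H57.CR.SDefs
import Pool.Agent.H57.CR.ExP
import Pool.Agent.H57.CR.ExLin
import Pool.Agent.H57.CR.GraphSub
import Pool.Agent.H57.CR.SComp

/-!
# The straightened Lagrangian is a graph (module GLag)

`C = sg A '' S`, `y ∈ C` is `y = sg A z` for a unique `z = Gs y ∈ S`. Put `s Q = (F (Gs (h Q))).2`.

PROOFS.
* `str_symp`: `SympDiffeo N ⊥ F F'`: fields of `Str`; `equiv`: `g = 0`, `tr 0 z = z`; `symp`: `presOm_of` with `G z = a (sg A z)`.
* `str_image`: `Q ∈ N`: `y = h Q ∈ C`, `z = Gs y ∈ S`, `sg A z = y`, `(F z).1 = R (b y) z.1 = R (b y) y.1 = Q` (`Str.fst`, `h1`), so `(Q, s Q) = F z ∈ F '' S`. Conversely `z ∈ S`, `y = sg A z ∈ C`, `Q = (F z).1 = R (b y) y.1 ∈ N` (`S ⊆ TN N`, `maps`), `h Q = y` (`h2`), `Gs (h Q) = z`, `(F z).2 = s Q`.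
* `str_s`: `SmoothOn N s`: `h` smooth on `N` with values in `C`, `Gs` smooth on `C` with values in `S ⊆ TN N`, `F` smooth on `TN N` (`sm_comp`, `sm_snd`).
* `str_lag`: `S' = F '' S`, `f' y = f (F' y) + a (sg A (F' y))`. `ne`, `subTN` clear; `sub, closed`: `str_image`, `graph_submfd`, `graph_closed`; `inv, finv`: `g = 0`; `bdd`: `graph_compact` (bounded); `F' y ∈ S` for `y ∈ S'` (`left`).
  `lag`: `v, w ∈ Tan S' y`, so in `Tan (TN N) y`; `(symp_symm str_symp).symp` gives `v', w'` with `Push (TN N) F' y v v'`, `om v' w' = om v w`; the curve of `v` lies in `S'`, its image under `F'` in `S`: `v' ∈ Tan S (F' y)`; `hL.lag`.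
  `prim`: `exLin` for `F'` with `G' y = -a (sg A (F' y))` (`LExact.symm'`, smooth by `sm_comp`, `sm_neg`), restricted to `S' ⊆ TN N`: `⟪(F' y₀).2, (F' y).1 - (F' y₀).1⟫ - ⟪y₀.2, y.1 - y₀.1⟫ + a (sg A (F' y)) - a (sg A (F' y₀)) = o(y - y₀)`; and `hL.prim` at `F' y₀` composed with `F'`:
  `f (F' y) - f (F' y₀) - ⟪(F' y₀).2, (F' y).1 - (F' y₀).1⟫ = o(F' y - F' y₀)`, `F' y - F' y₀ = O(y - y₀)` on `TN N` (`sm_ext`), `F'` continuous on `TN N` (`sm_cont`). Add.
-/

set_option autoImplicit false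
set_option linter.unusedSectionVars false

open scoped ContDiff Topology RealInnerProductSpace
open Set

namespace Pool.Agent.H57.CR

open Pool.Agent.H57.NL
open Pool.Agent.H2.TG (IsFlow)

variable {m n : ℕ} {N : Set (E m)} {A : E m →L[ℝ] E m} {R : ℝ → E m →L[ℝ] E m}
  {S : Set (E m × E m)} {f : E m × E m → ℝ} {O : Set (E m)} {b a ρ : E m × ℝ → ℝ}
  {J : E m × ℝ → E m × ℝ} {h : E m → E m × ℝ} {F F' : E m × E m → E m × E m}
  {Gs : E m × ℝ → E m × E m}

theorem str_symp (hN : IsSubmfd n N) (hF : Str N A R b a F F') : SympDiffeo N ⊥ F F' where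
  maps := hF.maps
  maps' := hF.maps'
  left := hF.left
  right := hF.right
  smooth := hF.smooth
  smooth' := hF.smooth'
  equiv := by
    intro g hg z _
    rw [AddSubgroup.mem_bot] at hg
    subst hg
    simp [tr]
  symp := presOm_of hN hF.smooth hF.smG hF.exact

theorem str_image (hL : ExactLag n N ⊥ S f) (hY : YD N A R (sg A '' S) O b a ρ J h)
    (hF : Str N A R b a F F') (hG : ∀ z ∈ S, Gs (sg A z) = z) :
    F '' S = {z | z.1 ∈ N ∧ z.2 = (fun Q => (F (Gs (h Q))).2) z.1} := by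
  ext x
  constructor
  · rintro ⟨z, hz, rfl⟩
    have hy : sg A z ∈ sg A '' S := ⟨z, hz, rfl⟩
    have hzN : z ∈ TN N := hL.subTN hz
    have hfst : (F z).1 = R (b (sg A z)) z.1 := hF.fst z hzN
    have hh : h (F z).1 = sg A z := by
      rw [hfst]
      exact hY.h2 (sg A z) hy
    refine ⟨(hF.maps z hzN).1, ?_⟩
    simp only
    rw [hh, hG z hz]
  · rintro ⟨h1, h2⟩
    obtain ⟨z, hz, hzy⟩ := hY.hC x.1 h1
    have hzN : z ∈ TN N := hL.subTN hz
    refine ⟨z, hz, ?_⟩
    have hG' : Gs (h x.1) = z := by rw [← hzy, hG z hz]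
    have h3 : (F z).1 = x.1 := by
      rw [hF.fst z hzN]
      have h4 := hY.h1 x.1 h1
      rw [← hzy] at h4
      exact h4
    apply Prod.ext h3
    rw [h2]
    simp only
    rw [hG']

theorem str_s (hL : ExactLag n N ⊥ S f) (hY : YD N A R (sg A '' S) O b a ρ J h)
    (hF : Str N A R b a F F') (hG : ∀ z ∈ S, Gs (sg A z) = z)
    (hGs : SmoothOn (sg A '' S) Gs) : SmoothOn N fun Q => (F (Gs (h Q))).2 := by
  have h1 : SmoothOn N fun Q => Gs (h Q) := sm_comp hY.hs hGs hY.hC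
  have h2 : ∀ Q ∈ N, Gs (h Q) ∈ TN N := by
    intro Q hQ
    obtain ⟨z, hz, hzy⟩ := hY.hC Q hQ
    rw [← hzy, hG z hz]
    exact hL.subTN hz
  exact sm_snd (sm_comp h1 hF.smooth h2)

theorem str_lag (hN : IsSubmfd n N) (hc : IsCompact N) (hL : ExactLag n N ⊥ S f)
    (hY : YD N A R (sg A '' S) O b a ρ J h) (hF : Str N A R b a F F')
    (hG : ∀ z ∈ S, Gs (sg A z) = z) (hGs : SmoothOn (sg A '' S) Gs) :
    ∃ f', ExactLag n N ⊥ (F '' S) f' := by
  have hI := str_image hL hY hF hG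
  have hs := str_s hL hY hF hG hGs
  have hsub : F '' S ⊆ TN N := by
    rintro _ ⟨z, hz, rfl⟩
    exact hF.maps z (hL.subTN hz)
  have hback : ∀ y ∈ F '' S, F' y ∈ S := by
    rintro _ ⟨z, hz, rfl⟩
    rw [hF.left z (hL.subTN hz)]
    exact hz
  refine ⟨fun y => f (F' y) + a (sg A (F' y)), ?_⟩
  refine
    { ne := hL.ne.image F
      sub := ?_
      closed := ?_
      subTN := hsub
      inv := ?_
      bdd := ?_
      lag := ?_
      prim := ?_
      finv := ?_ }
  · rw [hI]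
    exact graph_submfd hN hs
  · rw [hI]
    exact graph_closed hc.isClosed hs
  · intro g hg z hz
    rw [AddSubgroup.mem_bot] at hg
    subst hg
    simpa [tr] using hz
  · have h1 : IsCompact (F '' S) := by
      rw [hI]
      exact graph_compact hc hs
    obtain ⟨B, hB⟩ := h1.isBounded.exists_norm_le
    exact ⟨B, fun z hz => (norm_snd_le z).trans (hB z hz)⟩
  · intro z hz v hv w hw
    have hmono : ∀ u, u ∈ Tan (F '' S) z → u ∈ Tan (TN N) z := by
      rintro u ⟨γ, h0, h1, h2⟩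
      exact ⟨γ, h0, h1.mono fun s hs => hsub hs, h2⟩
    obtain ⟨v', w', hpv, hpw, hom⟩ := (symp_symm (str_symp hN hF)).symp z (hsub hz) v (hmono v hv) w
      (hmono w hw)
    have hT : ∀ u u', u ∈ Tan (F '' S) z → Push (TN N) F' z u u' → u' ∈ Tan S (F' z) := by
      rintro u u' ⟨γ, h0, h1, h2⟩ hp
      refine ⟨F' ∘ γ, ?_, ?_, ?_⟩
      · simp [h0]
      · exact h1.mono fun s hs => hback _ hs
      · exact hp γ h0 (h1.mono fun s hs => hsub hs) h2
    rw [← hom]
    exact hL.lag (F' z) (hback z hz) v' (hT v v' hv hpv) w' (hT w w' hw hpw)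
  · intro z hz
    have hzT := hsub hz
    have hL' : LExact N F' (fun z => -(a (sg A (F' z)))) :=
      LExact.symm' hF.exact hF.maps' hF.right
    have hc1 := sm_comp (T := TN N) (h := fun z => a (sg A z)) hF.smooth' hF.smG hF.maps'
    have hG' : SmoothOn (TN N) (fun z => -(a (sg A (F' z)))) := sm_neg hc1
    have e1 := (exLin hN hF.smooth' hG' hL' hzT).mono (nhdsWithin_mono z hsub)
    have hcont : Filter.Tendsto F' (𝓝[F '' S] z) (𝓝[S] (F' z)) := by
      rw [tendsto_nhdsWithin_iff]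
      refine ⟨?_, ?_⟩
      · exact (sm_cont hF.smooth' z hzT).tendsto.mono_left (nhdsWithin_mono z hsub)
      · filter_upwards [self_mem_nhdsWithin] with y hy
        exact hback y hy
    have e2 := (hL.prim (F' z) (hback z hz)).comp_tendsto hcont
    have e3 : (fun y => F' y - F' z) =O[𝓝[F '' S] z] (fun y => y - z) := by
      obtain ⟨G, g1, g2, g3⟩ := sm_ext hF.smooth' hzT
      have g4 : (fun y => G y - G z) =O[𝓝 z] (fun y => y - z) :=
        (g2.self_of_nhds.differentiableAt (by simp)).hasFDerivAt.isBigO_sub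
      refine (g4.mono nhdsWithin_le_nhds).congr' ?_ Filter.EventuallyEq.rfl
      filter_upwards [nhdsWithin_le_nhds g3, self_mem_nhdsWithin] with y hy hy2
      rw [hy (hsub hy2), g1]
    have e4 := e2.trans_isBigO e3
    refine (e4.add e1).congr' ?_ Filter.EventuallyEq.rfl
    refine Filter.Eventually.of_forall fun y => ?_
    simp only [Function.comp_apply]
    ring
  · intro g hg z hz
    rw [AddSubgroup.mem_bot] at hg
    subst hg
    simp [tr]

end Pool.Agent.H57.CR
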