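import Pool.Agent.H57.CR.GHyp

/-!
# Regular local equations and the smooth section over `C = sg A '' S` (module GReg)

PROOFS. `S` is compact (`g_cpt`: closed, `z.1 ∈ N` compact, `z.2` bounded by `hL.bdd`).
* `g_locEq`: let `x = sg A z₀`; `g_hyper`. At `x` not both `Du(x)(A x.1, 0) = 0` and `Du(x)(0, 1) = 0`: otherwise (`A x.1 ∈ Tan N x.1` by `circ_tan`, `0 ∈ Tan N`) there are `ξ, η ∈ Tan S z₀` with `ξ.1 = A x.1`, `η.1 = 0`, `⟪η.2, A x.1⟫ = 1` (`A 0 = 0`), and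
  `om ξ η = ⟪ξ.2, η.1⟫ - ⟪η.2, ξ.1⟫ = -1 ≠ 0` contradicts `hL.lag`. The condition is open in `y` (`fderiv` continuous on `W`): shrink `W`. For `y ∈ sg A '' S` near `x`, `y ∈ sg A '' (S ∩ O)`: `sg A '' (S \ O)` is compact and does not contain `x` (`hE.inj`).
* `g_section`: `Gs` is a left inverse of `sg A` on `S` (`Function.invFunOn`), unique by `hE.inj`; near `x = sg A z₀` it agrees on `sg A '' S` with `G` of `g_hyper` (the same shrinking).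
-/

set_option autoImplicit false
set_option linter.unusedSectionVars false

open scoped ContDiff Topology RealInnerProductSpace
open Set

namespace Pool.Agent.H57.CR

open Pool.Agent.H57.NL
open Pool.Agent.H2.TG (IsFlow)

variable {m n : ℕ} {N : Set (E m)} {A : E m →L[ℝ] E m} {R : ℝ → E m →L[ℝ] E m}
  {S : Set (E m × E m)} {f : E m × E m → ℝ}

theorem g_cpt (hc : IsCompact N) (hL : ExactLag n N ⊥ S f) : IsCompact S := by
  obtain ⟨R, hR⟩ := hL.bdd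
  refine (hc.prod (isCompact_closedBall (0 : E m) R)).of_isClosed_subset hL.closed fun z hz => ?_
  exact ⟨(hL.subTN hz).1, by rw [Metric.mem_closedBall, dist_zero_right]; exact hR z hz⟩

private theorem greg_cont : Continuous (sg A) := by
  unfold sg
  exact continuous_fst.prodMk (continuous_snd.inner (A.continuous.comp continuous_fst))

private theorem greg_open (hc : IsCompact N) (hL : ExactLag n N ⊥ S f) {O : Set (E m × E m)}
    (hO : IsOpen O) : IsOpen (sg A '' (S \ O))ᶜ :=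
  (((g_cpt hc hL).diff hO).image greg_cont).isClosed.isOpen_compl

private theorem greg_notMem (hE : Emb A S) {z₀ : E m × E m} (hz : z₀ ∈ S) {O : Set (E m × E m)}
    (hO : z₀ ∈ O) : sg A z₀ ∈ (sg A '' (S \ O))ᶜ := by
  rintro ⟨z, ⟨h1, h2⟩, h3⟩
  have := hE.inj z h1 z₀ hz h3
  rw [this] at h2
  exact h2 hO

theorem g_locEq (hN : IsSubmfd n N) (hc : IsCompact N) (hR : Circ N A R)
    (hL : ExactLag n N ⊥ S f) (hE : Emb A S) {x : E m × ℝ} (hx : x ∈ sg A '' S) :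
    ∃ (W : Set (E m × ℝ)) (u : E m × ℝ → ℝ), IsOpen W ∧ x ∈ W ∧ ContDiffOn ℝ ∞ u W ∧
      (∀ y ∈ W, y.1 ∈ N → (y ∈ sg A '' S ↔ u y = 0)) ∧
      ∀ y ∈ W, ¬ (fderiv ℝ u y (A y.1, 0) = 0 ∧ fderiv ℝ u y (0, 1) = 0) := by
  obtain ⟨z₀, hz, rfl⟩ := hx
  obtain ⟨O, W, u, G, hO, hW, hz0, hxW, hu, -, heq, -, htan⟩ := g_hyper hN hL hE hz
  have hzN : z₀.1 ∈ N := (hL.subTN hz).1
  have hreg : ¬ (fderiv ℝ u (sg A z₀) (A (sg A z₀).1, 0) = 0 ∧
      fderiv ℝ u (sg A z₀) (0, 1) = 0) := by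
    rintro ⟨h1, h2⟩
    have t0 : (0 : E m) ∈ Tan N z₀.1 :=
      ⟨fun _ => z₀.1, rfl, Filter.Eventually.of_forall fun _ => hzN, hasDerivAt_const _ _⟩
    obtain ⟨ξ, hξ, e1⟩ := htan (A z₀.1, 0) (circ_tan hR hzN) h1
    obtain ⟨η, hη, e2⟩ := htan (0, 1) t0 h2
    have e3 : A z₀.1 = ξ.1 := congrArg Prod.fst e1
    have e4 : (0 : E m) = η.1 := congrArg Prod.fst e2
    have e5 : (1 : ℝ) = ⟪η.2, A z₀.1⟫ + ⟪z₀.2, A η.1⟫ := congrArg Prod.snd e2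
    have h3 := hL.lag z₀ hz ξ hξ η hη
    unfold om at h3
    rw [← e4, map_zero, inner_zero_right, add_zero] at e5
    rw [← e3, ← e4, ← e5, inner_zero_right] at h3
    norm_num at h3
  have c1 : ContinuousOn (fderiv ℝ u) W := hu.continuousOn_fderiv_of_isOpen hW (by simp)
  have c2 : ContinuousOn (fun y : E m × ℝ => (fderiv ℝ u y (A y.1, 0), fderiv ℝ u y (0, 1))) W := by
    refine ContinuousOn.prodMk ?_ ?_
    · exact c1.clm_apply ((A.continuous.comp continuous_fst).prodMk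
        continuous_const).continuousOn
    · exact c1.clm_apply continuousOn_const
  have hop : IsOpen ({((0 : ℝ), (0 : ℝ))}ᶜ : Set (ℝ × ℝ)) := isOpen_compl_singleton
  have hW1 := c2.isOpen_inter_preimage hW hop
  refine ⟨(W ∩ (fun y : E m × ℝ => (fderiv ℝ u y (A y.1, 0), fderiv ℝ u y (0, 1))) ⁻¹'
    {((0 : ℝ), (0 : ℝ))}ᶜ) ∩ (sg A '' (S \ O))ᶜ, u, hW1.inter (greg_open hc hL hO),
    ⟨⟨hxW, ?_⟩, greg_notMem hE hz hz0⟩, hu.mono fun y hy => hy.1.1, ?_, ?_⟩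
  · intro h1
    have h2 : (fderiv ℝ u (sg A z₀) (A (sg A z₀).1, 0), fderiv ℝ u (sg A z₀) (0, 1)) =
      ((0 : ℝ), (0 : ℝ)) := h1
    exact hreg ⟨congrArg Prod.fst h2, congrArg Prod.snd h2⟩
  · rintro y ⟨⟨h1, -⟩, h2⟩ hy
    rw [heq y h1 hy]
    constructor
    · rintro ⟨z, hz, rfl⟩
      by_cases h3 : z ∈ O
      · exact ⟨z, ⟨hz, h3⟩, rfl⟩
      · exact absurd ⟨z, ⟨hz, h3⟩, rfl⟩ h2
    · rintro ⟨z, ⟨hz, -⟩, rfl⟩
      exact ⟨z, hz, rfl⟩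
  · rintro y ⟨⟨-, h1⟩, -⟩ ⟨h2, h3⟩
    refine h1 ?_
    change (fderiv ℝ u y (A y.1, 0), fderiv ℝ u y (0, 1)) = ((0 : ℝ), (0 : ℝ))
    rw [h2, h3]

theorem g_section (hN : IsSubmfd n N) (hc : IsCompact N) (hL : ExactLag n N ⊥ S f)
    (hE : Emb A S) : ∃ Gs : E m × ℝ → E m × E m, (∀ z ∈ S, Gs (sg A z) = z) ∧
      SmoothOn (sg A '' S) Gs := by
  have hG : ∀ z ∈ S, Function.invFunOn (sg A) S (sg A z) = z := fun z hz => by
    have h1 : ∃ a ∈ S, sg A a = sg A z := ⟨z, hz, rfl⟩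
    exact hE.inj _ (Function.invFunOn_mem h1) z hz (Function.invFunOn_eq h1)
  refine ⟨Function.invFunOn (sg A) S, hG, ?_⟩
  rintro x ⟨z₀, hz, rfl⟩
  obtain ⟨O, W, u, G, hO, hW, hz0, hxW, -, hGs, -, hGz, -⟩ := g_hyper hN hL hE hz
  refine ⟨G, W ∩ (sg A '' (S \ O))ᶜ, hW.inter (greg_open hc hL hO),
    ⟨hxW, greg_notMem hE hz hz0⟩, hGs.mono inter_subset_left, ?_⟩
  rintro _ ⟨⟨h1, h2⟩, z, hz', rfl⟩
  rw [hG z hz']
  by_cases h3 : z ∈ O
  · exact (hGz z ⟨hz', h3⟩ h1).symm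
  · exact absurd ⟨z, ⟨hz', h3⟩, rfl⟩ h2

end Pool.Agent.H57.CR
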