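import Pool.Agent.H57.CR.GEq
import Pool.Agent.H2.TG.Glue

/-!
# The global phase function (module GTheta)

PROOF. `M` is larger than `|r|` on `K` and positive (`hL.fam.bdd`). `exists_glue` on `V = E m × ℝ` with `t y = Adm N K Λ M (y.1, 0, y.2)` (convex: `adm_convex`); local sections: `th_local` at `(y.1, 0, y.2)`, composed with `y ↦ (y.1, 0, y.2)`. This gives `Θ : E m × ℝ → ℝ` smooth with
`Θ y ∈ Adm N K Λ M (y.1, 0, y.2)` for all `y`. Put `θ x = Θ (act R x)`: smooth (`act_smooth`); `θ (q, t + s, r) = θ (R s q, t, r)` by `act_add`; zero for `|r| ≥ M` (third condition in `Adm`, valid for all `y`); for `q ∈ N`: `θ (q, t, r) = Θ (R t q, r) ∈ Adm (R t q, 0, r) = Adm (q, 0 + t, r)` by `adm_eq`.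
-/

set_option autoImplicit false
set_option linter.unusedSectionVars false

open scoped ContDiff Topology RealInnerProductSpace
open Set

namespace Pool.Agent.H57.CR

open Pool.Agent.H57.NL
open Pool.Agent.H2.TG (IsFlow)

variable {m : ℕ} {N : Set (E m)} {A : E m →L[ℝ] E m} {R : ℝ → E m →L[ℝ] E m}
  {C : Set (E m × ℝ)} {f : E m × ℝ × ℝ → ℝ} {κ : (E m × ℝ × ℝ) × ℝ → ℝ}
  {Λ : ℝ → (E m × ℝ × ℝ) × ℝ → (E m × ℝ × ℝ) × ℝ}

theorem exists_theta (hR : Circ N A R) (hL : Leaf N (Kf N R C) f κ Λ) :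
    ∃ (θ : E m × ℝ × ℝ → ℝ) (M : ℝ), 0 < M ∧ (∀ x ∈ Kf N R C, |x.2.2| < M) ∧
      ContDiff ℝ ∞ θ ∧ (∀ (q : E m) (s t r : ℝ), θ (q, t + s, r) = θ (R s q, t, r)) ∧
      (∀ x : E m × ℝ × ℝ, M ≤ |x.2.2| → θ x = 0) ∧
      ∀ x : E m × ℝ × ℝ, x.1 ∈ N → θ x ∈ Adm N (Kf N R C) Λ M x := by
  obtain ⟨M₀, hM₀⟩ := hL.fam.bdd
  set M : ℝ := |M₀| + 1 with hMdef
  have hM0 : 0 < M := by positivity
  have hM : ∀ x ∈ Kf N R C, |x.2.2| < M := by
    intro x hx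
    have h1 := hM₀ x hx
    have h2 := le_abs_self M₀
    linarith
  obtain ⟨Θ, hΘ, hΘA⟩ := Pool.Agent.H2.TG.exists_glue (V := E m × ℝ)
    (fun y => Adm N (Kf N R C) Λ M (y.1, 0, y.2)) (fun y => adm_convex hL M _) (fun y => by
      obtain ⟨W, hW, hy, g, hg, hgA⟩ := th_local hL hM (y.1, 0, y.2)
      have hc : ContDiff ℝ ∞ (fun z : E m × ℝ => ((z.1, 0, z.2) : E m × ℝ × ℝ)) := by
        fun_prop
      refine ⟨(fun z : E m × ℝ => ((z.1, 0, z.2) : E m × ℝ × ℝ)) ⁻¹' W, hW.preimage hc.continuous,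
        hy, fun z => g (z.1, 0, z.2), ?_, fun z hz => hgA _ hz⟩
      exact hg.comp hc.contDiffOn fun z hz => hz)
  refine ⟨fun x => Θ (act R x), M, hM0, hM, hΘ.comp (act_smooth hR), ?_, ?_, ?_⟩
  · intro q s t r
    change Θ (act R (q, t + s, r)) = Θ (act R (R s q, t, r))
    congr 1
    change (R (t + s) q, r) = (R t (R s q), r)
    rw [hR.add]
  · intro x hx
    exact (hΘA (act R x)).2.2 hx
  · rintro ⟨q, t, r⟩ hq
    have h1 := hΘA (act R (q, t, r))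
    have h2 : Adm N (Kf N R C) Λ M (q, 0 + t, r) = Adm N (Kf N R C) Λ M (R t q, 0, r) :=
      adm_eq hR hL M t hq 0 r
    rw [zero_add] at h2
    rw [h2]
    exact h1

end Pool.Agent.H57.CR
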