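import Pool.Agent.H57.CR.ZRho
import Pool.Agent.H57.NL.Loc

/-!
# The straightening is invertible in every plane (module ZInv)

PORT of `Pool/Agent/H2/TG/Rhat.lean`, over the open set `O`. For `q ∈ O` the map `y ↦ (B (q, y), ρ (q, y))` of the plane is bijective: along an orbit `B` is constant and `ρ` strictly increasing (`posρ`, `fderiv ρ (XZ θ) = dpl ρ (- sin θ) (cos θ)`), from
`-∞` (the orbit through `(q, B, -M)`, `botρ`, `z_down`) to `∞` (`top`); two points of the plane with the same `B` are on the same orbit (`orb`). Let `I (q, y')` be the inverse. Smooth near `(q₀, y₀')`, `q₀ ∈ O`: the map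
`F (q, y) = (q, B (q, y), ρ (q, y))` is smooth on `O ×ˢ univ`; its derivative at `(q₀, y₀)` is injective: if `DF (w, a, b) = 0` then `w = 0`, `dpl B a b = 0`, `dpl ρ a b = 0`, so `(a, b) = c (- sin θ, cos θ)` (`ker`) and `c = 0` (`posρ`). Inverse function
theorem (`smooth_inverse` in `H57/NL/Loc.lean` or `ContDiffAt.toOpenPartialHomeomorph`, `P × ℝ × ℝ` is finite dimensional); the local inverse agrees with `(q, I (q, y'))` near `(q₀, y₀')` by injectivity.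
-/

set_option autoImplicit false
set_option linter.unusedSectionVars false

open scoped ContDiff Topology
open Set

namespace Pool.Agent.H57.CR

open Pool.Agent.H2.TG (IsFlow)
open Pool.Agent.H57.NL (smooth_inverse)

variable {P : Type} [NormedAddCommGroup P] [NormedSpace ℝ P] [FiniteDimensional ℝ P]

variable {N O : Set P} {θ : P × ℝ × ℝ → ℝ} {M τ : ℝ} {Ψ : ℝ → P × ℝ × ℝ → P × ℝ × ℝ}
  {B A ρ : P × ℝ × ℝ → ℝ}

private theorem zi_mem (h : GF N O θ M τ Ψ) {x : P × ℝ × ℝ} (hx : x.1 ∈ O) :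
    (O ×ˢ (univ : Set (ℝ × ℝ))) ∈ 𝓝 x :=
  (h.openO.prod isOpen_univ).mem_nhds ⟨hx, mem_univ _⟩

private theorem zi_at (h : GF N O θ M τ Ψ) {u : P × ℝ × ℝ → ℝ}
    (hu : ContDiffOn ℝ ∞ u (O ×ˢ univ)) {x : P × ℝ × ℝ} (hx : x.1 ∈ O) :
    HasFDerivAt u (fderiv ℝ u x) x :=
  ((hu.contDiffAt (zi_mem h hx)).differentiableAt (by simp)).hasFDerivAt

private theorem zi_deriv (h : GF N O θ M τ Ψ) (hS : SD O θ M Ψ B A ρ) {x : P × ℝ × ℝ}
    (hx : x.1 ∈ O) (t : ℝ) : HasDerivAt (fun t => ρ (Ψ t x))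
      (dpl ρ (Ψ t x) (-Real.sin (θ (Ψ t x))) (Real.cos (θ (Ψ t x)))) t := by
  have h0 : (Ψ t x).1 ∈ O := by rw [z_fst h.flow]; exact hx
  exact (zi_at h hS.sρ h0).comp_hasDerivAt t (h.flow.deriv x t)

private theorem zi_mono (h : GF N O θ M τ Ψ) (hS : SD O θ M Ψ B A ρ) {x : P × ℝ × ℝ}
    (hx : x.1 ∈ O) : StrictMono (fun t => ρ (Ψ t x)) := by
  apply strictMono_of_deriv_pos
  intro t
  rw [(zi_deriv h hS hx t).deriv]
  exact hS.posρ _ (by rw [z_fst h.flow]; exact hx)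

private theorem zi_surj (h : GF N O θ M τ Ψ) (hS : SD O θ M Ψ B A ρ) {q : P} (hq : q ∈ O)
    (Q : ℝ) : Function.Surjective (fun t => ρ (Ψ t (q, Q, -M))) := by
  have hc : Continuous (fun t => ρ (Ψ t (q, Q, -M))) :=
    continuous_iff_continuousAt.2 fun t => (zi_deriv h hS (x := (q, Q, -M)) hq t).continuousAt
  refine hc.surjective (hS.top _ hq) ?_
  have h1 : Filter.Tendsto (fun t : ℝ => -M + t) Filter.atBot Filter.atBot :=
    Filter.tendsto_atBot_add_const_left _ _ Filter.tendsto_id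
  refine h1.congr' ?_
  filter_upwards [Filter.eventually_le_atBot (0 : ℝ)] with t ht
  have h2 : Ψ t (q, Q, -M) = (q, Q, -M + t) := z_down h (x := (q, Q, -M)) (le_refl _) ht
  rw [h2]
  have h3 : ((q, Q, -M + t) : P × ℝ × ℝ).2.2 ≤ -M := by
    show -M + t ≤ -M
    linarith
  rw [hS.botρ _ hq h3]

private theorem zi_inj (h : GF N O θ M τ Ψ) (hS : SD O θ M Ψ B A ρ) {x y : P × ℝ × ℝ}
    (hx : x.1 ∈ O) (hy : y.1 = x.1) (h1 : B x = B y) (h2 : ρ x = ρ y) : x = y := by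
  have hX := XZ_contDiff h.smooth
  obtain ⟨s, hs⟩ := hS.botZ.orb x hx
  obtain ⟨t, ht⟩ := hS.botZ.orb y (by rw [hy]; exact hx)
  have h3 : Ψ s x = Ψ t y := by rw [hs, ht, h1, hy]
  have h4 : y = Ψ (-t + s) x := by
    rw [← h.flow.add hX, h3, h.flow.add hX, neg_add_cancel, h.flow.zero]
  have h5 : ρ (Ψ (-t + s) x) = ρ (Ψ 0 x) := by
    rw [← h4, h.flow.zero, h2]
  have h6 : -t + s = 0 := (zi_mono h hS hx).injective h5
  rw [h4, h6, h.flow.zero]

theorem exists_inv (h : GF N O θ M τ Ψ) (hS : SD O θ M Ψ B A ρ) : ∃ I : P × ℝ × ℝ → ℝ × ℝ,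
    ContDiffOn ℝ ∞ I (O ×ˢ univ) ∧ (∀ x : P × ℝ × ℝ, x.1 ∈ O → I (x.1, B x, ρ x) = x.2) ∧
      ∀ x : P × ℝ × ℝ, x.1 ∈ O → B (x.1, I x) = x.2.1 ∧ ρ (x.1, I x) = x.2.2 := by
  have hex : ∀ y : P × ℝ × ℝ, ∃ z : ℝ × ℝ, y.1 ∈ O → B (y.1, z) = y.2.1 ∧ ρ (y.1, z) = y.2.2 := by
    intro y
    by_cases hy : y.1 ∈ O
    · obtain ⟨t, ht⟩ := zi_surj h hS hy y.2.1 y.2.2
      refine ⟨(Ψ t (y.1, y.2.1, -M)).2, fun _ => ?_⟩
      have h1 : (y.1, (Ψ t (y.1, y.2.1, -M)).2) = Ψ t (y.1, y.2.1, -M) :=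
        Prod.ext (z_fst h.flow t (y.1, y.2.1, -M)).symm rfl
      rw [h1]
      have h2 : B (Ψ t (y.1, y.2.1, -M)) = B (y.1, y.2.1, -M) := hS.botZ.inv t (y.1, y.2.1, -M) hy
      have h3 : B (y.1, y.2.1, -M) = y.2.1 := hS.botZ.bot (y.1, y.2.1, -M) hy (le_refl _)
      exact ⟨h2.trans h3, ht⟩
    · exact ⟨0, fun h => absurd h hy⟩
  choose I hI using hex
  have hleft : ∀ x : P × ℝ × ℝ, x.1 ∈ O → I (x.1, B x, ρ x) = x.2 := by
    intro x hx
    have h1 := hI (x.1, B x, ρ x) hx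
    have h2 : (x.1, I (x.1, B x, ρ x)) = x :=
      zi_inj h hS (x := (x.1, I (x.1, B x, ρ x))) hx rfl h1.1 h1.2
    exact congrArg Prod.snd h2
  refine ⟨I, ?_, hleft, hI⟩
  let F : P × ℝ × ℝ → P × ℝ × ℝ := fun x => (x.1, B x, ρ x)
  have hFs : ∀ x : P × ℝ × ℝ, x.1 ∈ O → ContDiffAt ℝ ∞ F x := fun x hx =>
    contDiffAt_fst.prodMk ((hS.botZ.smooth.contDiffAt (zi_mem h hx)).prodMk
      (hS.sρ.contDiffAt (zi_mem h hx)))
  rintro b ⟨hb, -⟩
  set a : P × ℝ × ℝ := (b.1, I b) with ha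
  have haO : a.1 ∈ O := hb
  have hFa : F a = b := Prod.ext rfl (Prod.ext (hI b hb).1 (hI b hb).2)
  have hinj : Function.Injective (fderiv ℝ F a) := by
    rw [injective_iff_map_eq_zero]
    intro w hw
    have h1 := zi_at h hS.botZ.smooth haO
    have h2 := zi_at h hS.sρ haO
    have h3 : fderiv ℝ F a = (ContinuousLinearMap.fst ℝ P (ℝ × ℝ)).prod
        ((fderiv ℝ B a).prod (fderiv ℝ ρ a)) :=
      (hasFDerivAt_fst.prodMk (h1.prodMk h2)).fderiv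
    rw [h3] at hw
    have hw1 : w.1 = 0 := congrArg Prod.fst hw
    have hwe : w = (0, w.2.1, w.2.2) := Prod.ext hw1 rfl
    have h4 : fderiv ℝ B a w = 0 := congrArg (fun z : P × ℝ × ℝ => z.2.1) hw
    have h5 : fderiv ℝ ρ a w = 0 := congrArg (fun z : P × ℝ × ℝ => z.2.2) hw
    rw [hwe] at h4 h5
    obtain ⟨c, hc1, hc2⟩ := hS.botZ.ker a haO _ _ h4
    have h6 : ((0, w.2.1, w.2.2) : P × ℝ × ℝ)
        = c • ((0, -Real.sin (θ a), Real.cos (θ a)) : P × ℝ × ℝ) := by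
      rw [hc1, hc2]
      simp
    rw [h6, map_smul, smul_eq_mul, mul_eq_zero] at h5
    rcases h5 with h5 | h5
    · rw [hwe, h6, h5, zero_smul]
    · exact absurd h5 (hS.posρ a haO).ne'
  obtain ⟨Φ, hΦ, hsrc, hsm⟩ := smooth_inverse rfl
    (Filter.eventually_of_mem (zi_mem h haO) fun x hx => hFs x hx.1) hinj
  rw [hFa] at hsm
  have hbt : b ∈ Φ.target := by
    have := Φ.map_source hsrc
    rw [hΦ, hFa] at this
    exact this
  have h7 : ContDiffAt ℝ ∞ (fun c => (Φ.symm c).2) b := hsm.self_of_nhds.snd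
  refine (h7.congr_of_eventuallyEq ?_).contDiffWithinAt
  filter_upwards [Φ.open_target.mem_nhds hbt, zi_mem h hb] with c hc hcO
  have h1 : F (Φ.symm c) = c := by
    rw [← hΦ]
    exact Φ.right_inv hc
  have h8' : (F (Φ.symm c)).1 = c.1 := congrArg Prod.fst h1
  have h8 : (Φ.symm c).1 = c.1 := h8'
  have h9 := hleft (Φ.symm c) (by rw [h8]; exact hcO.1)
  rw [← h9]
  exact congrArg I h1.symm

end Pool.Agent.H57.CR
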