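import Pool.Agent.H57.CR.ZRho

/-!
# Equivariance of the straightening data (module ZEq)

PROOFS. Let `θ (q, t + s, r) = θ (q', t, r)` for all `t, r`.
* `B`: by `z_low` take `t'` large for both points; `BotZ.val` and `z_shift`: `B (q, t + s, r) = (Ψ (-t') (q, t + s, r)).2.1 = (Ψ (-t') (q', t, r)).2.1 + s = B (q', t, r) + s`.
* `A`: `along` with the time `-t'` and `ActZ.bot` at the bottom: `0 = A (Ψ (-t') x) = A x + ∫_0^{-t'} g (Ψ s' x) ds'`; the integrands agree by `z_shift` and `he`.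
* `dpl` of `B`, `A` at `(q, t + s, r)` and `(q', t, r)` agree: `dpl u (q, y) a b` is the derivative of the restriction of `u` to the plane of `q` (`q ∈ O`: `u` is differentiable at `(q, y)`); `ρ`: from `SD.id` with `(a, b) = (cos θ, sin θ)` and `posB`.
-/

set_option autoImplicit false
set_option linter.unusedSectionVars false

open scoped ContDiff Topology
open Set

namespace Pool.Agent.H57.CR

open Pool.Agent.H2.TG (IsFlow)

variable {P : Type} [NormedAddCommGroup P] [NormedSpace ℝ P] [FiniteDimensional ℝ P]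

variable {N O : Set P} {θ : P × ℝ × ℝ → ℝ} {M τ : ℝ} {Ψ : ℝ → P × ℝ × ℝ → P × ℝ × ℝ}
  {B A ρ : P × ℝ × ℝ → ℝ}

private theorem zeq_dpl {u : P × ℝ × ℝ → ℝ} {q : P} {y : ℝ × ℝ}
    (hu : DifferentiableAt ℝ u (q, y)) (a b : ℝ) :
    dpl u (q, y) a b = fderiv ℝ (fun y => u (q, y)) y (a, b) := by
  have h1 : HasFDerivAt (fun y : ℝ × ℝ => u (q, y))
      ((fderiv ℝ u (q, y)).comp (ContinuousLinearMap.inr ℝ P (ℝ × ℝ))) y :=
    hu.hasFDerivAt.comp y (hasFDerivAt_prodMk_right q y)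
  rw [h1.fderiv]
  rfl

private theorem zeq_diff (hO : IsOpen O) {u : P × ℝ × ℝ → ℝ}
    (hu : ContDiffOn ℝ ∞ u (O ×ˢ univ)) {q : P} (hq : q ∈ O) (y : ℝ × ℝ) :
    DifferentiableAt ℝ u (q, y) :=
  (hu.contDiffAt ((hO.prod isOpen_univ).mem_nhds ⟨hq, trivial⟩)).differentiableAt (by simp)

private theorem zeq_trans {u : P × ℝ × ℝ → ℝ} {q q' : P} {s c : ℝ}
    (he : ∀ t r : ℝ, u (q, t + s, r) = u (q', t, r) + c) {t r : ℝ}
    (hu : DifferentiableAt ℝ u (q, t + s, r)) (hu' : DifferentiableAt ℝ u (q', t, r)) (a b : ℝ) :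
    dpl u (q, t + s, r) a b = dpl u (q', t, r) a b := by
  rw [zeq_dpl hu, zeq_dpl hu']
  have h1 : (fun y : ℝ × ℝ => u (q, y + (s, 0))) = fun y => u (q', y) + c := by
    funext y
    have h2 := he y.1 y.2
    have h3 : (y.1 + s, y.2) = y + (s, 0) := by
      ext <;> simp
    rw [h3] at h2
    exact h2
  have h4 := fderiv_comp_add_right (𝕜 := ℝ) (f := fun y : ℝ × ℝ => u (q, y)) (x := (t, r)) (s, 0)
  have h5 : ((t, r) : ℝ × ℝ) + (s, 0) = (t + s, r) := by
    ext <;> simp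
  rw [h5] at h4
  rw [← h4, h1, fderiv_add_const]

theorem sd_eq (h : GF N O θ M τ Ψ) (hS : SD O θ M Ψ B A ρ) {q q' : P} (hq : q ∈ O) (hq' : q' ∈ O)
    {s : ℝ} (he : ∀ t r : ℝ, θ (q, t + s, r) = θ (q', t, r)) (t r : ℝ) :
    B (q, t + s, r) = B (q', t, r) + s ∧ A (q, t + s, r) = A (q', t, r) ∧
      ρ (q, t + s, r) = ρ (q', t, r) := by
  have hsh := fun w t r => z_shift h.smooth h.flow he w t r
  have hB : ∀ t r : ℝ, B (q, t + s, r) = B (q', t, r) + s := by
    intro t r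
    obtain ⟨τ₁, -, hlow⟩ := z_low h r
    have h1 := hlow (q, t + s, r) hq le_rfl τ₁ le_rfl
    have h2 := hlow (q', t, r) hq' le_rfl τ₁ le_rfl
    rw [hS.botZ.val _ τ₁ hq h1, hS.botZ.val _ τ₁ hq' h2, hsh]
  have hA : ∀ t r : ℝ, A (q, t + s, r) = A (q', t, r) + 0 := by
    intro t r
    obtain ⟨τ₁, -, hlow⟩ := z_low h r
    have h1 := hlow (q, t + s, r) hq le_rfl τ₁ le_rfl
    have h2 := hlow (q', t, r) hq' le_rfl τ₁ le_rfl
    have h3 := hS.actZ.along (q, t + s, r) (-τ₁) hq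
    have h4 := hS.actZ.along (q', t, r) (-τ₁) hq'
    rw [hS.actZ.bot _ (by rw [z_fst h.flow]; exact hq) h1] at h3
    rw [hS.actZ.bot _ (by rw [z_fst h.flow]; exact hq') h2] at h4
    have h5 : (fun w => (Ψ w (q, t + s, r)).2.2 * Real.sin (θ (Ψ w (q, t + s, r)))) =
        fun w => (Ψ w (q', t, r)).2.2 * Real.sin (θ (Ψ w (q', t, r))) := by
      funext w
      rw [hsh]
      simp only
      rw [he]
      have h6 : (q', (Ψ w (q', t, r)).2.1, (Ψ w (q', t, r)).2.2) = Ψ w (q', t, r) := by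
        refine Prod.ext ?_ rfl
        exact (z_fst h.flow w (q', t, r)).symm
      rw [h6]
    rw [h5] at h3
    linarith
  refine ⟨hB t r, by rw [hA t r, add_zero], ?_⟩
  have hO := h.openO
  have e1 : θ (q, t + s, r) = θ (q', t, r) := he t r
  have dB := zeq_trans hB (zeq_diff hO hS.botZ.smooth hq (t + s, r))
    (zeq_diff hO hS.botZ.smooth hq' (t, r)) (Real.cos (θ (q', t, r))) (Real.sin (θ (q', t, r)))
  have dA := zeq_trans hA (zeq_diff hO hS.actZ.smooth hq (t + s, r))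
    (zeq_diff hO hS.actZ.smooth hq' (t, r)) (Real.cos (θ (q', t, r))) (Real.sin (θ (q', t, r)))
  have i1 := hS.id (q, t + s, r) hq (Real.cos (θ (q', t, r))) (Real.sin (θ (q', t, r)))
  have i2 := hS.id (q', t, r) hq' (Real.cos (θ (q', t, r))) (Real.sin (θ (q', t, r)))
  have hp := hS.posB (q', t, r) hq'
  rw [dA, dB] at i1
  have i3 : ρ (q, t + s, r) * dpl B (q', t, r) (Real.cos (θ (q', t, r)))
      (Real.sin (θ (q', t, r))) = ρ (q', t, r) * dpl B (q', t, r) (Real.cos (θ (q', t, r)))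
      (Real.sin (θ (q', t, r))) := by
    rw [← i1, ← i2]
  exact mul_right_cancel₀ hp.ne' i3

end Pool.Agent.H57.CR
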