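import Pool.Agent.H57.CR.FamG
import Pool.Agent.H57.CR.ZEq
import Pool.Agent.H57.NL.Loc

/-!
# The points of `K` with bottom coordinate zero (module ZSec)

Every plane over `q ∈ N` contains exactly one point of `K` with `B = 0`; it depends smoothly on `q`.

PROOFS. Let `q ∈ N`, `x ∈ Gd` over `q` (`fib_ne`, `good_exists`), `c s = (Λ s x).1`, `g s = B (c s)`. Every point of `K` over `q` is `c s` for some `s` (`one_K`). `g' s = dpl B (c s) (cos φ) (sin φ)` with `φ = (Λ s x).2 = θ (c s)` (`good_leaf`, `hadm`, `good_unique`), so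
`g' > 0` (`posB`): `g` is strictly increasing. With `Closes Λ x T 1 0` (`good_closes`): `g (s + T) = g s + 1` (`closes_add`, `sd_eq` with `q' = q`, `s = 1`, `hper`), so `g` takes the value `0` exactly once. This gives `g₀ q` (a point of the plane) and the uniqueness.
Smoothness near `q₀ ∈ N`: let `y₀ = g₀ q₀`, `W, u` a local equation at `(q₀, y₀) ∈ K`. The map `F (q, y) = (q, u (q, y), B (q, y))` is smooth near `(q₀, y₀)` with injective derivative: if `w = 0`, `dpl B a b = 0` then `(a, b) = c (- sin θ, cos θ)` (`ker`), and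
`dpl u (cos θ) (sin θ) = 0` (`(q₀, y₀, θ) ∈ PS`, `mem_PS`), `dpl u a b = 0` and `reg` give `c = 0` (otherwise `u_t = u_r = 0`). By the inverse function theorem there is a smooth `g₁` near `q₀` with `F (q, g₁ q) = (q, 0, 0)`, `(q, g₁ q) ∈ W`; for `q ∈ N` this means
`(q, g₁ q) ∈ K`, `B = 0`, so `g₁ q = g₀ q`.
-/

set_option autoImplicit false
set_option linter.unusedSectionVars false

open scoped ContDiff Topology
open Set

namespace Pool.Agent.H57.CR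

open Pool.Agent.H2.TG (IsFlow)

variable {P : Type} [NormedAddCommGroup P] [NormedSpace ℝ P] [FiniteDimensional ℝ P] {N : Set P}
  {K : Set (P × ℝ × ℝ)} {f : P × ℝ × ℝ → ℝ} {κ : (P × ℝ × ℝ) × ℝ → ℝ}
  {Λ : ℝ → (P × ℝ × ℝ) × ℝ → (P × ℝ × ℝ) × ℝ}

variable {O : Set P} {θ : P × ℝ × ℝ → ℝ} {M τ : ℝ} {Ψ : ℝ → P × ℝ × ℝ → P × ℝ × ℝ}
  {B A ρ : P × ℝ × ℝ → ℝ}

private theorem zsec_diff {O : Set P} (hO : IsOpen O) {B : P × ℝ × ℝ → ℝ}
    (hB : ContDiffOn ℝ ∞ B (O ×ˢ univ)) {x : P × ℝ × ℝ} (hx : x.1 ∈ O) : ContDiffAt ℝ ∞ B x :=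
  hB.contDiffAt ((hO.prod isOpen_univ).mem_nhds ⟨hx, mem_univ _⟩)

private theorem zsec_exu (hL : Leaf N K f κ Λ)
    (hper : ∀ (q : P) (t r : ℝ), θ (q, t + 1, r) = θ (q, t, r))
    (hadm : ∀ x : P × ℝ × ℝ, x.1 ∈ N → θ x ∈ Adm N K Λ M x)
    (h : GF N O θ M τ Ψ) (hS : SD O θ M Ψ B A ρ) {q : P} (hq : q ∈ N) :
    (∃ y : ℝ × ℝ, (q, y) ∈ K ∧ B (q, y) = 0) ∧
      ∀ y y' : ℝ × ℝ, (q, y) ∈ K → (q, y') ∈ K → B (q, y) = 0 → B (q, y') = 0 → y = y' := by
  have hqO : q ∈ O := h.sub hq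
  obtain ⟨t0, r0, hK⟩ := fib_ne hL.fam q hq
  obtain ⟨φ0, hG⟩ := good_exists hL hK
  set x : (P × ℝ × ℝ) × ℝ := ((q, t0, r0), φ0) with hxdef
  have hPS : x ∈ PS N K := hG.1
  have hc1 : ∀ s, (Λ s x).1.1 = q := fun s => leaf_q hL x s
  have hcK : ∀ s, (Λ s x).1 ∈ K := fun s => (leaf_mem hL hPS s).1
  have hθ : ∀ s, θ (Λ s x).1 = (Λ s x).2 := by
    intro s
    have h1 : Λ s x ∈ Gd N K Λ := good_leaf hL hG s
    have h2 : ((Λ s x).1, θ (Λ s x).1) ∈ Gd N K Λ := by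
      refine (hadm (Λ s x).1 ?_).1 (hcK s)
      rw [hc1 s]; exact hq
    exact good_unique hL h2 h1
  have hder : ∀ s, HasDerivAt (fun s => (Λ s x).1)
      ((0 : P), Real.cos (Λ s x).2, Real.sin (Λ s x).2) s := by
    intro s
    have h1 := hL.flow.deriv x s
    have h2 := (hasFDerivAt_fst (𝕜 := ℝ) (E := P × ℝ × ℝ) (F := ℝ) (p := Λ s x)).comp_hasDerivAt s h1
    exact h2
  have hg : ∀ s, HasDerivAt (fun s => B (Λ s x).1)
      (dpl B (Λ s x).1 (Real.cos (Λ s x).2) (Real.sin (Λ s x).2)) s := by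
    intro s
    have h1 : HasFDerivAt B (fderiv ℝ B (Λ s x).1) (Λ s x).1 := by
      refine ((zsec_diff h.openO hS.botZ.smooth ?_).differentiableAt (by simp)).hasFDerivAt
      rw [hc1 s]; exact hqO
    exact h1.comp_hasDerivAt s (hder s)
  have hpos : ∀ s, 0 < dpl B (Λ s x).1 (Real.cos (Λ s x).2) (Real.sin (Λ s x).2) := by
    intro s
    have := hS.posB (Λ s x).1 (by rw [hc1 s]; exact hqO)
    rwa [hθ s] at this
  have hmono : StrictMono (fun s => B (Λ s x).1) :=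
    strictMono_of_deriv_pos fun s => by rw [(hg s).deriv]; exact hpos s
  obtain ⟨T₀, hT₀, hcl⟩ := good_closes hL
  obtain ⟨T, hT, hC⟩ := hcl x hG
  have hadd : ∀ s, B (Λ (s + T) x).1 = B (Λ s x).1 + 1 := by
    intro s
    have h1 := closes_add hL hPS hC s
    have h2 : (Λ (s + T) x).1 = (q, (Λ s x).1.2.1 + 1, (Λ s x).1.2.2) := by
      rw [h1]
      simp only [shf, shp, hc1 s, Int.cast_one]
    have h3 : (Λ s x).1 = (q, (Λ s x).1.2.1, (Λ s x).1.2.2) := by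
      rw [← hc1 s]
    have h4 := (sd_eq h hS hqO hqO (s := 1) (fun t r => hper q t r) (Λ s x).1.2.1
      (Λ s x).1.2.2).1
    rw [h2, h4, ← h3]
  have hadd' : ∀ (n : ℕ) (s : ℝ), B (Λ (s + n * T) x).1 = B (Λ s x).1 + n := by
    intro n
    induction n with
    | zero => intro s; simp
    | succ n ih =>
      intro s
      have := hadd (s + n * T)
      rw [ih s] at this
      rw [show s + ((n + 1 : ℕ) : ℝ) * T = s + n * T + T by push_cast; ring, this]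
      push_cast; ring
  have hcont : Continuous (fun s => B (Λ s x).1) :=
    continuous_iff_continuousAt.2 fun s => (hg s).continuousAt
  have hex : (0 : ℝ) ∈ Set.range (fun s => B (Λ s x).1) := by
    obtain ⟨n, hn⟩ := exists_nat_ge |B (Λ 0 x).1|
    have hn2 := abs_le.1 hn
    refine mem_range_of_exists_le_of_exists_ge hcont ⟨0 - n * T, ?_⟩ ⟨0 + n * T, ?_⟩
    · have := hadd' n (0 - n * T)
      rw [sub_add_cancel] at this
      show B (Λ (0 - n * T) x).1 ≤ 0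
      linarith [hn2.2]
    · show 0 ≤ B (Λ (0 + n * T) x).1
      rw [hadd' n 0]
      linarith [hn2.1]
  refine ⟨?_, ?_⟩
  · obtain ⟨s, hs⟩ := hex
    refine ⟨(Λ s x).1.2, ?_, ?_⟩
    · have h3 : (q, (Λ s x).1.2) = (Λ s x).1 := by rw [← hc1 s]
      rw [h3]; exact hcK s
    · have h3 : (q, (Λ s x).1.2) = (Λ s x).1 := by rw [← hc1 s]
      rw [h3]; exact hs
  · intro y y' hy hy' hy0 hy0'
    obtain ⟨s, hs⟩ := one_K hL hPS hy rfl
    obtain ⟨s', hs'⟩ := one_K hL hPS hy' rfl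
    have e1 : B (Λ s x).1 = 0 := by rw [hs]; exact hy0
    have e2 : B (Λ s' x).1 = 0 := by rw [hs']; exact hy0'
    have e3 : s = s' := hmono.injective (e1.trans e2.symm)
    subst e3
    have := hs.symm.trans hs'
    exact (Prod.mk.injEq _ _ _ _ ▸ this).2

private theorem zsec_inj (hL : Leaf N K f κ Λ)
    (hadm : ∀ x : P × ℝ × ℝ, x.1 ∈ N → θ x ∈ Adm N K Λ M x)
    (h : GF N O θ M τ Ψ) (hS : SD O θ M Ψ B A ρ) {W : Set (P × ℝ × ℝ)} {u : P × ℝ × ℝ → ℝ}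
    (hW : LocEq N K W u) {x : P × ℝ × ℝ} (hx : x ∈ K) (hxW : x ∈ W) {a b : ℝ}
    (h1 : dpl u x a b = 0) (h2 : dpl B x a b = 0) : a = 0 ∧ b = 0 := by
  have hN : x.1 ∈ N := hL.fam.base x hx
  obtain ⟨c, hca, hcb⟩ := hS.botZ.ker x (h.sub hN) a b h2
  have hG : (x, θ x) ∈ Gd N K Λ := (hadm x hN).1 hx
  have h3 : dpl u x (Real.cos (θ x)) (Real.sin (θ x)) = 0 := (mem_PS hW hx hxW).1 hG.1
  have hreg := hW.reg x hxW
  rw [dpl_lin] at h1 h3
  have hcs := Real.sin_sq_add_cos_sq (θ x)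
  set p := dpl u x 1 0 with hp
  set r := dpl u x 0 1 with hr
  set C := Real.cos (θ x) with hC
  set S := Real.sin (θ x) with hSS
  by_cases hc : c = 0
  · subst hc
    simp only [neg_zero, zero_mul] at hca hcb
    exact ⟨hca, hcb⟩
  · exfalso
    apply hreg
    have e1 : -S * p + C * r = 0 := by
      have : c * (-S * p + C * r) = 0 := by
        rw [hca, hcb] at h1; linarith
      exact (mul_eq_zero.1 this).resolve_left hc
    constructor
    · have : p = C * (C * p + S * r) - S * (-S * p + C * r) := by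
        have : p = (S ^ 2 + C ^ 2) * p := by rw [hcs, one_mul]
        linarith [this]
      rw [this, h3, e1]; ring
    · have : r = S * (C * p + S * r) + C * (-S * p + C * r) := by
        have : r = (S ^ 2 + C ^ 2) * r := by rw [hcs, one_mul]
        linarith [this]
      rw [this, h3, e1]; ring

theorem exists_sec (hL : Leaf N K f κ Λ)
    (hper : ∀ (q : P) (t r : ℝ), θ (q, t + 1, r) = θ (q, t, r))
    (hadm : ∀ x : P × ℝ × ℝ, x.1 ∈ N → θ x ∈ Adm N K Λ M x)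
    (h : GF N O θ M τ Ψ) (hS : SD O θ M Ψ B A ρ) : ∃ g : P → ℝ × ℝ,
      (∀ q ∈ N, (q, g q) ∈ K ∧ B (q, g q) = 0) ∧
      (∀ q ∈ N, ∀ y : ℝ × ℝ, (q, y) ∈ K → B (q, y) = 0 → y = g q) ∧
      ∀ q₀ ∈ N, ∃ (W : Set P) (g₁ : P → ℝ × ℝ), IsOpen W ∧ q₀ ∈ W ∧ ContDiffOn ℝ ∞ g₁ W ∧
        ∀ q ∈ W, q ∈ N → g₁ q = g q := by
  classical
  have hex : ∀ q : P, ∃ y : ℝ × ℝ, q ∈ N → (q, y) ∈ K ∧ B (q, y) = 0 := by
    intro q
    by_cases hq : q ∈ N
    · obtain ⟨y, hy⟩ := (zsec_exu hL hper hadm h hS hq).1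
      exact ⟨y, fun _ => hy⟩
    · exact ⟨0, fun hq' => absurd hq' hq⟩
  choose g hg using hex
  refine ⟨g, fun q hq => hg q hq, ?_, ?_⟩
  · intro q hq y hy hy0
    exact (zsec_exu hL hper hadm h hS hq).2 y (g q) hy (hg q hq).1 hy0 (hg q hq).2
  · intro q₀ hq₀
    obtain ⟨hK0, hB0⟩ := hg q₀ hq₀
    obtain ⟨W, u, hxW, hW⟩ := hL.fam.loc (q₀, g q₀) hK0
    set F : P × ℝ × ℝ → P × ℝ × ℝ := fun y => (y.1, u y, B y) with hF
    set x₀ : P × ℝ × ℝ := (q₀, g q₀) with hx₀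
    have hO : ∀ᶠ y : P × ℝ × ℝ in 𝓝 x₀, y.1 ∈ O :=
      continuousAt_fst.eventually (h.openO.mem_nhds (h.sub hq₀))
    have hWn : ∀ᶠ y : P × ℝ × ℝ in 𝓝 x₀, y ∈ W := hW.isOpen.mem_nhds hxW
    have hFs : ∀ y : P × ℝ × ℝ, y.1 ∈ O → y ∈ W → ContDiffAt ℝ ∞ F y := by
      intro y hy1 hy2
      exact contDiffAt_fst.prodMk ((hW.smooth.contDiffAt (hW.isOpen.mem_nhds hy2)).prodMk
        (zsec_diff h.openO hS.botZ.smooth hy1))
    have hFev : ∀ᶠ y in 𝓝 x₀, ContDiffAt ℝ ∞ F y := by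
      filter_upwards [hO, hWn] with y h1 h2
      exact hFs y h1 h2
    have hu : HasFDerivAt u (fderiv ℝ u x₀) x₀ :=
      ((hW.smooth.contDiffAt (hW.isOpen.mem_nhds hxW)).differentiableAt (by simp)).hasFDerivAt
    have hB : HasFDerivAt B (fderiv ℝ B x₀) x₀ :=
      ((zsec_diff h.openO hS.botZ.smooth (h.sub hq₀)).differentiableAt (by simp)).hasFDerivAt
    have hFd : fderiv ℝ F x₀ = (ContinuousLinearMap.fst ℝ P (ℝ × ℝ)).prod
        ((fderiv ℝ u x₀).prod (fderiv ℝ B x₀)) :=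
      (hasFDerivAt_fst.prodMk (hu.prodMk hB)).fderiv
    have hinj : Function.Injective (fderiv ℝ F x₀) := by
      rw [injective_iff_map_eq_zero]
      rintro ⟨w, a, b⟩ hz
      rw [hFd] at hz
      simp only [ContinuousLinearMap.prod_apply, ContinuousLinearMap.coe_fst', Prod.mk_eq_zero] at hz
      obtain ⟨h1, h2, h3⟩ := hz
      subst h1
      obtain ⟨ha, hb⟩ := zsec_inj hL hadm h hS hW hK0 hxW (a := a) (b := b) h2 h3
      simp [ha, hb]
    obtain ⟨Φ, hΦ, hs0, hsm⟩ := Pool.Agent.H57.NL.smooth_inverse rfl hFev hinj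
    have hu0 : u x₀ = 0 := ((hW.eqn x₀ hxW).1 hK0).2
    have hFx : F x₀ = (q₀, 0, 0) := by
      simp only [hF, hx₀]
      rw [← hx₀, hu0, hB0]
    have hsrc : F x₀ ∈ Φ.target := by
      rw [← hΦ]; exact Φ.map_source hs0
    have hinv : Φ.symm (q₀, 0, 0) = x₀ := by
      rw [← hFx, ← hΦ]; exact Φ.left_inv hs0
    rw [hFx] at hsm hsrc
    have hct : Filter.Tendsto Φ.symm (𝓝 (q₀, 0, 0)) (𝓝 x₀) := by
      have := (Φ.continuousAt_symm hsrc).tendsto
      rwa [hinv] at this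
    have hall : ∀ᶠ z : P × ℝ × ℝ in 𝓝 (q₀, 0, 0), ContDiffAt ℝ ∞ Φ.symm z ∧ Φ.symm z ∈ W ∧
        z ∈ Φ.target := by
      filter_upwards [hsm, hct.eventually hWn, Φ.open_target.mem_nhds hsrc] with z h1 h2 h3
      exact ⟨h1, h2, h3⟩
    have hι : Filter.Tendsto (fun q : P => ((q, 0, 0) : P × ℝ × ℝ)) (𝓝 q₀) (𝓝 (q₀, 0, 0)) :=
      (Continuous.prodMk_left ((0, 0) : ℝ × ℝ)).tendsto q₀
    obtain ⟨V, hV, hVo, hqV⟩ := eventually_nhds_iff.1 (hι.eventually hall)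
    refine ⟨V, fun q => (Φ.symm (q, 0, 0)).2, hVo, hqV, ?_, ?_⟩
    · intro q hq
      have h1 := (hV q hq).1
      have h2 : ContDiffAt ℝ ∞ (fun q : P => ((q, 0, 0) : P × ℝ × ℝ)) q :=
        contDiffAt_id.prodMk contDiffAt_const
      exact (contDiffAt_snd.comp q (h1.comp q h2)).contDiffWithinAt
    · intro q hq hqN
      obtain ⟨_, h2, h3⟩ := hV q hq
      have h4 : F (Φ.symm (q, 0, 0)) = (q, 0, 0) := by
        rw [← hΦ]; exact Φ.right_inv h3
      simp only [hF, Prod.mk.injEq] at h4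
      obtain ⟨e1, e2, e3⟩ := h4
      have e4 : Φ.symm (q, 0, 0) = (q, (Φ.symm (q, 0, 0)).2) := Prod.ext e1 rfl
      have e5 : Φ.symm (q, 0, 0) ∈ K := (hW.eqn _ h2).2 ⟨by rw [e1]; exact hqN, e2⟩
      exact (zsec_exu hL hper hadm h hS hqN).2 _ (g q) (by rw [← e4]; exact e5) (hg q hqN).1
        (by rw [← e4]; exact e3) (hg q hqN).2

end Pool.Agent.H57.CR
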