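import Pool.Agent.H57.CR.GTheta
import Pool.Agent.H57.CR.ZInv
import Pool.Agent.H57.CR.ZSec

/-!
# The straightening data on `N × ℝ` (module GYD)

PROOF of `exists_YD`. `exists_theta` gives `θ, M`; `hper`: `θ (q, t + 1, r) = θ (R 1 q, t, r) = θ (q, t, r)`. `fam_good`, `exists_GF`: `O, τ, Ψ`; `exists_SD`: `B, A', ρ'`; `exists_inv`: `I`; `exists_sec`: `g`. By `sd_eq` with `he` = the equivariance of `θ`, for `q ∈ N` (so `q, R s q ∈ O`):
`B (q, t + s, r) = B (R s q, t, r) + s`, `A' (q, t + s, r) = A' (R s q, t, r)`, `ρ' (q, t + s, r) = ρ' (R s q, t, r)` (*). Put `b y = B (y.1, 0, y.2)`, `a y = A' (y.1, 0, y.2)`, `ρ y = ρ' (y.1, 0, y.2)`, `J y = (R (I (y.1, 0, y.2)).1 y.1, (I (y.1, 0, y.2)).2)`, `h Q = (R (g Q).1 Q, (g Q).2)`.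
* `id`: let `y = (q, r)`, `q ∈ N`. Along the curve `s ↦ (R (α s) q, r + β s)` (velocity `(α • A q, β)` at `0`): `a = A' (R (α s) q, 0, r + β s) = A' (q, α s, r + β s)` by (*), so `fderiv a y (α • A q, β) = dpl A' (q, 0, r) α β`; in the same way `fderiv b y (α • A q, β) = dpl B (q, 0, r) α β - α`. Now `SD.id`.
* `J1`: `y = (q, r)`, `Q = R (b y) q ∈ N`: `B (Q, -b y, r) = B (q, 0, r) - b y = 0` and `ρ' (Q, -b y, r) = ρ' (q, 0, r) = ρ y` by (*) (`q, t = -b y + b y`), so `I (Q, 0, ρ y) = (-b y, r)` (`exists_inv`), `J (Q, ρ y) = (R (-b y) Q, r) = y`.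
* `J2`: `y = (q', r')`, `(t, r) = I (q', 0, r')`: `B (q', t, r) = 0`, `ρ' (q', t, r) = r'`. `J y = (R t q', r)`, `b (J y) = B (R t q', 0, r) = B (q', t, r) - t = -t`, `R (-t) (R t q') = q'`, `ρ (J y) = ρ' (q', t, r) = r'`.
* `hC`: `(Q, g Q) ∈ K`. `h1`: as `J2`: `b (h Q) = -(g Q).1`. `h2`: `y = (q, r) ∈ C`, `Q = R (b y) q`: `(Q, -b y, r) ∈ K` (`act R (Q, -b y, r) = y`), `B (Q, -b y, r) = 0`, so `g Q = (-b y, r)` by uniqueness, `h Q = (R (-b y) Q, r) = y`. `hs`: local smooth `g₁`, `circ_smooth`.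
(`C ⊆ N × ℝ`: needed in `h2`, hypothesis `hCN`.)
-/

set_option autoImplicit false
set_option linter.unusedSectionVars false

open scoped ContDiff Topology RealInnerProductSpace
open Set

namespace Pool.Agent.H57.CR

open Pool.Agent.H57.NL
open Pool.Agent.H2.TG (IsFlow)

variable {m : ℕ} {N : Set (E m)} {A : E m →L[ℝ] E m} {R : ℝ → E m →L[ℝ] E m}
  {C : Set (E m × ℝ)} {f : E m × ℝ × ℝ → ℝ}

private theorem gyd_incl {O : Set (E m)} {u : E m × ℝ × ℝ → ℝ}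
    (hu : ContDiffOn ℝ ∞ u (O ×ˢ univ)) :
    ContDiffOn ℝ ∞ (fun y : E m × ℝ => u (y.1, 0, y.2)) (O ×ˢ univ) :=
  hu.comp (contDiff_fst.prodMk (contDiff_const.prodMk contDiff_snd)).contDiffOn
    fun _ hy => ⟨hy.1, mem_univ _⟩

private theorem gyd_deriv (hR : Circ N A R) {O : Set (E m)} (hO : IsOpen O)
    {u : E m × ℝ × ℝ → ℝ} (hu : ContDiffOn ℝ ∞ u (O ×ˢ univ)) {q : E m} (hq : q ∈ O) {c : ℝ}
    (h : ∀ s r : ℝ, u (q, s, r) = u (R s q, 0, r) + c * s) (r α β : ℝ) :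
    fderiv ℝ (fun y : E m × ℝ => u (y.1, 0, y.2)) (q, r) (α • A q, β) =
      dpl u (q, 0, r) α β - c * α := by
  have hd : HasFDerivAt u (fderiv ℝ u (q, 0, r)) (q, 0, r) :=
    ((hu.contDiffAt ((hO.prod isOpen_univ).mem_nhds ⟨hq, mem_univ _⟩)).differentiableAt
      (by simp)).hasFDerivAt
  have hf : HasFDerivAt (fun y : E m × ℝ => u (y.1, 0, y.2))
      (fderiv ℝ (fun y : E m × ℝ => u (y.1, 0, y.2)) (q, r)) (q, r) :=
    (((gyd_incl hu).contDiffAt ((hO.prod isOpen_univ).mem_nhds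
      ⟨hq, mem_univ _⟩)).differentiableAt (by simp)).hasFDerivAt
  have hl : ∀ k : ℝ, HasDerivAt (fun s : ℝ => k * s) k 0 := fun k => by
    simpa using (hasDerivAt_id (0 : ℝ)).const_mul k
  have hR1 : HasDerivAt (fun s : ℝ => R (α * s) q) (α • A q) 0 := by
    have h1 := hR.deriv (α * 0) q
    have h2 := h1.scomp (0 : ℝ) (hl α)
    rw [mul_zero, hR.zero] at h2
    exact h2
  have hr1 : HasDerivAt (fun s : ℝ => r + β * s) β 0 := by
    simpa using (hl β).const_add r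
  have hc : HasDerivAt (fun s : ℝ => (R (α * s) q, r + β * s)) (α • A q, β) 0 := hR1.prodMk hr1
  have h1 : HasDerivAt (fun s : ℝ => u (R (α * s) q, 0, r + β * s))
      (fderiv ℝ (fun y : E m × ℝ => u (y.1, 0, y.2)) (q, r) (α • A q, β)) 0 :=
    HasFDerivAt.comp_hasDerivAt_of_eq (0 : ℝ) hf hc (by simp [hR.zero])
  have hc2 : HasDerivAt (fun s : ℝ => ((q, α * s, r + β * s) : E m × ℝ × ℝ)) (0, α, β) 0 :=
    (hasDerivAt_const (0 : ℝ) q).prodMk ((hl α).prodMk hr1)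
  have h2 : HasDerivAt (fun s : ℝ => u (q, α * s, r + β * s)) (dpl u (q, 0, r) α β) 0 :=
    HasFDerivAt.comp_hasDerivAt_of_eq (0 : ℝ) hd hc2 (by simp)
  have h3 : HasDerivAt (fun s : ℝ => u (q, α * s, r + β * s) - c * (α * s))
      (dpl u (q, 0, r) α β - c * α) 0 := h2.sub ((hl α).const_mul c)
  have e : (fun s : ℝ => u (R (α * s) q, 0, r + β * s)) =
      fun s : ℝ => u (q, α * s, r + β * s) - c * (α * s) := funext fun s => by
    rw [h (α * s) (r + β * s)]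
    ring
  rw [e] at h1
  exact h1.unique h3

theorem exists_YD (hR : Circ N A R) (hF : Fam N (Kf N R C) f) (hCN : ∀ y ∈ C, y.1 ∈ N) :
    ∃ O b a ρ J h, YD N A R C O b a ρ J h := by
  obtain ⟨κ, Λ, hL⟩ := exists_leaf hF
  obtain ⟨θ, M, hM0, hM, hs, he, hsupp, hadm⟩ := exists_theta hR hL
  have hper : ∀ (q : E m) (t r : ℝ), θ (q, t + 1, r) = θ (q, t, r) := fun q t r => by
    rw [he q 1 t r, hR.one]
  obtain ⟨O, τ, Ψ, hG⟩ := exists_GF hs hper hM0 hsupp (fam_good hL hs hper hM0 hM hadm)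
  obtain ⟨B, A', ρ', hS⟩ := exists_SD hG
  obtain ⟨I, hI, hI1, hI2⟩ := exists_inv hG hS
  obtain ⟨g, hg1, hg2, hg3⟩ := exists_sec hL hper hadm hG hS
  have hst : ∀ q ∈ N, ∀ s t r : ℝ, B (q, t + s, r) = B (R s q, t, r) + s ∧
      A' (q, t + s, r) = A' (R s q, t, r) ∧ ρ' (q, t + s, r) = ρ' (R s q, t, r) :=
    fun q hq s t r => sd_eq hG hS (hG.sub hq) (hG.sub (hR.maps s q hq))
      (fun t r => he q s t r) t r
  have hneg : ∀ (t : ℝ) (q : E m), R (-t) (R t q) = q := fun t q => circ_neg hR t q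
  -- values at `t = 0`
  have hb0 : ∀ q ∈ N, ∀ t r : ℝ, B (R t q, 0, r) = B (q, t, r) - t := fun q hq t r => by
    have h1 := (hst q hq t 0 r).1
    rw [zero_add] at h1
    linarith
  have ha0 : ∀ q ∈ N, ∀ t r : ℝ, A' (R t q, 0, r) = A' (q, t, r) := fun q hq t r => by
    have h1 := (hst q hq t 0 r).2.1
    rw [zero_add] at h1
    exact h1.symm
  have hρ0 : ∀ q ∈ N, ∀ t r : ℝ, ρ' (R t q, 0, r) = ρ' (q, t, r) := fun q hq t r => by
    have h1 := (hst q hq t 0 r).2.2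
    rw [zero_add] at h1
    exact h1.symm
  -- values at `(R (b y) q, -b y, r)`
  have hbn : ∀ q ∈ N, ∀ r : ℝ, B (R (B (q, 0, r)) q, -B (q, 0, r), r) = 0 := fun q hq r => by
    have h1 := (hst q hq (B (q, 0, r)) (-B (q, 0, r)) r).1
    rw [neg_add_cancel] at h1
    linarith
  have hρn : ∀ q ∈ N, ∀ r : ℝ, ρ' (R (B (q, 0, r)) q, -B (q, 0, r), r) = ρ' (q, 0, r) :=
    fun q hq r => by
    have h1 := (hst q hq (B (q, 0, r)) (-B (q, 0, r)) r).2.2
    rw [neg_add_cancel] at h1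
    exact h1.symm
  have hRs := circ_smooth hR
  refine ⟨O, fun y => B (y.1, 0, y.2), fun y => A' (y.1, 0, y.2), fun y => ρ' (y.1, 0, y.2),
    fun y => (R (I (y.1, 0, y.2)).1 y.1, (I (y.1, 0, y.2)).2),
    fun Q => (R (g Q).1 Q, (g Q).2), ?_⟩
  refine
    { openO := hG.openO
      sub := hG.sub
      sb := gyd_incl hS.botZ.smooth
      sa := gyd_incl hS.actZ.smooth
      sρ := gyd_incl hS.sρ
      sJ := ?_
      id := ?_
      J1 := ?_
      J2 := ?_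
      hC := ?_
      h1 := ?_
      h2 := ?_
      hs := ?_ }
  · have h1 : ContDiffOn ℝ ∞ (fun y : E m × ℝ => I (y.1, 0, y.2)) (O ×ˢ univ) :=
      hI.comp (contDiff_fst.prodMk (contDiff_const.prodMk contDiff_snd)).contDiffOn
        fun _ hy => ⟨hy.1, mem_univ _⟩
    have h2 : ContDiffOn ℝ ∞ (fun y : E m × ℝ => R (I (y.1, 0, y.2)).1 y.1) (O ×ˢ univ) :=
      hRs.comp_contDiffOn (h1.fst.prodMk contDiffOn_fst)
    exact h2.prodMk h1.snd
  · rintro ⟨q, r⟩ hq α β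
    have hqO : q ∈ O := hG.sub hq
    have h1 : fderiv ℝ (fun y : E m × ℝ => A' (y.1, 0, y.2)) (q, r) (α • A q, β) =
        dpl A' (q, 0, r) α β - 0 * α :=
      gyd_deriv hR hG.openO hS.actZ.smooth hqO (fun s r => by rw [ha0 q hq]; ring) r α β
    have h2 : fderiv ℝ (fun y : E m × ℝ => B (y.1, 0, y.2)) (q, r) (α • A q, β) =
        dpl B (q, 0, r) α β - 1 * α :=
      gyd_deriv hR hG.openO hS.botZ.smooth hqO (fun s r => by rw [hb0 q hq]; ring) r α β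
    have h3 := hS.id (q, 0, r) hqO α β
    change r * α + fderiv ℝ (fun y : E m × ℝ => A' (y.1, 0, y.2)) (q, r) (α • A q, β) =
      ρ' (q, 0, r) * (α + fderiv ℝ (fun y : E m × ℝ => B (y.1, 0, y.2)) (q, r) (α • A q, β))
    rw [h1, h2]
    have h4 : r * α + dpl A' (q, 0, r) α β = ρ' (q, 0, r) * dpl B (q, 0, r) α β := h3
    linear_combination h4
  · rintro ⟨q, r⟩ hq
    have hQ : R (B (q, 0, r)) q ∈ N := hR.maps _ q hq
    have h1 := hI1 (R (B (q, 0, r)) q, -B (q, 0, r), r) (hG.sub hQ)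
    rw [hbn q hq r, hρn q hq r] at h1
    change (R (I (R (B (q, 0, r)) q, 0, ρ' (q, 0, r))).1 (R (B (q, 0, r)) q),
      (I (R (B (q, 0, r)) q, 0, ρ' (q, 0, r))).2) = (q, r)
    have h2 : I (R (B (q, 0, r)) q, 0, ρ' (q, 0, r)) = (-B (q, 0, r), r) := h1
    rw [h2]
    simp only [hneg]
  · rintro ⟨q, r⟩ hq
    obtain ⟨h1, h2⟩ := hI2 (q, 0, r) (hG.sub hq)
    obtain ⟨t, r', htr⟩ : ∃ t r', I (q, 0, r) = (t, r') := ⟨_, _, rfl⟩
    have h1' : B (q, t, r') = 0 := by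
      rw [← htr]
      exact h1
    have h2' : ρ' (q, t, r') = r := by
      rw [← htr]
      exact h2
    change R (I (q, 0, r)).1 q ∈ N ∧
      R (B (R (I (q, 0, r)).1 q, 0, (I (q, 0, r)).2)) (R (I (q, 0, r)).1 q) = q ∧
      ρ' (R (I (q, 0, r)).1 q, 0, (I (q, 0, r)).2) = r
    rw [htr]
    refine ⟨hR.maps t q hq, ?_, ?_⟩
    · rw [hb0 q hq, h1', zero_sub]
      exact hneg t q
    · rw [hρ0 q hq]
      exact h2'
  · intro Q hQ
    exact (hg1 Q hQ).1.2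
  · intro Q hQ
    have h1 : B (Q, (g Q).1, (g Q).2) = 0 := (hg1 Q hQ).2
    change R (B (R (g Q).1 Q, 0, (g Q).2)) (R (g Q).1 Q) = Q
    rw [hb0 Q hQ, h1, zero_sub]
    exact hneg _ Q
  · rintro ⟨q, r⟩ hy
    have hq : q ∈ N := hCN _ hy
    have hQ : R (B (q, 0, r)) q ∈ N := hR.maps _ q hq
    have hK : (R (B (q, 0, r)) q, ((-B (q, 0, r), r) : ℝ × ℝ)) ∈ Kf N R C := by
      refine ⟨hQ, ?_⟩
      change (R (-B (q, 0, r)) (R (B (q, 0, r)) q), r) ∈ C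
      rw [hneg]
      exact hy
    have h1 := hg2 _ hQ (-B (q, 0, r), r) hK (hbn q hq r)
    change (R (g (R (B (q, 0, r)) q)).1 (R (B (q, 0, r)) q), (g (R (B (q, 0, r)) q)).2) = (q, r)
    rw [← h1]
    simp only [hneg]
  · intro q₀ hq₀
    obtain ⟨W, g₁, hW, hqW, hgs, hge⟩ := hg3 q₀ hq₀
    refine ⟨fun Q => (R (g₁ Q).1 Q, (g₁ Q).2), W, hW, hqW, ?_, fun y hy => ?_⟩
    · exact (hRs.comp_contDiffOn (hgs.fst.prodMk contDiffOn_id)).prodMk hgs.snd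
    · simp only [hge y hy.1 hy.2]

end Pool.Agent.H57.CR
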