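import Pool.Agent.H57.CR.TopC

/-!
# The good phases (module Good)

`Gd N K Λ = {x ∈ PS | ∃ s, (Λ s x).1 ∈ Top K, (Λ s x).2 = 0}`.

PROOFS.
* `good_leaf`: `leaf_add`, `leaf_mem`. `good_shp`: `leaf_shf` with `j = 0`; `shp k` preserves `Top K`.
* `good_closes`: let `(Λ s x).1 ∈ Top K` with phase `0`; `exists_closes` for `Λ s x`, `phase_zero`: `m = 1`, `j = 0`; `closes_at` back to `x`.
* `good_ext`: `phase_zero` at `Λ s x`, at the time `-s`.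
* `good_bdd`: within one period `T ≤ T₀` the leaf of `x` reaches a top point (`closes_red`), where the phase is `0`; `leaf_phi`: `|x.2| ≤ B T₀`. More precisely
  `good_near`: there is `s`, `|s| ≤ T₀`, with `(Λ s x).1 ∈ Top K`, `(Λ s x).2 = 0` (then `|x.2| ≤ B |s|`).
* `good_exists`: `PS_exists`: `(y, ψ) ∈ PS`; `exists_closes`; if `m = -1` replace `ψ` by `ψ + π` (`closes_rev`), so `m = 1`. Take a top point `(Λ s (y, ψ)).1` (`exists_top`), its phase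
  `φ₁` satisfies `sin φ₁ = 0`, `cos φ₁ > 0` (`T1`): `φ₁ = 2 l π`. Then `(y, ψ - 2 l π) = shf 0 (-2 l) (y, ψ)`, and `leaf_shf`.
* `good_unique`: let `(y, φ), (y, ψ) ∈ Gd`, `ψ = φ + j π` (`PS_unique`). If `j` is even: `Λ s (y, ψ) = shf 0 j (Λ s (y, φ))`; at a time `s` with `(Λ s (y, φ)).1 ∈ Top K` the
  phase of `Λ s (y, φ)` is `0` (`good_ext`, `good_leaf`) and the phase of `Λ s (y, ψ)` is `0`, so `j = 0`. If `j` is odd: `Λ s (y, ψ) = shf 0 j (Λ (-s) (y, φ))`; at a top point of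
  `(y, φ)` both phases are `0`: `j π = 0`, contradiction.
* `good_closed`: let `x_n ∈ Gd`, `x_n → x` (`P` is metrizable; sequences). `x ∈ PS` (`PS_closed`). `good_near`: `|s_n| ≤ T₀`; a subsequence `s_n → s`;
  `Λ s_n x_n → Λ s x` (`leaf_cont`), `top_closed`: `(Λ s x).1 ∈ Top K`, phase `0`.
-/

set_option autoImplicit false
set_option linter.unusedSectionVars false

open scoped ContDiff Topology
open Set

namespace Pool.Agent.H57.CR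

open Pool.Agent.H2.TG (IsFlow)

variable {P : Type} [NormedAddCommGroup P] [NormedSpace ℝ P] [FiniteDimensional ℝ P] {N : Set P}
  {K : Set (P × ℝ × ℝ)} {f : P × ℝ × ℝ → ℝ} {κ : (P × ℝ × ℝ) × ℝ → ℝ}
  {Λ : ℝ → (P × ℝ × ℝ) × ℝ → (P × ℝ × ℝ) × ℝ}

theorem top_shp (hR : Fam N K f) (k : ℤ) {x : P × ℝ × ℝ} (h : x ∈ Top K) : shp k x ∈ Top K :=
  ⟨(mem_shp hR k x).2 h.1, fun y hy hq => h.2 y hy hq⟩

theorem btm_shp (hR : Fam N K f) (k : ℤ) {x : P × ℝ × ℝ} (h : x ∈ Btm K) : shp k x ∈ Btm K :=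
  ⟨(mem_shp hR k x).2 h.1, fun y hy hq => h.2 y hy hq⟩

theorem good_leaf (hL : Leaf N K f κ Λ) {x : (P × ℝ × ℝ) × ℝ} (hx : x ∈ Gd N K Λ) (s : ℝ) :
    Λ s x ∈ Gd N K Λ := by
  obtain ⟨hPS, s₀, ht, h0⟩ := hx
  refine ⟨leaf_mem hL hPS s, s₀ - s, ?_⟩
  rw [leaf_add hL, sub_add_cancel]
  exact ⟨ht, h0⟩

theorem good_shp (hL : Leaf N K f κ Λ) {x : (P × ℝ × ℝ) × ℝ} (hx : x ∈ Gd N K Λ) (k : ℤ) :
    shf k 0 x ∈ Gd N K Λ := by
  obtain ⟨hPS, s₀, ht, h0⟩ := hx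
  refine ⟨PS_shf hL.fam hPS k 0, s₀, ?_⟩
  rw [leaf_shf hL hPS k (by decide : Even (0 : ℤ))]
  refine ⟨top_shp hL.fam k ht, ?_⟩
  change (Λ s₀ x).2 + ((0 : ℤ) : ℝ) * Real.pi = 0
  rw [h0]
  simp

private lemma good_back (hL : Leaf N K f κ Λ) (x : (P × ℝ × ℝ) × ℝ) (s : ℝ) :
    Λ (-s) (Λ s x) = x := by
  rw [leaf_add hL, neg_add_cancel, hL.flow.zero]

theorem good_ext (hL : Leaf N K f κ Λ) {x : (P × ℝ × ℝ) × ℝ} (hx : x ∈ Gd N K Λ)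
    (h : x.1 ∈ Top K ∪ Btm K) : x.2 = 0 := by
  obtain ⟨hPS, s, ht, h0⟩ := hx
  obtain ⟨T₀, -, hT₀⟩ := exists_closes hL
  obtain ⟨T, m, j, -, hc⟩ := hT₀ _ (leaf_mem hL hPS s)
  have h1 := (phase_zero hL (leaf_mem hL hPS s) hc ht h0).2.2 (-s)
  rw [good_back hL x s] at h1
  exact h1 h

theorem good_closes (hL : Leaf N K f κ Λ) : ∃ T₀ : ℝ, 0 < T₀ ∧ ∀ x ∈ Gd N K Λ,
    ∃ T : ℝ, T ≤ T₀ ∧ Closes Λ x T 1 0 := by
  obtain ⟨T₀, hT0, hT₀⟩ := exists_closes hL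
  refine ⟨T₀, hT0, fun x hx => ?_⟩
  obtain ⟨hPS, s, ht, h0⟩ := hx
  obtain ⟨T, m, j, hT, hc⟩ := hT₀ _ (leaf_mem hL hPS s)
  obtain ⟨rfl, rfl, -⟩ := phase_zero hL (leaf_mem hL hPS s) hc ht h0
  refine ⟨T, hT, ?_⟩
  have h1 := closes_at hL (leaf_mem hL hPS s) hc (-s)
  rwa [good_back hL x s] at h1

theorem good_near (hL : Leaf N K f κ Λ) : ∃ T₀ : ℝ, 0 < T₀ ∧ ∀ x ∈ Gd N K Λ,
    ∃ s : ℝ, |s| ≤ T₀ ∧ (Λ s x).1 ∈ Top K ∧ (Λ s x).2 = 0 := by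
  obtain ⟨T₀, hT0, hT₀⟩ := good_closes hL
  refine ⟨T₀, hT0, fun x hx => ?_⟩
  obtain ⟨T, hT, hc⟩ := hT₀ x hx
  obtain ⟨hPS, s, ht, h0⟩ := hx
  obtain ⟨n, s', hs0, hsT, -, he⟩ := closes_red hL hPS hc s
  rw [he] at ht h0
  refine ⟨s', ?_, ?_, ?_⟩
  · rw [abs_of_nonneg hs0]
    linarith
  · have h1 := top_shp hL.fam (-(n * 1)) ht
    have h2 : shp (-(n * 1)) (shf (n * 1) (n * 0) (Λ s' x)).1 = (Λ s' x).1 := by
      change shp (-(n * 1)) (shp (n * 1) (Λ s' x).1) = (Λ s' x).1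
      rw [shp_shp, neg_add_cancel, shp_zero]
    rwa [h2] at h1
  · have h3 : (shf (n * 1) (n * 0) (Λ s' x)).2 = (Λ s' x).2 + ((n * 0 : ℤ) : ℝ) * Real.pi := rfl
    rw [h3, mul_zero] at h0
    simpa using h0

theorem good_bdd (hL : Leaf N K f κ Λ) : ∃ B : ℝ, 0 < B ∧ ∀ x ∈ Gd N K Λ, |x.2| ≤ B := by
  obtain ⟨T₀, hT0, hT₀⟩ := good_near hL
  obtain ⟨B, hB, hphi⟩ := leaf_phi hL
  refine ⟨B * T₀, mul_pos hB hT0, fun x hx => ?_⟩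
  obtain ⟨s, hs, -, h0⟩ := hT₀ x hx
  have h1 := hphi x s
  rw [h0, zero_sub, abs_neg] at h1
  exact h1.trans (mul_le_mul_of_nonneg_left hs hB.le)

private lemma good_even {φ : ℝ} (h1 : Real.sin φ = 0) (h2 : 0 < Real.cos φ) :
    ∃ n : ℤ, Even n ∧ φ = n * Real.pi := by
  obtain ⟨n, hn⟩ := Real.sin_eq_zero_iff.1 h1
  refine ⟨n, ?_, hn.symm⟩
  by_contra hodd
  rw [Int.not_even_iff_odd] at hodd
  rw [← hn, Real.cos_int_mul_pi, hodd.neg_one_zpow] at h2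
  linarith

theorem good_exists (hL : Leaf N K f κ Λ) {y : P × ℝ × ℝ} (hy : y ∈ K) :
    ∃ φ : ℝ, (y, φ) ∈ Gd N K Λ := by
  obtain ⟨T₀, -, hT₀⟩ := exists_closes hL
  have key : ∃ x ∈ PS N K, x.1 = y ∧ ∃ (T : ℝ) (j : ℤ), Closes Λ x T 1 j := by
    obtain ⟨ψ, hψ⟩ := PS_exists hL.fam hy
    obtain ⟨T, m, j, -, hc⟩ := hT₀ _ hψ
    rcases m_one hL hψ hc with rfl | rfl
    · exact ⟨_, hψ, rfl, T, j, hc⟩
    · have h1 := closes_rev hL hψ hc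
      rw [neg_neg] at h1
      exact ⟨_, PS_shf hL.fam hψ 0 1, shp_zero y, T, -j, h1⟩
  obtain ⟨x, hx, hxy, T, j, hc⟩ := key
  obtain ⟨s, hs⟩ := exists_top hL hx
  obtain ⟨-, h2⟩ := T1 hL hx hc
  obtain ⟨h3, h4⟩ := h2 s (Or.inl hs)
  rw [Int.cast_one, one_mul] at h4
  obtain ⟨n, hn, hφ⟩ := good_even h3 h4
  have he : shf 0 (-n) x = (y, x.2 + ((-n : ℤ) : ℝ) * Real.pi) := by
    unfold shf
    rw [shp_zero, hxy]
  refine ⟨x.2 + ((-n : ℤ) : ℝ) * Real.pi, ?_⟩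
  rw [← he]
  refine ⟨PS_shf hL.fam hx 0 (-n), s, ?_⟩
  rw [leaf_shf hL hx 0 hn.neg]
  refine ⟨top_shp hL.fam 0 hs, ?_⟩
  change (Λ s x).2 + ((-n : ℤ) : ℝ) * Real.pi = 0
  rw [hφ]
  push_cast
  ring

theorem good_unique (hL : Leaf N K f κ Λ) {y : P × ℝ × ℝ} {φ ψ : ℝ} (h1 : (y, φ) ∈ Gd N K Λ)
    (h2 : (y, ψ) ∈ Gd N K Λ) : φ = ψ := by
  obtain ⟨k, hk⟩ := PS_unique hL.fam h1.1 h2.1
  have he : ((y, φ) : (P × ℝ × ℝ) × ℝ) = shf 0 k (y, ψ) := by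
    unfold shf
    rw [shp_zero, hk]
  obtain ⟨hPS, s, ht, h0⟩ := h2
  have key : ∃ s', Λ s' (y, φ) = shf 0 k (Λ s (y, ψ)) := by
    rcases Int.even_or_odd k with hev | hod
    · exact ⟨s, by rw [he, leaf_shf hL hPS 0 hev]⟩
    · exact ⟨-s, by rw [he, leaf_odd hL hPS 0 hod, neg_neg]⟩
  obtain ⟨s', hs'⟩ := key
  have h3 : (Λ s' (y, φ)).1 ∈ Top K ∪ Btm K := by
    rw [hs']
    exact Or.inl (top_shp hL.fam 0 ht)
  have h4 := good_ext hL (good_leaf hL h1 s') h3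
  rw [hs'] at h4
  have h5 : (Λ s (y, ψ)).2 + (k : ℝ) * Real.pi = 0 := h4
  rw [h0, zero_add] at h5
  rw [hk, h5, add_zero]

theorem good_closed (hL : Leaf N K f κ Λ) : IsClosed (Gd N K Λ) := by
  obtain ⟨T₀, hT0, hT₀⟩ := good_near hL
  refine IsSeqClosed.isClosed fun u x hu hux => ?_
  have hx : x ∈ PS N K := (PS_closed hL.fam).mem_of_tendsto hux
    (Filter.Eventually.of_forall fun n => (hu n).1)
  choose s hs using fun n => hT₀ (u n) (hu n)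
  obtain ⟨s₀, -, g, hg, hlim⟩ := (isCompact_Icc (a := -T₀) (b := T₀)).tendsto_subseq
    (x := s) fun n => abs_le.1 (hs n).1
  have h1 : Filter.Tendsto (fun n => Λ (s (g n)) (u (g n))) Filter.atTop (𝓝 (Λ s₀ x)) := by
    have h2 : Filter.Tendsto (fun n => (s (g n), u (g n))) Filter.atTop (𝓝 (s₀, x)) :=
      hlim.prodMk_nhds (hux.comp hg.tendsto_atTop)
    exact ((leaf_cont hL).tendsto (s₀, x)).comp h2
  refine ⟨hx, s₀, ?_, ?_⟩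
  · exact (top_closed hL.fam).mem_of_tendsto ((continuous_fst.tendsto _).comp h1)
      (Filter.Eventually.of_forall fun n => (hs (g n)).2.1)
  · have h3 := (continuous_snd.tendsto _).comp h1
    refine tendsto_nhds_unique h3 ?_
    have h4 : (Prod.snd ∘ fun n => Λ (s (g n)) (u (g n))) = fun _ => (0 : ℝ) :=
      funext fun n => (hs (g n)).2.2
    rw [h4]
    exact tendsto_const_nhds

end Pool.Agent.H57.CR
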