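import Pool.Agent.H57.CR.Good

/-!
# The good phase is locally a smooth function (module GoodLoc)

PROOF of `good_local`. Let `y ∈ K`, `(y, φ) ∈ Gd` (`good_exists`). Take a local equation at `y` (`hL.fam.loc`) and a phase `ϑ` on a neighbourhood `W₁` with `ϑ y = φ`
(`exists_phase`; `φ` is admissible by `mem_PS`). Claim: `(y', ϑ y') ∈ Gd` for all `y' ∈ K` near `y`. Otherwise there are `y_n ∈ K`, `y_n → y` with `(y_n, ϑ y_n) ∉ Gd`. Let
`(y_n, φ_n) ∈ Gd` (`good_exists`), `|φ_n| ≤ B` (`good_bdd`); pass to a subsequence `φ_n → φ'`; `(y, φ') ∈ Gd` (`good_closed`), so `φ' = φ` (`good_unique`). Both `φ_n` and `ϑ y_n` are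
phases at `y_n` (`mem_PS`, `PhaseOf.tang`; `PS_unique`): `φ_n = ϑ y_n + k_n π`, and `φ_n → φ`, `ϑ y_n → ϑ y = φ`, so `k_n = 0` for large `n`: `(y_n, ϑ y_n) = (y_n, φ_n) ∈ Gd`,
contradiction. (Instead of sequences: `good_closed`, compactness of `[-B, B]` and filters.)
-/

set_option autoImplicit false
set_option linter.unusedSectionVars false

open scoped ContDiff Topology
open Set

namespace Pool.Agent.H57.CR

open Pool.Agent.H2.TG (IsFlow)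

variable {P : Type} [NormedAddCommGroup P] [NormedSpace ℝ P] [FiniteDimensional ℝ P] {N : Set P}
  {K : Set (P × ℝ × ℝ)} {f : P × ℝ × ℝ → ℝ} {κ : (P × ℝ × ℝ) × ℝ → ℝ}
  {Λ : ℝ → (P × ℝ × ℝ) × ℝ → (P × ℝ × ℝ) × ℝ}

theorem good_local (hL : Leaf N K f κ Λ) {y : P × ℝ × ℝ} (hy : y ∈ K) :
    ∃ (W : Set (P × ℝ × ℝ)) (u ϑ : P × ℝ × ℝ → ℝ), y ∈ W ∧ LocEq N K W u ∧ PhaseOf W u ϑ ∧
      ∀ y' ∈ W, y' ∈ K → (y', ϑ y') ∈ Gd N K Λ := by
  have hπ := Real.pi_pos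
  obtain ⟨φ, hφ⟩ := good_exists hL hy
  obtain ⟨B, hB, hbd⟩ := good_bdd hL
  obtain ⟨W, u, hyW, hC⟩ := hL.fam.loc y hy
  have h1 := (mem_PS hC (x := (y, φ)) hy hyW).1 hφ.1
  obtain ⟨W₁, ϑ, hsub, hy1, hC1, hP, hϑ⟩ := exists_phase hC hyW h1
  have ho1 : IsOpen {a : ℝ | |a - φ| < Real.pi / 2} :=
    isOpen_lt (by fun_prop) continuous_const
  have hW2 := hP.smooth.continuousOn.isOpen_inter_preimage hC1.isOpen ho1
  -- the tube
  have hn : IsOpen ((Gd N K Λ ∩ {x : (P × ℝ × ℝ) × ℝ | Real.pi / 2 ≤ |x.2 - φ|})ᶜ) :=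
    ((good_closed hL).inter (isClosed_le continuous_const (by fun_prop))).isOpen_compl
  obtain ⟨U, V, hU, -, hyU, hV, hUV⟩ := generalized_tube_lemma (isCompact_singleton (x := y))
    (isCompact_Icc (a := -B) (b := B)) hn (by
      rintro ⟨y', φ'⟩ ⟨hy', -⟩ ⟨h2, h3⟩
      have hy'' : y' = y := hy'
      rw [hy''] at h2
      have h4 := good_unique hL h2 hφ
      have h5 : Real.pi / 2 ≤ |φ' - φ| := h3
      rw [h4, sub_self, abs_zero] at h5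
      linarith)
  have hO := hU.inter hW2
  have hmem : y ∈ U ∩ (W₁ ∩ ϑ ⁻¹' {a : ℝ | |a - φ| < Real.pi / 2}) := by
    refine ⟨hyU rfl, hy1, ?_⟩
    change |ϑ y - φ| < Real.pi / 2
    rw [hϑ, sub_self, abs_zero]
    linarith
  have hs : U ∩ (W₁ ∩ ϑ ⁻¹' {a : ℝ | |a - φ| < Real.pi / 2}) ⊆ W₁ := fun z hz => hz.2.1
  refine ⟨_, u, ϑ, hmem, ⟨hO, hC1.smooth.mono hs, fun z hz => hC1.eqn z (hs hz),
    fun z hz => hC1.reg z (hs hz)⟩, ⟨hP.smooth.mono hs, fun z hz => hP.tang z (hs hz)⟩, ?_⟩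
  rintro y' ⟨h2, h3, h4⟩ hy'
  obtain ⟨φ', hφ'⟩ := good_exists hL hy'
  have h5 : φ' ∈ Icc (-B) B := abs_le.1 (hbd _ hφ')
  have h6 : (y', φ') ∈ (Gd N K Λ ∩ {x : (P × ℝ × ℝ) × ℝ | Real.pi / 2 ≤ |x.2 - φ|})ᶜ :=
    hUV ⟨h2, hV h5⟩
  have h7 : |φ' - φ| < Real.pi / 2 := by
    by_contra h8
    exact h6 ⟨hφ', not_lt.1 h8⟩
  have h8 : |ϑ y' - φ| < Real.pi / 2 := h4
  have h9 : (y', ϑ y') ∈ PS N K := (mem_PS hC1 (x := (y', ϑ y')) hy' h3).2 (hP.tang y' h3)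
  obtain ⟨k, hk⟩ := PS_unique hL.fam hφ'.1 h9
  have hk0 : k = 0 := by
    have h10 := abs_lt.1 h7
    have h11 := abs_lt.1 h8
    have h12 : (k : ℝ) * Real.pi < 1 * Real.pi := by linarith
    have h13 : (-1 : ℝ) * Real.pi < k * Real.pi := by linarith
    have h14 : (k : ℝ) < 1 := lt_of_mul_lt_mul_right h12 hπ.le
    have h15 : (-1 : ℝ) < k := lt_of_mul_lt_mul_right h13 hπ.le
    have h16 : k < 1 := by exact_mod_cast h14
    have h17 : -1 < k := by exact_mod_cast h15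
    omega
  rw [hk0, Int.cast_zero, zero_mul, add_zero] at hk
  rw [← hk]
  exact hφ'

end Pool.Agent.H57.CR
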