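import Mathlib

/-!
# Periodic approximation of a bounded one parameter group (module KilA)

`𝔸` is a finite dimensional real Banach algebra in which multiplication is commutative, `e x = NormedSpace.exp x`, `G = closure (range fun t : ℝ => e (t • a))`.

PROOF.
(1) `G` is closed under products and contains `e (t • a)`; `1 ∈ G`; `g ∈ G` implies `g' ∈ G` for an inverse: only needed for elements `e y`: if `e y ∈ G` then `e (-y) ∈ G` (let `e (t_k • a) → e y`; `e (-t_k • a)` is bounded by `K`, and `e (-t_k • a) - e (-y) = e (-t_k • a) * (e y - e (t_k • a)) * e (-y) → 0`). So `e (k • y) ∈ G` for all integers `k`.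
(2) `𝔤 = {x | ∀ s : ℝ, e (s • x) ∈ G}` is a linear subspace (`NormedSpace.exp_add_of_commute`), `a ∈ 𝔤`.
(3) If `y_k → 0`, `y_k ≠ 0`, `e y_k ∈ G` and `‖y_k‖⁻¹ • y_k → y` then `y ∈ 𝔤`: `e (s • y) = lim e (⌊s / ‖y_k‖⌋ • y_k)` (`|⌊s / ‖y_k‖⌋ ‖y_k‖ - s| ≤ ‖y_k‖`), and `G` is closed.
(4) There is `δ > 0` such that `‖x‖ < δ`, `e x ∈ G` imply `x ∈ 𝔤`. Otherwise `x_k → 0`, `e x_k ∈ G`, `x_k ∉ 𝔤`. Let `𝔠` be a complement of `𝔤` (`Submodule.exists_isCompl`), `x_k = u_k + y_k`; the projections are continuous (finite dimension), so `u_k, y_k → 0`; `y_k ≠ 0`, `e y_k = e x_k * e (-u_k) ∈ G`; the unit vectors `‖y_k‖⁻¹ • y_k ∈ 𝔠` have a limit point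
`y ∈ 𝔠` (compact sphere), `‖y‖ = 1`, `y ∈ 𝔤` by (3): contradiction.
(5) `hasStrictFDerivAt_exp_zero` (or the version at `0`), `HasStrictFDerivAt.map_nhds_eq_of_equiv` / `map_nhds_eq_of_surj`: for `δ > 0` there is `η > 0` such that `‖g - 1‖ < η` implies `g = e x` for some `‖x‖ < δ`.
(6) For `η, T₀ > 0` there is `T ≥ T₀` with `‖e (T • a) - 1‖ < η`: the sequence `e ((k T₀) • a)` is bounded, so two of its terms `k < l` are at distance `< η / (K + 1)` (convergent subsequence); multiply by `e (-(k T₀) • a)`; `T = (l - k) T₀`.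
(7) Take `δ` of (4), `η` of (5), `T₀ = 1 + δ / ε` (so `δ / T₀ < ε`), `T` of (6), `x` with `e x = e (T • a)`, `‖x‖ < δ`, `x ∈ 𝔤` as `e x ∈ G`. `a' = a - T⁻¹ • x ∈ 𝔤`, `e (T • a') = e (T • a) * e (-x) = 1`, `‖a' - a‖ = ‖x‖ / T < ε`.
-/

set_option autoImplicit false
set_option linter.unusedSectionVars false

open scoped ContDiff Topology RealInnerProductSpace
open Set

namespace Pool.Agent.H57.CR

private theorem kilA_sub {V : Type*} [NormedAddCommGroup V] [NormedSpace ℝ V]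
    [FiniteDimensional ℝ V] (H : AddSubgroup V) (hH : IsClosed (H : Set V)) :
    ∃ δ : ℝ, 0 < δ ∧ ∀ x ∈ H, ‖x‖ < δ → ∀ s : ℝ, s • x ∈ H := by
  have : ProperSpace V := FiniteDimensional.proper_real V
  let g : Submodule ℝ V :=
    { carrier := {x | ∀ s : ℝ, s • x ∈ H}
      add_mem' := by
        intro x y hx hy s
        rw [smul_add]
        exact H.add_mem (hx s) (hy s)
      zero_mem' := by
        intro s
        rw [smul_zero]
        exact H.zero_mem
      smul_mem' := by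
        intro c x hx s
        rw [smul_smul]
        exact hx _ }
  have hgm : ∀ x, x ∈ g ↔ ∀ s : ℝ, s • x ∈ H := fun x => Iff.rfl
  obtain ⟨c, hc⟩ := Submodule.exists_isCompl g
  have hPc : Continuous (c.projection g hc.symm) :=
    LinearMap.continuous_of_finiteDimensional _
  by_contra hcon
  push Not at hcon
  have hch : ∀ k : ℕ, ∃ x : V, x ∈ H ∧ ‖x‖ < 1 / ((k : ℝ) + 1) ∧ ¬ x ∈ g := by
    intro k
    obtain ⟨x, hx, hxn, s, hs⟩ := hcon (1 / ((k : ℝ) + 1)) (by positivity)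
    exact ⟨x, hx, hxn, fun hxg => hs (hxg s)⟩
  choose x hxH hxn hxg using hch
  have hx0 : Filter.Tendsto x Filter.atTop (𝓝 0) := by
    refine squeeze_zero_norm (fun k => (hxn k).le) ?_
    exact tendsto_one_div_add_atTop_nhds_zero_nat
  set y : ℕ → V := fun k => c.projection g hc.symm (x k) with hy
  have hy0 : Filter.Tendsto y Filter.atTop (𝓝 0) := by
    have h1 := (hPc.tendsto 0).comp hx0
    rw [map_zero] at h1
    exact h1
  have hyc : ∀ k, y k ∈ c := fun k => Submodule.projection_apply_mem _ _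
  have hug : ∀ k, x k - y k ∈ g := by
    intro k
    have h1 := Submodule.projection_add_projection_eq_self hc (x k)
    have h2 : x k - y k = g.projection c hc (x k) := by
      rw [sub_eq_iff_eq_add]
      exact h1.symm
    rw [h2]
    exact Submodule.projection_apply_mem _ _
  have hyH : ∀ k, y k ∈ H := by
    intro k
    have h1 := hug k 1
    rw [one_smul] at h1
    have h2 := H.sub_mem (hxH k) h1
    rwa [sub_sub_cancel] at h2
  have hyne : ∀ k, y k ≠ 0 := by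
    intro k h0
    apply hxg k
    have h1 := hug k
    rwa [h0, sub_zero] at h1
  set v : ℕ → V := fun k => ‖y k‖⁻¹ • y k with hv
  have hvs : ∀ k, v k ∈ Metric.sphere (0 : V) 1 := by
    intro k
    rw [mem_sphere_zero_iff_norm, hv, norm_smul, norm_inv, norm_norm,
      inv_mul_cancel₀ (norm_ne_zero_iff.2 (hyne k))]
  obtain ⟨w, hw, φ, hφ, hlim⟩ := (isCompact_sphere (0 : V) 1).tendsto_subseq hvs
  have hwc : w ∈ c := by
    have hcc : IsClosed (c : Set V) := Submodule.closed_of_finiteDimensional c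
    exact hcc.mem_of_tendsto hlim (Filter.Eventually.of_forall fun k => c.smul_mem _ (hyc _))
  have hwg : w ∈ g := by
    rw [hgm]
    intro s
    refine hH.mem_of_tendsto (f := fun k => (⌊s / ‖y (φ k)‖⌋ : ℤ) • y (φ k))
      (b := Filter.atTop) ?_ (Filter.Eventually.of_forall fun k => H.zsmul_mem (hyH _) _)
    rw [tendsto_iff_norm_sub_tendsto_zero]
    have hb : ∀ k, ‖(⌊s / ‖y (φ k)‖⌋ : ℤ) • y (φ k) - s • w‖ ≤
        ‖y (φ k)‖ + |s| * ‖v (φ k) - w‖ := by
      intro k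
      have hn : 0 < ‖y (φ k)‖ := norm_pos_iff.2 (hyne _)
      have h1 : (⌊s / ‖y (φ k)‖⌋ : ℤ) • y (φ k) - s • w =
          ((⌊s / ‖y (φ k)‖⌋ : ℝ) * ‖y (φ k)‖ - s) • v (φ k) + s • (v (φ k) - w) := by
        have h2 : y (φ k) = ‖y (φ k)‖ • v (φ k) := by
          rw [hv, smul_smul, mul_inv_cancel₀ hn.ne', one_smul]
        have h3 : (⌊s / ‖y (φ k)‖⌋ : ℤ) • y (φ k) =
            ((⌊s / ‖y (φ k)‖⌋ : ℝ) * ‖y (φ k)‖) • v (φ k) := by
          generalize ⌊s / ‖y (φ k)‖⌋ = z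
          conv_lhs => rw [h2]
          rw [← Int.cast_smul_eq_zsmul ℝ, smul_smul]
        rw [h3]
        module
      rw [h1]
      refine (norm_add_le _ _).trans ?_
      rw [norm_smul _ (v (φ k)), norm_smul s, mem_sphere_zero_iff_norm.1 (hvs _), mul_one,
        Real.norm_eq_abs, Real.norm_eq_abs]
      refine add_le_add ?_ le_rfl
      have h4 := Int.floor_le (s / ‖y (φ k)‖)
      have h5 := Int.lt_floor_add_one (s / ‖y (φ k)‖)
      have h6 : (⌊s / ‖y (φ k)‖⌋ : ℝ) * ‖y (φ k)‖ ≤ s := by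
        rwa [le_div_iff₀ hn] at h4
      have h7 : s < ((⌊s / ‖y (φ k)‖⌋ : ℝ) + 1) * ‖y (φ k)‖ := by
        rwa [div_lt_iff₀ hn] at h5
      rw [abs_le]
      constructor
      · nlinarith
      · linarith
    refine squeeze_zero (fun k => norm_nonneg _) hb ?_
    have h8 : Filter.Tendsto (fun k => ‖y (φ k)‖) Filter.atTop (𝓝 0) := by
      have := (hy0.comp hφ.tendsto_atTop).norm
      rwa [norm_zero] at this
    have h9 : Filter.Tendsto (fun k => ‖v (φ k) - w‖) Filter.atTop (𝓝 0) :=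
      tendsto_iff_norm_sub_tendsto_zero.1 hlim
    have h10 := h8.add (h9.const_mul |s|)
    rwa [mul_zero, add_zero] at h10
  have hw0 : w = 0 := by
    have := hc.disjoint
    exact (Submodule.disjoint_def.1 this) w hwg hwc
  rw [mem_sphere_zero_iff_norm, hw0, norm_zero] at hw
  exact zero_ne_one hw

private theorem kilA_core {𝔸 : Type*} [NormedRing 𝔸] [NormedAlgebra ℝ 𝔸]
    [FiniteDimensional ℝ 𝔸] (e : 𝔸 → 𝔸) (he0 : e 0 = 1)
    (headd : ∀ x y, e (x + y) = e x * e y) (hcont : Continuous e)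
    (hstr : HasStrictFDerivAt e (1 : 𝔸 →L[ℝ] 𝔸) 0) (a : 𝔸) {K : ℝ}
    (hK : ∀ t : ℝ, ‖e (t • a)‖ ≤ K) {ε : ℝ} (hε : 0 < ε) :
    ∃ (a' : 𝔸) (T : ℝ), 0 < T ∧ ‖a' - a‖ < ε ∧ e (T • a') = 1 ∧
      ∀ s : ℝ, e (s • a') ∈ closure (range fun t : ℝ => e (t • a)) := by
  have : ProperSpace 𝔸 := FiniteDimensional.proper_real 𝔸
  have hK0 : 0 ≤ K := (norm_nonneg _).trans (hK 0)
  have hinv : ∀ x, e x * e (-x) = 1 := fun x => by rw [← headd, add_neg_cancel, he0]
  have hinv' : ∀ x, e (-x) * e x = 1 := fun x => by rw [← headd, neg_add_cancel, he0]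
  set G : Set 𝔸 := closure (range fun t : ℝ => e (t • a)) with hG
  have hmemG : ∀ t : ℝ, e (t • a) ∈ G := fun t => subset_closure ⟨t, rfl⟩
  have hmul : ∀ g ∈ G, ∀ h ∈ G, g * h ∈ G := by
    intro g hg h hh
    refine map_mem_closure₂ (f := fun p q : 𝔸 => p * q) continuous_mul hg hh ?_
    rintro _ ⟨s, rfl⟩ _ ⟨t, rfl⟩
    refine ⟨s + t, ?_⟩
    show e ((s + t) • a) = e (s • a) * e (t • a)
    rw [add_smul, headd]
  have hneg : ∀ y, e y ∈ G → e (-y) ∈ G := by
    intro y hy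
    rw [hG, Metric.mem_closure_iff] at hy ⊢
    intro ρ hρ
    obtain ⟨_, ⟨t, rfl⟩, ht⟩ := hy (ρ / (K * ‖e (-y)‖ + 1)) (by positivity)
    refine ⟨e ((-t) • a), ⟨-t, rfl⟩, ?_⟩
    have h1 : e (-y) - e ((-t) • a) =
        -(e ((-t) • a) * (e y - e (t • a)) * e (-y)) := by
      have h2 : e ((-t) • a) * e (t • a) = 1 := by rw [neg_smul]; exact hinv' _
      rw [mul_sub, sub_mul, h2, one_mul, mul_assoc, hinv, mul_one]
      abel
    rw [dist_eq_norm, h1, norm_neg]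
    rw [dist_eq_norm, lt_div_iff₀ (by positivity)] at ht
    calc ‖e ((-t) • a) * (e y - e (t • a)) * e (-y)‖
        ≤ ‖e ((-t) • a) * (e y - e (t • a))‖ * ‖e (-y)‖ := norm_mul_le _ _
      _ ≤ ‖e ((-t) • a)‖ * ‖e y - e (t • a)‖ * ‖e (-y)‖ := by
          gcongr
          exact norm_mul_le _ _
      _ ≤ K * ‖e y - e (t • a)‖ * ‖e (-y)‖ := by
          gcongr
          exact hK _
      _ ≤ ‖e y - e (t • a)‖ * (K * ‖e (-y)‖ + 1) := by
          nlinarith [norm_nonneg (e y - e (t • a))]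
      _ < ρ := ht
  let H : AddSubgroup 𝔸 :=
    { carrier := {x | e x ∈ G}
      add_mem' := by
        intro x y hx hy
        show e (x + y) ∈ G
        rw [headd]
        exact hmul _ hx _ hy
      zero_mem' := by
        show e 0 ∈ G
        have := hmemG 0
        rwa [zero_smul] at this
      neg_mem' := by
        intro x hx
        exact hneg x hx }
  have hHm : ∀ x, x ∈ H ↔ e x ∈ G := fun x => Iff.rfl
  have hHc : IsClosed (H : Set 𝔸) := isClosed_closure.preimage hcont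
  obtain ⟨δ, hδ, hδH⟩ := kilA_sub H hHc
  have hmap : Filter.map e (𝓝 0) = 𝓝 (e 0) :=
    HasStrictFDerivAt.map_nhds_eq_of_equiv (f' := ContinuousLinearEquiv.refl ℝ 𝔸) hstr
  have himg : e '' Metric.ball 0 δ ∈ 𝓝 (1 : 𝔸) := by
    rw [← he0, ← hmap]
    exact Filter.image_mem_map (Metric.ball_mem_nhds 0 hδ)
  obtain ⟨η, hη, hηsub⟩ := Metric.mem_nhds_iff.1 himg
  -- recurrence
  have hrec : ∀ T₀ : ℝ, 0 < T₀ → ∃ T : ℝ, T₀ ≤ T ∧ ‖e (T • a) - 1‖ < η := by
    intro T₀ hT₀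
    have hz : ∀ k : ℕ, e (((k : ℝ) * T₀) • a) ∈ Metric.closedBall (0 : 𝔸) K := by
      intro k
      rw [mem_closedBall_zero_iff]
      exact hK _
    obtain ⟨w, -, φ, hφ, hlim⟩ := (isCompact_closedBall (0 : 𝔸) K).tendsto_subseq hz
    obtain ⟨N, hN⟩ := Metric.cauchySeq_iff.1 hlim.cauchySeq (η / (K + 1)) (by positivity)
    have h1 := hN (N + 1) (Nat.le_succ N) N le_rfl
    have h2 : φ N < φ (N + 1) := hφ (Nat.lt_succ_self N)
    have h2' : (φ N : ℝ) + 1 ≤ φ (N + 1) := by exact_mod_cast h2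
    refine ⟨((φ (N + 1) : ℝ) - φ N) * T₀, ?_, ?_⟩
    · nlinarith
    · have h3 : e ((((φ (N + 1) : ℝ) - φ N) * T₀) • a) - 1 =
          e ((-((φ N : ℝ) * T₀)) • a) * (e (((φ (N + 1) : ℝ) * T₀) • a) -
            e (((φ N : ℝ) * T₀) • a)) := by
        rw [mul_sub, ← headd, ← headd, ← add_smul, ← add_smul, neg_add_cancel, zero_smul, he0]
        congr 3
        ring
      rw [h3]
      rw [dist_eq_norm] at h1
      have h4 : ‖e (((φ (N + 1) : ℝ) * T₀) • a) - e (((φ N : ℝ) * T₀) • a)‖ < η / (K + 1) := h1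
      rw [lt_div_iff₀ (by positivity)] at h4
      refine (norm_mul_le _ _).trans_lt ?_
      have h5 := hK (-((φ N : ℝ) * T₀))
      have h6 := norm_nonneg (e (((φ (N + 1) : ℝ) * T₀) • a) - e (((φ N : ℝ) * T₀) • a))
      nlinarith [mul_le_mul_of_nonneg_right h5 h6]
  obtain ⟨T, hT, hTn⟩ := hrec (1 + δ / ε) (by positivity)
  have hT0 : 0 < T := lt_of_lt_of_le (by positivity) hT
  obtain ⟨x, hx, hxe⟩ := hηsub (show e (T • a) ∈ Metric.ball (1 : 𝔸) η by
    rw [mem_ball_iff_norm]; exact hTn)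
  rw [mem_ball_zero_iff] at hx
  have hxH : x ∈ H := by
    rw [hHm, hxe]
    exact hmemG T
  have hxs := hδH x hxH hx
  refine ⟨a - T⁻¹ • x, T, hT0, ?_, ?_, ?_⟩
  · rw [sub_sub_cancel_left, norm_neg, norm_smul, norm_inv, Real.norm_eq_abs, abs_of_pos hT0,
      ← div_eq_inv_mul, div_lt_iff₀ hT0]
    have h1 : ε * (1 + δ / ε) = ε + δ := by field_simp
    have h2 : ε * (1 + δ / ε) ≤ ε * T := mul_le_mul_of_nonneg_left hT hε.le
    linarith
  · rw [smul_sub, smul_smul, mul_inv_cancel₀ hT0.ne', one_smul, sub_eq_add_neg, headd, ← hxe,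
      hinv]
  · intro s
    have h1 : s • (a - T⁻¹ • x) = s • a + (-(s * T⁻¹)) • x := by
      rw [smul_sub, smul_smul, neg_smul, sub_eq_add_neg]
    rw [h1]
    exact H.add_mem ((hHm _).2 (hmemG s)) (hxs _)

theorem per_approx {𝔸 : Type*} [NormedRing 𝔸] [NormedAlgebra ℝ 𝔸] [FiniteDimensional ℝ 𝔸]
    (hcomm : ∀ x y : 𝔸, x * y = y * x) (a : 𝔸) {K : ℝ}
    (hK : ∀ t : ℝ, ‖NormedSpace.exp (t • a)‖ ≤ K) {ε : ℝ} (hε : 0 < ε) :
    ∃ (a' : 𝔸) (T : ℝ), 0 < T ∧ ‖a' - a‖ < ε ∧ NormedSpace.exp (T • a') = 1 ∧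
      ∀ s : ℝ, NormedSpace.exp (s • a') ∈ closure (range fun t : ℝ => NormedSpace.exp (t • a)) := by
  have : CompleteSpace 𝔸 := FiniteDimensional.complete ℝ 𝔸
  let _ : NormedAlgebra ℚ 𝔸 := NormedAlgebra.restrictScalars ℚ ℝ 𝔸
  exact kilA_core NormedSpace.exp NormedSpace.exp_zero
    (fun x y => NormedSpace.exp_add_of_commute (hcomm x y)) NormedSpace.exp_continuous
    hasStrictFDerivAt_exp_zero a hK hε

end Pool.Agent.H57.CR
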