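import Pool.Agent.H57.CR.RotG
import Pool.Agent.H57.CR.KilA

/-!
# Periodic approximation of a skew map preserving `N` (module KilB)

PROOF. Apply `per_approx` to the subalgebra `𝔸 = Algebra.adjoin ℝ {A}` of `E m →L[ℝ] E m` (finite dimensional; commutative: `Algebra.adjoin_induction`, or `Algebra.commute_of_mem_adjoin_of_forall_mem_commute`), `a = ⟨A, _⟩`. The norm of `𝔸` is that of the ambient algebra, and `(NormedSpace.exp x : E m →L[ℝ] E m) = NormedSpace.exp (x : _)` (continuous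
algebra homomorphism `𝔸.val`: `NormedSpace.map_exp`). `‖NormedSpace.exp (t • A)‖ ≤ 1` because `exp (t • A)` preserves the scalar product (`exists_circ`-style argument: see RotG.lean, the derivative of `t ↦ ⟪exp (t • A) p, exp (t • A) q⟫` is `0`).
`A' = a'`. Every `B = exp (s • A')` is a limit of maps `exp (t • A)`: so `⟪B p, B q⟫ = ⟪p, q⟫` for all `p, q` and `B q ∈ N` for `q ∈ N` (closed conditions; `B ↦ B q` is continuous, `N` closed). Skewness of `A'`: differentiate `⟪exp (s • A') p, exp (s • A') q⟫ = ⟪p, q⟫` at `s = 0`.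
-/

set_option autoImplicit false
set_option linter.unusedSectionVars false

open scoped ContDiff Topology RealInnerProductSpace
open Set

namespace Pool.Agent.H57.CR

open Pool.Agent.H57.NL
open Pool.Agent.H2.TG (IsFlow)

variable {m : ℕ} {N : Set (E m)} {A : E m →L[ℝ] E m}

private lemma KilB_deriv (A : E m →L[ℝ] E m) (t : ℝ) (q : E m) :
    HasDerivAt (fun t : ℝ => NormedSpace.exp (t • A) q) (A (NormedSpace.exp (t • A) q)) t := by
  have h1 : HasDerivAt (fun u : ℝ => NormedSpace.exp (u • A)) (A * NormedSpace.exp (t • A)) t :=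
    hasDerivAt_exp_smul_const' A t
  have h2 := h1.clm_apply (hasDerivAt_const t q)
  simpa using h2

private lemma KilB_zero (A : E m →L[ℝ] E m) (q : E m) : NormedSpace.exp ((0 : ℝ) • A) q = q := by
  have e : (0 : ℝ) • A = 0 := zero_smul ℝ A
  rw [e, NormedSpace.exp_zero]
  rfl

private lemma KilB_dinner (A : E m →L[ℝ] E m) (t : ℝ) (p q : E m) : HasDerivAt
    (fun t : ℝ => ⟪NormedSpace.exp (t • A) p, NormedSpace.exp (t • A) q⟫)
    (⟪NormedSpace.exp (t • A) p, A (NormedSpace.exp (t • A) q)⟫ +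
      ⟪A (NormedSpace.exp (t • A) p), NormedSpace.exp (t • A) q⟫) t :=
  (KilB_deriv A t p).inner ℝ (KilB_deriv A t q)

private lemma KilB_inner (hs : ∀ p q : E m, ⟪A p, q⟫ = -⟪p, A q⟫) (t : ℝ) (p q : E m) :
    ⟪NormedSpace.exp (t • A) p, NormedSpace.exp (t • A) q⟫ = ⟪p, q⟫ := by
  have h2 : ∀ x : ℝ, HasDerivAt
      (fun t : ℝ => ⟪NormedSpace.exp (t • A) p, NormedSpace.exp (t • A) q⟫) 0 x := by
    intro x
    refine (KilB_dinner A x p q).congr_deriv ?_
    rw [hs]
    ring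
  have h4 : ⟪NormedSpace.exp (t • A) p, NormedSpace.exp (t • A) q⟫ =
      ⟪NormedSpace.exp ((0 : ℝ) • A) p, NormedSpace.exp ((0 : ℝ) • A) q⟫ :=
    is_const_of_deriv_eq_zero (fun x => (h2 x).differentiableAt) (fun x => (h2 x).deriv) t 0
  rw [h4, KilB_zero, KilB_zero]

private theorem KilB_abs (hs : ∀ p q : E m, ⟪A p, q⟫ = -⟪p, A q⟫) (hNc : IsClosed N)
    (hN : ∀ t : ℝ, ∀ q ∈ N, NormedSpace.exp (t • A) q ∈ N) {ε : ℝ} (hε : 0 < ε)
    {B : Type} [NormedRing B] [NormedAlgebra ℝ B] [FiniteDimensional ℝ B]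
    (hcomm : ∀ x y : B, x * y = y * x) (f : B →ₐ[ℝ] (E m →L[ℝ] E m)) (hf : ∀ x, ‖f x‖ = ‖x‖)
    (a : B) (ha : f a = A) :
    ∃ (A' : E m →L[ℝ] E m) (T : ℝ), 0 < T ∧ ‖A' - A‖ < ε ∧
      (∀ p q : E m, ⟪A' p, q⟫ = -⟪p, A' q⟫) ∧ NormedSpace.exp (T • A') = 1 ∧
      ∀ t : ℝ, ∀ q ∈ N, NormedSpace.exp (t • A') q ∈ N := by
  have hB : CompleteSpace B := FiniteDimensional.complete ℝ B
  have hfc : Continuous f := f.toLinearMap.continuous_of_finiteDimensional
  have hexp : ∀ x : B, f (NormedSpace.exp x) = NormedSpace.exp (f x) := fun x =>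
    NormedSpace.map_exp_of_mem_ball (𝕂 := ℝ) f hfc x (by
      rw [NormedSpace.expSeries_radius_eq_top]; exact edist_lt_top _ _)
  have hfa : ∀ t : ℝ, f (t • a) = t • A := fun t => by rw [map_smul, ha]
  have hK : ∀ t : ℝ, ‖NormedSpace.exp (t • a)‖ ≤ 1 := by
    intro t
    rw [← hf, hexp, hfa]
    refine ContinuousLinearMap.opNorm_le_bound _ zero_le_one fun q => ?_
    rw [one_mul]
    have h1 := KilB_inner hs t q q
    rw [real_inner_self_eq_norm_sq, real_inner_self_eq_norm_sq] at h1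
    exact (pow_le_pow_iff_left₀ (norm_nonneg _) (norm_nonneg _) two_ne_zero).1 h1.le
  obtain ⟨a', T, hT, hd, h1, hcl⟩ := per_approx hcomm a hK hε
  have hcl' : ∀ s : ℝ, NormedSpace.exp (s • f a') ∈
      closure (range fun t : ℝ => NormedSpace.exp (t • A)) := by
    intro s
    have h2 := map_mem_closure hfc (hcl s) (t := range fun t : ℝ => NormedSpace.exp (t • A)) (by
        rintro _ ⟨t, rfl⟩
        refine ⟨t, ?_⟩
        simp only
        rw [hexp, hfa])
    rwa [hexp, map_smul] at h2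
  have hin : ∀ (s : ℝ) (p q : E m), ⟪NormedSpace.exp (s • f a') p,
      NormedSpace.exp (s • f a') q⟫ = ⟪p, q⟫ := by
    intro s p q
    have h2 : IsClosed {B : E m →L[ℝ] E m | ⟪B p, B q⟫ = ⟪p, q⟫} :=
      isClosed_eq (by fun_prop) continuous_const
    exact closure_minimal (by
      rintro _ ⟨t, rfl⟩
      exact KilB_inner hs t p q) h2 (hcl' s)
  refine ⟨f a', T, hT, ?_, ?_, ?_, ?_⟩
  · rw [← ha, ← map_sub, hf]
    exact hd
  · intro p q
    have h2 := KilB_dinner (f a') 0 p q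
    simp only [hin] at h2
    have h3 := h2.unique (hasDerivAt_const (0 : ℝ) (⟪p, q⟫))
    simp only [KilB_zero] at h3
    linarith
  · have h2 := congrArg f h1
    rw [hexp, map_smul, map_one] at h2
    exact h2
  · intro t q hq
    have h2 : IsClosed {B : E m →L[ℝ] E m | B q ∈ N} := hNc.preimage (by fun_prop)
    exact closure_minimal (by
      rintro _ ⟨s, rfl⟩
      exact hN s q hq) h2 (hcl' t)

theorem kil_approx (hs : ∀ p q : E m, ⟪A p, q⟫ = -⟪p, A q⟫) (hNc : IsClosed N)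
    (hN : ∀ t : ℝ, ∀ q ∈ N, NormedSpace.exp (t • A) q ∈ N) {ε : ℝ} (hε : 0 < ε) :
    ∃ (A' : E m →L[ℝ] E m) (T : ℝ), 0 < T ∧ ‖A' - A‖ < ε ∧
      (∀ p q : E m, ⟪A' p, q⟫ = -⟪p, A' q⟫) ∧ NormedSpace.exp (T • A') = 1 ∧
      ∀ t : ℝ, ∀ q ∈ N, NormedSpace.exp (t • A') q ∈ N := by
  let S : Subalgebra ℝ (E m →L[ℝ] E m) := Algebra.adjoin ℝ {A}
  have hcomm : ∀ x y : S, x * y = y * x := by
    intro x y
    have h1 : IsMulCommutative S := Algebra.isMulCommutative_adjoin_singleton ℝ A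
    exact mul_comm' x y
  have hfd : FiniteDimensional ℝ S := FiniteDimensional.of_injective S.val.toLinearMap
    Subtype.val_injective
  exact KilB_abs hs hNc hN hε (B := S) hcomm S.val (fun _ => rfl)
    ⟨A, Algebra.self_mem_adjoin_singleton ℝ A⟩ rfl

end Pool.Agent.H57.CR
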