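import Pool.Agent.H57.CR.Curv2

/-!
# The flow of the leaves (module LeafA)

`LF κ x = ((0, cos x.2, sin x.2), κ x)`. PORT of `Pool/Agent/H2/TG/LeafA.lean` (same proofs). `exists_leaf`: `exists_curv`,
`exists_isFlow` (H2/TG/Flow; `‖LF κ x‖ ≤ max 1 B`). `leaf_q`: the first component of `LF κ` is `0`. Everything else is a
component of `hL.flow.deriv`.
-/

set_option autoImplicit false
set_option linter.unusedSectionVars false

open scoped ContDiff Topology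
open Set

namespace Pool.Agent.H57.CR

open Pool.Agent.H2.TG (IsFlow angle_unique angle_exists smooth_angle)

variable {P : Type} [NormedAddCommGroup P] [NormedSpace ℝ P] [FiniteDimensional ℝ P] {N : Set P}
  {K : Set (P × ℝ × ℝ)} {f : P × ℝ × ℝ → ℝ}
  {κ : (P × ℝ × ℝ) × ℝ → ℝ} {Λ : ℝ → (P × ℝ × ℝ) × ℝ → (P × ℝ × ℝ) × ℝ}

theorem LF_contDiff (hκ : Curv N K κ) : ContDiff ℝ ∞ (LF κ) := by
  unfold LF
  exact (contDiff_const.prodMk ((Real.contDiff_cos.comp contDiff_snd).prodMk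
    (Real.contDiff_sin.comp contDiff_snd))).prodMk hκ.smooth

theorem exists_leaf (hR : Fam N K f) : ∃ κ Λ, Leaf N K f κ Λ := by
  obtain ⟨κ, hκ⟩ := exists_curv hR
  obtain ⟨B, hB⟩ := hκ.bdd
  obtain ⟨Λ, hΛ⟩ := Pool.Agent.H2.TG.exists_isFlow (LF_contDiff hκ) (K := max 1 B) fun x => by
    unfold LF
    rw [Prod.norm_def, Prod.norm_def, Prod.norm_def]
    refine max_le_max (max_le ?_ (max_le ?_ ?_)) ?_
    · rw [norm_zero]
      exact zero_le_one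
    · rw [Real.norm_eq_abs]
      exact Real.abs_cos_le_one _
    · rw [Real.norm_eq_abs]
      exact Real.abs_sin_le_one _
    · rw [Real.norm_eq_abs]
      exact hB x
  exact ⟨κ, Λ, hR, hκ, hΛ⟩

private theorem LeafA_local (hR : Fam N K f) (hκ : Curv N K κ) (hΛ : IsFlow (LF κ) Λ)
    {x : (P × ℝ × ℝ) × ℝ} (hx : x ∈ PS N K) : ∃ ε : ℝ, 0 < ε ∧ ∀ t, |t| ≤ ε → Λ t x ∈ PS N K := by
  obtain ⟨W, u, hxW, hC⟩ := hR.loc x.1 hx.1
  obtain ⟨W₁, ϑ, -, hx1, hC1, hϑ, hϑx⟩ := exists_phase hC hxW (hx.2 W u hxW hC)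
  obtain ⟨ε, y, hε, hy0, hy⟩ := exists_curve hC1 hϑ hx.1 hx1
  have hPS : ∀ t, |t| < ε → (y t, ϑ (y t)) ∈ PS N K := by
    intro t ht
    obtain ⟨h1, h2, -⟩ := hy t ht
    exact (mem_PS (x := (y t, ϑ (y t))) hC1 h1 h2).2 (hϑ.tang (y t) h2)
  have hder : ∀ t, |t| ≤ ε / 2 →
      HasDerivAt (fun t => ((y t, ϑ (y t)) : (P × ℝ × ℝ) × ℝ)) (LF κ (y t, ϑ (y t))) t := by
    intro t ht
    have ht' : |t| < ε := by linarith
    obtain ⟨h1, h2, h3⟩ := hy t ht'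
    have hd : DifferentiableAt ℝ ϑ (y t) :=
      (hϑ.smooth.contDiffAt (hC1.isOpen.mem_nhds h2)).differentiableAt (by simp)
    have h4 : HasDerivAt (fun t => ϑ (y t))
        (fderiv ℝ ϑ (y t) (0, Real.cos (ϑ (y t)), Real.sin (ϑ (y t)))) t :=
      hd.hasFDerivAt.comp_hasDerivAt t h3
    have h5 := hκ.curv (y t, ϑ (y t)) (hPS t ht') W₁ u ϑ h2 hC1 hϑ 0 (by simp)
    have h6 := h3.prodMk h4
    have h7 : LF κ (y t, ϑ (y t)) = ((0, Real.cos (ϑ (y t)), Real.sin (ϑ (y t))),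
        fderiv ℝ ϑ (y t) (0, Real.cos (ϑ (y t)), Real.sin (ϑ (y t)))) := by
      unfold LF
      rw [h5]
    rw [h7]
    exact h6
  refine ⟨ε / 2, by linarith, fun t ht => ?_⟩
  have h8 := hΛ.unique_on (LF_contDiff hκ) hder t ht
  have h9 : ((y 0, ϑ (y 0)) : (P × ℝ × ℝ) × ℝ) = x := by
    rw [hy0, hϑx]
  simp only [h9] at h8
  rw [← h8]
  exact hPS t (by linarith)

theorem leaf_mem (hL : Leaf N K f κ Λ) {x : (P × ℝ × ℝ) × ℝ} (hx : x ∈ PS N K) (s : ℝ) :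
    Λ s x ∈ PS N K := by
  have hR := hL.fam
  have hκ := hL.curv
  have hΛ := hL.flow
  have hcont : Continuous fun s => Λ s x :=
    continuous_iff_continuousAt.2 fun t => (hΛ.deriv x t).continuousAt
  have hcl : IsClosed {s : ℝ | Λ s x ∈ PS N K} := (PS_closed hR).preimage hcont
  have hop : IsOpen {s : ℝ | Λ s x ∈ PS N K} := by
    rw [isOpen_iff_mem_nhds]
    intro s hs
    obtain ⟨ε, hε, h⟩ := LeafA_local hR hκ hΛ (x := Λ s x) hs
    filter_upwards [Metric.ball_mem_nhds s hε] with s' hs'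
    have h1 : |s' - s| ≤ ε := by
      rw [Metric.mem_ball, Real.dist_eq] at hs'
      exact hs'.le
    have h2 := h (s' - s) h1
    rw [hΛ.add (LF_contDiff hκ)] at h2
    have h3 : s' - s + s = s' := by ring
    rw [h3] at h2
    exact h2
  have hne : {s : ℝ | Λ s x ∈ PS N K}.Nonempty := ⟨0, by
    show Λ 0 x ∈ PS N K
    rw [hΛ.zero]; exact hx⟩
  have huniv := IsClopen.eq_univ ⟨hcl, hop⟩ hne
  have : s ∈ {s : ℝ | Λ s x ∈ PS N K} := by rw [huniv]; trivial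
  exact this

theorem leaf_phi (hL : Leaf N K f κ Λ) : ∃ B : ℝ, 0 < B ∧ ∀ x s, |(Λ s x).2 - x.2| ≤ B * |s| := by
  obtain ⟨B, hB⟩ := hL.curv.bdd
  have hΛ := hL.flow
  refine ⟨max B 1, lt_of_lt_of_le one_pos (le_max_right _ _), fun x s => ?_⟩
  have h1 : ∀ t : ℝ, HasDerivAt (fun t => (Λ t x).2) (κ (Λ t x)) t := by
    intro t
    exact (hΛ.deriv x t).snd
  have h2 := Convex.norm_image_sub_le_of_norm_hasDerivWithin_le (s := (Set.univ : Set ℝ))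
    (f := fun t => (Λ t x).2) (f' := fun t => κ (Λ t x)) (C := max B 1)
    (fun t _ => (h1 t).hasDerivWithinAt)
    (fun t _ => by rw [Real.norm_eq_abs]; exact (hB _).trans (le_max_left _ _))
    convex_univ (Set.mem_univ (0 : ℝ)) (Set.mem_univ s)
  simp only [hΛ.zero, sub_zero, Real.norm_eq_abs] at h2
  exact h2

theorem leaf_add (hL : Leaf N K f κ Λ) (s s' : ℝ) (x : (P × ℝ × ℝ) × ℝ) :
    Λ s (Λ s' x) = Λ (s + s') x :=
  hL.flow.add (LF_contDiff hL.curv) s s' x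

theorem leaf_cont (hL : Leaf N K f κ Λ) :
    Continuous fun y : ℝ × ((P × ℝ × ℝ) × ℝ) => Λ y.1 y.2 :=
  hL.flow.smooth.continuous

theorem leaf_q (hL : Leaf N K f κ Λ) (x : (P × ℝ × ℝ) × ℝ) (s : ℝ) : (Λ s x).1.1 = x.1.1 := by
  have h1 : ∀ t : ℝ, HasDerivAt (fun t => (Λ t x).1.1) 0 t := fun t => (hL.flow.deriv x t).fst.fst
  have h2 := is_const_of_deriv_eq_zero (fun t => (h1 t).differentiableAt) (fun t => (h1 t).deriv)
    s 0
  simp only [hL.flow.zero] at h2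
  exact h2

theorem leaf_t (hL : Leaf N K f κ Λ) (x : (P × ℝ × ℝ) × ℝ) (s : ℝ) :
    HasDerivAt (fun s => (Λ s x).1.2.1) (Real.cos (Λ s x).2) s :=
  (hL.flow.deriv x s).fst.snd.fst

theorem leaf_r (hL : Leaf N K f κ Λ) (x : (P × ℝ × ℝ) × ℝ) (s : ℝ) :
    HasDerivAt (fun s => (Λ s x).1.2.2) (Real.sin (Λ s x).2) s :=
  (hL.flow.deriv x s).fst.snd.snd

theorem leaf_ph (hL : Leaf N K f κ Λ) (x : (P × ℝ × ℝ) × ℝ) (s : ℝ) :
    HasDerivAt (fun s => (Λ s x).2) (κ (Λ s x)) s :=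
  (hL.flow.deriv x s).snd

end Pool.Agent.H57.CR
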