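import Pool.Agent.H57.CR.LeafA

/-!
# Symmetries of the leaves (module LeafB)

PORT of `leaf_trans`, `leaf_even`, `leaf_odd` of `Pool/Agent/H2/TG/LeafB.lean`. `shf k j x = (shp k x.1, x.2 + j π)`.
* `leaf_shf`, `j` even: for `x ∈ PS` the curve `s ↦ shf k j (Λ s x)` is an integral curve of `LF κ`: `cos`, `sin` do not
  change, and `κ (shf k j y) = κ y` for `y = Λ s x ∈ PS` (`hL.curv.curv` says that `cval N K y (κ y)`; `cval_shp`, `cval_pi`,
  `cval_unique`; `(-1)^j = 1`); uniqueness (`IsFlow.unique`, its hypothesis `ContDiff` is `LF_contDiff`).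
* `leaf_odd`: the curve `s ↦ shf k j (Λ (-s) x)`; `cos (φ + j π) = - cos φ`, `sin (φ + j π) = - sin φ`,
  `κ (shf k j y) = - κ y` for `j` odd.
* `fprim`: `hL.fam.prim` along the leaf (`leaf_t`, `leaf_r`, `leaf_q`, `leaf_mem`).
-/

set_option autoImplicit false
set_option linter.unusedSectionVars false

open scoped ContDiff Topology
open Set

namespace Pool.Agent.H57.CR

open Pool.Agent.H2.TG (IsFlow angle_unique angle_exists smooth_angle)

variable {P : Type} [NormedAddCommGroup P] [NormedSpace ℝ P] [FiniteDimensional ℝ P] {N : Set P}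
  {K : Set (P × ℝ × ℝ)} {f : P × ℝ × ℝ → ℝ}
  {κ : (P × ℝ × ℝ) × ℝ → ℝ} {Λ : ℝ → (P × ℝ × ℝ) × ℝ → (P × ℝ × ℝ) × ℝ}

private theorem lb_shift (hR : Fam N K f) (hκ : Curv N K κ) {y : (P × ℝ × ℝ) × ℝ}
    (hy : y ∈ PS N K) (k j : ℤ) : κ (shf k j y) = (-1) ^ j * κ y := by
  have h1 : cval N K y (κ y) := hκ.curv y hy
  have h2 : cval N K (shp k y.1, y.2) (κ y) := cval_shp hR k h1
  have h3 := cval_pi hR (PS_shp hR k hy) h2 j
  have h4 : shf k j y ∈ PS N K := PS_shf hR hy k j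
  exact cval_unique hR h4 (hκ.curv _ h4) h3

private theorem lb_LF (hR : Fam N K f) (hκ : Curv N K κ) {y : (P × ℝ × ℝ) × ℝ}
    (hy : y ∈ PS N K) (k j : ℤ) : LF κ (shf k j y) = (-1 : ℝ) ^ j • LF κ y := by
  have h := lb_shift hR hκ hy k j
  unfold LF
  rw [h]
  simp only [shf, Real.cos_add_int_mul_pi, Real.sin_add_int_mul_pi,
    Prod.smul_mk, smul_eq_mul, smul_zero]

private theorem lb_add (k j : ℤ) (y : (P × ℝ × ℝ) × ℝ) :
    shf k j y = y + (((0 : P), (k : ℝ), (0 : ℝ)), (j : ℝ) * Real.pi) := by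
  ext <;> simp [shf, shp]

private theorem lb_deriv (k j : ℤ) {γ : ℝ → (P × ℝ × ℝ) × ℝ} {γ' : (P × ℝ × ℝ) × ℝ} {t : ℝ}
    (h : HasDerivAt γ γ' t) : HasDerivAt (fun s => shf k j (γ s)) γ' t := by
  simp only [lb_add]
  exact h.add_const _

theorem leaf_shf (hL : Leaf N K f κ Λ) {x : (P × ℝ × ℝ) × ℝ} (hx : x ∈ PS N K) (k : ℤ) {j : ℤ}
    (hj : Even j) (s : ℝ) : Λ s (shf k j x) = shf k j (Λ s x) := by
  have h := hL.flow.unique (LF_contDiff hL.curv) (γ := fun s => shf k j (Λ s x))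
    (fun t => by
      have h1 := lb_deriv k j (hL.flow.deriv x t)
      rw [lb_LF hL.fam hL.curv (leaf_mem hL hx t) k j, hj.neg_one_zpow, one_smul]
      exact h1) s
  simp only [hL.flow.zero] at h
  exact h.symm

theorem leaf_odd (hL : Leaf N K f κ Λ) {x : (P × ℝ × ℝ) × ℝ} (hx : x ∈ PS N K) (k : ℤ) {j : ℤ}
    (hj : Odd j) (s : ℝ) : Λ s (shf k j x) = shf k j (Λ (-s) x) := by
  have h := hL.flow.unique (LF_contDiff hL.curv) (γ := fun s => shf k j (Λ (-s) x))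
    (fun t => by
      have h0 := lb_deriv k j (hL.flow.deriv x (-t))
      have h1 := h0.scomp t (hasDerivAt_neg t)
      rw [lb_LF hL.fam hL.curv (leaf_mem hL hx (-t)) k j, hj.neg_one_zpow]
      exact h1) s
  simp only [hL.flow.zero, neg_zero] at h
  exact h.symm

theorem fprim (hL : Leaf N K f κ Λ) {x : (P × ℝ × ℝ) × ℝ} (hx : x ∈ PS N K) (s : ℝ) :
    HasDerivAt (fun s => f (Λ s x).1) ((Λ s x).1.2.2 * Real.cos (Λ s x).2) s := by
  have e : ∀ s', (x.1.1, (Λ s' x).1.2) = (Λ s' x).1 := by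
    intro s'
    rw [← leaf_q hL x s']
  have h := hL.fam.prim x.1.1 (fun s' => (Λ s' x).1.2) s (Real.cos (Λ s x).2)
    (Real.sin (Λ s x).2)
    (Filter.Eventually.of_forall fun s' => by
      show (x.1.1, (Λ s' x).1.2) ∈ K
      rw [e s']
      exact (leaf_mem hL hx s').1)
    ((leaf_t hL x s).prodMk (leaf_r hL x s))
  have h2 : (fun s' => f (x.1.1, (Λ s' x).1.2)) = fun s => f (Λ s x).1 := by
    funext s'
    rw [e s']
  rw [← h2]
  exact h

end Pool.Agent.H57.CR
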