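import Pool.Agent.H57.CR.Defs

/-!
# Local phases and curves in `K` (module Line)

The same proofs as in `H2/TG/Line.lean`, with a parameter.
-/

set_option autoImplicit false
set_option linter.unusedSectionVars false

open scoped ContDiff Topology
open Set

namespace Pool.Agent.H57.CR

open Pool.Agent.H2.TG (IsFlow angle_unique angle_exists smooth_angle)

variable {P : Type} [NormedAddCommGroup P] [NormedSpace ℝ P] [FiniteDimensional ℝ P] {N : Set P}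
  {K W W' : Set (P × ℝ × ℝ)} {u u' ϑ : P × ℝ × ℝ → ℝ}

theorem dpl_lin (y : P × ℝ × ℝ) (a b : ℝ) :
    dpl u y a b = a * dpl u y 1 0 + b * dpl u y 0 1 := by
  unfold dpl
  have h : ((0, a, b) : P × ℝ × ℝ) = a • (((0 : P), (1 : ℝ), (0 : ℝ)) : P × ℝ × ℝ)
      + b • (((0 : P), (0 : ℝ), (1 : ℝ)) : P × ℝ × ℝ) := by
    ext <;> simp
  rw [h, map_add, map_smul, map_smul, smul_eq_mul, smul_eq_mul]

theorem LocEq.mono (hC : LocEq N K W u) {W₁ : Set (P × ℝ × ℝ)} (h1 : IsOpen W₁) (h2 : W₁ ⊆ W) :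
    LocEq N K W₁ u :=
  ⟨h1, hC.smooth.mono h2, fun y hy => hC.eqn y (h2 hy), fun y hy => hC.reg y (h2 hy)⟩

private lemma dpl_smooth (hC : LocEq N K W u) (a b : ℝ) :
    ContDiffOn ℝ ∞ (fun y => dpl u y a b) W := by
  unfold dpl
  exact (hC.smooth.fderiv_of_isOpen hC.isOpen (by exact_mod_cast le_rfl)).clm_apply
    contDiffOn_const

theorem exists_phase (hC : LocEq N K W u) {x : P × ℝ × ℝ} (hx : x ∈ W) {φ : ℝ}
    (hφ : dpl u x (Real.cos φ) (Real.sin φ) = 0) :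
    ∃ (W₁ : Set (P × ℝ × ℝ)) (ϑ : P × ℝ × ℝ → ℝ), W₁ ⊆ W ∧ x ∈ W₁ ∧ LocEq N K W₁ u ∧
      PhaseOf W₁ u ϑ ∧ ϑ x = φ := by
  obtain ⟨W₁, ϑ, ho, hs, hxm, hsm, he, ht⟩ := smooth_angle hC.isOpen (dpl_smooth hC 1 0)
    (dpl_smooth hC 0 1) hx (hC.reg x hx) (φ0 := φ) (by
      have := dpl_lin (u := u) x (Real.cos φ) (Real.sin φ)
      rw [hφ] at this
      linarith)
  refine ⟨W₁, ϑ, hs, hxm, hC.mono ho hs, ⟨hsm, fun y hy => ?_⟩, he⟩
  rw [dpl_lin]
  have := ht y hy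
  linarith

theorem exists_curve (hC : LocEq N K W u) (hϑ : PhaseOf W u ϑ) {x : P × ℝ × ℝ} (hx : x ∈ K)
    (hxW : x ∈ W) : ∃ (ε : ℝ) (y : ℝ → P × ℝ × ℝ), 0 < ε ∧ y 0 = x ∧ ∀ t, |t| < ε →
      y t ∈ K ∧ y t ∈ W ∧ HasDerivAt y (0, Real.cos (ϑ (y t)), Real.sin (ϑ (y t))) t := by
  have hf : ContDiffOn ℝ ∞ (fun y : P × ℝ × ℝ => ((0, Real.cos (ϑ y), Real.sin (ϑ y)) : P × ℝ × ℝ))
      W :=
    contDiffOn_const.prodMk ((Real.contDiff_cos.comp_contDiffOn hϑ.smooth).prodMk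
      (Real.contDiff_sin.comp_contDiffOn hϑ.smooth))
  have hf1 : ContDiffAt ℝ 1 (fun y : P × ℝ × ℝ =>
      ((0, Real.cos (ϑ y), Real.sin (ϑ y)) : P × ℝ × ℝ)) x :=
    (hf.contDiffAt (hC.isOpen.mem_nhds hxW)).of_le (by exact_mod_cast le_top)
  obtain ⟨y, hy0, ε, hε, hy⟩ :=
    hf1.exists_forall_mem_closedBall_exists_eq_forall_mem_Ioo_hasDerivAt₀ 0
  simp only [zero_sub, zero_add] at hy
  have hcont : ContinuousAt y 0 := (hy 0 ⟨by linarith, hε⟩).continuousAt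
  have hev : ∀ᶠ t in 𝓝 (0 : ℝ), y t ∈ W :=
    hcont.eventually_mem (by rw [hy0]; exact hC.isOpen.mem_nhds hxW)
  obtain ⟨δ, hδ, hW⟩ := Metric.eventually_nhds_iff.mp hev
  refine ⟨min ε δ, y, lt_min hε hδ, hy0, ?_⟩
  have hW' : ∀ t, |t| < min ε δ → y t ∈ W := fun t ht =>
    hW (by simpa [Real.dist_eq] using lt_of_lt_of_le ht (min_le_right _ _))
  have hd : ∀ t, |t| < min ε δ →
      HasDerivAt y (0, Real.cos (ϑ (y t)), Real.sin (ϑ (y t))) t := fun t ht =>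
    hy t (abs_lt.mp (lt_of_lt_of_le ht (min_le_left _ _)))
  have hu : ∀ t ∈ Ioo (-min ε δ) (min ε δ), HasDerivAt (fun s => u (y s)) 0 t := by
    intro t ht
    have ht' : |t| < min ε δ := abs_lt.mpr ht
    have hdu : DifferentiableAt ℝ u (y t) :=
      (hC.smooth.contDiffAt (hC.isOpen.mem_nhds (hW' t ht'))).differentiableAt (by simp)
    have h1 := hdu.hasFDerivAt.comp_hasDerivAt t (hd t ht')
    have h2 := hϑ.tang (y t) (hW' t ht')
    unfold dpl at h2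
    rw [h2] at h1
    exact h1
  intro t ht
  refine ⟨?_, hW' t ht, hd t ht⟩
  have hfst : ∀ s ∈ Ioo (-min ε δ) (min ε δ), HasDerivAt (fun s => (y s).1) 0 s := fun s hs =>
    (hd s (abs_lt.mpr hs)).fst
  rw [hC.eqn _ (hW' t ht)]
  have h0 : (0 : ℝ) ∈ Ioo (-min ε δ) (min ε δ) := by
    have := lt_min hε hδ
    exact ⟨by linarith, this⟩
  have := isOpen_Ioo.is_const_of_deriv_eq_zero (f := fun s => u (y s))
    (isPreconnected_Ioo (a := -min ε δ) (b := min ε δ))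
    (fun s hs => (hu s hs).differentiableAt.differentiableWithinAt)
    (fun s hs => (hu s hs).deriv) (abs_lt.mp ht) h0
  simp only [hy0] at this
  have hq := isOpen_Ioo.is_const_of_deriv_eq_zero (f := fun s => (y s).1)
    (isPreconnected_Ioo (a := -min ε δ) (b := min ε δ))
    (fun s hs => (hfst s hs).differentiableAt.differentiableWithinAt)
    (fun s hs => (hfst s hs).deriv) (abs_lt.mp ht) h0
  simp only [hy0] at hq
  rw [this, hq]
  exact (hC.eqn x hxW).mp hx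

theorem dpl_zero (hC : LocEq N K W u) (hC' : LocEq N K W' u') {x : P × ℝ × ℝ} (hx : x ∈ K)
    (hxW : x ∈ W) (hxW' : x ∈ W') {a b : ℝ} (h : dpl u x a b = 0) :
    dpl u' x a b = 0 := by
  obtain ⟨φ, hφ⟩ := angle_exists b (-a)
  have hsc := Real.sin_sq_add_cos_sq φ
  set ρ : ℝ := a * Real.cos φ + b * Real.sin φ with hρ
  have ha : a = ρ * Real.cos φ := by
    rw [hρ]; linear_combination (-a) * hsc - Real.sin φ * hφ
  have hb : b = ρ * Real.sin φ := by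
    rw [hρ]; linear_combination (-b) * hsc + Real.cos φ * hφ
  have hscale : ∀ w : P × ℝ × ℝ → ℝ, dpl w x a b
      = ρ * dpl w x (Real.cos φ) (Real.sin φ) := by
    intro w
    rw [dpl_lin, dpl_lin x (Real.cos φ)]
    rw [ha, hb]
    have e1 : ρ * Real.cos φ * Real.cos φ + ρ * Real.sin φ * Real.sin φ = ρ := by
      linear_combination ρ * hsc
    ring
  by_cases h0 : ρ = 0
  · rw [hscale, h0, zero_mul]
  · rw [hscale] at h
    have hz : dpl u x (Real.cos φ) (Real.sin φ) = 0 := by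
      rcases mul_eq_zero.mp h with h | h
      · exact absurd h h0
      · exact h
    obtain ⟨W₁, ϑ, hs, hxm, hC1, hP, he⟩ := exists_phase hC hxW hz
    obtain ⟨ε, y, hε, hy0, hy⟩ := exists_curve hC1 hP hx hxm
    have hy00 := (hy 0 (by simpa using hε)).2.2
    have hdu : DifferentiableAt ℝ u' (y 0) := by
      rw [hy0]
      exact (hC'.smooth.contDiffAt (hC'.isOpen.mem_nhds hxW')).differentiableAt (by simp)
    have h1 := hdu.hasFDerivAt.comp_hasDerivAt (0 : ℝ) hy00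
    have hev : ∀ᶠ t in 𝓝 (0 : ℝ), y t ∈ W' :=
      hy00.continuousAt.eventually_mem (by rw [hy0]; exact hC'.isOpen.mem_nhds hxW')
    have hev2 : ∀ᶠ t in 𝓝 (0 : ℝ), |t| < ε := by
      refine Metric.eventually_nhds_iff.mpr ⟨ε, hε, fun t ht => ?_⟩
      simpa [Real.dist_eq] using ht
    have hev3 : (u' ∘ y) =ᶠ[𝓝 0] fun _ => (0 : ℝ) := by
      filter_upwards [hev, hev2] with t h2 h3
      exact ((hC'.eqn _ h2).mp (hy t h3).1).2
    have h2 := (hasDerivAt_const (0 : ℝ) (0 : ℝ)).congr_of_eventuallyEq hev3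
    have h3 := h1.unique h2
    rw [hy0, he] at h3
    rw [hscale]
    have h4 : dpl u' x (Real.cos φ) (Real.sin φ) = 0 := h3
    rw [h4, mul_zero]

theorem mem_PS (hC : LocEq N K W u) {x : (P × ℝ × ℝ) × ℝ} (hx : x.1 ∈ K) (hxW : x.1 ∈ W) :
    x ∈ PS N K ↔ dpl u x.1 (Real.cos x.2) (Real.sin x.2) = 0 :=
  ⟨fun h => h.2 W u hxW hC, fun h => ⟨hx, fun _ _ hW' hC' => dpl_zero hC hC' hx hxW hW' h⟩⟩

end Pool.Agent.H57.CR
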