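import Pool.Agent.H57.CR.Per
import Pool.Agent.H57.CR.EmbOpenG
import Pool.Agent.H57.CR.KilB

/-!
# The main theorem
-/

set_option autoImplicit false
set_option linter.unusedSectionVars false

open scoped ContDiff Topology RealInnerProductSpace
open Set

namespace Pool.Agent.H57.CR

open Pool.Agent.H57.NL
open Pool.Agent.H2.TG (IsFlow)

variable {m n : ℕ} {N : Set (E m)} {A : E m →L[ℝ] E m} {S : Set (E m × E m)}
  {f : E m × E m → ℝ}

theorem main (hM : ClosedMfd n N ⊥) (hs : ∀ p q : E m, ⟪A p, q⟫ = -⟪p, A q⟫)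
    (hA : ∀ t : ℝ, ∀ q ∈ N, NormedSpace.exp (t • A) q ∈ N) (hL : ExactLag n N ⊥ S f)
    (hE : Emb A S) :
    ∃ ψ ψ', SympDiffeo N ⊥ ψ ψ' ∧ ψ '' {z | z.1 ∈ N ∧ z.2 = 0} = S := by
  have hc := compact_of hM
  obtain ⟨ε, hε, hopen⟩ := emb_open hc hL hE
  obtain ⟨A', T, hT, hAA, hs', h1, hN'⟩ := kil_approx hs hM.closed hA hε
  have hE' : Emb (T • A') S := (hopen A' hAA).smul' hT.ne'
  have hs'' : ∀ p q : E m, ⟪(T • A') p, q⟫ = -⟪p, (T • A') q⟫ := by
    intro p q
    simp only [smul_apply, real_inner_smul_left, real_inner_smul_right,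
      hs' p q]
    ring
  have hR := exists_circ (N := N) hs'' h1 (fun t q hq => by
    rw [smul_smul]
    exact hN' _ q hq)
  exact periodic hM.sub hc hM.conn hR hL hE'

end Pool.Agent.H57.CR
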