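import Pool.Agent.H57.CR.WDefs

/-!
# The Cauchy kernel on a disc (module WindE, Mathlib only)

PROOFS.
* `ker_norm`: `‖w‖⁻¹` is integrable on the ball of radius `r` around `0` with integral `2 π r` (polar coordinates: `Complex.polarCoord` /
  `Complex.integral_comp_polarCoord_symm`, or `MeasureTheory.Measure.toSphere`, or `integrable_fun_norm_addHaar` and
  `integral_fun_norm_addHaar`); the ball of radius `R` around `0` is contained in the ball of radius `2 R` around `ζ` for `‖ζ‖ < R`;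
  translation invariance.
* `ker_int`: by polar coordinates around `0` (`Complex.integral_comp_polarCoord_symm`, restricted to the disc) and
  Fubini the integral is `∫_0^R ρ (∫_{-π}^{π} (ζ - ρ e^{iα})⁻¹ dα) dρ`, and for `ρ > 0`, `ρ ≠ ‖ζ‖`:
  `∫_{-π}^{π} (ζ - ρ e^{iα})⁻¹ dα = ∮_{|w| = ρ} (i w (ζ - w))⁻¹ dw`, which is `2 π / ζ` for `ρ < ‖ζ‖` and `0` for `ρ > ‖ζ‖`
  (mean value property of `(ζ - w)⁻¹`, holomorphic in `|w| < ‖ζ‖`: `circleAverage` / `DiffContOnCl.circleIntegral_sub_inv_smul`; for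
  `ρ > ‖ζ‖`: `(ζ - w)⁻¹ = -w⁻¹ (1 - ζ / w)⁻¹`, or `1 / (w (ζ - w)) = (1 / ζ) (1 / w + 1 / (ζ - w))` and
  `circleIntegral.integral_sub_inv_of_mem_ball`, both `1 / w` and `1 / (w - ζ)` have integral `2 π i`; `ζ = 0` separately:
  `1 / w²` has integral `0`). So the total is `∫_0^{‖ζ‖} 2 π ρ / ζ dρ = π ‖ζ‖² / ζ = π conj ζ`.
-/

set_option autoImplicit false

open scoped Topology
open Set MeasureTheory

namespace Pool.Agent.H57.CR

private theorem we_radial {r : ℝ} (hr : 0 < r) :
    Integrable (fun w : ℂ => (Set.Iio r).indicator (fun y : ℝ => y⁻¹) ‖w‖) ∧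
      ∫ w : ℂ, (Set.Iio r).indicator (fun y : ℝ => y⁻¹) ‖w‖ = 2 * Real.pi * r := by
  have hf2 : Module.finrank ℝ ℂ - 1 = 1 := by rw [Complex.finrank_real_complex]
  have hcong : ∀ y ∈ Set.Ioi (0 : ℝ), y ^ (Module.finrank ℝ ℂ - 1) •
      (Set.Iio r).indicator (fun y : ℝ => y⁻¹) y = (Set.Iio r).indicator (fun _ => (1 : ℝ)) y := by
    intro y hy
    have hy0 : (0 : ℝ) < y := hy
    rw [hf2, pow_one, smul_eq_mul]
    by_cases h : y ∈ Set.Iio r
    · rw [Set.indicator_of_mem h, Set.indicator_of_mem h, mul_inv_cancel₀ hy0.ne']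
    · rw [Set.indicator_of_notMem h, Set.indicator_of_notMem h, mul_zero]
  have hset : Set.Ioi (0 : ℝ) ∩ Set.Iio r = Set.Ioo 0 r := by
    ext y; simp
  constructor
  · rw [integrable_fun_norm_addHaar (μ := (volume : Measure ℂ))
      (f := (Set.Iio r).indicator fun y : ℝ => y⁻¹), integrableOn_congr_fun hcong measurableSet_Ioi]
    rw [IntegrableOn, integrable_indicator_iff measurableSet_Iio, IntegrableOn,
      Measure.restrict_restrict measurableSet_Iio, Set.inter_comm, hset]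
    exact integrableOn_const measure_Ioo_lt_top.ne
  · rw [integral_fun_norm_addHaar (volume : Measure ℂ) ((Set.Iio r).indicator fun y : ℝ => y⁻¹),
      setIntegral_congr_fun measurableSet_Ioi hcong, setIntegral_indicator measurableSet_Iio, hset,
      Complex.finrank_real_complex]
    have hv : (volume : Measure ℂ).real (Metric.ball 0 1) = Real.pi := by
      rw [Measure.real, Complex.volume_ball]
      simp
    rw [hv, setIntegral_const, Measure.real, Real.volume_Ioo, sub_zero,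
      ENNReal.toReal_ofReal hr.le]
    simp only [smul_eq_mul, nsmul_eq_mul, mul_one]
    push_cast
    ring

theorem ker_norm {R : ℝ} {ζ : ℂ} (h : ‖ζ‖ < R) :
    IntegrableOn (fun z : ℂ => (ζ - z)⁻¹) (Metric.ball 0 R) ∧
      ∫ z in Metric.ball (0 : ℂ) R, ‖(ζ - z)⁻¹‖ ≤ 4 * Real.pi * R := by
  have hR : 0 < R := lt_of_le_of_lt (norm_nonneg _) h
  obtain ⟨hI, hV⟩ := we_radial (r := 2 * R) (by linarith)
  set g : ℂ → ℝ := fun w => (Set.Iio (2 * R)).indicator (fun y : ℝ => y⁻¹) ‖w‖ with hg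
  have hI' : Integrable fun z => g (ζ - z) := hI.comp_sub_left ζ
  have hle : ∀ z ∈ Metric.ball (0 : ℂ) R, ‖(ζ - z)⁻¹‖ = g (ζ - z) := by
    intro z hz
    have h1 : ‖ζ - z‖ < 2 * R := by
      have h2 := norm_sub_le ζ z
      rw [mem_ball_zero_iff] at hz
      linarith
    rw [hg]
    simp only
    rw [Set.indicator_of_mem (show ‖ζ - z‖ ∈ Set.Iio (2 * R) from h1), norm_inv]
  have hg0 : ∀ w, 0 ≤ g w := by
    intro w
    rw [hg]
    simp only
    rw [Set.indicator_apply]
    split_ifs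
    · exact inv_nonneg.2 (norm_nonneg w)
    · exact le_rfl
  have hmeas : Measurable fun z : ℂ => (ζ - z)⁻¹ := (measurable_const.sub measurable_id).inv
  constructor
  · refine hI'.integrableOn.mono' hmeas.aestronglyMeasurable ?_
    exact (ae_restrict_iff' measurableSet_ball).2 (Filter.Eventually.of_forall fun z hz =>
      (hle z hz).le)
  · calc ∫ z in Metric.ball (0 : ℂ) R, ‖(ζ - z)⁻¹‖ = ∫ z in Metric.ball (0 : ℂ) R, g (ζ - z) :=
          setIntegral_congr_fun measurableSet_ball hle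
      _ ≤ ∫ z, g (ζ - z) := setIntegral_le_integral hI' (Filter.Eventually.of_forall fun z => hg0 _)
      _ = ∫ w, g w := integral_sub_left_eq_self g volume ζ
      _ = 4 * Real.pi * R := by rw [hV]; ring

private theorem we_circ (ρ θ : ℝ) :
    (ρ : ℂ) * (Real.cos θ + Real.sin θ * Complex.I) = circleMap 0 ρ θ := by
  rw [circleMap_zero, Complex.exp_mul_I]
  push_cast
  rfl

private theorem we_full (ρ : ℝ) (ζ : ℂ) :
    ∫ θ in (-Real.pi)..Real.pi, (ζ - circleMap 0 ρ θ)⁻¹ =
      (2 * Real.pi) • Real.circleAverage (fun w => (ζ - w)⁻¹) 0 ρ := by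
  have hper : Function.Periodic (fun θ : ℝ => (ζ - circleMap 0 ρ θ)⁻¹) (2 * Real.pi) := by
    intro θ
    simp only
    rw [periodic_circleMap 0 ρ θ]
  have h1 := hper.intervalIntegral_add_eq (-Real.pi) 0
  have h2 : -Real.pi + 2 * Real.pi = Real.pi := by ring
  rw [h2, zero_add] at h1
  rw [h1, Real.circleAverage_def, smul_smul, mul_inv_cancel₀ (by positivity), one_smul]

private theorem we_ang {ρ : ℝ} {ζ : ℂ} (hρ : 0 < ρ) (hne : ρ ≠ ‖ζ‖) :
    ∫ θ in (-Real.pi)..Real.pi, (ζ - circleMap 0 ρ θ)⁻¹ =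
      if ρ < ‖ζ‖ then (2 * Real.pi) • ζ⁻¹ else 0 := by
  rw [we_full]
  split_ifs with hlt
  · have hd : DiffContOnCl ℂ (fun w : ℂ => (ζ - w)⁻¹) (Metric.ball 0 |ρ|) := by
      refine DifferentiableOn.diffContOnCl_ball (U := {w | ζ - w ≠ 0}) ?_ ?_
      · exact (((differentiable_const ζ).sub differentiable_id).differentiableOn).inv fun w hw => hw
      · intro w hw hcon
        rw [mem_closedBall_zero_iff, abs_of_pos hρ] at hw
        have : ζ = w := sub_eq_zero.1 hcon
        rw [← this] at hw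
        linarith
    rw [hd.circleAverage, sub_zero]
  · have hgt : ‖ζ‖ < ρ := lt_of_le_of_ne (not_lt.1 hlt) (Ne.symm hne)
    set k : ℂ → ℂ := fun w => w / ((starRingEnd ℂ) ζ * w - (ρ : ℂ) ^ 2) with hk
    have hd : DiffContOnCl ℂ k (Metric.ball 0 |ρ|) := by
      refine DifferentiableOn.diffContOnCl_ball
        (U := {w | (starRingEnd ℂ) ζ * w - (ρ : ℂ) ^ 2 ≠ 0}) ?_ ?_
      · refine differentiable_id.differentiableOn.div ?_ fun w hw => hw
        exact ((differentiable_id.const_mul _).sub_const _).differentiableOn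
      · intro w hw hcon
        rw [mem_closedBall_zero_iff, abs_of_pos hρ] at hw
        have h1 : (starRingEnd ℂ) ζ * w = (ρ : ℂ) ^ 2 := sub_eq_zero.1 hcon
        have h2 : ‖(starRingEnd ℂ) ζ * w‖ = ρ ^ 2 := by
          rw [h1, norm_pow, Complex.norm_real, Real.norm_eq_abs, abs_of_pos hρ]
        rw [norm_mul, RCLike.norm_conj] at h2
        have h3 : ‖ζ‖ * ‖w‖ ≤ ‖ζ‖ * ρ := mul_le_mul_of_nonneg_left hw (norm_nonneg _)
        nlinarith
    have hk0 : Real.circleAverage k 0 ρ = 0 := by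
      rw [hd.circleAverage, hk]
      simp
    have hpt : ∀ θ : ℝ, (ζ - circleMap 0 ρ θ)⁻¹ = (starRingEnd ℂ) (k (circleMap 0 ρ θ)) := by
      intro θ
      set w := circleMap 0 ρ θ with hw
      have hnw : ‖w‖ = ρ := by
        rw [hw, norm_circleMap_zero, abs_of_pos hρ]
      have hw0 : (starRingEnd ℂ) w ≠ 0 := by
        intro h0
        have : ‖(starRingEnd ℂ) w‖ = 0 := by rw [h0, norm_zero]
        rw [RCLike.norm_conj, hnw] at this
        exact hρ.ne' this
      have hww : (ρ : ℂ) ^ 2 = w * (starRingEnd ℂ) w := by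
        rw [Complex.mul_conj, Complex.normSq_eq_norm_sq, hnw]
        push_cast
        rfl
      have e1 : (starRingEnd ℂ) (k w) = (starRingEnd ℂ) w / (ζ * (starRingEnd ℂ) w - (ρ : ℂ) ^ 2) := by
        rw [hk]
        simp [map_div₀]
      rw [e1, hww, ← sub_mul, div_mul_cancel_right₀ hw0]
    have hI : ∫ θ in (0 : ℝ)..2 * Real.pi, (ζ - circleMap 0 ρ θ)⁻¹ =
        (starRingEnd ℂ) (∫ θ in (0 : ℝ)..2 * Real.pi, k (circleMap 0 ρ θ)) := by
      rw [intervalIntegral.integral_of_le (by positivity),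
        intervalIntegral.integral_of_le (by positivity), ← integral_conj]
      exact integral_congr_ae (Filter.Eventually.of_forall fun θ => hpt θ)
    rw [Real.circleAverage_def, hI]
    rw [Real.circleAverage_def] at hk0
    have h5 : ∫ θ in (0 : ℝ)..2 * Real.pi, k (circleMap 0 ρ θ) = 0 := by
      rcases smul_eq_zero.1 hk0 with h6 | h6
      · exact absurd h6 (by positivity)
      · exact h6
    rw [h5, map_zero, smul_zero, smul_zero]

theorem ker_int {R : ℝ} {ζ : ℂ} (h : ‖ζ‖ < R) :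
    ∫ z in Metric.ball (0 : ℂ) R, (ζ - z)⁻¹ = Real.pi * (starRingEnd ℂ) ζ := by
  have hR : 0 < R := lt_of_le_of_lt (norm_nonneg _) h
  set f : ℂ → ℂ := (Metric.ball (0 : ℂ) R).indicator (fun z => (ζ - z)⁻¹) with hf
  have hmf : Measurable f :=
    ((measurable_const.sub measurable_id).inv).indicator measurableSet_ball
  have hif : Integrable f := by
    rw [hf, integrable_indicator_iff measurableSet_ball]
    exact (ker_norm h).1
  set F : ℝ × ℝ → ℂ := fun p => p.1 • f (Complex.polarCoord.symm p) with hF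
  have hsymm : ∀ p : ℝ × ℝ, Complex.polarCoord.symm p = circleMap 0 p.1 p.2 := by
    intro p
    rw [Complex.polarCoord_symm_apply, we_circ]
  have hmF : Measurable F := by
    have h1 : Measurable fun p : ℝ × ℝ => Complex.polarCoord.symm p := by
      simp only [Complex.polarCoord_symm_apply]
      fun_prop
    exact measurable_fst.smul (hmf.comp h1)
  have hiF : IntegrableOn F (Set.Ioi (0 : ℝ) ×ˢ Set.Ioo (-Real.pi) Real.pi) (volume.prod volume) := by
    refine ⟨hmF.aestronglyMeasurable, ?_⟩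
    rw [HasFiniteIntegral, ← Measure.volume_eq_prod]
    have h1 : ∫⁻ p in Set.Ioi (0 : ℝ) ×ˢ Set.Ioo (-Real.pi) Real.pi, ‖F p‖ₑ =
        ∫⁻ p in polarCoord.target, ENNReal.ofReal p.1 • ‖f (Complex.polarCoord.symm p)‖ₑ := by
      refine setLIntegral_congr_fun (measurableSet_Ioi.prod measurableSet_Ioo) fun p hp => ?_
      have hp0 : (0 : ℝ) < p.1 := hp.1
      simp only [hF]
      rw [enorm_smul, Real.enorm_eq_ofReal hp0.le, smul_eq_mul]
    rw [h1, Complex.lintegral_comp_polarCoord_symm (fun z => ‖f z‖ₑ)]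
    exact hif.2
  have hne : ∀ᵐ ρ : ℝ, ρ ≠ ‖ζ‖ := by
    rw [ae_iff]
    simp
  have hinner : ∀ᵐ ρ : ℝ, ρ ∈ Set.Ioi (0 : ℝ) → ∫ θ in Set.Ioo (-Real.pi) Real.pi, F (ρ, θ) =
      (Set.Ioo 0 ‖ζ‖).indicator (fun ρ : ℝ => ρ • ((2 * Real.pi) • ζ⁻¹)) ρ := by
    filter_upwards [hne] with ρ hρne hρ
    have hρ0 : (0 : ℝ) < ρ := hρ
    have hnorm : ∀ θ : ℝ, ‖circleMap 0 ρ θ‖ = ρ := by
      intro θ
      rw [norm_circleMap_zero, abs_of_pos hρ0]
    rcases lt_or_ge ρ R with hρR | hρR
    · have e1 : ∀ θ, F (ρ, θ) = ρ • (ζ - circleMap 0 ρ θ)⁻¹ := by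
        intro θ
        simp only [hF]
        rw [hsymm, hf, Set.indicator_of_mem]
        rw [mem_ball_zero_iff, hnorm]
        exact hρR
      simp only [e1]
      rw [integral_smul, ← integral_Ioc_eq_integral_Ioo,
        ← intervalIntegral.integral_of_le (by linarith [Real.pi_pos]), we_ang hρ0 hρne]
      split_ifs with hlt
      · rw [Set.indicator_of_mem (show ρ ∈ Set.Ioo 0 ‖ζ‖ from ⟨hρ0, hlt⟩)]
      · rw [Set.indicator_of_notMem (fun hcon => hlt hcon.2), smul_zero]
    · have e1 : ∀ θ, F (ρ, θ) = 0 := by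
        intro θ
        simp only [hF]
        rw [hsymm, hf, Set.indicator_of_notMem, smul_zero]
        rw [mem_ball_zero_iff, hnorm]
        exact not_lt.2 hρR
      simp only [e1, integral_zero]
      rw [Set.indicator_of_notMem (fun hcon => by linarith [hcon.2])]
  have hset : Set.Ioi (0 : ℝ) ∩ Set.Ioo 0 ‖ζ‖ = Set.Ioo 0 ‖ζ‖ :=
    Set.inter_eq_right.2 fun y hy => hy.1
  calc ∫ z in Metric.ball (0 : ℂ) R, (ζ - z)⁻¹ = ∫ z, f z := by
        rw [hf, integral_indicator measurableSet_ball]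
    _ = ∫ p in Set.Ioi (0 : ℝ) ×ˢ Set.Ioo (-Real.pi) Real.pi, F p :=
        (Complex.integral_comp_polarCoord_symm f).symm
    _ = ∫ ρ in Set.Ioi (0 : ℝ), ∫ θ in Set.Ioo (-Real.pi) Real.pi, F (ρ, θ) := by
        rw [Measure.volume_eq_prod]
        exact setIntegral_prod F hiF
    _ = ∫ ρ in Set.Ioi (0 : ℝ),
        (Set.Ioo 0 ‖ζ‖).indicator (fun ρ : ℝ => ρ • ((2 * Real.pi) • ζ⁻¹)) ρ :=
        setIntegral_congr_ae measurableSet_Ioi hinner
    _ = ∫ ρ in (0 : ℝ)..‖ζ‖, ρ • ((2 * Real.pi) • ζ⁻¹) := by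
        rw [setIntegral_indicator measurableSet_Ioo, hset, ← integral_Ioc_eq_integral_Ioo,
          ← intervalIntegral.integral_of_le (norm_nonneg _)]
    _ = Real.pi * (starRingEnd ℂ) ζ := by
        rw [intervalIntegral.integral_smul_const, integral_id]
        rcases eq_or_ne ζ 0 with h0 | h0
        · rw [h0]
          simp
        · have h1 : ((‖ζ‖ : ℂ)) ^ 2 = ζ * (starRingEnd ℂ) ζ := by
            rw [Complex.mul_conj, Complex.normSq_eq_norm_sq]
            push_cast
            rfl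
          rw [Complex.real_smul, Complex.real_smul]
          push_cast
          rw [h1]
          field_simp
          ring

end Pool.Agent.H57.CR
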