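import Pool.Agent.H57.CR.WindA
import Pool.Agent.H57.CR.WindE

/-!
# The area formula (module WindF)

PROOFS.
* `range_null`: `range G = F '' {z | z.im = 0}` for `F z = G z.re`, which is differentiable at every point; the real axis is a null set
  (`Measure.addHaar_submodule` or so), so its image is null (`MeasureTheory.addHaar_image_eq_zero_of_differentiableOn_of_addHaar_eq_zero`).
* `wn_area`: the function `(s, z) ↦ G' s / (G s - z)` is measurable and integrable on `(0, T] × ball 0 R`: its norm is at most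
  `C ‖(G s - z)⁻¹‖`, with inner integral at most `C 4 π R` by `ker_norm` (`integrable_prod_iff`). Fubini
  (`integral_integral_swap`): `∫_{ball} wn = (2 π i)⁻¹ ∫_0^T G' s (∫_{ball} (G s - z)⁻¹ dz) ds = (2 π i)⁻¹ ∫_0^T π conj (G s) G' s ds`
  (`ker_int`) `= (2 i)⁻¹ ∫ conj (G) G'`. Its imaginary part is `-(1/2) ∫ Re (conj G G') = -(1/4) ∫ (|G|²)' = 0` by periodicity, the real part is
  `(1/2) ∫ Im (conj G G') = area`.
-/

set_option autoImplicit false

open scoped Topology
open Set MeasureTheory

namespace Pool.Agent.H57.CR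

variable {T : ℝ} {G G' : ℝ → ℂ}

theorem range_null (h : Lp T G G') : volume (range G) = 0 := by
  have h0 : (volume : Measure ℂ) ((LinearMap.ker Complex.imLm : Submodule ℝ ℂ) : Set ℂ) = 0 := by
    refine Measure.addHaar_submodule _ _ fun htop => ?_
    have h1 : Complex.I ∈ (LinearMap.ker Complex.imLm : Submodule ℝ ℂ) := by
      rw [htop]
      trivial
    rw [LinearMap.mem_ker] at h1
    simp at h1
  have h2 : DifferentiableOn ℝ (fun z : ℂ => G z.re)
      ((LinearMap.ker Complex.imLm : Submodule ℝ ℂ) : Set ℂ) := by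
    intro z _
    have h3 : HasFDerivAt G _ z.re := (h.deriv z.re).hasFDerivAt
    exact (h3.comp z (Complex.reCLM.hasFDerivAt)).differentiableAt.differentiableWithinAt
  have h4 := addHaar_image_eq_zero_of_differentiableOn_of_addHaar_eq_zero volume h2 h0
  refine measure_mono_null ?_ h4
  rintro _ ⟨t, rfl⟩
  exact ⟨(t : ℂ), by simp, by simp⟩

private theorem WindF_meas (h : Lp T G G') :
    Measurable fun p : ℝ × ℂ => G' p.1 / (G p.1 - p.2) :=
  (h.cont.measurable.comp measurable_fst).div
    (((lp_cont h).measurable.comp measurable_fst).sub measurable_snd)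

private theorem WindF_int (h : Lp T G G') {R : ℝ} (hR : ∀ s, ‖G s‖ < R) :
    Integrable (fun p : ℝ × ℂ => G' p.1 / (G p.1 - p.2))
      ((volume.restrict (Ioc 0 T)).prod (volume.restrict (Metric.ball (0 : ℂ) R))) := by
  have hm := (WindF_meas h).aestronglyMeasurable
    (μ := (volume.restrict (Ioc 0 T)).prod (volume.restrict (Metric.ball (0 : ℂ) R)))
  rw [integrable_prod_iff hm]
  constructor
  · refine Filter.Eventually.of_forall fun s => ?_
    have h1 : Integrable (fun z : ℂ => (G s - z)⁻¹) (volume.restrict (Metric.ball (0 : ℂ) R)) :=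
      (ker_norm (hR s)).1
    exact h1.const_mul (G' s)
  · have h2 : Integrable (fun s => ‖G' s‖ * (4 * Real.pi * R)) (volume.restrict (Ioc 0 T)) :=
      ((h.cont.norm.mul continuous_const).integrableOn_Icc).mono_set Ioc_subset_Icc_self
    refine h2.mono' hm.norm.integral_prod_right' (Filter.Eventually.of_forall fun s => ?_)
    rw [Real.norm_of_nonneg (integral_nonneg fun z => norm_nonneg _)]
    have h3 : ∫ z in Metric.ball (0 : ℂ) R, ‖G' s / (G s - z)‖ =
        ‖G' s‖ * ∫ z in Metric.ball (0 : ℂ) R, ‖(G s - z)⁻¹‖ := by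
      rw [← integral_const_mul]
      refine integral_congr_ae (Filter.Eventually.of_forall fun z => ?_)
      show ‖G' s / (G s - z)‖ = ‖G' s‖ * ‖(G s - z)⁻¹‖
      rw [div_eq_mul_inv, norm_mul]
    show ∫ z in Metric.ball (0 : ℂ) R, ‖G' s / (G s - z)‖ ≤ ‖G' s‖ * (4 * Real.pi * R)
    rw [h3]
    exact mul_le_mul_of_nonneg_left (ker_norm (hR s)).2 (norm_nonneg _)

private theorem WindF_J (h : Lp T G G') :
    ∫ s in (0 : ℝ)..T, (starRingEnd ℂ) (G s) * G' s = 2 * Complex.I * (area T G G' : ℂ) := by
  have hG := lp_cont h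
  have hc : Continuous fun s => (starRingEnd ℂ) (G s) * G' s :=
    (Complex.continuous_conj.comp hG).mul h.cont
  have hi : IntervalIntegrable (fun s => (starRingEnd ℂ) (G s) * G' s) volume 0 T :=
    hc.intervalIntegrable _ _
  have him : (∫ s in (0 : ℝ)..T, (starRingEnd ℂ) (G s) * G' s).im =
      ∫ s in (0 : ℝ)..T, ((starRingEnd ℂ) (G s) * G' s).im :=
    (Complex.imCLM.intervalIntegral_comp_comm hi).symm
  have hre : (∫ s in (0 : ℝ)..T, (starRingEnd ℂ) (G s) * G' s).re =
      ∫ s in (0 : ℝ)..T, ((starRingEnd ℂ) (G s) * G' s).re :=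
    (Complex.reCLM.intervalIntegral_comp_comm hi).symm
  have hd : ∀ s, HasDerivAt (fun s => ((G s).re ^ 2 + (G s).im ^ 2) / 2)
      (((starRingEnd ℂ) (G s) * G' s).re) s := by
    intro s
    have h1 : HasDerivAt (fun s => (G s).re) (G' s).re s :=
      Complex.reCLM.hasFDerivAt.comp_hasDerivAt s (h.deriv s)
    have h2 : HasDerivAt (fun s => (G s).im) (G' s).im s :=
      Complex.imCLM.hasFDerivAt.comp_hasDerivAt s (h.deriv s)
    have h3 := ((h1.pow 2).add (h2.pow 2)).div_const 2
    refine h3.congr_deriv ?_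
    simp only [Complex.mul_re, Complex.conj_re, Complex.conj_im]
    push_cast
    ring
  have hre0 : ∫ s in (0 : ℝ)..T, ((starRingEnd ℂ) (G s) * G' s).re = 0 := by
    rw [intervalIntegral.integral_eq_sub_of_hasDerivAt (fun s _ => hd s)
      ((Complex.continuous_re.comp hc).intervalIntegrable _ _)]
    have h4 : G T = G 0 := by
      have := h.per 0
      rwa [zero_add] at this
    rw [h4, sub_self]
  apply Complex.ext
  · rw [hre, hre0]
    simp
  · rw [him]
    unfold area
    simp

theorem wn_area (h : Lp T G G') {R : ℝ} (hR : ∀ s, ‖G s‖ < R) :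
    IntegrableOn (wn T G G') (Metric.ball 0 R) ∧
      ∫ z in Metric.ball (0 : ℂ) R, wn T G G' z = (area T G G' : ℂ) := by
  have hI := WindF_int h hR
  have hw : wn T G G' = fun z => (2 * Real.pi * Complex.I)⁻¹ *
      ∫ s in Ioc 0 T, G' s / (G s - z) := by
    funext z
    unfold wn
    rw [intervalIntegral.integral_of_le h.pos.le]
  constructor
  · rw [hw]
    exact (hI.integral_prod_right).const_mul _
  · rw [hw, integral_const_mul]
    have h1 : ∫ z in Metric.ball (0 : ℂ) R, ∫ s in Ioc 0 T, G' s / (G s - z) =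
        ∫ s in Ioc 0 T, ∫ z in Metric.ball (0 : ℂ) R, G' s / (G s - z) :=
      (integral_integral_swap (f := fun s z => G' s / (G s - z)) hI).symm
    have h2 : ∫ s in Ioc 0 T, ∫ z in Metric.ball (0 : ℂ) R, G' s / (G s - z) =
        ∫ s in Ioc 0 T, (Real.pi : ℂ) * ((starRingEnd ℂ) (G s) * G' s) := by
      refine integral_congr_ae (Filter.Eventually.of_forall fun s => ?_)
      show ∫ z in Metric.ball (0 : ℂ) R, G' s / (G s - z) =
        (Real.pi : ℂ) * ((starRingEnd ℂ) (G s) * G' s)
      have h3 : ∫ z in Metric.ball (0 : ℂ) R, G' s / (G s - z) =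
          G' s * ∫ z in Metric.ball (0 : ℂ) R, (G s - z)⁻¹ := by
        rw [← integral_const_mul]
        rfl
      rw [h3, ker_int (hR s)]
      ring
    rw [h1, h2, integral_const_mul, ← intervalIntegral.integral_of_le h.pos.le, WindF_J h]
    have hpi : (Real.pi : ℂ) ≠ 0 := by exact_mod_cast Real.pi_ne_zero
    have hI0 := Complex.I_ne_zero
    field_simp

end Pool.Agent.H57.CR
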