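import Pool.Agent.H57.CR.WindD
import Pool.Agent.H57.CR.WindF

/-!
# The area of an embedded closed curve is not zero; two disjoint curves around `0` (module WindG)

PROOFS. `exists_sides`, `wn_far`, `wn_area`, `range_null`. Let `R` be larger than all `‖G s‖` and `wn = 0` for `‖z‖ ≥ R`.
* `area_ne`: if `a = 1`: off the null set `range G`, `wn` is `0` or `1`, so its real part is `≥ 0` almost everywhere, and it is `1` on the nonempty open
  set around the point `G 0 + ε₀ (i G' 0)` (`wn_loc`), which has norm `< R` because `wn ≠ 0` there (`wn_far`; the small ball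
  intersected with `ball 0 R` is a nonempty open set, of positive measure). So `area = ∫_{ball} Re wn > 0`. If `a = 0`: the values are
  `0`, `-1`, and `area < 0` (use the point `G 0 - ε₀ (i G' 0)`).
* `wn_zero_val`: `exists_sides`: the values are `0, 1` or `0, -1`.
* `area_diff`: `a₁ = a₂ = 1` because `1` is a value of both (`wn_i 0 = 1`, `0` is not on the curves); all values are `0` or `1`. `wn₁` is constant
  on `range G₂` (connected, disjoint from `range G₁`): `= k₂ ∈ {0, 1}`; `wn₂ = k₁ ∈ {0, 1}` on `range G₁`.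
  Case `k₂ = 1`. Claim (*): `z ∉ range G₁`, `wn₁ z = 0` implies `z ∉ range G₂` and `wn₂ z = k₁`: the half open segment of `lp_near` (for `G₁`) from
  `z` to `G₁ s` is off `range G₁`, so `wn₁ = 0` on it and it does not meet `range G₂` (where `wn₁ = 1`); neither does its end point `G₁ s`; so
  `wn₂` is constant on the closed segment. For `z` far away: `k₁ = wn₂ z = 0`. So `wn₂ = 0` wherever `wn₁ = 0` (off the curves), hence
  `Re wn₂ ≤ Re wn₁` almost everywhere; and near `G₁ 0 + ε (i G₁' 0)`, `ε` small, `wn₁ = 1` and `wn₂ = k₁ = 0` (`wn₂` is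
  locally constant near `G₁ 0 ∉ range G₂`): strict inequality on a nonempty open set; so `area₂ < area₁` (`wn_area` for both with a common `R`).
  Case `k₂ = 0`. Claim: `z ∉ range G₁`, `wn₁ z = 1` implies `z ∉ range G₂`, `wn₂ z = k₁` (same segment). `z = 0`: `k₁ = wn₂ 0 = 1`. So `wn₂ = 1`
  wherever `wn₁ = 1`: `Re wn₁ ≤ Re wn₂` a.e.; near `G₁ 0 - ε (i G₁' 0)`: `wn₁ = 0`, `wn₂ = k₁ = 1`: `area₁ < area₂`.
-/

set_option autoImplicit false

open scoped Topology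
open Set MeasureTheory

namespace Pool.Agent.H57.CR

variable {T T₁ T₂ : ℝ} {G G' G₁ G₁' G₂ G₂' : ℝ → ℂ}

private lemma wg_lt {f g : ℂ → ℝ} {R : ℝ} (hf : IntegrableOn f (Metric.ball (0 : ℂ) R))
    (hg : IntegrableOn g (Metric.ball (0 : ℂ) R)) (hle : ∀ᵐ z : ℂ, f z ≤ g z) {p : ℂ}
    (hp : p ∈ Metric.ball (0 : ℂ) R) {δ : ℝ} (hδ : 0 < δ)
    (hlt : ∀ z ∈ Metric.ball p δ, f z < g z) :
    ∫ z in Metric.ball (0 : ℂ) R, f z < ∫ z in Metric.ball (0 : ℂ) R, g z := by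
  have h0 : 0 ≤ᵐ[volume.restrict (Metric.ball (0 : ℂ) R)] fun z => g z - f z := by
    refine ae_restrict_of_ae ?_
    filter_upwards [hle] with z hz
    exact sub_nonneg.2 hz
  have h1 : 0 < ∫ z in Metric.ball (0 : ℂ) R, (g z - f z) := by
    rw [setIntegral_pos_iff_support_of_nonneg_ae h0 (hg.sub hf)]
    have h2 : Metric.ball p δ ∩ Metric.ball 0 R ⊆
        Function.support (fun z => g z - f z) ∩ Metric.ball (0 : ℂ) R := by
      rintro z ⟨a, b⟩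
      exact ⟨(sub_pos.2 (hlt z a)).ne', b⟩
    refine lt_of_lt_of_le ?_ (measure_mono h2)
    exact (Metric.isOpen_ball.inter Metric.isOpen_ball).measure_pos _
      ⟨p, Metric.mem_ball_self hδ, hp⟩
  rw [integral_sub hg hf] at h1
  linarith

private lemma wg_area (h : Lp T G G') {R : ℝ} (hR : ∀ s, ‖G s‖ < R) :
    IntegrableOn (fun z => (wn T G G' z).re) (Metric.ball 0 R) ∧
      ∫ z in Metric.ball (0 : ℂ) R, (wn T G G' z).re = area T G G' := by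
  obtain ⟨i, e⟩ := wn_area h hR
  refine ⟨i.re, ?_⟩
  have e2 := congrArg Complex.re e
  rw [Complex.ofReal_re] at e2
  rw [← e2]
  exact integral_re i

private lemma wg_off (h : Lp T G G') : ∀ᵐ z : ℂ, z ∉ range G :=
  compl_mem_ae_iff.2 (range_null h)

private lemma wg_pos (h : Lp T G G') (c : ℝ) (hle : ∀ z ∉ range G, 0 ≤ c * (wn T G G' z).re)
    {p : ℂ} (hp : p ∉ range G) (hlt : 0 < c * (wn T G G' p).re) : 0 < c * area T G G' := by
  obtain ⟨R, hR, hRs, hfar⟩ := wn_far h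
  obtain ⟨i, e⟩ := wg_area h hRs
  obtain ⟨δ, hδ, hloc⟩ := wn_loc h hp
  have hpR : p ∈ Metric.ball (0 : ℂ) R := by
    rw [mem_ball_zero_iff]
    by_contra hc
    rw [(hfar p (not_lt.1 hc)).2] at hlt
    simp at hlt
  have h1 := wg_lt (f := fun _ => (0 : ℝ)) (g := fun z => c * (wn T G G' z).re)
    (integrable_zero _ _ _) (i.const_mul c) (by
      filter_upwards [wg_off h] with z hz
      exact hle z hz) hpR hδ (fun z hz => by rw [(hloc z hz).2]; exact hlt)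
  rw [integral_zero, integral_const_mul, e] at h1
  exact h1

private lemma wg_cmp (h₁ : Lp T₁ G₁ G₁') (h₂ : Lp T₂ G₂ G₂')
    (hle : ∀ z, z ∉ range G₁ → z ∉ range G₂ → (wn T₁ G₁ G₁' z).re ≤ (wn T₂ G₂ G₂' z).re) {p : ℂ}
    (p1 : p ∉ range G₁) (p2 : p ∉ range G₂)
    (hlt : (wn T₁ G₁ G₁' p).re < (wn T₂ G₂ G₂' p).re) : area T₁ G₁ G₁' < area T₂ G₂ G₂' := by
  obtain ⟨R₁, hR₁, hRs₁, hfar₁⟩ := wn_far h₁
  obtain ⟨R₂, hR₂, hRs₂, hfar₂⟩ := wn_far h₂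
  obtain ⟨i₁, e₁⟩ := wg_area h₁ (R := max R₁ R₂) fun s => (hRs₁ s).trans_le (le_max_left _ _)
  obtain ⟨i₂, e₂⟩ := wg_area h₂ (R := max R₁ R₂) fun s => (hRs₂ s).trans_le (le_max_right _ _)
  obtain ⟨δ₁, hδ₁, hloc₁⟩ := wn_loc h₁ p1
  obtain ⟨δ₂, hδ₂, hloc₂⟩ := wn_loc h₂ p2
  have hpR : p ∈ Metric.ball (0 : ℂ) (max R₁ R₂) := by
    rw [mem_ball_zero_iff]
    by_contra hc
    have hc' := not_lt.1 hc
    rw [(hfar₁ p ((le_max_left _ _).trans hc')).2, (hfar₂ p ((le_max_right _ _).trans hc')).2] at hlt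
    exact lt_irrefl _ hlt
  rw [← e₁, ← e₂]
  refine wg_lt i₁ i₂ ?_ hpR (lt_min hδ₁ hδ₂) fun z hz => ?_
  · filter_upwards [wg_off h₁, wg_off h₂] with z z1 z2
    exact hle z z1 z2
  · rw [(hloc₁ z (Metric.ball_subset_ball (min_le_left _ _) hz)).2,
      (hloc₂ z (Metric.ball_subset_ball (min_le_right _ _) hz)).2]
    exact hlt

theorem area_ne (h : Lp T G G') : area T G G' ≠ 0 := by
  obtain ⟨a, ε₀, S⟩ := exists_sides h
  rcases S.val with ha | ha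
  · have h1 := wg_pos h (-1) (fun z hz => by
      rcases S.all z hz with h2 | h2 <;> rw [h2, ha] <;> simp)
      (S.offR 0 ε₀ S.pos le_rfl) (by rw [S.right 0 ε₀ S.pos le_rfl, ha]; simp)
    intro h0
    rw [h0] at h1
    simp at h1
  · have h1 := wg_pos h 1 (fun z hz => by
      rcases S.all z hz with h2 | h2 <;> rw [h2, ha] <;> simp)
      (S.offL 0 ε₀ S.pos le_rfl) (by rw [S.left 0 ε₀ S.pos le_rfl, ha]; simp)
    intro h0
    rw [h0] at h1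
    simp at h1

theorem wn_zero_val (h : Lp T G G') (h0 : ∀ s, G s ≠ 0) :
    wn T G G' 0 = 0 ∨ wn T G G' 0 = 1 ∨ wn T G G' 0 = -1 := by
  obtain ⟨a, ε₀, S⟩ := exists_sides h
  have h1 : (0 : ℂ) ∉ range G := by
    rintro ⟨s, hs⟩
    exact h0 s hs
  rcases S.val with ha | ha <;> rcases S.all 0 h1 with h2 | h2 <;> rw [h2, ha] <;> simp

/-- if the winding number of the first curve at `z` is not the one on the second curve, then the
segment from `z` to the first curve does not meet the second one -/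
private lemma wg_seg (h₁ : Lp T₁ G₁ G₁') (h₂ : Lp T₂ G₂ G₂') (hd : ∀ s s', G₁ s ≠ G₂ s') {z : ℂ}
    (hz : z ∉ range G₁) (hne : wn T₁ G₁ G₁' z ≠ wn T₁ G₁ G₁' (G₂ 0)) :
    z ∉ range G₂ ∧ wn T₂ G₂ G₂' z = wn T₂ G₂ G₂' (G₁ 0) := by
  obtain ⟨s, l, hl, hzl, hoff⟩ := lp_near h₁ hz
  have c1 := lp_cont h₁
  have c2 := lp_cont h₂
  have k2 : ∀ s', wn T₁ G₁ G₁' (G₂ s') = wn T₁ G₁ G₁' (G₂ 0) := fun s' =>
    wn_const h₁ (isPreconnected_range c2) (by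
      rintro w ⟨t, rfl⟩ ⟨t', ht'⟩
      exact hd t' t ht') ⟨s', rfl⟩ ⟨0, rfl⟩
  have k1 : ∀ s', wn T₂ G₂ G₂' (G₁ s') = wn T₂ G₂ G₂' (G₁ 0) := fun s' =>
    wn_const h₂ (isPreconnected_range c1) (by
      rintro w ⟨t, rfl⟩ ⟨t', ht'⟩
      exact hd t t' ht'.symm) ⟨s', rfl⟩ ⟨0, rfl⟩
  have cs : Continuous fun μ : ℝ => G₁ s + μ * (z - G₁ s) := by fun_prop
  have hA : IsPreconnected ((fun μ : ℝ => G₁ s + μ * (z - G₁ s)) '' Ioc 0 1) :=
    isPreconnected_Ioc.image _ cs.continuousOn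
  have hAoff : ∀ w ∈ (fun μ : ℝ => G₁ s + μ * (z - G₁ s)) '' Ioc 0 1, w ∉ range G₁ := by
    rintro w ⟨μ, ⟨m0, m1⟩, rfl⟩
    exact hoff μ m0 m1
  have hz1 : z ∈ (fun μ : ℝ => G₁ s + μ * (z - G₁ s)) '' Ioc 0 1 := ⟨1, ⟨one_pos, le_rfl⟩, by simp⟩
  have hBoff : ∀ w ∈ (fun μ : ℝ => G₁ s + μ * (z - G₁ s)) '' Icc 0 1, w ∉ range G₂ := by
    rintro w ⟨μ, ⟨m0, m1⟩, rfl⟩ ⟨t, ht⟩
    rcases m0.eq_or_lt with h | h
    · rw [← h] at ht
      simp only [Complex.ofReal_zero, zero_mul, add_zero] at ht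
      exact hd s t ht.symm
    · apply hne
      rw [← k2 t, ht]
      exact wn_const h₁ hA hAoff hz1 ⟨μ, ⟨h, m1⟩, rfl⟩
  have hB : IsPreconnected ((fun μ : ℝ => G₁ s + μ * (z - G₁ s)) '' Icc 0 1) :=
    isPreconnected_Icc.image _ cs.continuousOn
  have hz2 : z ∈ (fun μ : ℝ => G₁ s + μ * (z - G₁ s)) '' Icc 0 1 :=
    ⟨1, ⟨zero_le_one, le_rfl⟩, by simp⟩
  have hs2 : G₁ s ∈ (fun μ : ℝ => G₁ s + μ * (z - G₁ s)) '' Icc 0 1 :=
    ⟨0, ⟨le_rfl, zero_le_one⟩, by simp⟩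
  exact ⟨hBoff z hz2, (wn_const h₂ hB hBoff hz2 hs2).trans (k1 s)⟩

/-- points of both sides near a point of the first curve -/
private lemma wg_pt (h₁ : Lp T₁ G₁ G₁') (h₂ : Lp T₂ G₂ G₂') (hd : ∀ s s', G₁ s ≠ G₂ s') {ε₀ : ℝ}
    (hε₀ : 0 < ε₀) (c : ℝ) (hc : |c| = 1) : ∃ ε : ℝ, 0 < ε ∧ ε ≤ ε₀ ∧
      G₁ 0 + (c * ε : ℝ) * (Complex.I * G₁' 0) ∉ range G₂ ∧
      wn T₂ G₂ G₂' (G₁ 0 + (c * ε : ℝ) * (Complex.I * G₁' 0)) = wn T₂ G₂ G₂' (G₁ 0) := by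
  have h0 : G₁ 0 ∉ range G₂ := by
    rintro ⟨t, ht⟩
    exact hd 0 t ht.symm
  obtain ⟨δ, hδ, hloc⟩ := wn_loc h₂ h0
  have hn : 0 < ‖G₁' 0‖ := norm_pos_iff.2 (h₁.ne 0)
  refine ⟨min ε₀ (δ / (2 * ‖G₁' 0‖)), lt_min hε₀ (by positivity), min_le_left _ _, ?_⟩
  set ε := min ε₀ (δ / (2 * ‖G₁' 0‖)) with hε
  have e0 : 0 < ε := lt_min hε₀ (by positivity)
  have e1 : ε * ‖G₁' 0‖ ≤ δ / 2 := by
    have : ε ≤ δ / (2 * ‖G₁' 0‖) := min_le_right _ _
    calc ε * ‖G₁' 0‖ ≤ δ / (2 * ‖G₁' 0‖) * ‖G₁' 0‖ := by gcongr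
      _ = δ / 2 := by field_simp
  have hb : G₁ 0 + (c * ε : ℝ) * (Complex.I * G₁' 0) ∈ Metric.ball (G₁ 0) δ := by
    rw [mem_ball_iff_norm, add_sub_cancel_left, norm_mul, norm_mul, Complex.norm_I, one_mul,
      Complex.norm_real, Real.norm_eq_abs, abs_mul, hc, one_mul, abs_of_pos e0]
    linarith
  exact hloc _ hb

theorem area_diff (h₁ : Lp T₁ G₁ G₁') (h₂ : Lp T₂ G₂ G₂') (hd : ∀ s s', G₁ s ≠ G₂ s')
    (h01 : ∀ s, G₁ s ≠ 0) (h02 : ∀ s, G₂ s ≠ 0) (w₁ : wn T₁ G₁ G₁' 0 = 1)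
    (w₂ : wn T₂ G₂ G₂' 0 = 1) : area T₁ G₁ G₁' ≠ area T₂ G₂ G₂' := by
  obtain ⟨a₁, ε₁, S₁⟩ := exists_sides h₁
  obtain ⟨a₂, ε₂, S₂⟩ := exists_sides h₂
  have z1 : (0 : ℂ) ∉ range G₁ := by
    rintro ⟨s, hs⟩
    exact h01 s hs
  have z2 : (0 : ℂ) ∉ range G₂ := by
    rintro ⟨s, hs⟩
    exact h02 s hs
  have ha₁ : a₁ = 1 := by
    rcases S₁.val with h | h
    · rcases S₁.all 0 z1 with h' | h' <;> rw [w₁, h] at h' <;> norm_num at h'
    · exact h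
  have ha₂ : a₂ = 1 := by
    rcases S₂.val with h | h
    · rcases S₂.all 0 z2 with h' | h' <;> rw [w₂, h] at h' <;> norm_num at h'
    · exact h
  have v₁ : ∀ z ∉ range G₁, wn T₁ G₁ G₁' z = 1 ∨ wn T₁ G₁ G₁' z = 0 := fun z hz => by
    have := S₁.all z hz
    rw [ha₁, sub_self] at this
    exact this
  have v₂ : ∀ z ∉ range G₂, wn T₂ G₂ G₂' z = 1 ∨ wn T₂ G₂ G₂' z = 0 := fun z hz => by
    have := S₂.all z hz
    rw [ha₂, sub_self] at this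
    exact this
  have h0 : G₂ 0 ∉ range G₁ := by
    rintro ⟨t, ht⟩
    exact hd t 0 ht
  rcases v₁ _ h0 with k | k
  · -- the second curve is inside the first one
    obtain ⟨R₁, -, -, hfar₁⟩ := wn_far h₁
    obtain ⟨R₂, -, -, hfar₂⟩ := wn_far h₂
    have hn : ‖((|R₁| + |R₂| : ℝ) : ℂ)‖ = |R₁| + |R₂| := by
      rw [Complex.norm_real, Real.norm_eq_abs, abs_of_nonneg (by positivity)]
    have f1 := hfar₁ ((|R₁| + |R₂| : ℝ) : ℂ) (by
      rw [hn]; exact (le_abs_self _).trans (le_add_of_nonneg_right (abs_nonneg _)))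
    have f2 := hfar₂ ((|R₁| + |R₂| : ℝ) : ℂ) (by
      rw [hn]; exact (le_abs_self _).trans (le_add_of_nonneg_left (abs_nonneg _)))
    have k1 : wn T₂ G₂ G₂' (G₁ 0) = 0 := by
      rw [← (wg_seg h₁ h₂ hd f1.1 (by rw [f1.2, k]; norm_num)).2]
      exact f2.2
    obtain ⟨ε, e0, e1, e2, e3⟩ := wg_pt h₁ h₂ hd S₁.pos 1 (by simp)
    rw [one_mul] at e2 e3
    refine (wg_cmp h₂ h₁ (fun z a b => ?_) e2 (S₁.offL 0 ε e0 e1) ?_).ne'
    · rcases v₁ z b with h | h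
      · rw [h]
        rcases v₂ z a with h' | h' <;> rw [h'] <;> simp
      · rw [h, (wg_seg h₁ h₂ hd b (by rw [h, k]; norm_num)).2, k1]
    · rw [e3, S₁.left 0 ε e0 e1, k1, ha₁]
      simp
  · -- the first curve is inside the second one
    have k1 : wn T₂ G₂ G₂' (G₁ 0) = 1 := by
      rw [← (wg_seg h₁ h₂ hd z1 (by rw [w₁, k]; norm_num)).2]
      exact w₂
    obtain ⟨ε, e0, e1, e2, e3⟩ := wg_pt h₁ h₂ hd S₁.pos (-1) (by simp)
    have e4 : G₁ 0 + ((-1 * ε : ℝ) : ℂ) * (Complex.I * G₁' 0) =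
        G₁ 0 - ε * (Complex.I * G₁' 0) := by
      push_cast
      ring
    rw [e4] at e2 e3
    refine (wg_cmp h₁ h₂ (fun z a b => ?_) (S₁.offR 0 ε e0 e1) e2 ?_).ne
    · rcases v₁ z a with h | h
      · rw [h, (wg_seg h₁ h₂ hd a (by rw [h, k]; norm_num)).2, k1]
      · rw [h]
        rcases v₂ z b with h' | h' <;> rw [h'] <;> simp
    · rw [e3, S₁.right 0 ε e0 e1, k1, ha₁]
      simp

end Pool.Agent.H57.CR
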