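import Pool.Agent.H57.CR.CloseB
import Pool.Agent.H57.CR.WindG

/-!
# A leaf as a closed curve in `ℂ`: it goes around exactly once (module OneA)

Write `t(s) = (Λ s x).1.2.1`, `r(s) = (Λ s x).1.2.2`, `φ(s) = (Λ s x).2`; `t' = cos φ`, `r' = sin φ` (`leaf_t`, `leaf_r`).

PROOFS. Let `hc : Closes Λ x T m j`.
* `closes_rev`: `leaf_odd` with `k = 0`, `j = 1`: `Λ s (shf 0 1 x) = shf 0 1 (Λ (-s) x)`. So `Λ T (shf 0 1 x) = shf 0 1 (Λ (-T) x)`, and
  `Λ (-T) x = shf (-m) (-j) x` (`closes_add` with `s = -T`). `inj`: `no_odd`/`ret_of` (module Close) or directly from `hc.inj` at the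
  times `T - s'`, `T - s` (use `closes_add`; for `s = 0`: the time `T - s'` against `0`).
* `m_ne`: if `m = 0` then `G s = t(s) + i r(s)`, `G' s = cos φ + i sin φ` is an embedded closed curve (`Lp`; `inj` is `hc.inj` with `k = 0`; the
  first components agree by `leaf_q`). `area = (1/2) ∫ (t sin φ - r cos φ)`, and `∫_0^T t r' = [t r]_0^T - ∫ t' r = - ∫ r cos φ`, so
  `area = - ∫ r cos φ = 0` (`closes_exact`): contradicts `area_ne`.
* `polar_lp`: `c > |r|` on `K`, `ϱ(s) = √(2 (r(s) + c)) > 0`, `ϱ' = sin φ / ϱ`, `G = ϱ exp (2 π i t)`,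
  `G' = (ϱ' + 2 π i cos φ ϱ) exp (2 π i t)`. Periodic: `t(s + T) = t(s) + m`, `r(s + T) = r(s)` (`closes_add`). `G' ≠ 0`: otherwise `sin φ = 0`
  and `cos φ = 0`. `inj`: if `G s = G s'` then `ϱ` and so `r` agree, and `exp (2 π i (t' - t)) = 1`, `t' - t` is an integer
  (`Complex.exp_eq_one_iff`): contradicts `hc.inj`. `wn T G G' 0 = (2 π i)⁻¹ ∫ (ϱ'/ϱ + 2 π i cos φ) = (2 π i)⁻¹ ([log ϱ]_0^T + 2 π i m) = m`
  (`closes_t`). `Im (conj G G') = ϱ² 2 π cos φ = 4 π (r + c) cos φ`, so `area = 2 π ∫ (r + c) cos φ = 2 π c m` (`closes_exact`, `closes_t`).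
* `m_one`: `m ≠ 0` and `m ∈ {0, 1, -1}` by `wn_zero_val`.
-/

set_option autoImplicit false
set_option linter.unusedSectionVars false

open scoped ContDiff Topology
open Set

namespace Pool.Agent.H57.CR

open Pool.Agent.H2.TG (IsFlow)

variable {P : Type} [NormedAddCommGroup P] [NormedSpace ℝ P] [FiniteDimensional ℝ P] {N : Set P}
  {K : Set (P × ℝ × ℝ)} {f : P × ℝ × ℝ → ℝ} {κ : (P × ℝ × ℝ) × ℝ → ℝ}
  {Λ : ℝ → (P × ℝ × ℝ) × ℝ → (P × ℝ × ℝ) × ℝ}

/-- the leaf in polar coordinates -/
noncomputable def pG (Λ : ℝ → (P × ℝ × ℝ) × ℝ → (P × ℝ × ℝ) × ℝ) (x : (P × ℝ × ℝ) × ℝ) (c : ℝ)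
    (s : ℝ) : ℂ :=
  Real.sqrt (2 * ((Λ s x).1.2.2 + c)) * Complex.exp (2 * Real.pi * Complex.I * (Λ s x).1.2.1)

/-- its velocity -/
noncomputable def pG' (Λ : ℝ → (P × ℝ × ℝ) × ℝ → (P × ℝ × ℝ) × ℝ) (x : (P × ℝ × ℝ) × ℝ) (c : ℝ)
    (s : ℝ) : ℂ :=
  (Real.sin (Λ s x).2 / Real.sqrt (2 * ((Λ s x).1.2.2 + c)) +
      2 * Real.pi * Complex.I * Real.cos (Λ s x).2 * Real.sqrt (2 * ((Λ s x).1.2.2 + c))) *
    Complex.exp (2 * Real.pi * Complex.I * (Λ s x).1.2.1)

private lemma oneA_shf_shf (k j k' j' : ℤ) (x : (P × ℝ × ℝ) × ℝ) :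
    shf k j (shf k' j' x) = shf (k + k') (j + j') x := by
  rcases x with ⟨⟨q, t, r⟩, φ⟩
  simp only [shf, shp, Prod.mk.injEq, true_and, and_true]
  push_cast
  exact ⟨by ring, by ring⟩

private lemma oneA_cont (hL : Leaf N K f κ Λ) (x : (P × ℝ × ℝ) × ℝ) :
    Continuous fun s : ℝ => Λ s x :=
  (leaf_cont hL).comp (continuous_id.prodMk continuous_const)

private lemma oneA_lin {T m : ℝ} {r φ : ℝ → ℝ} (hr : Continuous r) (hφ : Continuous φ)
    (h1 : ∫ s in (0 : ℝ)..T, r s * Real.cos (φ s) = 0)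
    (h2 : ∫ s in (0 : ℝ)..T, Real.cos (φ s) = m) (c : ℝ) :
    ∫ s in (0 : ℝ)..T, (r s + c) * Real.cos (φ s) = c * m := by
  have hc1 : Continuous fun s => r s * Real.cos (φ s) := hr.mul (Real.continuous_cos.comp hφ)
  have hc2 : Continuous fun s => c * Real.cos (φ s) :=
    continuous_const.mul (Real.continuous_cos.comp hφ)
  have e : (fun s => (r s + c) * Real.cos (φ s)) =
      fun s => r s * Real.cos (φ s) + c * Real.cos (φ s) := by
    funext s; ring
  rw [e, intervalIntegral.integral_add (hc1.intervalIntegrable _ _) (hc2.intervalIntegrable _ _),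
    h1, intervalIntegral.integral_const_mul, h2, zero_add]

theorem closes_rev (hL : Leaf N K f κ Λ) {x : (P × ℝ × ℝ) × ℝ} (hx : x ∈ PS N K) {T : ℝ} {m j : ℤ}
    (hc : Closes Λ x T m j) : Closes Λ (shf 0 1 x) T (-m) (-j) := by
  have hodd : Odd (1 : ℤ) := odd_one
  refine ⟨hc.pos, hc.even.neg, ?_, fun s s' h0 hss hsT k hk => ?_⟩
  · rw [leaf_odd hL hx 0 hodd T]
    have h := closes_mul hL hx hc (-1) 0
    rw [hL.flow.zero] at h
    have e1 : (0 : ℝ) + ((-1 : ℤ) : ℝ) * T = -T := by push_cast; ring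
    rw [e1] at h
    rw [h, oneA_shf_shf, oneA_shf_shf]
    congr 1 <;> ring
  · rw [leaf_odd hL hx 0 hodd s, leaf_odd hL hx 0 hodd s'] at hk
    simp only [shf] at hk
    rw [shp_zero, shp_zero] at hk
    have h1 : (Λ (-s) x).1 = shp (-k) (Λ (-s') x).1 := by
      rw [hk, shp_shp, neg_add_cancel, shp_zero]
    obtain ⟨i, hi, hie⟩ := no_odd hL hx (s := -s') (s' := -s) (by linarith) h1
    have h2 := ret_of hL hx hi hie
    have e1 : -s - -s' = s' - s := by ring
    rw [e1] at h2
    refine hc.inj 0 (s' - s) le_rfl (by linarith) (by linarith) (-k) ?_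
    rw [hL.flow.zero, h2]
    rfl

theorem m_ne (hL : Leaf N K f κ Λ) {x : (P × ℝ × ℝ) × ℝ} (hx : x ∈ PS N K) {T : ℝ} {m j : ℤ}
    (hc : Closes Λ x T m j) : m ≠ 0 := by
  intro hm
  subst hm
  have hcx := oneA_cont hL x
  set t : ℝ → ℝ := fun s => (Λ s x).1.2.1 with ht
  set r : ℝ → ℝ := fun s => (Λ s x).1.2.2 with hr
  set φ : ℝ → ℝ := fun s => (Λ s x).2 with hφ
  have htc : Continuous t := hcx.fst.snd.fst
  have hrc : Continuous r := hcx.fst.snd.snd
  have hφc : Continuous φ := hcx.snd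
  have htd : ∀ s, HasDerivAt t (Real.cos (φ s)) s := fun s => leaf_t hL x s
  have hrd : ∀ s, HasDerivAt r (Real.sin (φ s)) s := fun s => leaf_r hL x s
  set G : ℝ → ℂ := fun s => ((t s : ℝ) : ℂ) + ((r s : ℝ) : ℂ) * Complex.I with hG
  set G' : ℝ → ℂ := fun s => ((Real.cos (φ s) : ℝ) : ℂ) + ((Real.sin (φ s) : ℝ) : ℂ) * Complex.I
    with hG'
  have hLp : Lp T G G' := by
    refine ⟨hc.pos, fun s => ?_, ?_, fun s => ?_, fun s h => ?_, fun s s' h0 hss hsT h => ?_⟩
    · exact (htd s).ofReal_comp.add ((hrd s).ofReal_comp.mul_const Complex.I)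
    · exact (Complex.continuous_ofReal.comp (Real.continuous_cos.comp hφc)).add
        ((Complex.continuous_ofReal.comp (Real.continuous_sin.comp hφc)).mul continuous_const)
    · have h := closes_add hL hx hc s
      have h1 : t (s + T) = t s := by
        simp only [ht, h, shf, shp]
        simp
      have h2 : r (s + T) = r s := by
        simp only [hr, h, shf, shp]
      simp only [hG, h1, h2]
    · have h1 := congrArg Complex.re h
      have h2 := congrArg Complex.im h
      simp only [hG', Complex.add_re, Complex.add_im, Complex.ofReal_re, Complex.ofReal_im,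
        Complex.mul_re, Complex.mul_im, Complex.I_re, Complex.I_im, Complex.zero_re,
        Complex.zero_im, mul_zero, mul_one, add_zero, zero_add, sub_zero] at h1 h2
      have h3 := Real.sin_sq_add_cos_sq (φ s)
      rw [h1, h2] at h3
      norm_num at h3
    · have h1 := congrArg Complex.re h
      have h2 := congrArg Complex.im h
      simp only [hG, Complex.add_re, Complex.add_im, Complex.ofReal_re, Complex.ofReal_im,
        Complex.mul_re, Complex.mul_im, Complex.I_re, Complex.I_im, mul_zero, mul_one, add_zero,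
        zero_add, sub_zero] at h1 h2
      refine hc.inj s s' h0 hss hsT 0 ?_
      rw [shp_zero]
      refine Prod.ext ?_ (Prod.ext h1.symm h2.symm)
      rw [leaf_q hL, leaf_q hL]
  refine area_ne hLp ?_
  have him : ∀ s, ((starRingEnd ℂ) (G s) * G' s).im =
      (Real.cos (φ s) * r s + t s * Real.sin (φ s)) - 2 * (r s * Real.cos (φ s)) := by
    intro s
    simp only [hG, hG', map_add, map_mul, Complex.conj_ofReal, Complex.conj_I, Complex.mul_im,
      Complex.add_re, Complex.add_im, Complex.ofReal_re, Complex.ofReal_im, Complex.mul_re,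
      Complex.neg_re, Complex.neg_im, Complex.I_re, Complex.I_im]
    ring
  have hd : ∀ s, HasDerivAt (fun s => t s * r s)
      (Real.cos (φ s) * r s + t s * Real.sin (φ s)) s := fun s => (htd s).mul (hrd s)
  have hcc : Continuous fun s => Real.cos (φ s) * r s + t s * Real.sin (φ s) :=
    ((Real.continuous_cos.comp hφc).mul hrc).add (htc.mul (Real.continuous_sin.comp hφc))
  have hcc2 : Continuous fun s => 2 * (r s * Real.cos (φ s)) :=
    continuous_const.mul (hrc.mul (Real.continuous_cos.comp hφc))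
  have hI1 : ∫ s in (0 : ℝ)..T, (Real.cos (φ s) * r s + t s * Real.sin (φ s)) = 0 := by
    rw [intervalIntegral.integral_eq_sub_of_hasDerivAt (fun s _ => hd s)
      (hcc.intervalIntegrable _ _)]
    have h := closes_add hL hx hc 0
    rw [zero_add] at h
    have h1 : t T = t 0 := by
      simp only [ht, h, shf, shp]
      simp
    have h2 : r T = r 0 := by
      simp only [hr, h, shf, shp]
    rw [h1, h2, sub_self]
  have hI2 : ∫ s in (0 : ℝ)..T, 2 * (r s * Real.cos (φ s)) = 0 := by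
    rw [intervalIntegral.integral_const_mul]
    have : ∫ s in (0 : ℝ)..T, r s * Real.cos (φ s) = 0 := closes_exact hL hx hc
    rw [this, mul_zero]
  unfold area
  simp only [him]
  rw [intervalIntegral.integral_sub (hcc.intervalIntegrable _ _) (hcc2.intervalIntegrable _ _),
    hI1, hI2]
  norm_num

theorem polar_lp (hL : Leaf N K f κ Λ) {x : (P × ℝ × ℝ) × ℝ} (hx : x ∈ PS N K) {T : ℝ} {m j : ℤ}
    (hc : Closes Λ x T m j) {c : ℝ} (hb : ∀ y ∈ K, |y.2.2| < c) :
    Lp T (pG Λ x c) (pG' Λ x c) ∧ (∀ s, pG Λ x c s ≠ 0) ∧ wn T (pG Λ x c) (pG' Λ x c) 0 = m ∧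
      area T (pG Λ x c) (pG' Λ x c) = 2 * Real.pi * c * m := by
  have hcx := oneA_cont hL x
  set t : ℝ → ℝ := fun s => (Λ s x).1.2.1 with ht
  set r : ℝ → ℝ := fun s => (Λ s x).1.2.2 with hr
  set φ : ℝ → ℝ := fun s => (Λ s x).2 with hφ
  have htc : Continuous t := hcx.fst.snd.fst
  have hrc : Continuous r := hcx.fst.snd.snd
  have hφc : Continuous φ := hcx.snd
  have htd : ∀ s, HasDerivAt t (Real.cos (φ s)) s := fun s => leaf_t hL x s
  have hrd : ∀ s, HasDerivAt r (Real.sin (φ s)) s := fun s => leaf_r hL x s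
  have htT : ∀ s, t (s + T) = t s + m := by
    intro s
    have h := closes_add hL hx hc s
    simp only [ht, h, shf, shp]
  have hrT : ∀ s, r (s + T) = r s := by
    intro s
    have h := closes_add hL hx hc s
    simp only [hr, h, shf, shp]
  have hrpos : ∀ s, 0 < r s + c := by
    intro s
    have h := hb _ (leaf_mem hL hx s).1
    have h' := (abs_lt.1 h).1
    have : r s = (Λ s x).1.2.2 := rfl
    linarith
  set ϱ : ℝ → ℝ := fun s => Real.sqrt (2 * (r s + c)) with hϱ
  have hϱpos : ∀ s, 0 < ϱ s := fun s => Real.sqrt_pos.2 (by linarith [hrpos s])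
  have hϱsq : ∀ s, ϱ s * ϱ s = 2 * (r s + c) := fun s =>
    Real.mul_self_sqrt (by linarith [hrpos s])
  have hϱd : ∀ s, HasDerivAt ϱ (Real.sin (φ s) / ϱ s) s := by
    intro s
    have h1 : HasDerivAt (fun s => 2 * (r s + c)) (2 * Real.sin (φ s)) s :=
      ((hrd s).add_const c).const_mul 2
    have hne : (2 : ℝ) * (r s + c) ≠ 0 := mul_ne_zero two_ne_zero (hrpos s).ne'
    have h2 := h1.sqrt hne
    rw [mul_div_mul_left _ _ two_ne_zero] at h2
    exact h2
  have hϱc : Continuous ϱ := continuous_iff_continuousAt.2 fun s => (hϱd s).continuousAt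
  set e : ℝ → ℂ := fun s => Complex.exp (2 * Real.pi * Complex.I * ((t s : ℝ) : ℂ)) with he
  have hene : ∀ s, e s ≠ 0 := fun s => Complex.exp_ne_zero _
  have hed : ∀ s, HasDerivAt e (e s * (2 * Real.pi * Complex.I * ((Real.cos (φ s) : ℝ) : ℂ)))
      s := by
    intro s
    exact ((htd s).ofReal_comp.const_mul (2 * Real.pi * Complex.I)).cexp
  have hec : Continuous e := continuous_iff_continuousAt.2 fun s => (hed s).continuousAt
  have hG : pG Λ x c = fun s => ((ϱ s : ℝ) : ℂ) * e s := rfl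
  have hG' : pG' Λ x c = fun s => (((Real.sin (φ s) : ℝ) : ℂ) / ((ϱ s : ℝ) : ℂ) +
      2 * Real.pi * Complex.I * ((Real.cos (φ s) : ℝ) : ℂ) * ((ϱ s : ℝ) : ℂ)) * e s := rfl
  rw [hG, hG']
  have hϱC : ∀ s, ((ϱ s : ℝ) : ℂ) ≠ 0 := fun s => Complex.ofReal_ne_zero.2 (hϱpos s).ne'
  have hLp : Lp T (fun s => ((ϱ s : ℝ) : ℂ) * e s)
      (fun s => (((Real.sin (φ s) : ℝ) : ℂ) / ((ϱ s : ℝ) : ℂ) +
        2 * Real.pi * Complex.I * ((Real.cos (φ s) : ℝ) : ℂ) * ((ϱ s : ℝ) : ℂ)) * e s) := by
    refine ⟨hc.pos, fun s => ?_, ?_, fun s => ?_, fun s h => ?_, fun s s' h0 hss hsT h => ?_⟩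
    · have h1 := (hϱd s).ofReal_comp.mul (hed s)
      have h2 : (((Real.sin (φ s) / ϱ s : ℝ)) : ℂ) * e s +
          ((ϱ s : ℝ) : ℂ) * (e s * (2 * Real.pi * Complex.I * ((Real.cos (φ s) : ℝ) : ℂ))) =
          (((Real.sin (φ s) : ℝ) : ℂ) / ((ϱ s : ℝ) : ℂ) +
        2 * Real.pi * Complex.I * ((Real.cos (φ s) : ℝ) : ℂ) * ((ϱ s : ℝ) : ℂ)) * e s := by
        rw [Complex.ofReal_div]
        ring
      rw [h2] at h1
      exact h1
    · refine Continuous.mul (Continuous.add ?_ ?_) hec
      · exact (Complex.continuous_ofReal.comp (Real.continuous_sin.comp hφc)).div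
          (Complex.continuous_ofReal.comp hϱc) hϱC
      · exact (continuous_const.mul
          (Complex.continuous_ofReal.comp (Real.continuous_cos.comp hφc))).mul
          (Complex.continuous_ofReal.comp hϱc)
    · have h1 : ϱ (s + T) = ϱ s := by simp only [hϱ, hrT]
      have h2 : e (s + T) = e s := by
        simp only [he, htT]
        rw [Complex.exp_eq_exp_iff_exists_int]
        refine ⟨m, ?_⟩
        push_cast
        ring
      simp only [h1, h2]
    · have h1 := (mul_eq_zero.1 h).resolve_right (hene s)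
      have h2 : (((Real.sin (φ s) / ϱ s : ℝ)) : ℂ) +
          (((2 * Real.pi * Real.cos (φ s) * ϱ s : ℝ)) : ℂ) * Complex.I = 0 := by
        rw [← h1]
        push_cast
        ring
      have h3 := congrArg Complex.re h2
      have h4 := congrArg Complex.im h2
      simp only [Complex.add_re, Complex.add_im, Complex.ofReal_re, Complex.ofReal_im,
        Complex.mul_re, Complex.mul_im, Complex.I_re, Complex.I_im, Complex.zero_re,
        Complex.zero_im, mul_zero, mul_one, add_zero, zero_add, sub_zero] at h3 h4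
      have h5 : Real.sin (φ s) = 0 := by
        rcases div_eq_zero_iff.1 h3 with h | h
        · exact h
        · exact absurd h (hϱpos s).ne'
      have h6 : Real.cos (φ s) = 0 := by
        have hp := Real.pi_ne_zero
        have hq := (hϱpos s).ne'
        rcases mul_eq_zero.1 h4 with h | h
        · rcases mul_eq_zero.1 h with h | h
          · exact absurd h (by positivity)
          · exact h
        · exact absurd h hq
      have h7 := Real.sin_sq_add_cos_sq (φ s)
      rw [h5, h6] at h7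
      norm_num at h7
    · have hn : ∀ s, ‖((ϱ s : ℝ) : ℂ) * e s‖ = ϱ s := by
        intro s
        have h1 : ‖e s‖ = 1 := by
          simp only [he]
          have : (2 * Real.pi * Complex.I * ((t s : ℝ) : ℂ)) =
              ((2 * Real.pi * t s : ℝ) : ℂ) * Complex.I := by
            push_cast; ring
          rw [this]
          exact Complex.norm_exp_ofReal_mul_I _
        rw [norm_mul, h1, mul_one, Complex.norm_real, Real.norm_eq_abs, abs_of_pos (hϱpos s)]
      have h1 : ϱ s = ϱ s' := by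
        rw [← hn s, ← hn s']
        exact congrArg norm h
      have h2 : r s = r s' := by
        have h3 := hϱsq s
        rw [h1, hϱsq s'] at h3
        linarith
      have h3 : e s = e s' := by
        have h4 : ((ϱ s : ℝ) : ℂ) * e s = ((ϱ s' : ℝ) : ℂ) * e s' := h
        rw [h1] at h4
        exact mul_left_cancel₀ (hϱC s') h4
      obtain ⟨n, hn'⟩ := Complex.exp_eq_exp_iff_exists_int.1 h3
      have h4 : ((t s' : ℝ) : ℂ) = ((t s + (-n : ℤ) : ℝ) : ℂ) := by
        have h5 : (2 * Real.pi * Complex.I) * ((t s : ℝ) : ℂ) =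
            (2 * Real.pi * Complex.I) * (((t s' : ℝ) : ℂ) + n) := by
          rw [hn']; ring
        have h6 := mul_left_cancel₀ Complex.two_pi_I_ne_zero h5
        push_cast
        rw [h6]
        ring
      have h5 : t s' = t s + ((-n : ℤ) : ℝ) := Complex.ofReal_injective h4
      refine hc.inj s s' h0 hss hsT (-n) ?_
      refine Prod.ext ?_ (Prod.ext h5 h2.symm)
      show (Λ s' x).1.1 = (Λ s x).1.1
      rw [leaf_q hL, leaf_q hL]
  refine ⟨hLp, fun s => mul_ne_zero (hϱC s) (hene s), ?_, ?_⟩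
  · unfold wn
    have h1 : ∀ s, (((Real.sin (φ s) : ℝ) : ℂ) / ((ϱ s : ℝ) : ℂ) +
        2 * Real.pi * Complex.I * ((Real.cos (φ s) : ℝ) : ℂ) * ((ϱ s : ℝ) : ℂ)) * e s /
        (((ϱ s : ℝ) : ℂ) * e s - 0) =
        (((1 / 2) * (Real.sin (φ s) / (r s + c)) : ℝ) : ℂ) +
          (2 * Real.pi * Complex.I) * ((Real.cos (φ s) : ℝ) : ℂ) := by
      intro s
      have h2 : ((r s : ℝ) : ℂ) + ((c : ℝ) : ℂ) ≠ 0 := by
        have := Complex.ofReal_ne_zero.2 (hrpos s).ne'
        rwa [Complex.ofReal_add] at this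
      have h3 : ((ϱ s : ℝ) : ℂ) * ((ϱ s : ℝ) : ℂ) = 2 * (((r s : ℝ) : ℂ) + ((c : ℝ) : ℂ)) := by
        rw [← Complex.ofReal_mul, hϱsq s]
        push_cast
        ring
      have h4 := hϱC s
      have h5 := hene s
      rw [sub_zero, mul_div_mul_right _ _ h5, add_div, mul_div_assoc _ (((ϱ s : ℝ) : ℂ)),
        div_self h4, mul_one, div_div, h3]
      congr 1
      push_cast
      field_simp
    simp only [h1]
    have hlog : ∀ s, HasDerivAt (fun s => Real.log (r s + c)) (Real.sin (φ s) / (r s + c)) s :=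
      fun s => ((hrd s).add_const c).log (hrpos s).ne'
    have hlc : Continuous fun s => Real.sin (φ s) / (r s + c) :=
      (Real.continuous_sin.comp hφc).div (hrc.add continuous_const) fun s => (hrpos s).ne'
    have hI1 : ∫ s in (0 : ℝ)..T, Real.sin (φ s) / (r s + c) = 0 := by
      rw [intervalIntegral.integral_eq_sub_of_hasDerivAt (fun s _ => hlog s)
        (hlc.intervalIntegrable _ _)]
      have := hrT 0
      rw [zero_add] at this
      rw [this, sub_self]
    have hI2 : ∫ s in (0 : ℝ)..T, Real.cos (φ s) = m := closes_t hL hc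
    have hc1 : Continuous fun s => (((1 / 2) * (Real.sin (φ s) / (r s + c)) : ℝ) : ℂ) :=
      Complex.continuous_ofReal.comp (continuous_const.mul hlc)
    have hc2 : Continuous fun s =>
        (2 * Real.pi * Complex.I) * ((Real.cos (φ s) : ℝ) : ℂ) :=
      continuous_const.mul (Complex.continuous_ofReal.comp (Real.continuous_cos.comp hφc))
    rw [intervalIntegral.integral_add (hc1.intervalIntegrable _ _)
      (hc2.intervalIntegrable _ _), intervalIntegral.integral_const_mul,
      intervalIntegral.integral_ofReal, intervalIntegral.integral_ofReal,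
      intervalIntegral.integral_const_mul, hI1, hI2, mul_zero, Complex.ofReal_zero, zero_add,
      ← mul_assoc, inv_mul_cancel₀ Complex.two_pi_I_ne_zero, one_mul]
    push_cast
    rfl
  · unfold area
    have him : ∀ s, ((starRingEnd ℂ) (((ϱ s : ℝ) : ℂ) * e s) *
        ((((Real.sin (φ s) : ℝ) : ℂ) / ((ϱ s : ℝ) : ℂ) +
        2 * Real.pi * Complex.I * ((Real.cos (φ s) : ℝ) : ℂ) * ((ϱ s : ℝ) : ℂ)) * e s)).im =
        4 * Real.pi * ((r s + c) * Real.cos (φ s)) := by
      intro s
      have h1 : (starRingEnd ℂ) (e s) * e s = 1 := by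
        have h2 : ‖e s‖ = 1 := by
          simp only [he]
          have : (2 * Real.pi * Complex.I * ((t s : ℝ) : ℂ)) =
              ((2 * Real.pi * t s : ℝ) : ℂ) * Complex.I := by
            push_cast; ring
          rw [this]
          exact Complex.norm_exp_ofReal_mul_I _
        rw [mul_comm, Complex.mul_conj, Complex.normSq_eq_norm_sq, h2]
        norm_num
      have h3 : (starRingEnd ℂ) (((ϱ s : ℝ) : ℂ) * e s) *
        ((((Real.sin (φ s) : ℝ) : ℂ) / ((ϱ s : ℝ) : ℂ) +
        2 * Real.pi * Complex.I * ((Real.cos (φ s) : ℝ) : ℂ) * ((ϱ s : ℝ) : ℂ)) * e s) =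
        ((Real.sin (φ s) : ℝ) : ℂ) +
          ((4 * Real.pi * ((r s + c) * Real.cos (φ s)) : ℝ) : ℂ) * Complex.I := by
        rw [map_mul, Complex.conj_ofReal]
        have h4 : ((ϱ s : ℝ) : ℂ) * (((Real.sin (φ s) : ℝ) : ℂ) / ((ϱ s : ℝ) : ℂ)) =
            ((Real.sin (φ s) : ℝ) : ℂ) := mul_div_cancel₀ _ (hϱC s)
        have h5 : ((ϱ s : ℝ) : ℂ) * ((ϱ s : ℝ) : ℂ) = 2 * (((r s : ℝ) : ℂ) + ((c : ℝ) : ℂ)) := by
          rw [← Complex.ofReal_mul, hϱsq s]
          push_cast
          ring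
        calc _ = ((starRingEnd ℂ) (e s) * e s) * (((ϱ s : ℝ) : ℂ) *
              (((Real.sin (φ s) : ℝ) : ℂ) / ((ϱ s : ℝ) : ℂ)) +
              2 * Real.pi * Complex.I * ((Real.cos (φ s) : ℝ) : ℂ) *
                (((ϱ s : ℝ) : ℂ) * ((ϱ s : ℝ) : ℂ))) := by ring
          _ = _ := by
              rw [h1, h4, h5]
              push_cast
              ring
      rw [h3]
      simp only [Complex.add_im, Complex.ofReal_re, Complex.ofReal_im, Complex.mul_im,
        Complex.I_re, Complex.I_im, mul_zero, mul_one, add_zero, zero_add]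
    simp only [him]
    rw [intervalIntegral.integral_const_mul,
      oneA_lin hrc hφc (closes_exact hL hx hc) (closes_t hL hc) c]
    ring

theorem m_one (hL : Leaf N K f κ Λ) {x : (P × ℝ × ℝ) × ℝ} (hx : x ∈ PS N K) {T : ℝ} {m j : ℤ}
    (hc : Closes Λ x T m j) : m = 1 ∨ m = -1 := by
  obtain ⟨M, hM⟩ := hL.fam.bdd
  obtain ⟨h1, h2, h3, -⟩ := polar_lp hL hx hc (c := M + 1) fun y hy => by
    linarith [hM y hy]
  have h0 := m_ne hL hx hc
  have h4 := wn_zero_val h1 h2
  rw [h3] at h4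
  rcases h4 with h | h | h
  · exact absurd (by exact_mod_cast h) h0
  · left; exact_mod_cast h
  · right; exact_mod_cast h

end Pool.Agent.H57.CR
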