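import Pool.Agent.H57.CR.OneA

/-!
# There is only one leaf in every plane (module OneB)

PROOF of `one`. Let `x, y ∈ PS` with the same parameter. `exists_closes` for both: `T, m, j` and `T', m', j'`; `m, m' ∈ {1, -1}` (`m_one`).
(a) Claim: there are `s, s', k` with `(Λ s x).1 = shp k (Λ s' y).1`. Otherwise: replacing `x` by `shf 0 1 x` if `m = -1` (`closes_rev`;
`leaf_odd`: the points of the leaf are the same, with time reversed), and the same for `y`, we may assume `m = m' = 1` (first prove (a) for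
`m = m' = 1` as a lemma). The curves `pG Λ x c` and `pG Λ y c` are disjoint (equality of the values would give equal `r` and
`t` up to an integer `k`, with `leaf_q` the points agree up to `shp k`), both have winding number `1` around `0` and area `2 π c` (`polar_lp`):
contradiction with `area_diff`.
(b) Let `(Λ s x).1 = shp k (Λ s' y).1`. Both `Λ s x` and `shf k 0 (Λ s' y)` are in `PS` over the same point, so
`Λ s x = shf k i (Λ s' y)` for some `i` (`PS_unique`). If `i` is even apply `Λ (-s')`: `Λ (s - s') x = shf k i y` (`leaf_shf`), if `i` is odd apply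
`Λ s'`: `Λ (s + s') x = shf k i y` (`leaf_odd`). In both cases `(Λ a x).1 = shp k y.1` for some `a`. With `n = -k m` (`m² = 1`) and `closes_mul`:
`Λ (a + n T) x = shf (n m) (n j) (Λ a x)`, `n m = -k`, so `(Λ (a + n T) x).1 = shp (-k) (shp k y.1) = y.1`.
`one_K`: `PS_exists` and `one`.
-/

set_option autoImplicit false
set_option linter.unusedSectionVars false

open scoped ContDiff Topology
open Set

namespace Pool.Agent.H57.CR

open Pool.Agent.H2.TG (IsFlow)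

variable {P : Type} [NormedAddCommGroup P] [NormedSpace ℝ P] [FiniteDimensional ℝ P] {N : Set P}
  {K : Set (P × ℝ × ℝ)} {f : P × ℝ × ℝ → ℝ} {κ : (P × ℝ × ℝ) × ℝ → ℝ}
  {Λ : ℝ → (P × ℝ × ℝ) × ℝ → (P × ℝ × ℝ) × ℝ}

private lemma oneB_pos (hL : Leaf N K f κ Λ) {x : (P × ℝ × ℝ) × ℝ} (hx : x ∈ PS N K) :
    ∃ x₁ ∈ PS N K, ∃ (T : ℝ) (j : ℤ), Closes Λ x₁ T 1 j ∧ x₁.1.1 = x.1.1 ∧
      ∀ s, ∃ s₁, (Λ s x₁).1 = (Λ s₁ x).1 := by
  obtain ⟨T₀, -, hcl⟩ := exists_closes hL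
  obtain ⟨T, m, j, -, hc⟩ := hcl x hx
  rcases m_one hL hx hc with hm | hm
  · rw [hm] at hc
    exact ⟨x, hx, T, j, hc, rfl, fun s => ⟨s, rfl⟩⟩
  · rw [hm] at hc
    have hc2 := closes_rev hL hx hc
    rw [neg_neg] at hc2
    refine ⟨shf 0 1 x, PS_shf hL.fam hx 0 1, T, -j, hc2, rfl, fun s => ⟨-s, ?_⟩⟩
    rw [leaf_odd hL hx 0 odd_one s]
    change shp 0 (Λ (-s) x).1 = (Λ (-s) x).1
    rw [shp_zero]

private lemma oneB_norm (x : (P × ℝ × ℝ) × ℝ) (c s : ℝ) :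
    ‖pG Λ x c s‖ = Real.sqrt (2 * ((Λ s x).1.2.2 + c)) := by
  unfold pG
  rw [norm_mul, Complex.norm_real, Real.norm_of_nonneg (Real.sqrt_nonneg _)]
  have e : (2 * Real.pi * Complex.I * ((Λ s x).1.2.1 : ℂ)) =
      ((2 * Real.pi * (Λ s x).1.2.1 : ℝ) : ℂ) * Complex.I := by
    push_cast
    ring
  rw [e, Complex.norm_exp_ofReal_mul_I, mul_one]

private lemma oneB_meet (hL : Leaf N K f κ Λ) {x y : (P × ℝ × ℝ) × ℝ} (hx : x ∈ PS N K)
    (hy : y ∈ PS N K) (hq : x.1.1 = y.1.1) {T T' : ℝ} {j j' : ℤ} (hc : Closes Λ x T 1 j)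
    (hc' : Closes Λ y T' 1 j') : ∃ (s s' : ℝ) (k : ℤ), (Λ s x).1 = shp k (Λ s' y).1 := by
  by_contra hno
  push Not at hno
  obtain ⟨M, hM⟩ := hL.fam.bdd
  set c : ℝ := |M| + 1 with hcdef
  have hb : ∀ z ∈ K, |z.2.2| < c := by
    intro z hz
    have h1 := hM z hz
    have h2 := le_abs_self M
    rw [hcdef]
    linarith
  obtain ⟨l1, n1, w1, a1⟩ := polar_lp hL hx hc hb
  obtain ⟨l2, n2, w2, a2⟩ := polar_lp hL hy hc' hb
  have hd : ∀ s s', pG Λ x c s ≠ pG Λ y c s' := by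
    intro s s' he
    have hr1 := abs_lt.1 (hb _ (leaf_mem hL hx s).1)
    have hr2 := abs_lt.1 (hb _ (leaf_mem hL hy s').1)
    have hn := congrArg norm he
    rw [oneB_norm, oneB_norm] at hn
    have p1 : 0 < 2 * ((Λ s x).1.2.2 + c) := by linarith [hr1.1]
    have p2 : 0 < 2 * ((Λ s' y).1.2.2 + c) := by linarith [hr2.1]
    have hr : (Λ s x).1.2.2 = (Λ s' y).1.2.2 := by
      have := (Real.sqrt_inj p1.le p2.le).1 hn
      linarith
    have hs : (Real.sqrt (2 * ((Λ s' y).1.2.2 + c)) : ℂ) ≠ 0 := by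
      rw [Ne, Complex.ofReal_eq_zero]
      exact (Real.sqrt_pos.2 p2).ne'
    unfold pG at he
    rw [hr] at he
    have he2 := mul_left_cancel₀ hs he
    rw [Complex.exp_eq_exp_iff_exists_int] at he2
    obtain ⟨n, hn2⟩ := he2
    have ht : (Λ s x).1.2.1 = (Λ s' y).1.2.1 + n := by
      have h2 : (2 * Real.pi * Complex.I) ≠ 0 := Complex.two_pi_I_ne_zero
      have h3 : (2 * Real.pi * Complex.I) * ((Λ s x).1.2.1 : ℂ) =
          (2 * Real.pi * Complex.I) * (((Λ s' y).1.2.1 + n : ℝ) : ℂ) := by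
        rw [hn2]
        push_cast
        ring
      have h4 := mul_left_cancel₀ h2 h3
      exact_mod_cast h4
    apply hno s s' n
    have e1 : (Λ s x).1.1 = (Λ s' y).1.1 := by rw [leaf_q hL, leaf_q hL, hq]
    unfold shp
    exact Prod.ext e1 (Prod.ext ht hr)
  have := area_diff l1 l2 hd n1 n2 (by rw [w1]; norm_num) (by rw [w2]; norm_num)
  exact this (by rw [a1, a2])

theorem meet (hL : Leaf N K f κ Λ) {x y : (P × ℝ × ℝ) × ℝ} (hx : x ∈ PS N K) (hy : y ∈ PS N K)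
    (hq : x.1.1 = y.1.1) : ∃ (s s' : ℝ) (k : ℤ), (Λ s x).1 = shp k (Λ s' y).1 := by
  obtain ⟨x₁, hx₁, T, j, hc, hq1, ht⟩ := oneB_pos hL hx
  obtain ⟨y₁, hy₁, T', j', hc', hq2, ht'⟩ := oneB_pos hL hy
  obtain ⟨s, s', k, h⟩ := oneB_meet hL hx₁ hy₁ (by rw [hq1, hq2, hq]) hc hc'
  obtain ⟨a, ha⟩ := ht s
  obtain ⟨b, hb⟩ := ht' s'
  exact ⟨a, b, k, by rw [← ha, ← hb, h]⟩

theorem one (hL : Leaf N K f κ Λ) {x y : (P × ℝ × ℝ) × ℝ} (hx : x ∈ PS N K) (hy : y ∈ PS N K)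
    (hq : x.1.1 = y.1.1) : ∃ s, (Λ s x).1 = y.1 := by
  obtain ⟨s, s', k, h⟩ := meet hL hx hy hq
  have hys := leaf_mem hL hy s'
  have h1 : (shp k (Λ s' y).1, (Λ s x).2) ∈ PS N K := by
    rw [← h]
    exact leaf_mem hL hx s
  obtain ⟨i, hi⟩ := PS_unique hL.fam h1 (PS_shp hL.fam k hys)
  have he : Λ s x = shf k i (Λ s' y) := Prod.ext h hi
  have h2 : ∃ a, (Λ a x).1 = shp k y.1 := by
    rcases Int.even_or_odd i with hev | hod
    · refine ⟨-s' + s, ?_⟩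
      rw [← leaf_add hL, he, leaf_shf hL hys k hev, leaf_add hL, neg_add_cancel, hL.flow.zero]
      rfl
    · refine ⟨s' + s, ?_⟩
      rw [← leaf_add hL, he, leaf_odd hL hys k hod, leaf_add hL, neg_add_cancel, hL.flow.zero]
      rfl
  obtain ⟨a, ha⟩ := h2
  obtain ⟨T₀, -, hcl⟩ := exists_closes hL
  obtain ⟨T, m, j, -, hc⟩ := hcl x hx
  have hm : m * m = 1 := by
    rcases m_one hL hx hc with hm | hm <;> rw [hm] <;> norm_num
  refine ⟨a + ((-k * m : ℤ) : ℝ) * T, ?_⟩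
  rw [closes_mul hL hx hc (-k * m) a]
  change shp (-k * m * m) (Λ a x).1 = y.1
  rw [ha, shp_shp, mul_assoc, hm, mul_one, neg_add_cancel, shp_zero]

theorem one_K (hL : Leaf N K f κ Λ) {x : (P × ℝ × ℝ) × ℝ} (hx : x ∈ PS N K) {y : P × ℝ × ℝ}
    (hy : y ∈ K) (hq : x.1.1 = y.1) : ∃ s, (Λ s x).1 = y := by
  obtain ⟨φ, hφ⟩ := PS_exists hL.fam hy
  exact one hL hx hφ hq

end Pool.Agent.H57.CR
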