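import Pool.Agent.H2.TG.Flow

/-!
# Planar fields: definitions
-/

set_option autoImplicit false
set_option linter.unusedSectionVars false

open scoped ContDiff Topology
open Set

namespace Pool.Agent.H57.CR

open Pool.Agent.H2.TG (IsFlow)

/-- The unit vector field of the plane with phase `θ + π / 2`. -/
noncomputable def XP (θ : ℝ × ℝ → ℝ) (x : ℝ × ℝ) : ℝ × ℝ := (-Real.sin (θ x), Real.cos (θ x))

/-- Smooth planar phase functions, zero for `|r| ≥ M`, bounded by `b`, with Lipschitz constant `L`. -/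
structure PPh (θ : ℝ × ℝ → ℝ) (M L b : ℝ) : Prop where
  smooth : ContDiff ℝ ∞ θ
  supp : ∀ x : ℝ × ℝ, M ≤ |x.2| → θ x = 0
  lip : ∀ x y, |θ x - θ y| ≤ L * ‖x - y‖
  bdd : ∀ x, |θ x| ≤ b
  hM : 0 < M
  hL : 0 ≤ L

/-- Within the time `τ` every point of the strip `|r| ≤ M` leaves the strip, upwards in positive and
downwards in negative time. -/
def GoodP (M τ : ℝ) (Ψ : ℝ → ℝ × ℝ → ℝ × ℝ) : Prop :=
  ∀ x : ℝ × ℝ, |x.2| ≤ M → M + 1 ≤ (Ψ τ x).2 ∧ (Ψ (-τ) x).2 ≤ -M - 1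

/-- The bottom coordinate `β` and the time `ϖ` from the bottom. -/
structure BotP (θ : ℝ × ℝ → ℝ) (M : ℝ) (Ψ : ℝ → ℝ × ℝ → ℝ × ℝ) (β ϖ : ℝ × ℝ → ℝ) : Prop where
  smooth : ContDiff ℝ ∞ β
  cont : Continuous ϖ
  bot : ∀ x : ℝ × ℝ, x.2 ≤ -M → β x = x.1
  inv : ∀ t x, β (Ψ t x) = β x
  time : ∀ t x, ϖ (Ψ t x) = ϖ x + t
  orb : ∀ x, Ψ (ϖ x) (β x, -M) = x
  ker : ∀ x w, fderiv ℝ β x w = 0 → ∃ c : ℝ, w = c • XP θ x

/-- A phase function of period `1` in `t`, with a leaf `(α, ρ)` along which it is equal to the phase `φ`, going once around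
in the time `T`, zero above a top point and below a bottom point of the leaf. -/
structure Strip (θ : ℝ × ℝ → ℝ) (M L b T : ℝ) (α ρ φ : ℝ → ℝ) (a₀ b₀ : ℝ) : Prop where
  pph : PPh θ M L b
  per : ∀ t r : ℝ, θ (t + 1, r) = θ (t, r)
  hT : 0 < T
  dα : ∀ s, HasDerivAt α (Real.cos (φ s)) s
  dρ : ∀ s, HasDerivAt ρ (Real.sin (φ s)) s
  th : ∀ s, θ (α s, ρ s) = φ s
  αT : ∀ s, α (s + T) = α s + 1
  ρT : ∀ s, ρ (s + T) = ρ s
  hρ : ∀ s, |ρ s| ≤ M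
  top : ∀ r : ℝ, ρ a₀ ≤ r → θ (α a₀, r) = 0
  btm : ∀ r : ℝ, r ≤ ρ b₀ → θ (α b₀, r) = 0

end Pool.Agent.H57.CR
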