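import Pool.Agent.H57.CR.PDefs

set_option autoImplicit false
set_option linter.unusedSectionVars false

open scoped ContDiff Topology
open Set

/-!
# Planar flows (module PFlow)

PORT of `Pool/Agent/H2/TG/XFlow.lean` to the plane (`E n × ℝ` becomes `ℝ × ℝ`, `v = 1`, `tc v q q' = q' - q`; no lattice).
PROOFS.
* `exists_pflow`: `exists_isFlow`, the sup norm of `XP θ` is at most `1`. `exists_pflows`: the field
  `(s, x) ↦ (0, XP (fun x => s * θ x) x)` on `ℝ × (ℝ × ℝ)` is smooth and bounded.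
* `p_down`, `p_up`: as `x_down`, `x_up` (`θ = 0` for `|r| ≥ M`). `p_vert`: if `θ = 0` on the vertical segment between `x` and `(x.1, x.2 + t)` then `Ψ t x = (x.1, x.2 + t)`
  (as `xflow_half` there: two sided uniqueness at the midpoint).
* `agree`: let `θ₂ = θ₁` on `|x.1| ≤ D` and let the `Ψ₁`-orbit of `x` stay in `|x.1| ≤ D` for the times between `0` and `t`. On this interval `τ ↦ Ψ₁ τ x` is an integral curve
  of `XP θ₂`; use the two sided uniqueness `IsFlow.unique_on` at the midpoint `Ψ₁ (t/2) x` (times `|σ| ≤ |t| / 2`), as in `xflow_half`.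
* `good_of`: `p_up`, `p_down`: once above `M` the orbit gains time.
-/

namespace Pool.Agent.H57.CR

open Pool.Agent.H2.TG (IsFlow)

variable {θ : ℝ × ℝ → ℝ} {M L b : ℝ} {Ψ : ℝ → ℝ × ℝ → ℝ × ℝ}

private theorem PFlow_fst {A B : Type} [NormedAddCommGroup A] [NormedSpace ℝ A]
    [NormedAddCommGroup B] [NormedSpace ℝ B] {f : ℝ → A × B} {f' : A × B} {t : ℝ}
    (h : HasDerivAt f f' t) : HasDerivAt (fun t => (f t).1) f'.1 t :=
  (ContinuousLinearMap.fst ℝ A B).hasFDerivAt.comp_hasDerivAt t h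

private theorem PFlow_snd {A B : Type} [NormedAddCommGroup A] [NormedSpace ℝ A]
    [NormedAddCommGroup B] [NormedSpace ℝ B] {f : ℝ → A × B} {f' : A × B} {t : ℝ}
    (h : HasDerivAt f f' t) : HasDerivAt (fun t => (f t).2) f'.2 t :=
  (ContinuousLinearMap.snd ℝ A B).hasFDerivAt.comp_hasDerivAt t h

private theorem PFlow_const {A : Type} [NormedAddCommGroup A] [NormedSpace ℝ A] {f : ℝ → A}
    (h : ∀ t, HasDerivAt f 0 t) (s t : ℝ) : f s = f t :=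
  is_const_of_deriv_eq_zero (fun t => (h t).differentiableAt) (fun t => (h t).deriv) s t

private theorem PFlow_lip {A : Type} [NormedAddCommGroup A] [NormedSpace ℝ A] {f f' : ℝ → A}
    (h : ∀ t, HasDerivAt f (f' t) t) (hb : ∀ t, ‖f' t‖ ≤ 1) (t : ℝ) : ‖f t - f 0‖ ≤ |t| := by
  have := Convex.norm_image_sub_le_of_norm_hasDerivWithin_le (s := Set.univ) (C := 1)
    (fun x _ => (h x).hasDerivWithinAt) (fun x _ => hb x) convex_univ (Set.mem_univ 0)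
    (Set.mem_univ t)
  simpa using this

private theorem PFlow_bd (θ : ℝ × ℝ → ℝ) (x : ℝ × ℝ) : ‖XP θ x‖ ≤ 1 := by
  rw [Prod.norm_def]
  apply max_le
  · show ‖-Real.sin (θ x)‖ ≤ 1
    rw [Real.norm_eq_abs, abs_neg]
    exact Real.abs_sin_le_one _
  · show ‖Real.cos (θ x)‖ ≤ 1
    rw [Real.norm_eq_abs]
    exact Real.abs_cos_le_one _

theorem XP_contDiff (h : ContDiff ℝ ∞ θ) : ContDiff ℝ ∞ (XP θ) :=
  (h.sin.neg).prodMk h.cos

theorem exists_pflow (h : ContDiff ℝ ∞ θ) : ∃ Ψ, IsFlow (XP θ) Ψ :=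
  Pool.Agent.H2.TG.exists_isFlow (XP_contDiff h) (PFlow_bd θ)

theorem exists_pflows (h : ContDiff ℝ ∞ θ) : ∃ Ψ : ℝ → ℝ → ℝ × ℝ → ℝ × ℝ,
    (∀ s, IsFlow (XP fun x => s * θ x) (Ψ s)) ∧
      Continuous fun y : ℝ × ℝ × (ℝ × ℝ) => Ψ y.1 y.2.1 y.2.2 := by
  let Y : ℝ × (ℝ × ℝ) → ℝ × (ℝ × ℝ) := fun y => (0, XP (fun x => y.1 * θ x) y.2)
  have hY : ContDiff ℝ ∞ Y := by
    have h1 : ContDiff ℝ ∞ fun y : ℝ × (ℝ × ℝ) => y.1 * θ y.2 :=
      contDiff_fst.mul (h.comp contDiff_snd)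
    exact contDiff_const.prodMk ((h1.sin.neg).prodMk h1.cos)
  have hb : ∀ y, ‖Y y‖ ≤ 1 := by
    intro y
    rw [Prod.norm_def]
    apply max_le
    · show ‖(0 : ℝ)‖ ≤ 1
      simp
    · exact PFlow_bd (fun x => y.1 * θ x) y.2
  obtain ⟨Φ, hΦ⟩ := Pool.Agent.H2.TG.exists_isFlow hY hb
  have hfst : ∀ t y, (Φ t y).1 = y.1 := by
    intro t y
    have h1 : ∀ t, HasDerivAt (fun t => (Φ t y).1) 0 t := fun t => PFlow_fst (hΦ.deriv y t)
    have h2 := PFlow_const h1 t 0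
    simp only [hΦ.zero] at h2
    exact h2
  refine ⟨fun s t x => (Φ t (s, x)).2, fun s => ⟨fun x => ?_, fun x t => ?_, ?_⟩, ?_⟩
  · show (Φ 0 (s, x)).2 = x
    rw [hΦ.zero]
  · have h1 := PFlow_snd (hΦ.deriv (s, x) t)
    have h2 : (Y (Φ t (s, x))).2 = XP (fun x => s * θ x) (Φ t (s, x)).2 := by
      show XP (fun y => (Φ t (s, x)).1 * θ y) (Φ t (s, x)).2 = _
      rw [hfst]
    rw [h2] at h1
    exact h1
  · have h1 : ContDiff ℝ ∞ fun y : ℝ × (ℝ × ℝ) => (y.1, ((s : ℝ), y.2)) :=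
      contDiff_fst.prodMk (contDiff_const.prodMk contDiff_snd)
    exact contDiff_snd.comp (hΦ.smooth.comp h1)
  · have h1 : Continuous fun y : ℝ × ℝ × (ℝ × ℝ) => (y.2.1, (y.1, y.2.2)) := by fun_prop
    exact continuous_snd.comp (hΦ.smooth.continuous.comp h1)

theorem p_t (hF : IsFlow (XP θ) Ψ) (x : ℝ × ℝ) (t : ℝ) :
    HasDerivAt (fun t => (Ψ t x).1) (-Real.sin (θ (Ψ t x))) t :=
  PFlow_fst (hF.deriv x t)

theorem p_r (hF : IsFlow (XP θ) Ψ) (x : ℝ × ℝ) (t : ℝ) :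
    HasDerivAt (fun t => (Ψ t x).2) (Real.cos (θ (Ψ t x))) t :=
  PFlow_snd (hF.deriv x t)

theorem p_norm (hF : IsFlow (XP θ) Ψ) (x : ℝ × ℝ) (t : ℝ) : ‖Ψ t x - x‖ ≤ |t| := by
  have h := PFlow_lip (fun t => hF.deriv x t) (fun t => PFlow_bd θ _) t
  simpa [hF.zero] using h

private theorem PFlow_vert {x : ℝ × ℝ} {t : ℝ} (h : θ (x.1, x.2 + t) = 0) :
    HasDerivAt (fun t => (x.1, x.2 + t)) (XP θ (x.1, x.2 + t)) t := by
  have h1 : XP θ (x.1, x.2 + t) = (0, 1) := by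
    unfold XP
    rw [h]
    simp
  rw [h1]
  exact (hasDerivAt_const t x.1).prodMk ((hasDerivAt_id t).const_add x.2)

/-- two sided uniqueness at the midpoint -/
private theorem PFlow_half (h : ContDiff ℝ ∞ θ) (hF : IsFlow (XP θ) Ψ) {γ : ℝ → ℝ × ℝ} {t : ℝ}
    (hγ : ∀ τ, |τ| ≤ |t| / 2 → HasDerivAt γ (XP θ (γ (t / 2 + τ))) (t / 2 + τ)) :
    Ψ t (γ 0) = γ t := by
  have h1 : ∀ τ, |τ| ≤ |t| / 2 → Ψ τ (γ (t / 2)) = γ (t / 2 + τ) := by
    intro τ hτ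
    have h2 := hF.unique_on (XP_contDiff h) (γ := fun τ => γ (t / 2 + τ)) (ε := |t| / 2)
      (fun τ hτ => by
        have h3 := hγ τ hτ
        exact h3.comp_const_add (t / 2) τ) τ hτ
    simp only [add_zero] at h2
    exact h2.symm
  have h3 := h1 (t / 2) (by rw [abs_div, abs_two])
  have h4 := h1 (-(t / 2)) (by rw [abs_neg, abs_div, abs_two])
  have h5 : t / 2 + -(t / 2) = 0 := by ring
  rw [h5] at h4
  have h6 := hF.add (XP_contDiff h) t (-(t / 2)) (γ (t / 2))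
  rw [h4] at h6
  have h7 : t + -(t / 2) = t / 2 := by ring
  rw [h7, h3] at h6
  have h8 : t / 2 + t / 2 = t := by ring
  rw [h8] at h6
  exact h6

theorem p_vert (h : ContDiff ℝ ∞ θ) (hF : IsFlow (XP θ) Ψ) {x : ℝ × ℝ} {t : ℝ}
    (h0 : ∀ τ, |τ| ≤ |t| / 2 → θ (x.1, x.2 + t / 2 + τ) = 0) : Ψ t x = (x.1, x.2 + t) := by
  have h1 := PFlow_half h hF (γ := fun t => (x.1, x.2 + t)) (t := t) (fun τ hτ => by
    refine PFlow_vert ?_
    have := h0 τ hτ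
    rwa [add_assoc] at this)
  simpa using h1

theorem p_down (hP : PPh θ M L b) (hF : IsFlow (XP θ) Ψ) {x : ℝ × ℝ} (hx : x.2 ≤ -M) {t : ℝ}
    (ht : t ≤ 0) : Ψ t x = (x.1, x.2 + t) := by
  refine p_vert hP.smooth hF fun τ hτ => hP.supp _ ?_
  rw [abs_of_nonpos ht] at hτ
  have h1 := (abs_le.1 hτ).2
  show M ≤ |x.2 + t / 2 + τ|
  rw [le_abs]
  right
  linarith

theorem p_up (hP : PPh θ M L b) (hF : IsFlow (XP θ) Ψ) {x : ℝ × ℝ} (hx : M ≤ x.2) {t : ℝ}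
    (ht : 0 ≤ t) : Ψ t x = (x.1, x.2 + t) := by
  refine p_vert hP.smooth hF fun τ hτ => hP.supp _ ?_
  rw [abs_of_nonneg ht] at hτ
  have h1 := (abs_le.1 hτ).1
  show M ≤ |x.2 + t / 2 + τ|
  rw [le_abs]
  left
  linarith

theorem agree {θ₁ θ₂ : ℝ × ℝ → ℝ} {Ψ₁ Ψ₂ : ℝ → ℝ × ℝ → ℝ × ℝ} (h1 : ContDiff ℝ ∞ θ₁)
    (h2 : ContDiff ℝ ∞ θ₂) (hF1 : IsFlow (XP θ₁) Ψ₁) (hF2 : IsFlow (XP θ₂) Ψ₂) {D : ℝ}
    (hD : ∀ x : ℝ × ℝ, |x.1| ≤ D → θ₂ x = θ₁ x) {x : ℝ × ℝ} {t : ℝ}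
    (hx : ∀ τ ∈ uIcc 0 t, |(Ψ₁ τ x).1| ≤ D) : Ψ₂ t x = Ψ₁ t x := by
  have h3 := PFlow_half h2 hF2 (γ := fun t => Ψ₁ t x) (t := t) (fun τ hτ => by
    have h4 := hF1.deriv x (t / 2 + τ)
    have h5 : θ₂ (Ψ₁ (t / 2 + τ) x) = θ₁ (Ψ₁ (t / 2 + τ) x) := by
      refine hD _ (hx _ ?_)
      rw [mem_uIcc]
      have h6 := abs_le.1 hτ
      rcases le_total 0 t with ht | ht
      · left
        rw [abs_of_nonneg ht] at h6
        constructor <;> linarith [h6.1, h6.2]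
      · right
        rw [abs_of_nonpos ht] at h6
        constructor <;> linarith [h6.1, h6.2]
    have h6 : XP θ₂ (Ψ₁ (t / 2 + τ) x) = XP θ₁ (Ψ₁ (t / 2 + τ) x) := by
      unfold XP
      rw [h5]
    show HasDerivAt (fun t => Ψ₁ t x) (XP θ₂ (Ψ₁ (t / 2 + τ) x)) (t / 2 + τ)
    rw [h6]
    exact h4)
  simp only [hF1.zero] at h3
  exact h3

theorem good_of (hP : PPh θ M L b) (hF : IsFlow (XP θ) Ψ) {τ : ℝ}
    (h : ∀ x : ℝ × ℝ, |x.2| ≤ M → M < (Ψ τ x).2 ∧ (Ψ (-τ) x).2 < -M) : GoodP M (τ + 1) Ψ := by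
  intro x hx
  obtain ⟨h1, h2⟩ := h x hx
  constructor
  · have h3 := hF.add (XP_contDiff hP.smooth) 1 τ x
    rw [add_comm τ 1, ← h3, p_up hP hF h1.le zero_le_one]
    show M + 1 ≤ (Ψ τ x).2 + 1
    linarith
  · have h3 := hF.add (XP_contDiff hP.smooth) (-1) (-τ) x
    have e : -(τ + 1) = -1 + -τ := by ring
    rw [e, ← h3, p_down hP hF h2.le (by norm_num)]
    show (Ψ (-τ) x).2 + -1 ≤ -M - 1
    linarith

theorem good_mono (hP : PPh θ M L b) (hF : IsFlow (XP θ) Ψ) {τ τ' : ℝ} (hτ : τ ≤ τ')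
    (h : GoodP M τ Ψ) : GoodP M τ' Ψ := by
  intro x hx
  obtain ⟨h1, h2⟩ := h x hx
  constructor
  · have h3 := hF.add (XP_contDiff hP.smooth) (τ' - τ) τ x
    have e : τ' = (τ' - τ) + τ := by ring
    rw [e, ← h3, p_up hP hF (by linarith) (by linarith)]
    show M + 1 ≤ (Ψ τ x).2 + (τ' - τ)
    linarith
  · have h3 := hF.add (XP_contDiff hP.smooth) (-(τ' - τ)) (-τ) x
    have e : -τ' = -(τ' - τ) + -τ := by ring
    rw [e, ← h3, p_down hP hF (by linarith) (by linarith)]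
    show (Ψ (-τ) x).2 + -(τ' - τ) ≤ -M - 1
    linarith

end Pool.Agent.H57.CR
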