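import Pool.Agent.H57.CR.PFlow
import Pool.Agent.H2.TG.Pigeon

/-!
# Uniform passage time (module PTime)

PORT of `Pool/Agent/H2/TG/UTime.lean` to the plane: `x_conf` is now the hypothesis `hconf` (with `D` in place of `T`), `x_up`, `x_down` become `p_up`, `p_down`.
-/

set_option autoImplicit false
set_option linter.unusedSectionVars false

open scoped ContDiff Topology
open Set

namespace Pool.Agent.H57.CR

open Pool.Agent.H2.TG (IsFlow)

private theorem PTime_leave {M D ε : ℝ} {θ : ℝ × ℝ → ℝ} {L b : ℝ} {Ψ : ℝ → ℝ × ℝ → ℝ × ℝ}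
    (hP : PPh θ M L b) {N : ℕ}
    (hN : ∀ p : ℕ → ℝ × ℝ,
      (∀ k ≤ N, |(p k).1| ≤ D ∧ |(p k).2| ≤ M) → ∃ j k, j < k ∧ k ≤ N ∧
        |(p k).1 - (p j).1| < ε ∧ |(p k).2 - (p j).2| < ε)
    (hF : IsFlow (XP θ) Ψ) (hconf : ∀ x t, |(Ψ t x).1 - x.1| ≤ D)
    (hret : ∀ x t, 1 ≤ |t| → ε ≤ ‖Ψ t x - x‖) (x : ℝ × ℝ) {σ : ℝ} (hσ : |σ| = 1) :
    ∃ k : ℕ, k ≤ N ∧ M < |(Ψ (σ * k) x).2| := by
  by_contra hcon
  push Not at hcon
  obtain ⟨j, k, hjk, hkN, h1, h2⟩ := hN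
    (fun k => ((Ψ (σ * k) x).1 - x.1, (Ψ (σ * k) x).2))
    (fun k hk => ⟨hconf x _, hcon k hk⟩)
  simp only at h1 h2
  have hadd : Ψ (σ * ((k : ℝ) - j)) (Ψ (σ * j) x) = Ψ (σ * k) x := by
    rw [hF.add (XP_contDiff hP.smooth)]
    congr 1
    ring
  have habs : 1 ≤ |σ * ((k : ℝ) - j)| := by
    rw [abs_mul, hσ, one_mul]
    have h3 : (j : ℝ) + 1 ≤ k := by exact_mod_cast hjk
    rw [abs_of_nonneg (by linarith)]
    linarith
  have h4 := hret (Ψ (σ * j) x) _ habs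
  rw [hadd, Prod.norm_def] at h4
  have h5 : ‖(Ψ (σ * k) x - Ψ (σ * j) x).1‖ < ε := by
    rw [Prod.fst_sub, Real.norm_eq_abs]
    have h6 : (Ψ (σ * k) x).1 - (Ψ (σ * j) x).1 =
        (Ψ (σ * k) x).1 - x.1 - ((Ψ (σ * j) x).1 - x.1) := by ring
    rw [h6]
    exact h1
  have h7 : ‖(Ψ (σ * k) x - Ψ (σ * j) x).2‖ < ε := by
    rw [Prod.snd_sub, Real.norm_eq_abs]
    exact h2
  exact absurd h4 (not_le.2 (max_lt h5 h7))

theorem p_time (M D : ℝ) {ε : ℝ} (hε : 0 < ε) : ∃ τ : ℝ, 2 * M + 1 ≤ τ ∧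
    ∀ (θ : ℝ × ℝ → ℝ) (L b : ℝ) (Ψ : ℝ → ℝ × ℝ → ℝ × ℝ), PPh θ M L b → IsFlow (XP θ) Ψ →
      (∀ x t, |(Ψ t x).1 - x.1| ≤ D) → (∀ x t, 1 ≤ |t| → ε ≤ ‖Ψ t x - x‖) → GoodP M τ Ψ := by
  obtain ⟨N, -, hN⟩ := Pool.Agent.H2.TG.pigeon D M hε
  have hN0 : (0 : ℝ) ≤ N := Nat.cast_nonneg N
  refine ⟨N + 2 * M + 2, by linarith, fun θ L b Ψ hP hF hconf hret x hx => ?_⟩
  have hM := hP.hM
  have hX := XP_contDiff hP.smooth
  rw [abs_le] at hx
  constructor
  · obtain ⟨k, hk, h1⟩ := PTime_leave hP hN hF hconf hret x (σ := 1) (by simp)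
    rw [one_mul] at h1
    have hkN : (k : ℝ) ≤ N := by exact_mod_cast hk
    have hk0 : (0 : ℝ) ≤ k := Nat.cast_nonneg k
    rcases lt_abs.1 h1 with h2 | h2
    · have h3 := p_up hP hF h2.le (t := N + 2 * M + 2 - k) (by linarith)
      rw [hF.add hX] at h3
      have h4 : (N : ℝ) + 2 * M + 2 - k + k = N + 2 * M + 2 := by ring
      rw [h4] at h3
      rw [h3]
      show M + 1 ≤ (Ψ k x).2 + (N + 2 * M + 2 - k)
      linarith
    · exfalso
      have h3 := p_down hP hF (x := Ψ k x) (by linarith) (t := -k) (by linarith)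
      rw [hF.add hX] at h3
      have h4 : -(k : ℝ) + k = 0 := by ring
      rw [h4, hF.zero] at h3
      have h5 : x.2 = (Ψ k x).2 + -k := by
        have := congrArg Prod.snd h3
        exact this
      linarith [hx.1]
  · obtain ⟨k, hk, h1⟩ := PTime_leave hP hN hF hconf hret x (σ := -1) (by simp)
    have hm : (-1 : ℝ) * k = -k := by ring
    rw [hm] at h1
    have hkN : (k : ℝ) ≤ N := by exact_mod_cast hk
    have hk0 : (0 : ℝ) ≤ k := Nat.cast_nonneg k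
    rcases lt_abs.1 h1 with h2 | h2
    · exfalso
      have h3 := p_up hP hF h2.le (t := k) hk0
      rw [hF.add hX] at h3
      have h4 : (k : ℝ) + -k = 0 := by ring
      rw [h4, hF.zero] at h3
      have h5 : x.2 = (Ψ (-k) x).2 + k := by
        have := congrArg Prod.snd h3
        exact this
      linarith [hx.2]
    · have h3 := p_down hP hF (x := Ψ (-k) x) (by linarith) (t := -(N + 2 * M + 2 - k))
        (by linarith)
      rw [hF.add hX] at h3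
      have h4 : -((N : ℝ) + 2 * M + 2 - k) + -k = -(N + 2 * M + 2) := by ring
      rw [h4] at h3
      rw [h3]
      show (Ψ (-k) x).2 + -(N + 2 * M + 2 - k) ≤ -M - 1
      linarith

end Pool.Agent.H57.CR
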