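import Pool.Agent.H57.CR.PNoRet
import Pool.Agent.H57.CR.PTime

/-!
# Compactly supported planar phases have good flows (module PGood)

PORT of `Pool/Agent/H2/TG/GoodOne.lean` to the plane. `s θ` is `PPh` with the same `M`, `L`, `b` for `0 ≤ s ≤ 1`, and zero for `|x.1| ≥ D`. `conf_lat` gives the
confinement with `2 D`, `p_noret` the constant `ε = 1 / (100 (L + 1))`, `p_time M (2 D)` the time `τ`. `A = {s ∈ [0, 1] | GoodP M τ (Ψ s)}` contains `0`, is closed, and open: at `s₀ ∈ A`, for `s` near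
`s₀` the inequalities `M < (Ψ s τ x).2`, `(Ψ s (-τ) x).2 < -M` hold on the compact set `|x.1| ≤ D`, `|x.2| ≤ M` (tube lemma), and for `|x.1| ≥ D` the flow is vertical (`p_vert`, `τ ≥ 2 M + 1`);
`good_of`, `p_noret`, `p_time`.
-/

set_option autoImplicit false
set_option linter.unusedSectionVars false

open scoped ContDiff Topology
open Set

namespace Pool.Agent.H57.CR

open Pool.Agent.H2.TG (IsFlow)

variable {θ : ℝ × ℝ → ℝ} {M L b : ℝ} {Ψ : ℝ → ℝ × ℝ → ℝ × ℝ}

private theorem PGood_scale (hP : PPh θ M L b) {s : ℝ} (hs0 : 0 ≤ s) (hs1 : s ≤ 1) :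
    PPh (fun x => s * θ x) M L b := by
  refine ⟨contDiff_const.mul hP.smooth, fun x hx => ?_, fun x y => ?_, fun x => ?_, hP.hM, hP.hL⟩
  · show s * θ x = 0
    rw [hP.supp x hx, mul_zero]
  · have e : s * θ x - s * θ y = s * (θ x - θ y) := by ring
    show |s * θ x - s * θ y| ≤ L * ‖x - y‖
    rw [e, abs_mul, abs_of_nonneg hs0]
    calc s * |θ x - θ y| ≤ 1 * |θ x - θ y| := mul_le_mul_of_nonneg_right hs1 (abs_nonneg _)
      _ ≤ L * ‖x - y‖ := by rw [one_mul]; exact hP.lip x y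
  · show |s * θ x| ≤ b
    rw [abs_mul, abs_of_nonneg hs0]
    calc s * |θ x| ≤ 1 * |θ x| := mul_le_mul_of_nonneg_right hs1 (abs_nonneg _)
      _ ≤ b := by rw [one_mul]; exact hP.bdd x

theorem p_good (hP : PPh θ M L b) (hF : IsFlow (XP θ) Ψ) {D : ℝ} (hD : 0 < D)
    (h : ∀ x : ℝ × ℝ, D ≤ |x.1| → θ x = 0) : ∃ τ : ℝ, 0 < τ ∧ GoodP M τ Ψ := by
  obtain ⟨Φ, hΦ, hcont⟩ := exists_pflows hP.smooth
  have hL := hP.hL
  have hε : 0 < 1 / (100 * (L + 1)) := by positivity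
  obtain ⟨τ, hτ, hut⟩ := p_time M (2 * D) hε
  have hM := hP.hM
  have hτ0 : 0 < τ := by linarith
  refine ⟨τ, hτ0, ?_⟩
  set A : Set ℝ := {s | GoodP M τ (Φ s)} with hA
  have hc : ∀ (t : ℝ), Continuous fun y : ℝ × (ℝ × ℝ) => (Φ y.1 t y.2).2 := fun t =>
    continuous_snd.comp (hcont.comp (continuous_fst.prodMk (continuous_const.prodMk continuous_snd)))
  have hc' : ∀ (t : ℝ) (x : ℝ × ℝ), Continuous fun s : ℝ => (Φ s t x).2 := fun t x =>
    (hc t).comp (continuous_id.prodMk continuous_const)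
  have hsm : ∀ s : ℝ, ContDiff ℝ ∞ fun x => s * θ x := fun s => contDiff_const.mul hP.smooth
  have hclosed : IsClosed A := by
    have e : A = ⋂ (x : ℝ × ℝ) (_ : |x.2| ≤ M),
        ({s | M + 1 ≤ (Φ s τ x).2} ∩ {s | (Φ s (-τ) x).2 ≤ -M - 1}) := by
      ext s
      simp only [hA, GoodP, mem_ofPred_eq, mem_iInter, mem_inter_iff]
    rw [e]
    refine isClosed_iInter fun x => isClosed_iInter fun _ => IsClosed.inter ?_ ?_
    · exact isClosed_le continuous_const (hc' τ x)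
    · exact isClosed_le (hc' (-τ) x) continuous_const
  have h0 : (0 : ℝ) ∈ A := by
    intro x hx
    rw [abs_le] at hx
    rw [p_vert (hsm 0) (hΦ 0) (fun _ _ => zero_mul _),
      p_vert (hsm 0) (hΦ 0) (fun _ _ => zero_mul _)]
    constructor
    · simp only
      linarith [hx.1]
    · simp only
      linarith [hx.2]
  have hopen : ∀ s₀ ∈ A, ∀ᶠ s in 𝓝 s₀, s ∈ Icc (0 : ℝ) 1 → s ∈ A := by
    intro s₀ hs₀
    set K : Set (ℝ × ℝ) := Icc (-D) D ×ˢ Icc (-M) M with hK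
    have hKc : IsCompact K := isCompact_Icc.prod isCompact_Icc
    have hK2 : ∀ x ∈ K, |x.2| ≤ M := fun x hx => abs_le.2 hx.2
    have h1 : ∀ᶠ s in 𝓝 s₀, ∀ x ∈ K, M < (Φ s τ x).2 := by
      refine hKc.eventually_forall_of_forall_eventually fun x hx => ?_
      have h2 : M < (Φ s₀ τ x).2 := by linarith [(hs₀ x (hK2 x hx)).1]
      exact (hc τ).continuousAt.eventually (Ioi_mem_nhds h2)
    have h2 : ∀ᶠ s in 𝓝 s₀, ∀ x ∈ K, (Φ s (-τ) x).2 < -M := by
      refine hKc.eventually_forall_of_forall_eventually fun x hx => ?_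
      have h2 : (Φ s₀ (-τ) x).2 < -M := by linarith [(hs₀ x (hK2 x hx)).2]
      exact (hc (-τ)).continuousAt.eventually (Iio_mem_nhds h2)
    filter_upwards [h1, h2] with s h1 h2 hs
    have hPs := PGood_scale hP hs.1 hs.2
    have h3 : GoodP M (τ + 1) (Φ s) := by
      refine good_of hPs (hΦ s) fun x hx => ?_
      by_cases hxD : |x.1| ≤ D
      · have hy : x ∈ K := ⟨abs_le.1 hxD, abs_le.1 hx⟩
        exact ⟨h1 _ hy, h2 _ hy⟩
      · have hz : ∀ r : ℝ, s * θ (x.1, r) = 0 := fun r => by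
          rw [h (x.1, r) (not_le.1 hxD).le, mul_zero]
        rw [p_vert (hsm s) (hΦ s) (fun _ _ => hz _), p_vert (hsm s) (hΦ s) (fun _ _ => hz _)]
        rw [abs_le] at hx
        constructor
        · simp only
          linarith [hx.1]
        · simp only
          linarith [hx.2]
    have hlat : ∀ x : ℝ × ℝ, D ≤ |x.1| → s * θ x = 0 := fun x hx => by rw [h x hx, mul_zero]
    exact hut _ L b (Φ s) hPs (hΦ s) (conf_lat hPs (hΦ s) hD hlat)
      (fun x t ht => p_noret hPs (hΦ s) (by linarith) h3 x t ht)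
  have hall : Icc (0 : ℝ) 1 ⊆ A := by
    refine IsClosed.Icc_subset_of_forall_exists_gt (hclosed.inter isClosed_Icc) h0 ?_
    intro s hs y hy
    have h1 := hopen s hs.1
    have h2 : ∀ᶠ z in 𝓝[>] s, z ∈ Ioc s (min y 1) :=
      Ioc_mem_nhdsGT (lt_min hy hs.2.2)
    obtain ⟨z, hz1, hz2⟩ := ((h1.filter_mono nhdsWithin_le_nhds).and h2).exists
    refine ⟨z, hz1 ⟨hs.2.1.trans hz2.1.le, hz2.2.trans (min_le_right _ _)⟩, hz2.1,
      hz2.2.trans (min_le_left _ _)⟩
  have h1 : GoodP M τ (Φ 1) := hall ⟨zero_le_one, le_rfl⟩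
  have e1 : (fun x => (1 : ℝ) * θ x) = θ := by
    funext x
    rw [one_mul]
  have hF1 := hΦ 1
  rw [e1] at hF1
  have e2 : ∀ t x, Φ 1 t x = Ψ t x := by
    intro t x
    have h2 := hF.unique (XP_contDiff hP.smooth) (γ := fun t => Φ 1 t x)
      (fun t => hF1.deriv x t) t
    simp only [hF1.zero] at h2
    exact h2
  intro x hx
  rw [← e2, ← e2]
  exact h1 x hx

end Pool.Agent.H57.CR
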