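import Pool.Agent.H57.CR.Line

/-!
# The phase set (module PSb)

PORT of `Pool/Agent/H2/TG/PSb.lean` (same proofs): replace `E n × ℝ` by `P × ℝ × ℝ`, `dplane v u x a b` by
`dpl u x a b` (`= fderiv ℝ u x (0, a, b)`), `LocEq v C W u` by `LocEq N K W u` (its field `eqn` is now
`x ∈ K ↔ x.1 ∈ N ∧ u x = 0`), `PS v C` by `PS N K`, `Red v C U` by `Fam N K f`, the translation by a lattice vector
by `shp k` (`shp k x = (x.1, x.2.1 + k, x.2.2)`; `hR.per`, for `k` and `-k`), `shf k j x = (shp k x.1, x.2 + j π)`.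
The set `U` does not exist here. The script /team-store/h57_port.py does most of the replacements.
* `locEq_shp`: `y ↦ shp (-k) y = y + (0, -k, 0)` is a translation (`fderiv_comp_add_right`).
-/

set_option autoImplicit false
set_option linter.unusedSectionVars false

open scoped ContDiff Topology
open Set

namespace Pool.Agent.H57.CR

open Pool.Agent.H2.TG (IsFlow angle_unique angle_exists smooth_angle)

variable {P : Type} [NormedAddCommGroup P] [NormedSpace ℝ P] [FiniteDimensional ℝ P] {N : Set P}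
  {K : Set (P × ℝ × ℝ)} {f : P × ℝ × ℝ → ℝ}

private theorem PSb_eq (k : ℤ) (y : P × ℝ × ℝ) :
    shp k y = y + ((0 : P), (k : ℝ), (0 : ℝ)) := by
  unfold shp
  ext <;> simp

private theorem PSb_cont {W : Set (P × ℝ × ℝ)} {u : P × ℝ × ℝ → ℝ} (hC : LocEq N K W u)
    {x : (P × ℝ × ℝ) × ℝ} (hx : x.1 ∈ W) :
    ContinuousAt (fun x : (P × ℝ × ℝ) × ℝ => dpl u x.1 (Real.cos x.2) (Real.sin x.2)) x := by
  have h1 : ContinuousOn (fderiv ℝ u) W :=
    hC.smooth.continuousOn_fderiv_of_isOpen hC.isOpen (by simp)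
  have h2 : ContinuousAt (fderiv ℝ u) x.1 := h1.continuousAt (hC.isOpen.mem_nhds hx)
  have h3 : ContinuousAt (fun x : (P × ℝ × ℝ) × ℝ => fderiv ℝ u x.1) x :=
    ContinuousAt.comp (f := fun x : (P × ℝ × ℝ) × ℝ => x.1) h2 continuousAt_fst
  unfold dpl
  refine h3.clm_apply ?_
  fun_prop

private theorem PSb_angle {W : Set (P × ℝ × ℝ)} {u : P × ℝ × ℝ → ℝ} (hC : LocEq N K W u)
    {y : P × ℝ × ℝ} (hy : y ∈ K) (hyW : y ∈ W) (φ : ℝ) :
    (y, φ) ∈ PS N K ↔ dpl u y 1 0 * Real.cos φ + dpl u y 0 1 * Real.sin φ = 0 := by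
  rw [mem_PS hC (x := (y, φ)) hy hyW, dpl_lin]
  simp only
  rw [mul_comm (Real.cos φ), mul_comm (Real.sin φ)]

theorem PS_closed (hR : Fam N K f) : IsClosed (PS N K) := by
  rw [isClosed_iff_frequently]
  intro x hx
  have h1 : x.1 ∈ K := by
    refine isClosed_iff_frequently.1 hR.closed x.1 ?_
    refine (continuous_fst.tendsto x).frequently (hx.mono fun y hy => ?_)
    exact hy.1
  obtain ⟨W, u, hxW, hC⟩ := hR.loc x.1 h1
  rw [mem_PS hC h1 hxW]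
  by_contra hne
  have h2 := (PSb_cont hC hxW).eventually_ne hne
  have h3 : ∀ᶠ y : (P × ℝ × ℝ) × ℝ in 𝓝 x, y.1 ∈ W :=
    (continuous_fst.tendsto x).eventually (hC.isOpen.mem_nhds hxW)
  obtain ⟨y, hy, hy2, hy3⟩ := (hx.and_eventually (h2.and h3)).exists
  exact hy2 ((mem_PS hC hy.1 hy3).1 hy)

theorem shp_shp (k l : ℤ) (x : P × ℝ × ℝ) : shp k (shp l x) = shp (k + l) x := by
  unfold shp
  ext
  · rfl
  · change x.2.1 + l + k = x.2.1 + ((k + l : ℤ) : ℝ)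
    push_cast
    ring
  · rfl

theorem shp_zero (x : P × ℝ × ℝ) : shp 0 x = x := by
  unfold shp
  ext
  · rfl
  · change x.2.1 + ((0 : ℤ) : ℝ) = x.2.1
    push_cast
    ring
  · rfl

private theorem PSb_mem (hR : Fam N K f) (k : ℤ) {x : P × ℝ × ℝ} (hx : x ∈ K) : shp k x ∈ K :=
  hR.per k x.1 x.2.1 x.2.2 hx

theorem mem_shp (hR : Fam N K f) (k : ℤ) (x : P × ℝ × ℝ) : shp k x ∈ K ↔ x ∈ K := by
  constructor
  · intro h
    have h1 := PSb_mem hR (-k) h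
    rwa [shp_shp, neg_add_cancel, shp_zero] at h1
  · exact fun h => PSb_mem hR k h

theorem dpl_shp (u : P × ℝ × ℝ → ℝ) (k : ℤ) (y : P × ℝ × ℝ) (a b : ℝ) :
    dpl (fun y => u (shp k y)) y a b = dpl u (shp k y) a b := by
  have h1 : (fun y : P × ℝ × ℝ => u (shp k y)) = fun y => u (y + ((0 : P), (k : ℝ), (0 : ℝ))) := by
    funext y
    rw [PSb_eq]
  unfold dpl
  rw [h1, PSb_eq, fderiv_comp_add_right]

theorem locEq_shp (hR : Fam N K f) {W : Set (P × ℝ × ℝ)} {u : P × ℝ × ℝ → ℝ}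
    (hC : LocEq N K W u) (k : ℤ) :
    LocEq N K {y | shp (-k) y ∈ W} (fun y => u (shp (-k) y)) where
  isOpen := hC.isOpen.preimage (by unfold shp; fun_prop)
  smooth := hC.smooth.comp (ContDiff.contDiffOn (by unfold shp; fun_prop)) fun y hy => hy
  eqn := by
    intro y hy
    rw [← mem_shp hR (-k) y, hC.eqn _ hy]
    rfl
  reg := by
    intro y hy
    rw [dpl_shp, dpl_shp]
    exact hC.reg _ hy

theorem PS_shp (hR : Fam N K f) (k : ℤ) {x : (P × ℝ × ℝ) × ℝ} (hx : x ∈ PS N K) :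
    (shp k x.1, x.2) ∈ PS N K := by
  obtain ⟨W, u, hxW, hC⟩ := hR.loc x.1 hx.1
  have h1 := locEq_shp hR hC k
  have h0 : shp (-k) (shp k x.1) = x.1 := by rw [shp_shp, neg_add_cancel, shp_zero]
  have h2 : shp k x.1 ∈ {y : P × ℝ × ℝ | shp (-k) y ∈ W} := by
    change shp (-k) (shp k x.1) ∈ W
    rw [h0]
    exact hxW
  rw [mem_PS h1 (x := (shp k x.1, x.2)) (PSb_mem hR k hx.1) h2]
  simp only
  rw [dpl_shp, h0]
  exact (mem_PS hC hx.1 hxW).1 hx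

theorem PS_pi (hR : Fam N K f) {x : (P × ℝ × ℝ) × ℝ} (hx : x ∈ PS N K) (k : ℤ) :
    (x.1, x.2 + k * Real.pi) ∈ PS N K := by
  obtain ⟨W, u, hxW, hC⟩ := hR.loc x.1 hx.1
  have h1 := (PSb_angle hC hx.1 hxW x.2).1 hx
  rw [PSb_angle hC hx.1 hxW, Real.cos_add_int_mul_pi, Real.sin_add_int_mul_pi]
  linear_combination (-1 : ℝ) ^ k * h1

theorem PS_shf (hR : Fam N K f) {x : (P × ℝ × ℝ) × ℝ} (hx : x ∈ PS N K) (k j : ℤ) :
    shf k j x ∈ PS N K :=
  PS_pi hR (PS_shp hR k hx) j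

theorem PS_unique (hR : Fam N K f) {y : P × ℝ × ℝ} {φ ψ : ℝ} (h1 : (y, φ) ∈ PS N K)
    (h2 : (y, ψ) ∈ PS N K) : ∃ k : ℤ, φ = ψ + k * Real.pi := by
  obtain ⟨W, u, hyW, hC⟩ := hR.loc y h1.1
  exact angle_unique (hC.reg y hyW) ((PSb_angle hC h1.1 hyW φ).1 h1)
    ((PSb_angle hC h1.1 hyW ψ).1 h2)

theorem PS_exists (hR : Fam N K f) {y : P × ℝ × ℝ} (hy : y ∈ K) : ∃ φ : ℝ, (y, φ) ∈ PS N K := by
  obtain ⟨W, u, hyW, hC⟩ := hR.loc y hy
  obtain ⟨φ, hφ⟩ := angle_exists (dpl u y 1 0) (dpl u y 0 1)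
  exact ⟨φ, (PSb_angle hC hy hyW φ).2 hφ⟩

end Pool.Agent.H57.CR
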