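import Pool.Agent.H57.CR.StrA

/-!
# The straightening map is smooth and exact (module StrB)

PROOFS.
* `sF_smooth`, `sF'_smooth`, `sG_smooth`: `sg A` is smooth (`sg_smooth`) and maps `TN N` into `N ×ˢ univ ⊆ O ×ˢ univ`; `b, a, ρ, J` smooth on the open `O ×ˢ univ`; `gr Pr a`, `gr Pr b` smooth on `N ×ˢ univ` (`gr_smooth`); `J` maps `N ×ˢ univ` to itself (`J2`); `R` smooth; the rules of SmOn.lean (`sm_comp, sm_map, sm_apply, sm_add, …`) and `smOn_of_contDiffOn`.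
* `sF_exact`: let `γ` be a curve in `TN N` with velocity `v` at `γ 0 = z = (q, p)`, `y = sg A z`, and `w = dsg A z v` the velocity of `sg A ∘ γ` at `0`; `w.1 = v.1 ∈ Tan N q`. As `b, a` are differentiable at `y` (`q ∈ N ⊆ O`): `b ∘ sg A ∘ γ` has derivative `b' = fderiv b y w`, and `g' = fderiv a y w` (uniqueness of derivatives).
  `(sF (γ s)).1 = R (b (sg A (γ s))) (γ s).1` has derivative `v'.1 = b' • A (R (b y) q) + R (b y) v.1` (`R` is `C^∞`, `deriv`, product rule; uniqueness). Hence with `X = p + gr a y - ρ y • gr b y`: `⟪(sF z).2, v'.1⟫ = b' ⟪X, A q⟫ + ⟪X, v.1⟫` (`comm`, `inner`)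
  `= b' ρ y + ⟪p, v.1⟫ + fderiv a y (v.1, 0) - ρ y fderiv b y (v.1, 0)` (`⟪X, A q⟫ = ρ y` is in the proof of `sF_sg`: `(sg A (sF z)).2 = ρ y`; `gr_inner`). As `w = (v.1, 0) + (0, w.2)`, `b' = fderiv b y (v.1, 0) + fderiv b y (0, w.2)`; `YD.id` with `(α, β) = (0, w.2)`: `fderiv a y (0, w.2) = ρ y fderiv b y (0, w.2)`. Sum: `⟪p, v.1⟫ + fderiv a y w`.
* `exists_str`: assemble with `exists_proj`.
-/

set_option autoImplicit false
set_option linter.unusedSectionVars false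

open scoped ContDiff Topology RealInnerProductSpace
open Set

namespace Pool.Agent.H57.CR

open Pool.Agent.H57.NL
open Pool.Agent.H2.TG (IsFlow)

variable {m n : ℕ} {N : Set (E m)} {A : E m →L[ℝ] E m} {R : ℝ → E m →L[ℝ] E m}
  {C : Set (E m × ℝ)} {O : Set (E m)} {b a ρ : E m × ℝ → ℝ} {J : E m × ℝ → E m × ℝ}
  {h : E m → E m × ℝ} {Pr : E m → E m →L[ℝ] E m}

theorem sg_smooth (A : E m →L[ℝ] E m) : ContDiff ℝ ∞ (sg A) := by
  unfold sg
  exact contDiff_fst.prodMk (contDiff_snd.inner ℝ (A.contDiff.comp contDiff_fst))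

theorem sg_fderiv (A : E m →L[ℝ] E m) (z v : E m × E m) : fderiv ℝ (sg A) z v = dsg A z v := by
  have h1 : HasFDerivAt (fun z : E m × E m => z.1) (ContinuousLinearMap.fst ℝ (E m) (E m)) z :=
    hasFDerivAt_fst
  have h2 : HasFDerivAt (fun z : E m × E m => z.2) (ContinuousLinearMap.snd ℝ (E m) (E m)) z :=
    hasFDerivAt_snd
  have h3 : HasFDerivAt (fun z : E m × E m => A z.1)
      (A.comp (ContinuousLinearMap.fst ℝ (E m) (E m))) z := A.hasFDerivAt.comp z h1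
  have h4 := h1.prodMk (h2.inner ℝ h3)
  have h5 : HasFDerivAt (sg A) _ z := h4
  rw [h5.fderiv]
  unfold dsg
  refine Prod.ext rfl ?_
  show ((fderivInnerCLM ℝ (z.2, A z.1)).comp ((ContinuousLinearMap.snd ℝ (E m) (E m)).prod
    (A.comp (ContinuousLinearMap.fst ℝ (E m) (E m))))) v = ⟪v.2, A z.1⟫ + ⟪z.2, A v.1⟫
  rw [ContinuousLinearMap.comp_apply, fderivInnerCLM_apply]
  show ⟪z.2, A v.1⟫ + ⟪v.2, A z.1⟫ = ⟪v.2, A z.1⟫ + ⟪z.2, A v.1⟫
  ring

private theorem strB_sg (N : Set (E m)) (A : E m →L[ℝ] E m) : SmoothOn (TN N) fun z => sg A z :=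
  smOn_of_contDiff (sg_smooth A)

private theorem strB_mem {z : E m × E m} (hz : z ∈ TN N) : sg A z ∈ N ×ˢ (univ : Set ℝ) :=
  ⟨hz.1, mem_univ _⟩

private theorem strB_ext (hY : YD N A R C O b a ρ J h) {V : Type*} [NormedAddCommGroup V]
    [NormedSpace ℝ V] {g : E m × ℝ → V} (hg : ContDiffOn ℝ ∞ g (O ×ˢ univ)) :
    SmoothOn (N ×ˢ (univ : Set ℝ)) g :=
  smOn_of_contDiffOn (hY.openO.prod isOpen_univ) (prod_mono hY.sub subset_rfl) hg

theorem sF_smooth (hR : Circ N A R) (hY : YD N A R C O b a ρ J h) (hP : IsProj N Pr) :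
    SmoothOn (TN N) (sF A R Pr b a ρ) := by
  have hsg := strB_sg N A
  have hm : ∀ z ∈ TN N, sg A z ∈ N ×ˢ (univ : Set ℝ) := fun z hz => strB_mem hz
  have hb := sm_comp hsg (strB_ext hY hY.sb) hm
  have hρ := sm_comp hsg (strB_ext hY hY.sρ) hm
  have hga := sm_comp hsg (gr_smooth hP hY.openO hY.sub hY.sa) hm
  have hgb := sm_comp hsg (gr_smooth hP hY.openO hY.sub hY.sb) hm
  have hRb : SmoothOn (TN N) fun z => R (b (sg A z)) := sm_map hR.cd hb
  have h1 : SmoothOn (TN N) fun z : E m × E m => z.1 := smOn_of_contDiff contDiff_fst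
  have h2 : SmoothOn (TN N) fun z : E m × E m => z.2 := smOn_of_contDiff contDiff_snd
  exact sm_prod (sm_apply hRb h1) (sm_apply hRb (sm_sub (sm_add h2 hga) (sm_smul hρ hgb)))

theorem sF'_smooth (hR : Circ N A R) (hY : YD N A R C O b a ρ J h) (hP : IsProj N Pr) :
    SmoothOn (TN N) (sF' A R Pr b a ρ J) := by
  have hsg := strB_sg N A
  have hm : ∀ z ∈ TN N, sg A z ∈ N ×ˢ (univ : Set ℝ) := fun z hz => strB_mem hz
  have hJ := sm_comp hsg (strB_ext hY hY.sJ) hm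
  have hmJ : ∀ z ∈ TN N, J (sg A z) ∈ N ×ˢ (univ : Set ℝ) := fun z hz =>
    ⟨(hY.J2 (sg A z) hz.1).1, mem_univ _⟩
  have hb := sm_comp hJ (strB_ext hY hY.sb) hmJ
  have hρ := sm_comp hJ (strB_ext hY hY.sρ) hmJ
  have hga := sm_comp hJ (gr_smooth hP hY.openO hY.sub hY.sa) hmJ
  have hgb := sm_comp hJ (gr_smooth hP hY.openO hY.sub hY.sb) hmJ
  have hRb : SmoothOn (TN N) fun z => R (-b (J (sg A z))) := sm_map hR.cd (sm_neg hb)
  have h2 : SmoothOn (TN N) fun z : E m × E m => z.2 := smOn_of_contDiff contDiff_snd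
  exact sm_prod (sm_fst hJ) (sm_add (sm_sub (sm_apply hRb h2) hga) (sm_smul hρ hgb))

theorem sG_smooth (hY : YD N A R C O b a ρ J h) : SmoothOn (TN N) fun z => a (sg A z) :=
  sm_comp (strB_sg N A) (strB_ext hY hY.sa) fun _ hz => strB_mem hz

theorem sF_exact (hR : Circ N A R) (hY : YD N A R C O b a ρ J h) (hP : IsProj N Pr) :
    LExact N (sF A R Pr b a ρ) fun z => a (sg A z) := by
  intro z hz γ h0 hγ v v' g' hv hv' hg'
  obtain ⟨q, p⟩ := z
  obtain ⟨y, hy⟩ : ∃ y, y = sg A (q, p) := ⟨_, rfl⟩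
  obtain ⟨w, hw⟩ : ∃ w, w = dsg A (q, p) v := ⟨_, rfl⟩
  have hy1 : y.1 = q := by rw [hy]; rfl
  have hw1 : w.1 = v.1 := by rw [hw]; rfl
  have hyN : y.1 ∈ N := by rw [hy1]; exact hz.1
  have hyO : O ×ˢ (univ : Set ℝ) ∈ 𝓝 y :=
    (hY.openO.prod isOpen_univ).mem_nhds ⟨hY.sub hyN, mem_univ _⟩
  have hsg : HasDerivAt (fun s => sg A (γ s)) w 0 := by
    have h1 : HasFDerivAt (sg A) (fderiv ℝ (sg A) (γ 0)) (γ 0) :=
      ((sg_smooth A).differentiable (by simp) (γ 0)).hasFDerivAt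
    have h2 := h1.comp_hasDerivAt (0 : ℝ) hv
    rw [sg_fderiv, h0, ← hw] at h2
    exact h2
  have hsg0 : sg A (γ 0) = y := by rw [h0, hy]
  have hb : HasDerivAt (fun s => b (sg A (γ s))) (fderiv ℝ b y w) 0 := by
    have h1 : HasFDerivAt b (fderiv ℝ b y) (sg A (γ 0)) := by
      rw [hsg0]
      exact ((hY.sb.contDiffAt hyO).differentiableAt (by simp)).hasFDerivAt
    exact h1.comp_hasDerivAt (0 : ℝ) hsg
  have ha : HasDerivAt (fun s => a (sg A (γ s))) (fderiv ℝ a y w) 0 := by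
    have h1 : HasFDerivAt a (fderiv ℝ a y) (sg A (γ 0)) := by
      rw [hsg0]
      exact ((hY.sa.contDiffAt hyO).differentiableAt (by simp)).hasFDerivAt
    exact h1.comp_hasDerivAt (0 : ℝ) hsg
  have hg : g' = fderiv ℝ a y w := hg'.unique ha
  have hγ1 : HasDerivAt (fun s => (γ s).1) v.1 0 :=
    (hasFDerivAt_fst (𝕜 := ℝ) (p := γ 0)).comp_hasDerivAt (0 : ℝ) hv
  have hv1 : v.1 ∈ Tan N q := ⟨fun s => (γ s).1, by simp only [h0], hγ.mono fun s hs => hs.1, hγ1⟩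
  have hRd : ∀ t q, deriv R t q = A (R t q) := by
    intro t q
    have h1 : HasDerivAt R (deriv R t) t := (hR.cd.differentiable (by simp) t).hasDerivAt
    have h2 : HasDerivAt (fun t => R t q) (deriv R t q) t := by
      have h3 := h1.clm_apply (hasDerivAt_const t q)
      simpa using h3
    exact h2.unique (hR.deriv t q)
  have hRb : HasDerivAt (fun s => R (b (sg A (γ s)))) ((fderiv ℝ b y w) • deriv R (b y)) 0 := by
    have h1 : HasDerivAt R (deriv R (b y)) (b (sg A (γ 0))) := by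
      rw [hsg0]
      exact (hR.cd.differentiable (by simp) (b y)).hasDerivAt
    exact h1.scomp (0 : ℝ) hb
  have hv1' : v'.1 = (fderiv ℝ b y w) • A (R (b y) q) + R (b y) v.1 := by
    have h1 : HasDerivAt (fun s => (sF A R Pr b a ρ (γ s)).1) v'.1 0 :=
      (hasFDerivAt_fst (𝕜 := ℝ) (p := (sF A R Pr b a ρ ∘ γ) 0)).comp_hasDerivAt (0 : ℝ) hv'
    have h2 := hRb.clm_apply hγ1
    have h3 : HasDerivAt (fun s => (sF A R Pr b a ρ (γ s)).1) _ 0 := h2
    rw [h1.unique h3, smul_apply, hRd, hsg0, h0]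
  obtain ⟨X, hX⟩ : ∃ X, X = p + gr Pr a y - ρ y • gr Pr b y := ⟨_, rfl⟩
  have hs2 : (sF A R Pr b a ρ (q, p)).2 = R (b y) X := by
    rw [hX, hy]
    rfl
  have hXA : ⟪R (b y) X, A (R (b y) q)⟫ = ρ y := by
    have h1 := congrArg Prod.snd (sF_sg hR hY hP hz)
    have h2 : ⟪(sF A R Pr b a ρ (q, p)).2, A (sF A R Pr b a ρ (q, p)).1⟫ = ρ (sg A (q, p)) := h1
    rw [hs2, ← hy] at h2
    have h3 : (sF A R Pr b a ρ (q, p)).1 = R (b y) q := by
      rw [hy]
      rfl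
    rw [h3] at h2
    exact h2
  have hga : ⟪gr Pr a y, v.1⟫ = fderiv ℝ a y (v.1, 0) := gr_inner hP hyN (by rw [hy1]; exact hv1)
  have hgb : ⟪gr Pr b y, v.1⟫ = fderiv ℝ b y (v.1, 0) := gr_inner hP hyN (by rw [hy1]; exact hv1)
  have hXv : ⟪X, v.1⟫ = ⟪p, v.1⟫ + fderiv ℝ a y (v.1, 0) - ρ y * fderiv ℝ b y (v.1, 0) := by
    rw [hX, inner_sub_left, inner_add_left, real_inner_smul_left, hga, hgb]
  have hid := hY.id y hyN 0 w.2
  rw [mul_zero, zero_smul, zero_add, zero_add] at hid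
  have hsplit : w = (v.1, 0) + (0, w.2) := by
    rw [← hw1]
    refine Prod.ext ?_ ?_
    · simp
    · simp
  have hea : fderiv ℝ a y w = fderiv ℝ a y (v.1, 0) + fderiv ℝ a y (0, w.2) := by
    rw [← map_add, ← hsplit]
  have heb : fderiv ℝ b y w = fderiv ℝ b y (v.1, 0) + fderiv ℝ b y (0, w.2) := by
    rw [← map_add, ← hsplit]
  rw [hs2, hv1', inner_add_right, real_inner_smul_right, hXA, hR.inner, hXv, hg, hea, heb, hid]
  ring

theorem exists_str (hN : IsSubmfd n N) (hR : Circ N A R) (hY : YD N A R C O b a ρ J h) :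
    ∃ F F', Str N A R b a F F' := by
  obtain ⟨Pr, hP⟩ := exists_proj hN
  exact ⟨sF A R Pr b a ρ, sF' A R Pr b a ρ J, fun z hz => sF_maps hN hR hY hP hz,
    fun z hz => sF'_maps hN hR hY hP hz, fun z hz => sF_left hR hY hP hz,
    fun z hz => sF_right hR hY hP hz, sF_smooth hR hY hP, sF'_smooth hR hY hP, sG_smooth hY,
    sF_exact hR hY hP, fun z _ => rfl⟩

end Pool.Agent.H57.CR
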