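import Pool.Agent.H57.CR.GYD
import Pool.Agent.H57.CR.StrB
import Pool.Agent.H57.CR.GLag

/-!
# The periodic case
-/

set_option autoImplicit false
set_option linter.unusedSectionVars false

open scoped ContDiff Topology RealInnerProductSpace
open Set

namespace Pool.Agent.H57.CR

open Pool.Agent.H57.NL
open Pool.Agent.H2.TG (IsFlow)

variable {m n : ℕ} {N : Set (E m)} {A : E m →L[ℝ] E m} {R : ℝ → E m →L[ℝ] E m}
  {S : Set (E m × E m)} {f : E m × E m → ℝ}

theorem closedMfd_of (hN : IsSubmfd n N) (hc : IsCompact N) (hconn : IsConnected N) :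
    ClosedMfd n N ⊥ where
  sub := hN
  closed := hc.isClosed
  conn := hconn
  inv := by
    intro g hg q hq
    rw [AddSubgroup.mem_bot] at hg
    rwa [hg, add_zero]
  cocpt := by
    obtain ⟨R, hR⟩ := hc.isBounded.exists_norm_le
    exact ⟨R, fun q hq => ⟨0, AddSubgroup.zero_mem _, by simpa using hR q hq⟩⟩

theorem compact_of (hM : ClosedMfd n N ⊥) : IsCompact N := by
  obtain ⟨R, hR⟩ := hM.cocpt
  refine Metric.isCompact_of_isClosed_isBounded hM.closed ?_
  refine isBounded_iff_forall_norm_le.2 ⟨R, fun q hq => ?_⟩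
  obtain ⟨g, hg, h⟩ := hR q hq
  rw [AddSubgroup.mem_bot] at hg
  simpa [hg] using h

theorem periodic (hN : IsSubmfd n N) (hc : IsCompact N) (hconn : IsConnected N)
    (hR : Circ N A R) (hL : ExactLag n N ⊥ S f) (hE : Emb A S) :
    ∃ ψ ψ', SympDiffeo N ⊥ ψ ψ' ∧ ψ '' {z | z.1 ∈ N ∧ z.2 = 0} = S := by
  obtain ⟨Gs, hG, hGs⟩ := g_section hN hc hL hE
  have hF := g_fam hN hc hconn hR hL hE hG hGs
  have hCN : ∀ y ∈ sg A '' S, y.1 ∈ N := by
    rintro _ ⟨z, hz, rfl⟩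
    exact (hL.subTN hz).1
  obtain ⟨O, b, a, ρ, J, h, hY⟩ := exists_YD hR hF hCN
  obtain ⟨F, F', hS⟩ := exists_str hN hR hY
  obtain ⟨f', hL'⟩ := str_lag hN hc hL hY hS hG hGs
  have himg := str_image hL hY hS hG
  have hs := str_s hL hY hS hG hGs
  have hinj : ∀ x ∈ F '' S, ∀ y ∈ F '' S, x.1 = y.1 → x = y := by
    rw [himg]
    intro x hx y hy hxy
    refine Prod.ext hxy ?_
    rw [hx.2, hy.2, hxy]
  have hno : ∀ z ∈ F '' S, ¬ Caustic (F '' S) z := by
    rw [himg]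
    rintro z hz ⟨b, hb, hb'⟩
    exact hb (graph_tan hs hz hb')
  obtain ⟨u, s, τ, τ', hg⟩ := graph_of_injective (closedMfd_of hN hc hconn) hL' hinj hno
  refine ⟨F' ∘ τ, τ' ∘ F, symp_comp hg.diffeo (symp_symm (str_symp hN hS)), ?_⟩
  rw [image_comp, hg.image, ← image_comp]
  ext z
  constructor
  · rintro ⟨y, hy, rfl⟩
    change F' (F y) ∈ S
    rw [hS.left y (hL.subTN hy)]
    exact hy
  · intro hz
    exact ⟨z, hz, hS.left z (hL.subTN hz)⟩

end Pool.Agent.H57.CR
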