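import Pool.Agent.H57.CR.PSb

/-!
# Persistence: the points of `K` move continuously with the parameter (module Pers)

PROOFS.
* `pers`: let `y = (q₀, t₀, r₀) ∈ K`, `W, u` a local equation at `y`. By `reg` the derivative of `u` at `y` in the direction `w = (0, 1, 0)` or
  `w = (0, 0, 1)` is not zero. So for all small `h > 0` the numbers `u (y + h w)` and `u (y - h w)` have strictly opposite signs. Fix such an
  `h < ε / 2` with the closed ball of radius `2 h` around `y` in `W`. For `q` near `q₀` the two numbers `u ((q, t₀, r₀) ± h w)` keep these signs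
  (continuity), so by the intermediate value theorem on the segment there is `y' = (q, t₀, r₀) + τ w`, `|τ| ≤ h`, with `u y' = 0`; if `q ∈ N` then
  `y' ∈ K` (`eqn`), and `‖y' - y‖ ≤ max ‖q - q₀‖ h < ε`.
* `fib_ne`: let `D = {q ∈ N | ∃ t r, (q, t, r) ∈ K}`. It is the projection of the compact set `{x ∈ K | 0 ≤ x.2.1 ≤ 1}` (`hR.per`: translate `t` by
  `-⌊t⌋`; `hR.bdd`, `hR.base`, `hR.cptN`), so it is closed; it is relatively open in `N` by `pers`; nonempty. `N` is connected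
  (`IsPreconnected.subset_of_closure_inter_subset` or `isPreconnected_closed_iff` / `Subtype` clopen), so `D = N`.
* `top_closed`: let `x_n ∈ Top K`, `x_n → x` (use `isClosed_iff_frequently` or sequences). `x ∈ K`. If `y ∈ K`, `y.1 = x.1`, `y.2.2 > x.2.2`: by
  `pers` with `ε = (y.2.2 - x.2.2) / 2` for `n` large there is `y_n ∈ K` over `x_n.1` with `‖y_n - y‖ < ε`, so
  `x_n.2.2 ≥ y_n.2.2 > (y.2.2 + x.2.2) / 2`: contradiction in the limit. `btm_closed`: the same.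
-/

set_option autoImplicit false
set_option linter.unusedSectionVars false

open scoped ContDiff Topology
open Set

namespace Pool.Agent.H57.CR

open Pool.Agent.H2.TG (IsFlow)

variable {P : Type} [NormedAddCommGroup P] [NormedSpace ℝ P] [FiniteDimensional ℝ P] {N : Set P}
  {K : Set (P × ℝ × ℝ)} {f : P × ℝ × ℝ → ℝ} {κ : (P × ℝ × ℝ) × ℝ → ℝ}
  {Λ : ℝ → (P × ℝ × ℝ) × ℝ → (P × ℝ × ℝ) × ℝ}

/-- signs near a simple zero -/
lemma sign_near {g : ℝ → ℝ} {c : ℝ} (hg : HasDerivAt g c 0) (h0 : g 0 = 0) (hc : c ≠ 0) :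
    ∃ η > 0, ∀ h, 0 < h → h < η → 0 < c * g h ∧ c * g (-h) < 0 := by
  have h1 := hg.isLittleO.def (c := |c| / 2) (by positivity)
  rw [Metric.eventually_nhds_iff] at h1
  obtain ⟨η, hη, h2⟩ := h1
  have hcc : 0 < |c| := abs_pos.mpr hc
  have hc2 : |c| * |c| = c * c := abs_mul_abs_self c
  refine ⟨η, hη, fun h hh hlt => ?_⟩
  have e1 := h2 (y := h) (by rw [Real.dist_eq, sub_zero, abs_of_pos hh]; exact hlt)
  have e2 := h2 (y := -h) (by rw [Real.dist_eq, sub_zero, abs_neg, abs_of_pos hh]; exact hlt)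
  simp only [h0, sub_zero, smul_eq_mul, Real.norm_eq_abs, abs_neg] at e1 e2
  rw [abs_of_pos hh] at e1 e2
  have e3 : |c * (g h - h * c)| ≤ |c| * (|c| / 2 * h) := by
    rw [abs_mul]; exact mul_le_mul_of_nonneg_left e1 (abs_nonneg c)
  have e4 : |c * (g (-h) - -h * c)| ≤ |c| * (|c| / 2 * h) := by
    rw [abs_mul]; exact mul_le_mul_of_nonneg_left e2 (abs_nonneg c)
  rw [abs_le] at e3 e4
  have hpos : 0 < c * c * h := mul_pos (by rw [← hc2]; exact mul_pos hcc hcc) hh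
  constructor
  · nlinarith [e3.1, hc2]
  · nlinarith [e4.2, hc2]

theorem pers (hR : Fam N K f) {y : P × ℝ × ℝ} (hy : y ∈ K) {ε : ℝ} (hε : 0 < ε) :
    ∃ δ : ℝ, 0 < δ ∧ ∀ q ∈ N, ‖q - y.1‖ < δ → ∃ y' ∈ K, y'.1 = q ∧ ‖y' - y‖ < ε := by
  obtain ⟨W, u, hyW, hL⟩ := hR.loc y hy
  have huy : u y = 0 := ((hL.eqn y hyW).mp hy).2
  have hreg := hL.reg y hyW
  obtain ⟨w, hw, hd⟩ : ∃ w : ℝ × ℝ, ‖w‖ = 1 ∧ fderiv ℝ u y (0, w) ≠ 0 := by
    by_cases h1 : dpl u y 1 0 = 0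
    · have h2 : dpl u y 0 1 ≠ 0 := fun h => hreg ⟨h1, h⟩
      exact ⟨(0, 1), by simp [Prod.norm_def], h2⟩
    · exact ⟨(1, 0), by simp [Prod.norm_def], h1⟩
  set c := fderiv ℝ u y (0, w) with hcdef
  have hdiff : ∀ x ∈ W, DifferentiableAt ℝ u x := fun x hx =>
    (hL.smooth.contDiffAt (hL.isOpen.mem_nhds hx)).differentiableAt (by simp)
  have hg : HasDerivAt (fun s : ℝ => u (y + s • ((0, w) : P × ℝ × ℝ))) c 0 := by
    have h1 : HasDerivAt (fun s : ℝ => y + s • ((0, w) : P × ℝ × ℝ)) ((0, w) : P × ℝ × ℝ) 0 := by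
      have := ((hasDerivAt_id (0 : ℝ)).smul_const ((0, w) : P × ℝ × ℝ)).const_add y
      simpa using this
    have h2 : HasFDerivAt u (fderiv ℝ u y) (y + (0 : ℝ) • ((0, w) : P × ℝ × ℝ)) := by
      rw [zero_smul, add_zero]; exact (hdiff y hyW).hasFDerivAt
    exact h2.comp_hasDerivAt (0 : ℝ) h1
  obtain ⟨η, hη, hs⟩ := sign_near hg (by simp [huy]) hd
  obtain ⟨ρ, hρ, hball⟩ := Metric.isOpen_iff.mp hL.isOpen y hyW
  -- choose h
  obtain ⟨h, hh0, hhη, hhρ, hhε⟩ : ∃ h : ℝ, 0 < h ∧ h < η ∧ h < ρ ∧ h < ε := by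
    refine ⟨min η (min ρ ε) / 2, by positivity, ?_, ?_, ?_⟩
    · have := min_le_left η (min ρ ε); linarith
    · have := (min_le_right η (min ρ ε)).trans (min_le_left ρ ε); linarith
    · have := (min_le_right η (min ρ ε)).trans (min_le_right ρ ε); linarith
  obtain ⟨hp, hm⟩ := hs h hh0 hhη
  have hmem : ∀ q : P, ∀ τ : ℝ, ‖q - y.1‖ < ρ → |τ| < ρ → ((q, y.2 + τ • w) : P × ℝ × ℝ) ∈ W := by
    intro q τ h1 h2
    apply hball
    rw [mem_ball_iff_norm, Prod.norm_def]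
    apply max_lt
    · exact h1
    · show ‖y.2 + τ • w - y.2‖ < ρ
      rw [add_sub_cancel_left, norm_smul, hw, mul_one]
      exact h2
  have hcont : ∀ q : P, ∀ τ : ℝ, ‖q - y.1‖ < ρ → |τ| < ρ → ContinuousAt u ((q, y.2 + τ • w) : P × ℝ × ℝ) :=
    fun q τ h1 h2 => (hdiff _ (hmem q τ h1 h2)).continuousAt
  have hsig : ∀ τ : ℝ, |τ| < ρ → ContinuousAt (fun q : P => c * u (q, y.2 + τ • w)) y.1 := by
    intro τ hτ
    have h1 : ContinuousAt (fun q : P => ((q, y.2 + τ • w) : P × ℝ × ℝ)) y.1 := by fun_prop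
    have h2 := hcont y.1 τ (by simpa using hρ) hτ
    exact (ContinuousAt.comp (g := u) (f := fun q : P => ((q, y.2 + τ • w) : P × ℝ × ℝ)) h2 h1).const_mul c
  have hyeq : ∀ τ : ℝ, y + τ • ((0, w) : P × ℝ × ℝ) = (y.1, y.2 + τ • w) := by
    intro τ
    apply Prod.ext
    · simp
    · rfl
  have hp' : 0 < c * u (y.1, y.2 + h • w) := by rw [← hyeq]; exact hp
  have hm' : c * u (y.1, y.2 + (-h) • w) < 0 := by rw [← hyeq]; exact hm
  have habs : |h| < ρ := by rw [abs_of_pos hh0]; exact hhρ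
  have habs' : |-h| < ρ := by rw [abs_neg]; exact habs
  have ev1 := (hsig h habs).eventually (lt_mem_nhds hp')
  have ev2 := (hsig (-h) habs').eventually (gt_mem_nhds hm')
  obtain ⟨δ₀, hδ₀, hδ⟩ := Metric.eventually_nhds_iff.mp (ev1.and ev2)
  refine ⟨min δ₀ (min ρ ε), by positivity, fun q hq hlt => ?_⟩
  have l1 : ‖q - y.1‖ < δ₀ := lt_of_lt_of_le hlt (min_le_left _ _)
  have l2 : ‖q - y.1‖ < ρ := lt_of_lt_of_le hlt ((min_le_right _ _).trans (min_le_left _ _))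
  have l3 : ‖q - y.1‖ < ε := lt_of_lt_of_le hlt ((min_le_right _ _).trans (min_le_right _ _))
  obtain ⟨s1, s2⟩ := hδ (y := q) (by rw [dist_eq_norm]; exact l1)
  have hcI : ContinuousOn (fun τ : ℝ => c * u (q, y.2 + τ • w)) (Icc (-h) h) := by
    intro τ hτ
    have hτρ : |τ| < ρ := lt_of_le_of_lt (abs_le.mpr hτ) hhρ
    have h1 : ContinuousAt (fun τ : ℝ => ((q, y.2 + τ • w) : P × ℝ × ℝ)) τ := by fun_prop
    have h2 := hcont q τ l2 hτρ
    exact ((ContinuousAt.comp (g := u) (f := fun τ : ℝ => ((q, y.2 + τ • w) : P × ℝ × ℝ)) h2 h1).const_mul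
      c).continuousWithinAt
  have hivt := intermediate_value_Icc (by linarith : -h ≤ h) hcI
  obtain ⟨τ, hτ, hτ0⟩ := hivt ⟨s2.le, s1.le⟩
  have hτρ : |τ| < ρ := lt_of_le_of_lt (abs_le.mpr hτ) hhρ
  have hu0 : u (q, y.2 + τ • w) = 0 := by
    rcases mul_eq_zero.mp hτ0 with h | h
    · exact absurd h hd
    · exact h
  refine ⟨(q, y.2 + τ • w), (hL.eqn _ (hmem q τ l2 hτρ)).mpr ⟨hq, hu0⟩, rfl, ?_⟩
  rw [Prod.norm_def]
  apply max_lt
  · exact l3
  · show ‖y.2 + τ • w - y.2‖ < ε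
    rw [add_sub_cancel_left, norm_smul, hw, mul_one, Real.norm_eq_abs]
    exact lt_of_le_of_lt (abs_le.mpr hτ) hhε

theorem cpt_part (hR : Fam N K f) : IsCompact {x | x ∈ K ∧ 0 ≤ x.2.1 ∧ x.2.1 ≤ 1} := by
  obtain ⟨M, hM⟩ := hR.bdd
  have hc : IsCompact (N ×ˢ (Icc (0 : ℝ) 1 ×ˢ Icc (-M) M)) :=
    hR.cptN.prod (isCompact_Icc.prod isCompact_Icc)
  apply hc.of_isClosed_subset
  · have h1 : IsClosed {x : P × ℝ × ℝ | 0 ≤ x.2.1} := isClosed_le continuous_const (by fun_prop)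
    have h2 : IsClosed {x : P × ℝ × ℝ | x.2.1 ≤ 1} := isClosed_le (by fun_prop) continuous_const
    exact hR.closed.inter (h1.inter h2)
  · rintro x ⟨hx, h0, h1⟩
    exact ⟨hR.base x hx, ⟨h0, h1⟩, abs_le.mp (hM x hx)⟩

theorem fib_ne (hR : Fam N K f) : ∀ q ∈ N, ∃ t r : ℝ, (q, t, r) ∈ K := by
  have : ConnectedSpace N := isConnected_iff_connectedSpace.mp hR.connN
  let D : Set N := {q | ∃ t r : ℝ, ((q : P), t, r) ∈ K}
  have hopen : IsOpen D := by
    rw [Metric.isOpen_iff]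
    rintro q ⟨t, r, hk⟩
    obtain ⟨δ, hδ, h⟩ := pers hR hk one_pos
    refine ⟨δ, hδ, fun q' hq' => ?_⟩
    obtain ⟨y', hy', h1, _⟩ := h q' q'.2 (by
      have : dist q' q < δ := hq'
      rw [Subtype.dist_eq, dist_eq_norm] at this
      exact this)
    refine ⟨y'.2.1, y'.2.2, ?_⟩
    rw [← h1]
    exact hy'
  have hclosed : IsClosed D := by
    have h1 : D = Subtype.val ⁻¹' (Prod.fst '' {x : P × ℝ × ℝ | x ∈ K ∧ 0 ≤ x.2.1 ∧ x.2.1 ≤ 1}) := by
      ext q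
      constructor
      · rintro ⟨t, r, hk⟩
        refine ⟨((q : P), t + ((-⌊t⌋ : ℤ) : ℝ), r), ⟨hR.per _ _ _ _ hk, ?_, ?_⟩, rfl⟩
        · show 0 ≤ t + ((-⌊t⌋ : ℤ) : ℝ)
          push_cast
          have := Int.floor_le t
          linarith
        · show t + ((-⌊t⌋ : ℤ) : ℝ) ≤ 1
          push_cast
          have := Int.lt_floor_add_one t
          linarith
      · rintro ⟨x, ⟨hx, _, _⟩, hxq⟩
        refine ⟨x.2.1, x.2.2, ?_⟩
        rw [← hxq]
        exact hx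
    rw [h1]
    exact (((cpt_part hR).image continuous_fst).isClosed).preimage continuous_subtype_val
  have hne : D.Nonempty := by
    obtain ⟨x, hx⟩ := hR.ne
    exact ⟨⟨x.1, hR.base x hx⟩, x.2.1, x.2.2, hx⟩
  have huniv : D = univ := IsClopen.eq_univ ⟨hclosed, hopen⟩ hne
  intro q hq
  have : (⟨q, hq⟩ : N) ∈ D := by rw [huniv]; exact mem_univ _
  exact this

theorem top_closed (hR : Fam N K f) : IsClosed (Top K) := by
  apply isClosed_of_closure_subset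
  intro x hx
  have hxK : x ∈ K := closure_minimal (fun z hz => hz.1) hR.closed hx
  refine ⟨hxK, fun y hy hyx => ?_⟩
  by_contra hcon
  push Not at hcon
  have hε : 0 < (y.2.2 - x.2.2) / 2 := by linarith
  obtain ⟨δ, hδ, h⟩ := pers hR hy hε
  obtain ⟨z, hz, hzd⟩ := Metric.mem_closure_iff.mp hx (min δ ((y.2.2 - x.2.2) / 2)) (lt_min hδ hε)
  rw [dist_comm, dist_eq_norm] at hzd
  have hz1 : ‖z.1 - y.1‖ < δ := by
    rw [hyx]
    exact lt_of_le_of_lt (norm_fst_le (z - x)) (lt_of_lt_of_le hzd (min_le_left _ _))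
  obtain ⟨y', hy', hy1, hy2⟩ := h z.1 (hR.base z hz.1) hz1
  have a1 := hz.2 y' hy' hy1
  have a2 : |y'.2.2 - y.2.2| < (y.2.2 - x.2.2) / 2 :=
    lt_of_le_of_lt ((norm_snd_le (y' - y).2).trans (norm_snd_le (y' - y))) hy2
  have a3 : |z.2.2 - x.2.2| < (y.2.2 - x.2.2) / 2 :=
    lt_of_le_of_lt ((norm_snd_le (z - x).2).trans (norm_snd_le (z - x)))
      (lt_of_lt_of_le hzd (min_le_right _ _))
  rw [abs_lt] at a2 a3
  linarith [a2.1, a3.2]

theorem btm_closed (hR : Fam N K f) : IsClosed (Btm K) := by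
  apply isClosed_of_closure_subset
  intro x hx
  have hxK : x ∈ K := closure_minimal (fun z hz => hz.1) hR.closed hx
  refine ⟨hxK, fun y hy hyx => ?_⟩
  by_contra hcon
  push Not at hcon
  have hε : 0 < (x.2.2 - y.2.2) / 2 := by linarith
  obtain ⟨δ, hδ, h⟩ := pers hR hy hε
  obtain ⟨z, hz, hzd⟩ := Metric.mem_closure_iff.mp hx (min δ ((x.2.2 - y.2.2) / 2)) (lt_min hδ hε)
  rw [dist_comm, dist_eq_norm] at hzd
  have hz1 : ‖z.1 - y.1‖ < δ := by
    rw [hyx]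
    exact lt_of_le_of_lt (norm_fst_le (z - x)) (lt_of_lt_of_le hzd (min_le_left _ _))
  obtain ⟨y', hy', hy1, hy2⟩ := h z.1 (hR.base z hz.1) hz1
  have a1 := hz.2 y' hy' hy1
  have a2 : |y'.2.2 - y.2.2| < (x.2.2 - y.2.2) / 2 :=
    lt_of_le_of_lt ((norm_snd_le (y' - y).2).trans (norm_snd_le (y' - y))) hy2
  have a3 : |z.2.2 - x.2.2| < (x.2.2 - y.2.2) / 2 :=
    lt_of_le_of_lt ((norm_snd_le (z - x).2).trans (norm_snd_le (z - x)))
      (lt_of_lt_of_le hzd (min_le_right _ _))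
  rw [abs_lt] at a2 a3
  linarith [a2.2, a3.1]

end Pool.Agent.H57.CR
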