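import Pool.Agent.H57.CR.GDefs

/-!
# The orthogonal projections onto the tangent spaces (module Proj)

PROOFS.
* `exists_proj`: for `q ∈ N` the tangent space is a linear subspace (`IsSubmfd.tan_add`, `Tan.smul`, `tan_zero`), `Pr q` its orthogonal projection (as a map into `E m`), `Pr q = 0` for `q ∉ N`. Smoothness near `q₀ ∈ N`: slice chart `e`, subspace `W₀`, `b₁, …, b_n` a basis of `W₀`, `E_i q = De.symm(e q) b_i`: for `q ∈ N` near `q₀` a basis of
  `Tan N q` (`mem_tan`, `Slice.left`), smooth in `q`. Either Gram-Schmidt (smooth: divisions by norms of nonzero vectors) and `Pr q w = ∑ ⟪f_i q, w⟫ f_i q`, or: let `T q : W₀ → E m`, `T q v = De.symm(e q) v` (injective for `q` near `q₀`), `Pr q = T (T* T)⁻¹ T*`; `q ↦ T q` is smooth, adjoint is linear and continuous, inversion is smooth at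
  invertible maps (`contDiffAt_ringInverse` or `ContinuousLinearMap.inverse` `contDiffAt_map_inverse`).
* `gr_inner`: for `w ∈ Tan N y.1`: `⟪gr Pr g y, w⟫ = ⟪∑ …, w⟫ = ∑ w_i fderiv g y (e_i, 0) = fderiv g y (w, 0)` (`IsProj.orth`, linearity).
* `gr_mem`: `IsProj.mem`. `gr_smooth`: `SmoothOn (N ×ˢ univ) (gr Pr g)` from `IsProj.smooth` and `ContDiffOn.fderiv_of_isOpen`.
-/

set_option autoImplicit false
set_option linter.unusedSectionVars false

open scoped ContDiff Topology RealInnerProductSpace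
open Set

namespace Pool.Agent.H57.CR

open Pool.Agent.H57.NL
open Pool.Agent.H2.TG (IsFlow)

variable {m n : ℕ} {N : Set (E m)}

/-- the adjoint depends smoothly on the map -/
private theorem Proj_adj {A : Submodule ℝ (E m)} {s : Set (E m)} {T : E m → (A →L[ℝ] E m)}
    (hT : ContDiffOn ℝ ∞ T s) : ContDiffOn ℝ ∞ (fun y => ContinuousLinearMap.adjoint (T y)) s := by
  rw [contDiffOn_clm_apply]
  intro w
  let b := stdOrthonormalBasis ℝ A
  have e : (fun y => ContinuousLinearMap.adjoint (T y) w) = fun y => ∑ i, ⟪T y (b i), w⟫ • b i := by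
    funext y
    rw [← b.sum_repr' (ContinuousLinearMap.adjoint (T y) w)]
    refine Finset.sum_congr rfl fun i _ => ?_
    rw [ContinuousLinearMap.adjoint_inner_right]
  rw [e]
  refine ContDiffOn.sum fun i _ => ?_
  exact ((hT.clm_apply contDiffOn_const).inner ℝ contDiffOn_const).smul contDiffOn_const

/-- the projection in a slice chart -/
private theorem Proj_chart {e : OpenPartialHomeomorph (E m) (E m)} {A : Submodule ℝ (E m)}
    (h : Slice n N e A) : ∃ G : E m → E m →L[ℝ] E m, ContDiffOn ℝ ∞ G e.source ∧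
      ∀ q ∈ e.source, q ∈ N → (∀ w, G q w ∈ Tan N q) ∧
        ∀ w, ∀ v ∈ Tan N q, ⟪G q w, v⟫ = ⟪w, v⟫ := by
  let T : E m → (A →L[ℝ] E m) := fun y => (fderiv ℝ e.symm (e y)).comp A.subtypeL
  let Q : E m → (A →L[ℝ] A) := fun y => (ContinuousLinearMap.adjoint (T y)).comp (T y)
  have hT : ContDiffOn ℝ ∞ T e.source := by
    have h1 : ContDiffOn ℝ ∞ (fun y => fderiv ℝ e.symm (e y)) e.source := by
      have h2 : ContDiffOn ℝ ∞ (fderiv ℝ e.symm) e.target :=
        h.s2.fderiv_of_isOpen e.open_target (by simp)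
      exact h2.comp h.s1 fun y hy => e.map_source hy
    exact h1.clm_comp contDiffOn_const
  have hTa := Proj_adj hT
  have hQ : ContDiffOn ℝ ∞ Q e.source := hTa.clm_comp hT
  have hinj : ∀ y ∈ e.source, ∀ a : A, T y a = 0 → a = 0 := by
    intro y hy a ha
    have h1 := h.right hy (a : E m)
    have h2 : fderiv ℝ e.symm (e y) (a : E m) = 0 := ha
    rw [h2, map_zero] at h1
    exact Subtype.ext h1.symm
  have hu : ∀ y ∈ e.source, IsUnit (Q y) := by
    intro y hy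
    have h1 : LinearMap.ker (Q y : A →ₗ[ℝ] A) = ⊥ := by
      rw [LinearMap.ker_eq_bot']
      intro a ha
      apply hinj y hy
      have h2 : ⟪Q y a, a⟫ = ⟪T y a, T y a⟫ := by
        change ⟪ContinuousLinearMap.adjoint (T y) (T y a), a⟫ = _
        rw [ContinuousLinearMap.adjoint_inner_left]
      have h3 : Q y a = 0 := ha
      rw [h3, inner_zero_left] at h2
      exact inner_self_eq_zero.1 h2.symm
    have h2 : IsUnit (Q y : A →ₗ[ℝ] A) := (LinearMap.isUnit_iff_ker_eq_bot _).2 h1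
    exact ContinuousLinearMap.isUnit_iff_isUnit_toLinearMap.2 h2
  refine ⟨fun y => (T y).comp ((Ring.inverse (Q y)).comp (ContinuousLinearMap.adjoint (T y))),
    ?_, ?_⟩
  · refine hT.clm_comp (ContDiffOn.clm_comp ?_ hTa)
    intro y hy
    obtain ⟨u, hu'⟩ := hu y hy
    have h1 : ContDiffAt ℝ ∞ Ring.inverse (Q y) := by
      rw [← hu']
      exact contDiffAt_ringInverse (R := A →L[ℝ] A) ℝ u
    exact h1.comp_contDiffWithinAt y (hQ y hy)
  · intro q hq hqN
    have hc : ∀ x, Q q (Ring.inverse (Q q) x) = x := by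
      intro x
      have h1 := Ring.mul_inverse_cancel (Q q) (hu q hq)
      exact congrArg (fun L : A →L[ℝ] A => L x) h1
    refine ⟨fun w => ?_, fun w v hv => ?_⟩
    · rw [h.mem_tan hq hqN]
      change fderiv ℝ e q (fderiv ℝ e.symm (e q)
        ((Ring.inverse (Q q) (ContinuousLinearMap.adjoint (T q) w) : A) : E m)) ∈ A
      rw [h.right hq]
      exact Subtype.property _
    · have h1 : fderiv ℝ e q v ∈ A := (h.mem_tan hq hqN v).1 hv
      have h2 : T q ⟨fderiv ℝ e q v, h1⟩ = v := h.left hq v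
      rw [← h2]
      change ⟪T q (Ring.inverse (Q q) (ContinuousLinearMap.adjoint (T q) w)), _⟫ = _
      rw [← ContinuousLinearMap.adjoint_inner_left]
      change ⟪Q q (Ring.inverse (Q q) (ContinuousLinearMap.adjoint (T q) w)), _⟫ = _
      rw [hc, ContinuousLinearMap.adjoint_inner_left]

theorem exists_proj (hN : IsSubmfd n N) : ∃ Pr : E m → E m →L[ℝ] E m, IsProj N Pr := by
  classical
  have h1 : ∀ q : E m, ∃ L : E m →L[ℝ] E m, q ∈ N → (∀ w, L w ∈ Tan N q) ∧
      ∀ w, ∀ v ∈ Tan N q, ⟪L w, v⟫ = ⟪w, v⟫ := by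
    intro q
    by_cases hq : q ∈ N
    · obtain ⟨e, A, hqe, hs⟩ := hN.slice hq
      obtain ⟨G, -, hG⟩ := Proj_chart hs
      exact ⟨G q, fun _ => hG q hqe hq⟩
    · exact ⟨0, fun h => absurd h hq⟩
  choose Pr hPr using h1
  refine ⟨Pr, ?_, fun q hq => (hPr q hq).1, fun q hq => (hPr q hq).2⟩
  intro q hq
  obtain ⟨e, A, hqe, hs⟩ := hN.slice hq
  obtain ⟨G, hGs, hG⟩ := Proj_chart hs
  refine ⟨G, e.source, e.open_source, hqe, hGs, ?_⟩
  rintro y ⟨hye, hyN⟩
  ext1 w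
  have h2 := (hPr y hyN)
  have h3 := hG y hye hyN
  have h4 := hN.tan_sub hyN (h2.1 w) (h3.1 w)
  have h5 : ⟪Pr y w - G y w, Pr y w - G y w⟫ = 0 := by
    rw [inner_sub_left, h2.2 w _ h4, h3.2 w _ h4, sub_self]
  exact sub_eq_zero.1 (inner_self_eq_zero.1 h5)

theorem gr_inner {Pr : E m → E m →L[ℝ] E m} (hP : IsProj N Pr) {g : E m × ℝ → ℝ} {y : E m × ℝ}
    (hy : y.1 ∈ N) {w : E m} (hw : w ∈ Tan N y.1) : ⟪gr Pr g y, w⟫ = fderiv ℝ g y (w, 0) := by
  unfold gr
  rw [hP.orth y.1 hy _ w hw, sum_inner]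
  have h1 : (w, (0 : ℝ)) = ∑ i, w i • ((EuclideanSpace.single i (1 : ℝ) : E m), (0 : ℝ)) := by
    refine Prod.ext ?_ ?_
    · rw [Prod.fst_sum]
      ext j
      simp [Pi.single_apply]
    · rw [Prod.snd_sum]
      simp
  rw [h1, map_sum]
  refine Finset.sum_congr rfl fun i _ => ?_
  rw [map_smul, inner_smul_left, EuclideanSpace.inner_single_left]
  simp [mul_comm]

theorem gr_mem {Pr : E m → E m →L[ℝ] E m} (hP : IsProj N Pr) (g : E m × ℝ → ℝ) {y : E m × ℝ}
    (hy : y.1 ∈ N) : gr Pr g y ∈ Tan N y.1 := hP.mem y.1 hy _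

theorem gr_smooth {Pr : E m → E m →L[ℝ] E m} (hP : IsProj N Pr) {O : Set (E m)} (hO : IsOpen O)
    (hNO : N ⊆ O) {g : E m × ℝ → ℝ} (hg : ContDiffOn ℝ ∞ g (O ×ˢ univ)) :
    SmoothOn (N ×ˢ (univ : Set ℝ)) (gr Pr g) := by
  rintro ⟨q, r⟩ ⟨hq, -⟩
  obtain ⟨G, O', hO', hqO', hG, hGe⟩ := hP.smooth q hq
  refine ⟨fun y => G y.1 (∑ i, fderiv ℝ g y (EuclideanSpace.single i 1, 0) •
    EuclideanSpace.single i 1), (O' ∩ O) ×ˢ univ, (hO'.inter hO).prod isOpen_univ,
    ⟨⟨hqO', hNO hq⟩, trivial⟩, ?_, ?_⟩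
  · have hop : IsOpen (O ×ˢ (univ : Set ℝ)) := hO.prod isOpen_univ
    have h1 : ContDiffOn ℝ ∞ (fderiv ℝ g) (O ×ˢ univ) := hg.fderiv_of_isOpen hop (by simp)
    have h2 : ContDiffOn ℝ ∞ (fderiv ℝ g) ((O' ∩ O) ×ˢ (univ : Set ℝ)) :=
      h1.mono (prod_mono_left inter_subset_right)
    have h3 : ContDiffOn ℝ ∞ (fun y : E m × ℝ => G y.1) ((O' ∩ O) ×ˢ (univ : Set ℝ)) :=
      hG.comp contDiffOn_fst fun y hy => hy.1.1
    refine h3.clm_apply (ContDiffOn.sum fun i _ => ?_)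
    exact (h2.clm_apply contDiffOn_const).smul contDiffOn_const
  · rintro y ⟨hy1, hy2⟩
    unfold gr
    rw [hGe y.1 ⟨hy1.1.1, hy2.1⟩]

end Pool.Agent.H57.CR
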