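import Pool.Agent.H2.TG.Secant

/-!
# The rotation of an embedded arc (module Rot, Mathlib only)

`γ = (α, ρ)` is a curve with velocity `(cos φ, sin φ)`, injective on `[0, c]`. There is a lifted angle `θ` of the chord from `γ 0` to `γ c`, obtained by
turning the tangent at `γ 0` into the chord, and then the chord into the tangent at `γ c`.

PROOF. As in `H2/TG/Secant.lean` (`secant`): `e s = exp (i φ s)`, `Q (s, t) = ∫_0^1 e (s + τ (t - s)) dτ`, `(t - s) Q (s, t) = γ t - γ s`, `Q (s, s) = e s`,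
`Q ≠ 0` on the triangle `0 ≤ s ≤ t ≤ c`; composing with a retraction `R` of the plane onto the triangle, `exists_arg` gives a continuous
`ω : ℝ × ℝ → ℝ` with `Q (R z) = |Q (R z)| exp (i ω z)` and `ω (0, 0) = φ 0`. As there, `ω (s, s) = φ s` for `s ∈ [0, c]`. Put `θ = ω (0, c)`.
(i) Let `a ≤ φ 0 ≤ a + π` and let all directions `γ s - γ 0`, `0 < s ≤ c`, be in the half plane `{v | ⟪v, (- sin a, cos a)⟫ ≥ 0}`. Then
`sin (ω (0, s) - a) ≥ 0` for `0 ≤ s ≤ c` (for `s = 0` because `φ 0 - a ∈ [0, π]`). A continuous function `g` on `[0, c]` with `g 0 ∈ [0, π]` and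
`sin (g s) ≥ 0` for all `s` has `g s ∈ [0, π]` for all `s`: otherwise by the intermediate value theorem `g` takes a value in `(-π/2, 0)` or
in `(π, 3π/2)`, where the sine is negative (first lemma). So `θ ∈ [a, a + π]`.
(ii) Let `b ≤ θ ≤ b + π` and let the directions `γ c - γ s`, `0 ≤ s < c`, be in the half plane of `b`: `sin (ω (s, c) - b) ≥ 0` for `0 ≤ s < c`, and for
`s = c` by continuity. The same lemma on `[0, c]` gives `ω (c, c) - b ∈ [0, π]`, `ω (c, c) = φ c`.
-/

set_option autoImplicit false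

open Real Set

namespace Pool.Agent.H57.CR

/-- a continuous function with `sin g ≥ 0` starting in `[0, π]` stays in `[0, π]` -/
theorem stay {g : ℝ → ℝ} {c : ℝ} (hc : 0 ≤ c) (hg : ContinuousOn g (Icc 0 c)) (h0 : 0 ≤ g 0)
    (h1 : g 0 ≤ π) (hs : ∀ s ∈ Icc (0 : ℝ) c, 0 ≤ sin (g s)) : 0 ≤ g c ∧ g c ≤ π := by
  have hpi := Real.pi_pos
  constructor
  · by_contra hcon
    push Not at hcon
    have hv1 : -(π / 2) ≤ max (g c) (-(π / 2)) := le_max_right _ _
    have hv2 : max (g c) (-(π / 2)) < 0 := max_lt hcon (by linarith)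
    obtain ⟨s, hs1, hs2⟩ := intermediate_value_Icc' hc hg
      (show max (g c) (-(π / 2)) ∈ Icc (g c) (g 0) from ⟨le_max_left _ _, by linarith⟩)
    have h3 := hs s hs1
    rw [hs2] at h3
    have h4 := Real.sin_neg_of_neg_of_neg_pi_lt hv2 (by linarith)
    linarith
  · by_contra hcon
    push Not at hcon
    have hv1 : min (g c) (3 * (π / 2)) ≤ 3 * (π / 2) := min_le_right _ _
    have hv2 : π < min (g c) (3 * (π / 2)) := lt_min hcon (by linarith)
    obtain ⟨s, hs1, hs2⟩ := intermediate_value_Icc hc hg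
      (show min (g c) (3 * (π / 2)) ∈ Icc (g 0) (g c) from ⟨by linarith, min_le_left _ _⟩)
    have h3 := hs s hs1
    rw [hs2] at h3
    have h4 : 0 < sin (min (g c) (3 * (π / 2)) - π) :=
      Real.sin_pos_of_pos_of_lt_pi (by linarith) (by linarith)
    rw [Real.sin_sub_pi] at h4
    linarith

/-- A continuous angle with positive cosine stays in the right half plane. -/
private theorem rot_abs_lt {h : ℝ → ℝ} (hh : Continuous h) {a b : ℝ} (hab : a ≤ b)
    (ha : |h a| < π / 2) (hc : ∀ s, a ≤ s → s ≤ b → 0 < cos (h s)) : |h b| < π / 2 := by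
  by_contra hcon
  push Not at hcon
  obtain ⟨s, hs, hs'⟩ := intermediate_value_Icc hab (f := fun s => |h s|) (hh.abs.continuousOn)
    ⟨ha.le, hcon⟩
  have h1 := hc s hs.1 hs.2
  have h2 : |h s| = π / 2 := hs'
  rw [← Real.cos_abs, h2, Real.cos_pi_div_two] at h1
  exact lt_irrefl _ h1

private theorem rot_sin_nonneg {q : ℂ} {ω a : ℝ} (h : q = ‖q‖ * Complex.exp (ω * Complex.I))
    (hq0 : q ≠ 0) (hq : 0 ≤ -sin a * q.re + cos a * q.im) : 0 ≤ sin (ω - a) := by
  have h1 : q.re = ‖q‖ * cos ω := by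
    conv_lhs => rw [h]
    rw [Complex.re_ofReal_mul, Complex.exp_ofReal_mul_I_re]
  have h2 : q.im = ‖q‖ * sin ω := by
    conv_lhs => rw [h]
    rw [Complex.im_ofReal_mul, Complex.exp_ofReal_mul_I_im]
  have h3 : -sin a * q.re + cos a * q.im = ‖q‖ * sin (ω - a) := by
    rw [h1, h2, Real.sin_sub]
    ring
  rw [h3] at hq
  exact nonneg_of_mul_nonneg_right hq (norm_pos_iff.2 hq0)

theorem rot {α ρ φ : ℝ → ℝ} {c : ℝ} (hc : 0 < c) (hφ : Continuous φ)
    (hα : ∀ s, HasDerivAt α (cos (φ s)) s) (hρ : ∀ s, HasDerivAt ρ (sin (φ s)) s)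
    (hinj : ∀ s t, 0 ≤ s → s < t → t ≤ c → (α s, ρ s) ≠ (α t, ρ t)) :
    ∃ θ : ℝ, (∃ d : ℝ, 0 < d ∧ α c - α 0 = d * cos θ ∧ ρ c - ρ 0 = d * sin θ) ∧
      (∀ a : ℝ, a ≤ φ 0 → φ 0 ≤ a + π →
        (∀ s, 0 < s → s ≤ c → 0 ≤ -sin a * (α s - α 0) + cos a * (ρ s - ρ 0)) →
          a ≤ θ ∧ θ ≤ a + π) ∧
      (∀ b : ℝ, b ≤ θ → θ ≤ b + π →
        (∀ s, 0 ≤ s → s < c → 0 ≤ -sin b * (α c - α s) + cos b * (ρ c - ρ s)) →
          b ≤ φ c ∧ φ c ≤ b + π) := by
  let e : ℝ → ℂ := fun s => Complex.exp (φ s * Complex.I)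
  let γ : ℝ → ℂ := fun s => (α s : ℂ) + ρ s * Complex.I
  have hec : Continuous e := by fun_prop
  have hγ : ∀ s, HasDerivAt γ (e s) s := by
    intro s
    have h3 := (hα s).ofReal_comp.add ((hρ s).ofReal_comp.mul_const Complex.I)
    refine h3.congr_deriv ?_
    show _ = Complex.exp (φ s * Complex.I)
    rw [Complex.exp_mul_I, Complex.ofReal_cos, Complex.ofReal_sin]
  let Q : ℝ × ℝ → ℂ := fun z => ∫ τ in (0 : ℝ)..1, e (z.1 + τ * (z.2 - z.1))
  have hQc : Continuous Q := by
    refine intervalIntegral.continuous_parametric_intervalIntegral_of_continuous'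
      (f := fun (z : ℝ × ℝ) τ => e (z.1 + τ * (z.2 - z.1))) ?_ 0 1
    show Continuous fun w : (ℝ × ℝ) × ℝ => e (w.1.1 + w.2 * (w.1.2 - w.1.1))
    fun_prop
  have hQd : ∀ s, Q (s, s) = e s := by
    intro s
    show (∫ τ in (0 : ℝ)..1, e (s + τ * (s - s))) = e s
    simp
  have hQm : ∀ s t : ℝ, ((t - s : ℝ) : ℂ) * Q (s, t) = γ t - γ s := by
    intro s t
    have h3 : ∀ τ : ℝ, HasDerivAt (fun τ : ℝ => γ (s + τ * (t - s)))
        (((t - s : ℝ) : ℂ) * e (s + τ * (t - s))) τ := by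
      intro τ
      have h4 : HasDerivAt (fun τ : ℝ => s + τ * (t - s)) (t - s) τ := by
        simpa using ((hasDerivAt_id τ).mul_const (t - s)).const_add s
      have h5 := (hγ (s + τ * (t - s))).scomp τ h4
      refine h5.congr_deriv ?_
      rw [Complex.real_smul]
    have h6 := intervalIntegral.integral_eq_sub_of_hasDerivAt (a := (0 : ℝ)) (b := 1)
      (fun τ _ => h3 τ) (Continuous.intervalIntegrable (by fun_prop) _ _)
    rw [intervalIntegral.integral_const_mul] at h6
    show ((t - s : ℝ) : ℂ) * (∫ τ in (0 : ℝ)..1, e (s + τ * (t - s))) = _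
    rw [h6]
    congr 2 <;> ring
  -- real and imaginary parts
  have hre : ∀ s t : ℝ, (t - s) * (Q (s, t)).re = α t - α s := by
    intro s t
    have h3 := congrArg Complex.re (hQm s t)
    rw [Complex.re_ofReal_mul] at h3
    rw [h3]
    simp [γ]
  have him : ∀ s t : ℝ, (t - s) * (Q (s, t)).im = ρ t - ρ s := by
    intro s t
    have h3 := congrArg Complex.im (hQm s t)
    rw [Complex.im_ofReal_mul] at h3
    rw [h3]
    simp [γ]
  -- nonvanishing on the triangle
  have hQ0 : ∀ s t : ℝ, 0 ≤ s → s ≤ t → t ≤ c → Q (s, t) ≠ 0 := by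
    intro s t hs hst htc hQ
    rcases hst.eq_or_lt with rfl | hlt
    · rw [hQd] at hQ
      exact Complex.exp_ne_zero _ hQ
    · have h5 := hre s t
      have h6 := him s t
      rw [hQ, Complex.zero_re, mul_zero] at h5
      rw [hQ, Complex.zero_im, mul_zero] at h6
      exact hinj s t hs hlt htc (Prod.ext (by simp only; linarith) (by simp only; linarith))
  let R : ℝ × ℝ → ℝ × ℝ := fun z => (min (max z.1 0) (min (max z.2 0) c), min (max z.2 0) c)
  have hRc : Continuous R := by fun_prop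
  have hR : ∀ s t : ℝ, 0 ≤ s → s ≤ t → t ≤ c → R (s, t) = (s, t) := by
    intro s t hs hst htc
    have e1 : min (max t 0) c = t := by
      rw [max_eq_left (hs.trans hst), min_eq_left htc]
    show (min (max s 0) (min (max t 0) c), min (max t 0) c) = (s, t)
    rw [e1, max_eq_left hs, min_eq_left hst]
  have hQR0 : ∀ z, Q (R z) ≠ 0 := by
    intro z
    have e2 : 0 ≤ min (max z.2 0) c := le_min (le_max_right _ _) hc.le
    exact hQ0 _ _ (le_min (le_max_right _ _) e2) (min_le_right _ _) (min_le_right _ _)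
  have hen : ∀ s, ‖e s‖ = 1 := fun s => Complex.norm_exp_ofReal_mul_I _
  obtain ⟨ω, hωc, hω0, hω⟩ := H2.TG.exists_arg (Q := fun z => Q (R z)) (hQc.comp hRc) hQR0
    (ω₀ := φ 0) (z₀ := (0, 0)) (by
      show Q (R (0, 0)) = ‖Q (R (0, 0))‖ * Complex.exp (((φ 0 : ℝ) : ℂ) * Complex.I)
      rw [hR 0 0 le_rfl le_rfl hc.le, hQd, hen, Complex.ofReal_one, one_mul])
  have hω' : ∀ s t : ℝ, 0 ≤ s → s ≤ t → t ≤ c →
      Q (s, t) = ‖Q (s, t)‖ * Complex.exp (ω (s, t) * Complex.I) := by
    intro s t hs hst htc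
    have h3 : Q (R (s, t)) = ‖Q (R (s, t))‖ * Complex.exp (ω (s, t) * Complex.I) := hω (s, t)
    rwa [hR s t hs hst htc] at h3
  have hpi : 0 < π / 2 := by positivity
  -- the diagonal
  have hd : ∀ s, 0 ≤ s → s ≤ c → cos (ω (s, s) - φ s) = 1 := by
    intro s hs hsc
    have h3 := hω' s s hs le_rfl hsc
    rw [hQd, hen, Complex.ofReal_one, one_mul] at h3
    have h5 : Complex.exp (((ω (s, s) - φ s : ℝ) : ℂ) * Complex.I) = 1 := by
      rw [Complex.ofReal_sub, sub_mul, Complex.exp_sub, ← h3]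
      exact div_self (Complex.exp_ne_zero _)
    have h6 := congrArg Complex.re h5
    rwa [Complex.exp_ofReal_mul_I_re, Complex.one_re] at h6
  have hdc : ω (c, c) = φ c := by
    have h3 := rot_abs_lt (h := fun s => ω (s, s) - φ s) (by fun_prop) hc.le
      (by
        show |ω (0, 0) - φ 0| < π / 2
        rw [hω0]
        simpa using hpi)
      (fun s hs hsc => by
        show 0 < cos (ω (s, s) - φ s)
        rw [hd s hs hsc]
        exact one_pos)
    have h4 := abs_lt.1 h3
    have h5 := (Real.cos_eq_one_iff_of_lt_of_lt (by linarith [h4.1]) (by linarith [h4.2])).1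
      (hd c hc.le le_rfl)
    linarith
  refine ⟨ω (0, c), ⟨c * ‖Q (0, c)‖, ?_, ?_, ?_⟩, ?_, ?_⟩
  · exact mul_pos hc (norm_pos_iff.2 (hQ0 0 c le_rfl hc.le le_rfl))
  · have h3 := hre 0 c
    have h4 : (Q (0, c)).re = ‖Q (0, c)‖ * cos (ω (0, c)) := by
      conv_lhs => rw [hω' 0 c le_rfl hc.le le_rfl]
      rw [Complex.re_ofReal_mul, Complex.exp_ofReal_mul_I_re]
    rw [← h3, h4, sub_zero]
    ring
  · have h3 := him 0 c
    have h4 : (Q (0, c)).im = ‖Q (0, c)‖ * sin (ω (0, c)) := by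
      conv_lhs => rw [hω' 0 c le_rfl hc.le le_rfl]
      rw [Complex.im_ofReal_mul, Complex.exp_ofReal_mul_I_im]
    rw [← h3, h4, sub_zero]
    ring
  · intro a ha1 ha2 hha
    have h3 := stay (g := fun s => ω (0, s) - a) hc.le
      (Continuous.continuousOn (by fun_prop))
      (by
        show 0 ≤ ω (0, 0) - a
        rw [hω0]
        linarith)
      (by
        show ω (0, 0) - a ≤ π
        rw [hω0]
        linarith)
      (by
        intro s hs
        show 0 ≤ sin (ω (0, s) - a)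
        rcases hs.1.eq_or_lt with h | h
        · rw [← h, hω0]
          exact Real.sin_nonneg_of_nonneg_of_le_pi (by linarith) (by linarith)
        · refine rot_sin_nonneg (hω' 0 s le_rfl h.le hs.2) (hQ0 0 s le_rfl h.le hs.2) ?_
          have h4 := hha s h hs.2
          rw [← hre 0 s, ← him 0 s] at h4
          have h5 : 0 ≤ s * (-sin a * (Q (0, s)).re + cos a * (Q (0, s)).im) := by
            linarith
          exact nonneg_of_mul_nonneg_right h5 h)
    exact ⟨by linarith [h3.1], by linarith [h3.2]⟩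
  · intro b hb1 hb2 hhb
    have hcl : IsClosed {s : ℝ | 0 ≤ sin (ω (s, c) - b)} :=
      isClosed_le continuous_const (by fun_prop)
    have hsub : Icc 0 c ⊆ {s : ℝ | 0 ≤ sin (ω (s, c) - b)} := by
      rw [← closure_Ico hc.ne]
      refine closure_minimal (fun s hs => ?_) hcl
      show 0 ≤ sin (ω (s, c) - b)
      refine rot_sin_nonneg (hω' s c hs.1 hs.2.le le_rfl) (hQ0 s c hs.1 hs.2.le le_rfl) ?_
      have h4 := hhb s hs.1 hs.2
      rw [← hre s c, ← him s c] at h4
      have h5 : 0 ≤ (c - s) * (-sin b * (Q (s, c)).re + cos b * (Q (s, c)).im) := by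
        linarith
      exact nonneg_of_mul_nonneg_right h5 (sub_pos.2 hs.2)
    have h3 := stay (g := fun s => ω (s, c) - b) hc.le
      (Continuous.continuousOn (by fun_prop))
      (by
        show 0 ≤ ω (0, c) - b
        linarith)
      (by
        show ω (0, c) - b ≤ π
        linarith)
      (fun s hs => hsub hs)
    rw [hdc] at h3
    exact ⟨by linarith [h3.1], by linarith [h3.2]⟩

end Pool.Agent.H57.CR
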