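import Pool.Agent.H57.CR.GDefs
import Mathlib.Analysis.SpecialFunctions.Exponential

/-!
# The one parameter group generated by a skew map (module RotG)

PROOF. `R t = NormedSpace.exp (t • A)` (exponential in the Banach algebra `E m →L[ℝ] E m`). `zero`: `exp 0 = 1`. `add`: `exp_add_of_commute`. `one`: hypothesis. `deriv`: `hasDerivAt_exp_smul_const'` (or the other version) and evaluation at `q`
(`HasDerivAt.clm_apply`); `comm`: `A` commutes with `exp (t • A)` (`Commute.exp_right`). `inner`: the derivative of `t ↦ ⟪R t p, R t q⟫` is `⟪A R p, R q⟫ + ⟪R p, A R q⟫ = 0`, so it is constant. `cd`: `NormedSpace.exp` is analytic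
(`NormedSpace.exp_analytic`, `AnalyticOnNhd.contDiffOn` or `AnalyticAt.contDiffAt`).
-/

set_option autoImplicit false
set_option linter.unusedSectionVars false

open scoped ContDiff Topology RealInnerProductSpace
open Set

namespace Pool.Agent.H57.CR

open Pool.Agent.H57.NL
open Pool.Agent.H2.TG (IsFlow)

variable {m : ℕ} {N : Set (E m)} {A : E m →L[ℝ] E m}

private lemma rg_deriv (t : ℝ) (q : E m) :
    HasDerivAt (fun t : ℝ => NormedSpace.exp (t • A) q) (A (NormedSpace.exp (t • A) q)) t := by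
  have h1 : HasDerivAt (fun u : ℝ => NormedSpace.exp (u • A)) (A * NormedSpace.exp (t • A)) t :=
    hasDerivAt_exp_smul_const' A t
  have h2 := h1.clm_apply (hasDerivAt_const t q)
  simpa using h2

private lemma rg_comm (s t : ℝ) : Commute (s • A) (t • A) := by
  refine ContinuousLinearMap.ext fun x => ?_
  change s • A (t • A x) = t • A (s • A x)
  rw [map_smul, map_smul, smul_comm]

private lemma rg_add (s t : ℝ) :
    NormedSpace.exp ((s + t) • A) = NormedSpace.exp (s • A) * NormedSpace.exp (t • A) := by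
  have e : (s + t) • A = s • A + t • A := add_smul s t A
  rw [e]
  refine NormedSpace.exp_add_of_commute_of_mem_ball (𝕂 := ℝ) (rg_comm s t) ?_ ?_
  · rw [NormedSpace.expSeries_radius_eq_top]
    exact edist_lt_top _ _
  · rw [NormedSpace.expSeries_radius_eq_top]
    exact edist_lt_top _ _

theorem exists_circ (hs : ∀ p q : E m, ⟪A p, q⟫ = -⟪p, A q⟫) (h1 : NormedSpace.exp A = 1)
    (hN : ∀ t : ℝ, ∀ q ∈ N, NormedSpace.exp (t • A) q ∈ N) :
    Circ N A fun t => NormedSpace.exp (t • A) where
  cd := by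
    have h2 : ContDiff ℝ ∞ (NormedSpace.exp : (E m →L[ℝ] E m) → (E m →L[ℝ] E m)) :=
      contDiff_iff_contDiffAt.2 fun x => (NormedSpace.exp_analytic (𝕂 := ℝ) x).contDiffAt
    have h3 : ContDiff ℝ ∞ fun t : ℝ => t • A := contDiff_id.smul contDiff_const
    exact h2.comp h3
  zero q := by
    have e : (0 : ℝ) • A = 0 := zero_smul ℝ A
    simp only [e, NormedSpace.exp_zero]
    rfl
  add s t q := by
    simp only [rg_add]
    rfl
  one q := by
    have e : (1 : ℝ) • A = A := one_smul ℝ A
    simp only [e, h1]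
    rfl
  deriv t q := rg_deriv t q
  comm t q := by
    have h3 : Commute A (t • A) := by
      have := rg_comm (A := A) 1 t
      have e : (1 : ℝ) • A = A := one_smul ℝ A
      rwa [e] at this
    have h2 : Commute A (NormedSpace.exp (t • A)) := h3.exp_right
    exact congrArg (fun B : E m →L[ℝ] E m => B q) h2.eq
  inner t p q := by
    have h2 : ∀ x : ℝ, HasDerivAt
        (fun t : ℝ => ⟪NormedSpace.exp (t • A) p, NormedSpace.exp (t • A) q⟫) 0 x := by
      intro x
      have h3 := (rg_deriv (A := A) x p).inner ℝ (rg_deriv (A := A) x q)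
      refine h3.congr_deriv ?_
      rw [hs]
      ring
    have h4 : ⟪NormedSpace.exp (t • A) p, NormedSpace.exp (t • A) q⟫ =
        ⟪NormedSpace.exp ((0 : ℝ) • A) p, NormedSpace.exp ((0 : ℝ) • A) q⟫ :=
      is_const_of_deriv_eq_zero (fun x => (h2 x).differentiableAt) (fun x => (h2 x).deriv) t 0
    have e : (0 : ℝ) • A = 0 := zero_smul ℝ A
    rw [h4, e, NormedSpace.exp_zero]
    rfl
  skew := hs
  maps := hN

theorem circ_tan {R : ℝ → E m →L[ℝ] E m} (h : Circ N A R) {q : E m} (hq : q ∈ N) :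
    A q ∈ Tan N q := by
  refine ⟨fun t => R t q, h.zero q, Filter.Eventually.of_forall fun s => h.maps s q hq, ?_⟩
  have h1 := h.deriv 0 q
  rwa [h.zero] at h1

theorem circ_map {R : ℝ → E m →L[ℝ] E m} (h : Circ N A R) {q : E m} (t : ℝ) {w : E m}
    (hw : w ∈ Tan N q) : R t w ∈ Tan N (R t q) := by
  obtain ⟨γ, h0, h1, h2⟩ := hw
  refine ⟨fun s => R t (γ s), by simp only [h0], h1.mono fun s hs => h.maps t _ hs, ?_⟩
  exact (R t).hasFDerivAt.comp_hasDerivAt 0 h2

theorem circ_smooth {R : ℝ → E m →L[ℝ] E m} (h : Circ N A R) :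
    ContDiff ℝ ∞ fun x : ℝ × E m => R x.1 x.2 :=
  (h.cd.comp contDiff_fst).clm_apply contDiff_snd

theorem circ_neg {R : ℝ → E m →L[ℝ] E m} (h : Circ N A R) (t : ℝ) (q : E m) :
    R (-t) (R t q) = q := by
  rw [← h.add, neg_add_cancel, h.zero]

end Pool.Agent.H57.CR
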