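import Pool.Agent.H57.CR.SmOn
import Pool.Agent.H57.CR.Proj

/-!
# The straightening symplectic diffeomorphism: definitions
-/

set_option autoImplicit false
set_option linter.unusedSectionVars false

open scoped ContDiff Topology RealInnerProductSpace
open Set

namespace Pool.Agent.H57.CR

open Pool.Agent.H57.NL
open Pool.Agent.H2.TG (IsFlow)

variable {m : ℕ}

/-- The straightening map at level `y = sg A z`. -/
noncomputable def sF (A : E m →L[ℝ] E m) (R : ℝ → E m →L[ℝ] E m) (Pr : E m → E m →L[ℝ] E m)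
    (b a ρ : E m × ℝ → ℝ) (z : E m × E m) : E m × E m :=
  (R (b (sg A z)) z.1,
    R (b (sg A z)) (z.2 + gr Pr a (sg A z) - ρ (sg A z) • gr Pr b (sg A z)))

/-- Its inverse; `y = J (sg A z)`. -/
noncomputable def sF' (A : E m →L[ℝ] E m) (R : ℝ → E m →L[ℝ] E m) (Pr : E m → E m →L[ℝ] E m)
    (b a ρ : E m × ℝ → ℝ) (J : E m × ℝ → E m × ℝ) (z : E m × E m) : E m × E m :=
  ((J (sg A z)).1, R (-b (J (sg A z))) z.2 - gr Pr a (J (sg A z))
    + ρ (J (sg A z)) • gr Pr b (J (sg A z)))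

/-- A straightening: an exact symplectic diffeomorphism of the cotangent bundle of `N`. -/
structure Str (N : Set (E m)) (A : E m →L[ℝ] E m) (R : ℝ → E m →L[ℝ] E m)
    (b a : E m × ℝ → ℝ) (F F' : E m × E m → E m × E m) : Prop where
  maps : ∀ z ∈ TN N, F z ∈ TN N
  maps' : ∀ z ∈ TN N, F' z ∈ TN N
  left : ∀ z ∈ TN N, F' (F z) = z
  right : ∀ z ∈ TN N, F (F' z) = z
  smooth : SmoothOn (TN N) F
  smooth' : SmoothOn (TN N) F'
  smG : SmoothOn (TN N) fun z => a (sg A z)
  exact : LExact N F fun z => a (sg A z)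
  fst : ∀ z ∈ TN N, (F z).1 = R (b (sg A z)) z.1

end Pool.Agent.H57.CR
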