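import Pool.Agent.H57.CR.LeafB

/-!
# Near points of `K` in the same plane are on the same leaf (module Sep)

PORT of `Pool/Agent/H2/TG/Sep.lean` (same proof, replacements as in PSb). In `sep_loc` the vectors are
`e = (0, cos φ₀, sin φ₀)`, `e' = (0, -sin φ₀, cos φ₀)`. All the points considered have the same first component `x.1.1 ∈ N`
(`leaf_q`), so `u = 0` at the points of `K` and conversely. For `sep`: a point of `K` is `shp k` of a point with
`0 ≤ t ≤ 1`, and `{x ∈ K | x.2.1 ∈ [0, 1]}` is compact; `leaf_shf` with `j = 0`.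
-/

set_option autoImplicit false
set_option linter.unusedSectionVars false

open scoped ContDiff Topology
open Set

namespace Pool.Agent.H57.CR

open Pool.Agent.H2.TG (IsFlow angle_unique angle_exists smooth_angle)

variable {P : Type} [NormedAddCommGroup P] [NormedSpace ℝ P] [FiniteDimensional ℝ P] {N : Set P}
  {K : Set (P × ℝ × ℝ)} {f : P × ℝ × ℝ → ℝ}
  {κ : (P × ℝ × ℝ) × ℝ → ℝ} {Λ : ℝ → (P × ℝ × ℝ) × ℝ → (P × ℝ × ℝ) × ℝ}

private theorem sep_speed (hL : Leaf N K f κ Λ) (x : (P × ℝ × ℝ) × ℝ) (s : ℝ) :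
    ‖(Λ s x).1 - x.1‖ ≤ |s| := by
  have hd : ∀ t, HasDerivAt (fun s => (Λ s x).1)
      ((0, Real.cos (Λ t x).2, Real.sin (Λ t x).2) : P × ℝ × ℝ) t := fun t =>
    (hL.flow.deriv x t).fst
  have hb : ∀ t, ‖((0, Real.cos (Λ t x).2, Real.sin (Λ t x).2) : P × ℝ × ℝ)‖ ≤ 1 := by
    intro t
    rw [Prod.norm_def]
    refine max_le ?_ ?_
    · show ‖(0 : P)‖ ≤ 1
      rw [norm_zero]; exact zero_le_one
    · rw [Prod.norm_def]
      refine max_le ?_ ?_
      · exact Real.abs_cos_le_one _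
      · exact Real.abs_sin_le_one _
  have h := Convex.norm_image_sub_le_of_norm_hasDerivWithin_le (f := fun s => (Λ s x).1)
    (f' := fun t => ((0, Real.cos (Λ t x).2, Real.sin (Λ t x).2) : P × ℝ × ℝ)) (C := 1)
    (s := univ) (x := 0) (y := s) (fun t _ => (hd t).hasDerivWithinAt) (fun t _ => hb t)
    convex_univ (mem_univ _) (mem_univ _)
  simpa [hL.flow.zero] using h

private theorem sep_cos {a b : ℝ} {k : ℤ} (hab : |b| ≤ Real.pi / 4) (h : a = b + k * Real.pi) :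
    1 / 2 ≤ |Real.cos a| := by
  have h1 : |Real.cos a| = |Real.cos b| := by
    rw [h, Real.cos_add_int_mul_pi]
    rw [abs_mul]
    have : |((-1 : ℝ)) ^ k| = 1 := by
      rw [abs_zpow]; simp
    rw [this, one_mul]
  have h2 : Real.cos (Real.pi / 4) ≤ Real.cos b := by
    rw [← Real.cos_abs b]
    exact Real.cos_le_cos_of_nonneg_of_le_pi (abs_nonneg b) (by linarith [Real.pi_pos]) hab
  have h3 : (1 : ℝ) / 2 ≤ Real.cos (Real.pi / 4) := by
    rw [Real.cos_pi_div_four]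
    have : (1 : ℝ) ≤ Real.sqrt 2 := by
      rw [show (1 : ℝ) = Real.sqrt 1 by simp]
      exact Real.sqrt_le_sqrt (by norm_num)
    linarith
  rw [h1]
  exact le_trans (le_trans h3 h2) (le_abs_self _)

/-- The derivative of the local equation across the leaf. -/
private theorem sep_reg {W : Set (P × ℝ × ℝ)} {u : P × ℝ × ℝ → ℝ} (hC : LocEq N K W u)
    {x : P × ℝ × ℝ} (hx : x ∈ W) {φ : ℝ} (h : dpl u x (Real.cos φ) (Real.sin φ) = 0) :
    dpl u x (-Real.sin φ) (Real.cos φ) ≠ 0 := by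
  intro h'
  rw [dpl_lin] at h h'
  have hs := Real.sin_sq_add_cos_sq φ
  refine hC.reg x hx ⟨?_, ?_⟩
  · linear_combination Real.cos φ * h - Real.sin φ * h' - dpl u x 1 0 * hs
  · linear_combination Real.sin φ * h + Real.cos φ * h' - dpl u x 0 1 * hs

private theorem sep_cont {W : Set (P × ℝ × ℝ)} {u : P × ℝ × ℝ → ℝ} (hC : LocEq N K W u)
    (a b : ℝ) : ContinuousOn (fun y => dpl u y a b) W := by
  have h1 : ContinuousOn (fderiv ℝ u) W :=
    hC.smooth.continuousOn_fderiv_of_isOpen hC.isOpen (by simp)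
  exact h1.clm_apply continuousOn_const

/-- Two points of `K` on a line across the leaf are equal. -/
private theorem sep_rolle {W : Set (P × ℝ × ℝ)} {u : P × ℝ × ℝ → ℝ} (hC : LocEq N K W u)
    {x₀ : P × ℝ × ℝ} {ρ φ₀ : ℝ} (hB : Metric.ball x₀ ρ ⊆ W)
    (hne : ∀ y ∈ Metric.ball x₀ ρ, dpl u y (-Real.sin φ₀) (Real.cos φ₀) ≠ 0)
    {p : P × ℝ × ℝ} {c : ℝ} (hp : p ∈ K) (hpB : p ∈ Metric.ball x₀ ρ)
    (hy : p + c • ((0, -Real.sin φ₀, Real.cos φ₀) : P × ℝ × ℝ) ∈ K)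
    (hyB : p + c • ((0, -Real.sin φ₀, Real.cos φ₀) : P × ℝ × ℝ) ∈ Metric.ball x₀ ρ) :
    c = 0 := by
  by_contra hc
  set e' : P × ℝ × ℝ := (0, -Real.sin φ₀, Real.cos φ₀) with he'
  have hseg : ∀ l ∈ Icc (0 : ℝ) 1, p + l • (c • e') ∈ Metric.ball x₀ ρ := by
    intro l hl
    have := (convex_ball x₀ ρ).add_smul_sub_mem hpB hyB hl
    simpa [add_sub_cancel_left] using this
  have hd : ∀ l ∈ Icc (0 : ℝ) 1, HasDerivAt (fun l : ℝ => u (p + l • (c • e')))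
      (c * dpl u (p + l • (c • e')) (-Real.sin φ₀) (Real.cos φ₀)) l := by
    intro l hl
    have hW := hB (hseg l hl)
    have h1 : DifferentiableAt ℝ u (p + l • (c • e')) :=
      (hC.smooth.contDiffAt (hC.isOpen.mem_nhds hW)).differentiableAt (by simp)
    have h2 : HasDerivAt (fun l : ℝ => p + l • (c • e')) (c • e') l := by
      have := ((hasDerivAt_id l).smul_const (c • e')).const_add p
      simpa using this
    have h3 := h1.hasFDerivAt.comp_hasDerivAt l h2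
    have h4 : (fderiv ℝ u (p + l • (c • e'))) (c • e') =
        c * dpl u (p + l • (c • e')) (-Real.sin φ₀) (Real.cos φ₀) := by
      rw [map_smul, smul_eq_mul, he', dpl]
    rw [h4] at h3
    exact h3
  obtain ⟨l, hl, h0⟩ := exists_hasDerivAt_eq_zero (f := fun l : ℝ => u (p + l • (c • e')))
    (f' := fun l => c * dpl u (p + l • (c • e')) (-Real.sin φ₀) (Real.cos φ₀))
    (a := 0) (b := 1) zero_lt_one (fun l hl => (hd l hl).continuousAt.continuousWithinAt)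
    (by
      have h1 : u p = 0 := ((hC.eqn p (hB hpB)).1 hp).2
      have h2 : u (p + c • e') = 0 := ((hC.eqn _ (hB hyB)).1 hy).2
      simp only [zero_smul, add_zero, one_smul, h1, h2])
    (fun l hl => hd l (Ioo_subset_Icc_self hl))
  exact hne _ (hseg l (Ioo_subset_Icc_self hl)) ((mul_eq_zero.1 h0).resolve_left hc)

theorem sep_loc (hL : Leaf N K f κ Λ) {x₀ : P × ℝ × ℝ} (hx₀ : x₀ ∈ K) :
    ∃ ε : ℝ, 0 < ε ∧ ∀ x ∈ PS N K, ∀ y ∈ K, y.1 = x.1.1 → ‖x.1 - x₀‖ < ε → ‖y - x₀‖ < ε →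
      ∃ s, |s| < 1 ∧ (Λ s x).1 = y := by
  have hR := hL.fam
  obtain ⟨W₀, u, hxW₀, hC₀⟩ := hR.loc x₀ hx₀
  obtain ⟨φ₀, hφ₀⟩ := PS_exists hR hx₀
  have hd0 := (mem_PS hC₀ (x := (x₀, φ₀)) hx₀ hxW₀).1 hφ₀
  obtain ⟨W, ϑ, -, hxW, hC, hϑ, hϑ0⟩ := exists_phase hC₀ hxW₀ hd0
  have hP0 := sep_reg hC hxW hd0
  -- choice of the radius
  have hev : ∀ᶠ y in 𝓝 x₀, y ∈ W ∧ dpl u y (-Real.sin φ₀) (Real.cos φ₀) ≠ 0 ∧
      |ϑ y - φ₀| < Real.pi / 4 := by
    have h1 : ∀ᶠ y in 𝓝 x₀, y ∈ W := hC.isOpen.mem_nhds hxW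
    have h2 : ∀ᶠ y in 𝓝 x₀, dpl u y (-Real.sin φ₀) (Real.cos φ₀) ≠ 0 :=
      ((sep_cont hC _ _).continuousAt (hC.isOpen.mem_nhds hxW)).eventually_ne hP0
    have h3 : ContinuousAt (fun y => |ϑ y - φ₀|) x₀ :=
      ((hϑ.smooth.continuousOn.continuousAt (hC.isOpen.mem_nhds hxW)).sub
        continuousAt_const).abs
    have h4 : ∀ᶠ y in 𝓝 x₀, |ϑ y - φ₀| < Real.pi / 4 :=
      h3.eventually_lt continuousAt_const (by simp [hϑ0]; positivity)
    filter_upwards [h1, h2, h4] with y a b c using ⟨a, b, c⟩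
  rw [Metric.eventually_nhds_iff_ball] at hev
  obtain ⟨ρ, hρ, hball⟩ := hev
  set ε : ℝ := min (ρ / 20) (1 / 20) with hε
  have hεpos : 0 < ε := lt_min (by linarith) (by norm_num)
  have hερ : 20 * ε ≤ ρ := by linarith [min_le_left (ρ / 20) (1 / 20 : ℝ)]
  have hε1 : 20 * ε ≤ 1 := by linarith [min_le_right (ρ / 20) (1 / 20 : ℝ)]
  refine ⟨ε, hεpos, ?_⟩
  rintro x hx y hy hyx hxε hyε
  -- the leaf stays in the ball
  have hstay : ∀ s, |s| ≤ 9 * ε → (Λ s x).1 ∈ Metric.ball x₀ ρ := by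
    intro s hs
    rw [mem_ball_iff_norm]
    calc ‖(Λ s x).1 - x₀‖ = ‖((Λ s x).1 - x.1) + (x.1 - x₀)‖ := by congr 1; abel
      _ ≤ ‖(Λ s x).1 - x.1‖ + ‖x.1 - x₀‖ := norm_add_le _ _
      _ < ρ := by linarith [sep_speed hL x s]
  have hyB : y ∈ Metric.ball x₀ ρ := by
    rw [mem_ball_iff_norm]; linarith
  have hmem := fun s => leaf_mem hL hx s
  set g : ℝ → ℝ := fun s => Real.cos ((Λ s x).2 - φ₀) with hg
  have hfabs : ∀ s, |s| ≤ 9 * ε → 1 / 2 ≤ |g s| := by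
    intro s hs
    have hb := hball _ (hstay s hs)
    have hin := hmem s
    have h1 : ((Λ s x).1, ϑ (Λ s x).1) ∈ PS N K :=
      (mem_PS hC (x := ((Λ s x).1, ϑ (Λ s x).1)) hin.1 hb.1).2 (hϑ.tang _ hb.1)
    obtain ⟨k, hk⟩ := PS_unique hR (y := (Λ s x).1) (φ := (Λ s x).2) hin h1
    exact sep_cos (b := ϑ (Λ s x).1 - φ₀) (k := k) hb.2.2.le (by rw [hk]; ring)
  have hph : Continuous fun s => (Λ s x).2 :=
    continuous_iff_continuousAt.2 fun s => (leaf_ph hL x s).continuousAt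
  have hfc : Continuous g := Real.continuous_cos.comp (hph.sub continuous_const)
  have hsign : ∀ s, |s| ≤ 9 * ε → (0 < g 0 → 1 / 2 ≤ g s) ∧ (g 0 < 0 → g s ≤ -(1 / 2)) := by
    intro s hs
    have hno : (0 : ℝ) ∉ uIcc (g 0) (g s) := by
      intro h0
      obtain ⟨r, hr, hr0⟩ := intermediate_value_uIcc (f := g) (a := 0) (b := s)
        hfc.continuousOn h0
      have hrs : |r| ≤ 9 * ε := by
        have := abs_sub_left_of_mem_uIcc hr
        simp only [sub_zero] at this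
        exact this.trans hs
      have := hfabs r hrs
      rw [hr0, abs_zero] at this
      linarith
    have habs := hfabs s hs
    constructor
    · intro h0
      rcases le_abs.1 habs with h1 | h1
      · exact h1
      · exact absurd (mem_uIcc.2 (Or.inr ⟨by linarith, h0.le⟩)) hno
    · intro h0
      rcases le_abs.1 habs with h1 | h1
      · exact absurd (mem_uIcc.2 (Or.inl ⟨h0.le, by linarith⟩)) hno
      · linarith
  -- the coordinate along the leaf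
  set b : ℝ → ℝ := fun s => ((Λ s x).1.2.1 - x.1.2.1) * Real.cos φ₀ +
    ((Λ s x).1.2.2 - x.1.2.2) * Real.sin φ₀ with hbdef
  have hbd : ∀ s, HasDerivAt b (g s) s := by
    intro s
    have h1 := (((leaf_t hL x s).sub_const x.1.2.1).mul_const (Real.cos φ₀)).add
      (((leaf_r hL x s).sub_const x.1.2.2).mul_const (Real.sin φ₀))
    have h2 : Real.cos (Λ s x).2 * Real.cos φ₀ + Real.sin (Λ s x).2 * Real.sin φ₀ = g s := by
      rw [hg]; simp only; rw [Real.cos_sub]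
    rw [h2] at h1
    exact h1
  have hbc : Continuous b := continuous_iff_continuousAt.2 fun s => (hbd s).continuousAt
  have hb0 : b 0 = 0 := by
    simp [hbdef, hL.flow.zero]
  have hε9 : (0 : ℝ) < 9 * ε := by linarith
  obtain ⟨ξ, hξ, hξe⟩ := exists_hasDerivAt_eq_slope b g hε9 hbc.continuousOn
    (fun s _ => hbd s)
  obtain ⟨η, hη, hηe⟩ := exists_hasDerivAt_eq_slope b g (neg_lt_zero.2 hε9) hbc.continuousOn
    (fun s _ => hbd s)
  have hb1 : b (9 * ε) = 9 * ε * g ξ := by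
    rw [hξe, hb0]; field_simp; ring
  have hb2 : b (-(9 * ε)) = -(9 * ε) * g η := by
    rw [hηe, hb0]; field_simp; ring
  have hξ9 : |ξ| ≤ 9 * ε := abs_le.2 ⟨by linarith [hξ.1], hξ.2.le⟩
  have hη9 : |η| ≤ 9 * ε := abs_le.2 ⟨hη.1.le, by linarith [hη.2]⟩
  -- the target value
  have hdiff : ‖y - x.1‖ < 2 * ε := by
    calc ‖y - x.1‖ = ‖(y - x₀) - (x.1 - x₀)‖ := by congr 1; abel
      _ ≤ ‖y - x₀‖ + ‖x.1 - x₀‖ := norm_sub_le _ _
      _ < 2 * ε := by linarith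
  have hd2 : ‖(y - x.1).2‖ ≤ ‖y - x.1‖ := norm_snd_le (y - x.1)
  have ht1 : |y.2.1 - x.1.2.1| < 2 * ε := by
    have h1 : ‖(y - x.1).2.1‖ ≤ ‖(y - x.1).2‖ := norm_fst_le _
    rw [Real.norm_eq_abs] at h1
    have h2 : |y.2.1 - x.1.2.1| ≤ ‖(y - x.1).2‖ := h1
    linarith
  have hr1 : |y.2.2 - x.1.2.2| < 2 * ε := by
    have h1 : ‖(y - x.1).2.2‖ ≤ ‖(y - x.1).2‖ := norm_snd_le _
    rw [Real.norm_eq_abs] at h1
    have h2 : |y.2.2 - x.1.2.2| ≤ ‖(y - x.1).2‖ := h1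
    linarith
  set β : ℝ := (y.2.1 - x.1.2.1) * Real.cos φ₀ + (y.2.2 - x.1.2.2) * Real.sin φ₀ with hβ
  have hβ4 : |β| ≤ 4 * ε := by
    calc |β| ≤ |(y.2.1 - x.1.2.1) * Real.cos φ₀| + |(y.2.2 - x.1.2.2) * Real.sin φ₀| :=
          abs_add_le _ _
      _ = |y.2.1 - x.1.2.1| * |Real.cos φ₀| + |y.2.2 - x.1.2.2| * |Real.sin φ₀| := by
          rw [abs_mul, abs_mul]
      _ ≤ |y.2.1 - x.1.2.1| * 1 + |y.2.2 - x.1.2.2| * 1 := by
          gcongr
          · exact Real.abs_cos_le_one _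
          · exact Real.abs_sin_le_one _
      _ ≤ 4 * ε := by linarith
  have hβu : β ∈ uIcc (b (-(9 * ε))) (b (9 * ε)) := by
    have hz : |(0 : ℝ)| ≤ 9 * ε := by rw [abs_zero]; exact hε9.le
    rcases le_abs.1 (hfabs 0 hz) with h0 | h0
    · have h1 := (hsign ξ hξ9).1 (by linarith)
      have h2 := (hsign η hη9).1 (by linarith)
      refine mem_uIcc.2 (Or.inl ⟨?_, ?_⟩)
      · rw [hb2]; nlinarith [neg_abs_le β]
      · rw [hb1]; nlinarith [le_abs_self β]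
    · have h1 := (hsign ξ hξ9).2 (by linarith)
      have h2 := (hsign η hη9).2 (by linarith)
      refine mem_uIcc.2 (Or.inr ⟨?_, ?_⟩)
      · rw [hb1]; nlinarith [neg_abs_le β]
      · rw [hb2]; nlinarith [le_abs_self β]
  obtain ⟨s, hs, hbs⟩ := intermediate_value_uIcc (f := b) hbc.continuousOn hβu
  have hs9 : |s| ≤ 9 * ε := by
    rw [uIcc_of_le (by linarith)] at hs
    exact abs_le.2 hs
  refine ⟨s, by linarith, ?_⟩
  -- the two points agree
  set p := (Λ s x).1 with hp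
  have hpq : p.1 = x.1.1 := leaf_q hL x s
  have hbs' : (p.2.1 - x.1.2.1) * Real.cos φ₀ + (p.2.2 - x.1.2.2) * Real.sin φ₀ = β := hbs
  set c : ℝ := -(y.2.1 - p.2.1) * Real.sin φ₀ + (y.2.2 - p.2.2) * Real.cos φ₀ with hc
  have hsc := Real.sin_sq_add_cos_sq φ₀
  have h1 : y.2.1 - p.2.1 = c * (-Real.sin φ₀) := by
    rw [hc]
    linear_combination (-(y.2.1 - p.2.1)) * hsc + Real.cos φ₀ * (hβ.symm.trans hbs'.symm)
  have h2 : y.2.2 - p.2.2 = c * Real.cos φ₀ := by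
    rw [hc]
    linear_combination (-(y.2.2 - p.2.2)) * hsc + Real.sin φ₀ * (hβ.symm.trans hbs'.symm)
  have hyp : y = p + c • ((0, -Real.sin φ₀, Real.cos φ₀) : P × ℝ × ℝ) := by
    refine Prod.ext ?_ (Prod.ext ?_ ?_)
    · show y.1 = p.1 + c • (0 : P)
      rw [smul_zero, add_zero, hyx, hpq]
    · show y.2.1 = p.2.1 + c • (-Real.sin φ₀)
      rw [smul_eq_mul, ← h1]; ring
    · show y.2.2 = p.2.2 + c • Real.cos φ₀
      rw [smul_eq_mul, ← h2]; ring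
  have hc0 : c = 0 := sep_rolle hC (fun z hz => (hball z hz).1) (fun z hz => (hball z hz).2.1)
    (p := p) (hmem s).1 (hstay s hs9) (by rw [← hyp]; exact hy) (by rw [← hyp]; exact hyB)
  rw [hyp, hc0, zero_smul, add_zero]

theorem sep (hL : Leaf N K f κ Λ) : ∃ δ : ℝ, 0 < δ ∧ ∀ x ∈ PS N K, ∀ y ∈ K, y.1 = x.1.1 →
    ‖y - x.1‖ < δ → ∃ s, |s| < 1 ∧ (Λ s x).1 = y := by
  have hR := hL.fam
  obtain ⟨M, hM⟩ := hR.bdd
  choose! ε hε hloc using fun (x₀ : P × ℝ × ℝ) (hx₀ : x₀ ∈ K) => sep_loc hL hx₀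
  set Q : Set (P × ℝ × ℝ) := K ∩ (N ×ˢ (Icc (0 : ℝ) 1 ×ˢ Icc (-M) M)) with hQ
  have hQc : IsCompact Q :=
    IsCompact.inter_left (hR.cptN.prod (isCompact_Icc.prod isCompact_Icc)) hR.closed
  obtain ⟨δ, hδ, H⟩ := lebesgue_number_lemma_of_metric (s := Q)
    (c := fun x₀ : K => Metric.ball (x₀ : P × ℝ × ℝ) (ε x₀)) hQc (fun _ => Metric.isOpen_ball)
    (fun z hz => mem_iUnion.2 ⟨⟨z, hz.1⟩, Metric.mem_ball_self (hε z hz.1)⟩)
  refine ⟨δ, hδ, ?_⟩
  rintro x hx y hy hyx hyδ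
  set k : ℤ := -⌊x.1.2.1⌋ with hk
  have hx' : shf k 0 x ∈ PS N K := PS_shf hR hx k 0
  have hy' : shp k y ∈ K := (mem_shp hR k y).2 hy
  have hQx : shp k x.1 ∈ Q := by
    have hxK : shp k x.1 ∈ K := (mem_shp hR k x.1).2 hx.1
    refine ⟨hxK, hR.base _ hxK, ?_, abs_le.1 (hM _ hxK)⟩
    have h1 := Int.floor_le x.1.2.1
    have h2 := (Int.lt_floor_add_one x.1.2.1).le
    show x.1.2.1 + ((k : ℤ) : ℝ) ∈ Icc (0 : ℝ) 1
    rw [hk]
    push_cast
    exact ⟨by linarith, by linarith⟩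
  obtain ⟨⟨x₀, hx₀⟩, hsub⟩ := H _ hQx
  have h1 : shp k x.1 ∈ Metric.ball x₀ (ε x₀) := hsub (Metric.mem_ball_self hδ)
  have h2 : shp k y ∈ Metric.ball x₀ (ε x₀) := by
    refine hsub ?_
    rw [mem_ball_iff_norm]
    have : shp k y - shp k x.1 = y - x.1 := by
      refine Prod.ext rfl (Prod.ext ?_ rfl)
      show y.2.1 + (k : ℝ) - (x.1.2.1 + (k : ℝ)) = y.2.1 - x.1.2.1
      ring
    rw [this]
    exact hyδ
  rw [mem_ball_iff_norm] at h1 h2
  obtain ⟨s, hs, hse⟩ := hloc x₀ hx₀ _ hx' _ hy' hyx h1 h2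
  refine ⟨s, hs, ?_⟩
  rw [leaf_shf hL hx k Even.zero s] at hse
  have h3 : shp k (Λ s x).1 = shp k y := hse
  have h4 := congrArg (shp (-k)) h3
  rw [shp_shp, shp_shp, neg_add_cancel, shp_zero, shp_zero] at h4
  exact h4

end Pool.Agent.H57.CR
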