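import Pool.Agent.H57.CR.GDefs

/-!
# Operations on smooth maps defined on subsets
-/

set_option autoImplicit false
set_option linter.unusedSectionVars false

open scoped ContDiff Topology RealInnerProductSpace
open Set

namespace Pool.Agent.H57.CR

open Pool.Agent.H57.NL

section

variable {V V₁ V₂ V₃ : Type*} [NormedAddCommGroup V] [NormedSpace ℝ V] [NormedAddCommGroup V₁]
  [NormedSpace ℝ V₁] [NormedAddCommGroup V₂] [NormedSpace ℝ V₂] [NormedAddCommGroup V₃]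
  [NormedSpace ℝ V₃] {S : Set V}

theorem smOn_of_contDiffOn {O : Set V} (hO : IsOpen O) (hS : S ⊆ O) {g : V → V₁}
    (hg : ContDiffOn ℝ ∞ g O) : SmoothOn S g :=
  fun _ hx => ⟨g, O, hO, hS hx, hg, fun _ _ => rfl⟩

theorem smOn_of_contDiff {g : V → V₁} (hg : ContDiff ℝ ∞ g) : SmoothOn S g :=
  smOn_of_contDiffOn isOpen_univ (subset_univ _) hg.contDiffOn

theorem sm_mono {T : Set V} {g : V → V₁} (hg : SmoothOn S g) (h : T ⊆ S) :
    SmoothOn T g := by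
  intro x hx
  obtain ⟨G, O, h1, h2, h3, h4⟩ := hg x (h hx)
  exact ⟨G, O, h1, h2, h3, fun y hy => h4 y ⟨hy.1, h hy.2⟩⟩

theorem sm_congr {g g' : V → V₁} (hg : SmoothOn S g) (h : ∀ x ∈ S, g' x = g x) :
    SmoothOn S g' := by
  intro x hx
  obtain ⟨G, O, h1, h2, h3, h4⟩ := hg x hx
  exact ⟨G, O, h1, h2, h3, fun y hy => (h y hy.2).trans (h4 y hy)⟩

/-- a smooth map on `S` followed by a smooth map on `T` -/
theorem sm_comp {T : Set V₁} {g : V → V₁} {h : V₁ → V₂} (hg : SmoothOn S g)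
    (hh : SmoothOn T h) (hST : ∀ x ∈ S, g x ∈ T) : SmoothOn S (fun x => h (g x)) := by
  intro x hx
  obtain ⟨G₁, O₁, hO₁, hx₁, hG₁, he₁⟩ := hg x hx
  obtain ⟨G₂, O₂, hO₂, hx₂, hG₂, he₂⟩ := hh (g x) (hST x hx)
  have hopen : IsOpen (O₁ ∩ G₁ ⁻¹' O₂) := hG₁.continuousOn.isOpen_inter_preimage hO₁ hO₂
  refine ⟨G₂ ∘ G₁, O₁ ∩ G₁ ⁻¹' O₂, hopen, ⟨hx₁, ?_⟩, ?_, ?_⟩
  · rw [mem_preimage, ← he₁ x ⟨hx₁, hx⟩]
    exact hx₂
  · exact hG₂.comp (hG₁.mono inter_subset_left) fun y hy => hy.2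
  · rintro y ⟨⟨hy1, hy2⟩, hy⟩
    have e1 := he₁ y ⟨hy1, hy⟩
    simp only [Function.comp_apply]
    rw [e1]
    exact he₂ _ ⟨hy2, e1 ▸ hST y hy⟩

theorem sm_prod {g : V → V₁} {h : V → V₂} (hg : SmoothOn S g) (hh : SmoothOn S h) :
    SmoothOn S (fun x => (g x, h x)) := by
  intro x hx
  obtain ⟨G₁, O₁, hO₁, hx₁, hG₁, he₁⟩ := hg x hx
  obtain ⟨G₂, O₂, hO₂, hx₂, hG₂, he₂⟩ := hh x hx
  refine ⟨fun x => (G₁ x, G₂ x), O₁ ∩ O₂, hO₁.inter hO₂, ⟨hx₁, hx₂⟩,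
    (hG₁.mono inter_subset_left).prodMk (hG₂.mono inter_subset_right), ?_⟩
  rintro y ⟨⟨hy1, hy2⟩, hy⟩
  simp only
  rw [he₁ y ⟨hy1, hy⟩, he₂ y ⟨hy2, hy⟩]

/-- a smooth map followed by a globally smooth map -/
theorem sm_map {g : V → V₁} {h : V₁ → V₂} (hh : ContDiff ℝ ∞ h) (hg : SmoothOn S g) :
    SmoothOn S (fun x => h (g x)) :=
  sm_comp hg (smOn_of_contDiff (S := univ) hh) fun _ _ => mem_univ _

theorem sm_fst {g : V → V₁ × V₂} (hg : SmoothOn S g) : SmoothOn S (fun x => (g x).1) :=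
  sm_map contDiff_fst hg

theorem sm_snd {g : V → V₁ × V₂} (hg : SmoothOn S g) : SmoothOn S (fun x => (g x).2) :=
  sm_map contDiff_snd hg

theorem sm_add {g h : V → V₁} (hg : SmoothOn S g) (hh : SmoothOn S h) :
    SmoothOn S (fun x => g x + h x) :=
  sm_map (h := fun y : V₁ × V₁ => y.1 + y.2) (contDiff_fst.add contDiff_snd) (sm_prod hg hh)

theorem sm_sub {g h : V → V₁} (hg : SmoothOn S g) (hh : SmoothOn S h) :
    SmoothOn S (fun x => g x - h x) :=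
  sm_map (h := fun y : V₁ × V₁ => y.1 - y.2) (contDiff_fst.sub contDiff_snd) (sm_prod hg hh)

theorem sm_neg {g : V → V₁} (hg : SmoothOn S g) : SmoothOn S (fun x => -g x) :=
  sm_map (h := fun y : V₁ => -y) contDiff_id.neg hg

theorem sm_smul {g : V → ℝ} {h : V → V₁} (hg : SmoothOn S g) (hh : SmoothOn S h) :
    SmoothOn S (fun x => g x • h x) :=
  sm_map (h := fun y : ℝ × V₁ => y.1 • y.2) (contDiff_fst.smul contDiff_snd) (sm_prod hg hh)

theorem sm_apply {g : V → V₁ →L[ℝ] V₂} {h : V → V₁} (hg : SmoothOn S g)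
    (hh : SmoothOn S h) : SmoothOn S (fun x => g x (h x)) :=
  sm_map (h := fun y : (V₁ →L[ℝ] V₂) × V₁ => y.1 y.2)
    (contDiff_fst.clm_apply contDiff_snd) (sm_prod hg hh)

theorem sm_cont {g : V → V₁} (hg : SmoothOn S g) : ContinuousOn g S := by
  intro x hx
  obtain ⟨G, O, hO, hxO, hG, he⟩ := hg x hx
  have h1 : ContinuousWithinAt G S x :=
    (hG.continuousOn.continuousAt (hO.mem_nhds hxO)).continuousWithinAt
  refine h1.congr_of_eventuallyEq ?_ (he x ⟨hxO, hx⟩)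
  filter_upwards [mem_nhdsWithin_of_mem_nhds (hO.mem_nhds hxO), self_mem_nhdsWithin] with y h2 h3
  exact he y ⟨h2, h3⟩

/-- the local extension of a smooth map, as a differentiable map -/
theorem sm_ext {g : V → V₁} (hg : SmoothOn S g) {x : V} (hx : x ∈ S) :
    ∃ G : V → V₁, G x = g x ∧ (∀ᶠ y in 𝓝 x, ContDiffAt ℝ ∞ G y) ∧ ∀ᶠ y in 𝓝 x, y ∈ S → g y = G y := by
  obtain ⟨G, O, hO, hxO, hG, he⟩ := hg x hx
  refine ⟨G, (he x ⟨hxO, hx⟩).symm, ?_, ?_⟩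
  · filter_upwards [hO.mem_nhds hxO] with y hy
    exact hG.contDiffAt (hO.mem_nhds hy)
  · filter_upwards [hO.mem_nhds hxO] with y hy hyS
    exact he y ⟨hy, hyS⟩

/-- the image of a curve in `S` under a smooth map has a velocity -/
theorem sm_deriv {g : V → V₁} (hg : SmoothOn S g) {x : V} (hx : x ∈ S) :
    ∃ D : V →L[ℝ] V₁, ∀ γ : ℝ → V, γ 0 = x → (∀ᶠ s in 𝓝 (0 : ℝ), γ s ∈ S) → ∀ v : V,
      HasDerivAt γ v 0 → HasDerivAt (g ∘ γ) (D v) 0 := by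
  obtain ⟨G, h1, h2, h3⟩ := sm_ext hg hx
  refine ⟨fderiv ℝ G x, fun γ h0 hS v hv => ?_⟩
  have h4 : HasFDerivAt G (fderiv ℝ G x) (γ 0) := by
    rw [h0]
    exact (h2.self_of_nhds.differentiableAt (by simp)).hasFDerivAt
  have h5 := h4.comp_hasDerivAt (0 : ℝ) hv
  refine h5.congr_of_eventuallyEq ?_
  have h6 : Filter.Tendsto γ (𝓝 0) (𝓝 x) := by
    rw [← h0]
    exact hv.continuousAt.tendsto
  filter_upwards [h6.eventually h3, hS] with s h7 h8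
  exact h7 h8

end

end Pool.Agent.H57.CR
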