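import Pool.Agent.H57.CR.Main

/-!
# Linear Killing fields
-/

set_option autoImplicit false

open scoped ContDiff Topology RealInnerProductSpace

namespace Pool.Agent.H57.CR

open Pool.Agent.H57.NL

variable {m : ℕ}

/-- The one parameter group `exp (t A)` generated by `A`. -/
noncomputable def grp (A : E m →L[ℝ] E m) (t : ℝ) : E m →L[ℝ] E m := NormedSpace.exp (t • A)

/-- `A` is skew. -/
def Skew (A : E m →L[ℝ] E m) : Prop := ∀ p q : E m, ⟪A p, q⟫ = -⟪p, A q⟫

/-- The rotations `exp (t A)` preserve `N`: then `q ↦ A q` is a Killing field of `N`. -/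
def Preserves (A : E m →L[ℝ] E m) (N : Set (E m)) : Prop := ∀ t : ℝ, ∀ q ∈ N, grp A t q ∈ N

/-- The zero section. -/
def zeroSec (N : Set (E m)) : Set (E m × E m) := {z | z.1 ∈ N ∧ z.2 = 0}

end Pool.Agent.H57.CR
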