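import Pool.Agent.H57.CR.SDefs
import Pool.Agent.H57.CR.RotG

/-!
# The straightening map is a bijection of the cotangent bundle (module StrA)

Write `y = sg A z = (q, r)`, `r = ⟪p, A q⟫`, `z = (q, p) ∈ TN N`. `YD.id` with `(α, β) = (1, 0)`: `r + fderiv a y (A q, 0) = ρ y * (1 + fderiv b y (A q, 0))`; by `gr_inner` (`A q ∈ Tan N q`, `circ_tan`) this is
`r + ⟪gr Pr a y, A q⟫ = ρ y + ρ y * ⟪gr Pr b y, A q⟫` (*).

PROOFS.
* `sF_sg`: `⟪R (b y) (p + gr a y - ρ y • gr b y), A (R (b y) q)⟫ = ⟪p + gr a y - ρ y • gr b y, A q⟫ = ρ y` (`comm`, `inner`, (*)).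
* `sF_maps`: `p + gr a y - ρ y • gr b y ∈ Tan N q` (`tan_add`, `tan_sub`, `Tan.smul`, `gr_mem`), then `circ_map`.
* `sF_left`: by `sF_sg` and `J1`: `J (sg A (sF z)) = y`; `circ_neg`.
* `sF'_sg`: for `z' = (Q, P) ∈ TN N`, `y' = sg A z'`, `y = J y'`: by `J2`, `y.1 ∈ N`, `R (b y) y.1 = Q`, `ρ y = y'.2 = ⟪P, A Q⟫`. `⟪R (-b y) P, A y.1⟫ = ⟪P, R (b y) (A y.1)⟫ = ⟪P, A Q⟫ = ρ y` (`inner` with `t = b y`, `R (b y) (R (-b y) P) = P`), so by (*) at `y`: `⟪(sF' z').2, A y.1⟫ = ρ y - ⟪gr a y, A y.1⟫ + ρ y * ⟪gr b y, A y.1⟫ = y.2`.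
* `sF'_maps`, `sF_right`: from this.
-/

set_option autoImplicit false
set_option linter.unusedSectionVars false

open scoped ContDiff Topology RealInnerProductSpace
open Set

namespace Pool.Agent.H57.CR

open Pool.Agent.H57.NL
open Pool.Agent.H2.TG (IsFlow)

variable {m n : ℕ} {N : Set (E m)} {A : E m →L[ℝ] E m} {R : ℝ → E m →L[ℝ] E m}
  {C : Set (E m × ℝ)} {O : Set (E m)} {b a ρ : E m × ℝ → ℝ} {J : E m × ℝ → E m × ℝ}
  {h : E m → E m × ℝ} {Pr : E m → E m →L[ℝ] E m}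

private theorem StrA_star (hR : Circ N A R) (hY : YD N A R C O b a ρ J h) (hP : IsProj N Pr)
    {y : E m × ℝ} (hy : y.1 ∈ N) :
    y.2 + ⟪gr Pr a y, A y.1⟫ = ρ y + ρ y * ⟪gr Pr b y, A y.1⟫ := by
  have h1 := hY.id y hy 1 0
  rw [gr_inner hP hy (circ_tan hR hy), gr_inner hP hy (circ_tan hR hy)]
  rw [one_smul] at h1
  linarith

private theorem StrA_neg' (hR : Circ N A R) (t : ℝ) (q : E m) : R t (R (-t) q) = q := by
  rw [← hR.add, add_neg_cancel, hR.zero]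

theorem sF_sg (hR : Circ N A R) (hY : YD N A R C O b a ρ J h) (hP : IsProj N Pr) {z : E m × E m}
    (hz : z ∈ TN N) :
    sg A (sF A R Pr b a ρ z) = (R (b (sg A z)) z.1, ρ (sg A z)) := by
  have hy : (sg A z).1 ∈ N := hz.1
  have h1 := StrA_star hR hY hP hy
  have h2 : (sg A z).2 = ⟪z.2, A z.1⟫ := rfl
  have h3 : (sg A z).1 = z.1 := rfl
  rw [h2, h3] at h1
  refine Prod.ext rfl ?_
  change ⟪R (b (sg A z)) (z.2 + gr Pr a (sg A z) - ρ (sg A z) • gr Pr b (sg A z)),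
    A (R (b (sg A z)) z.1)⟫ = ρ (sg A z)
  rw [hR.comm, hR.inner, inner_sub_left, inner_add_left, real_inner_smul_left]
  linarith

private theorem StrA_tan (hN : IsSubmfd n N) (hP : IsProj N Pr) {y : E m × ℝ} (hy : y.1 ∈ N)
    {w : E m} (hw : w ∈ Tan N y.1) (f g : E m × ℝ → ℝ) (c : ℝ) :
    w + gr Pr f y - c • gr Pr g y ∈ Tan N y.1 ∧ w - gr Pr f y + c • gr Pr g y ∈ Tan N y.1 := by
  have h1 := gr_mem hP f hy
  have h2 := Tan.smul (gr_mem hP g hy) c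
  exact ⟨hN.tan_sub hy (hN.tan_add hy hw h1) h2, hN.tan_add hy (hN.tan_sub hy hw h1) h2⟩

theorem sF_maps (hN : IsSubmfd n N) (hR : Circ N A R) (hY : YD N A R C O b a ρ J h)
    (hP : IsProj N Pr) {z : E m × E m} (hz : z ∈ TN N) : sF A R Pr b a ρ z ∈ TN N := by
  have hy : (sg A z).1 ∈ N := hz.1
  exact ⟨hR.maps _ _ hz.1, circ_map hR _ (StrA_tan hN hP hy hz.2 a b _).1⟩

theorem sF_left (hR : Circ N A R) (hY : YD N A R C O b a ρ J h) (hP : IsProj N Pr)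
    {z : E m × E m} (hz : z ∈ TN N) : sF' A R Pr b a ρ J (sF A R Pr b a ρ z) = z := by
  have hy : (sg A z).1 ∈ N := hz.1
  have h1 : J (sg A (sF A R Pr b a ρ z)) = sg A z := by
    rw [sF_sg hR hY hP hz]
    exact hY.J1 (sg A z) hy
  unfold sF'
  rw [h1]
  refine Prod.ext rfl ?_
  change R (-b (sg A z)) (R (b (sg A z))
    (z.2 + gr Pr a (sg A z) - ρ (sg A z) • gr Pr b (sg A z))) - gr Pr a (sg A z)
    + ρ (sg A z) • gr Pr b (sg A z) = z.2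
  rw [circ_neg hR]
  abel

theorem sF'_sg (hR : Circ N A R) (hY : YD N A R C O b a ρ J h) (hP : IsProj N Pr)
    {z : E m × E m} (hz : z ∈ TN N) :
    sg A (sF' A R Pr b a ρ J z) = J (sg A z) := by
  have hy' : (sg A z).1 ∈ N := hz.1
  obtain ⟨h1, h2, h3⟩ := hY.J2 (sg A z) hy'
  have h2' : R (b (J (sg A z))) (J (sg A z)).1 = z.1 := h2
  have h3' : ρ (J (sg A z)) = ⟪z.2, A z.1⟫ := h3
  have h4 := StrA_star hR hY hP h1
  refine Prod.ext rfl ?_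
  change ⟪R (-b (J (sg A z))) z.2 - gr Pr a (J (sg A z)) + ρ (J (sg A z)) • gr Pr b (J (sg A z)),
    A (J (sg A z)).1⟫ = (J (sg A z)).2
  have h5 : ⟪R (-b (J (sg A z))) z.2, A (J (sg A z)).1⟫ = ρ (J (sg A z)) := by
    rw [← hR.inner (b (J (sg A z))), StrA_neg' hR, ← hR.comm, h2', h3']
  rw [inner_add_left, inner_sub_left, real_inner_smul_left, h5]
  linarith

theorem sF'_maps (hN : IsSubmfd n N) (hR : Circ N A R) (hY : YD N A R C O b a ρ J h)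
    (hP : IsProj N Pr) {z : E m × E m} (hz : z ∈ TN N) : sF' A R Pr b a ρ J z ∈ TN N := by
  have hy' : (sg A z).1 ∈ N := hz.1
  obtain ⟨h1, h2, -⟩ := hY.J2 (sg A z) hy'
  have h2' : R (b (J (sg A z))) (J (sg A z)).1 = z.1 := h2
  have h3 : R (-b (J (sg A z))) z.2 ∈ Tan N (J (sg A z)).1 := by
    have h4 := circ_map hR (-b (J (sg A z))) hz.2
    rwa [← h2', circ_neg hR] at h4
  exact ⟨h1, (StrA_tan hN hP h1 h3 a b _).2⟩

theorem sF_right (hR : Circ N A R) (hY : YD N A R C O b a ρ J h) (hP : IsProj N Pr)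
    {z : E m × E m} (hz : z ∈ TN N) : sF A R Pr b a ρ (sF' A R Pr b a ρ J z) = z := by
  have hy' : (sg A z).1 ∈ N := hz.1
  obtain ⟨h1, h2, -⟩ := hY.J2 (sg A z) hy'
  have h2' : R (b (J (sg A z))) (J (sg A z)).1 = z.1 := h2
  unfold sF
  rw [sF'_sg hR hY hP hz]
  refine Prod.ext h2' ?_
  change R (b (J (sg A z))) (R (-b (J (sg A z))) z.2 - gr Pr a (J (sg A z))
    + ρ (J (sg A z)) • gr Pr b (J (sg A z)) + gr Pr a (J (sg A z))
    - ρ (J (sg A z)) • gr Pr b (J (sg A z))) = z.2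
  have h5 : R (-b (J (sg A z))) z.2 - gr Pr a (J (sg A z))
    + ρ (J (sg A z)) • gr Pr b (J (sg A z)) + gr Pr a (J (sg A z))
    - ρ (J (sg A z)) • gr Pr b (J (sg A z)) = R (-b (J (sg A z))) z.2 := by abel
  rw [h5, StrA_neg' hR]

end Pool.Agent.H57.CR
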