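import Pool.Agent.H57.CR.SmOn
import Pool.Agent.H57.NL.Slice

/-!
# Local parametrizations of the cotangent bundle of `N` (module TNp)

PROOFS. `q₀ = z.1 ∈ N`, slice chart `e`, subspace `W` (`hN.slice`), `π : E m →L[ℝ] W` the orthogonal projection onto `W` (`W.orthogonalProjection` / `W.orthogonalProjectionOnto`; `π w = w` for `w ∈ W`).
* `exists_tpar`: `Φ (a, c) = (e.symm (e q₀ + a), fderiv ℝ e.symm (e q₀ + a) c)`, `Ξ (q, p) = (π (e q - e q₀), π (fderiv ℝ e q p))`, so `Ξ z = (0, π (De(q₀) p₀))`. `sΦ, sΞ`: `Slice.cd, cd'`, `ContDiffAt.fderiv_right`, `clm_apply`, on the open sets `e q₀ + a ∈ e.target`, `q ∈ e.source`.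
  `mΦ`: for `y = e q₀ + a ∈ e.target`: `y ∈ W` (`e q₀ ∈ W`), `q = e.symm y ∈ N` by `Slice.iff`, `De(q) (De.symm(y) c) = c ∈ W` (`Slice.right`), so `De.symm(y) c ∈ Tan N q` (`mem_tan`). `ΦΞ`: for `y ∈ TN N` near `z`: `e y.1 ∈ W`, `De(y.1) y.2 ∈ W` (`mem_tan`), `Slice.left`.
  `ΞΦ`: `Slice.right`, `e.right_inv`.
* `TPar.tan`: along a curve `γ` in `TN N` with velocity `v`: `γ s = Φ (Ξ (γ s))` near `0`. `TPar.mem_tan`: the curve `s ↦ Φ (Ξ z + s • x)`, `Φ (Ξ z) = z`. `tanTN_add`: from the two (linearity of `fderiv Φ`). `tanTN_fst`: first component of the curve.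
* `push_unique`: take a curve of velocity `v`, uniqueness of the derivative. `push_tan`: the image curve. `exists_push`: `sm_deriv`.
-/

set_option autoImplicit false
set_option linter.unusedSectionVars false

open scoped ContDiff Topology RealInnerProductSpace
open Set

namespace Pool.Agent.H57.CR

open Pool.Agent.H57.NL
open Pool.Agent.H2.TG (IsFlow)

variable {m n : ℕ} {N : Set (E m)}

/-- A local parametrization `Φ` of `TN N` near `z`, with inverse the restriction of `Ξ`. -/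
structure TPar (N : Set (E m)) (z : E m × E m) (W : Submodule ℝ (E m)) (Φ : W × W → E m × E m)
    (Ξ : E m × E m → W × W) : Prop where
  sΦ : ∀ᶠ x in 𝓝 (Ξ z), ContDiffAt ℝ ∞ Φ x
  mΦ : ∀ᶠ x in 𝓝 (Ξ z), Φ x ∈ TN N
  sΞ : ∀ᶠ y in 𝓝 z, ContDiffAt ℝ ∞ Ξ y
  ΦΞ : ∀ᶠ y in 𝓝 z, y ∈ TN N → Φ (Ξ y) = y
  ΞΦ : ∀ᶠ x in 𝓝 (Ξ z), Ξ (Φ x) = x

theorem exists_tpar (hN : IsSubmfd n N) {z : E m × E m} (hz : z ∈ TN N) :
    ∃ (W : Submodule ℝ (E m)) (Φ : W × W → E m × E m) (Ξ : E m × E m → W × W),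
      TPar N z W Φ Ξ := by
  obtain ⟨e, W, hqe, hs⟩ := hN.slice hz.1
  let π : E m →L[ℝ] W := W.orthogonalProjectionOnto
  have hπ : ∀ x : W, π (x : E m) = x := fun x =>
    Submodule.orthogonalProjectionOnto_mem_subspace_eq_self (K := W) x
  have hπ' : ∀ x : E m, x ∈ W → (π x : E m) = x := fun x hx =>
    congrArg Subtype.val (hπ ⟨x, hx⟩)
  have hq0 : e z.1 ∈ W := (hs.iff _ hqe).1 hz.1
  let Φ : W × W → E m × E m := fun x =>
    (e.symm (e z.1 + (x.1 : E m)), fderiv ℝ e.symm (e z.1 + (x.1 : E m)) (x.2 : E m))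
  let Ξ : E m × E m → W × W := fun y => (π (e y.1 - e z.1), π (fderiv ℝ e y.1 y.2))
  have hΞ1 : (Ξ z).1 = 0 := by
    show π (e z.1 - e z.1) = 0
    rw [sub_self, map_zero]
  have hc1 : Continuous fun x : W × W => e z.1 + (x.1 : E m) := by fun_prop
  have hO : ∀ᶠ x in 𝓝 (Ξ z), e z.1 + ((x : W × W).1 : E m) ∈ e.target := by
    have h1 : IsOpen {x : W × W | e z.1 + (x.1 : E m) ∈ e.target} := e.open_target.preimage hc1
    refine h1.mem_nhds ?_
    show e z.1 + ((Ξ z).1 : E m) ∈ e.target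
    rw [hΞ1]
    simpa using e.map_source hqe
  have hS : ∀ᶠ y in 𝓝 z, (y : E m × E m).1 ∈ e.source :=
    (e.open_source.preimage continuous_fst).mem_nhds hqe
  refine ⟨W, Φ, Ξ, ⟨?_, ?_, ?_, ?_, ?_⟩⟩
  · filter_upwards [hO] with x hx
    have h3 : ContDiffAt ℝ ∞ (fun x : W × W => e z.1 + (x.1 : E m)) x :=
      (contDiff_const.add (W.subtypeL.contDiff.comp contDiff_fst)).contDiffAt
    have h4 : ContDiffAt ℝ ∞ (fun x : W × W => e.symm (e z.1 + (x.1 : E m))) x :=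
      ContDiffAt.comp x (f := fun x : W × W => e z.1 + (x.1 : E m)) (hs.cd' hx) h3
    have h5 : ContDiffAt ℝ ∞ (fderiv ℝ e.symm) (e z.1 + (x.1 : E m)) :=
      (hs.cd' hx).fderiv_right (m := ∞) (by simp)
    have h6 : ContDiffAt ℝ ∞ (fun x : W × W => fderiv ℝ e.symm (e z.1 + (x.1 : E m))) x :=
      ContDiffAt.comp x (f := fun x : W × W => e z.1 + (x.1 : E m)) h5 h3
    have h7 : ContDiffAt ℝ ∞ (fun x : W × W => (x.2 : E m)) x :=
      (W.subtypeL.contDiff.comp contDiff_snd).contDiffAt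
    exact h4.prodMk (h6.clm_apply h7)
  · filter_upwards [hO] with x hx
    have hq : e.symm (e z.1 + (x.1 : E m)) ∈ e.source := e.map_target hx
    have hy : e (e.symm (e z.1 + (x.1 : E m))) = e z.1 + (x.1 : E m) := e.right_inv hx
    have hN1 : e.symm (e z.1 + (x.1 : E m)) ∈ N := by
      rw [hs.iff _ hq, hy]
      exact W.add_mem hq0 x.1.2
    refine ⟨hN1, ?_⟩
    rw [hs.mem_tan hq hN1]
    have h := hs.right hq (x.2 : E m)
    rw [hy] at h
    rw [h]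
    exact x.2.2
  · filter_upwards [hS] with y hy
    have h1 : ContDiffAt ℝ ∞ (fun y : E m × E m => e y.1) y :=
      ContDiffAt.comp y (f := fun y : E m × E m => y.1) (hs.cd hy) contDiffAt_fst
    have h2 : ContDiffAt ℝ ∞ (fun y : E m × E m => fderiv ℝ e y.1) y :=
      ContDiffAt.comp y (f := fun y : E m × E m => y.1)
        ((hs.cd hy).fderiv_right (m := ∞) (by simp)) contDiffAt_fst
    exact (π.contDiff.contDiffAt.comp y (h1.sub contDiffAt_const)).prodMk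
      (π.contDiff.contDiffAt.comp y (h2.clm_apply contDiffAt_snd))
  · filter_upwards [hS] with y hy hyN
    have h1 : e y.1 ∈ W := (hs.iff _ hy).1 hyN.1
    have h2 : fderiv ℝ e y.1 y.2 ∈ W := (hs.mem_tan hy hyN.1 _).1 hyN.2
    have h3 : e z.1 + (π (e y.1 - e z.1) : E m) = e y.1 := by
      rw [hπ' _ (W.sub_mem h1 hq0)]
      abel
    show (e.symm (e z.1 + (π (e y.1 - e z.1) : E m)),
      fderiv ℝ e.symm (e z.1 + (π (e y.1 - e z.1) : E m)) (π (fderiv ℝ e y.1 y.2) : E m)) = y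
    rw [h3, hπ' _ h2, e.left_inv hy, hs.left hy]
  · filter_upwards [hO] with x hx
    have hq : e.symm (e z.1 + (x.1 : E m)) ∈ e.source := e.map_target hx
    have hy : e (e.symm (e z.1 + (x.1 : E m))) = e z.1 + (x.1 : E m) := e.right_inv hx
    have h := hs.right hq (x.2 : E m)
    rw [hy] at h
    show (π (e (e.symm (e z.1 + (x.1 : E m))) - e z.1),
      π (fderiv ℝ e (e.symm (e z.1 + (x.1 : E m)))
        (fderiv ℝ e.symm (e z.1 + (x.1 : E m)) (x.2 : E m)))) = x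
    rw [h, hy, add_sub_cancel_left, hπ, hπ]

theorem TPar.tan {z : E m × E m} {W : Submodule ℝ (E m)} {Φ : W × W → E m × E m}
    {Ξ : E m × E m → W × W} (h : TPar N z W Φ Ξ) (hz : z ∈ TN N) {v : E m × E m}
    (hv : v ∈ Tan (TN N) z) : fderiv ℝ Φ (Ξ z) (fderiv ℝ Ξ z v) = v := by
  obtain ⟨γ, h0, h1, h2⟩ := hv
  have hΞ : HasFDerivAt Ξ (fderiv ℝ Ξ z) (γ 0) := by
    rw [h0]
    exact (h.sΞ.self_of_nhds.differentiableAt (by simp)).hasFDerivAt
  have hΦ : HasFDerivAt Φ (fderiv ℝ Φ (Ξ z)) ((Ξ ∘ γ) 0) := by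
    show HasFDerivAt Φ (fderiv ℝ Φ (Ξ z)) (Ξ (γ 0))
    rw [h0]
    exact (h.sΦ.self_of_nhds.differentiableAt (by simp)).hasFDerivAt
  have h3 := hΦ.comp_hasDerivAt (0 : ℝ) (hΞ.comp_hasDerivAt (0 : ℝ) h2)
  have h4 : Filter.Tendsto γ (𝓝 0) (𝓝 z) := by
    rw [← h0]
    exact h2.continuousAt.tendsto
  have h5 : γ =ᶠ[𝓝 0] (Φ ∘ (Ξ ∘ γ)) := by
    filter_upwards [h4.eventually h.ΦΞ, h1] with s h6 h7
    exact (h6 h7).symm
  exact (h3.congr_of_eventuallyEq h5).unique h2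

theorem TPar.mem_tan {z : E m × E m} {W : Submodule ℝ (E m)} {Φ : W × W → E m × E m}
    {Ξ : E m × E m → W × W} (h : TPar N z W Φ Ξ) (hz : z ∈ TN N) (x : W × W) :
    fderiv ℝ Φ (Ξ z) x ∈ Tan (TN N) z := by
  have hl : HasDerivAt (fun s : ℝ => Ξ z + s • x) x 0 := by
    have := ((hasDerivAt_id (0 : ℝ)).smul_const x).const_add (Ξ z)
    simpa using this
  have h0 : Ξ z + (0 : ℝ) • x = Ξ z := by rw [zero_smul, add_zero]
  have ht : Filter.Tendsto (fun s : ℝ => Ξ z + s • x) (𝓝 0) (𝓝 (Ξ z)) := by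
    have := hl.continuousAt.tendsto
    rwa [h0] at this
  refine ⟨fun s => Φ (Ξ z + s • x), ?_, ht.eventually h.mΦ, ?_⟩
  · show Φ (Ξ z + (0 : ℝ) • x) = z
    rw [h0]
    exact h.ΦΞ.self_of_nhds hz
  · have hΦ : HasFDerivAt Φ (fderiv ℝ Φ (Ξ z)) (Ξ z + (0 : ℝ) • x) := by
      rw [h0]
      exact (h.sΦ.self_of_nhds.differentiableAt (by simp)).hasFDerivAt
    exact hΦ.comp_hasDerivAt (0 : ℝ) hl

theorem tanTN_add (hN : IsSubmfd n N) {z v w : E m × E m} (hz : z ∈ TN N)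
    (hv : v ∈ Tan (TN N) z) (hw : w ∈ Tan (TN N) z) : v + w ∈ Tan (TN N) z := by
  obtain ⟨W, Φ, Ξ, h⟩ := exists_tpar hN hz
  have h1 := h.mem_tan hz (fderiv ℝ Ξ z v + fderiv ℝ Ξ z w)
  rwa [map_add, h.tan hz hv, h.tan hz hw] at h1

theorem tanTN_fst {z v : E m × E m} (hv : v ∈ Tan (TN N) z) : v.1 ∈ Tan N z.1 := by
  obtain ⟨γ, h0, h1, h2⟩ := hv
  refine ⟨fun s => (γ s).1, by simp only [h0], h1.mono fun s hs => hs.1, ?_⟩
  exact (ContinuousLinearMap.fst ℝ (E m) (E m)).hasFDerivAt.comp_hasDerivAt (0 : ℝ) h2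

theorem push_unique {T : Set (E m × E m)} {ψ : E m × E m → E m × E m} {z v v' v'' : E m × E m}
    (hv : v ∈ Tan T z) (h : Push T ψ z v v') (h' : Push T ψ z v v'') : v' = v'' := by
  obtain ⟨γ, h0, h1, h2⟩ := hv
  exact (h γ h0 h1 h2).unique (h' γ h0 h1 h2)

theorem push_tan {T T' : Set (E m × E m)} {ψ : E m × E m → E m × E m} {z v v' : E m × E m}
    (hv : v ∈ Tan T z) (hT : ∀ y ∈ T, ψ y ∈ T') (h : Push T ψ z v v') :
    v' ∈ Tan T' (ψ z) := by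
  obtain ⟨γ, h0, h1, h2⟩ := hv
  refine ⟨ψ ∘ γ, ?_, h1.mono fun s hs => hT _ hs, h γ h0 h1 h2⟩
  show ψ (γ 0) = ψ z
  rw [h0]

theorem exists_push {T : Set (E m × E m)} {ψ : E m × E m → E m × E m} (hψ : SmoothOn T ψ)
    {z : E m × E m} (hz : z ∈ T) : ∃ D : (E m × E m) →L[ℝ] (E m × E m),
      ∀ v, Push T ψ z v (D v) := by
  obtain ⟨D, hD⟩ := sm_deriv hψ hz
  exact ⟨D, fun v γ h0 h1 h2 => hD γ h0 h1 v h2⟩

end Pool.Agent.H57.CR
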