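import Pool.Agent.H57.CR.OneB
import Pool.Agent.H57.CR.Pers
import Pool.Agent.H57.CR.Rot

/-!
# The phases at the top and bottom points: total rotation zero (module TopB)

`t(s) = (Λ s x).1.2.1`, `r(s) = (Λ s x).1.2.2`, `φ(s) = (Λ s x).2`.

PROOFS.
* `exists_top`: `r` is continuous and periodic (`closes_add`), so it has a maximum `s₀`; every `y ∈ K` over `x.1.1` is `(Λ s x).1` for some `s` (`one_K`),
  so `(Λ s₀ x).1 ∈ Top K`. `exists_btm`: minimum.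
* `sin_ext`: at `(Λ s x).1 ∈ Top K ∪ Btm K` the function `r` has a global maximum or minimum at `s` (`leaf_mem`, `leaf_q`), derivative `sin φ(s) = 0`.
* `rot_leaf`: `rot` for `α = t`, `ρ = r`, `φ` on `[0, c]`, `0 < c ≤ T`. `hinj`: `hc.inj` for the times `< T`; for `t = T`: `(Λ T x).1 = shp m x.1`, equal to
  `(Λ s x).1` with `0 < s < T` contradicts `hc.inj 0 s` (with `k = m`), and for `s = 0`: `m ≠ 0` (`m_ne`).
* `j_top`: let `x.1 ∈ Top K`, `φ₀ = x.2 = k π` (`sin_ext`). `rot_leaf` with `c = T`: the chord is `(m, 0)`, so `sin θ = 0` and `m cos θ > 0`: `θ = l π`, `l` even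
  if `m = 1`, odd if `m = -1`. `r(s) ≤ r(0) = r(T)` for all `s`.
  - `k` even: (i) with `a = φ₀ - π` (`sin a = 0`, `cos a = -1`): `θ ∈ [φ₀ - π, φ₀]`. If `m = 1`: `θ = φ₀`; (ii) with `b = φ₀` (`cos b = 1`):
    `φ(T) ∈ [φ₀, φ₀ + π]`, `φ(T) = φ₀ + j π`, `j` even: `j = 0`. If `m = -1`: `θ = φ₀ - π`; (ii) with `b = φ₀ - 2 π`: `j π ∈ [-2π, -π]`: `j = -2`.
  - `k` odd: (i) with `a = φ₀` (`cos a = -1`): `θ ∈ [φ₀, φ₀ + π]`. If `m = 1`: `θ = φ₀ + π`, (ii) with `b = φ₀ + π`: `j π ∈ [π, 2π]`: `j = 2`. If `m = -1`: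
    `θ = φ₀`, (ii) with `b = φ₀ - π`: `j π ∈ [-π, 0]`: `j = 0`.
  So: `j = 0` and `0 < m cos φ₀`, or `j = 2 m`.
* `j_btm`: mirror image (`r(s) ≥ r(0)`): `k` even: (i) `a = φ₀`; `m = 1`: `θ = φ₀`, (ii) `b = φ₀ - π`: `j = 0`; `m = -1`: `θ = φ₀ + π`, (ii) `b = φ₀ + π`: `j = 2`.
  `k` odd: (i) `a = φ₀ - π`; `m = 1`: `θ = φ₀ - π`, (ii) `b = φ₀ - 2π`: `j = -2`; `m = -1`: `θ = φ₀`, (ii) `b = φ₀`: `j = 0`. So `j = 0` and `0 < m cos φ₀`, or `j = -2 m`.
* `T1`: the leaf has a top point and a bottom point (`exists_top`, `exists_btm`, `closes_at`: the same `m`, `j`), `m ≠ 0`: `j = 2 m` and `j = -2 m` are not both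
  possible, and `j = 0` excludes both; so `j = 0` and `0 < m cos φ` at every top and bottom point.
-/

set_option autoImplicit false
set_option linter.unusedSectionVars false

open scoped ContDiff Topology
open Set

namespace Pool.Agent.H57.CR

open Pool.Agent.H2.TG (IsFlow)

variable {P : Type} [NormedAddCommGroup P] [NormedSpace ℝ P] [FiniteDimensional ℝ P] {N : Set P}
  {K : Set (P × ℝ × ℝ)} {f : P × ℝ × ℝ → ℝ} {κ : (P × ℝ × ℝ) × ℝ → ℝ}
  {Λ : ℝ → (P × ℝ × ℝ) × ℝ → (P × ℝ × ℝ) × ℝ}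

private theorem topB_cont (hL : Leaf N K f κ Λ) (x : (P × ℝ × ℝ) × ℝ) :
    Continuous fun s : ℝ => Λ s x :=
  (leaf_cont hL).comp (continuous_id.prodMk continuous_const)

theorem exists_top (hL : Leaf N K f κ Λ) {x : (P × ℝ × ℝ) × ℝ} (hx : x ∈ PS N K) :
    ∃ s, (Λ s x).1 ∈ Top K := by
  obtain ⟨T₀, -, h⟩ := exists_closes hL
  obtain ⟨T, m, j, -, hc⟩ := h x hx
  have hr : Continuous fun s : ℝ => (Λ s x).1.2.2 := (topB_cont hL x).fst.snd.snd
  obtain ⟨s₀, -, hs₀⟩ := isCompact_Icc.exists_isMaxOn (nonempty_Icc.2 hc.pos.le) hr.continuousOn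
  refine ⟨s₀, (leaf_mem hL hx s₀).1, fun y hy hq => ?_⟩
  obtain ⟨s, hs⟩ := one_K hL hx hy (by rw [hq, leaf_q hL])
  obtain ⟨n, s', h0, h1, -, h3⟩ := closes_red hL hx hc s
  have h4 : y.2.2 = (Λ s' x).1.2.2 := by
    rw [← hs, h3]
    rfl
  rw [h4]
  exact hs₀ ⟨h0, h1.le⟩

theorem exists_btm (hL : Leaf N K f κ Λ) {x : (P × ℝ × ℝ) × ℝ} (hx : x ∈ PS N K) :
    ∃ s, (Λ s x).1 ∈ Btm K := by
  obtain ⟨T₀, -, h⟩ := exists_closes hL
  obtain ⟨T, m, j, -, hc⟩ := h x hx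
  have hr : Continuous fun s : ℝ => (Λ s x).1.2.2 := (topB_cont hL x).fst.snd.snd
  obtain ⟨s₀, -, hs₀⟩ := isCompact_Icc.exists_isMinOn (nonempty_Icc.2 hc.pos.le) hr.continuousOn
  refine ⟨s₀, (leaf_mem hL hx s₀).1, fun y hy hq => ?_⟩
  obtain ⟨s, hs⟩ := one_K hL hx hy (by rw [hq, leaf_q hL])
  obtain ⟨n, s', h0, h1, -, h3⟩ := closes_red hL hx hc s
  have h4 : y.2.2 = (Λ s' x).1.2.2 := by
    rw [← hs, h3]
    rfl
  rw [h4]
  exact hs₀ ⟨h0, h1.le⟩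

private theorem top_le (hL : Leaf N K f κ Λ) {x : (P × ℝ × ℝ) × ℝ} (hx : x ∈ PS N K)
    (h : x.1 ∈ Top K) (s : ℝ) : (Λ s x).1.2.2 ≤ x.1.2.2 :=
  h.2 _ (leaf_mem hL hx s).1 (leaf_q hL x s)

private theorem btm_le (hL : Leaf N K f κ Λ) {x : (P × ℝ × ℝ) × ℝ} (hx : x ∈ PS N K)
    (h : x.1 ∈ Btm K) (s : ℝ) : x.1.2.2 ≤ (Λ s x).1.2.2 :=
  h.2 _ (leaf_mem hL hx s).1 (leaf_q hL x s)

theorem sin_ext (hL : Leaf N K f κ Λ) {x : (P × ℝ × ℝ) × ℝ} (hx : x ∈ PS N K)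
    (h : x.1 ∈ Top K ∪ Btm K) : Real.sin x.2 = 0 := by
  have h1 := leaf_r hL x 0
  rcases h with h | h
  · have h2 : IsLocalMax (fun s => (Λ s x).1.2.2) 0 := by
      refine Filter.Eventually.of_forall fun s => ?_
      show (Λ s x).1.2.2 ≤ (Λ 0 x).1.2.2
      rw [hL.flow.zero]
      exact top_le hL hx h s
    have h3 := h2.hasDerivAt_eq_zero h1
    rwa [hL.flow.zero] at h3
  · have h2 : IsLocalMin (fun s => (Λ s x).1.2.2) 0 := by
      refine Filter.Eventually.of_forall fun s => ?_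
      show (Λ 0 x).1.2.2 ≤ (Λ s x).1.2.2
      rw [hL.flow.zero]
      exact btm_le hL hx h s
    have h3 := h2.hasDerivAt_eq_zero h1
    rwa [hL.flow.zero] at h3

theorem rot_leaf (hL : Leaf N K f κ Λ) {x : (P × ℝ × ℝ) × ℝ} (hx : x ∈ PS N K) {T : ℝ} {m j : ℤ}
    (hc : Closes Λ x T m j) {c : ℝ} (h0 : 0 < c) (hcT : c ≤ T) :
    ∃ θ : ℝ, (∃ d : ℝ, 0 < d ∧ (Λ c x).1.2.1 - x.1.2.1 = d * Real.cos θ ∧
        (Λ c x).1.2.2 - x.1.2.2 = d * Real.sin θ) ∧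
      (∀ a : ℝ, a ≤ x.2 → x.2 ≤ a + Real.pi →
        (∀ s, 0 < s → s ≤ c → 0 ≤ -Real.sin a * ((Λ s x).1.2.1 - x.1.2.1) +
          Real.cos a * ((Λ s x).1.2.2 - x.1.2.2)) → a ≤ θ ∧ θ ≤ a + Real.pi) ∧
      (∀ b : ℝ, b ≤ θ → θ ≤ b + Real.pi →
        (∀ s, 0 ≤ s → s < c → 0 ≤ -Real.sin b * ((Λ c x).1.2.1 - (Λ s x).1.2.1) +
          Real.cos b * ((Λ c x).1.2.2 - (Λ s x).1.2.2)) →
          b ≤ (Λ c x).2 ∧ (Λ c x).2 ≤ b + Real.pi) := by
  have hφ : Continuous fun s : ℝ => (Λ s x).2 := (topB_cont hL x).snd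
  have h := rot (α := fun s => (Λ s x).1.2.1) (ρ := fun s => (Λ s x).1.2.2)
    (φ := fun s => (Λ s x).2) h0 hφ (fun s => leaf_t hL x s) (fun s => leaf_r hL x s)
    (fun s t hs hst htc heq => by
      have e1 : (Λ t x).1 = (Λ s x).1 := by
        obtain ⟨ha, hb⟩ := Prod.mk.inj heq
        refine Prod.ext ?_ (Prod.ext ha.symm hb.symm)
        rw [leaf_q hL, leaf_q hL]
      rcases lt_or_eq_of_le (htc.trans hcT) with htT | htT
      · exact hc.inj s t hs hst htT 0 (by rw [shp_zero, e1])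
      · have e2 : (Λ t x).1 = shp m x.1 := by
          rw [htT, hc.ret]
          rfl
        rcases lt_or_eq_of_le hs with hs0 | hs0
        · refine hc.inj 0 s le_rfl hs0 (lt_of_lt_of_le hst (htc.trans hcT)) m ?_
          rw [hL.flow.zero, ← e1, e2]
        · have e3 : x.1 = shp m x.1 := by
            rw [← e2, e1, ← hs0, hL.flow.zero]
          have e4 := congrArg (fun z : P × ℝ × ℝ => z.2.1) e3
          have e5 : (m : ℝ) = 0 := by
            simp only [shp] at e4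
            linarith
          exact m_ne hL hx hc (by exact_mod_cast e5))
  simp only [hL.flow.zero] at h
  exact h

private theorem top_comb {k l j m : ℤ} (hm : m = 1 ∨ m = -1) (hj : Even j) (hl : Even l ↔ m = 1)
    (P1 : ∀ i : ℤ, Odd i → i ≤ k → k ≤ i + 1 → i ≤ l ∧ l ≤ i + 1)
    (P2 : ∀ i : ℤ, Even i → i ≤ l → l ≤ i + 1 → i ≤ k + j ∧ k + j ≤ i + 1) :
    (j = 0 ∧ (Even k ↔ m = 1)) ∨ j = 2 * m := by
  obtain ⟨j', hj'⟩ := hj
  rcases Int.even_or_odd k with hk | hk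
  · obtain ⟨k', hk'⟩ := hk
    have h1 := P1 (k - 1) ⟨k' - 1, by omega⟩ (by omega) (by omega)
    rcases hm with hm | hm
    · obtain ⟨l', hl'⟩ := hl.2 hm
      have h2 := P2 k ⟨k', hk'⟩ (by omega) (by omega)
      exact Or.inl ⟨by omega, ⟨fun _ => hm, fun _ => ⟨k', hk'⟩⟩⟩
    · have hlo : ¬ Even l := fun h => by have := hl.1 h; omega
      obtain ⟨l', hl'⟩ := Int.not_even_iff_odd.1 hlo
      have h2 := P2 (k - 2) ⟨k' - 1, by omega⟩ (by omega) (by omega)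
      exact Or.inr (by omega)
  · obtain ⟨k', hk'⟩ := hk
    have hko : ¬ Even k := Int.not_even_iff_odd.2 ⟨k', hk'⟩
    have h1 := P1 k ⟨k', hk'⟩ (by omega) (by omega)
    rcases hm with hm | hm
    · obtain ⟨l', hl'⟩ := hl.2 hm
      have h2 := P2 (k + 1) ⟨k' + 1, by omega⟩ (by omega) (by omega)
      exact Or.inr (by omega)
    · have hlo : ¬ Even l := fun h => by have := hl.1 h; omega
      obtain ⟨l', hl'⟩ := Int.not_even_iff_odd.1 hlo
      have h2 := P2 (k - 1) ⟨k', by omega⟩ (by omega) (by omega)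
      refine Or.inl ⟨by omega, ⟨fun h => absurd h hko, fun h => ?_⟩⟩
      omega

private theorem btm_comb {k l j m : ℤ} (hm : m = 1 ∨ m = -1) (hj : Even j) (hl : Even l ↔ m = 1)
    (P1 : ∀ i : ℤ, Even i → i ≤ k → k ≤ i + 1 → i ≤ l ∧ l ≤ i + 1)
    (P2 : ∀ i : ℤ, Odd i → i ≤ l → l ≤ i + 1 → i ≤ k + j ∧ k + j ≤ i + 1) :
    (j = 0 ∧ (Even k ↔ m = 1)) ∨ j = -2 * m := by
  obtain ⟨j', hj'⟩ := hj
  rcases Int.even_or_odd k with hk | hk
  · obtain ⟨k', hk'⟩ := hk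
    have h1 := P1 k ⟨k', hk'⟩ (by omega) (by omega)
    rcases hm with hm | hm
    · obtain ⟨l', hl'⟩ := hl.2 hm
      have h2 := P2 (k - 1) ⟨k' - 1, by omega⟩ (by omega) (by omega)
      exact Or.inl ⟨by omega, ⟨fun _ => hm, fun _ => ⟨k', hk'⟩⟩⟩
    · have hlo : ¬ Even l := fun h => by have := hl.1 h; omega
      obtain ⟨l', hl'⟩ := Int.not_even_iff_odd.1 hlo
      have h2 := P2 (k + 1) ⟨k', by omega⟩ (by omega) (by omega)
      exact Or.inr (by omega)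
  · obtain ⟨k', hk'⟩ := hk
    have hko : ¬ Even k := Int.not_even_iff_odd.2 ⟨k', hk'⟩
    have h1 := P1 (k - 1) ⟨k', by omega⟩ (by omega) (by omega)
    rcases hm with hm | hm
    · obtain ⟨l', hl'⟩ := hl.2 hm
      have h2 := P2 (k - 2) ⟨k' - 1, by omega⟩ (by omega) (by omega)
      exact Or.inr (by omega)
    · have hlo : ¬ Even l := fun h => by have := hl.1 h; omega
      obtain ⟨l', hl'⟩ := Int.not_even_iff_odd.1 hlo
      have h2 := P2 k ⟨k', hk'⟩ (by omega) (by omega)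
      refine Or.inl ⟨by omega, ⟨fun h => absurd h hko, fun h => ?_⟩⟩
      omega

private theorem pi_le {i k : ℤ} : (i : ℝ) * Real.pi ≤ k * Real.pi ↔ i ≤ k := by
  rw [mul_le_mul_iff_left₀ Real.pi_pos, Int.cast_le]

private theorem pi_le' {i k : ℤ} : (k : ℝ) * Real.pi ≤ i * Real.pi + Real.pi ↔ k ≤ i + 1 := by
  rw [show (i : ℝ) * Real.pi + Real.pi = ((i + 1 : ℤ) : ℝ) * Real.pi by push_cast; ring, pi_le]

private theorem cos_par {m l : ℤ} (hm : m = 1 ∨ m = -1) :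
    0 < (m : ℝ) * Real.cos (l * Real.pi) ↔ (Even l ↔ m = 1) := by
  rw [Real.cos_int_mul_pi]
  rcases Int.even_or_odd l with hl | hl
  · rw [hl.neg_one_zpow]
    rcases hm with hm | hm
    · subst hm
      simp [hl]
    · subst hm
      simp [hl]
  · have hl' : ¬ Even l := Int.not_even_iff_odd.2 hl
    rw [hl.neg_one_zpow]
    rcases hm with hm | hm
    · subst hm
      simp [hl']
    · subst hm
      simp [hl']

/-- the data of the rotation of a full period, in integers -/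
private theorem rot_int (hL : Leaf N K f κ Λ) {x : (P × ℝ × ℝ) × ℝ} (hx : x ∈ PS N K) {T : ℝ}
    {m j : ℤ} (hc : Closes Λ x T m j) {k : ℤ} (hk : x.2 = k * Real.pi) :
    ∃ l : ℤ, (Even l ↔ m = 1) ∧
      (∀ i : ℤ, (∀ s, 0 ≤ Real.cos (i * Real.pi) * ((Λ s x).1.2.2 - x.1.2.2)) →
        i ≤ k → k ≤ i + 1 → i ≤ l ∧ l ≤ i + 1) ∧
      (∀ i : ℤ, (∀ s, 0 ≤ Real.cos (i * Real.pi) * (x.1.2.2 - (Λ s x).1.2.2)) →
        i ≤ l → l ≤ i + 1 → i ≤ k + j ∧ k + j ≤ i + 1) := by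
  obtain ⟨θ, ⟨d, hd, h1, h2⟩, hA, hB⟩ := rot_leaf hL hx hc hc.pos le_rfl
  have e1 : (Λ T x).1.2.1 = x.1.2.1 + m := by
    rw [hc.ret]
    rfl
  have e2 : (Λ T x).1.2.2 = x.1.2.2 := by
    rw [hc.ret]
    rfl
  have e3 : (Λ T x).2 = x.2 + j * Real.pi := by
    rw [hc.ret]
    rfl
  have hm := m_one hL hx hc
  have h3 : Real.sin θ = 0 := by
    have h4 : d * Real.sin θ = 0 := by rw [← h2, e2, sub_self]
    exact (mul_eq_zero.1 h4).resolve_left hd.ne'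
  obtain ⟨l, hl⟩ := Real.sin_eq_zero_iff.1 h3
  have h5 : (m : ℝ) = d * Real.cos θ := by rw [← h1, e1]; ring
  have hm2 : (m : ℝ) * m = 1 := by
    rcases hm with hm | hm <;> rw [hm] <;> norm_num
  have h6 : 0 < (m : ℝ) * Real.cos θ := by
    have h7 : d * ((m : ℝ) * Real.cos θ) = 1 := by
      rw [← hm2]
      linear_combination (-(m : ℝ)) * h5
    by_contra hcon
    push Not at hcon
    have := mul_nonpos_of_nonneg_of_nonpos hd.le hcon
    linarith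
  rw [← hl] at h6
  refine ⟨l, (cos_par hm).1 h6, fun i hi hik hki => ?_, fun i hi hil hli => ?_⟩
  · have h7 := hA (i * Real.pi) (by rw [hk]; exact pi_le.2 hik) (by rw [hk]; exact pi_le'.2 hki)
      (fun s _ _ => by
        rw [Real.sin_int_mul_pi, neg_zero, zero_mul, zero_add]
        exact hi s)
    rw [← hl] at h7
    exact ⟨pi_le.1 h7.1, pi_le'.1 h7.2⟩
  · have h7 := hB (i * Real.pi) (by rw [← hl]; exact pi_le.2 hil)
      (by rw [← hl]; exact pi_le'.2 hli)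
      (fun s _ _ => by
        rw [Real.sin_int_mul_pi, neg_zero, zero_mul, zero_add, e2]
        exact hi s)
    rw [e3, hk] at h7
    have e4 : (k : ℝ) * Real.pi + j * Real.pi = ((k + j : ℤ) : ℝ) * Real.pi := by
      push_cast
      ring
    rw [e4] at h7
    exact ⟨pi_le.1 h7.1, pi_le'.1 h7.2⟩

theorem j_top (hL : Leaf N K f κ Λ) {x : (P × ℝ × ℝ) × ℝ} (hx : x ∈ PS N K) {T : ℝ} {m j : ℤ}
    (hc : Closes Λ x T m j) (h : x.1 ∈ Top K) : (j = 0 ∧ 0 < m * Real.cos x.2) ∨ j = 2 * m := by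
  obtain ⟨k, hk⟩ := Real.sin_eq_zero_iff.1 (sin_ext hL hx (Or.inl h))
  have hm := m_one hL hx hc
  obtain ⟨l, hl, hA, hB⟩ := rot_int hL hx hc hk.symm
  have h1 := top_comb (k := k) (l := l) (j := j) hm hc.even hl
    (fun i hi => hA i fun s => by
      rw [Real.cos_int_mul_pi, hi.neg_one_zpow]
      have := top_le hL hx h s
      linarith)
    (fun i hi => hB i fun s => by
      rw [Real.cos_int_mul_pi, hi.neg_one_zpow]
      have := top_le hL hx h s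
      linarith)
  rcases h1 with ⟨h1, h2⟩ | h1
  · refine Or.inl ⟨h1, ?_⟩
    rw [← hk]
    exact (cos_par hm).2 h2
  · exact Or.inr h1

theorem j_btm (hL : Leaf N K f κ Λ) {x : (P × ℝ × ℝ) × ℝ} (hx : x ∈ PS N K) {T : ℝ} {m j : ℤ}
    (hc : Closes Λ x T m j) (h : x.1 ∈ Btm K) :
    (j = 0 ∧ 0 < m * Real.cos x.2) ∨ j = -2 * m := by
  obtain ⟨k, hk⟩ := Real.sin_eq_zero_iff.1 (sin_ext hL hx (Or.inr h))
  have hm := m_one hL hx hc
  obtain ⟨l, hl, hA, hB⟩ := rot_int hL hx hc hk.symm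
  have h1 := btm_comb (k := k) (l := l) (j := j) hm hc.even hl
    (fun i hi => hA i fun s => by
      rw [Real.cos_int_mul_pi, hi.neg_one_zpow]
      have := btm_le hL hx h s
      linarith)
    (fun i hi => hB i fun s => by
      rw [Real.cos_int_mul_pi, hi.neg_one_zpow]
      have := btm_le hL hx h s
      linarith)
  rcases h1 with ⟨h1, h2⟩ | h1
  · refine Or.inl ⟨h1, ?_⟩
    rw [← hk]
    exact (cos_par hm).2 h2
  · exact Or.inr h1

theorem T1 (hL : Leaf N K f κ Λ) {x : (P × ℝ × ℝ) × ℝ} (hx : x ∈ PS N K) {T : ℝ} {m j : ℤ}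
    (hc : Closes Λ x T m j) : j = 0 ∧ ∀ s, (Λ s x).1 ∈ Top K ∪ Btm K →
      Real.sin (Λ s x).2 = 0 ∧ 0 < m * Real.cos (Λ s x).2 := by
  have hm := m_one hL hx hc
  obtain ⟨s₁, h₁⟩ := exists_top hL hx
  obtain ⟨s₂, h₂⟩ := exists_btm hL hx
  have hj : j = 0 := by
    rcases j_top hL (leaf_mem hL hx s₁) (closes_at hL hx hc s₁) h₁ with h | h
    · exact h.1
    · rcases j_btm hL (leaf_mem hL hx s₂) (closes_at hL hx hc s₂) h₂ with h' | h'
      · exact h'.1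
      · omega
  refine ⟨hj, fun s hs => ⟨sin_ext hL (leaf_mem hL hx s) hs, ?_⟩⟩
  rcases hs with hs | hs
  · rcases j_top hL (leaf_mem hL hx s) (closes_at hL hx hc s) hs with h | h
    · exact h.2
    · omega
  · rcases j_btm hL (leaf_mem hL hx s) (closes_at hL hx hc s) hs with h | h
    · exact h.2
    · omega

end Pool.Agent.H57.CR
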