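import Pool.Agent.H57.CR.TopB

/-!
# The phases at the top and bottom points are all zero (module TopC)

PROOFS. Let `x.1 ∈ Top K`, `x.2 = 0`, `hc : Closes Λ x T m j`. By `T1`: `j = 0`, `0 < m cos 0`, so `m = 1` (`m_one`).
* `TT`: let `y ∈ PS`, `y.1 ∈ Top K`, `y.2 = 2 k π`, `hc : Closes Λ y T 1 0`, `0 < c ≤ T`, `(Λ c y).1 ∈ Top K`. `rot_leaf`: `r(s) ≤ r(0) = r(c)` for all `s` (both points are top points of the
  same plane). (i) with `a = y.2 - π` (`cos a = -1`, `sin a = 0`): `θ ∈ [y.2 - π, y.2]`; the chord is horizontal: `sin θ = 0`, so `θ = y.2` or `θ = y.2 - π`.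
  (ii) with `b = y.2` resp. `b = y.2 - 2 π` (`cos b = 1`): `φ(c) ∈ [y.2, y.2 + π]` resp. `[y.2 - 2π, y.2 - π]`. By `T1`, `sin φ(c) = 0`, `cos φ(c) > 0`: `φ(c)` is a multiple of
  `2 π`: `φ(c) = y.2` or `y.2 - 2 π`.
* `TB`: the same with `(Λ c y).1 ∈ Btm K`: (i) `a = y.2 - π`: `θ ∈ [y.2 - π, y.2]`; (ii) with `b = y.2 - π` (`cos b = -1`; `r(c) ≤ r(s)`): `φ(c) ∈ [y.2 - π, y.2]`, a multiple of `2 π`: `φ(c) = y.2`.
* `phase_zero`: let `(Λ s x).1 ∈ Top K ∪ Btm K`. `closes_red`: `s = s' + n T`, `0 ≤ s' < T`, `Λ s x = shf n 0 (Λ s' x)`, so the phases at `s` and `s'` agree and `(Λ s' x).1` is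
  also a top resp. bottom point (`shp` preserves `K` and `r`). If `s' = 0`: `x.2 = 0`. If `s' > 0` and bottom: `TB` at `x`. If `s' > 0` and top: `TT` at `x` gives
  `φ(s') ∈ {0, -2π}`; `TT` at `y = Λ s' x` with `c = T - s'` (`Λ T x = shf 1 0 x`, phase `0`, top point): `0 ∈ {φ(s'), φ(s') - 2π}`, so `φ(s') ∈ {0, 2π}`: `φ(s') = 0`.
-/

set_option autoImplicit false
set_option linter.unusedSectionVars false

open scoped ContDiff Topology
open Set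

namespace Pool.Agent.H57.CR

open Pool.Agent.H2.TG (IsFlow)

variable {P : Type} [NormedAddCommGroup P] [NormedSpace ℝ P] [FiniteDimensional ℝ P] {N : Set P}
  {K : Set (P × ℝ × ℝ)} {f : P × ℝ × ℝ → ℝ} {κ : (P × ℝ × ℝ) × ℝ → ℝ}
  {Λ : ℝ → (P × ℝ × ℝ) × ℝ → (P × ℝ × ℝ) × ℝ}

private theorem topC_le (hL : Leaf N K f κ Λ) {x : (P × ℝ × ℝ) × ℝ} (hx : x ∈ PS N K)
    (h : x.1 ∈ Top K) (s : ℝ) : (Λ s x).1.2.2 ≤ x.1.2.2 :=
  h.2 _ (leaf_mem hL hx s).1 (leaf_q hL x s)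

private theorem topC_le' (hL : Leaf N K f κ Λ) {x : (P × ℝ × ℝ) × ℝ} (hx : x ∈ PS N K)
    {c : ℝ} (h : (Λ c x).1 ∈ Top K) (s : ℝ) : (Λ s x).1.2.2 ≤ (Λ c x).1.2.2 :=
  h.2 _ (leaf_mem hL hx s).1 (by rw [leaf_q hL, leaf_q hL])

private theorem topC_btm (hL : Leaf N K f κ Λ) {x : (P × ℝ × ℝ) × ℝ} (hx : x ∈ PS N K)
    {c : ℝ} (h : (Λ c x).1 ∈ Btm K) (s : ℝ) : (Λ c x).1.2.2 ≤ (Λ s x).1.2.2 :=
  h.2 _ (leaf_mem hL hx s).1 (by rw [leaf_q hL, leaf_q hL])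

private theorem topC_shp (hR : Fam N K f) {k : ℤ} {z : P × ℝ × ℝ} (h : shp k z ∈ Top K) :
    z ∈ Top K :=
  ⟨(mem_shp hR k z).1 h.1, fun y hy hq => h.2 y hy hq⟩

private theorem btmC_shp (hR : Fam N K f) {k : ℤ} {z : P × ℝ × ℝ} (h : shp k z ∈ Btm K) :
    z ∈ Btm K :=
  ⟨(mem_shp hR k z).1 h.1, fun y hy hq => h.2 y hy hq⟩

private theorem topC_even {φ : ℝ} (h1 : Real.sin φ = 0) (h2 : 0 < ((1 : ℤ) : ℝ) * Real.cos φ) :
    ∃ p : ℤ, φ = ((2 * p : ℤ) : ℝ) * Real.pi := by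
  obtain ⟨l, hl⟩ := Real.sin_eq_zero_iff.1 h1
  rcases Int.even_or_odd l with h | h
  · obtain ⟨p, hp⟩ := h
    refine ⟨p, ?_⟩
    rw [← hl, hp]
    push_cast
    ring
  · exfalso
    rw [← hl, Real.cos_int_mul_pi, h.neg_one_zpow] at h2
    norm_num at h2

private theorem topC_cos (k : ℤ) : Real.cos (((2 * k : ℤ) : ℝ) * Real.pi) = 1 := by
  rw [Real.cos_int_mul_pi, (even_two_mul k).neg_one_zpow]

private theorem topC_cos' (k : ℤ) : Real.cos (((2 * k - 1 : ℤ) : ℝ) * Real.pi) = -1 := by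
  have h : Odd (2 * k - 1 : ℤ) := ⟨k - 1, by ring⟩
  rw [Real.cos_int_mul_pi, h.neg_one_zpow]

private theorem topC_pi {i k : ℤ} : (i : ℝ) * Real.pi ≤ k * Real.pi ↔ i ≤ k := by
  rw [mul_le_mul_iff_left₀ Real.pi_pos, Int.cast_le]

private theorem topC_pi' {i k : ℤ} :
    (k : ℝ) * Real.pi ≤ i * Real.pi + Real.pi ↔ k ≤ i + 1 := by
  rw [show (i : ℝ) * Real.pi + Real.pi = ((i + 1 : ℤ) : ℝ) * Real.pi by push_cast; ring, topC_pi]

theorem TT (hL : Leaf N K f κ Λ) {y : (P × ℝ × ℝ) × ℝ} (hy : y ∈ PS N K) {T : ℝ}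
    (hc : Closes Λ y T 1 0) (ht : y.1 ∈ Top K) {k : ℤ} (hk : y.2 = 2 * k * Real.pi) {c : ℝ}
    (h0 : 0 < c) (hcT : c ≤ T) (h : (Λ c y).1 ∈ Top K) :
    (Λ c y).2 = y.2 ∨ (Λ c y).2 = y.2 - 2 * Real.pi := by
  have hk' : y.2 = ((2 * k : ℤ) : ℝ) * Real.pi := by rw [hk]; push_cast; ring
  obtain ⟨θ, ⟨d, hd, h1, h2⟩, hA, hB⟩ := rot_leaf hL hy hc h0 hcT
  have hr : (Λ c y).1.2.2 = y.1.2.2 := by
    refine le_antisymm (topC_le hL hy ht c) ?_
    have := topC_le' hL hy h 0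
    rwa [hL.flow.zero] at this
  have h3 : Real.sin θ = 0 := by
    have h4 : d * Real.sin θ = 0 := by rw [← h2, hr, sub_self]
    exact (mul_eq_zero.1 h4).resolve_left hd.ne'
  obtain ⟨l, hl⟩ := Real.sin_eq_zero_iff.1 h3
  obtain ⟨h5, h6⟩ := (T1 hL hy hc).2 c (Or.inl h)
  obtain ⟨p, hp⟩ := topC_even h5 h6
  have h7 := hA (((2 * k - 1 : ℤ) : ℝ) * Real.pi) (by rw [hk']; exact topC_pi.2 (by omega))
    (by rw [hk']; exact topC_pi'.2 (by omega)) (fun s _ _ => by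
      rw [Real.sin_int_mul_pi, topC_cos']
      have := topC_le hL hy ht s
      linarith)
  rw [← hl, topC_pi, topC_pi'] at h7
  have hBB : ∀ i : ℤ, 2 * i ≤ l → l ≤ 2 * i + 1 → 2 * i ≤ 2 * p ∧ 2 * p ≤ 2 * i + 1 := by
    intro i hi1 hi2
    have h8 := hB (((2 * i : ℤ) : ℝ) * Real.pi) (by rw [← hl]; exact topC_pi.2 hi1)
      (by rw [← hl]; exact topC_pi'.2 hi2) (fun s _ _ => by
        rw [Real.sin_int_mul_pi, topC_cos]
        have := topC_le' hL hy h s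
        linarith)
    rw [hp, topC_pi, topC_pi'] at h8
    exact h8
  rw [hp, hk']
  rcases lt_or_ge l (2 * k) with hlk | hlk
  · right
    have h8 := hBB (k - 1) (by omega) (by omega)
    have h9 : p = k - 1 := by omega
    rw [h9]
    push_cast
    ring
  · left
    have h8 := hBB k (by omega) (by omega)
    have h9 : p = k := by omega
    rw [h9]

theorem TB (hL : Leaf N K f κ Λ) {y : (P × ℝ × ℝ) × ℝ} (hy : y ∈ PS N K) {T : ℝ}
    (hc : Closes Λ y T 1 0) (ht : y.1 ∈ Top K) {k : ℤ} (hk : y.2 = 2 * k * Real.pi) {c : ℝ}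
    (h0 : 0 < c) (hcT : c ≤ T) (h : (Λ c y).1 ∈ Btm K) : (Λ c y).2 = y.2 := by
  have hk' : y.2 = ((2 * k : ℤ) : ℝ) * Real.pi := by rw [hk]; push_cast; ring
  obtain ⟨θ, -, hA, hB⟩ := rot_leaf hL hy hc h0 hcT
  obtain ⟨h5, h6⟩ := (T1 hL hy hc).2 c (Or.inr h)
  obtain ⟨p, hp⟩ := topC_even h5 h6
  have h7 := hA (((2 * k - 1 : ℤ) : ℝ) * Real.pi) (by rw [hk']; exact topC_pi.2 (by omega))
    (by rw [hk']; exact topC_pi'.2 (by omega)) (fun s _ _ => by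
      rw [Real.sin_int_mul_pi, topC_cos']
      have := topC_le hL hy ht s
      linarith)
  have h8 := hB (((2 * k - 1 : ℤ) : ℝ) * Real.pi) h7.1 h7.2 (fun s _ _ => by
      rw [Real.sin_int_mul_pi, topC_cos']
      have := topC_btm hL hy h s
      linarith)
  rw [hp, topC_pi, topC_pi'] at h8
  rw [hp, hk']
  have h9 : p = k := by omega
  rw [h9]

theorem phase_zero (hL : Leaf N K f κ Λ) {x : (P × ℝ × ℝ) × ℝ} (hx : x ∈ PS N K) {T : ℝ}
    {m j : ℤ} (hc : Closes Λ x T m j) (ht : x.1 ∈ Top K) (h0 : x.2 = 0) :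
    m = 1 ∧ j = 0 ∧ ∀ s, (Λ s x).1 ∈ Top K ∪ Btm K → (Λ s x).2 = 0 := by
  obtain ⟨hj, h1⟩ := T1 hL hx hc
  have hm : m = 1 := by
    have h2 := (h1 0 (Or.inl (by rw [hL.flow.zero]; exact ht))).2
    rw [hL.flow.zero, h0, Real.cos_zero, mul_one] at h2
    rcases m_one hL hx hc with h | h
    · exact h
    · rw [h] at h2
      norm_num at h2
  subst hj
  subst hm
  refine ⟨rfl, rfl, fun s hs => ?_⟩
  obtain ⟨n, s', hs0, hsT, -, he⟩ := closes_red hL hx hc s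
  have hph : (Λ s x).2 = (Λ s' x).2 := by
    rw [he]
    simp [shf]
  have hba : (Λ s x).1 = shp (n * 1) (Λ s' x).1 := by
    rw [he]
    rfl
  rw [hba] at hs
  rw [hph]
  rcases hs0.eq_or_lt with h2 | h2
  · rw [← h2, hL.flow.zero, h0]
  · have hk0 : x.2 = 2 * ((0 : ℤ) : ℝ) * Real.pi := by rw [h0]; simp
    rcases hs with hs | hs
    · have h3 := topC_shp hL.fam hs
      rcases TT hL hx hc ht hk0 h2 hsT.le h3 with h4 | h4
      · rw [h4, h0]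
      · exfalso
        have hk1 : (Λ s' x).2 = 2 * ((-1 : ℤ) : ℝ) * Real.pi := by
          rw [h4, h0]
          push_cast
          ring
        have h5 : Λ (T - s') (Λ s' x) = shf 1 0 x := by
          rw [leaf_add hL, sub_add_cancel, hc.ret]
        have h6 : (Λ (T - s') (Λ s' x)).1 ∈ Top K := by
          rw [h5]
          refine ⟨(mem_shp hL.fam 1 x.1).2 ht.1, fun y hy hq => ht.2 y hy hq⟩
        have h7 := TT hL (leaf_mem hL hx s') (closes_at hL hx hc s') h3 hk1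
          (by linarith) (by linarith) h6
        have h8 : (Λ (T - s') (Λ s' x)).2 = 0 := by
          rw [h5]
          simp [shf, h0]
        rw [h8, h4, h0] at h7
        have hpi := Real.pi_pos
        rcases h7 with h7 | h7 <;> linarith
    · rw [TB hL hx hc ht hk0 h2 hsT.le (btmC_shp hL.fam hs), h0]

end Pool.Agent.H57.CR
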