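import Mathlib

/-!
# Winding numbers of embedded closed `C¹` curves: definitions (Mathlib only)
-/

set_option autoImplicit false

open scoped Topology
open Set MeasureTheory

namespace Pool.Agent.H57.CR

/-- `G` is an embedded closed `C¹` curve in `ℂ` with period `T`, `G'` is its velocity. -/
structure Lp (T : ℝ) (G G' : ℝ → ℂ) : Prop where
  pos : 0 < T
  deriv : ∀ s, HasDerivAt G (G' s) s
  cont : Continuous G'
  per : ∀ s, G (s + T) = G s
  ne : ∀ s, G' s ≠ 0
  inj : ∀ s s' : ℝ, 0 ≤ s → s < s' → s' < T → G s ≠ G s'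

/-- The winding number. -/
noncomputable def wn (T : ℝ) (G G' : ℝ → ℂ) (z : ℂ) : ℂ :=
  (2 * Real.pi * Complex.I)⁻¹ * ∫ s in (0 : ℝ)..T, G' s / (G s - z)

/-- The signed area. -/
noncomputable def area (T : ℝ) (G G' : ℝ → ℂ) : ℝ :=
  (1 / 2) * ∫ s in (0 : ℝ)..T, ((starRingEnd ℂ) (G s) * G' s).im

end Pool.Agent.H57.CR
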