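import Pool.Agent.H57.CR.WDefs

/-!
# Winding numbers: integers, locally constant, zero far away (module WindA)

PROOFS. `G` is continuous, periodic, so `range G = G '' [0, T]` is compact. `G'` is periodic (derivative of
`s ↦ G (s + T)`).
* `lp_inj`: reduce `s` and `s'` modulo `T` to `[0, T)` (`n = ⌊s / T⌋`): if `s < s' < s + T` the reductions are different.
* `wn_int`: let `z ∉ range G`, `h(s) = ∫_0^s G' / (G - z)` and `k(s) = exp (-h(s)) (G s - z)`: `k' = 0`, so `k(T) = k(0)`:
  `exp (-h(T)) (G 0 - z) = G 0 - z`, `exp (-h(T)) = 1`, so `h(T) ∈ 2 π i ℤ` (`Complex.exp_eq_one_iff`).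
* `wn_contAt`: `wn` is continuous at every `z ∉ range G`: on a ball of radius `d / 2`, `d = dist (z, range G) > 0`, the integrand is
  bounded by `2 C / d` and continuous in `z` (`intervalIntegral.continuousAt_of_dominated_interval`), or directly from
  `|1 / (G - z) - 1 / (G - z')| = |z - z'| / |..| |..|`.
* `wn_const`: on `A` the function `wn` is continuous with values in the integers: locally constant
  (values in a discrete set: `|wn z - wn w| < 1` near `z` implies equality), so constant on a preconnected set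
  (`IsPreconnected.constant_of_mapsTo` or `IsPreconnected.eqOn_const_of_mapsTo`).
* `wn_far`: if `|G| ≤ a` and `|G'| ≤ C` on `[0, T]` and `|z| ≥ a + C T + 1` then `|wn z| ≤ (1 / 2 π) C T / (C T + 1) < 1`, an integer: zero.
-/

set_option autoImplicit false

open scoped Topology
open Set MeasureTheory

namespace Pool.Agent.H57.CR

variable {T : ℝ} {G G' : ℝ → ℂ}

theorem lp_cont (h : Lp T G G') : Continuous G :=
  continuous_iff_continuousAt.2 fun s => (h.deriv s).continuousAt

theorem lp_per' (h : Lp T G G') (s : ℝ) : G' (s + T) = G' s := by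
  have h1 : HasDerivAt (fun x => G (x + T)) (G' (s + T)) s := (h.deriv (s + T)).comp_add_const s T
  have h2 : (fun x => G (x + T)) = G := funext h.per
  rw [h2] at h1
  exact h1.unique (h.deriv s)

private theorem wa_per (h : Lp T G G') : Function.Periodic G T := h.per

private theorem wa_per' (h : Lp T G G') : Function.Periodic G' T := lp_per' h

theorem lp_compact (h : Lp T G G') : IsCompact (range G) :=
  (wa_per h).compact_of_continuous h.pos.ne' (lp_cont h)

theorem lp_red (h : Lp T G G') (s : ℝ) :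
    ∃ s' : ℝ, 0 ≤ s' ∧ s' < T ∧ G s' = G s ∧ G' s' = G' s ∧ ∃ n : ℤ, s = s' + n * T := by
  refine ⟨s - ⌊s / T⌋ * T, ?_, ?_, (wa_per h).sub_int_mul_eq _, (wa_per' h).sub_int_mul_eq _,
    ⌊s / T⌋, by ring⟩
  · have h1 := Int.floor_le (s / T)
    rw [le_div_iff₀ h.pos] at h1
    linarith
  · have h1 := Int.lt_floor_add_one (s / T)
    rw [div_lt_iff₀ h.pos] at h1
    linarith

theorem lp_inj (h : Lp T G G') {s s' : ℝ} (h1 : s < s') (h2 : s' < s + T) : G s ≠ G s' := by
  obtain ⟨r, hr0, hr1, hr2, -, n, hn⟩ := lp_red h s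
  obtain ⟨r', hr0', hr1', hr2', -, n', hn'⟩ := lp_red h s'
  rw [← hr2, ← hr2']
  rcases lt_trichotomy r r' with h3 | h3 | h3
  · exact h.inj r r' hr0 h3 hr1'
  · exfalso
    have h4 : ((n' - n : ℤ) : ℝ) * T = s' - s := by
      push_cast
      rw [hn, hn', h3]
      ring
    have h5 : 0 < ((n' - n : ℤ) : ℝ) * T := by rw [h4]; linarith
    have h6 : ((n' - n : ℤ) : ℝ) * T < 1 * T := by rw [h4]; linarith
    have h7 : 0 < ((n' - n : ℤ) : ℝ) := (mul_pos_iff_of_pos_right h.pos).1 h5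
    have h8 : ((n' - n : ℤ) : ℝ) < 1 := lt_of_mul_lt_mul_right h6 h.pos.le
    have h9 : 0 < n' - n := by exact_mod_cast h7
    have h10 : n' - n < 1 := by exact_mod_cast h8
    omega
  · exact (h.inj r' r hr0' h3 hr1).symm

private theorem wa_cont (h : Lp T G G') {z : ℂ} (hz : z ∉ range G) :
    Continuous fun s => G' s / (G s - z) :=
  h.cont.div ((lp_cont h).sub continuous_const) fun s hs =>
    hz ⟨s, sub_eq_zero.1 hs⟩

theorem wn_int (h : Lp T G G') {z : ℂ} (hz : z ∉ range G) : ∃ k : ℤ, wn T G G' z = k := by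
  have hc := wa_cont h hz
  have hne : ∀ s, G s - z ≠ 0 := fun s hs => hz ⟨s, sub_eq_zero.1 hs⟩
  obtain ⟨F, hF⟩ : ∃ F : ℝ → ℂ, F = fun s => ∫ x in (0 : ℝ)..s, G' x / (G x - z) := ⟨_, rfl⟩
  have hd : ∀ s, HasDerivAt F (G' s / (G s - z)) s := by
    intro s
    rw [hF]
    exact (hc.integral_hasStrictDerivAt 0 s).hasDerivAt
  have hk : ∀ s, HasDerivAt (fun s => Complex.exp (-F s) * (G s - z)) 0 s := by
    intro s
    have h1 := ((hd s).neg.cexp).mul ((h.deriv s).sub_const z)
    have e : Complex.exp (-F s) * -(G' s / (G s - z)) * (G s - z) +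
        Complex.exp (-F s) * G' s = 0 := by
      have := hne s
      field_simp
      ring
    rw [← e]
    exact h1
  have hconst := is_const_of_deriv_eq_zero (f := fun s => Complex.exp (-F s) * (G s - z))
    (fun s => (hk s).differentiableAt) (fun s => (hk s).deriv) T 0
  have hF0 : F 0 = 0 := by rw [hF]; simp
  have hGT : G T = G 0 := by
    have := h.per 0
    rwa [zero_add] at this
  rw [hF0, hGT, neg_zero, Complex.exp_zero] at hconst
  have h1 : Complex.exp (-F T) = 1 := mul_right_cancel₀ (hne 0) hconst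
  obtain ⟨n, hn⟩ := Complex.exp_eq_one_iff.1 h1
  refine ⟨-n, ?_⟩
  have h2 : wn T G G' z = (2 * Real.pi * Complex.I)⁻¹ * F T := by
    rw [hF]
    rfl
  have h3 : (2 * (Real.pi : ℂ) * Complex.I) ≠ 0 := by
    have := Real.pi_ne_zero
    simp [Complex.I_ne_zero, this]
  rw [h2, inv_mul_eq_iff_eq_mul₀ h3]
  push_cast
  linear_combination -hn

theorem wn_contAt (h : Lp T G G') {z : ℂ} (hz : z ∉ range G) : ContinuousAt (wn T G G') z := by
  have hopen : IsOpen (range G)ᶜ := (lp_compact h).isClosed.isOpen_compl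
  obtain ⟨d, hd, hball⟩ := Metric.isOpen_iff.1 hopen z hz
  have hfar : ∀ s, d ≤ ‖G s - z‖ := by
    intro s
    by_contra hcon
    push Not at hcon
    have : G s ∈ Metric.ball z d := by rw [Metric.mem_ball, dist_eq_norm]; exact hcon
    exact hball this ⟨s, rfl⟩
  have hw : ∀ w ∈ Metric.ball z (d / 2), ∀ s, d / 2 ≤ ‖G s - w‖ := by
    intro w hw s
    rw [Metric.mem_ball, dist_eq_norm] at hw
    have h1 := hfar s
    have h2 : ‖G s - z‖ ≤ ‖G s - w‖ + ‖w - z‖ := by
      calc ‖G s - z‖ = ‖(G s - w) + (w - z)‖ := by congr 1; ring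
        _ ≤ _ := norm_add_le _ _
    linarith
  unfold wn
  refine ContinuousAt.mul continuousAt_const ?_
  refine intervalIntegral.continuousAt_of_dominated_interval
    (bound := fun s => ‖G' s‖ * (2 / d)) ?_ ?_ ?_ ?_
  · filter_upwards [Metric.ball_mem_nhds z (half_pos hd)] with w hw1
    have hwr : w ∉ range G := by
      rintro ⟨s, rfl⟩
      have := hw _ hw1 s
      rw [sub_self, norm_zero] at this
      linarith
    exact (wa_cont h hwr).aestronglyMeasurable
  · filter_upwards [Metric.ball_mem_nhds z (half_pos hd)] with w hw1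
    refine Filter.Eventually.of_forall fun s _ => ?_
    rw [norm_div, div_eq_mul_inv]
    refine mul_le_mul_of_nonneg_left ?_ (norm_nonneg _)
    have h3 := hw w hw1 s
    have h4 : 2 / d = (d / 2)⁻¹ := by rw [inv_div]
    rw [h4]
    exact inv_anti₀ (half_pos hd) h3
  · exact ((h.cont.norm).mul continuous_const).intervalIntegrable _ _
  · refine Filter.Eventually.of_forall fun s _ => ?_
    refine ContinuousAt.div continuousAt_const (continuousAt_const.sub continuousAt_id) ?_
    intro hs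
    exact hz ⟨s, sub_eq_zero.1 hs⟩

theorem wn_loc (h : Lp T G G') {z : ℂ} (hz : z ∉ range G) :
    ∃ ε : ℝ, 0 < ε ∧ ∀ w ∈ Metric.ball z ε, w ∉ range G ∧ wn T G G' w = wn T G G' z := by
  have hopen : IsOpen (range G)ᶜ := (lp_compact h).isClosed.isOpen_compl
  obtain ⟨d, hd, hball⟩ := Metric.isOpen_iff.1 hopen z hz
  obtain ⟨δ, hδ, hδ'⟩ := Metric.continuousAt_iff.1 (wn_contAt h hz) 1 one_pos
  refine ⟨min d δ, lt_min hd hδ, fun w hw => ?_⟩
  have hw1 : w ∉ range G := hball (Metric.ball_subset_ball (min_le_left _ _) hw)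
  refine ⟨hw1, ?_⟩
  have h1 := hδ' (Metric.ball_subset_ball (min_le_right _ _) hw)
  obtain ⟨k, hk⟩ := wn_int h hw1
  obtain ⟨l, hl⟩ := wn_int h hz
  rw [hk, hl, dist_eq_norm, ← Int.cast_sub, Complex.norm_intCast] at h1
  have h2 : |k - l| < 1 := by exact_mod_cast h1
  have h3 := Int.abs_lt_one_iff.1 h2
  rw [hk, hl, sub_eq_zero.1 h3]

theorem wn_const (h : Lp T G G') {A : Set ℂ} (hA : IsPreconnected A) (hd : ∀ z ∈ A, z ∉ range G)
    {z w : ℂ} (hz : z ∈ A) (hw : w ∈ A) : wn T G G' z = wn T G G' w := by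
  have _ : PreconnectedSpace A := Subtype.preconnectedSpace hA
  have h1 : IsLocallyConstant (fun a : A => wn T G G' a) := by
    rw [IsLocallyConstant.iff_eventually_eq]
    intro a
    obtain ⟨ε, hε, h2⟩ := wn_loc h (hd a a.2)
    have h3 : ∀ᶠ b : A in 𝓝 a, (b : ℂ) ∈ Metric.ball (a : ℂ) ε :=
      continuous_subtype_val.continuousAt.eventually_mem (Metric.ball_mem_nhds _ hε)
    exact h3.mono fun b hb => (h2 b hb).2
  exact h1.apply_eq_of_preconnectedSpace ⟨z, hz⟩ ⟨w, hw⟩

theorem wn_far (h : Lp T G G') : ∃ R : ℝ, 0 < R ∧ (∀ s, ‖G s‖ < R) ∧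
    ∀ z : ℂ, R ≤ ‖z‖ → z ∉ range G ∧ wn T G G' z = 0 := by
  obtain ⟨a, ha⟩ := (lp_compact h).isBounded.exists_norm_le
  obtain ⟨C, hC⟩ := ((wa_per' h).compact_of_continuous h.pos.ne' h.cont).isBounded.exists_norm_le
  have ha' : ∀ s, ‖G s‖ ≤ a := fun s => ha _ ⟨s, rfl⟩
  have hC' : ∀ s, ‖G' s‖ ≤ C := fun s => hC _ ⟨s, rfl⟩
  have ha0 : 0 ≤ a := (norm_nonneg _).trans (ha' 0)
  have hC0 : 0 ≤ C := (norm_nonneg _).trans (hC' 0)
  have hT := h.pos
  have hCT : 0 ≤ C * T := mul_nonneg hC0 hT.le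
  refine ⟨a + C * T + 1, by positivity, fun s => ?_, fun z hz => ?_⟩
  · have := ha' s
    linarith
  have hzr : z ∉ range G := by
    rintro ⟨s, rfl⟩
    have := ha' s
    linarith
  refine ⟨hzr, ?_⟩
  have hfar : ∀ s, C * T + 1 ≤ ‖G s - z‖ := by
    intro s
    have h1 := ha' s
    have h2 : ‖z‖ ≤ ‖G s‖ + ‖G s - z‖ := by
      calc ‖z‖ = ‖G s - (G s - z)‖ := by congr 1; ring
        _ ≤ _ := norm_sub_le _ _
    linarith
  have h3 : ‖∫ s in (0 : ℝ)..T, G' s / (G s - z)‖ ≤ C / (C * T + 1) * |T - 0| := by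
    refine intervalIntegral.norm_integral_le_of_norm_le_const fun s _ => ?_
    rw [norm_div]
    exact div_le_div₀ hC0 (hC' s) (by linarith) (hfar s)
  rw [sub_zero, abs_of_pos hT] at h3
  have h4 : ‖∫ s in (0 : ℝ)..T, G' s / (G s - z)‖ < 1 := by
    refine lt_of_le_of_lt h3 ?_
    rw [div_mul_eq_mul_div, div_lt_one (by linarith)]
    linarith
  obtain ⟨k, hk⟩ := wn_int h hzr
  have h5 : ‖wn T G G' z‖ < 1 := by
    unfold wn
    rw [norm_mul, norm_inv, norm_mul, norm_mul, Complex.norm_I, mul_one, Complex.norm_real,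
      Complex.norm_two, Real.norm_of_nonneg Real.pi_pos.le]
    have h6 : (2 * Real.pi)⁻¹ ≤ 1 := by
      apply inv_le_one_of_one_le₀
      have := Real.pi_gt_three
      linarith
    calc (2 * Real.pi)⁻¹ * ‖∫ s in (0 : ℝ)..T, G' s / (G s - z)‖
        ≤ 1 * ‖∫ s in (0 : ℝ)..T, G' s / (G s - z)‖ :=
          mul_le_mul_of_nonneg_right h6 (norm_nonneg _)
      _ < 1 := by rw [one_mul]; exact h4
  rw [hk, Complex.norm_intCast] at h5
  have h7 : |k| < 1 := by exact_mod_cast h5
  rw [hk, Int.abs_lt_one_iff.1 h7, Int.cast_zero]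

end Pool.Agent.H57.CR
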