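import Pool.Agent.H57.CR.WindA

/-!
# Normal segments of an embedded closed curve (module WindB)

PROOFS. Let `C = max |G'|`, `c = min |G'| > 0` (`G'` is continuous, periodic, without zeros).
* `lp_off`: `G'` is uniformly continuous (periodic): there is `h ∈ (0, T / 2)` with `|G' σ - G' s| ≤ c / 4` for `|σ - s| ≤ h`, so for
  `|s' - s| ≤ h`: `|(G s' - G s) - (s' - s) G' s| ≤ |s' - s| c / 4 ≤ |s' - s| |G' s| / 4`, i.e.
  `(G s' - G s) / G' s = (s' - s) (1 + δ)` with `|δ| ≤ 1 / 4` (for `s' ≠ s`). By `lp_inj` and compactness there is `d > 0` with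
  `|G s' - G s| ≥ d` if `h ≤ |s' - s| ≤ T / 2`. Take `ε₀ = d / (2 C)`. Suppose `G s' = G s + ε (i G' s)`, `0 < |ε| ≤ ε₀`; modulo `T` we may
  assume `|s' - s| ≤ T / 2`. If `|s' - s| ≥ h`: `d ≤ |G s' - G s| = |ε| |G' s| ≤ d / 2`: contradiction. If `|s' - s| < h`:
  `(s' - s) (1 + δ) = i ε`: the real part gives `(s' - s) (1 + Re δ) = 0`, so `s' = s`, `ε = 0`: contradiction.
* `lp_near`: let `z ∉ range G`, and let `s` be a point where `|G s - z|` is minimal (compactness of `[0, T]`, periodicity). The derivative of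
  `σ ↦ |G σ - z|²` at `s` is zero: `Re (conj (G' s) (z - G s)) = 0`, so `z - G s = l (i G' s)` with `l` real, `l ≠ 0`. For `0 < μ ≤ 1` the point
  `p = G s + μ (z - G s)` is not `G s'`: otherwise `|z - G s'| = (1 - μ) |z - G s| < |z - G s|`.
-/

set_option autoImplicit false

open scoped Topology
open Set MeasureTheory

namespace Pool.Agent.H57.CR

variable {T : ℝ} {G G' : ℝ → ℂ}

private theorem unif (h : Lp T G G') {η : ℝ} (hη : 0 < η) : ∃ δ : ℝ, 0 < δ ∧ ∀ s s' : ℝ,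
    |s' - s| ≤ δ → ‖G' s' - G' s‖ ≤ η := by
  have hT := h.pos
  have hK : IsCompact (Icc (-T) (2 * T)) := isCompact_Icc
  have hu := hK.uniformContinuousOn_of_continuous h.cont.continuousOn
  obtain ⟨δ, hδ, hd⟩ := Metric.uniformContinuousOn_iff.mp hu η hη
  refine ⟨min (δ / 2) T, lt_min (by linarith) hT, fun s s' hs => ?_⟩
  obtain ⟨s0, h0, h1, _, h3, n, hn⟩ := lp_red h s
  have hper : Function.Periodic G' T := lp_per' h
  have h4 : G' (s' - n * T) = G' s' := by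
    have := (hper.int_mul n) (s' - n * T)
    rw [← this]; congr 1; ring
  have hs1 : |s' - n * T - s0| ≤ min (δ / 2) T := by
    have e : s' - n * T - s0 = s' - s := by rw [hn]; ring
    rw [e]; exact hs
  have hs2 : |s' - n * T - s0| ≤ δ / 2 := hs1.trans (min_le_left _ _)
  have hs3 : |s' - n * T - s0| ≤ T := hs1.trans (min_le_right _ _)
  rw [abs_le] at hs3
  rw [← h4, ← h3, ← dist_eq_norm]
  refine (hd (s' - n * T) ⟨by linarith [hs3.1], by linarith [hs3.2]⟩ s0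
    ⟨by linarith, by linarith⟩ ?_).le
  rw [Real.dist_eq]
  linarith

private theorem lower (h : Lp T G G') : ∃ c : ℝ, 0 < c ∧ ∀ s, c ≤ ‖G' s‖ := by
  have hT := h.pos
  obtain ⟨x, _, hx2⟩ := (isCompact_Icc (a := (0 : ℝ)) (b := T)).exists_isMinOn
    ⟨0, ⟨le_rfl, hT.le⟩⟩ h.cont.norm.continuousOn
  refine ⟨‖G' x‖, norm_pos_iff.mpr (h.ne x), fun s => ?_⟩
  obtain ⟨s0, h0, h1, _, h3, _⟩ := lp_red h s
  rw [← h3]
  exact hx2 ⟨h0, h1.le⟩

private theorem upper (h : Lp T G G') : ∃ C : ℝ, 0 < C ∧ ∀ s, ‖G' s‖ ≤ C := by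
  have hT := h.pos
  obtain ⟨x, _, hx2⟩ := (isCompact_Icc (a := (0 : ℝ)) (b := T)).exists_isMaxOn
    ⟨0, ⟨le_rfl, hT.le⟩⟩ h.cont.norm.continuousOn
  refine ⟨‖G' x‖, norm_pos_iff.mpr (h.ne x), fun s => ?_⟩
  obtain ⟨s0, h0, h1, _, h3, _⟩ := lp_red h s
  rw [← h3]
  exact hx2 ⟨h0, h1.le⟩

/-- near expansion: `(G s' - G s) / G' s` is close to `s' - s`, for `|s' - s| ≤ h` -/
theorem lp_exp (h : Lp T G G') {η : ℝ} (hη : 0 < η) : ∃ δ : ℝ, 0 < δ ∧ ∀ s s' : ℝ, |s' - s| ≤ δ →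
    ‖(G s' - G s) / G' s - ((s' - s : ℝ) : ℂ)‖ ≤ η * |s' - s| := by
  obtain ⟨c, hc, hcl⟩ := lower h
  obtain ⟨δ, hδ, hd⟩ := unif h (mul_pos hη hc)
  refine ⟨δ, hδ, fun s s' hs => ?_⟩
  have key : ‖(G s' - (s' : ℂ) * G' s) - (G s - (s : ℂ) * G' s)‖ ≤ η * c * ‖s' - s‖ := by
    refine Convex.norm_image_sub_le_of_norm_hasDerivWithin_le
      (f := fun σ : ℝ => G σ - (σ : ℂ) * G' s) (f' := fun σ => G' σ - G' s)
      (s := uIcc s s') ?_ ?_ (convex_uIcc s s') left_mem_uIcc right_mem_uIcc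
    · intro x _
      have h1 : HasDerivAt (fun σ : ℝ => (σ : ℂ) * G' s) (1 * G' s) x :=
        (Complex.ofRealCLM.hasDerivAt (x := x)).mul_const (G' s)
      rw [one_mul] at h1
      exact ((h.deriv x).sub h1).hasDerivWithinAt
    · intro x hx
      refine hd s x ?_
      exact (abs_sub_left_of_mem_uIcc hx).trans hs
  have hg := h.ne s
  have e : (G s' - G s) / G' s - ((s' - s : ℝ) : ℂ)
      = ((G s' - (s' : ℂ) * G' s) - (G s - (s : ℂ) * G' s)) / G' s := by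
    push_cast
    field_simp
    ring
  rw [e, norm_div, div_le_iff₀ (norm_pos_iff.mpr hg)]
  refine key.trans ?_
  rw [Real.norm_eq_abs]
  have h2 := hcl s
  have h3 : 0 ≤ η * |s' - s| := by positivity
  nlinarith [mul_le_mul_of_nonneg_left h2 h3]

theorem lp_off (h : Lp T G G') : ∃ ε₀ : ℝ, 0 < ε₀ ∧ ∀ s ε : ℝ, ε ≠ 0 → |ε| ≤ ε₀ →
    G s + ε * (Complex.I * G' s) ∉ range G := by
  have hT := h.pos
  obtain ⟨C, hC, hCl⟩ := upper h
  obtain ⟨δ, hδ, hd⟩ := lp_exp h (η := 1 / 4) (by norm_num)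
  obtain ⟨r, hr⟩ : ∃ r, r = min δ (T / 2) := ⟨_, rfl⟩
  have hr0 : 0 < r := by rw [hr]; exact lt_min hδ (by linarith)
  have hr1 : r ≤ δ := by rw [hr]; exact min_le_left _ _
  have hr2 : r ≤ T / 2 := by rw [hr]; exact min_le_right _ _
  have hGc := lp_cont h
  have hK : IsCompact ((Icc (0 : ℝ) T) ×ˢ (Icc r (T / 2) ∪ Icc (-(T / 2)) (-r))) :=
    isCompact_Icc.prod (isCompact_Icc.union isCompact_Icc)
  have hcont : Continuous (fun q : ℝ × ℝ => ‖G (q.1 + q.2) - G q.1‖) :=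
    ((hGc.comp (continuous_fst.add continuous_snd)).sub (hGc.comp continuous_fst)).norm
  obtain ⟨x, hxK, hx⟩ := hK.exists_isMinOn ⟨(0, r), ⟨le_rfl, hT.le⟩, Or.inl ⟨le_rfl, hr2⟩⟩
    hcont.continuousOn
  obtain ⟨d, hdd⟩ : ∃ d, d = ‖G (x.1 + x.2) - G x.1‖ := ⟨_, rfl⟩
  have hd0 : 0 < d := by
    rw [hdd, norm_pos_iff, sub_ne_zero]
    rcases hxK.2 with h1 | h1
    · exact (lp_inj h (s := x.1) (s' := x.1 + x.2) (by linarith [h1.1]) (by linarith [h1.2])).symm
    · exact lp_inj h (s := x.1 + x.2) (s' := x.1) (by linarith [h1.2]) (by linarith [h1.1])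
  refine ⟨d / (2 * C), by positivity, fun s ε hε hεl => ?_⟩
  rintro ⟨s', hs'⟩
  -- reduce
  obtain ⟨s0, h0, h1, h2, h3, n, hn⟩ := lp_red h s
  have hperG : Function.Periodic G T := h.per
  obtain ⟨m, hm⟩ : ∃ m : ℤ, m = ⌊(s' - s0) / T + 1 / 2⌋ := ⟨_, rfl⟩
  obtain ⟨u, hu⟩ : ∃ u : ℝ, u = s' - m * T - s0 := ⟨_, rfl⟩
  have hm1 : (m : ℝ) ≤ (s' - s0) / T + 1 / 2 := by rw [hm]; exact Int.floor_le _
  have hm2 : (s' - s0) / T + 1 / 2 < m + 1 := by rw [hm]; exact Int.lt_floor_add_one _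
  have hdiv : (s' - s0) / T * T = s' - s0 := div_mul_cancel₀ _ hT.ne'
  have hu1 : -(T / 2) ≤ u := by
    have := mul_le_mul_of_nonneg_right hm1 hT.le
    rw [add_mul, hdiv] at this
    linarith
  have hu2 : u ≤ T / 2 := by
    have := mul_le_mul_of_nonneg_right hm2.le hT.le
    rw [add_mul, add_mul, hdiv] at this
    linarith
  have hGu : G (s0 + u) = G s0 + ε * (Complex.I * G' s0) := by
    have e1 : s0 + u = s' - m * T := by rw [hu]; ring
    have e2 : G (s' - m * T) = G s' := by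
      have := (hperG.int_mul m) (s' - m * T)
      rw [← this]; congr 1; ring
    rw [e1, e2, hs', h2, h3]
  have hsub : G (s0 + u) - G s0 = ε * (Complex.I * G' s0) := by rw [hGu]; ring
  rcases le_or_gt r |u| with hur | hur
  · have hmem : (s0, u) ∈ (Icc (0 : ℝ) T) ×ˢ (Icc r (T / 2) ∪ Icc (-(T / 2)) (-r)) := by
      refine ⟨⟨h0, h1.le⟩, ?_⟩
      rcases le_total 0 u with hp | hp
      · rw [abs_of_nonneg hp] at hur; exact Or.inl ⟨hur, hu2⟩
      · rw [abs_of_nonpos hp] at hur; exact Or.inr ⟨hu1, by linarith⟩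
    have h4 : d ≤ ‖G (s0 + u) - G s0‖ := by rw [hdd]; exact hx hmem
    rw [hsub, norm_mul, norm_mul, Complex.norm_I, one_mul, Complex.norm_real, Real.norm_eq_abs] at h4
    have h5 : |ε| * ‖G' s0‖ ≤ d / (2 * C) * C :=
      mul_le_mul hεl (hCl s0) (norm_nonneg _) (by positivity)
    have h6 : d / (2 * C) * C = d / 2 := by field_simp
    linarith
  · have h4 := hd s0 (s0 + u) (by rw [add_sub_cancel_left]; linarith)
    rw [hsub, add_sub_cancel_left] at h4
    have hg := h.ne s0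
    have e : (ε : ℂ) * (Complex.I * G' s0) / G' s0 = ε * Complex.I := by field_simp
    rw [e] at h4
    have h5 := Complex.abs_re_le_norm ((ε : ℂ) * Complex.I - (u : ℂ))
    have h6 : ((ε : ℂ) * Complex.I - (u : ℂ)).re = -u := by simp
    rw [h6, abs_neg] at h5
    have h7 : |u| ≤ 0 := by linarith
    have h8 : u = 0 := abs_eq_zero.mp (le_antisymm h7 (abs_nonneg _))
    rw [h8] at h4
    have h9 := Complex.abs_im_le_norm ((ε : ℂ) * Complex.I - ((0 : ℝ) : ℂ))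
    have h10 : ((ε : ℂ) * Complex.I - ((0 : ℝ) : ℂ)).im = ε := by simp
    rw [h10] at h9
    rw [abs_zero, mul_zero] at h4
    have h11 : |ε| ≤ 0 := by linarith
    exact hε (abs_eq_zero.mp (le_antisymm h11 (abs_nonneg _)))

theorem lp_near (h : Lp T G G') {z : ℂ} (hz : z ∉ range G) : ∃ s l : ℝ, l ≠ 0 ∧
    z = G s + l * (Complex.I * G' s) ∧
      ∀ μ : ℝ, 0 < μ → μ ≤ 1 → G s + μ * (z - G s) ∉ range G := by
  have hT := h.pos
  have hGc := lp_cont h
  obtain ⟨s, _, hs⟩ := (isCompact_Icc (a := (0 : ℝ)) (b := T)).exists_isMinOn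
    ⟨0, ⟨le_rfl, hT.le⟩⟩ ((hGc.sub continuous_const).norm.continuousOn (f := fun x => ‖G x - z‖))
  have hmin : ∀ s', ‖G s - z‖ ≤ ‖G s' - z‖ := by
    intro s'
    obtain ⟨s0, h0, h1, h2, _, _⟩ := lp_red h s'
    rw [← h2]
    exact hs ⟨h0, h1.le⟩
  have hne : G s - z ≠ 0 := fun h0 => hz ⟨s, sub_eq_zero.mp h0⟩
  have hder : HasDerivAt (fun x => ‖G x - z‖ ^ 2) (2 * inner ℝ (G s - z) (G' s)) s :=
    ((h.deriv s).sub_const z).norm_sq
  have hloc : IsLocalMin (fun x => ‖G x - z‖ ^ 2) s :=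
    Filter.Eventually.of_forall fun x => pow_le_pow_left₀ (norm_nonneg _) (hmin x) 2
  have h0 := hloc.hasDerivAt_eq_zero hder
  have hinner : (G' s * (starRingEnd ℂ) (G s - z)).re = 0 := by
    rw [Complex.inner] at h0
    linarith
  have hg := h.ne s
  obtain ⟨q, hq⟩ : ∃ q, q = (z - G s) / G' s := ⟨_, rfl⟩
  have hzq : z - G s = q * G' s := by rw [hq]; field_simp
  have hqre : q.re = 0 := by
    have h1 : G s - z = -(q * G' s) := by rw [← hzq]; ring
    rw [h1, map_neg, map_mul] at hinner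
    have h2 : G' s * -((starRingEnd ℂ) q * (starRingEnd ℂ) (G' s))
        = -((starRingEnd ℂ) q * (G' s * (starRingEnd ℂ) (G' s))) := by ring
    rw [h2, Complex.mul_conj, Complex.neg_re, Complex.re_mul_ofReal, Complex.conj_re] at hinner
    have h3 : Complex.normSq (G' s) ≠ 0 := by
      rw [Ne, Complex.normSq_eq_zero]; exact hg
    have h4 : q.re * Complex.normSq (G' s) = 0 := by linarith
    rcases mul_eq_zero.mp h4 with h5 | h5
    · exact h5
    · exact absurd h5 h3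
  have hqI : q = (q.im : ℂ) * Complex.I := by
    apply Complex.ext <;> simp [hqre]
  refine ⟨s, q.im, ?_, ?_, ?_⟩
  · intro h1
    rw [h1, Complex.ofReal_zero, zero_mul] at hqI
    rw [hqI, zero_mul] at hzq
    exact hne (by rw [← neg_sub, hzq, neg_zero])
  · have h1 : z = G s + q * G' s := by rw [← hzq]; ring
    rw [← mul_assoc, ← hqI]
    exact h1
  · rintro μ hμ0 hμ1 ⟨s', hs'⟩
    have h1 := hmin s'
    have h2 : G s' - z = ((1 - μ : ℝ) : ℂ) * (G s - z) := by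
      rw [hs']; push_cast; ring
    rw [h2, norm_mul, Complex.norm_real, Real.norm_eq_abs, abs_of_nonneg (by linarith)] at h1
    have h3 : 0 < ‖G s - z‖ := norm_pos_iff.mpr hne
    nlinarith

end Pool.Agent.H57.CR
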