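import Pool.Agent.H57.CR.WindB

/-!
# The jump of the winding number (module WindC)

PROOF of `wn_lim`. Fix `s₀`, `a = G' s₀`. For `ε > 0` put `z± = G s₀ ± ε i a`. With `H s = (G s - G s₀) / a` (so `H s₀ = 0`, `H' s₀ = 1`):
`wn z₊ - wn z₋ = (2 π i)⁻¹ ∫_{s₀ - T/2}^{s₀ + T/2} H' (1 / (H - i ε) - 1 / (H + i ε)) ds = (1 / π) ∫ ε H' / (H² + ε²) ds`
(the integrals over a period may be taken over any period: `Function.Periodic.intervalIntegral_add_eq`). Let `δ` be from `lp_exp` for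
`η = 1/8` (and `δ < T / 2`). On `δ ≤ |s - s₀| ≤ T/2`, `|H| ≥ d > 0` (`lp_inj`, compactness), so this part tends to `0`. On `|s - s₀| ≤ δ`
substitute `s = s₀ + ε σ`: `∫_{|σ| ≤ δ / ε} H'(s₀ + ε σ) / ((H(s₀ + ε σ) / ε)² + 1) dσ`. Here `H(s₀ + ε σ) / ε = σ (1 + ζ)` with `|ζ| ≤ 1/8`, so
`|(σ (1 + ζ))² + 1| ≥ Re = σ² (1 + Re (2 ζ + ζ²)) + 1 ≥ (σ² + 1) / 2`; the integrand is bounded by `2 C' / (σ² + 1)` and tends to
`1 / (σ² + 1)` for every `σ` (`H(s₀ + ε σ) / ε → σ`, `H'(s₀ + ε σ) → 1`). Dominated convergence along `ε → 0+` (with the indicator of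
`|σ| ≤ δ / ε`) and `∫ 1 / (1 + σ²) = π` (`integral_univ_inv_one_add_sq`). So the difference tends to `1`.
`wn_jump`: by `lp_off` the points `z±` are not on the curve for small `ε`, so the difference is an integer (`wn_int`), and it is within `1/2` of `1` for
small `ε`.
-/

set_option autoImplicit false

open scoped Topology
open Set MeasureTheory

namespace Pool.Agent.H57.CR

variable {T : ℝ} {G G' : ℝ → ℂ}

/-- the kernel -/
private noncomputable def WindC_F (G G' : ℝ → ℂ) (s₀ ε s : ℝ) : ℂ :=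
  ε * (G' s / G' s₀) / (((G s - G s₀) / G' s₀) ^ 2 + (ε : ℂ) ^ 2)

private lemma WindC_alg {g w a : ℂ} {e : ℂ} (ha : a ≠ 0) (h1 : w - e * (Complex.I * a) ≠ 0)
    (h2 : w + e * (Complex.I * a) ≠ 0) :
    g / (w - e * (Complex.I * a)) - g / (w + e * (Complex.I * a)) =
      2 * Complex.I * (e * (g / a) / ((w / a) ^ 2 + e ^ 2)) := by
  have h3 : (w - e * (Complex.I * a)) * (w + e * (Complex.I * a)) = w ^ 2 + e ^ 2 * a ^ 2 := by
    have : Complex.I ^ 2 = -1 := Complex.I_sq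
    linear_combination (-e ^ 2 * a ^ 2) * this
  have h4 : w ^ 2 + e ^ 2 * a ^ 2 ≠ 0 := by
    rw [← h3]
    exact mul_ne_zero h1 h2
  have h5 : (w / a) ^ 2 + e ^ 2 = (w ^ 2 + e ^ 2 * a ^ 2) / a ^ 2 := by
    field_simp
  rw [div_sub_div _ _ h1 h2, h3, h5]
  field_simp
  ring

private lemma WindC_diff (h : Lp T G G') (s₀ ε : ℝ)
    (hp : G s₀ + ε * (Complex.I * G' s₀) ∉ range G)
    (hm : G s₀ - ε * (Complex.I * G' s₀) ∉ range G) :
    wn T G G' (G s₀ + ε * (Complex.I * G' s₀)) - wn T G G' (G s₀ - ε * (Complex.I * G' s₀)) =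
      (Real.pi : ℂ)⁻¹ * ∫ s in (s₀ - T / 2)..(s₀ + T / 2), WindC_F G G' s₀ ε s := by
  have hG := lp_cont h
  have hne : ∀ z ∉ range G, ∀ s, G s - z ≠ 0 := by
    intro z hz s he
    exact hz ⟨s, sub_eq_zero.1 he⟩
  have hint : ∀ z ∉ range G, IntervalIntegrable (fun s => G' s / (G s - z)) volume 0 T := by
    intro z hz
    exact (h.cont.div (hG.sub continuous_const) (hne z hz)).intervalIntegrable _ _
  have hF : ∀ s, G' s / (G s - (G s₀ + ε * (Complex.I * G' s₀))) -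
      G' s / (G s - (G s₀ - ε * (Complex.I * G' s₀))) =
      2 * Complex.I * WindC_F G G' s₀ ε s := by
    intro s
    have e1 : G s - (G s₀ + ε * (Complex.I * G' s₀)) =
        (G s - G s₀) - ε * (Complex.I * G' s₀) := by ring
    have e2 : G s - (G s₀ - ε * (Complex.I * G' s₀)) =
        (G s - G s₀) + ε * (Complex.I * G' s₀) := by ring
    have n1 := hne _ hp s
    have n2 := hne _ hm s
    rw [e1] at n1 ⊢
    rw [e2] at n2 ⊢
    exact WindC_alg (h.ne s₀) n1 n2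
  have hper : Function.Periodic (WindC_F G G' s₀ ε) T := by
    intro s
    unfold WindC_F
    rw [h.per, lp_per' h]
  have hshift : ∫ s in (0 : ℝ)..T, WindC_F G G' s₀ ε s =
      ∫ s in (s₀ - T / 2)..(s₀ + T / 2), WindC_F G G' s₀ ε s := by
    have e1 := hper.intervalIntegral_add_eq 0 (s₀ - T / 2)
    rw [zero_add] at e1
    rw [e1]
    congr 1
    ring
  unfold wn
  rw [← mul_sub, ← intervalIntegral.integral_sub (hint _ hp) (hint _ hm),
    intervalIntegral.integral_congr (g := fun s => 2 * Complex.I * WindC_F G G' s₀ ε s)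
      (fun s _ => hF s), intervalIntegral.integral_const_mul, hshift, ← mul_assoc]
  congr 1
  have hpi : (Real.pi : ℂ) ≠ 0 := Complex.ofReal_ne_zero.2 Real.pi_ne_zero
  have hI : Complex.I ≠ 0 := Complex.I_ne_zero
  field_simp

/-- the near part -/
private lemma WindC_near {η ε x : ℝ} {H H' : ℂ} (hη0 : 0 ≤ η) (hη : η ≤ 1 / 6) (hε : 0 < ε)
    (h1 : ‖H - (x : ℂ)‖ ≤ η * |x|) (h2 : ‖H' - 1‖ ≤ η) :
    ‖ε * H' / (H ^ 2 + (ε : ℂ) ^ 2) - ((ε / (x ^ 2 + ε ^ 2) : ℝ) : ℂ)‖ ≤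
      8 * η * (ε / (x ^ 2 + ε ^ 2)) := by
  set e1 : ℂ := H - x with he1
  set e2 : ℂ := H' - 1 with he2
  have hH : H = x + e1 := by rw [he1]; ring
  have hH' : H' = 1 + e2 := by rw [he2]; ring
  have hP : 0 < x ^ 2 + ε ^ 2 := by positivity
  have hx : ‖(x : ℂ)‖ = |x| := by rw [Complex.norm_real, Real.norm_eq_abs]
  have hx2 : |x| ^ 2 = x ^ 2 := sq_abs x
  have b1 : ‖2 * (x : ℂ) * e1 + e1 ^ 2‖ ≤ 3 * η * x ^ 2 := by
    refine (norm_add_le _ _).trans ?_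
    rw [norm_mul, norm_mul, norm_pow, hx]
    have c1 : ‖(2 : ℂ)‖ = 2 := by simp
    rw [c1]
    have c2 : ‖e1‖ ^ 2 ≤ (η * |x|) ^ 2 := pow_le_pow_left₀ (norm_nonneg _) h1 2
    have c3 : 2 * |x| * ‖e1‖ ≤ 2 * |x| * (η * |x|) :=
      mul_le_mul_of_nonneg_left h1 (by positivity)
    have c4 : (η * |x|) ^ 2 ≤ η * x ^ 2 := by
      rw [mul_pow, hx2]
      have : η ^ 2 ≤ η := by nlinarith
      exact mul_le_mul_of_nonneg_right this (sq_nonneg x)
    have c5 : 2 * |x| * (η * |x|) = 2 * η * x ^ 2 := by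
      rw [← hx2]; ring
    linarith
  have hQ : H ^ 2 + (ε : ℂ) ^ 2 = ((x ^ 2 + ε ^ 2 : ℝ) : ℂ) + (2 * (x : ℂ) * e1 + e1 ^ 2) := by
    rw [hH]
    push_cast
    ring
  have hQn : (x ^ 2 + ε ^ 2) / 2 ≤ ‖H ^ 2 + (ε : ℂ) ^ 2‖ := by
    rw [hQ]
    have c1 : ‖((x ^ 2 + ε ^ 2 : ℝ) : ℂ)‖ = x ^ 2 + ε ^ 2 := by
      rw [Complex.norm_real, Real.norm_of_nonneg hP.le]
    have c2 := norm_sub_le_norm_add ((x ^ 2 + ε ^ 2 : ℝ) : ℂ) (2 * (x : ℂ) * e1 + e1 ^ 2)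
    rw [c1] at c2
    have c3 : 3 * η * x ^ 2 ≤ (x ^ 2 + ε ^ 2) / 2 := by nlinarith [sq_nonneg x, sq_nonneg ε]
    linarith
  have hQ0 : H ^ 2 + (ε : ℂ) ^ 2 ≠ 0 := by
    intro h0
    rw [h0, norm_zero] at hQn
    linarith
  have hPc : ((x ^ 2 + ε ^ 2 : ℝ) : ℂ) ≠ 0 := Complex.ofReal_ne_zero.2 hP.ne'
  have hN : ‖e2 * ((x ^ 2 + ε ^ 2 : ℝ) : ℂ) - (2 * (x : ℂ) * e1 + e1 ^ 2)‖ ≤
      4 * η * (x ^ 2 + ε ^ 2) := by
    refine (norm_sub_le _ _).trans ?_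
    rw [norm_mul, Complex.norm_real, Real.norm_of_nonneg hP.le]
    have c1 : ‖e2‖ * (x ^ 2 + ε ^ 2) ≤ η * (x ^ 2 + ε ^ 2) := mul_le_mul_of_nonneg_right h2 hP.le
    nlinarith [sq_nonneg ε]
  have hid : ε * H' / (H ^ 2 + (ε : ℂ) ^ 2) - ((ε / (x ^ 2 + ε ^ 2) : ℝ) : ℂ) =
      ε * (e2 * ((x ^ 2 + ε ^ 2 : ℝ) : ℂ) - (2 * (x : ℂ) * e1 + e1 ^ 2)) /
        ((H ^ 2 + (ε : ℂ) ^ 2) * ((x ^ 2 + ε ^ 2 : ℝ) : ℂ)) := by
    rw [Complex.ofReal_div, div_sub_div _ _ hQ0 hPc]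
    congr 1
    rw [hQ, hH']
    ring
  rw [hid, norm_div, norm_mul, norm_mul, Complex.norm_real, Complex.norm_real,
    Real.norm_of_nonneg hε.le, Real.norm_of_nonneg hP.le, div_le_iff₀ (by positivity)]
  have d1 : 8 * η * (ε / (x ^ 2 + ε ^ 2)) * (‖H ^ 2 + (ε : ℂ) ^ 2‖ * (x ^ 2 + ε ^ 2)) =
      8 * η * ε * ‖H ^ 2 + (ε : ℂ) ^ 2‖ := by
    field_simp
  rw [d1]
  calc ε * ‖e2 * ((x ^ 2 + ε ^ 2 : ℝ) : ℂ) - (2 * (x : ℂ) * e1 + e1 ^ 2)‖
      ≤ ε * (4 * η * (x ^ 2 + ε ^ 2)) := mul_le_mul_of_nonneg_left hN hε.le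
    _ = 8 * η * ε * ((x ^ 2 + ε ^ 2) / 2) := by ring
    _ ≤ 8 * η * ε * ‖H ^ 2 + (ε : ℂ) ^ 2‖ := mul_le_mul_of_nonneg_left hQn (by positivity)

/-- the far part -/
private lemma WindC_far {M C δ ε x : ℝ} {H H' : ℂ} (hM : 0 < M) (hδ : 0 < δ) (hε : 0 < ε)
    (hεM : ε ^ 2 * (2 * M ^ 2) ≤ 1) (hH : H ≠ 0) (h1 : ‖H⁻¹‖ ≤ M) (h2 : ‖H'‖ ≤ C)
    (hx : δ ≤ |x|) :
    ‖ε * H' / (H ^ 2 + (ε : ℂ) ^ 2) - ((ε / (x ^ 2 + ε ^ 2) : ℝ) : ℂ)‖ ≤
      ε * (2 * C * M ^ 2 + 1 / δ ^ 2) := by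
  have hP : 0 < x ^ 2 + ε ^ 2 := by positivity
  have hHn : 0 < ‖H‖ := norm_pos_iff.2 hH
  have h3 : 1 ≤ M * ‖H‖ := by
    rw [norm_inv] at h1
    have := mul_le_mul_of_nonneg_right h1 hHn.le
    rwa [inv_mul_cancel₀ hHn.ne'] at this
  have h4 : 1 ≤ M ^ 2 * ‖H‖ ^ 2 := by
    have := pow_le_pow_left₀ zero_le_one h3 2
    rwa [one_pow, mul_pow] at this
  have hM2 : 0 < M ^ 2 := by positivity
  have h5 : ε ^ 2 ≤ ‖H‖ ^ 2 / 2 := by
    have : ε ^ 2 * (2 * M ^ 2) ≤ M ^ 2 * ‖H‖ ^ 2 := hεM.trans h4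
    nlinarith
  have h6 : ‖H‖ ^ 2 / 2 ≤ ‖H ^ 2 + (ε : ℂ) ^ 2‖ := by
    have c2 := norm_sub_le_norm_add (H ^ 2) ((ε : ℂ) ^ 2)
    rw [norm_pow, norm_pow, Complex.norm_real, Real.norm_of_nonneg hε.le] at c2
    linarith
  have h7 : 0 < ‖H ^ 2 + (ε : ℂ) ^ 2‖ := lt_of_lt_of_le (by positivity) h6
  have hC : 0 ≤ C := (norm_nonneg _).trans h2
  refine (norm_sub_le _ _).trans ?_
  rw [mul_add]
  refine add_le_add ?_ ?_
  · rw [norm_div, norm_mul, Complex.norm_real, Real.norm_of_nonneg hε.le, div_le_iff₀ h7]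
    have c1 : ε * ‖H'‖ ≤ ε * C := mul_le_mul_of_nonneg_left h2 hε.le
    have c2 : 1 ≤ 2 * M ^ 2 * ‖H ^ 2 + (ε : ℂ) ^ 2‖ := by nlinarith
    have c3 : ε * C * 1 ≤ ε * C * (2 * M ^ 2 * ‖H ^ 2 + (ε : ℂ) ^ 2‖) :=
      mul_le_mul_of_nonneg_left c2 (by positivity)
    nlinarith
  · rw [Complex.norm_real, Real.norm_of_nonneg (by positivity), div_eq_mul_one_div]
    refine mul_le_mul_of_nonneg_left ?_ hε.le
    refine one_div_le_one_div_of_le (by positivity) ?_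
    have : δ ^ 2 ≤ |x| ^ 2 := pow_le_pow_left₀ hδ.le hx 2
    rw [sq_abs] at this
    nlinarith [sq_nonneg ε]

/-- the Poisson kernel -/
private lemma WindC_arctan (s₀ : ℝ) {ε a b : ℝ} (hε : 0 < ε) :
    ∫ s in a..b, ε / ((s - s₀) ^ 2 + ε ^ 2) =
      Real.arctan ((b - s₀) / ε) - Real.arctan ((a - s₀) / ε) := by
  refine intervalIntegral.integral_eq_sub_of_hasDerivAt
    (f := fun s => Real.arctan ((s - s₀) / ε)) ?_ ?_
  · intro s _
    have h1 : HasDerivAt (fun s : ℝ => (s - s₀) / ε) (1 / ε) s :=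
      ((hasDerivAt_id s).sub_const s₀).div_const ε
    have h2 := h1.arctan
    refine h2.congr_deriv ?_
    field_simp
    ring
  · refine Continuous.intervalIntegrable ?_ _ _
    refine continuous_const.div (by fun_prop) fun s => ?_
    positivity

private lemma WindC_atan {y : ℝ} (hy : 0 < y) : Real.pi - 2 * y⁻¹ ≤ 2 * Real.arctan y := by
  have h1 := Real.arctan_inv_of_pos hy
  have h2 : Real.arctan y⁻¹ ≤ y⁻¹ := by
    have h3 : 0 ≤ Real.arctan y⁻¹ := Real.arctan_nonneg.2 (by positivity)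
    have h4 := Real.le_tan h3 (Real.arctan_lt_pi_div_two _)
    rwa [Real.tan_arctan] at h4
  linarith

/-- the main estimate -/
private lemma WindC_main (h : Lp T G G') (s₀ : ℝ) {η : ℝ} (hη0 : 0 < η) (hη : η ≤ 1 / 6) :
    ∃ M ε₁ : ℝ, 0 < ε₁ ∧ ∀ ε : ℝ, 0 < ε → ε < ε₁ →
      ‖wn T G G' (G s₀ + ε * (Complex.I * G' s₀)) - wn T G G' (G s₀ - ε * (Complex.I * G' s₀))
        - 1‖ ≤ 8 * η + ε * M := by
  have hG := lp_cont h
  have ha := h.ne s₀
  have hT := h.pos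
  obtain ⟨δ₁, hδ₁, hexp⟩ := lp_exp h hη0
  obtain ⟨δ₂, hδ₂, hcont⟩ : ∃ δ₂ : ℝ, 0 < δ₂ ∧ ∀ s, |s - s₀| < δ₂ → ‖G' s / G' s₀ - 1‖ ≤ η := by
    have hc : ContinuousAt (fun s => G' s / G' s₀) s₀ :=
      (h.cont.div_const _).continuousAt
    obtain ⟨δ₂, hδ₂, hc'⟩ := Metric.continuousAt_iff.1 hc η hη0
    refine ⟨δ₂, hδ₂, fun s hs => ?_⟩
    have h1 := hc' (x := s) (by rwa [Real.dist_eq])
    rw [div_self ha, dist_eq_norm] at h1
    exact h1.le
  set δ : ℝ := min δ₁ (δ₂ / 2) with hδd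
  have hδ : 0 < δ := lt_min hδ₁ (by linarith)
  -- far part
  have hcpt : IsCompact {s : ℝ | s ∈ Icc (s₀ - T / 2) (s₀ + T / 2) ∧ δ ≤ |s - s₀|} := by
    have hcl : IsClosed {s : ℝ | δ ≤ |s - s₀|} :=
      isClosed_le continuous_const (by fun_prop)
    exact IsCompact.inter_right isCompact_Icc hcl
  have hHne : ∀ s ∈ {s : ℝ | s ∈ Icc (s₀ - T / 2) (s₀ + T / 2) ∧ δ ≤ |s - s₀|},
      (G s - G s₀) / G' s₀ ≠ 0 := by
    rintro s ⟨⟨h1, h2⟩, h3⟩
    refine div_ne_zero (sub_ne_zero.2 ?_) ha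
    rcases lt_trichotomy s s₀ with h4 | h4 | h4
    · exact lp_inj h h4 (by linarith)
    · rw [h4, sub_self, abs_zero] at h3
      linarith
    · exact (lp_inj h h4 (by linarith)).symm
  obtain ⟨M₀, hM₀⟩ := hcpt.exists_bound_of_continuousOn
    (f := fun s => ((G s - G s₀) / G' s₀)⁻¹)
    (ContinuousOn.inv₀ ((hG.sub continuous_const).div_const _).continuousOn hHne)
  obtain ⟨C, hC⟩ := (isCompact_Icc (a := s₀ - T / 2) (b := s₀ + T / 2)).exists_bound_of_continuousOn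
    (f := fun s => G' s / G' s₀) (h.cont.div_const _).continuousOn
  set M : ℝ := max M₀ 1 with hMd
  have hM : 0 < M := lt_of_lt_of_le one_pos (le_max_right _ _)
  obtain ⟨ε₀, hε₀, hoff⟩ := lp_off h
  set M' : ℝ := 2 * C * M ^ 2 + 1 / δ ^ 2 with hM'
  have hC0 : 0 ≤ C := (norm_nonneg _).trans
    (hC s₀ ⟨by linarith, by linarith⟩)
  have hM'0 : 0 ≤ M' := by positivity
  refine ⟨(M' * T + 4 / T) / Real.pi, min ε₀ (1 / (2 * M)), lt_min hε₀ (by positivity), ?_⟩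
  intro ε hε hεlt
  have hε0 : ε < ε₀ := lt_of_lt_of_le hεlt (min_le_left _ _)
  have hεM : ε < 1 / (2 * M) := lt_of_lt_of_le hεlt (min_le_right _ _)
  have hεM2 : ε ^ 2 * (2 * M ^ 2) ≤ 1 := by
    have h1 : ε * (2 * M) < 1 := by rwa [lt_div_iff₀ (by positivity)] at hεM
    nlinarith [mul_pos hε hM]
  have hp : G s₀ + ε * (Complex.I * G' s₀) ∉ range G :=
    hoff s₀ ε hε.ne' (by rw [abs_of_pos hε]; exact hε0.le)
  have hm : G s₀ - ε * (Complex.I * G' s₀) ∉ range G := by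
    have h1 := hoff s₀ (-ε) (by intro h0; linarith) (by rw [abs_neg, abs_of_pos hε]; exact hε0.le)
    have h2 : G s₀ + ((-ε : ℝ) : ℂ) * (Complex.I * G' s₀) =
        G s₀ - ε * (Complex.I * G' s₀) := by
      push_cast
      ring
    rwa [h2] at h1
  rw [WindC_diff h s₀ ε hp hm]
  -- pointwise
  have hpt : ∀ s ∈ Icc (s₀ - T / 2) (s₀ + T / 2),
      ‖WindC_F G G' s₀ ε s - ((ε / ((s - s₀) ^ 2 + ε ^ 2) : ℝ) : ℂ)‖ ≤
        8 * η * (ε / ((s - s₀) ^ 2 + ε ^ 2)) + ε * M' := by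
    intro s hs
    have hpos : 0 ≤ ε / ((s - s₀) ^ 2 + ε ^ 2) := by positivity
    unfold WindC_F
    by_cases hnear : |s - s₀| < δ
    · have h1 : |s - s₀| ≤ δ₁ := hnear.le.trans (min_le_left _ _)
      have h2 : |s - s₀| < δ₂ := by
        have := lt_of_lt_of_le hnear (min_le_right _ _)
        linarith
      have h3 := WindC_near hη0.le hη hε (hexp s₀ s h1) (hcont s h2)
      refine h3.trans ?_
      have : 0 ≤ ε * M' := by positivity
      linarith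
    · have hfar := not_lt.1 hnear
      have h1 := hM₀ s ⟨hs, hfar⟩
      have h3 := WindC_far (x := s - s₀) hM hδ hε hεM2 (hHne s ⟨hs, hfar⟩)
        (h1.trans (le_max_left _ _)) (hC s hs) hfar
      refine h3.trans ?_
      have : 0 ≤ 8 * η * (ε / ((s - s₀) ^ 2 + ε ^ 2)) := by positivity
      linarith
  have hle : s₀ - T / 2 ≤ s₀ + T / 2 := by linarith
  have hPc : Continuous fun s : ℝ => ε / ((s - s₀) ^ 2 + ε ^ 2) := by
    refine continuous_const.div (by fun_prop) fun s => ?_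
    positivity
  have hFc : Continuous (WindC_F G G' s₀ ε) := by
    unfold WindC_F
    refine Continuous.div (continuous_const.mul (h.cont.div_const _))
      ((((hG.sub continuous_const).div_const _).pow 2).add continuous_const) fun s h0 => ?_
    have e1 : G s - G s₀ - ε * (Complex.I * G' s₀) ≠ 0 := fun e => hp ⟨s, by
      linear_combination e⟩
    have e2 : G s - G s₀ + ε * (Complex.I * G' s₀) ≠ 0 := fun e => hm ⟨s, by
      linear_combination e⟩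
    have e3 : (G s - G s₀ - ε * (Complex.I * G' s₀)) * (G s - G s₀ + ε * (Complex.I * G' s₀)) =
        (((G s - G s₀) / G' s₀) ^ 2 + (ε : ℂ) ^ 2) * G' s₀ ^ 2 := by
      have e4 : (((G s - G s₀) / G' s₀) ^ 2 + (ε : ℂ) ^ 2) * G' s₀ ^ 2 =
          (G s - G s₀) ^ 2 + (ε : ℂ) ^ 2 * G' s₀ ^ 2 := by
        field_simp
      rw [e4]
      have : Complex.I ^ 2 = -1 := Complex.I_sq
      linear_combination (-(ε : ℂ) ^ 2 * G' s₀ ^ 2) * this
    rw [h0, zero_mul] at e3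
    exact mul_ne_zero e1 e2 e3
  have hbound : ‖∫ s in (s₀ - T / 2)..(s₀ + T / 2),
      (WindC_F G G' s₀ ε s - ((ε / ((s - s₀) ^ 2 + ε ^ 2) : ℝ) : ℂ))‖ ≤
      ∫ s in (s₀ - T / 2)..(s₀ + T / 2), (8 * η * (ε / ((s - s₀) ^ 2 + ε ^ 2)) + ε * M') := by
    refine intervalIntegral.norm_integral_le_of_norm_le hle ?_ ?_
    · exact Filter.Eventually.of_forall fun s hs => hpt s ⟨hs.1.le, hs.2⟩
    · exact ((continuous_const.mul hPc).add continuous_const).intervalIntegrable _ _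
  have hPi : ∫ s in (s₀ - T / 2)..(s₀ + T / 2), ε / ((s - s₀) ^ 2 + ε ^ 2) =
      2 * Real.arctan (T / (2 * ε)) := by
    rw [WindC_arctan s₀ hε]
    have e1 : (s₀ + T / 2 - s₀) / ε = T / (2 * ε) := by
      field_simp
      ring
    have e2 : (s₀ - T / 2 - s₀) / ε = -(T / (2 * ε)) := by
      field_simp
      ring
    rw [e1, e2, Real.arctan_neg]
    ring
  have hrhs : ∫ s in (s₀ - T / 2)..(s₀ + T / 2),
      (8 * η * (ε / ((s - s₀) ^ 2 + ε ^ 2)) + ε * M') =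
      8 * η * (2 * Real.arctan (T / (2 * ε))) + ε * M' * T := by
    have i1 : IntervalIntegrable (fun s => 8 * η * (ε / ((s - s₀) ^ 2 + ε ^ 2))) volume
        (s₀ - T / 2) (s₀ + T / 2) := (continuous_const.mul hPc).intervalIntegrable _ _
    have i2 : IntervalIntegrable (fun _ : ℝ => ε * M') volume
        (s₀ - T / 2) (s₀ + T / 2) := continuous_const.intervalIntegrable _ _
    rw [intervalIntegral.integral_add i1 i2, intervalIntegral.integral_const_mul, hPi,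
      intervalIntegral.integral_const, smul_eq_mul]
    ring
  have hlhs : ∫ s in (s₀ - T / 2)..(s₀ + T / 2),
      (WindC_F G G' s₀ ε s - ((ε / ((s - s₀) ^ 2 + ε ^ 2) : ℝ) : ℂ)) =
      (∫ s in (s₀ - T / 2)..(s₀ + T / 2), WindC_F G G' s₀ ε s) -
        ((2 * Real.arctan (T / (2 * ε)) : ℝ) : ℂ) := by
    have i3 : IntervalIntegrable (fun s => ((ε / ((s - s₀) ^ 2 + ε ^ 2) : ℝ) : ℂ)) volume
        (s₀ - T / 2) (s₀ + T / 2) :=
      (Complex.continuous_ofReal.comp hPc).intervalIntegrable _ _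
    rw [intervalIntegral.integral_sub (hFc.intervalIntegrable _ _) i3,
      intervalIntegral.integral_ofReal, hPi]
  rw [hlhs, hrhs] at hbound
  set J : ℂ := ∫ s in (s₀ - T / 2)..(s₀ + T / 2), WindC_F G G' s₀ ε s with hJ
  have hpi : 0 < Real.pi := Real.pi_pos
  have hat1 : 2 * Real.arctan (T / (2 * ε)) ≤ Real.pi := by
    have := Real.arctan_lt_pi_div_two (T / (2 * ε))
    linarith
  have hat2 : Real.pi - 4 * ε / T ≤ 2 * Real.arctan (T / (2 * ε)) := by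
    have h1 := WindC_atan (y := T / (2 * ε)) (by positivity)
    have h2 : 2 * (T / (2 * ε))⁻¹ = 4 * ε / T := by
      field_simp
      ring
    rwa [h2] at h1
  have hJpi : ‖J - (Real.pi : ℂ)‖ ≤ 8 * η * Real.pi + ε * M' * T + 4 * ε / T := by
    have e1 : J - (Real.pi : ℂ) = (J - ((2 * Real.arctan (T / (2 * ε)) : ℝ) : ℂ)) +
        ((2 * Real.arctan (T / (2 * ε)) - Real.pi : ℝ) : ℂ) := by
      push_cast
      ring
    rw [e1]
    refine (norm_add_le _ _).trans ?_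
    have e2 : ‖((2 * Real.arctan (T / (2 * ε)) - Real.pi : ℝ) : ℂ)‖ ≤ 4 * ε / T := by
      rw [Complex.norm_real, Real.norm_eq_abs, abs_le]
      constructor
      · linarith
      · have : 0 ≤ 4 * ε / T := by positivity
        linarith
    have e3 : 8 * η * (2 * Real.arctan (T / (2 * ε))) ≤ 8 * η * Real.pi :=
      mul_le_mul_of_nonneg_left hat1 (by positivity)
    linarith
  have hpic : (Real.pi : ℂ) ≠ 0 := Complex.ofReal_ne_zero.2 hpi.ne'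
  have hfin : (Real.pi : ℂ)⁻¹ * J - 1 = (Real.pi : ℂ)⁻¹ * (J - Real.pi) := by
    rw [mul_sub, inv_mul_cancel₀ hpic]
  rw [hfin, norm_mul, norm_inv, Complex.norm_real, Real.norm_of_nonneg hpi.le]
  have hlast : Real.pi⁻¹ * ‖J - (Real.pi : ℂ)‖ ≤
      Real.pi⁻¹ * (8 * η * Real.pi + ε * M' * T + 4 * ε / T) :=
    mul_le_mul_of_nonneg_left hJpi (by positivity)
  refine hlast.trans (le_of_eq ?_)
  field_simp
  ring

theorem wn_lim (h : Lp T G G') (s₀ : ℝ) :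
    Filter.Tendsto (fun ε : ℝ => wn T G G' (G s₀ + ε * (Complex.I * G' s₀)) -
      wn T G G' (G s₀ - ε * (Complex.I * G' s₀))) (𝓝[>] 0) (𝓝 1) := by
  rw [Metric.tendsto_nhds]
  intro κ hκ
  have hη0 : 0 < min (1 / 6) (κ / 32) := lt_min (by norm_num) (by linarith)
  obtain ⟨M, ε₁, hε₁, hM⟩ := WindC_main h s₀ hη0 (min_le_left _ _)
  have hη1 : 8 * min (1 / 6) (κ / 32) ≤ κ / 4 := by
    have := min_le_right (1 / 6 : ℝ) (κ / 32)
    linarith
  have hb : 0 < κ / (4 * (|M| + 1)) := by positivity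
  have hmem : Ioo (0 : ℝ) (min ε₁ (κ / (4 * (|M| + 1)))) ∈ 𝓝[>] (0 : ℝ) :=
    Ioo_mem_nhdsGT (lt_min hε₁ hb)
  filter_upwards [hmem] with ε hε
  have h1 := hM ε hε.1 (lt_of_lt_of_le hε.2 (min_le_left _ _))
  have h2 : ε < κ / (4 * (|M| + 1)) := lt_of_lt_of_le hε.2 (min_le_right _ _)
  have h3 : ε * M ≤ κ / 4 := by
    have h4 : ε * (4 * (|M| + 1)) < κ := by rwa [lt_div_iff₀ (by positivity)] at h2
    have h5 : ε * M ≤ ε * |M| := mul_le_mul_of_nonneg_left (le_abs_self M) hε.1.le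
    have h6 := hε.1
    nlinarith
  rw [dist_eq_norm]
  linarith

theorem wn_jump (h : Lp T G G') (s₀ : ℝ) : ∃ ε₁ : ℝ, 0 < ε₁ ∧ ∀ ε : ℝ, 0 < ε → ε < ε₁ →
    wn T G G' (G s₀ + ε * (Complex.I * G' s₀)) - wn T G G' (G s₀ - ε * (Complex.I * G' s₀)) = 1 := by
  obtain ⟨M, ε₁, hε₁, hM⟩ := WindC_main h s₀ (η := 1 / 32) (by norm_num) (by norm_num)
  obtain ⟨ε₀, hε₀, hoff⟩ := lp_off h
  have hb : 0 < 1 / (4 * (|M| + 1)) := by positivity
  refine ⟨min (min ε₁ ε₀) (1 / (4 * (|M| + 1))), lt_min (lt_min hε₁ hε₀) hb, ?_⟩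
  intro ε hε hlt
  have a1 : ε < ε₁ := lt_of_lt_of_le hlt ((min_le_left _ _).trans (min_le_left _ _))
  have a2 : ε < ε₀ := lt_of_lt_of_le hlt ((min_le_left _ _).trans (min_le_right _ _))
  have a3 : ε < 1 / (4 * (|M| + 1)) := lt_of_lt_of_le hlt (min_le_right _ _)
  have h1 := hM ε hε a1
  have h3 : ε * M ≤ 1 / 4 := by
    have h4 : ε * (4 * (|M| + 1)) < 1 := by rwa [lt_div_iff₀ (by positivity)] at a3
    have h5 : ε * M ≤ ε * |M| := mul_le_mul_of_nonneg_left (le_abs_self M) hε.le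
    nlinarith
  have hp : G s₀ + ε * (Complex.I * G' s₀) ∉ range G :=
    hoff s₀ ε hε.ne' (by rw [abs_of_pos hε]; exact a2.le)
  have hm : G s₀ - ε * (Complex.I * G' s₀) ∉ range G := by
    have h1 := hoff s₀ (-ε) (by intro h0; linarith) (by rw [abs_neg, abs_of_pos hε]; exact a2.le)
    have h2 : G s₀ + ((-ε : ℝ) : ℂ) * (Complex.I * G' s₀) =
        G s₀ - ε * (Complex.I * G' s₀) := by
      push_cast
      ring
    rwa [h2] at h1
  obtain ⟨k, hk⟩ := wn_int h hp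
  obtain ⟨l, hl⟩ := wn_int h hm
  rw [hk, hl] at h1 ⊢
  have h5 : ‖((k - l - 1 : ℤ) : ℂ)‖ < 1 := by
    have e1 : ((k - l - 1 : ℤ) : ℂ) = (k : ℂ) - l - 1 := by push_cast; ring
    rw [e1]
    refine lt_of_le_of_lt h1 ?_
    norm_num
    linarith
  rw [Complex.norm_intCast] at h5
  have h6 : |k - l - 1| < 1 := by exact_mod_cast h5
  have h7 : k - l - 1 = 0 := Int.abs_lt_one_iff.1 h6
  have h8 : ((k - l - 1 : ℤ) : ℂ) = 0 := by rw [h7]; simp
  push_cast at h8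
  linear_combination h8

end Pool.Agent.H57.CR
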