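import Pool.Agent.H57.CR.WindC

/-!
# The two sides of an embedded closed curve (module WindD)

PROOF. Let `ε₀` be from `lp_off`. The set `A₊ = {G s + ε (i G' s) | s ∈ ℝ, 0 < ε ≤ ε₀}` is preconnected (continuous image of
`ℝ × (0, ε₀]`) and does not meet `range G`, so `wn` is constant on it (`wn_const`), equal to `a`; the same for `A₋` (with `-ε`), equal to `b`;
`a - b = 1` by `wn_jump`. For `z ∉ range G` take `s, l` from `lp_near`: the half open segment `{G s + μ (z - G s) | 0 < μ ≤ 1}` is preconnected and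
off the curve, so `wn z = wn (G s + μ l (i G' s))`, and for small `μ` this point is in `A₊` or `A₋`. For `z` far away
`wn z = 0` (`wn_far`), so `a = 0` or `b = 0`, i.e. `a ∈ {0, 1}`.
-/

set_option autoImplicit false

open scoped Topology
open Set MeasureTheory

namespace Pool.Agent.H57.CR

variable {T : ℝ} {G G' : ℝ → ℂ}

/-- The left side of the curve has winding number `a`, the right side `a - 1`, and there are no other
values; `a = 1` for a positively oriented curve, `a = 0` for a negatively oriented one. -/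
structure Sides (T : ℝ) (G G' : ℝ → ℂ) (a : ℂ) (ε₀ : ℝ) : Prop where
  pos : 0 < ε₀
  val : a = 0 ∨ a = 1
  offL : ∀ s ε : ℝ, 0 < ε → ε ≤ ε₀ → G s + ε * (Complex.I * G' s) ∉ range G
  offR : ∀ s ε : ℝ, 0 < ε → ε ≤ ε₀ → G s - ε * (Complex.I * G' s) ∉ range G
  left : ∀ s ε : ℝ, 0 < ε → ε ≤ ε₀ → wn T G G' (G s + ε * (Complex.I * G' s)) = a
  right : ∀ s ε : ℝ, 0 < ε → ε ≤ ε₀ → wn T G G' (G s - ε * (Complex.I * G' s)) = a - 1
  all : ∀ z ∉ range G, wn T G G' z = a ∨ wn T G G' z = a - 1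

private theorem sides_const (h : Lp T G G') {ε₀ : ℝ} (σ : ℝ)
    (hoff : ∀ s ε : ℝ, 0 < ε → ε ≤ ε₀ → G s + ((σ * ε : ℝ) : ℂ) * (Complex.I * G' s) ∉ range G)
    {s s' ε ε' : ℝ} (h1 : 0 < ε) (h2 : ε ≤ ε₀) (h1' : 0 < ε') (h2' : ε' ≤ ε₀) :
    wn T G G' (G s + ((σ * ε : ℝ) : ℂ) * (Complex.I * G' s)) =
      wn T G G' (G s' + ((σ * ε' : ℝ) : ℂ) * (Complex.I * G' s')) := by
  set F : ℝ × ℝ → ℂ := fun q => G q.1 + ((σ * q.2 : ℝ) : ℂ) * (Complex.I * G' q.1) with hF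
  have hFc : Continuous F := by
    have hG := lp_cont h
    have hG' := h.cont
    have e1 : Continuous fun q : ℝ × ℝ => G q.1 := hG.comp continuous_fst
    have e2 : Continuous fun q : ℝ × ℝ => G' q.1 := hG'.comp continuous_fst
    have e3 : Continuous fun q : ℝ × ℝ => ((σ * q.2 : ℝ) : ℂ) :=
      Complex.continuous_ofReal.comp (by fun_prop)
    exact e1.add (e3.mul (continuous_const.mul e2))
  have hpre : IsPreconnected (F '' ((univ : Set ℝ) ×ˢ Ioc 0 ε₀)) :=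
    (isPreconnected_univ.prod isPreconnected_Ioc).image F hFc.continuousOn
  refine wn_const h hpre ?_ (z := F (s, ε)) (w := F (s', ε')) ?_ ?_
  · rintro z ⟨⟨t, e⟩, ⟨-, he⟩, rfl⟩
    exact hoff t e he.1 he.2
  · exact ⟨(s, ε), ⟨mem_univ _, h1, h2⟩, rfl⟩
  · exact ⟨(s', ε'), ⟨mem_univ _, h1', h2'⟩, rfl⟩

theorem exists_sides (h : Lp T G G') : ∃ (a : ℂ) (ε₀ : ℝ), Sides T G G' a ε₀ := by
  obtain ⟨ε₀, hε₀, hoff⟩ := lp_off h
  have hoffL : ∀ s ε : ℝ, 0 < ε → ε ≤ ε₀ → G s + ε * (Complex.I * G' s) ∉ range G :=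
    fun s ε h1 h2 => hoff s ε h1.ne' (by rwa [abs_of_pos h1])
  have hoffR : ∀ s ε : ℝ, 0 < ε → ε ≤ ε₀ → G s - ε * (Complex.I * G' s) ∉ range G := by
    intro s ε h1 h2
    have h3 := hoff s (-ε) (neg_ne_zero.mpr h1.ne') (by rwa [abs_neg, abs_of_pos h1])
    push_cast at h3
    rwa [neg_mul, ← sub_eq_add_neg] at h3
  have cL : ∀ s s' ε ε' : ℝ, 0 < ε → ε ≤ ε₀ → 0 < ε' → ε' ≤ ε₀ →
      wn T G G' (G s + ε * (Complex.I * G' s)) = wn T G G' (G s' + ε' * (Complex.I * G' s')) := by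
    intro s s' ε ε' h1 h2 h1' h2'
    have := sides_const h (ε₀ := ε₀) 1 (fun s ε h1 h2 => by rw [one_mul]; exact hoffL s ε h1 h2)
      (s := s) (s' := s') h1 h2 h1' h2'
    simpa only [one_mul] using this
  have cR : ∀ s s' ε ε' : ℝ, 0 < ε → ε ≤ ε₀ → 0 < ε' → ε' ≤ ε₀ →
      wn T G G' (G s - ε * (Complex.I * G' s)) = wn T G G' (G s' - ε' * (Complex.I * G' s')) := by
    intro s s' ε ε' h1 h2 h1' h2'
    have e : ∀ (s ε : ℝ), G s + (((-1) * ε : ℝ) : ℂ) * (Complex.I * G' s) =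
        G s - ε * (Complex.I * G' s) := by
      intro s ε
      push_cast
      ring
    have := sides_const h (ε₀ := ε₀) (-1) (fun s ε h1 h2 => by rw [e]; exact hoffR s ε h1 h2)
      (s := s) (s' := s') h1 h2 h1' h2'
    rwa [e, e] at this
  set a : ℂ := wn T G G' (G 0 + ε₀ * (Complex.I * G' 0)) with ha
  obtain ⟨ε₁, hε₁, hjump⟩ := wn_jump h 0
  have hL : ∀ s ε : ℝ, 0 < ε → ε ≤ ε₀ → wn T G G' (G s + ε * (Complex.I * G' s)) = a :=
    fun s ε h1 h2 => cL s 0 ε ε₀ h1 h2 hε₀ le_rfl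
  have hR : ∀ s ε : ℝ, 0 < ε → ε ≤ ε₀ → wn T G G' (G s - ε * (Complex.I * G' s)) = a - 1 := by
    intro s ε h1 h2
    have hm0 : 0 < min ε₀ (ε₁ / 2) := lt_min hε₀ (by linarith)
    have hm1 : min ε₀ (ε₁ / 2) ≤ ε₀ := min_le_left _ _
    have hm2 : min ε₀ (ε₁ / 2) < ε₁ := (min_le_right _ _).trans_lt (by linarith)
    have h3 := hjump _ hm0 hm2
    rw [hL 0 _ hm0 hm1] at h3
    rw [cR s 0 ε _ h1 h2 hm0 hm1]
    linear_combination -h3
  have hall : ∀ z ∉ range G, wn T G G' z = a ∨ wn T G G' z = a - 1 := by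
    intro z hz
    obtain ⟨s, l, hl, hzl, hseg⟩ := lp_near h hz
    set F : ℝ → ℂ := fun μ => G s + μ * (z - G s) with hF
    have hFc : Continuous F :=
      continuous_const.add (Complex.continuous_ofReal.mul continuous_const)
    have hpre : IsPreconnected (F '' Ioc 0 1) := isPreconnected_Ioc.image F hFc.continuousOn
    have hlpos : 0 < |l| := abs_pos.mpr hl
    set μ : ℝ := min 1 (ε₀ / |l|) with hμ
    have hμ0 : 0 < μ := lt_min one_pos (div_pos hε₀ hlpos)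
    have hμ1 : μ ≤ 1 := min_le_left _ _
    have hμl : μ * |l| ≤ ε₀ := by
      have : μ ≤ ε₀ / |l| := min_le_right _ _
      rwa [le_div_iff₀ hlpos] at this
    have hμl0 : 0 < μ * |l| := mul_pos hμ0 hlpos
    have h1 : wn T G G' (F 1) = wn T G G' (F μ) := by
      refine wn_const h hpre ?_ ⟨1, ⟨one_pos, le_rfl⟩, rfl⟩ ⟨μ, ⟨hμ0, hμ1⟩, rfl⟩
      rintro w ⟨ν, ⟨hν0, hν1⟩, rfl⟩
      exact hseg ν hν0 hν1
    have hF1 : F 1 = z := by simp [hF]
    rw [hF1] at h1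
    have hFμ : F μ = G s + ((μ * l : ℝ) : ℂ) * (Complex.I * G' s) := by
      simp only [hF]
      have : z - G s = l * (Complex.I * G' s) := by rw [hzl]; ring
      rw [this]
      push_cast
      ring
    rw [h1, hFμ]
    rcases lt_or_gt_of_ne hl with h2 | h2
    · right
      have h3 := hR s (μ * |l|) hμl0 hμl
      rw [← h3]
      congr 1
      rw [abs_of_neg h2]
      push_cast
      ring
    · left
      rw [abs_of_pos h2] at hμl0 hμl
      exact hL s (μ * l) hμl0 hμl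
  have hval : a = 0 ∨ a = 1 := by
    obtain ⟨R, hR0, -, hfar⟩ := wn_far h
    obtain ⟨h1, h2⟩ := hfar (R : ℂ) (by rw [Complex.norm_real, Real.norm_of_nonneg hR0.le])
    rcases hall _ h1 with h3 | h3
    · left; rw [← h3, h2]
    · right
      rw [h2] at h3
      linear_combination -h3
  exact ⟨a, ε₀, hε₀, hval, hoffL, hoffR, hL, hR, hall⟩

end Pool.Agent.H57.CR
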