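import Pool.Agent.H57.CR.ZBot

/-!
# The action over `O` (module ZAct)

PORT of `Pool/Agent/H2/TG/Act.lean` to `P × ℝ × ℝ`, over the open set `O`. `g x = x.2.2 * sin (θ x)`, smooth, bounded by `M` (zero for `|r| ≥ M`). Extended field `(x, a) ↦ (XZ θ x, g x)` on `(P × ℝ × ℝ) × ℝ`; its flow is `(Ψ t x, a + G t x)`
with `G t x = ∫_0^t g (Ψ s x) ds`, smooth in `(t, x)`, `G (s + t) x = G t x + G s (Ψ t x)`. `A x = - G (-t) x` for all large `t` (for `x.1 ∈ O`; `z_low`; at the bottom `g = 0`), smooth near every `x₀` with `x₀.1 ∈ O` (constant `t`).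
`along`: with `t' ` large, `t'' = t' + t` large: `A (Ψ t x) = - G (-t'') (Ψ t x)` and `G (-t'' + t) x = G t x + G (-t'') (Ψ t x)`, where `G (-t'' + t) x = G (-t') x = - A x`: `A (Ψ t x) = G t x + A x`.
`actZ_deriv`: differentiate `along` at `t = 0`.
-/

set_option autoImplicit false
set_option linter.unusedSectionVars false

open scoped ContDiff Topology
open Set

namespace Pool.Agent.H57.CR

open Pool.Agent.H2.TG (IsFlow)

variable {P : Type} [NormedAddCommGroup P] [NormedSpace ℝ P] [FiniteDimensional ℝ P]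

variable {N O : Set P} {θ : P × ℝ × ℝ → ℝ} {M τ : ℝ} {Ψ : ℝ → P × ℝ × ℝ → P × ℝ × ℝ}

/-- The extended field. -/
private noncomputable def zAct_Y (θ : P × ℝ × ℝ → ℝ) (p : (P × ℝ × ℝ) × ℝ) : (P × ℝ × ℝ) × ℝ :=
  (XZ θ p.1, p.1.2.2 * Real.sin (θ p.1))

private lemma zAct_Y_smooth (hs : ContDiff ℝ ∞ θ) : ContDiff ℝ ∞ (zAct_Y θ) := by
  unfold zAct_Y
  refine ((XZ_contDiff hs).comp contDiff_fst).prodMk ?_
  exact ((contDiff_snd.comp contDiff_snd).comp contDiff_fst).mul
    (Real.contDiff_sin.comp (hs.comp contDiff_fst))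

private lemma zAct_Y_bdd (h : GF N O θ M τ Ψ) (p : (P × ℝ × ℝ) × ℝ) : ‖zAct_Y θ p‖ ≤ max 1 M := by
  unfold zAct_Y XZ
  rw [Prod.norm_def, Prod.norm_def, Prod.norm_def]
  refine max_le (max_le ?_ (max_le ?_ ?_)) ?_
  · simp only
    rw [norm_zero]
    exact le_max_of_le_left zero_le_one
  · simp only
    rw [norm_neg]
    exact le_max_of_le_left (Real.abs_sin_le_one _)
  · exact le_max_of_le_left (Real.abs_cos_le_one _)
  · simp only
    rw [norm_mul, Real.norm_eq_abs, Real.norm_eq_abs]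
    rcases le_or_gt M |p.1.2.2| with h1 | h1
    · rw [h.supp p.1 h1]
      simp [h.hM.le]
    · refine le_max_of_le_right ?_
      calc |p.1.2.2| * |Real.sin (θ p.1)| ≤ |p.1.2.2| * 1 := by
            gcongr
            exact Real.abs_sin_le_one _
        _ ≤ M := by linarith

private lemma zAct_theta (h : GF N O θ M τ Ψ) {x : P × ℝ × ℝ} (hx : x.2.2 ≤ -M) : θ x = 0 := by
  apply h.supp
  have := h.hM
  rw [abs_of_nonpos (by linarith)]
  linarith

theorem exists_actZ (h : GF N O θ M τ Ψ) : ∃ A, ActZ O θ M Ψ A := by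
  have hF := h.flow
  have hX : ContDiff ℝ ∞ (XZ θ) := XZ_contDiff h.smooth
  have hY : ContDiff ℝ ∞ (zAct_Y θ) := zAct_Y_smooth h.smooth
  obtain ⟨Ψh, hΨh⟩ := Pool.Agent.H2.TG.exists_isFlow hY (zAct_Y_bdd h)
  have h1 : ∀ t p, (Ψh t p).1 = Ψ t p.1 := by
    intro t p
    have := hF.unique hX (γ := fun t => (Ψh t p).1) (fun t => (hΨh.deriv p t).fst) t
    simp only [hΨh.zero] at this
    exact this
  set G : ℝ → P × ℝ × ℝ → ℝ := fun t x => (Ψh t (x, 0)).2 with hGdef
  have h2 : ∀ t x a, Ψh t (x, a) = (Ψ t x, a + G t x) := by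
    intro t x a
    have := hΨh.trans hY (w := ((0 : P × ℝ × ℝ), a)) (fun p => by simp [zAct_Y]) t (x, 0)
    have e : ((x, 0) + ((0 : P × ℝ × ℝ), a) : (P × ℝ × ℝ) × ℝ) = (x, a) := by simp
    rw [e] at this
    rw [this]
    refine Prod.ext ?_ ?_
    · simp [h1]
    · simp [hGdef, add_comm]
  have h3 : ∀ s t x, G (s + t) x = G t x + G s (Ψ t x) := by
    intro s t x
    have := hΨh.add hY s t (x, 0)
    rw [h2 t x 0, h2 s, h2 (s + t)] at this
    have := congrArg Prod.snd this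
    simp only at this
    linarith
  have h4 : ∀ t, ContDiff ℝ ∞ (G t) := fun t =>
    contDiff_snd.comp ((hΨh.contDiff_t t).comp (contDiff_id.prodMk contDiff_const))
  have h5 : ∀ x t, HasDerivAt (fun t => G t x) ((Ψ t x).2.2 * Real.sin (θ (Ψ t x))) t := by
    intro x t
    have := (hΨh.deriv (x, 0) t).snd
    simp only [zAct_Y, h1] at this
    exact this
  have h0 : ∀ x, G 0 x = 0 := fun x => by simp [hGdef, hΨh.zero]
  have h6 : ∀ b : P × ℝ × ℝ, b.2.2 ≤ -M → ∀ t ≤ 0, G t b = 0 := by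
    intro b hb t ht
    have hc : ∀ s ∈ Icc t 0, G s b = G t b := by
      refine constant_of_has_deriv_right_zero
        (fun s _ => (h5 b s).continuousAt.continuousWithinAt) fun s hs => ?_
      have h7 := h5 b s
      have h8 := z_down h hb hs.2.le
      have h9 : θ (Ψ s b) = 0 := by
        rw [h8]
        exact zAct_theta h (by simpa using by linarith [hs.2])
      rw [h9, Real.sin_zero, mul_zero] at h7
      exact h7.hasDerivWithinAt
    rw [← hc 0 ⟨ht, le_rfl⟩, h0]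
  have h7 : ∀ x t t', t ≤ t' → (Ψ (-t) x).2.2 ≤ -M → G (-t') x = G (-t) x := by
    intro x t t' htt hx
    have := h3 (-(t' - t)) (-t) x
    rw [h6 _ hx _ (by linarith)] at this
    have e : -(t' - t) + -t = -t' := by ring
    rw [e] at this
    linarith
  choose τ₁ hτ₁ hlow using fun R => z_low h R
  have h8 : ∀ (x : P × ℝ × ℝ) (R t : ℝ), x.1 ∈ O → x.2.2 ≤ R → (Ψ (-t) x).2.2 ≤ -M →
      G (-τ₁ R) x = G (-t) x := by
    intro x R t hx hR ht
    have a := h7 x t (max t (τ₁ R)) (le_max_left _ _) ht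
    have b := h7 x (τ₁ R) (max t (τ₁ R)) (le_max_right _ _) (hlow R x hx hR _ le_rfl)
    rw [← a, ← b]
  have h9 : ∀ (x : P × ℝ × ℝ) (t : ℝ), x.1 ∈ O → (Ψ (-t) x).2.2 ≤ -M →
      -G (-τ₁ (x.2.2 + 1)) x = -G (-t) x := fun x t hx ht => by
    rw [h8 x (x.2.2 + 1) t hx (by linarith) ht]
  refine ⟨fun x => -G (-τ₁ (x.2.2 + 1)) x, ?_, ?_, ?_⟩
  · intro x₀ hx₀
    have hO : x₀.1 ∈ O := hx₀.1
    have hloc : (fun x : P × ℝ × ℝ => -G (-τ₁ (x.2.2 + 1)) x) =ᶠ[𝓝 x₀]
        fun x => -G (-τ₁ (x₀.2.2 + 1)) x := by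
      have e1 : ∀ᶠ x : P × ℝ × ℝ in 𝓝 x₀, x.1 ∈ O :=
        continuous_fst.continuousAt.eventually (h.openO.mem_nhds hO)
      have e2 : ∀ᶠ x : P × ℝ × ℝ in 𝓝 x₀, x.2.2 < x₀.2.2 + 1 :=
        (continuous_snd.comp continuous_snd).continuousAt.eventually
          (Iio_mem_nhds (show x₀.2.2 < x₀.2.2 + 1 by linarith))
      filter_upwards [e1, e2] with x hx1 hx2
      exact h9 x (τ₁ (x₀.2.2 + 1)) hx1 (hlow _ x hx1 hx2.le _ le_rfl)
    exact (((h4 (-τ₁ (x₀.2.2 + 1))).neg.contDiffAt).congr_of_eventuallyEq hloc).contDiffWithinAt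
  · intro x hxO hx
    have := h9 x 0 hxO (by rw [neg_zero, hF.zero]; exact hx)
    rw [neg_zero, h0, neg_zero] at this
    exact this
  · intro x t hx
    have hc : Continuous fun s => (Ψ s x).2.2 * Real.sin (θ (Ψ s x)) := by
      have hΨc : Continuous fun s => Ψ s x :=
        continuous_iff_continuousAt.2 fun s => (hF.deriv x s).continuousAt
      exact ((continuous_snd.comp continuous_snd).comp hΨc).mul
        (Real.continuous_sin.comp (h.smooth.continuous.comp hΨc))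
    have hint : ∫ s in (0 : ℝ)..t, (Ψ s x).2.2 * Real.sin (θ (Ψ s x)) = G t x := by
      rw [intervalIntegral.integral_eq_sub_of_hasDerivAt (f := fun t => G t x)
        (fun s _ => h5 x s) (hc.intervalIntegrable _ _), h0, sub_zero]
    rw [hint]
    have hxt : (Ψ t x).1 ∈ O := by
      rw [z_fst hF]
      exact hx
    have ht' := hlow x.2.2 x hx le_rfl _ le_rfl
    set t' := τ₁ x.2.2
    have e1 : Ψ (-(t' + t)) (Ψ t x) = Ψ (-t') x := by
      rw [hF.add hX]
      congr 1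
      ring
    have ea := h9 x t' hx ht'
    have eb := h9 (Ψ t x) (t' + t) hxt (by rw [e1]; exact ht')
    have ec := h3 (-(t' + t)) t x
    have e2 : -(t' + t) + t = -t' := by ring
    rw [e2] at ec
    rw [ea, eb]
    linarith

theorem actZ_deriv (h : GF N O θ M τ Ψ) {A : P × ℝ × ℝ → ℝ} (hA : ActZ O θ M Ψ A)
    {x : P × ℝ × ℝ} (hx : x.1 ∈ O) :
    dpl A x (-Real.sin (θ x)) (Real.cos (θ x)) = x.2.2 * Real.sin (θ x) := by
  have hF := h.flow
  have hc : Continuous fun s => (Ψ s x).2.2 * Real.sin (θ (Ψ s x)) := by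
    have hΨc : Continuous fun s => Ψ s x :=
      continuous_iff_continuousAt.2 fun s => (hF.deriv x s).continuousAt
    exact ((continuous_snd.comp continuous_snd).comp hΨc).mul
      (Real.continuous_sin.comp (h.smooth.continuous.comp hΨc))
  have hd1 : HasDerivAt (fun t => A (Ψ t x)) (fderiv ℝ A x (XZ θ x)) 0 := by
    have hd := hF.deriv x 0
    rw [hF.zero] at hd
    have hnh : (O ×ˢ univ : Set (P × ℝ × ℝ)) ∈ 𝓝 x :=
      (h.openO.prod isOpen_univ).mem_nhds ⟨hx, mem_univ _⟩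
    have hdA : DifferentiableAt ℝ A (Ψ 0 x) := by
      rw [hF.zero]
      exact (hA.smooth.contDiffAt hnh).differentiableAt (by simp)
    have := hdA.hasFDerivAt.comp_hasDerivAt (0 : ℝ) hd
    rw [hF.zero] at this
    exact this
  have hd2 : HasDerivAt (fun t => A x + ∫ s in (0 : ℝ)..t, (Ψ s x).2.2 * Real.sin (θ (Ψ s x)))
      (x.2.2 * Real.sin (θ x)) 0 := by
    have := (intervalIntegral.integral_hasDerivAt_right (hc.intervalIntegrable 0 0)
      (hc.stronglyMeasurableAtFilter _ _) hc.continuousAt).const_add (A x)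
    rw [hF.zero] at this
    exact this
  have hfun : (fun t => A (Ψ t x)) =
      fun t => A x + ∫ s in (0 : ℝ)..t, (Ψ s x).2.2 * Real.sin (θ (Ψ s x)) :=
    funext fun t => hA.along x t hx
  rw [hfun] at hd1
  exact hd1.unique hd2

end Pool.Agent.H57.CR
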