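import Pool.Agent.H57.CR.ZNb

/-!
# The bottom coordinate over `O` (module ZBot)

PORT of `Pool/Agent/H2/TG/Bot.lean` to `P × ℝ × ℝ`, over the open set `O` of parameters (`h : GF N O θ M τ Ψ`; `x.1` is constant along orbits, `z_fst`): `x.2` becomes `x.2.2`, `B` is real valued, `B x = (Ψ (-t) x).2.1` for large `t`.
`z_low`, `z_high`: as `low`, `high`. Smoothness on `O ×ˢ univ`: near `x₀` with `x₀.1 ∈ O`, `B x = (Ψ (-τ₁) x).2.1` with a constant `τ₁ = τ₁(R)`, `R = x₀.2.2 + 1`. `ker`: near `x`, `B = (Ψ (-t') ·).2.1` with a constant `t'` such that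
`(Ψ (-t') x).2.2 < -M`. If `dpl B x a b = 0` put `z = D(Ψ (-t'))(x)(0, a, b)`: `z.1 = 0` (`z_fst`: the first component of `Ψ (-t')` is `x ↦ x.1`), `z.2.1 = 0`, so `z = (0, 0, c) = c • XZ θ (Ψ (-t') x)`; apply `D(Ψ t')`
(`IsFlow.fderiv_inv`, `IsFlow.fderiv_X`): `(0, a, b) = c • XZ θ x`.
-/

set_option autoImplicit false
set_option linter.unusedSectionVars false

open scoped ContDiff Topology
open Set

namespace Pool.Agent.H57.CR

open Pool.Agent.H2.TG (IsFlow)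

variable {P : Type} [NormedAddCommGroup P] [NormedSpace ℝ P] [FiniteDimensional ℝ P]

variable {N O : Set P} {θ : P × ℝ × ℝ → ℝ} {M τ : ℝ} {Ψ : ℝ → P × ℝ × ℝ → P × ℝ × ℝ}

theorem XZ_contDiff (hs : ContDiff ℝ ∞ θ) : ContDiff ℝ ∞ (XZ θ) := by
  exact contDiff_const.prodMk ((hs.sin.neg).prodMk hs.cos)

private theorem ZBot_vert (h : GF N O θ M τ Ψ) {x : P × ℝ × ℝ} {t : ℝ}
    (h0 : ∀ σ, |σ| ≤ |t| / 2 → θ (x.1, x.2.1, x.2.2 + t / 2 + σ) = 0) :
    Ψ t x = (x.1, x.2.1, x.2.2 + t) := by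
  have hθ : ContDiff ℝ ∞ fun y : ℝ × ℝ => θ (x.1, y) :=
    h.smooth.comp (contDiff_const.prodMk contDiff_id)
  obtain ⟨Φ, hΦ⟩ := exists_pflow hθ
  have h1 := z_plane h.smooth h.flow x.1 hΦ t x.2
  have h2 : Φ t x.2 = (x.2.1, x.2.2 + t) := p_vert hθ hΦ h0
  rw [h2] at h1
  exact h1

theorem z_down (h : GF N O θ M τ Ψ) {x : P × ℝ × ℝ} (hx : x.2.2 ≤ -M) {t : ℝ} (ht : t ≤ 0) :
    Ψ t x = (x.1, x.2.1, x.2.2 + t) := by
  refine ZBot_vert h fun σ hσ => h.supp _ ?_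
  rw [abs_of_nonpos ht] at hσ
  have h1 := (abs_le.1 hσ).2
  show M ≤ |x.2.2 + t / 2 + σ|
  rw [le_abs]
  right
  linarith

theorem z_up (h : GF N O θ M τ Ψ) {x : P × ℝ × ℝ} (hx : M ≤ x.2.2) {t : ℝ} (ht : 0 ≤ t) :
    Ψ t x = (x.1, x.2.1, x.2.2 + t) := by
  refine ZBot_vert h fun σ hσ => h.supp _ ?_
  rw [abs_of_nonneg ht] at hσ
  have h1 := (abs_le.1 hσ).1
  show M ≤ |x.2.2 + t / 2 + σ|
  rw [le_abs]
  left
  linarith

private theorem ZBot_down (h : GF N O θ M τ Ψ) {y : P × ℝ × ℝ} (hy : y.2.2 ≤ -M) {t : ℝ}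
    (ht : 0 ≤ t) : (Ψ (-t) y).2.2 ≤ -M := by
  rw [z_down h hy (by linarith : -t ≤ 0)]
  show y.2.2 + -t ≤ -M
  linarith

private theorem ZBot_up (h : GF N O θ M τ Ψ) {y : P × ℝ × ℝ} (hy : M ≤ y.2.2) {t : ℝ}
    (ht : 0 ≤ t) : M ≤ (Ψ t y).2.2 := by
  rw [z_up h hy ht]
  show M ≤ y.2.2 + t
  linarith

private theorem ZBot_mid (h : GF N O θ M τ Ψ) {y : P × ℝ × ℝ} (hyO : y.1 ∈ O) (hy : y.2.2 ≤ M)
    {t : ℝ} (ht0 : 0 ≤ t) (ht : τ ≤ t) : (Ψ (-t) y).2.2 ≤ -M := by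
  have hX := XZ_contDiff h.smooth
  by_cases h1 : y.2.2 ≤ -M
  · exact ZBot_down h h1 ht0
  · have h2 := (h.good y hyO (abs_le.2 ⟨by linarith, hy⟩)).2
    have h3 : Ψ (-t) y = Ψ (-(t - τ)) (Ψ (-τ) y) := by
      rw [h.flow.add hX]; congr 1; ring
    rw [h3]
    exact ZBot_down h (by linarith) (by linarith)

private theorem ZBot_mid' (h : GF N O θ M τ Ψ) {y : P × ℝ × ℝ} (hyO : y.1 ∈ O)
    (hy : -M ≤ y.2.2) {t : ℝ} (ht0 : 0 ≤ t) (ht : τ ≤ t) : M ≤ (Ψ t y).2.2 := by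
  have hX := XZ_contDiff h.smooth
  by_cases h1 : M ≤ y.2.2
  · exact ZBot_up h h1 ht0
  · have h2 := (h.good y hyO (abs_le.2 ⟨hy, by linarith⟩)).1
    have h3 : Ψ t y = Ψ (t - τ) (Ψ τ y) := by
      rw [h.flow.add hX]; congr 1; ring
    rw [h3]
    exact ZBot_up h (by linarith) (by linarith)

private theorem ZBot_mem (h : GF N O θ M τ Ψ) {x : P × ℝ × ℝ} (hx : x.1 ∈ O) (t : ℝ) :
    (Ψ t x).1 ∈ O := by
  rw [z_fst h.flow]
  exact hx

theorem z_low (h : GF N O θ M τ Ψ) (R : ℝ) : ∃ τ₁ : ℝ, 0 < τ₁ ∧ ∀ x : P × ℝ × ℝ, x.1 ∈ O →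
    x.2.2 ≤ R → ∀ t, τ₁ ≤ t → (Ψ (-t) x).2.2 ≤ -M := by
  have hX := XZ_contDiff h.smooth
  have hM := h.hM
  have hτ := h.hτ
  have hR0 := abs_nonneg R
  have hR1 := le_abs_self R
  refine ⟨τ + |R| + M + 1, by linarith, fun x hxO hx t ht => ?_⟩
  by_cases h1 : x.2.2 ≤ M
  · exact ZBot_mid h hxO h1 (by linarith) (by linarith)
  · push Not at h1
    have h2 : (Ψ (-(x.2.2 - M)) x).2.2 ≤ M := by
      by_contra h3
      push Not at h3
      have h4 := z_up h h3.le (t := x.2.2 - M) (by linarith)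
      rw [h.flow.add hX] at h4
      have h5 : x.2.2 - M + -(x.2.2 - M) = 0 := by ring
      rw [h5, h.flow.zero] at h4
      have h6 := congrArg (fun y : P × ℝ × ℝ => y.2.2) h4
      simp only at h6
      linarith
    have h3 : Ψ (-t) x = Ψ (-(t - (x.2.2 - M))) (Ψ (-(x.2.2 - M)) x) := by
      rw [h.flow.add hX]; congr 1; ring
    rw [h3]
    exact ZBot_mid h (ZBot_mem h hxO _) h2 (by linarith) (by linarith)

theorem z_high (h : GF N O θ M τ Ψ) {x : P × ℝ × ℝ} (hx : x.1 ∈ O) :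
    ∃ t₀ : ℝ, ∀ t, t₀ ≤ t → M ≤ (Ψ t x).2.2 := by
  have hX := XZ_contDiff h.smooth
  have hM := h.hM
  have hτ := h.hτ
  have hR0 := abs_nonneg x.2.2
  have hR1 := neg_abs_le x.2.2
  refine ⟨τ + |x.2.2| + M + 1, fun t ht => ?_⟩
  by_cases h1 : -M ≤ x.2.2
  · exact ZBot_mid' h hx h1 (by linarith) (by linarith)
  · push Not at h1
    have h2 : -M ≤ (Ψ (-M - x.2.2) x).2.2 := by
      by_contra h3
      push Not at h3
      have h4 := z_down h h3.le (t := -(-M - x.2.2)) (by linarith)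
      rw [h.flow.add hX] at h4
      have h5 : -(-M - x.2.2) + (-M - x.2.2) = 0 := by ring
      rw [h5, h.flow.zero] at h4
      have h6 := congrArg (fun y : P × ℝ × ℝ => y.2.2) h4
      simp only at h6
      linarith
    have h3 : Ψ t x = Ψ (t - (-M - x.2.2)) (Ψ (-M - x.2.2) x) := by
      rw [h.flow.add hX]; congr 1; ring
    rw [h3]
    exact ZBot_mid' h (ZBot_mem h hx _) h2 (by linarith) (by linarith)

private theorem ZBot_same (h : GF N O θ M τ Ψ) {b : P × ℝ × ℝ} (hb : b.2.2 ≤ -M)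
    {t : ℝ} (ht : (Ψ t b).2.2 ≤ -M) : (Ψ t b).2.1 = b.2.1 := by
  have hX := XZ_contDiff h.smooth
  rcases le_total t 0 with h0 | h0
  · rw [z_down h hb h0]
  · have h1 := z_down h ht (t := -t) (by linarith)
    rw [h.flow.add hX] at h1
    have h5 : -t + t = 0 := by ring
    rw [h5, h.flow.zero] at h1
    have h6 := congrArg (fun y : P × ℝ × ℝ => y.2.1) h1
    exact h6.symm

theorem exists_botZ (h : GF N O θ M τ Ψ) : ∃ B, BotZ O θ M Ψ B := by
  have hX := XZ_contDiff h.smooth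
  have hM := h.hM
  choose τ₁ hτ₁ hlow using z_low h
  set B : P × ℝ × ℝ → ℝ := fun x => (Ψ (-(τ₁ (x.2.2 + 1))) x).2.1 with hBdef
  -- the main property
  have hB : ∀ x t, x.1 ∈ O → (Ψ t x).2.2 ≤ -M → B x = (Ψ t x).2.1 := by
    intro x t hxO ht
    have h1 := hlow (x.2.2 + 1) x hxO (by linarith) (τ₁ (x.2.2 + 1)) le_rfl
    have h3 : Ψ (-(τ₁ (x.2.2 + 1)) - t) (Ψ t x) = Ψ (-(τ₁ (x.2.2 + 1))) x := by
      rw [h.flow.add hX]; congr 1; ring
    have h4 := ZBot_same h ht (t := -(τ₁ (x.2.2 + 1)) - t) (by rw [h3]; exact h1)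
    rw [h3] at h4
    exact h4
  -- local form
  have hloc : ∀ x₀ : P × ℝ × ℝ, x₀.1 ∈ O →
      B =ᶠ[𝓝 x₀] fun y => (Ψ (-(τ₁ (x₀.2.2 + 1))) y).2.1 := by
    intro x₀ hx₀
    have ho : IsOpen {y : P × ℝ × ℝ | y.2.2 < x₀.2.2 + 1} :=
      isOpen_lt (continuous_snd.comp continuous_snd) continuous_const
    have ho2 : IsOpen {y : P × ℝ × ℝ | y.1 ∈ O} := h.openO.preimage continuous_fst
    filter_upwards [ho.mem_nhds (show x₀.2.2 < x₀.2.2 + 1 by linarith), ho2.mem_nhds hx₀]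
      with y hy hyO
    exact hB y _ hyO (hlow (x₀.2.2 + 1) y hyO (le_of_lt hy) _ le_rfl)
  refine ⟨B, ?_, ?_, ?_, ?_, ?_, ?_⟩
  · -- smooth
    intro x₀ hx₀
    have h1 : ContDiff ℝ ∞ fun y => (Ψ (-(τ₁ (x₀.2.2 + 1))) y).2.1 :=
      contDiff_fst.comp (contDiff_snd.comp (h.flow.contDiff_t _))
    exact (h1.contDiffAt.congr_of_eventuallyEq (hloc x₀ hx₀.1)).contDiffWithinAt
  · -- bot
    intro x hxO hx
    rw [hB x 0 hxO (by rw [h.flow.zero]; exact hx), h.flow.zero]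
  · -- inv
    intro t x hxO
    have h1 := hlow x.2.2 x hxO le_rfl (τ₁ x.2.2) le_rfl
    have h3 : Ψ (-(τ₁ x.2.2) - t) (Ψ t x) = Ψ (-(τ₁ x.2.2)) x := by
      rw [h.flow.add hX]; congr 1; ring
    rw [hB x _ hxO h1, hB (Ψ t x) (-(τ₁ x.2.2) - t) (ZBot_mem h hxO t)
      (by rw [h3]; exact h1), h3]
  · -- orb
    intro x hxO
    have h1 := hlow x.2.2 x hxO le_rfl (τ₁ x.2.2) le_rfl
    set p := Ψ (-(τ₁ x.2.2)) x with hp
    have h2 : B x = p.2.1 := hB x _ hxO h1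
    have hp1 : p.1 = x.1 := z_fst h.flow _ _
    have h3 := z_down h (x := (x.1, B x, -M)) (le_refl (-M)) (t := p.2.2 + M) (by linarith)
    have h4 : ((x.1, B x, -M).1, (x.1, B x, -M).2.1, (x.1, B x, -M).2.2 + (p.2.2 + M)) = p := by
      refine Prod.ext ?_ (Prod.ext ?_ ?_)
      · exact hp1.symm
      · exact h2
      · show -M + (p.2.2 + M) = p.2.2
        ring
    refine ⟨-(p.2.2 + M) + -(τ₁ x.2.2), ?_⟩
    have h5 : -(p.2.2 + M) + (p.2.2 + M) = 0 := by ring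
    have h6 : Ψ (p.2.2 + M) (x.1, B x, -M) = p := h3.trans h4
    have h7 : Ψ (-(p.2.2 + M)) (Ψ (p.2.2 + M) (x.1, B x, -M)) = (x.1, B x, -M) := by
      rw [h.flow.add hX, h5, h.flow.zero]
    rw [h6] at h7
    rw [← h.flow.add hX, ← hp]
    exact h7
  · -- ker
    intro x hxO a b hab
    set t' := τ₁ (x.2.2 + 1) with ht'
    have h0 := hlow (x.2.2 + 1) x hxO (by linarith) t' le_rfl
    have hd : HasFDerivAt (Ψ (-t')) (fderiv ℝ (Ψ (-t')) x) x :=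
      (h.flow.differentiable (-t') x).hasFDerivAt
    set w : P × ℝ × ℝ := (0, a, b) with hw
    have h1 : fderiv ℝ B x w = (fderiv ℝ (Ψ (-t')) x w).2.1 := by
      rw [(hloc x hxO).fderiv_eq]
      have := ((hd.snd).fst).fderiv
      rw [this]
      rfl
    have h2 : (fderiv ℝ (Ψ (-t')) x w).2.1 = 0 := by
      rw [← h1]
      exact hab
    have h20 : (fderiv ℝ (Ψ (-t')) x w).1 = 0 := by
      have h21 : HasFDerivAt (fun y => (Ψ (-t') y).1)
          ((ContinuousLinearMap.fst ℝ P (ℝ × ℝ)).comp (fderiv ℝ (Ψ (-t')) x)) x := hd.fst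
      have h22 : (fun y => (Ψ (-t') y).1) = fun y : P × ℝ × ℝ => y.1 := by
        funext y
        exact z_fst h.flow _ _
      rw [h22] at h21
      have h23 := h21.unique (hasFDerivAt_fst (𝕜 := ℝ) (p := x))
      have h24 := congrArg (fun L : P × ℝ × ℝ →L[ℝ] P => L w) h23
      exact h24
    set c := (fderiv ℝ (Ψ (-t')) x w).2.2 with hc
    have h3 : XZ θ (Ψ (-t') x) = (0, 0, 1) := by
      have h4 : θ (Ψ (-t') x) = 0 := h.supp _ (by
        rw [le_abs]; right; linarith)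
      simp [XZ, h4]
    have h4 : fderiv ℝ (Ψ (-t')) x w = c • XZ θ (Ψ (-t') x) := by
      rw [h3]
      refine Prod.ext ?_ (Prod.ext ?_ ?_)
      · rw [h20]; simp
      · rw [h2]; simp
      · simp [hc]
    have h5 : fderiv ℝ (Ψ (-t')) x (w - c • XZ θ x) = 0 := by
      rw [map_sub, map_smul, h.flow.fderiv_X hX, h4, sub_self]
    have h6 := h.flow.fderiv_inv hX (-t') x (w - c • XZ θ x)
    rw [h5, map_zero] at h6
    have h7 : w = c • XZ θ x := sub_eq_zero.1 h6.symm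
    refine ⟨c, ?_, ?_⟩
    · have := congrArg (fun y : P × ℝ × ℝ => y.2.1) h7
      simp only [hw, XZ, Prod.smul_mk, smul_eq_mul] at this
      rw [this]
      ring
    · have := congrArg (fun y : P × ℝ × ℝ => y.2.2) h7
      simp only [hw, XZ, Prod.smul_mk, smul_eq_mul] at this
      exact this
  · -- val
    intro x t hxO ht
    exact hB x (-t) hxO ht

end Pool.Agent.H57.CR
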