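import Pool.Agent.H57.CR.ZDefs
import Pool.Agent.H57.CR.PFlow

/-!
# Good flows over a neighbourhood of `N` (module ZNb)

PROOFS.
* `z_basic`: `XZ θ` is smooth and bounded (`exists_isFlow`), `(Ψ t x).1 = x.1` (first component of the field is `0`), and for fixed `q` the curve `t ↦ (Ψ t (q, y)).2` is the integral curve of `XP (θ (q, ·))`: if `Ψ_q` is the flow of
  `XP (fun y => θ (q, y))` then `Ψ t (q, y) = (q, Ψ_q t y)` (`IsFlow.unique`).
* `z_shift`: if `θ (q, t + s, r) = θ (q', t, r)` for all `t, r`, then `Ψ τ (q, t + s, r) = (q, t' + s, r')` where `Ψ τ (q', t, r) = (q', t', r')`: uniqueness of integral curves.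
* `exists_GF`: let `τ₀` be the uniform time over `N`, `τ = τ₀ + 1`. Let `O = {q | ∀ t ∈ [0, 1], ∀ r ∈ [-M, M], M < (Ψ τ₀ (q, t, r)).2.2 ∧ (Ψ (-τ₀) (q, t, r)).2.2 < -M}`: it contains `N`, and it is open (tube lemma:
  `isCompact` of `[0, 1] × [-M, M]`, continuity of `Ψ (± τ₀)`; e.g. `IsCompact.isOpen_...`/`generalized_tube_lemma`). By periodicity (`z_shift` with `q' = q`, `s` an integer) the inequalities hold for all `t`; then one more unit
  of time gives `M + 1` and `-M - 1` (`good_of` of module PFlow for `θ (q, ·)`, which satisfies `PPh` with some constants — or directly: for `|r| ≥ M` the field is `(0, 0, 1)`).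
-/

set_option autoImplicit false
set_option linter.unusedSectionVars false

open scoped ContDiff Topology
open Set

namespace Pool.Agent.H57.CR

open Pool.Agent.H2.TG (IsFlow)

variable {P : Type} [NormedAddCommGroup P] [NormedSpace ℝ P] [FiniteDimensional ℝ P]

variable {N : Set P} {θ : P × ℝ × ℝ → ℝ} {M : ℝ} {Ψ : ℝ → P × ℝ × ℝ → P × ℝ × ℝ}

private theorem znb_fst {A B : Type} [NormedAddCommGroup A] [NormedSpace ℝ A]
    [NormedAddCommGroup B] [NormedSpace ℝ B] {f : ℝ → A × B} {f' : A × B} {t : ℝ}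
    (h : HasDerivAt f f' t) : HasDerivAt (fun t => (f t).1) f'.1 t :=
  (ContinuousLinearMap.fst ℝ A B).hasFDerivAt.comp_hasDerivAt t h

private theorem znb_snd {A B : Type} [NormedAddCommGroup A] [NormedSpace ℝ A]
    [NormedAddCommGroup B] [NormedSpace ℝ B] {f : ℝ → A × B} {f' : A × B} {t : ℝ}
    (h : HasDerivAt f f' t) : HasDerivAt (fun t => (f t).2) f'.2 t :=
  (ContinuousLinearMap.snd ℝ A B).hasFDerivAt.comp_hasDerivAt t h

private theorem znb_smooth (hs : ContDiff ℝ ∞ θ) : ContDiff ℝ ∞ (XZ θ) :=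
  contDiff_const.prodMk (hs.sin.neg.prodMk hs.cos)

private theorem znb_plane_smooth (hs : ContDiff ℝ ∞ θ) (q : P) :
    ContDiff ℝ ∞ fun y : ℝ × ℝ => θ (q, y) :=
  hs.comp (contDiff_const.prodMk contDiff_id)

theorem exists_zflow (hs : ContDiff ℝ ∞ θ) : ∃ Ψ, IsFlow (XZ θ) Ψ := by
  refine Pool.Agent.H2.TG.exists_isFlow (znb_smooth hs) (K := 1) fun x => ?_
  rw [Prod.norm_def]
  refine max_le ?_ ?_
  · show ‖(0 : P)‖ ≤ 1
    simp
  · rw [Prod.norm_def]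
    refine max_le ?_ ?_
    · show ‖-Real.sin (θ x)‖ ≤ 1
      rw [Real.norm_eq_abs, abs_neg]
      exact Real.abs_sin_le_one _
    · show ‖Real.cos (θ x)‖ ≤ 1
      rw [Real.norm_eq_abs]
      exact Real.abs_cos_le_one _

theorem z_fst (hF : IsFlow (XZ θ) Ψ) (t : ℝ) (x : P × ℝ × ℝ) : (Ψ t x).1 = x.1 := by
  have h1 : ∀ t, HasDerivAt (fun t => (Ψ t x).1) 0 t := fun t => znb_fst (hF.deriv x t)
  have h2 := is_const_of_deriv_eq_zero (fun t => (h1 t).differentiableAt)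
    (fun t => (h1 t).deriv) t 0
  simp only [hF.zero] at h2
  exact h2

theorem z_plane (hs : ContDiff ℝ ∞ θ) (hF : IsFlow (XZ θ) Ψ) (q : P) {Φ : ℝ → ℝ × ℝ → ℝ × ℝ}
    (hΦ : IsFlow (XP fun y => θ (q, y)) Φ) (t : ℝ) (y : ℝ × ℝ) : Ψ t (q, y) = (q, Φ t y) := by
  have h := hF.unique (znb_smooth hs) (γ := fun t => (q, Φ t y)) (fun t => by
    have h1 : HasDerivAt (fun _ : ℝ => q) 0 t := hasDerivAt_const t q
    have h2 := h1.prodMk (hΦ.deriv y t)
    exact h2) t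
  simp only [hΦ.zero] at h
  exact h.symm

theorem z_shift (hs : ContDiff ℝ ∞ θ) (hF : IsFlow (XZ θ) Ψ) {q q' : P} {s : ℝ}
    (he : ∀ t r : ℝ, θ (q, t + s, r) = θ (q', t, r)) (τ t r : ℝ) :
    Ψ τ (q, t + s, r) = (q, (Ψ τ (q', t, r)).2.1 + s, (Ψ τ (q', t, r)).2.2) := by
  have h := hF.unique (znb_smooth hs)
    (γ := fun τ => (q, (Ψ τ (q', t, r)).2.1 + s, (Ψ τ (q', t, r)).2.2)) (fun τ => by
    have h1 : HasDerivAt (fun _ : ℝ => q) 0 τ := hasDerivAt_const τ q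
    have h2 := znb_snd (hF.deriv (q', t, r) τ)
    have h3 := (znb_fst h2).add_const s
    have h4 := znb_snd h2
    have h5 := h1.prodMk (h3.prodMk h4)
    have h6 : θ (q, (Ψ τ (q', t, r)).2.1 + s, (Ψ τ (q', t, r)).2.2) =
        θ (Ψ τ (q', t, r)) := by
      rw [he]
      congr 1
      exact Prod.ext (z_fst hF τ (q', t, r)).symm rfl
    have h7 : XZ θ (q, (Ψ τ (q', t, r)).2.1 + s, (Ψ τ (q', t, r)).2.2) =
        (0, (XZ θ (Ψ τ (q', t, r))).2.1, (XZ θ (Ψ τ (q', t, r))).2.2) := by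
      simp only [XZ, h6]
    rw [h7]
    exact h5) τ
  simp only [hF.zero] at h
  exact h.symm

private theorem znb_int (hper : ∀ (q : P) (t r : ℝ), θ (q, t + 1, r) = θ (q, t, r)) (k : ℤ)
    (q : P) (t r : ℝ) : θ (q, t + k, r) = θ (q, t, r) := by
  have h : Function.Periodic (fun t => θ (q, t, r)) 1 := fun t => hper q t r
  have h1 := h.int_mul k t
  rw [mul_one] at h1
  exact h1

theorem exists_GF (hs : ContDiff ℝ ∞ θ)
    (hper : ∀ (q : P) (t r : ℝ), θ (q, t + 1, r) = θ (q, t, r)) (hM : 0 < M)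
    (hsupp : ∀ x : P × ℝ × ℝ, M ≤ |x.2.2| → θ x = 0)
    (hg : ∃ τ : ℝ, 0 < τ ∧ ∀ q ∈ N, ∀ Ψ, IsFlow (XP fun y => θ (q, y)) Ψ → GoodP M τ Ψ) :
    ∃ (O : Set P) (τ : ℝ) (Ψ : ℝ → P × ℝ × ℝ → P × ℝ × ℝ), GF N O θ M τ Ψ := by
  obtain ⟨Ψ, hF⟩ := exists_zflow hs
  obtain ⟨τ₀, hτ₀, hgood⟩ := hg
  have hX := znb_smooth hs
  let W : Set (P × ℝ × ℝ) := {x | M < (Ψ τ₀ x).2.2 ∧ (Ψ (-τ₀) x).2.2 < -M}
  have hWo : IsOpen W := by
    have c1 : Continuous fun x => (Ψ τ₀ x).2.2 :=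
      continuous_snd.comp (continuous_snd.comp (hF.contDiff_t τ₀).continuous)
    have c2 : Continuous fun x => (Ψ (-τ₀) x).2.2 :=
      continuous_snd.comp (continuous_snd.comp (hF.contDiff_t (-τ₀)).continuous)
    exact (isOpen_lt continuous_const c1).inter (isOpen_lt c2 continuous_const)
  let K : Set (ℝ × ℝ) := Icc 0 1 ×ˢ Icc (-M) M
  have hK : IsCompact K := isCompact_Icc.prod isCompact_Icc
  -- one unit of time outside the strip
  have hup : ∀ x : P × ℝ × ℝ, M < x.2.2 → (Ψ 1 x).2.2 = x.2.2 + 1 := by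
    intro x hx
    obtain ⟨Φ, hΦ⟩ := exists_pflow (znb_plane_smooth hs x.1)
    have h1 := z_plane hs hF x.1 hΦ 1 x.2
    have h2 : Φ 1 x.2 = (x.2.1, x.2.2 + 1) := p_vert (znb_plane_smooth hs x.1) hΦ (by
      intro σ hσ
      refine hsupp _ ?_
      show M ≤ |x.2.2 + 1 / 2 + σ|
      rw [abs_one, abs_le] at hσ
      exact le_trans (by linarith [hσ.1]) (le_abs_self _))
    rw [h2] at h1
    have h3 : Ψ 1 x = (x.1, x.2.1, x.2.2 + 1) := h1
    rw [h3]
  have hdn : ∀ x : P × ℝ × ℝ, x.2.2 < -M → (Ψ (-1) x).2.2 = x.2.2 + -1 := by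
    intro x hx
    obtain ⟨Φ, hΦ⟩ := exists_pflow (znb_plane_smooth hs x.1)
    have h1 := z_plane hs hF x.1 hΦ (-1) x.2
    have h2 : Φ (-1) x.2 = (x.2.1, x.2.2 + -1) := p_vert (znb_plane_smooth hs x.1) hΦ (by
      intro σ hσ
      refine hsupp _ ?_
      show M ≤ |x.2.2 + -1 / 2 + σ|
      rw [abs_neg, abs_one, abs_le] at hσ
      exact le_trans (by linarith [hσ.2]) (neg_le_abs _))
    rw [h2] at h1
    have h3 : Ψ (-1) x = (x.1, x.2.1, x.2.2 + -1) := h1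
    rw [h3]
  refine ⟨{q | ∀ p ∈ K, (q, p) ∈ W}, τ₀ + 1, Ψ, ?_, ?_, hs, hsupp, hM, by linarith, hF, ?_⟩
  · rw [isOpen_iff_mem_nhds]
    intro q hq
    exact hK.eventually_forall_of_forall_eventually fun p hp =>
      (hWo.mem_nhds (hq p hp) : ∀ᶠ z in 𝓝 (q, p), z ∈ W)
  · intro q hq p hp
    obtain ⟨Φ, hΦ⟩ := exists_pflow (znb_plane_smooth hs q)
    have h1 := hgood q hq Φ hΦ p (abs_le.2 ⟨hp.2.1, hp.2.2⟩)
    refine ⟨?_, ?_⟩
    · rw [z_plane hs hF q hΦ]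
      show M < (Φ τ₀ p).2
      linarith [h1.1]
    · rw [z_plane hs hF q hΦ]
      show (Φ (-τ₀) p).2 < -M
      linarith [h1.2]
  · rintro ⟨q, t, r⟩ hq hr
    have hr' := abs_le.1 hr
    obtain ⟨t₀, ht₀⟩ : ∃ t₀, t₀ = Int.fract t := ⟨_, rfl⟩
    have ht : t = t₀ + (⌊t⌋ : ℤ) := by
      rw [ht₀]
      exact (Int.fract_add_floor t).symm
    have hmem : (q, t₀, r) ∈ W := hq (t₀, r)
      ⟨⟨by rw [ht₀]; exact Int.fract_nonneg t, by rw [ht₀]; exact (Int.fract_lt_one t).le⟩, hr'⟩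
    have e1 : ∀ σ, (Ψ σ (q, t, r)).2.2 = (Ψ σ (q, t₀, r)).2.2 := by
      intro σ
      have h := z_shift hs hF (q := q) (q' := q) (s := (⌊t⌋ : ℤ))
        (fun t r => znb_int hper _ q t r) σ t₀ r
      rw [← ht] at h
      rw [h]
    have h1 : M < (Ψ τ₀ (q, t, r)).2.2 := by
      rw [e1]
      exact hmem.1
    have h2 : (Ψ (-τ₀) (q, t, r)).2.2 < -M := by
      rw [e1]
      exact hmem.2
    constructor
    · rw [add_comm τ₀ 1, ← hF.add hX, hup _ h1]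
      linarith
    · rw [show -(τ₀ + 1) = -1 + -τ₀ by ring, ← hF.add hX, hdn _ h2]
      linarith

end Pool.Agent.H57.CR
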