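import Pool.Agent.H57.CR.ZAct
import Pool.Agent.H2.TG.Plane2

/-!
# The second coordinate over `O` (module ZRho)

PORT of `Pool/Agent/H2/TG/Rho.lean` to `P × ℝ × ℝ`, over the open set `O`; simpler, because `B` is real valued: `c x = dpl B x (cos θ) (sin θ)`, `ρ x = (x.2.2 * cos (θ x) + dpl A x (cos θ) (sin θ)) / c x`. `dpl u x a b = a u_t + b u_r` is linear in `(a, b)`.
* `B_X`: `dpl B x (- sin θ) (cos θ) = 0` (differentiate `inv` at `t = 0`). `c x ≠ 0`: otherwise `(cos θ, sin θ) = c' (- sin θ, cos θ)` by `ker`. `c x > 0`: `c` is continuous on the plane of `x` (connected) and does not vanish there, and it is `1` for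
  `r < -M` (there `B = t`, `θ = 0`).
* `id`: check it on `(cos θ, sin θ)` (definition of `ρ`) and on `(- sin θ, cos θ)` (`- r sin θ + dpl A (- sin θ) (cos θ) = 0` by `actZ_deriv`, and `B_X`).
* `posρ`: `plane2` for the functions `b = B (q, ·)`, `A (q, ·)`, `ρ (q, ·)` on the plane (smooth on `ℝ × ℝ` for `q ∈ O`): `c x * dpl ρ x (- sin θ) (cos θ) = 1`. `botρ`: `θ = 0`, `c = 1`, `A = 0` for `r ≤ -M` (at `r = -M` by
  one sided derivatives in `t` direction only: `dpl A x 1 0 = 0`, `dpl B x 1 0 = 1` since `A (q, t, r) = 0`, `B (q, t, r) = t` along the horizontal line). `top`: as there.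
-/

set_option autoImplicit false
set_option linter.unusedSectionVars false

open scoped ContDiff Topology
open Set

namespace Pool.Agent.H57.CR

open Pool.Agent.H2.TG (IsFlow)

variable {P : Type} [NormedAddCommGroup P] [NormedSpace ℝ P] [FiniteDimensional ℝ P]

variable {N O : Set P} {θ : P × ℝ × ℝ → ℝ} {M τ : ℝ} {Ψ : ℝ → P × ℝ × ℝ → P × ℝ × ℝ}

private theorem ZRho_open (h : GF N O θ M τ Ψ) : IsOpen (O ×ˢ (univ : Set (ℝ × ℝ))) :=
  h.openO.prod isOpen_univ

private theorem ZRho_at {W : Type} [NormedAddCommGroup W] [NormedSpace ℝ W]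
    (h : GF N O θ M τ Ψ) {f : P × ℝ × ℝ → W}
    (hf : ContDiffOn ℝ ∞ f (O ×ˢ univ)) {x : P × ℝ × ℝ} (hx : x.1 ∈ O) :
    HasFDerivAt f (fderiv ℝ f x) x :=
  ((hf.contDiffAt ((ZRho_open h).mem_nhds ⟨hx, mem_univ _⟩)).differentiableAt
    (by simp)).hasFDerivAt

/-- the derivative of a smooth function in a smooth direction is smooth -/
private theorem ZRho_c (h : GF N O θ M τ Ψ) {f : P × ℝ × ℝ → ℝ}
    (hf : ContDiffOn ℝ ∞ f (O ×ˢ univ)) :
    ContDiffOn ℝ ∞ (fun x : P × ℝ × ℝ => dpl f x (Real.cos (θ x)) (Real.sin (θ x)))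
      (O ×ˢ univ) := by
  have h1 : ContDiffOn ℝ ∞ (fderiv ℝ f) (O ×ˢ univ) :=
    hf.fderiv_of_isOpen (ZRho_open h) (by simp)
  have h2 : ContDiff ℝ ∞ fun x : P × ℝ × ℝ =>
      ((0 : P), Real.cos (θ x), Real.sin (θ x)) :=
    contDiff_const.prodMk ((Real.contDiff_cos.comp h.smooth).prodMk
      (Real.contDiff_sin.comp h.smooth))
  exact h1.clm_apply h2.contDiffOn

private theorem ZRho_add (u : P × ℝ × ℝ → ℝ) (x : P × ℝ × ℝ) (a b θ : ℝ) :
    dpl u x a b = (a * Real.cos θ + b * Real.sin θ) * dpl u x (Real.cos θ) (Real.sin θ) +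
      (-a * Real.sin θ + b * Real.cos θ) * dpl u x (-Real.sin θ) (Real.cos θ) := by
  have h4 := Real.sin_sq_add_cos_sq θ
  have h5 : ((0 : P), a, b) = (a * Real.cos θ + b * Real.sin θ) •
      ((0 : P), Real.cos θ, Real.sin θ) +
      (-a * Real.sin θ + b * Real.cos θ) • ((0 : P), -Real.sin θ, Real.cos θ) := by
    refine Prod.ext ?_ (Prod.ext ?_ ?_)
    · simp
    · simp only [Prod.smul_mk, Prod.mk_add_mk, smul_eq_mul]
      linear_combination (-a) * h4
    · simp only [Prod.smul_mk, Prod.mk_add_mk, smul_eq_mul]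
      linear_combination (-b) * h4
  unfold dpl
  rw [h5, map_add, map_smul, map_smul, smul_eq_mul, smul_eq_mul]

private theorem ZRho_BX (h : GF N O θ M τ Ψ) {B : P × ℝ × ℝ → ℝ} (hB : BotZ O θ M Ψ B)
    {x : P × ℝ × ℝ} (hx : x.1 ∈ O) : dpl B x (-Real.sin (θ x)) (Real.cos (θ x)) = 0 := by
  have hBd : HasFDerivAt B (fderiv ℝ B x) (Ψ 0 x) := by
    rw [h.flow.zero]
    exact ZRho_at h hB.smooth hx
  have h1 := hBd.comp_hasDerivAt (0 : ℝ) (h.flow.deriv x 0)
  have h2 : (B ∘ fun t => Ψ t x) = fun _ => B x := by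
    funext t
    exact hB.inv t x hx
  rw [h2, h.flow.zero] at h1
  exact h1.unique (hasDerivAt_const _ _)

/-- restriction to a horizontal line -/
private theorem ZRho_line (h : GF N O θ M τ Ψ) {f : P × ℝ × ℝ → ℝ}
    (hf : ContDiffOn ℝ ∞ f (O ×ˢ univ)) {q : P} (hq : q ∈ O) (t r : ℝ) :
    HasDerivAt (fun s : ℝ => f (q, s, r)) (dpl f (q, t, r) 1 0) t := by
  have h1 : HasFDerivAt f (fderiv ℝ f (q, t, r)) (q, t, r) := ZRho_at h hf hq
  have h2 : HasDerivAt (fun s : ℝ => ((q, s, r) : P × ℝ × ℝ)) (0, 1, 0) t :=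
    (hasDerivAt_const _ _).prodMk ((hasDerivAt_id t).prodMk (hasDerivAt_const _ _))
  exact h1.comp_hasDerivAt t h2

private theorem ZRho_pos (h : GF N O θ M τ Ψ) {B : P × ℝ × ℝ → ℝ} (hB : BotZ O θ M Ψ B)
    {x : P × ℝ × ℝ} (hx : x.1 ∈ O) : 0 < dpl B x (Real.cos (θ x)) (Real.sin (θ x)) := by
  have hne : ∀ z : P × ℝ × ℝ, z.1 ∈ O →
      dpl B z (Real.cos (θ z)) (Real.sin (θ z)) ≠ 0 := by
    intro z hz h0
    obtain ⟨k, hk1, hk2⟩ := hB.ker z hz _ _ h0
    have h4 := Real.sin_sq_add_cos_sq (θ z)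
    have h5 : Real.sin (θ z) ^ 2 + Real.cos (θ z) ^ 2 = 0 := by
      calc Real.sin (θ z) ^ 2 + Real.cos (θ z) ^ 2
          = Real.sin (θ z) * Real.sin (θ z) + Real.cos (θ z) * Real.cos (θ z) := by ring
        _ = Real.sin (θ z) * (k * Real.cos (θ z)) + Real.cos (θ z) * (-k * Real.sin (θ z)) := by
            rw [← hk1, ← hk2]
        _ = 0 := by ring
    linarith
  have h0 : 0 < dpl B (x.1, 0, -M - 1) (Real.cos (θ (x.1, 0, -M - 1)))
      (Real.sin (θ (x.1, 0, -M - 1))) := by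
    have h1 : θ (x.1, 0, -M - 1) = 0 := h.supp _ (by
      show M ≤ |-M - 1|
      rw [le_abs]; right; linarith)
    have h2 := ZRho_line h hB.smooth hx 0 (-M - 1)
    have h3 : (fun s : ℝ => B (x.1, s, -M - 1)) = fun s => s := by
      funext s
      exact hB.bot (x.1, s, -M - 1) hx (by show -M - 1 ≤ -M; linarith)
    rw [h3] at h2
    rw [h1, Real.cos_zero, Real.sin_zero, h2.unique (hasDerivAt_id 0)]
    exact one_pos
  by_contra hneg
  push Not at hneg
  have hcont : Continuous fun y : ℝ × ℝ =>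
      dpl B (x.1, y) (Real.cos (θ (x.1, y))) (Real.sin (θ (x.1, y))) :=
    ((ZRho_c h hB.smooth).comp_contDiff (f := fun y : ℝ × ℝ => ((x.1, y) : P × ℝ × ℝ))
      (contDiff_const.prodMk contDiff_id) (fun y => ⟨hx, mem_univ _⟩)).continuous
  obtain ⟨z, hz⟩ := mem_range_of_exists_le_of_exists_ge hcont ⟨x.2, hneg⟩ ⟨(0, -M - 1), h0.le⟩
  exact hne (x.1, z) hx hz

private theorem ZRho_comp (h : GF N O θ M τ Ψ) {f : P × ℝ × ℝ → ℝ}
    (hf : ContDiffOn ℝ ∞ f (O ×ˢ univ)) {q : P} (hq : q ∈ O) (p : ℝ × ℝ) (t s : ℝ) :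
    fderiv ℝ (fun p : ℝ × ℝ => f (q, p)) p (t, s) = dpl f (q, p) t s := by
  have h1 : HasFDerivAt f (fderiv ℝ f (q, p)) (q, p) := ZRho_at h hf hq
  have h2 : HasFDerivAt (fun p : ℝ × ℝ => ((q, p) : P × ℝ × ℝ))
      (ContinuousLinearMap.inr ℝ P (ℝ × ℝ)) p := hasFDerivAt_prodMk_right q p
  have h3 := (h1.comp p h2).fderiv
  have h4 : (f ∘ fun p : ℝ × ℝ => ((q, p) : P × ℝ × ℝ)) = fun p : ℝ × ℝ => f (q, p) := rfl
  rw [h4] at h3
  rw [h3]
  rfl

theorem exists_SD (h : GF N O θ M τ Ψ) : ∃ B A ρ, SD O θ M Ψ B A ρ := by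
  obtain ⟨B, hB⟩ := exists_botZ h
  obtain ⟨A, hA⟩ := exists_actZ h
  obtain ⟨c, hc⟩ : ∃ c : P × ℝ × ℝ → ℝ, c = fun x => dpl B x (Real.cos (θ x)) (Real.sin (θ x)) :=
    ⟨_, rfl⟩
  have hcx : ∀ x, c x = dpl B x (Real.cos (θ x)) (Real.sin (θ x)) := fun x => by rw [hc]
  have hcs : ContDiffOn ℝ ∞ c (O ×ˢ univ) := by rw [hc]; exact ZRho_c h hB.smooth
  have hc0 : ∀ x : P × ℝ × ℝ, x.1 ∈ O → 0 < c x := fun x hx => by
    rw [hcx]; exact ZRho_pos h hB hx
  obtain ⟨ρ, hρ⟩ : ∃ ρ : P × ℝ × ℝ → ℝ, ρ = fun x =>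
      (x.2.2 * Real.cos (θ x) + dpl A x (Real.cos (θ x)) (Real.sin (θ x))) / c x := ⟨_, rfl⟩
  have hρx : ∀ x, ρ x =
      (x.2.2 * Real.cos (θ x) + dpl A x (Real.cos (θ x)) (Real.sin (θ x))) / c x :=
    fun x => by rw [hρ]
  have hρs : ContDiffOn ℝ ∞ ρ (O ×ˢ univ) := by
    rw [hρ]
    refine ContDiffOn.div ?_ hcs (fun x hx => (hc0 x hx.1).ne')
    exact ((contDiff_snd.comp contDiff_snd).mul
      (Real.contDiff_cos.comp h.smooth)).contDiffOn.add (ZRho_c h hA.smooth)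
  have hid : ∀ x : P × ℝ × ℝ, x.1 ∈ O → ∀ a b : ℝ,
      x.2.2 * a + dpl A x a b = ρ x * dpl B x a b := by
    intro x hx a b
    have h1 : ρ x * c x = x.2.2 * Real.cos (θ x) +
        dpl A x (Real.cos (θ x)) (Real.sin (θ x)) := by
      rw [hρx]
      exact div_mul_cancel₀ _ (hc0 x hx).ne'
    have h2 := ZRho_BX h hB hx
    have h3 := actZ_deriv h hA hx
    rw [ZRho_add A x a b (θ x), ZRho_add B x a b (θ x), h2, h3, ← hcx]
    have h5 := Real.sin_sq_add_cos_sq (θ x)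
    linear_combination (-(a * Real.cos (θ x) + b * Real.sin (θ x))) * h1 - x.2.2 * a * h5
  have hone : ∀ x : P × ℝ × ℝ, x.1 ∈ O →
      c x * dpl ρ x (-Real.sin (θ x)) (Real.cos (θ x)) = 1 := by
    intro x hx
    have hι : ContDiff ℝ ∞ fun y : ℝ × ℝ => ((x.1, y) : P × ℝ × ℝ) :=
      contDiff_const.prodMk contDiff_id
    have hm : ∀ y : ℝ × ℝ, ((x.1, y) : P × ℝ × ℝ) ∈ O ×ˢ (univ : Set (ℝ × ℝ)) :=
      fun y => ⟨hx, mem_univ _⟩
    have hpl := H2.TG.plane2 (b := fun p : ℝ × ℝ => B (x.1, p))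
      (A := fun p : ℝ × ℝ => A (x.1, p)) (ρ := fun p : ℝ × ℝ => ρ (x.1, p))
      (hB.smooth.comp_contDiff hι hm) (hA.smooth.comp_contDiff hι hm)
      (hρs.comp_contDiff hι hm)
      (fun p t s => by
        rw [ZRho_comp h hA.smooth hx, ZRho_comp h hB.smooth hx]
        exact hid (x.1, p) hx t s)
      (x₀ := x.2) (θ := θ x)
      (by
        rw [ZRho_comp h hB.smooth hx]
        exact ZRho_BX h hB hx)
    rw [ZRho_comp h hB.smooth hx, ZRho_comp h hρs hx] at hpl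
    rw [hcx]
    exact hpl
  have hposr : ∀ x : P × ℝ × ℝ, x.1 ∈ O →
      0 < dpl ρ x (-Real.sin (θ x)) (Real.cos (θ x)) := by
    intro x hx
    have h1 := hone x hx
    by_contra h2
    push Not at h2
    have := mul_nonpos_of_nonneg_of_nonpos (hc0 x hx).le h2
    linarith
  refine ⟨B, A, ρ, hB, hA, hρs, hid, fun x hx => ZRho_pos h hB hx, hposr, ?_, ?_⟩
  · -- bottom
    rintro ⟨q, t, r⟩ hx hr
    have h1 : θ (q, t, r) = 0 := h.supp _ (by
      show M ≤ |r|
      rw [le_abs]; right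
      have : r ≤ -M := hr
      linarith)
    have h2 : dpl B (q, t, r) 1 0 = 1 := by
      have h3 := ZRho_line h hB.smooth hx t r
      have h4 : (fun s : ℝ => B (q, s, r)) = fun s => s := by
        funext s
        exact hB.bot (q, s, r) hx hr
      rw [h4] at h3
      exact h3.unique (hasDerivAt_id t)
    have h5 : dpl A (q, t, r) 1 0 = 0 := by
      have h3 := ZRho_line h hA.smooth hx t r
      have h4 : (fun s : ℝ => A (q, s, r)) = fun _ => 0 := by
        funext s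
        exact hA.bot (q, s, r) hx hr
      rw [h4] at h3
      exact h3.unique (hasDerivAt_const _ _)
    rw [hρx, hcx, h1, Real.cos_zero, Real.sin_zero, h2, h5]
    simp
  · -- top
    intro x hx
    obtain ⟨t₀, ht₀⟩ := z_high h hx
    have hX := XZ_contDiff h.smooth
    obtain ⟨y, hy⟩ : ∃ y, y = Ψ t₀ x := ⟨_, rfl⟩
    have hyM : M ≤ y.2.2 := by rw [hy]; exact ht₀ t₀ le_rfl
    have hy1 : y.1 ∈ O := by
      rw [hy, z_fst h.flow]
      exact hx
    have hup : ∀ t, t₀ ≤ t → Ψ t x = (y.1, y.2.1, y.2.2 + (t - t₀)) := by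
      intro t ht
      have h1 := z_up h hyM (t := t - t₀) (by linarith)
      rw [hy, h.flow.add hX, sub_add_cancel, ← hy] at h1
      exact h1
    have hcc : ∀ r, M ≤ r → c (y.1, y.2.1, r) = c (y.1, y.2.1, M) := by
      intro r hr
      have h1 : θ (y.1, y.2.1, r) = 0 := h.supp _ (by
        show M ≤ |r|
        exact le_trans hr (le_abs_self r))
      have h2 : θ (y.1, y.2.1, M) = 0 := h.supp _ (by
        show M ≤ |M|
        exact le_abs_self M)
      have h3 := ZRho_line h hB.smooth hy1 y.2.1 r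
      have h4 := ZRho_line h hB.smooth hy1 y.2.1 M
      have h5 : (fun s : ℝ => B (y.1, s, r)) = fun s => B (y.1, s, M) := by
        funext s
        have h6 := z_up h (x := (y.1, s, M)) (le_refl M) (t := r - M) (by linarith)
        have h7 : (((y.1, s, M) : P × ℝ × ℝ).1, ((y.1, s, M) : P × ℝ × ℝ).2.1,
            ((y.1, s, M) : P × ℝ × ℝ).2.2 + (r - M)) = (y.1, s, r) := by
          refine Prod.ext rfl (Prod.ext rfl ?_)
          show M + (r - M) = r
          ring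
        rw [h7] at h6
        rw [← h6]
        exact hB.inv (r - M) (y.1, s, M) hy1
      rw [h5] at h3
      rw [hcx, hcx, h1, h2, Real.cos_zero, Real.sin_zero]
      exact h3.unique h4
    obtain ⟨c₀, hc₀⟩ : ∃ c₀, c₀ = c (y.1, y.2.1, M) := ⟨_, rfl⟩
    have hc₀0 : 0 < c₀ := by rw [hc₀]; exact hc0 _ hy1
    have hder : ∀ t, t₀ ≤ t → HasDerivAt (fun t => ρ (Ψ t x)) (1 / c₀) t := by
      intro t ht
      have hxt : (Ψ t x).1 ∈ O := by
        rw [z_fst h.flow]
        exact hx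
      have h1 : HasFDerivAt ρ (fderiv ℝ ρ (Ψ t x)) (Ψ t x) := ZRho_at h hρs hxt
      have h2 := h1.comp_hasDerivAt t (h.flow.deriv x t)
      have h3 := hone (Ψ t x) hxt
      have h4 : c (Ψ t x) = c₀ := by
        rw [hup t ht, hc₀]
        exact hcc _ (by linarith)
      rw [h4] at h3
      have h5 : fderiv ℝ ρ (Ψ t x) (XZ θ (Ψ t x)) = 1 / c₀ := by
        have h6 : fderiv ℝ ρ (Ψ t x) (XZ θ (Ψ t x)) =
          dpl ρ (Ψ t x) (-Real.sin (θ (Ψ t x))) (Real.cos (θ (Ψ t x))) := rfl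
        rw [h6, eq_div_iff hc₀0.ne']
        linarith
      rw [h5] at h2
      exact h2
    have hval : ∀ t, t₀ ≤ t → ρ (Ψ t x) = ρ (Ψ t₀ x) + (t - t₀) * (1 / c₀) := by
      intro t ht
      have hg : ∀ s ∈ Set.Icc t₀ t, HasDerivAt (fun s => ρ (Ψ s x) - (s - t₀) * (1 / c₀)) 0 s := by
        intro s hs
        have h1 := (hder s hs.1).sub (((hasDerivAt_id s).sub_const t₀).mul_const (1 / c₀))
        rw [one_mul, sub_self] at h1
        exact h1
      have h2 := constant_of_has_deriv_right_zero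
        (f := fun s => ρ (Ψ s x) - (s - t₀) * (1 / c₀)) (a := t₀) (b := t)
        (fun s hs => (hg s hs).continuousAt.continuousWithinAt)
        (fun s hs => (hg s (Ico_subset_Icc_self hs)).hasDerivWithinAt) t ⟨ht, le_rfl⟩
      simp only [sub_self, zero_mul, sub_zero] at h2
      linarith
    have htend : Filter.Tendsto (fun t => ρ (Ψ t₀ x) + (t - t₀) * (1 / c₀)) Filter.atTop
        Filter.atTop := by
      refine Filter.tendsto_atTop_add_const_left _ _ ?_
      refine Filter.Tendsto.atTop_mul_const (by positivity) ?_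
      exact Filter.tendsto_atTop_add_const_right _ _ Filter.tendsto_id
    refine htend.congr' ?_
    filter_upwards [Filter.eventually_ge_atTop t₀] with t ht
    exact (hval t ht).symm

end Pool.Agent.H57.CR
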